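import Pool.Agent.P.MP_5f07f1_co.Step

/-! Task BUILD: existence of the tree (paper section 2). -/

namespace Pool.Agent.P.MP_5f07f1_co

open Finset MvPolynomial Pool.Agent.Lib.PolyPart Classical

variable {d : ℕ}

namespace BuildX

/-- A partition tree below the labelling `l₀`, relative to the weight `B`. -/
structure RT (D Λ : ℕ → ℕ) (M n B J : ℕ) (Q : Finset (E d)) (l₀ : E d → Lab d) (s : ℕ)
    (j : ℕ → ℕ) (l : ℕ → E d → Lab d) (core : ℕ → E d → Set (E d)) : Prop where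
  anti : ∀ i i', i ≤ i' → i' < s → j i' ≤ j i
  pos : ∀ i < s, 1 ≤ j i ∧ j i ≤ J
  lvl : ∀ i < s, Lvl (j i) (D (j i)) (Λ (j i)) Q (l i) (l (i + 1)) (core i)
  zero : l 0 = l₀
  size : ∀ i ≤ s, ∀ b, #{z ∈ Q | l i z = b} * (B * ∏ k ∈ range i, D (j k) ^ j k) ≤ n
  top : B * ∏ k ∈ range s, D (j k) ^ j k ≤ n
  bot : ∀ b, #{z ∈ Q | l s z = b} ≤ M

/-- The state of the construction. -/
structure St (j c n B : ℕ) (Q : Finset (E d)) (l : E d → Lab d) : Prop where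
  tw : ∃ (T : Lab d → Tw d j c) (x₀ : Lab d → E d),
    ∀ x ∈ Q, x ∈ connectedComponentIn (T (l x)).X (x₀ (l x))
  size : ∀ b, #{z ∈ Q | l z = b} * B ≤ n
  top : B ≤ n
  pos : 1 ≤ B

variable {D Λ D' Λ' : ℕ → ℕ} {M M' n B J : ℕ} {Q Q' : Finset (E d)} {l₀ l₁ : E d → Lab d} {s : ℕ}
  {j : ℕ → ℕ} {l : ℕ → E d → Lab d} {core : ℕ → E d → Set (E d)}

theorem RT.nil (h1 : ∀ b, #{z ∈ Q | l₀ z = b} * B ≤ n) (h2 : B ≤ n)
    (h3 : ∀ b, #{z ∈ Q | l₀ z = b} ≤ M) :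
    RT D Λ M n B J Q l₀ 0 (fun _ => 0) (fun _ => l₀) fun _ _ => ∅ where
  anti _ _ _ h := absurd h (Nat.not_lt_zero _)
  pos _ h := absurd h (Nat.not_lt_zero _)
  lvl _ h := absurd h (Nat.not_lt_zero _)
  zero := rfl
  size i hi b := by
    rw [Nat.le_zero.1 hi]
    simpa using h1 b
  top := by simpa using h2
  bot := h3

theorem RT.congr (h : RT D Λ M n B J Q l₀ s j l core) (hD : ∀ i ≤ J, D' i = D i)
    (hΛ : ∀ i ≤ J, Λ' i = Λ i) (hM : M ≤ M') : RT D' Λ' M' n B (J + 1) Q l₀ s j l core := by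
  have e : ∀ i ≤ s, ∏ k ∈ range i, D' (j k) ^ j k = ∏ k ∈ range i, D (j k) ^ j k := fun i hi =>
    prod_congr rfl fun k hk => by rw [hD _ (h.pos k ((mem_range.1 hk).trans_le hi)).2]
  refine ⟨h.anti, fun i hi => ⟨(h.pos i hi).1, (h.pos i hi).2.trans J.le_succ⟩, fun i hi => ?_,
    h.zero, fun i hi b => ?_, ?_, fun b => (h.bot b).trans hM⟩
  · rw [hD _ (h.pos i hi).2, hΛ _ (h.pos i hi).2]
    exact h.lvl i hi
  · rw [e i hi]
    exact h.size i hi b
  · rw [e s le_rfl]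
    exact h.top

/-- Prepending a term to a sequence. -/
def cons {α : Type*} (a : α) (f : ℕ → α) (i : ℕ) : α := Nat.casesOn i a f

theorem RT.cons (h : RT D Λ M n (B * D J ^ J) J Q l₁ s j l core) (hJ : 1 ≤ J)
    {c₀ : E d → Set (E d)} (hl : Lvl J (D J) (Λ J) Q l₀ l₁ c₀)
    (h1 : ∀ b, #{z ∈ Q | l₀ z = b} * B ≤ n) :
    RT D Λ M n B J Q l₀ (s + 1) (cons J j) (cons l₀ l) (cons c₀ core) := by
  have e : ∀ i, B * ∏ k ∈ range (i + 1), D (BuildX.cons J j k) ^ BuildX.cons J j k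
      = B * D J ^ J * ∏ k ∈ range i, D (j k) ^ j k := fun i => by
    rw [prod_range_succ', mul_assoc, mul_comm (D J ^ J)]
    rfl
  refine ⟨fun i i' hi hi' => ?_, fun i hi => ?_, fun i hi => ?_, rfl, fun i hi b => ?_, ?_, h.bot⟩
  · rcases i' with _ | i'
    · rw [Nat.le_zero.1 hi]
    · rcases i with _ | i
      · exact (h.pos i' (by omega)).2
      · exact h.anti i i' (by omega) (by omega)
  · rcases i with _ | i
    · exact ⟨hJ, le_rfl⟩
    · exact h.pos i (by omega)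
  · rcases i with _ | i
    · rw [← h.zero] at hl
      exact hl
    · exact h.lvl i (by omega)
  · rcases i with _ | i
    · rw [prod_range_zero, mul_one]
      exact h1 b
    · rw [e]
      exact h.size i (by omega) b
  · rw [e]
    exact h.top

theorem popular {α β : Type*} [DecidableEq β] (A : Finset α) (hA : A.Nonempty) (f : α → β) {N : ℕ}
    (h : #(A.image f) ≤ N) : ∃ x₀ ∈ A, #A ≤ N * #{x ∈ A | f x = f x₀} := by
  obtain ⟨x₀, h0, h1⟩ := exists_max_image A (fun z => #{x ∈ A | f x = f z}) hA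
  refine ⟨x₀, h0, (card_le_mul_card_image (f := f) A _ fun b hb => ?_).trans
    ((mul_comm _ _).trans_le (Nat.mul_le_mul_right _ h))⟩
  obtain ⟨z, hz, rfl⟩ := mem_image.1 hb
  exact h1 z hz

theorem card_comp_le {S : Set (E d)} {N : ℕ} (h : ∀ R : Finset (E d), Apart S R → #R ≤ N)
    (A : Finset (E d)) (hA : ∀ x ∈ A, x ∈ S) : #(A.image (connectedComponentIn S)) ≤ N := by
  obtain ⟨R, h1, h2, h3⟩ := exists_subset_injOn_image_eq_of_surjOn
    (f := connectedComponentIn S) (A : Set (E d)) (A.image (connectedComponentIn S))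
    (by rw [coe_image]; exact Set.surjOn_image _ _)
  rw [← h3]
  exact card_image_le.trans (h R ⟨fun x hx => hA x (h1 hx), fun x hx z hz e =>
    h2 hx hz (connectedComponentIn_eq e)⟩)

theorem piece (d j c D : ℕ) : ∃ K : ℕ, ∀ (T : Tw d (j + 1) c) (ψ : MP (j + 1)), ψ ≠ 0 →
    ψ.totalDegree ≤ D → ∀ A : Finset (E d), A.Nonempty →
    (∀ x ∈ A, x ∈ T.X ∧ eval (T.yv x) ψ = 0) →
    ∃ (T' : Tw d j ((c + 1) * (D + 1))) (x₀ : E d),
      #A ≤ K * #{x ∈ A | x ∈ connectedComponentIn T'.X x₀} := by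
  obtain ⟨κ, hκ⟩ := count_all d j ((c + 1) * (D + 1))
  refine ⟨D * κ, fun T ψ h0 hD A hA h => ?_⟩
  obtain ⟨m, Ts, hm, -, hc⟩ := T.descend D ψ h0 hD
  obtain ⟨z, hz⟩ := hA
  obtain ⟨i₀, -⟩ := hc z (h z hz).1 (h z hz).2
  have : Nonempty (Fin m) := ⟨i₀⟩
  choose! f hf using fun x (hx : x ∈ A) => hc x (h x hx).1 (h x hx).2
  obtain ⟨x₁, h1, h2⟩ := popular A ⟨z, hz⟩ f (N := D)
    ((card_le_univ _).trans (by simpa using hm))
  have h3 : ∀ x ∈ {x ∈ A | f x = f x₁}, x ∈ (Ts (f x₁)).X := fun x hx => by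
    rw [← (mem_filter.1 hx).2]
    exact hf x (mem_filter.1 hx).1
  obtain ⟨x₂, -, h4⟩ := popular {x ∈ A | f x = f x₁} ⟨x₁, mem_filter.2 ⟨h1, rfl⟩⟩
    (connectedComponentIn (Ts (f x₁)).X) (N := κ) (card_comp_le (fun R hR => by
      have := hκ (Ts (f x₁)) 1 R (by simpa [NZ] using hR)
      simpa using this) _ h3)
  refine ⟨Ts (f x₁), x₂, h2.trans ?_⟩
  rw [mul_assoc]
  refine Nat.mul_le_mul_left _ (h4.trans (Nat.mul_le_mul_left _ (card_le_card fun x hx => ?_)))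
  obtain ⟨h5, h6⟩ := mem_filter.1 hx
  refine mem_filter.2 ⟨(mem_filter.1 h5).1, ?_⟩
  rw [← h6]
  exact mem_connectedComponentIn (h3 x h5)

theorem size_mono (h : Q' ⊆ Q) (h1 : ∀ b, #{z ∈ Q | l₀ z = b} * B ≤ n) (b : Lab d) :
    #{z ∈ Q' | l₀ z = b} * B ≤ n :=
  (Nat.mul_le_mul_right _ (card_le_card (filter_subset_filter _ h))).trans (h1 b)

theorem pieces (d j c D : ℕ) : ∃ K : ℕ, ∀ (T : Lab d → Tw d (j + 1) c) (ψ : Lab d → MP (j + 1)),
    (∀ b, ψ b ≠ 0 ∧ (ψ b).totalDegree ≤ D) → ∀ (l : E d → Lab d) (Q : Finset (E d)), Q.Nonempty →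
    (∀ x ∈ Q, x ∈ (T (l x)).X ∧ eval ((T (l x)).yv x) (ψ (l x)) = 0) →
    ∃ Q' ⊆ Q, #Q ≤ K * #Q' ∧ ∃ (T' : Lab d → Tw d j ((c + 1) * (D + 1))) (x₀ : Lab d → E d),
      ∀ x ∈ Q', x ∈ connectedComponentIn (T' (l x)).X (x₀ (l x)) := by
  obtain ⟨K, hK⟩ := piece d j c D
  refine ⟨K, fun T ψ hψ l Q hQ h => ?_⟩
  have h1 : ∀ b, ({x ∈ Q | l x = b} : Finset (E d)).Nonempty →
      ∃ (T' : Tw d j ((c + 1) * (D + 1))) (x₀ : E d), #{x ∈ Q | l x = b} ≤
        K * #{x ∈ {x ∈ Q | l x = b} | x ∈ connectedComponentIn T'.X x₀} := fun b hb =>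
    hK (T b) (ψ b) (hψ b).1 (hψ b).2 _ hb fun x hx => by
      rw [← (mem_filter.1 hx).2]
      exact h x (mem_filter.1 hx).1
  obtain ⟨z, hz⟩ := hQ
  obtain ⟨T₀, -⟩ := h1 (l z) ⟨z, mem_filter.2 ⟨hz, rfl⟩⟩
  have h2 : ∀ b, ∃ (T' : Tw d j ((c + 1) * (D + 1))) (x₀ : E d), #{x ∈ Q | l x = b} ≤
      K * #{x ∈ {x ∈ Q | l x = b} | x ∈ connectedComponentIn T'.X x₀} := fun b => by
    rcases ({x ∈ Q | l x = b} : Finset (E d)).eq_empty_or_nonempty with e | e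
    · exact ⟨T₀, z, by simp [e]⟩
    · exact h1 b e
  choose T' x₀ h3 using h2
  refine ⟨{x ∈ Q | x ∈ connectedComponentIn (T' (l x)).X (x₀ (l x))}, filter_subset _ _, ?_,
    T', x₀, fun x hx => (mem_filter.1 hx).2⟩
  rw [card_eq_sum_card_fiberwise (f := l) (s := Q) (t := Q.image l)
      fun x hx => mem_image_of_mem l hx,
    card_eq_sum_card_fiberwise (f := l) (t := Q.image l)
      (s := {x ∈ Q | x ∈ connectedComponentIn (T' (l x)).X (x₀ (l x))})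
      fun x hx => mem_image_of_mem l (mem_filter.1 hx).1, mul_sum]
  refine sum_le_sum fun b _ => (h3 b).trans (Nat.mul_le_mul_left _ (card_le_card fun x hx => ?_))
  obtain ⟨h4, h5⟩ := mem_filter.1 hx
  obtain ⟨h6, rfl⟩ := mem_filter.1 h4
  exact mem_filter.2 ⟨mem_filter.2 ⟨h6, h5⟩, rfl⟩

theorem child {j c k : ℕ} (T : Tw d j c) (Δ : MP j) (h : Fin k → MP j) (z : E d) :
    ∃ σ : Fin k → Bool, ∀ x ∈ connectedComponentIn (T.X ∩ NZ (aeval T.y (Δ * ∏ i, h i))) z,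
      ∀ i, 0 < sg (σ i) * eval (T.yv x) (h i) := by
  set S := T.X ∩ NZ (aeval T.y (Δ * ∏ i, h i)) with hS
  have h0 : ∀ x ∈ S, ∀ i, eval (T.yv x) (h i) ≠ 0 := fun x hx i => by
    have := hx.2
    rw [NZ, Set.mem_ofPred_eq, T.eval_aeval_y, map_mul, map_prod] at this
    exact prod_ne_zero_iff.1 (right_ne_zero_of_mul this) i (mem_univ _)
  refine ⟨fun i => decide (0 < eval (T.yv z) (h i)), fun x hx i => ?_⟩
  have hz : z ∈ S := connectedComponentIn_nonempty_iff.1 ⟨x, hx⟩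
  have hc : Continuous fun x => eval (T.yv x) (h i) := by
    simp only [← T.eval_aeval_y]
    exact continuous_eval _
  have h1 : ∀ w ∈ connectedComponentIn S z, eval (T.yv w) (h i) ≠ 0 := fun w hw =>
    h0 w (connectedComponentIn_subset _ _ hw) i
  by_cases e : 0 < eval (T.yv z) (h i)
  · simp only [e, decide_true, sg_true, one_mul]
    exact isPreconnected_connectedComponentIn.lt_of_ne hc.continuousOn h1
      ⟨z, mem_connectedComponentIn hz, e⟩ hx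
  · simp only [e, decide_false, sg_false, neg_mul, one_mul, Left.neg_pos_iff]
    exact isPreconnected_connectedComponentIn.gt_of_ne hc.continuousOn h1
      ⟨z, mem_connectedComponentIn hz, lt_of_le_of_ne (not_lt.1 e) (h0 z hz i)⟩ hx

theorem round (d j c : ℕ) {η : ℝ} (hη : 0 < η) : ∃ D Λ c' K : ℕ,
    4 ≤ Λ ∧ (Λ : ℝ) ≤ (D : ℝ) ^ η ∧ 2 ≤ D ∧ ∀ (n B : ℕ) (Q : Finset (E d)) (l : E d → Lab d),
      St (j + 1) c n B Q l → B * D ^ (j + 1) ≤ n →
      (∃ Q' ⊆ Q, #Q ≤ 2 * #Q' ∧ ∃ l' core, Lvl (j + 1) D Λ Q' l l' core ∧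
        St (j + 1) c n (B * D ^ (j + 1)) Q' l') ∨
      ∃ Q' ⊆ Q, #Q ≤ K * #Q' ∧ St j c' n B Q' l := by
  obtain ⟨a, c', hcov⟩ := cover d (j + 1) c
  obtain ⟨κ, hκ⟩ := lvl_of_towers d (j + 1) c c' (by omega)
  obtain ⟨m, hm, hΛ⟩ := exists_pow_ge (κ + 4) (4 * a + 4 * (j + 1) ^ 2 + 4) (j + 1)
    (ρ := (2 : ℝ) ^ η) (Real.one_lt_rpow one_lt_two hη)
  set b := 4 * a + 4 * (j + 1) ^ 2 + 4 with hb
  set Δ := a + m * (j + 1) * ((j + 1) * 2 ^ m) with hΔ
  obtain ⟨K, hK⟩ := pieces d j c Δ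
  have hb1 : 1 ≤ b * m + b := by omega
  have hD : 1 ≤ 2 ^ m := Nat.one_le_two_pow
  refine ⟨2 ^ m, (κ + 4) * (b * m + b) ^ (j + 1), (c + 1) * (Δ + 1), 2 * K,
    le_mul_of_le_of_one_le (by omega) (Nat.one_le_pow _ _ hb1), ?_,
    (pow_one 2).ge.trans (Nat.pow_le_pow_right two_pos hm), fun n B Q l hS hB => ?_⟩
  · rw [Nat.cast_pow, Nat.cast_ofNat, ← Real.rpow_natCast, ← Real.rpow_mul zero_le_two,
      mul_comm (m : ℝ), Real.rpow_mul zero_le_two, Real.rpow_natCast]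
    exact_mod_cast hΛ
  obtain ⟨T, x₀, hT⟩ := hS.tw
  choose Δb h1 h2 h3 using hcov
  choose h h4 h5 using fun b : Lab d => poly_partition (j + 1) (2 ^ m) (m * (j + 1))
    (by rw [pow_mul]; exact Nat.pow_le_pow_left (Nat.le_succ _) _) (T b).yv {z ∈ Q | l z = b}
  set g : Lab d → MP (j + 1) := fun b => Δb (T b) * ∏ i, h b i with hg
  have hg1 : ∀ b, g b ≠ 0 ∧ (g b).totalDegree ≤ Δ := fun b =>
    ⟨mul_ne_zero (h1 _) (prod_ne_zero_iff.2 fun i _ => (h4 b i).1),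
      (totalDegree_mul _ _).trans (add_le_add (h2 _) ((totalDegree_finsetProd _ _).trans
        ((sum_le_sum fun i _ => (h4 b i).2).trans (by simp))))⟩
  obtain ⟨N, hN, hs⟩ : ∃ N : Finset (E d), (∀ x ∈ N, x ∈ Q ∧
      eval x (aeval (T (l x)).y (g (l x))) = 0) ∧
      #{x ∈ Q | eval x (aeval (T (l x)).y (g (l x))) ≠ 0} + #N = #Q :=
    ⟨_, fun x hx => ⟨(mem_filter.1 hx).1, not_not.1 (mem_filter.1 hx).2⟩,
      card_filter_add_card_filter_not _⟩
  by_cases hc : #Q ≤ 2 * #{x ∈ Q | eval x (aeval (T (l x)).y (g (l x))) ≠ 0}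
  · refine Or.inl ⟨_, filter_subset _ _, hc, _, _, hκ Δ _ _ hD (fun e he => ?_) _ l T x₀
      (fun b => aeval (T b).y (g b)) (fun b => ?_) (fun b => h3 _ _)
      fun x hx => ⟨hT x (mem_filter.1 hx).1, (mem_filter.1 hx).2⟩,
      ⟨fun b => T b.tail, fun b => x₀ b.tail, fun x hx => hT x (mem_filter.1 hx).1⟩,
      fun b' => ?_, hB, le_mul_of_le_of_one_le hS.pos (Nat.one_le_pow _ _ hD)⟩
    · have e1 : 4 * Δ + 4 ≤ (b * m + b) * 2 ^ m := by
        have e2 : 4 * a + 4 ≤ b * 2 ^ m := le_mul_of_le_of_one_le (by omega) hD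
        have e3 : 4 * (j + 1) ^ 2 * (m * 2 ^ m) ≤ b * (m * 2 ^ m) :=
          Nat.mul_le_mul_right _ (by omega)
        rw [hΔ]
        nlinarith
      calc _ ≤ (κ + 4) * ((b * m + b) * 2 ^ m) ^ e := by gcongr; omega
        _ ≤ _ := by
          rw [mul_pow, ← mul_assoc]
          gcongr
    · exact (totalDegree_aeval_le _ 1 (T b).nice'.1 _).trans (by simpa using (hg1 b).2)
    · rcases b' with _ | ⟨S, b⟩
      · simp
      rcases Finset.eq_empty_or_nonempty {z ∈ {x ∈ Q | eval x (aeval (T (l x)).y (g (l x))) ≠ 0} |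
        connectedComponentIn ((T (l z)).X ∩ NZ (aeval (T (l z)).y (g (l z)))) z :: l z = S :: b}
        with e | ⟨z, hz⟩
      · rw [e]
        simp
      obtain ⟨σ, hσ⟩ := child (T b) (Δb (T b)) (h b) z
      refine le_trans ?_ (hS.size b)
      rw [mul_comm B, ← mul_assoc, ← pow_mul, mul_comm _ (2 ^ _)]
      refine Nat.mul_le_mul_right _ (le_trans (Nat.mul_le_mul_left _
        (card_le_card fun x hx => ?_)) (h5 b σ))
      obtain ⟨-, z2⟩ := mem_filter.1 hz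
      obtain ⟨x1, x2⟩ := mem_filter.1 hx
      obtain ⟨x3, x4⟩ := mem_filter.1 x1
      obtain ⟨z3, z4⟩ := List.cons.inj z2
      obtain ⟨x5, x6⟩ := List.cons.inj x2
      refine mem_filter.2 ⟨mem_filter.2 ⟨x3, x6⟩, hσ x ?_⟩
      rw [z4] at z3
      change x ∈ connectedComponentIn ((T b).X ∩ NZ (aeval (T b).y (g b))) z
      rw [z3, ← x5]
      exact mem_connectedComponentIn ⟨connectedComponentIn_subset _ _ (hT x x3), x4⟩
  · obtain ⟨Q', q1, q2, q3⟩ := hK T g hg1 l N (card_pos.1 (by omega)) fun x hx =>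
      ⟨connectedComponentIn_subset _ _ (hT x (hN x hx).1), by
        rw [← Tw.eval_aeval_y]
        exact (hN x hx).2⟩
    have q4 : Q' ⊆ Q := fun x hx => (hN x (q1 hx)).1
    refine Or.inr ⟨Q', q4, ?_, q3, size_mono q4 hS.size, hS.top, hS.pos⟩
    rw [mul_assoc]
    omega

theorem main (d : ℕ) {η : ℝ} (hη : 0 < η) (j : ℕ) : ∀ c : ℕ, ∃ (D Λ : ℕ → ℕ) (M C : ℕ),
    (∀ i, 1 ≤ i → i ≤ j → 4 ≤ Λ i ∧ (Λ i : ℝ) ≤ (D i : ℝ) ^ η ∧ 2 ≤ D i ∧ D i ^ d ≤ M ∧ Λ i ≤ M) ∧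
    1 ≤ M ∧ ∀ (n B : ℕ) (Q : Finset (E d)) (l₀ : E d → Lab d), St j c n B Q l₀ →
      ∃ Q' ⊆ Q, ∃ s jj l core, RT D Λ M n B j Q' l₀ s jj l core ∧ #Q ≤ C * 4 ^ s * #Q' := by
  induction j with
  | zero =>
    refine fun c => ⟨fun _ => 0, fun _ => 0, c + 1, 1, fun i h1 h2 => by omega, by omega,
      fun n B Q l₀ hS => ⟨Q, subset_rfl, _, _, _, _, RT.nil hS.size hS.top fun b => ?_, by simp⟩⟩
    obtain ⟨T, x₀, hT⟩ := hS.tw
    refine ((T b).nice'.card_le _ fun x hx => ((T b).van_iff x).2 ?_).trans c.le_succ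
    rw [← (mem_filter.1 hx).2]
    exact (connectedComponentIn_subset _ _ (hT x (mem_filter.1 hx).1)).1
  | succ j ih =>
    intro c
    obtain ⟨D₀, Λ₀, c', K, p1, p2, p3, hr⟩ := round d j c hη
    obtain ⟨D, Λ, M, C, hP, hM, hC⟩ := ih c'
    refine ⟨Function.update D (j + 1) D₀, Function.update Λ (j + 1) Λ₀,
      M + D₀ ^ d + D₀ ^ (j + 1) + Λ₀, K * C + 1, fun i h1 h2 => ?_, by omega, fun n B => ?_⟩
    · by_cases h : i = j + 1
      · subst h
        simp only [Function.update_self]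
        exact ⟨p1, p2, p3, by omega, by omega⟩
      · simp only [Function.update_of_ne h]
        obtain ⟨q1, q2, q3, q4, q5⟩ := hP i h1 (by omega)
        exact ⟨q1, q2, q3, by omega, by omega⟩
    induction hk : n - B using Nat.strong_induction_on generalizing B with
    | _ k ihk =>
    intro Q l₀ hS
    by_cases hB : B * D₀ ^ (j + 1) ≤ n
    · rcases hr n B Q l₀ hS hB with ⟨Q₁, q1, q2, l₁, c₀, q3, q4⟩ | ⟨Q₁, q1, q2, q3⟩
      · have h2 : 2 ≤ D₀ ^ (j + 1) := p3.trans (Nat.le_self_pow (by omega) _)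
        have h3 := Nat.mul_le_mul_left B h2
        have h4 := hS.pos
        obtain ⟨Q', r1, s, jj, l, core, r2, r3⟩ := ihk _ (by omega) (B * D₀ ^ (j + 1)) rfl Q₁ l₁ q4
        refine ⟨Q', r1.trans q1, s + 1, _, _, _, RT.cons (c₀ := c₀) (by simpa using r2) (by omega)
          (by simpa using q3.mono r1) (size_mono (r1.trans q1) hS.size), ?_⟩
        rw [pow_succ, ← mul_assoc, mul_right_comm]
        omega
      · obtain ⟨Q', r1, s, jj, l, core, r2, r3⟩ := hC n B Q₁ l₀ q3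
        refine ⟨Q', r1.trans q1, s, jj, l, core,
          r2.congr (fun i hi => Function.update_of_ne (by omega) _ _)
            (fun i hi => Function.update_of_ne (by omega) _ _) (by omega), ?_⟩
        calc #Q ≤ K * (C * 4 ^ s * #Q') := q2.trans (Nat.mul_le_mul_left _ r3)
          _ = K * C * 4 ^ s * #Q' := by ring
          _ ≤ _ := by gcongr; omega
    · refine ⟨Q, subset_rfl, _, _, _, _, RT.nil hS.size hS.top fun b => ?_, ?_⟩
      · have h1 := (hS.size b).trans_lt (not_le.1 hB)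
        rw [mul_comm B] at h1
        have := lt_of_mul_lt_mul_right h1 B.zero_le
        omega
      · rw [pow_zero, mul_one]
        exact Nat.le_mul_of_pos_left _ (by omega)

end BuildX

/-- Induction on the dimension `j` of the towers (constants depend on `j, c`) and, inside, on the
size bound. State: a labelling `l` of `Q` with towers `T b`, base points `x₀ b`, and a bound
`card cell * B ≤ n`, `B ≤ n`. Stop if `j = 0` (cells have at most `c` points) or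
`n < B * D ^ j`. -/
theorem exists_ptree (d : ℕ) {η : ℝ} (hη : 0 < η) : ∃ (D Λ : ℕ → ℕ) (M C : ℕ), Par d η D Λ M ∧
    1 ≤ M ∧ ∀ P : Finset (E d), P.Nonempty → ∃ Q ⊆ P, ∃ s j l core,
      PTree D Λ M #P Q s j l core ∧ #P ≤ C * 4 ^ s * #Q := by
  obtain ⟨D, Λ, M, C, h1, h2, h3⟩ := BuildX.main d hη d 1
  refine ⟨D, Λ, M, C, h1, h2, fun P hP => ?_⟩
  obtain ⟨T, hT⟩ := Tw.exists_root d
  obtain ⟨Q, q1, s, j, l, core, q2, q3⟩ := h3 #P 1 P (fun _ => [])
    ⟨⟨fun _ => T, fun _ => 0, fun x _ => by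
        rw [hT, connectedComponentIn_univ, PreconnectedSpace.connectedComponent_eq_univ]
        trivial⟩,
      fun b => (mul_one _).trans_le (card_filter_le _ _), card_pos.2 hP, le_rfl⟩
  exact ⟨Q, q1, s, j, l, core, ⟨q2.anti, q2.pos, q2.lvl, fun x _ z _ => by rw [q2.zero],
    fun i hi b => by simpa using q2.size i hi b, by simpa using q2.top, q2.bot⟩, q3⟩

end Pool.Agent.P.MP_5f07f1_co
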