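import Pool.Agent.P.MP_5f07f1_co.Defs

/-! Task CHART: local analytic sections of a tower (paper section 1). -/

namespace Pool.Agent.P.MP_5f07f1_co

open Finset MvPolynomial Pool.Agent.Lib.PolyPart Classical
open scoped ContDiff Topology

variable {d : ℕ}

namespace Tw

variable {j c : ℕ} (T : Tw d j c)

/-- The full coordinate map of the tower. -/
noncomputable def fm (x : E d) : E d := fun k => eval x (T.F k)

/-- Coordinates `b i` at `ι i` and zero elsewhere. -/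
noncomputable def emb (b : Fin j → ℝ) : E d := Function.extend T.ι b 0

lemma emb_apply (b : Fin j → ℝ) (i : Fin j) : T.emb b (T.ι i) = b i :=
  T.ι.injective.extend_apply _ _ _

lemma emb_out (b : Fin j → ℝ) {k : Fin d} (hk : k ∉ Set.range T.ι) : T.emb b k = 0 := by
  unfold emb
  rw [Function.extend_apply' _ _ _ (by rintro ⟨i, rfl⟩; exact hk ⟨i, rfl⟩)]
  rfl

lemma emb_analytic (b : Fin j → ℝ) : AnalyticAt ℝ T.emb b := by
  refine analyticAt_pi_iff.2 fun k => ?_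
  by_cases hk : k ∈ Set.range T.ι
  · obtain ⟨i, rfl⟩ := hk
    simp only [emb_apply]
    exact (ContinuousLinearMap.proj (R := ℝ) (φ := fun _ : Fin j => ℝ) i).analyticAt b
  · simp only [T.emb_out _ hk]
    exact analyticAt_const

lemma fm_eq_emb {z : E d} (hz : z ∈ T.V) : T.fm z = T.emb (T.yv z) := by
  funext k
  by_cases hk : k ∈ Set.range T.ι
  · obtain ⟨i, rfl⟩ := hk
    rw [emb_apply]; rfl
  · rw [T.emb_out _ hk]; exact hz k hk

lemma of_fm_eq {z : E d} {b : Fin j → ℝ} (h : T.fm z = T.emb b) : z ∈ T.V ∧ T.yv z = b := by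
  refine ⟨fun k hk => ?_, funext fun i => ?_⟩
  · have := congrFun h k
    rwa [T.emb_out _ hk] at this
  · have := congrFun h (T.ι i)
    rwa [emb_apply] at this

lemma fm_analytic (x : E d) : AnalyticAt ℝ T.fm x :=
  analyticAt_pi_iff.2 fun k => AnalyticOnNhd.eval_mvPolynomial (T.F k) x trivial

lemma yv_cont : Continuous T.yv :=
  continuous_pi fun i => MvPolynomial.continuous_eval (T.y i)

lemma NZ_open (Φ : MP d) : IsOpen (NZ Φ) :=
  isOpen_ne_fun (MvPolynomial.continuous_eval Φ) continuous_const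

lemma exists_fderiv {x : E d} (hx : x ∈ NZ T.J) :
    ∃ L : E d ≃L[ℝ] E d, HasFDerivAt T.fm (L : E d →L[ℝ] E d) x := by
  choose L hL hL' using fun k => exists_strictFDeriv (T.F k) x
  have hd : HasFDerivAt T.fm (ContinuousLinearMap.pi L) x :=
    hasFDerivAt_pi.2 fun k => (hL k).hasFDerivAt
  have hdet : (ContinuousLinearMap.pi L).det ≠ 0 := by
    have h1 : LinearMap.toMatrix' (ContinuousLinearMap.pi L : E d →ₗ[ℝ] E d) =
        (eval x).mapMatrix T.jac := by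
      ext k s
      simp [LinearMap.toMatrix'_apply, jac, ← hL' k s]
    rw [ContinuousLinearMap.det, ← LinearMap.det_toMatrix', h1, ← RingHom.map_det]
    exact hx
  exact ⟨(ContinuousLinearMap.pi L).toContinuousLinearEquivOfDetNeZero hdet, by
    rw [ContinuousLinearMap.coe_toContinuousLinearEquivOfDetNeZero]; exact hd⟩

end Tw

/-- Inverse function theorem for `x ↦ (eval x (F k))_k`; `σ b` is the local inverse at the point
with coordinates `b i` at `ι i` and `0` elsewhere. -/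
theorem Tw.chart {j c : ℕ} (T : Tw d j c) {x : E d} (hx : x ∈ T.X) :
    ∃ (σ : (Fin j → ℝ) → E d) (δ : ℝ) (U : Set (E d)), 0 < δ ∧ IsOpen U ∧ x ∈ U ∧
      AnalyticOnNhd ℝ σ (Metric.ball (T.yv x) δ) ∧
      (∀ b ∈ Metric.ball (T.yv x) δ, σ b ∈ T.X ∧ σ b ∈ U ∧ T.yv (σ b) = b) ∧
      ∀ z ∈ U, z ∈ T.V → T.yv z ∈ Metric.ball (T.yv x) δ ∧ σ (T.yv z) = z := by
  obtain ⟨L, hL⟩ := T.exists_fderiv hx.2
  have hc : ContDiffAt ℝ ω T.fm x := (T.fm_analytic x).contDiffAt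
  have hn : (ω : WithTop ℕ∞) ≠ 0 := by simp
  set R := hc.toOpenPartialHomeomorph T.fm hL hn with hR
  have hxs : x ∈ R.source := hc.mem_toOpenPartialHomeomorph_source hL hn
  have hRf : ∀ z, R z = T.fm z := fun z => rfl
  have hxe : T.fm x = T.emb (T.yv x) := T.fm_eq_emb hx.1
  have han : AnalyticAt ℝ R.symm (T.emb (T.yv x)) := by
    rw [← hxe]
    exact (hc.to_localInverse hL hn).analyticAt
  have hσ : AnalyticAt ℝ (fun b => R.symm (T.emb b)) (T.yv x) :=
    han.comp (T.emb_analytic _)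
  have hσx : R.symm (T.emb (T.yv x)) = x := by
    rw [← hxe, ← hRf]; exact R.left_inv hxs
  have e1 := hσ.eventually_analyticAt
  have e2 : ∀ᶠ b in 𝓝 (T.yv x), T.emb b ∈ R.target := by
    refine (T.emb_analytic _).continuousAt.eventually (R.open_target.mem_nhds ?_)
    rw [← hxe, ← hRf]; exact R.map_source hxs
  have e3 : ∀ᶠ b in 𝓝 (T.yv x), R.symm (T.emb b) ∈ NZ T.J := by
    refine hσ.continuousAt.eventually ((Tw.NZ_open T.J).mem_nhds ?_)
    show R.symm (T.emb (T.yv x)) ∈ NZ T.J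
    rw [hσx]; exact hx.2
  obtain ⟨δ, hδ, hb⟩ := Metric.eventually_nhds_iff_ball.1 (e1.and (e2.and e3))
  refine ⟨fun b => R.symm (T.emb b), δ, R.source ∩ T.yv ⁻¹' Metric.ball (T.yv x) δ, hδ,
    R.open_source.inter (Metric.isOpen_ball.preimage T.yv_cont),
    ⟨hxs, Metric.mem_ball_self hδ⟩, fun b h => (hb b h).1, fun b h => ?_, fun z hz hV => ?_⟩
  · have h1 := T.of_fm_eq ((hRf _).symm.trans (R.right_inv (hb b h).2.1))
    refine ⟨⟨h1.1, (hb b h).2.2⟩, ⟨R.map_target (hb b h).2.1, ?_⟩, h1.2⟩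
    show T.yv (R.symm (T.emb b)) ∈ Metric.ball (T.yv x) δ
    rw [h1.2]; exact h
  · refine ⟨hz.2, ?_⟩
    show R.symm (T.emb (T.yv z)) = z
    rw [← T.fm_eq_emb hV, ← hRf]; exact R.left_inv hz.1

/-- A chart whose image lies in the component of `x` in `X ∩ O`. -/
lemma Tw.chart_comp {j c : ℕ} (T : Tw d j c) {O : Set (E d)} (hO : IsOpen O) {x : E d}
    (hx : x ∈ T.X ∩ O) :
    ∃ (σ : (Fin j → ℝ) → E d) (δ : ℝ) (U : Set (E d)), 0 < δ ∧ IsOpen U ∧ x ∈ U ∧
      (∀ b ∈ Metric.ball (T.yv x) δ, σ b ∈ connectedComponentIn (T.X ∩ O) x ∧ T.yv (σ b) = b) ∧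
      ∀ z ∈ U, z ∈ T.V → T.yv z ∈ Metric.ball (T.yv x) δ ∧ σ (T.yv z) = z := by
  obtain ⟨σ, δ, U, hδ, hU, hxU, han, h1, h2⟩ := T.chart hx.1
  have hσx : σ (T.yv x) = x := (h2 x hxU hx.1.1).2
  have e : ∀ᶠ b in 𝓝 (T.yv x), σ b ∈ O := by
    refine (han _ (Metric.mem_ball_self hδ)).continuousAt.eventually (hO.mem_nhds ?_)
    rw [hσx]; exact hx.2
  obtain ⟨δ', hδ', hb⟩ := Metric.eventually_nhds_iff_ball.1 e
  have hle : Metric.ball (T.yv x) (min δ δ') ⊆ Metric.ball (T.yv x) δ :=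
    Metric.ball_subset_ball (min_le_left _ _)
  have hle' : Metric.ball (T.yv x) (min δ δ') ⊆ Metric.ball (T.yv x) δ' :=
    Metric.ball_subset_ball (min_le_right _ _)
  have hpos : 0 < min δ δ' := lt_min hδ hδ'
  have hpre : IsPreconnected (σ '' Metric.ball (T.yv x) (min δ δ')) :=
    (convex_ball _ _).isPreconnected.image _ ((han.mono hle).continuousOn)
  have hsub : σ '' Metric.ball (T.yv x) (min δ δ') ⊆ connectedComponentIn (T.X ∩ O) x :=
    hpre.subset_connectedComponentIn ⟨_, Metric.mem_ball_self hpos, hσx⟩ (by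
      rintro _ ⟨b, hb', rfl⟩
      exact ⟨(h1 b (hle hb')).1, hb b (hle' hb')⟩)
  exact ⟨σ, min δ δ', U ∩ T.yv ⁻¹' Metric.ball (T.yv x) (min δ δ'), hpos,
    hU.inter (Metric.isOpen_ball.preimage T.yv_cont), ⟨hxU, Metric.mem_ball_self hpos⟩,
    fun b hb' => ⟨hsub ⟨b, hb', rfl⟩, (h1 b (hle hb')).2.2⟩,
    fun z hz hV => ⟨hz.2, (h2 z hz.1 hV).2⟩⟩

/-- Components of `X ∩ O` are open in `V`. -/
theorem Tw.comp_nhds {j c : ℕ} (T : Tw d j c) {O : Set (E d)} (hO : IsOpen O) {x : E d}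
    (hx : x ∈ T.X ∩ O) : ∃ U : Set (E d), IsOpen U ∧ x ∈ U ∧
      ∀ z ∈ U, z ∈ T.V → z ∈ connectedComponentIn (T.X ∩ O) x := by
  obtain ⟨σ, δ, U, -, hU, hxU, h1, h2⟩ := T.chart_comp hO hx
  refine ⟨U, hU, hxU, fun z hz hV => ?_⟩
  have := (h1 _ (h2 z hz hV).1).1
  rwa [(h2 z hz hV).2] at this

/-- The base projection is open on components. -/
theorem Tw.comp_image_nhds {j c : ℕ} (T : Tw d j c) {O : Set (E d)} (hO : IsOpen O) {x : E d}
    (hx : x ∈ T.X ∩ O) : T.yv '' connectedComponentIn (T.X ∩ O) x ∈ nhds (T.yv x) := by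
  obtain ⟨σ, δ, U, hδ, -, -, h1, -⟩ := T.chart_comp hO hx
  exact Filter.mem_of_superset (Metric.ball_mem_nhds _ hδ) fun b hb => ⟨σ b, h1 b hb⟩

end Pool.Agent.P.MP_5f07f1_co
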