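import Pool.Agent.P.MP_5f07f1_co.Chart

/-! Task CNT1: the number of components (paper section 1, item 1). -/

namespace Pool.Agent.P.MP_5f07f1_co

open Finset MvPolynomial Pool.Agent.Lib.PolyPart Classical

variable {d : ℕ}

lemma cnt1_det_deg {c : ℕ} (M : Matrix (Fin d) (Fin d) (MP d))
    (h : ∀ k s, (M k s).totalDegree ≤ c) : M.det.totalDegree ≤ d * c := by
  rw [Matrix.det_apply]
  refine totalDegree_finsetSum_le fun σ _ => ?_
  have h1 : (∏ i, M (σ i) i).totalDegree ≤ d * c := by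
    refine (totalDegree_finsetProd _ _).trans ?_
    calc ∑ i, (M (σ i) i).totalDegree ≤ ∑ _i : Fin d, c := sum_le_sum fun i _ => h _ _
      _ = d * c := by simp
  rcases Int.units_eq_one_or (Equiv.Perm.sign σ) with e | e <;> rw [e]
  · rwa [one_smul]
  · rwa [Units.neg_smul, one_smul, totalDegree_neg]

lemma cnt1_adj_deg {c : ℕ} (M : Matrix (Fin d) (Fin d) (MP d))
    (h : ∀ k s, (M k s).totalDegree ≤ c) (s k : Fin d) : (M.adjugate s k).totalDegree ≤ d * c := by
  rw [Matrix.adjugate_apply]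
  refine cnt1_det_deg _ fun a b => ?_
  rw [Matrix.updateRow_apply]
  split_ifs
  · rw [Pi.single_apply]
    split_ifs <;> simp
  · exact h _ _

lemma cnt1_chain (q : MP d) {γ : ℝ → E d} {v : E d} (h : HasDerivAt γ v 0) :
    HasDerivAt (fun t => eval (γ t) q) (∑ s, eval (γ 0) (pderiv s q) * v s) 0 := by
  obtain ⟨L, hL, hL'⟩ := exists_strictFDeriv q (γ 0)
  have h1 := hL.hasFDerivAt.comp_hasDerivAt (0 : ℝ) h
  have e : L v = ∑ s, eval (γ 0) (pderiv s q) * v s := by
    conv_lhs => rw [pi_eq_sum_univ' v]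
    rw [map_sum]
    exact sum_congr rfl fun s _ => by rw [map_smul, hL', smul_eq_mul, mul_comm]
  rw [e] at h1
  exact h1

/-- the gradient of `J^2 G` along the tower, in the base coordinates -/
noncomputable def cnt1W {j c : ℕ} (T : Tw d j c) (G : MP d) (i : Fin j) : MP d :=
  ∑ s, (2 * pderiv s T.J * G + T.J * pderiv s G) * T.jac.adjugate s (T.ι i)

lemma cnt1W_deg {j c : ℕ} (T : Tw d j c) (G : MP d) (i : Fin j) :
    (cnt1W T G i).totalDegree ≤ G.totalDegree + 2 * (d * c) := by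
  have hj : ∀ k s, (T.jac k s).totalDegree ≤ c := fun k s =>
    (totalDegree_pderiv_le' _ _).trans (T.deg k)
  have hJ : T.J.totalDegree ≤ d * c := cnt1_det_deg _ hj
  refine totalDegree_finsetSum_le fun s _ => (totalDegree_mul _ _).trans ?_
  have h1 := cnt1_adj_deg _ hj s (T.ι i)
  have h2 : (2 * pderiv s T.J * G + T.J * pderiv s G).totalDegree ≤ d * c + G.totalDegree := by
    refine (totalDegree_add _ _).trans (max_le ?_ ?_)
    · refine (totalDegree_mul _ _).trans (Nat.add_le_add_right ?_ _)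
      rw [two_mul]
      have := (totalDegree_pderiv_le' T.J s).trans hJ
      exact (totalDegree_add _ _).trans (max_le this this)
    · exact (totalDegree_mul _ _).trans (Nat.add_le_add hJ (totalDegree_pderiv_le' _ _))
  omega

/-- Lagrange condition at a local maximum on the tower -/
lemma cnt1_lagrange {j c : ℕ} (T : Tw d j c) (G : MP d) (a : Fin j → ℝ) {x : E d} (hx : x ∈ T.X)
    (hmax : ∀ᶠ z in nhds x, z ∈ T.V → eval z (T.J ^ 2 * G) - ∑ i, a i * T.yv z i
      ≤ eval x (T.J ^ 2 * G) - ∑ i, a i * T.yv x i) (i : Fin j) :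
    eval x (cnt1W T G i) = a i := by
  obtain ⟨σ, δ, U, hδ, -, hxU, han, hσ, hinv⟩ := T.chart hx
  have hσx : σ (T.yv x) = x := (hinv x hxU hx.1).2
  set β : ℝ → Fin j → ℝ := fun t => T.yv x + t • Pi.single i 1 with hβ
  have hβ0 : β 0 = T.yv x := by simp [hβ]
  have hβd : HasDerivAt β (Pi.single i 1) 0 := by
    have := ((hasDerivAt_id (0 : ℝ)).smul_const (Pi.single i (1 : ℝ) : Fin j → ℝ)).const_add
      (T.yv x)
    rw [one_smul] at this
    exact this
  have hD := (han _ (Metric.mem_ball_self hδ)).differentiableAt.hasFDerivAt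
  set v : E d := fderiv ℝ σ (T.yv x) (Pi.single i 1) with hv
  have hγ : HasDerivAt (fun t => σ (β t)) v 0 := by
    rw [← hβ0] at hD
    have := hD.comp_hasDerivAt (0 : ℝ) hβd
    rwa [hβ0] at this
  have hγ0 : σ (β 0) = x := by rw [hβ0, hσx]
  have hball : ∀ᶠ t in nhds (0 : ℝ), β t ∈ Metric.ball (T.yv x) δ :=
    hβd.continuousAt.preimage_mem_nhds (by rw [hβ0]; exact Metric.ball_mem_nhds _ hδ)
  have hβi : ∀ i', HasDerivAt (fun t => β t i') ((Pi.single i 1 : Fin j → ℝ) i') 0 :=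
    hasDerivAt_pi.1 hβd
  have hF : ∀ k, ∑ s, eval x (pderiv s (T.F k)) * v s = (Pi.single (T.ι i) 1 : E d) k := by
    intro k
    have h1 := cnt1_chain (T.F k) hγ
    rw [hγ0] at h1
    by_cases hk : k ∈ Set.range T.ι
    · obtain ⟨i', rfl⟩ := hk
      have h2 : (fun t => eval (σ (β t)) (T.F (T.ι i'))) =ᶠ[nhds 0] fun t => β t i' :=
        hball.mono fun t ht => congrFun (hσ _ ht).2.2 i'
      rw [h1.unique ((hβi i').congr_of_eventuallyEq h2)]
      simp only [Pi.single_apply, T.ι.injective.eq_iff]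
    · have h2 : (fun t => eval (σ (β t)) (T.F k)) =ᶠ[nhds 0] fun _ => 0 :=
        hball.mono fun t ht => (hσ _ ht).1.1 k hk
      rw [h1.unique ((hasDerivAt_const (0 : ℝ) (0 : ℝ)).congr_of_eventuallyEq h2),
        Pi.single_eq_of_ne]
      rintro rfl
      exact hk ⟨i, rfl⟩
  have hadj : ∀ s, eval x T.J * v s = eval x (T.jac.adjugate s (T.ι i)) := by
    intro s
    set M : Matrix (Fin d) (Fin d) ℝ := (eval x).mapMatrix T.jac with hM
    have h1 : M.mulVec v = Pi.single (T.ι i) 1 := funext fun k => hF k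
    have h2 := congrArg (fun u => M.adjugate.mulVec u s) h1
    simp only [Matrix.mulVec_mulVec, Matrix.adjugate_mul, Matrix.smul_mulVec, Matrix.one_mulVec,
      Matrix.mulVec_single_one, Pi.smul_apply, smul_eq_mul] at h2
    rw [Tw.J, RingHom.map_det, ← hM, h2, hM, ← RingHom.map_adjugate]
    rfl
  have hloc : IsLocalMax (fun t => eval (σ (β t)) (T.J ^ 2 * G) - ∑ i', a i' * β t i') 0 := by
    have h1 : Filter.Tendsto (fun t => σ (β t)) (nhds 0) (nhds x) := by
      have := hγ.continuousAt.tendsto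
      rwa [hγ0] at this
    filter_upwards [hball, h1.eventually hmax] with t ht h2
    have h3 := h2 (hσ _ ht).1.1
    rw [(hσ _ ht).2.2] at h3
    rw [hγ0, hβ0]
    exact h3
  have hder := (cnt1_chain (T.J ^ 2 * G) hγ).sub
    (HasDerivAt.fun_sum (u := univ) fun i' _ => (hβi i').const_mul (a i'))
  have h0 := hloc.hasDerivAt_eq_zero hder
  rw [hγ0] at h0
  have e1 : ∑ i', a i' * (Pi.single i 1 : Fin j → ℝ) i' = a i := by
    simp [Pi.single_apply]
  rw [e1, sub_eq_zero] at h0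
  rw [← h0, cnt1W, map_sum]
  refine sum_congr rfl fun s _ => ?_
  rw [map_mul, ← hadj, sq]
  simp only [pderiv_mul, map_add, map_mul, map_ofNat]
  ring

lemma cnt1_crit {j c : ℕ} (T : Tw d j c) (Φ : MP d) (R : ℝ) {x₀ : E d} (hx₀ : x₀ ∈ T.X ∩ NZ Φ)
    (hR : ∑ s, x₀ s ^ 2 < R) : ∃ δ > 0, ∀ a : Fin j → ℝ, (∀ i, |a i| < δ) →
      ∃ x ∈ connectedComponentIn (T.X ∩ NZ Φ) x₀,
        ∀ i, eval x (cnt1W T (Φ ^ 2 * (C R - ∑ s, X s ^ 2)) i) = a i := by
  set G : MP d := Φ ^ 2 * (C R - ∑ s, X s ^ 2) with hG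
  set K := connectedComponentIn (T.X ∩ NZ Φ) x₀ with hK
  have hH : ∀ z : E d, eval z (T.J ^ 2 * G)
      = (eval z T.J * eval z Φ) ^ 2 * (R - ∑ s, z s ^ 2) := fun z => by
    simp only [hG, map_mul, map_pow, map_sub, eval_C, map_sum, eval_X]
    ring
  have hH0 : 0 < eval x₀ (T.J ^ 2 * G) := by
    rw [hH]
    exact mul_pos (sq_pos_of_ne_zero (mul_ne_zero hx₀.1.2 hx₀.2)) (by linarith)
  have hsq : Continuous fun z : E d => ∑ s, z s ^ 2 := by fun_prop
  set S : Set (E d) := closure K ∩ {z | ∑ s, z s ^ 2 ≤ R} with hS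
  have hScomp : IsCompact S := by
    refine (isCompact_univ_pi fun _ : Fin d =>
      isCompact_Icc (a := -(R + 1)) (b := R + 1)).of_isClosed_subset
      (isClosed_closure.inter (isClosed_le hsq continuous_const)) ?_
    intro x hx s _
    have h1 : x s ^ 2 ≤ R :=
      (single_le_sum (f := fun s => x s ^ 2) (fun s _ => sq_nonneg _) (mem_univ s)).trans hx.2
    constructor <;> nlinarith
  have hx₀S : x₀ ∈ S := ⟨subset_closure (mem_connectedComponentIn hx₀), hR.le⟩
  have hyc : ∀ i, Continuous fun z : E d => T.yv z i := fun i => (T.y i).continuous_eval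
  obtain ⟨B, hB⟩ := hScomp.bddAbove_image
    (f := fun z => ∑ i, |T.yv z i|) (Continuous.continuousOn (by fun_prop))
  have hB' : ∀ z ∈ S, ∑ i, |T.yv z i| ≤ B := fun z hz => hB ⟨z, hz, rfl⟩
  have hB0 : 0 ≤ B := (sum_nonneg fun _ _ => abs_nonneg _).trans (hB' _ hx₀S)
  refine ⟨eval x₀ (T.J ^ 2 * G) / (2 * (B + 1)), by positivity, fun a ha => ?_⟩
  set δ := eval x₀ (T.J ^ 2 * G) / (2 * (B + 1)) with hδ
  have hδ0 : 0 < δ := by positivity
  have hδB : δ * (B + 1) = eval x₀ (T.J ^ 2 * G) / 2 := by rw [hδ]; field_simp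
  have hlin : ∀ z ∈ S, |∑ i, a i * T.yv z i| < δ * (B + 1) := by
    intro z hz
    calc |∑ i, a i * T.yv z i| ≤ ∑ i, δ * |T.yv z i| :=
          (abs_sum_le_sum_abs _ _).trans (sum_le_sum fun i _ => by
            rw [abs_mul]; exact mul_le_mul_of_nonneg_right (ha i).le (abs_nonneg _))
      _ ≤ δ * B := by rw [← mul_sum]; exact mul_le_mul_of_nonneg_left (hB' z hz) hδ0.le
      _ < δ * (B + 1) := by linarith
  obtain ⟨x, hxS, hmax⟩ := hScomp.exists_isMaxOn ⟨x₀, hx₀S⟩
    (f := fun z => eval z (T.J ^ 2 * G) - ∑ i, a i * T.yv z i)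
    (Continuous.continuousOn ((T.J ^ 2 * G).continuous_eval.sub (by fun_prop)))
  have hHx : 0 < eval x (T.J ^ 2 * G) := by
    have h1 : eval x₀ (T.J ^ 2 * G) - ∑ i, a i * T.yv x₀ i
        ≤ eval x (T.J ^ 2 * G) - ∑ i, a i * T.yv x i := hmax hx₀S
    have h2 := abs_lt.1 (hlin x hxS)
    have h3 := abs_lt.1 (hlin x₀ hx₀S)
    linarith [h2.1, h3.2]
  rw [hH] at hHx
  have hne : eval x T.J * eval x Φ ≠ 0 := fun h => by simp [h] at hHx
  have hlt : ∑ s, x s ^ 2 < R := by
    have := (pos_iff_pos_of_mul_pos hHx).1 (sq_pos_of_ne_zero hne)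
    linarith
  have hVc : IsClosed T.V := by
    have : T.V = ⋂ k, ⋂ _ : k ∉ Set.range T.ι, {z | eval z (T.F k) = 0} := by
      ext z; simp [Tw.V]
    rw [this]
    exact isClosed_iInter fun k => isClosed_iInter fun _ =>
      isClosed_eq (T.F k).continuous_eval continuous_const
  have hKV : K ⊆ T.V := fun z hz => (connectedComponentIn_subset _ _ hz).1.1
  have hxX : x ∈ T.X ∩ NZ Φ :=
    ⟨⟨closure_minimal hKV hVc hxS.1, left_ne_zero_of_mul hne⟩, right_ne_zero_of_mul hne⟩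
  obtain ⟨U, hU, hxU, hUK⟩ := T.comp_nhds (O := NZ Φ)
    (isOpen_ne_fun Φ.continuous_eval continuous_const) hxX
  obtain ⟨z, hzU, hzK⟩ := mem_closure_iff.1 hxS.1 U hU hxU
  have heq : connectedComponentIn (T.X ∩ NZ Φ) x = K :=
    (connectedComponentIn_eq (hUK z hzU (hKV hzK))).trans (connectedComponentIn_eq hzK).symm
  refine ⟨x, heq ▸ mem_connectedComponentIn hxX, cnt1_lagrange T G a hxX.1 ?_⟩
  filter_upwards [hU.mem_nhds hxU, (isOpen_lt hsq continuous_const).mem_nhds hlt] with w h1 h2 h3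
  exact hmax ⟨subset_closure (heq ▸ hUK w h1 h3), le_of_lt h2⟩

/-- Maximise `J^2 Φ^2 (R - |x|^2) - a · y` on the closure of the component inside the ball;
compare `exists_critical_on`, `card_le_smooth` in `Lib.PolyPart.Hyper`; finish by `Nice.fibre`. -/
theorem count_all (d j c : ℕ) : ∃ κ : ℕ, ∀ (T : Tw d j c) (Φ : MP d) (A : Finset (E d)),
    Apart (T.X ∩ NZ Φ) A → #A ≤ κ * (Φ.totalDegree + 1) ^ j := by
  refine ⟨c * (j * (2 * (d * c) + 4) + 2) ^ j, fun T Φ A hA => ?_⟩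
  obtain ⟨R, hR⟩ : ∃ R : ℝ, ∀ x ∈ A, ∑ s, x s ^ 2 < R := by
    obtain ⟨R, hR⟩ := (A.image fun x => ∑ s, x s ^ 2).exists_le
    exact ⟨R + 1, fun x hx => lt_of_le_of_lt (hR _ (mem_image_of_mem _ hx)) (by linarith)⟩
  set G : MP d := Φ ^ 2 * (C R - ∑ s, X s ^ 2) with hG
  have hGd : G.totalDegree ≤ 2 * Φ.totalDegree + 2 := by
    refine (totalDegree_mul _ _).trans (Nat.add_le_add (totalDegree_pow _ _) ?_)
    refine (totalDegree_sub _ _).trans (max_le (by simp) ?_)
    exact totalDegree_finsetSum_le fun s _ => by simp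
  choose δ hδ hδ' using fun x : A => cnt1_crit T Φ R (hA.1 x.1 x.2) (hR x.1 x.2)
  obtain ⟨ε, hε, hεδ⟩ : ∃ ε > 0, ∀ x : A, ε ≤ δ x := by
    rcases isEmpty_or_nonempty A with h | h
    · exact ⟨1, one_pos, fun x => h.elim x⟩
    · obtain ⟨x, hx⟩ := Finite.exists_min δ
      exact ⟨δ x, hδ x, hx⟩
  have key := T.nice'.fibre (cnt1W T G) (2 * Φ.totalDegree + 2 + 2 * (d * c)) #A
    (fun i => (cnt1W_deg T G i).trans (Nat.add_le_add_right hGd _)) hε fun v hv => by
      choose z hz hz' using fun x : A => hδ' x v fun i => (hv i).trans_le (hεδ x)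
      have hzinj : Function.Injective z := by
        intro x x' h
        refine Subtype.ext (hA.2 _ x.2 _ x'.2 ?_)
        rw [connectedComponentIn_eq (hz x), h, ← connectedComponentIn_eq (hz x')]
        exact mem_connectedComponentIn (hA.1 _ x'.2)
      refine ⟨univ.image z, by rw [card_image_of_injective _ hzinj]; simp, fun x hx => ?_⟩
      obtain ⟨x', -, rfl⟩ := mem_image.1 hx
      exact ⟨(T.van_iff _).2 (connectedComponentIn_subset _ _ (hz x')).1.1, hz' x'⟩
  refine key.trans ?_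
  rw [mul_assoc, ← mul_pow]
  refine Nat.mul_le_mul_left _ (Nat.pow_le_pow_left ?_ _)
  nlinarith [Nat.zero_le (j * Φ.totalDegree), Nat.zero_le (j * (d * c) * Φ.totalDegree)]

end Pool.Agent.P.MP_5f07f1_co
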