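import Pool.Agent.P.MP_5f07f1_co.Defs

/-! Task DESC: the root tower and the passage to a hypersurface (paper section 1). -/

namespace Pool.Agent.P.MP_5f07f1_co

open Finset MvPolynomial Pool.Agent.Lib.PolyPart Classical

variable {d : ℕ}

theorem Tw.exists_root (d : ℕ) : ∃ T : Tw d d 1, T.X = Set.univ := by
  refine ⟨⟨MvPolynomial.X, Function.Embedding.refl _, fun k => by simp, ?_⟩, ?_⟩
  · have : (Set.range (Function.Embedding.refl (Fin d)))ᶜ = ∅ := by
      ext k; simp
    rw [this, Set.image_empty, Ideal.span_empty]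
    exact nice_bot d
  · ext x
    simp only [Tw.X, Tw.V, NZ, Set.mem_inter_iff, Set.mem_ofPred_eq, Set.mem_univ, iff_true]
    refine ⟨fun k hk => absurd ⟨k, rfl⟩ hk, ?_⟩
    have : (Matrix.of fun k s : Fin d => pderiv s (MvPolynomial.X k : MP d)) = 1 := by
      ext1 k s
      simp [pderiv_X, Pi.single_apply, Matrix.one_apply]
    simp only [Tw.J, Tw.jac, this, Matrix.det_one, map_one]
    exact one_ne_zero

theorem Tw.exists_mono {j c c' : ℕ} (T : Tw d j c) (h : c ≤ c') :
    ∃ T' : Tw d j c', T'.X = T.X :=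
  ⟨⟨T.F, T.ι, fun k => (T.deg k).trans h, T.nice.mono h⟩, rfl⟩

theorem descend_chain {n k : ℕ} (y : Fin k → MP n) (s : Fin n) (G : MP k) :
    pderiv s (aeval y G) = ∑ i, aeval y (pderiv i G) * pderiv s (y i) := by
  induction G using MvPolynomial.induction_on with
  | C a => simp
  | add p q hp hq => simp only [map_add, hp, hq, add_mul, sum_add_distrib]
  | mul_X p i hp =>
    have : ∑ x, aeval y p * aeval y (pderiv x (MvPolynomial.X i : MP k)) * pderiv s (y x) =
        aeval y p * pderiv s (y i) := by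
      rw [sum_eq_single i]
      · simp
      · intro b _ hb
        simp [pderiv_X, Pi.single_eq_of_ne' hb]
      · simp
    simp only [map_mul, aeval_X, pderiv_mul, hp, map_add, add_mul, sum_add_distrib, this, sum_mul]
    congr 1
    exact sum_congr rfl fun x _ => by ring

theorem descend_row {j c : ℕ} (T : Tw d j c) (G : MP j) :
    ∃ a : Fin d → MP d, (∀ i, a (T.ι i) = aeval T.y (pderiv i G)) ∧
      (fun s => pderiv s (aeval T.y G)) = ∑ k, a k • T.jac k := by
  refine ⟨fun k => ∑ i, if T.ι i = k then aeval T.y (pderiv i G) else 0, fun i => ?_, ?_⟩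
  · simp
  · funext s
    rw [descend_chain]
    simp only [Finset.sum_apply, Pi.smul_apply, smul_eq_mul, sum_mul]
    rw [sum_comm]
    refine sum_congr rfl fun i _ => ?_
    simp [Tw.jac, Tw.y]

theorem descend_dvd {j c c' : ℕ} (T : Tw d j c) (T' : Tw d j c') (hι : T'.ι = T.ι)
    (hoff : ∀ k ∉ Set.range T.ι, T'.F k = T.F k) (g : Fin j → MP j)
    (hy : ∀ i, T'.y i = aeval T.y (g i)) : T.J ∣ T'.J := by
  have : ∀ k, ∃ a : Fin d → MP d, T'.jac k = ∑ k', a k' • T.jac k' := by
    intro k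
    by_cases hk : k ∈ Set.range T.ι
    · obtain ⟨i, rfl⟩ := hk
      obtain ⟨a, -, ha⟩ := descend_row T (g i)
      refine ⟨a, ?_⟩
      rw [← ha, ← hy, Tw.y, hι]
      rfl
    · refine ⟨Pi.single k 1, ?_⟩
      rw [sum_eq_single k]
      · funext s
        simp [Tw.jac, hoff k hk]
      · intro b _ hb
        simp [Pi.single_eq_of_ne hb]
      · simp
  choose a ha using this
  have h : T'.jac = Matrix.of a * T.jac := by
    ext1 k s
    rw [ha, Matrix.mul_apply]
    simp [Finset.sum_apply]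
  rw [Tw.J, Tw.J, h, Matrix.det_mul]
  exact Dvd.intro_left _ rfl

/-- An affine change of the base coordinates. -/
theorem descend_subst {j c : ℕ} (T : Tw d j c) (f g : Fin j → MP j)
    (hf : ∀ i, (f i).totalDegree ≤ 1) (hg : ∀ i, (g i).totalDegree ≤ 1)
    (hfg : ∀ i, aeval f (g i) = MvPolynomial.X i) (hgf : ∀ i, aeval g (f i) = MvPolynomial.X i) :
    ∃ T' : Tw d j (c + 1), T'.X = T.X ∧ ∀ i, T'.y i = aeval T.y (g i) := by
  obtain ⟨h1, h2⟩ := T.nice'.subst f g hf hg hfg hgf
  set F' : Fin d → MP d := Function.extend T.ι (fun i => aeval T.y (g i)) T.F with hF'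
  have hon : ∀ i, F' (T.ι i) = aeval T.y (g i) := fun i => T.ι.injective.extend_apply _ _ i
  have hoff : ∀ k ∉ Set.range T.ι, F' k = T.F k := fun k hk => Function.extend_apply' _ _ _ hk
  let T' : Tw d j (c + 1) := ⟨F', T.ι, fun k => by
      by_cases hk : k ∈ Set.range T.ι
      · obtain ⟨i, rfl⟩ := hk
        rw [hon]
        exact (h1.1 i).trans (by omega)
      · rw [hoff k hk]
        exact (T.deg k).trans (by omega), by
      rw [Set.image_congr (s := (Set.range T.ι)ᶜ) (g := T.F) fun k hk => hoff k hk, funext hon]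
      exact h1.mono (by omega)⟩
  have hy : ∀ i, T'.y i = aeval T.y (g i) := hon
  refine ⟨T', ?_, hy⟩
  have d1 := descend_dvd T T' rfl hoff g hy
  have d2 := descend_dvd T' T rfl (fun k hk => (hoff k hk).symm) f fun i => by
    rw [funext hy, ← aeval_X (R := ℝ) T.y i, ← h2, aeval_X]
  ext x
  simp only [Tw.X, Tw.V, NZ, Set.mem_inter_iff, Set.mem_ofPred_eq]
  refine and_congr ⟨fun h k hk => ?_, fun h k hk => ?_⟩ ⟨fun h h' => h ?_, fun h h' => h ?_⟩
  · rw [← hoff k hk]; exact h k hk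
  · exact (congrArg (eval x) (hoff k hk)).trans (h k hk)
  · obtain ⟨w, hw⟩ := d1
    rw [hw, map_mul, h', zero_mul]
  · obtain ⟨w, hw⟩ := d2
    rw [hw, map_mul, h', zero_mul]

theorem descend_step {n k c : ℕ} {I : Ideal (MP n)} {z : Fin (k + 1) → MP n}
    (h : Nice n (k + 1) c I z) (G : MP (k + 1)) {d : ℕ} (hGd : G.totalDegree ≤ d)
    (hc : coeff (Finsupp.single 0 d) G ≠ 0) :
    Nice n k (c * d) (I ⊔ Ideal.span {aeval z G}) fun i => z i.succ := by
  obtain ⟨h1, ι, _, e, h2, h3, h4⟩ := h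
  have hren : ∀ q : MP k, aeval z (rename Fin.succ q) = aeval (fun i => z i.succ) q := by
    intro q; rw [aeval_rename]; rfl
  have hsum : ∀ r : ι × Fin d → MP k,
      ∑ i, aeval (fun i => z i.succ) (r i) * (z 0 ^ (i.2 : ℕ) * e i.1) =
      ∑ i, aeval z (∑ j : Fin d, rename Fin.succ (r (i, j)) * X 0 ^ (j : ℕ)) * e i := by
    intro r
    rw [Fintype.sum_prod_type]
    apply sum_congr rfl
    intro i _
    simp only [map_sum, map_mul, map_pow, aeval_X, hren, sum_mul, mul_assoc]
  refine ⟨fun i => h1 _, ι × Fin d, inferInstance,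
    fun i => z 0 ^ (i.2 : ℕ) * e i.1, ?_, fun P => ?_, fun r hr => ?_⟩
  · rw [Fintype.card_prod, Fintype.card_fin]
    exact Nat.mul_le_mul h2 le_rfl
  · obtain ⟨p, hp, hp'⟩ := h3 P
    choose r q hr hq using fun i => exists_div G d hGd hc (p i)
    refine ⟨fun i => r i.1 i.2, fun i => (hr i.1 i.2).trans (hp i.1), ?_⟩
    rw [hsum]
    have : P - ∑ i, aeval z (∑ j : Fin d, rename Fin.succ (r i j) * X 0 ^ (j : ℕ)) * e i =
        (P - ∑ i, aeval z (p i) * e i) + (∑ i, aeval z (q i) * e i) * aeval z G := by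
      conv_rhs => enter [1, 2, 2, i]; rw [hq i, map_add, add_mul, map_mul]
      rw [sum_add_distrib, sum_mul]
      have : ∑ i, aeval z (q i) * e i * aeval z G = ∑ i, aeval z G * aeval z (q i) * e i :=
        sum_congr rfl fun i _ => by ring
      rw [this]; ring
    rw [this]
    exact Submodule.add_mem_sup hp' (Ideal.mul_mem_left _ _ (Ideal.subset_span rfl))
  · rw [hsum] at hr
    obtain ⟨a, ha, b, hb, hab⟩ := Submodule.mem_sup.1 hr
    obtain ⟨w, rfl⟩ := Ideal.mem_span_singleton'.1 hb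
    obtain ⟨q, -, hq⟩ := h3 w
    have h6 : ∑ i, aeval z (∑ j : Fin d, rename Fin.succ (r (i, j)) * X 0 ^ (j : ℕ) - G * q i) *
        e i ∈ I := by
      have := I.add_mem ha (I.mul_mem_left (aeval z G) hq)
      convert this using 1
      simp only [map_sub, sub_mul, sum_sub_distrib, ← hab, map_mul, mul_sub, mul_sum, mul_assoc]
      ring
    rintro ⟨i, j⟩
    exact div_unique G d hc (fun j => r (i, j)) (q i) (sub_eq_zero.1 (h4 _ h6 i)) j

/-- Cutting by a polynomial that is regular in the first base coordinate. -/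
theorem descend_cut {j c : ℕ} (T : Tw d (j + 1) (c + 1)) (G : MP (j + 1)) {e D : ℕ} (he : e ≤ D)
    (hG : G.totalDegree ≤ e) (hc : coeff (Finsupp.single 0 e) G ≠ 0) :
    ∃ T' : Tw d j ((c + 1) * (D + 1)), ∀ x, x ∈ T'.X ↔
      x ∈ T.X ∧ eval (T.yv x) G = 0 ∧ eval (T.yv x) (pderiv 0 G) ≠ 0 := by
  have h1 := descend_step T.nice' G hG hc
  set F' : Fin d → MP d := Function.update T.F (T.ι 0) (aeval T.y G) with hF'
  let ι' : Fin j ↪ Fin d := (Fin.succEmb j).trans T.ι
  have hι : ∀ i, ι' i = T.ι i.succ := fun i => rfl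
  have hr : (Set.range ι')ᶜ = insert (T.ι 0) (Set.range T.ι)ᶜ := by
    ext k
    simp only [Set.mem_compl_iff, Set.mem_range, Set.mem_insert_iff, hι, Fin.exists_fin_succ]
    constructor
    · intro h
      by_cases hk : k = T.ι 0
      · exact Or.inl hk
      · exact Or.inr fun h' => h'.elim (fun h' => hk h'.symm) h
    · rintro (rfl | h) ⟨i, hi⟩
      · exact Fin.succ_ne_zero i (T.ι.injective hi)
      · exact h (Or.inr ⟨i, hi⟩)
  have hoff : ∀ k ∉ Set.range T.ι, F' k = T.F k := fun k hk =>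
    Function.update_of_ne (fun h => hk ⟨0, h.symm⟩) _ _
  have hon : ∀ i, F' (ι' i) = T.y i.succ := fun i =>
    Function.update_of_ne (fun h => Fin.succ_ne_zero i (T.ι.injective h)) _ _
  have h0 : F' (T.ι 0) = aeval T.y G := Function.update_self _ _ _
  let T' : Tw d j ((c + 1) * (D + 1)) := ⟨F', ι', fun k => by
      by_cases hk : k = T.ι 0
      · rw [hk, h0]
        refine (totalDegree_aeval_le _ 1 T.nice'.1 G).trans ?_
        nlinarith
      · rw [hF', Function.update_of_ne hk]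
        refine (T.deg k).trans ?_
        nlinarith, by
      rw [hr, Set.image_insert_eq,
        Set.image_congr (s := (Set.range T.ι)ᶜ) (g := T.F) fun k hk => hoff k hk, funext hon,
        Ideal.span_insert, h0, sup_comm]
      exact h1.mono (by nlinarith)⟩
  obtain ⟨a, ha, ha'⟩ := descend_row T G
  have hJ : T'.J = aeval T.y (pderiv 0 G) * T.J := by
    rw [← ha 0, Tw.J, Tw.J, ← smul_eq_mul (a _), ← Matrix.det_updateRow_sum, ← ha']
    congr 1
    ext1 k s
    by_cases hk : k = T.ι 0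
    · rw [hk, Matrix.updateRow_self]
      exact congrArg (pderiv s) h0
    · rw [Matrix.updateRow_ne hk]
      exact congrArg (pderiv s) (Function.update_of_ne hk _ _)
  refine ⟨T', fun x => ?_⟩
  have hV : x ∈ T'.V ↔ x ∈ T.V ∧ eval (T.yv x) G = 0 := by
    rw [← T.eval_aeval_y, ← h0]
    constructor
    · intro h
      refine ⟨fun k hk => ?_, h _ ?_⟩
      · rw [← hoff k hk]
        exact h k (show k ∈ (Set.range ι')ᶜ from hr ▸ Set.mem_insert_of_mem _ hk)
      · exact show T.ι 0 ∈ (Set.range ι')ᶜ from hr ▸ Set.mem_insert _ _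
    · rintro ⟨h, h'⟩ k hk
      rcases (show k ∈ insert (T.ι 0) (Set.range T.ι)ᶜ from hr ▸ hk) with rfl | hk
      · exact h'
      · exact (congrArg (eval x) (hoff k hk)).trans (h k hk)
  simp only [Tw.X, NZ, Set.mem_inter_iff, Set.mem_ofPred_eq, hV, hJ, map_mul, mul_ne_zero_iff,
    T.eval_aeval_y]
  tauto

theorem descend_aux {j c : ℕ} (T : Tw d (j + 1) c) (D e : ℕ) : ∀ ψ : MP (j + 1), ψ ≠ 0 →
    ψ.totalDegree ≤ e → e ≤ D →
    ∃ (m : ℕ) (Ts : Fin m → Tw d j ((c + 1) * (D + 1))), m ≤ e ∧ (∀ i, (Ts i).X ⊆ T.X) ∧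
      ∀ x ∈ T.X, eval (T.yv x) ψ = 0 → ∃ i, x ∈ (Ts i).X := by
  have base : ∀ (e : ℕ) (ψ : MP (j + 1)), ψ ≠ 0 → ψ.totalDegree = 0 →
      ∃ (m : ℕ) (Ts : Fin m → Tw d j ((c + 1) * (D + 1))), m ≤ e ∧ (∀ i, (Ts i).X ⊆ T.X) ∧
      ∀ x ∈ T.X, eval (T.yv x) ψ = 0 → ∃ i, x ∈ (Ts i).X := by
    intro e ψ hψ h0
    refine ⟨0, Fin.elim0, Nat.zero_le _, fun i => i.elim0, fun x _ hx => absurd ?_ hψ⟩
    rw [totalDegree_eq_zero_iff_eq_C] at h0
    rw [h0, eval_C] at hx
    rw [h0, hx, map_zero]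
  induction e with
  | zero => exact fun ψ hψ h _ => base 0 ψ hψ (by omega)
  | succ e ih =>
    intro ψ hψ hd hD
    by_cases h0 : ψ.totalDegree = 0
    · exact base _ ψ hψ h0
    obtain ⟨f, g, hf, hg, hfg, hgf, hc⟩ := exists_regular ψ hψ
    obtain ⟨T1, hX, hy⟩ := descend_subst T f g hf hg hfg hgf
    have hGd : (aeval f ψ).totalDegree ≤ ψ.totalDegree := by
      have := totalDegree_aeval_le f 1 hf ψ
      rwa [one_mul] at this
    obtain ⟨T2, hT2⟩ := descend_cut T1 (aeval f ψ) (hd.trans hD) hGd hc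
    have k1 : ∀ p : MP (j + 1), aeval g (aeval f p) = p := by
      intro p
      rw [← AlgHom.comp_apply, comp_aeval]
      simp only [hgf]
      exact aeval_X_left_apply p
    have k2 : ∀ p : MP (j + 1), aeval f (aeval g p) = p := by
      intro p
      rw [← AlgHom.comp_apply, comp_aeval]
      simp only [hfg]
      exact aeval_X_left_apply p
    have hev : ∀ x (p : MP (j + 1)), eval (T1.yv x) p = eval (T.yv x) (aeval g p) := by
      intro x p
      rw [eval_aeval']
      congr 2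
      funext i
      rw [Tw.yv, hy, T.eval_aeval_y]
    have hne : pderiv 0 (aeval f ψ) ≠ 0 := by
      intro h
      have h1 := coeff_pderiv (i := 0) (aeval f ψ) (Finsupp.single 0 (ψ.totalDegree - 1))
      rw [h, coeff_zero, ← Finsupp.single_add, Nat.sub_add_cancel (by omega)] at h1
      exact mul_ne_zero hc (by positivity) h1.symm
    obtain ⟨m, Ts, hm, hs, hcov⟩ := ih (aeval g (pderiv 0 (aeval f ψ)))
      (fun h => hne (by rw [← k2 (pderiv 0 (aeval f ψ)), h, map_zero]))
      (by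
        have a1 := totalDegree_aeval_le g 1 hg (pderiv 0 (aeval f ψ))
        have a2 := totalDegree_pderiv_add_one_le _ _ hne
        omega) (by omega)
    refine ⟨m + 1, Fin.cons T2 Ts, by omega, fun i => ?_, fun x hx h => ?_⟩
    · refine Fin.cases ?_ (fun i => ?_) i
      · exact fun x hx => hX ▸ ((hT2 x).1 hx).1
      · exact hs i
    · by_cases h1 : eval (T1.yv x) (pderiv 0 (aeval f ψ)) = 0
      · obtain ⟨i, hi⟩ := hcov x hx (hev x _ ▸ h1)
        exact ⟨i.succ, hi⟩
      · exact ⟨0, (hT2 x).2 ⟨hX ▸ hx, by rw [hev, k1, h], h1⟩⟩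

/-- Make `ψ` regular in the first variable (`exists_regular`, copy the proof of `Nice.step` to see
the new coordinates); points with nonzero first derivative lie on the new tower (the Jacobian
matrix has trivial kernel), the others are handled by induction on the degree. -/
theorem Tw.descend {j c : ℕ} (T : Tw d (j + 1) c) (D : ℕ) (ψ : MP (j + 1)) (hψ : ψ ≠ 0)
    (hD : ψ.totalDegree ≤ D) :
    ∃ (m : ℕ) (Ts : Fin m → Tw d j ((c + 1) * (D + 1))), m ≤ D ∧ (∀ i, (Ts i).X ⊆ T.X) ∧
      ∀ x ∈ T.X, eval (T.yv x) ψ = 0 → ∃ i, x ∈ (Ts i).X :=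
  descend_aux T D D ψ hψ hD le_rfl

end Pool.Agent.P.MP_5f07f1_co
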