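import Pool.Agent.P.MP_5f07f1_co.Count1
import Pool.Agent.P.MP_5f07f1_co.Descend

/-! Task CNT2: components meeting a hypersurface or a small set (items 2, 3). -/

namespace Pool.Agent.P.MP_5f07f1_co

open Finset MvPolynomial Pool.Agent.Lib.PolyPart Classical

variable {d : ℕ}

lemma Apart.sub {S S' : Set (E d)} {A A' : Finset (E d)} (h : Apart S A) (hS : S' ⊆ S)
    (hA : A' ⊆ A) (hm : ∀ x ∈ A', x ∈ S') : Apart S' A' :=
  ⟨hm, fun x hx z hz hzx => h.2 x (hA hx) z (hA hz) (connectedComponentIn_mono x hS hzx)⟩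

/-- Split a finite set along finitely many sets covering it. -/
lemma card_le_of_cover {m D N : ℕ} (hm : m ≤ D) (Y : Fin m → Set (E d)) (A : Finset (E d))
    (hA : ∀ x ∈ A, ∃ i, x ∈ Y i) (hN : ∀ i, #{x ∈ A | x ∈ Y i} ≤ N) : #A ≤ D * N := by
  have h1 : A ⊆ (univ : Finset (Fin m)).biUnion fun i => {x ∈ A | x ∈ Y i} := by
    intro x hx
    obtain ⟨i, hi⟩ := hA x hx
    exact mem_biUnion.2 ⟨i, mem_univ _, mem_filter.2 ⟨hx, hi⟩⟩
  calc #A ≤ ∑ i : Fin m, #{x ∈ A | x ∈ Y i} := (card_le_card h1).trans card_biUnion_le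
    _ ≤ ∑ _i : Fin m, N := sum_le_sum fun i _ => hN i
    _ = m * N := by simp
    _ ≤ D * N := Nat.mul_le_mul_right _ hm

theorem count_hyp (d j c D : ℕ) : ∃ κ : ℕ, ∀ (T : Tw d (j + 1) c) (ψ : MP (j + 1)), ψ ≠ 0 →
    ψ.totalDegree ≤ D → ∀ (Φ : MP d) (A : Finset (E d)), Apart (T.X ∩ NZ Φ) A →
    (∀ x ∈ A, eval (T.yv x) ψ = 0) → #A ≤ κ * (Φ.totalDegree + 1) ^ j := by
  obtain ⟨κ, hκ⟩ := count_all d j ((c + 1) * (D + 1))
  refine ⟨D * κ, fun T ψ hψ hD Φ A hA hz => ?_⟩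
  obtain ⟨m, Ts, hm, hsub, hcov⟩ := T.descend D ψ hψ hD
  rw [mul_assoc]
  refine card_le_of_cover hm (fun i => (Ts i).X) A
    (fun x hx => hcov x (hA.1 x hx).1 (hz x hx)) fun i => hκ (Ts i) Φ _ ?_
  refine hA.sub (Set.inter_subset_inter_left _ (hsub i)) (filter_subset _ _) fun x hx => ?_
  obtain ⟨hx1, hx2⟩ := mem_filter.1 hx
  exact ⟨hx2, (hA.1 x hx1).2⟩

/-- Analytic continuation: a polynomial vanishing on `V` near one point of a component of `X`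
vanishes on the component. -/
lemma Tw.zero_of_near {j c : ℕ} (T : Tw d j c) (φ : MP d) {x₀ x w : E d}
    (hx : x ∈ connectedComponentIn T.X x₀) (hw : w ∈ connectedComponentIn T.X x₀)
    (U₀ : Set (E d)) (hU₀ : IsOpen U₀) (hxU : x ∈ U₀)
    (h0 : ∀ u ∈ U₀, u ∈ T.V → eval u φ = 0) : eval w φ = 0 := by
  by_contra hne
  set S : Set (E d) := {z | ∃ U : Set (E d), IsOpen U ∧ z ∈ U ∧
    ∀ u ∈ U, u ∈ T.V → eval u φ = 0} with hS
  set S' : Set (E d) := {z | ∃ U : Set (E d), IsOpen U ∧ z ∈ U ∧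
    ∀ u ∈ U, u ∈ T.X → u ∉ S} with hS'
  have hSo : IsOpen S := isOpen_iff_forall_mem_open.2 fun z ⟨U, hU, hz, h⟩ =>
    ⟨U, fun u hu => ⟨U, hU, hu, h⟩, hU, hz⟩
  have hSo' : IsOpen S' := isOpen_iff_forall_mem_open.2 fun z ⟨U, hU, hz, h⟩ =>
    ⟨U, fun u hu => ⟨U, hU, hu, h⟩, hU, hz⟩
  have hK := connectedComponentIn_subset T.X x₀
  have hcov : connectedComponentIn T.X x₀ ⊆ S ∪ S' := by
    intro z hz
    obtain ⟨σ, δ, U, hδ, hU, hzU, han, h1, h2⟩ := T.chart (hK hz)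
    by_cases hex : ∃ u ∈ U, u ∈ T.X ∧ u ∈ S
    · left
      obtain ⟨u, huU, huX, U', hU', huU', h3⟩ := hex
      obtain ⟨hub, huσ⟩ := h2 u huU huX.1
      have han2 : AnalyticOnNhd ℝ (fun b => eval (σ b) φ) (Metric.ball (T.yv z) δ) :=
        fun b hb => (AnalyticOnNhd.eval_mvPolynomial φ (σ b) (Set.mem_univ _)).comp (han b hb)
      have hev : (fun b => eval (σ b) φ) =ᶠ[nhds (T.yv u)] 0 := by
        have e1 : ∀ᶠ b in nhds (T.yv u), σ b ∈ U' :=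
          (han _ hub).continuousAt.preimage_mem_nhds (by rw [huσ]; exact hU'.mem_nhds huU')
        filter_upwards [e1, Metric.isOpen_ball.mem_nhds hub] with b hb1 hb2
        exact h3 _ hb1 (h1 b hb2).1.1
      have hz0 := han2.eqOn_zero_of_preconnected_of_eventuallyEq_zero
        (convex_ball _ _).isPreconnected hub hev
      refine ⟨U, hU, hzU, fun v hv hvV => ?_⟩
      obtain ⟨hvb, hvσ⟩ := h2 v hv hvV
      have := hz0 hvb
      simpa [hvσ] using this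
    · right
      exact ⟨U, hU, hzU, fun u hu huX huS => hex ⟨u, hu, huX, huS⟩⟩
  have hwS' : w ∈ S' := by
    refine ⟨{u | eval u φ ≠ 0}, isOpen_ne_fun (continuous_eval φ) continuous_const, hne, ?_⟩
    rintro u hu huX ⟨U, -, huU, h⟩
    exact hu (h u huU huX.1)
  obtain ⟨z, hz, hzS, U, -, hzU, h⟩ := isPreconnected_connectedComponentIn S S' hSo hSo' hcov
    ⟨x, hx, U₀, hU₀, hxU, h0⟩ ⟨w, hw, hwS'⟩
  exact h z hzU (hK hz) hzS

/-- `Nice.exists_curve`; if `DegAt` holds then `φ` vanishes near `x` on `V`, and by analytic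
continuation (`Tw.chart`) on the whole component. -/
theorem zero_sub (d j c : ℕ) : ∃ D : ℕ, ∀ (T : Tw d j c) (φ : MP d), φ.totalDegree ≤ 2 →
    ∃ ψ : MP j, ψ ≠ 0 ∧ ψ.totalDegree ≤ D ∧ ∀ x₀, (∃ w ∈ connectedComponentIn T.X x₀, eval w φ ≠ 0) →
      ∀ x ∈ connectedComponentIn T.X x₀, eval x φ = 0 → eval (T.yv x) ψ = 0 := by
  refine ⟨j * (c * (j + 2 + 1) ^ j), fun T φ hφ => ?_⟩
  obtain ⟨q, hq0, hqd, hq⟩ := T.nice'.exists_curve φ 2 hφ
  refine ⟨q, hq0, hqd, ?_⟩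
  rintro x₀ ⟨w, hw, hwφ⟩ x hx hxφ
  refine hq x ((T.van_iff x).2 (connectedComponentIn_subset _ _ hx).1) hxφ ?_
  rintro ⟨Ψ, N, hΨ, hN⟩
  refine hwφ (T.zero_of_near φ hx hw {u | eval u Ψ ≠ 0}
    (isOpen_ne_fun (continuous_eval Ψ) continuous_const) hΨ fun u hu huV => ?_)
  have h1 := (T.van_iff u).2 huV _ hN
  rw [map_mul, map_pow] at h1
  exact eq_zero_of_pow_eq_zero ((mul_eq_zero.1 h1).resolve_right hu)

/-- Induction on `j`: while `e < j` use `IsDim` for `e + 1` of the base coordinates and descend. -/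
theorem count_dim (d j c : ℕ) : ∃ κ : ℕ, ∀ (T : Tw d j c) (e : ℕ) (W : Set (E d)), IsDim e W →
    ∀ (Φ : MP d) (A : Finset (E d)), Apart (T.X ∩ NZ Φ) A → (∀ x ∈ A, x ∈ W) →
    #A ≤ κ * (Φ.totalDegree + 1) ^ e := by
  induction j generalizing c with
  | zero =>
    obtain ⟨κ, hκ⟩ := count_all d 0 c
    refine ⟨κ, fun T e W _ Φ A hA _ => (hκ T Φ A hA).trans ?_⟩
    exact Nat.mul_le_mul_left _ (Nat.pow_le_pow_right (Nat.succ_pos _) (Nat.zero_le _))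
  | succ j ih =>
    obtain ⟨κ, hκ⟩ := count_all d (j + 1) c
    obtain ⟨κ', hκ'⟩ := ih ((c + 1) * (2 + 1))
    refine ⟨κ + 2 * κ', fun T e W hW Φ A hA hAW => ?_⟩
    by_cases he : j + 1 ≤ e
    · refine (hκ T Φ A hA).trans (Nat.mul_le_mul (Nat.le_add_right _ _) ?_)
      exact Nat.pow_le_pow_right (Nat.succ_pos _) he
    · have hle : e + 1 ≤ j + 1 := by omega
      obtain ⟨ψ, hψ0, hψd, hψ⟩ := hW (fun i => T.y (Fin.castLE hle i)) fun i => T.nice'.1 _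
      have hr0 : rename (Fin.castLE hle) ψ ≠ 0 := fun h =>
        hψ0 (rename_injective _ (Fin.castLE_injective hle) (h.trans (map_zero _).symm))
      obtain ⟨m, Ts, hm, hsub, hcov⟩ := T.descend 2 _ hr0 ((totalDegree_rename_le _ _).trans hψd)
      refine le_trans ?_ (Nat.mul_le_mul_right _ (Nat.le_add_left (2 * κ') κ))
      rw [mul_assoc]
      refine card_le_of_cover hm (fun i => (Ts i).X) A
        (fun x hx => hcov x (hA.1 x hx).1 ?_) fun i => hκ' (Ts i) e W hW Φ _ ?_ ?_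
      · rw [eval_rename]
        exact hψ x (hAW x hx)
      · refine hA.sub (Set.inter_subset_inter_left _ (hsub i)) (filter_subset _ _) fun x hx => ?_
        obtain ⟨hx1, hx2⟩ := mem_filter.1 hx
        exact ⟨hx2, (hA.1 x hx1).2⟩
      · exact fun x hx => hAW x (mem_filter.1 hx).1

/-- `Tw.descend` and `Nice.card_le`. -/
theorem card_zero (d c D : ℕ) : ∃ κ : ℕ, ∀ (T : Tw d 1 c) (ψ : MP 1), ψ ≠ 0 → ψ.totalDegree ≤ D →
    ∀ A : Finset (E d), (∀ x ∈ A, x ∈ T.X ∧ eval (T.yv x) ψ = 0) → #A ≤ κ := by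
  refine ⟨D * ((c + 1) * (D + 1)), fun T ψ hψ hD A hA => ?_⟩
  obtain ⟨m, Ts, hm, -, hcov⟩ := Tw.descend (j := 0) T D ψ hψ hD
  refine card_le_of_cover hm (fun i => (Ts i).X) A
    (fun x hx => hcov x (hA x hx).1 (hA x hx).2) fun i => (Ts i).nice'.card_le _ fun x hx => ?_
  exact ((Ts i).van_iff x).2 (mem_filter.1 hx).2.1

end Pool.Agent.P.MP_5f07f1_co
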