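import Pool.Agent.P.MP_5f07f1_co.Chart

/-! Task COV: sheets over one component of the base (item 4). -/

namespace Pool.Agent.P.MP_5f07f1_co

open Finset MvPolynomial Pool.Agent.Lib.PolyPart Classical

variable {d : ℕ}

/-- One component of the complement of `Z(G)` contains at most `c` components of `X \ Z(G)`. -/
def Cov (X : Set (E d)) (G : MP d) (c : ℕ) : Prop :=
  ∀ (z : E d) (A : Finset (E d)), Apart (X ∩ NZ G) A →
    (∀ x ∈ A, x ∈ connectedComponentIn (NZ G) z) → #A ≤ c

namespace CovX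

variable {j c : ℕ} (T : Tw d j c)

lemma deg_J : T.J.totalDegree ≤ d * c := by
  rw [Tw.J, Matrix.det_apply']
  refine totalDegree_finsetSum_le fun σ _ => (totalDegree_mul _ _).trans ?_
  rw [← map_intCast (C : ℝ →+* MP d), totalDegree_C, zero_add]
  refine (totalDegree_finsetProd _ _).trans ((sum_le_card_nsmul _ _ c fun i _ => ?_).trans ?_)
  · exact (totalDegree_pderiv_le' _ _).trans (T.deg _)
  · simp

lemma isOpen_NZ {n : ℕ} (G : MP n) : IsOpen (NZ G) :=
  isOpen_ne_fun (continuous_eval G) continuous_const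

lemma cont_yv : Continuous T.yv := continuous_pi fun _ => continuous_eval _

lemma closed_V : IsClosed T.V := by
  simp only [Tw.V, Set.ofPred_forall]
  exact isClosed_iInter fun k => isClosed_iInter fun _ =>
    isClosed_eq (continuous_eval _) continuous_const

/-- Points of `V` are bounded in terms of their base point. -/
lemma exists_bound : ∃ β : (Fin j → ℝ) → ℝ, Continuous β ∧ ∀ x ∈ T.V, ‖x‖ ≤ β (T.yv x) := by
  obtain ⟨-, ι, _, e, -, h3, -⟩ := T.nice'
  choose p _ hp using h3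
  have key : ∀ x ∈ T.V, ∀ g, eval x g = ∑ i, eval (T.yv x) (p g i) * eval x (e i) := by
    intro x hx g
    have := (T.van_iff x).2 hx _ (hp g)
    simpa only [map_sub, map_sum, map_mul, T.eval_aeval_y, sub_eq_zero] using this
  refine ⟨fun b => ∑ s, ∑ i, ∑ k, |eval b (p (X s * e i) k)|, ?_, fun x hx => ?_⟩
  · exact continuous_finsetSum _ fun s _ => continuous_finsetSum _ fun i _ =>
      continuous_finsetSum _ fun k _ => (continuous_eval _).abs
  have h1 : ∃ i, eval x (e i) ≠ 0 := by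
    by_contra h
    push Not at h
    simpa [h] using key x hx 1
  obtain ⟨i0, hi0⟩ := h1
  obtain ⟨i, -, hi⟩ := exists_max_image univ (fun i => |eval x (e i)|) ⟨i0, mem_univ _⟩
  have h2 : 0 < |eval x (e i)| := (abs_pos.2 hi0).trans_le (hi _ (mem_univ _))
  refine (pi_norm_le_iff_of_nonneg (sum_nonneg fun _ _ => sum_nonneg fun _ _ =>
    sum_nonneg fun _ _ => abs_nonneg _)).2 fun s => ?_
  have h3 : |x s| ≤ ∑ k, |eval (T.yv x) (p (X s * e i) k)| := by
    refine le_of_mul_le_mul_right ?_ h2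
    have := key x hx (X s * e i)
    rw [map_mul, eval_X] at this
    rw [← abs_mul, this, sum_mul]
    refine (abs_sum_le_sum_abs _ _).trans (sum_le_sum fun k _ => ?_)
    rw [abs_mul]
    exact mul_le_mul_of_nonneg_left (hi _ (mem_univ _)) (abs_nonneg _)
  refine h3.trans (le_trans ?_ (single_le_sum (f := fun s => ∑ i, ∑ k,
    |eval (T.yv x) (p (X s * e i) k)|)
    (fun _ _ => sum_nonneg fun _ _ => sum_nonneg fun _ _ => abs_nonneg _) (mem_univ s)))
  exact single_le_sum (f := fun i => ∑ k, |eval (T.yv x) (p (X s * e i) k)|)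
    (fun _ _ => sum_nonneg fun _ _ => abs_nonneg _) (mem_univ i)

lemma closure_image {K : Set (E d)} (hK : K ⊆ T.V) :
    closure (T.yv '' K) ⊆ T.yv '' closure K := by
  obtain ⟨β, h1, h2⟩ := exists_bound T
  intro b hb
  have h3 : IsCompact (T.yv '' (Metric.closedBall 0 (β b + 1) ∩ closure K)) :=
    ((isCompact_closedBall _ _).inter_right isClosed_closure).image (cont_yv T)
  have h4 : b ∈ closure ({b' | β b' < β b + 1} ∩ T.yv '' K) :=
    (isOpen_lt h1 continuous_const).inter_closure ⟨by simp, hb⟩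
  refine Set.image_mono Set.inter_subset_right (h3.isClosed.closure_subset_iff.2 ?_ h4)
  rintro _ ⟨h5, x, hx, rfl⟩
  exact ⟨x, ⟨mem_closedBall_zero_iff.2 ((h2 x (hK hx)).trans (le_of_lt h5)), subset_closure hx⟩,
    rfl⟩

/-- A component upstairs covers a component of the base. -/
lemma covers {g : MP j}
    (hg : ∀ x, Van T.I x → eval x T.J = 0 → ¬ DegAt T.I x T.J → eval (T.yv x) g = 0)
    {x : E d} (hx : x ∈ T.X ∩ NZ (aeval T.y g)) : connectedComponentIn (NZ g) (T.yv x) ⊆
      T.yv '' connectedComponentIn (T.X ∩ NZ (aeval T.y g)) x := by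
  have hO := isOpen_NZ (aeval T.y g)
  have hK := connectedComponentIn_subset (T.X ∩ NZ (aeval T.y g)) x
  have hV : connectedComponentIn (T.X ∩ NZ (aeval T.y g)) x ⊆ T.V := fun z hz => (hK hz).1.1
  refine isPreconnected_connectedComponentIn.subset_of_closure_inter_subset
    (isOpen_iff_mem_nhds.2 ?_) ⟨T.yv x, mem_connectedComponentIn ?_,
      x, mem_connectedComponentIn hx, rfl⟩ ?_
  · rintro _ ⟨z, hz, rfl⟩
    rw [connectedComponentIn_eq hz]
    exact T.comp_image_nhds hO (hK hz)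
  · have := hx.2
    rwa [NZ, Set.mem_ofPred_eq, T.eval_aeval_y] at this
  rintro b ⟨h1, h2⟩
  obtain ⟨w, hw, rfl⟩ := closure_image T hV h1
  have h3 : eval (T.yv w) g ≠ 0 := connectedComponentIn_subset _ _ h2
  have h4 : w ∈ T.V := (closed_V T).closure_subset_iff.2 hV hw
  have h5 : eval w T.J ≠ 0 := fun e => h3 (hg w ((T.van_iff w).2 h4) e fun ⟨Ψ, N, a1, a2⟩ => by
    obtain ⟨z, z1, z2⟩ := mem_closure_iff.1 hw _ (isOpen_NZ Ψ) a1
    have := (T.van_iff z).2 (hV z2) _ a2
    rw [map_mul, map_pow] at this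
    exact mul_ne_zero (pow_ne_zero _ (hK z2).1.2) z1 this)
  have h6 : w ∈ T.X ∩ NZ (aeval T.y g) :=
    ⟨⟨h4, h5⟩, by rwa [NZ, Set.mem_ofPred_eq, T.eval_aeval_y]⟩
  obtain ⟨U, u1, u2, u3⟩ := T.comp_nhds hO h6
  obtain ⟨z, z1, z2⟩ := mem_closure_iff.1 hw _ u1 u2
  refine ⟨w, ?_, rfl⟩
  rw [connectedComponentIn_eq z2, ← connectedComponentIn_eq (u3 z z1 (hV z2))]
  exact mem_connectedComponentIn h6

end CovX

open CovX in
/-- `Δ` comes from `Nice.exists_curve` for `J`. The image under `yv` of a component of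
`X ∩ NZ G` is open (`comp_image_nhds`) and closed in `{Δ h ≠ 0}` (every coordinate is integral over
the base, so `yv` is proper on `V`; a limit point has `J ≠ 0` because `DegAt` would make `J` vanish
near it). So it is a component of the base, the same for all points of `A`, and it contains a ball;
finish by `Nice.fibre` with `F i = y i - C (b i)`. -/
theorem cover (d j c : ℕ) : ∃ D κ : ℕ, ∀ T : Tw d j c, ∃ Δ : MP j, Δ ≠ 0 ∧ Δ.totalDegree ≤ D ∧
    ∀ h : MP j, Cov T.X (aeval T.y (Δ * h)) κ := by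
  refine ⟨j * (c * (j + d * c + 1) ^ j), c * (j * 1 + 2) ^ j, fun T => ?_⟩
  obtain ⟨Δ, h0, h1, h2⟩ := T.nice'.exists_curve T.J _ (deg_J T)
  refine ⟨Δ, h0, h1, fun h z A hA hz => ?_⟩
  have hg : ∀ x, Van T.I x → eval x T.J = 0 → ¬ DegAt T.I x T.J → eval (T.yv x) (Δ * h) = 0 :=
    fun x a1 a2 a3 => by rw [map_mul, show eval (T.yv x) Δ = 0 from h2 x a1 a2 a3, zero_mul]
  generalize Δ * h = g at hA hz hg
  rcases A.eq_empty_or_nonempty with rfl | ⟨x0, hx0⟩
  · simp
  have nz : ∀ x, x ∈ NZ (aeval T.y g) → T.yv x ∈ NZ g := fun x hx => by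
    rwa [NZ, Set.mem_ofPred_eq, T.eval_aeval_y] at hx
  have h3 : ∀ x ∈ A, connectedComponentIn (NZ g) (T.yv x0) =
      connectedComponentIn (NZ g) (T.yv x) := fun x hx => by
    refine connectedComponentIn_eq ((isPreconnected_connectedComponentIn.image _
      (cont_yv T).continuousOn).subset_connectedComponentIn ⟨x0, hz x0 hx0, rfl⟩ ?_
      ⟨x, hz x hx, rfl⟩)
    rintro _ ⟨w, hw, rfl⟩
    exact nz w (connectedComponentIn_subset _ _ hw)
  obtain ⟨δ, d1, d2⟩ := Metric.isOpen_iff.1 ((isOpen_NZ g).connectedComponentIn (x := T.yv x0)) _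
    (mem_connectedComponentIn (nz x0 (hA.1 x0 hx0).2))
  refine T.nice'.fibre (fun i => T.y i - C (T.yv x0 i)) 1 _ (fun i => ?_) d1 fun v hv => ?_
  · exact (totalDegree_sub _ _).trans (max_le (T.nice'.1 i) (by simp))
  have h4 : T.yv x0 + v ∈ Metric.ball (T.yv x0) δ := by
    rw [mem_ball_iff_norm, add_sub_cancel_left]
    exact (pi_norm_lt_iff d1).2 hv
  have h5 : ∀ x ∈ A, ∃ w ∈ connectedComponentIn (T.X ∩ NZ (aeval T.y g)) x,
      T.yv w = T.yv x0 + v := fun x hx => covers T hg (hA.1 x hx) (h3 x hx ▸ d2 h4)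
  choose! f f1 f2 using h5
  refine ⟨A.image f, card_image_of_injOn fun x hx x' hx' e => hA.2 x hx x' hx' ?_, ?_⟩
  · rw [connectedComponentIn_eq (f1 x hx), e, ← connectedComponentIn_eq (f1 x' hx')]
    exact mem_connectedComponentIn (hA.1 x' hx')
  · refine forall_mem_image.2 fun x hx => ⟨(T.van_iff _).2
      (connectedComponentIn_subset _ _ (f1 x hx)).1.1, fun i => ?_⟩
    have := congrFun (f2 x hx) i
    rw [map_sub, eval_C, show eval (f x) (T.y i) = _ from this]
    simp

end Pool.Agent.P.MP_5f07f1_co
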