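import Pool.Agent.Lib.PolyPart.Tree

/-! Distinct distances in high dimension: definitions. -/

namespace Pool.Agent.P.MP_5f07f1_co

open Finset MvPolynomial Pool.Agent.Lib.PolyPart Classical

abbrev E (d : ℕ) := Fin d → ℝ
abbrev Lab (d : ℕ) := List (Set (E d))
abbrev LL (d : ℕ) := ℝ × E d × ℝ

variable {d : ℕ}

/-- Squared Euclidean norm. -/
def nq (x : E d) : ℝ := x ⬝ᵥ x

def NZ (Φ : MP d) : Set (E d) := {x | eval x Φ ≠ 0}

/-- The points of `A` lie in pairwise different connected components of `S`. -/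
def Apart (S : Set (E d)) (A : Finset (E d)) : Prop :=
  (∀ x ∈ A, x ∈ S) ∧ ∀ x ∈ A, ∀ z ∈ A, z ∈ connectedComponentIn S x → x = z

/-- `W` has dimension at most `e` (and degree at most two). -/
def IsDim (e : ℕ) (W : Set (E d)) : Prop :=
  ∀ y : Fin (e + 1) → MP d, (∀ i, (y i).totalDegree ≤ 1) →
    ∃ ψ : MP (e + 1), ψ ≠ 0 ∧ ψ.totalDegree ≤ 2 ∧ ∀ x ∈ W, eval (fun i => eval x (y i)) ψ = 0

/-- A rational map of degree at most three. -/
structure RMap (d : ℕ) where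
  num : Fin d → MP d
  den : MP d
  hnum : ∀ i, (num i).totalDegree ≤ 3
  hden : den.totalDegree ≤ 3

noncomputable def RMap.app (θ : RMap d) (z : E d) : E d :=
  fun i => eval z (θ.num i) / eval z θ.den

/-- A tower: `F (ι i)` are the base coordinates, the other `F k` are the equations. -/
structure Tw (d j c : ℕ) where
  F : Fin d → MP d
  ι : Fin j ↪ Fin d
  deg : ∀ k, (F k).totalDegree ≤ c
  nice : Nice d j c (Ideal.span (F '' (Set.range ι)ᶜ)) (fun i => F (ι i))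

namespace Tw

variable {j c : ℕ} (T : Tw d j c)

noncomputable def I : Ideal (MP d) := Ideal.span (T.F '' (Set.range T.ι)ᶜ)
def y (i : Fin j) : MP d := T.F (T.ι i)
noncomputable def yv (x : E d) : Fin j → ℝ := fun i => eval x (T.y i)
noncomputable def jac : Matrix (Fin d) (Fin d) (MP d) := Matrix.of fun k s => pderiv s (T.F k)
noncomputable def J : MP d := T.jac.det
def V : Set (E d) := {x | ∀ k ∉ Set.range T.ι, eval x (T.F k) = 0}
def X : Set (E d) := T.V ∩ NZ T.J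

lemma nice' : Nice d j c T.I T.y := T.nice

lemma van_iff (x : E d) : Van T.I x ↔ x ∈ T.V := by
  refine ⟨fun h k hk => h _ (Ideal.subset_span ⟨k, hk, rfl⟩), fun h g hg => ?_⟩
  have : T.I ≤ RingHom.ker (eval x) := Ideal.span_le.2 (by
    rintro _ ⟨k, hk, rfl⟩; exact h k hk)
  exact this hg

lemma eval_aeval_y (x : E d) (g : MP j) : eval x (aeval T.y g) = eval (T.yv x) g :=
  eval_aeval' _ _ _

end Tw

/-- One refinement step of a partition tree: `l` labels the cells, `l'` the children. -/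
structure Lvl (j D Λ : ℕ) (Q : Finset (E d)) (l l' : E d → Lab d) (core : E d → Set (E d)) :
    Prop where
  ref : ∀ x ∈ Q, ∀ z ∈ Q, l' x = l' z → l x = l z
  core_eq : ∀ x ∈ Q, ∀ z ∈ Q, l x = l z → core x = core z
  mem : ∀ x ∈ Q, x ∈ core x
  sep : ∀ φ : MP d, φ.totalDegree ≤ 2 → ∀ (b : Lab d) (A : Finset (E d)), A ⊆ Q →
    (∀ z ∈ A, l z = b ∧ ∃ u ∈ Q, l' u = l' z ∧
      SignType.sign (eval u φ) ≠ SignType.sign (eval z φ)) → #(A.image l') ≤ Λ * D ^ (j - 1)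
  dim : ∀ (e : ℕ) (W : Set (E d)), IsDim e W → ∀ (b : Lab d) (A : Finset (E d)), A ⊆ Q →
    (∀ z ∈ A, l z = b ∧ z ∈ W) → #(A.image l') ≤ Λ * D ^ e
  joint : ∀ (θ : RMap d) (b b' : Lab d) (A : Finset (E d)), A ⊆ Q →
    (∀ z ∈ A, l z = b ∧ eval z θ.den ≠ 0 ∧ θ.app z ∈ Q ∧ l (θ.app z) = b') →
    #(A.image fun z => (l' z, l' (θ.app z))) ≤ Λ * D ^ j
  joint0 : ∀ (θ : RMap d) (φ : MP d), φ.totalDegree ≤ 2 → ∀ x ∈ Q, (∃ w ∈ core x, eval w φ ≠ 0) →
    ∀ (b' : Lab d) (A : Finset (E d)), A ⊆ Q →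
    (∀ z ∈ A, l z = l x ∧ eval z φ = 0 ∧ eval z θ.den ≠ 0 ∧ θ.app z ∈ Q ∧ l (θ.app z) = b') →
    #(A.image fun z => (l' z, l' (θ.app z))) ≤ Λ * D ^ (j - 1)
  one : j = 1 → ∀ φ : MP d, φ.totalDegree ≤ 2 → ∀ x ∈ Q, (∃ w ∈ core x, eval w φ ≠ 0) →
    #{z ∈ Q | l z = l x ∧ eval z φ = 0} ≤ Λ

/-- The identity as a rational map. -/
noncomputable def RMap.id (d : ℕ) : RMap d :=
  ⟨X, 1, fun i => by simp, by simp⟩

lemma RMap.id_app (z : E d) : (RMap.id d).app z = z := by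
  funext i; simp [RMap.app, RMap.id]

lemma RMap.id_den (z : E d) : eval z (RMap.id d).den ≠ 0 := by simp [RMap.id]

namespace Lvl

variable {j D Λ : ℕ} {Q Q' : Finset (E d)} {l l' : E d → Lab d} {core : E d → Set (E d)}

lemma mono (h : Lvl j D Λ Q l l' core) (hQ : Q' ⊆ Q) : Lvl j D Λ Q' l l' core where
  ref := fun x hx z hz => h.ref x (hQ hx) z (hQ hz)
  core_eq := fun x hx z hz => h.core_eq x (hQ hx) z (hQ hz)
  mem := fun x hx => h.mem x (hQ hx)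
  sep := fun φ hφ b A hA hz => h.sep φ hφ b A (hA.trans hQ) fun z hz' => by
    obtain ⟨h1, u, hu, h2⟩ := hz z hz'
    exact ⟨h1, u, hQ hu, h2⟩
  dim := fun e W hW b A hA => h.dim e W hW b A (hA.trans hQ)
  joint := fun θ b b' A hA hz => h.joint θ b b' A (hA.trans hQ) fun z hz' => by
    obtain ⟨h1, h2, h3, h4⟩ := hz z hz'
    exact ⟨h1, h2, hQ h3, h4⟩
  joint0 := fun θ φ hφ x hx hw b' A hA hz => h.joint0 θ φ hφ x (hQ hx) hw b' A (hA.trans hQ)
    fun z hz' => by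
      obtain ⟨h1, h2, h3, h4, h5⟩ := hz z hz'
      exact ⟨h1, h2, h3, hQ h4, h5⟩
  one := fun hj φ hφ x hx hw => le_trans (card_le_card (filter_subset_filter _ hQ))
    (h.one hj φ hφ x (hQ hx) hw)

lemma card_id_le (A : Finset (E d)) :
    #(A.image l') ≤ #(A.image fun z => (l' z, l' ((RMap.id d).app z))) := by
  have : A.image l' = (A.image fun z => (l' z, l' ((RMap.id d).app z))).image Prod.fst := by
    rw [image_image]; rfl
  rw [this]; exact card_image_le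

/-- Number of children of a cell. -/
lemma all (h : Lvl j D Λ Q l l' core) (b : Lab d) (A : Finset (E d)) (hA : A ⊆ Q)
    (hz : ∀ z ∈ A, l z = b) : #(A.image l') ≤ Λ * D ^ j :=
  (card_id_le A).trans (h.joint (RMap.id d) b b A hA fun z hz' => by
    rw [RMap.id_app]; exact ⟨hz z hz', RMap.id_den z, hA hz', hz z hz'⟩)

/-- Number of children that meet a quadric not containing the core. -/
lemma zero (h : Lvl j D Λ Q l l' core) (φ : MP d) (hφ : φ.totalDegree ≤ 2) {x : E d} (hx : x ∈ Q)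
    (hw : ∃ w ∈ core x, eval w φ ≠ 0) (A : Finset (E d)) (hA : A ⊆ Q)
    (hz : ∀ z ∈ A, l z = l x ∧ eval z φ = 0) : #(A.image l') ≤ Λ * D ^ (j - 1) :=
  (card_id_le A).trans (h.joint0 (RMap.id d) φ hφ x hx hw (l x) A hA fun z hz' => by
    rw [RMap.id_app]; exact ⟨(hz z hz').1, (hz z hz').2, RMap.id_den z, hA hz', (hz z hz').1⟩)

end Lvl

/-- Admissible parameters of a partition tree. -/
def Par (d : ℕ) (η : ℝ) (D Λ : ℕ → ℕ) (M : ℕ) : Prop :=
  ∀ j, 1 ≤ j → j ≤ d → 4 ≤ Λ j ∧ (Λ j : ℝ) ≤ (D j : ℝ) ^ η ∧ 2 ≤ D j ∧ D j ^ d ≤ M ∧ Λ j ≤ M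

/-- A uniform partition tree of depth `s` on `Q`; level `i` has local dimension `j i`. -/
structure PTree (D Λ : ℕ → ℕ) (M n : ℕ) (Q : Finset (E d)) (s : ℕ) (j : ℕ → ℕ)
    (l : ℕ → E d → Lab d) (core : ℕ → E d → Set (E d)) : Prop where
  anti : ∀ i i', i ≤ i' → i' < s → j i' ≤ j i
  pos : ∀ i < s, 1 ≤ j i ∧ j i ≤ d
  lvl : ∀ i < s, Lvl (j i) (D (j i)) (Λ (j i)) Q (l i) (l (i + 1)) (core i)
  root : ∀ x ∈ Q, ∀ z ∈ Q, l 0 x = l 0 z
  size : ∀ i ≤ s, ∀ b, #{z ∈ Q | l i z = b} * ∏ k ∈ range i, D (j k) ^ j k ≤ n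
  top : ∏ k ∈ range s, D (j k) ^ j k ≤ n
  bot : ∀ b, #{z ∈ Q | l s z = b} ≤ M

def Size (Q : Finset (E d)) (l : E d → Lab d) (σ : ℝ) : Prop :=
  ∀ b, (#{z ∈ Q | l z = b} : ℝ) ≤ σ

/-- At most `N` cells are separated by a given quadric. -/
def Sep (Q : Finset (E d)) (l : E d → Lab d) (N : ℝ) : Prop :=
  ∀ φ : MP d, φ.totalDegree ≤ 2 → ∀ A : Finset (E d), A ⊆ Q →
    (∀ z ∈ A, ∃ u ∈ Q, l u = l z ∧ SignType.sign (eval u φ) ≠ SignType.sign (eval z φ)) →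
    (#(A.image l) : ℝ) ≤ N

def Joint (Q : Finset (E d)) (l l' : E d → Lab d) (J : ℝ) : Prop :=
  ∀ (θ : RMap d) (b b' : Lab d) (A : Finset (E d)), A ⊆ Q →
    (∀ z ∈ A, l z = b ∧ eval z θ.den ≠ 0 ∧ θ.app z ∈ Q ∧ l (θ.app z) = b') →
    (#(A.image fun z => (l' z, l' (θ.app z))) : ℝ) ≤ J

/-- Homogeneous lift to the paraboloid. -/
def lift (x : E d) : LL d := (1, x, nq x)

def Own (Q : Finset (E d)) (own : E d → Submodule ℝ (LL d)) : Prop :=
  ∀ x ∈ Q, lift x ∈ own x ∧ Module.finrank ℝ (own x) ≤ 3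

def Acc (Q : Finset (E d)) (l : E d → Lab d) (own : E d → Submodule ℝ (LL d)) (a : ℝ) : Prop :=
  ∀ U : Submodule ℝ (LL d), Module.finrank ℝ U ≤ 3 → ∀ b,
    (#{z ∈ Q | l z = b ∧ lift z ∈ U ∧ own z ≠ U} : ℝ) ≤ a

/-- The bisector of `p.1` and `p.2` is `{q | dual p ⬝ᵥ q = 1}`. -/
noncomputable def dual (p : E d × E d) : E d := (2 / (nq p.2 - nq p.1)) • (p.2 - p.1)

noncomputable def lamOf (x x' y : E d) : ℝ := (nq y - nq x - 2 * x' ⬝ᵥ (y - x)) / nq (y - x)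

section

variable (Q : Finset (E d)) (l : E d → Lab d) (own : E d → Submodule ℝ (LL d))

/-- Good close pairs. -/
noncomputable def prs : Finset (E d × E d) :=
  {p ∈ Q ×ˢ Q | l p.1 = l p.2 ∧ own p.1 ≠ own p.2}

/-- Two good pairs of one cell with the same bisector. -/
noncomputable def quads : Finset ((E d × E d) × (E d × E d)) :=
  {w ∈ prs Q l own ×ˢ prs Q l own | l w.1.1 = l w.2.1 ∧ dual w.1 = dual w.2}

noncomputable def En : ℕ := #(quads Q l own)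

noncomputable def En2 : ℕ := #{w ∈ prs Q l own ×ˢ prs Q l own | dual w.1 = dual w.2}

/-- The clique of the homothety `T = (lam, c0, c1)` in the cell `b`. -/
noncomputable def clq (b : Lab d) (T : ℝ × E d × ℝ) : Finset (E d) :=
  {z ∈ Q | l z = b ∧ T.1 • z + T.2.1 ∈ Q ∧ l (T.1 • z + T.2.1) = b ∧
    nq (T.1 • z + T.2.1) = T.1 * nq z + T.2.2 ∧ T.1 • z + T.2.1 ≠ z}

end

/-- The homothety that maps `w.1.1` to `w.2.1` and `w.1.2` to `w.2.2`. -/
noncomputable def homOf (w : (E d × E d) × (E d × E d)) : ℝ × E d × ℝ :=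
  (lamOf w.1.1 w.2.1 w.1.2, w.2.1 - lamOf w.1.1 w.2.1 w.1.2 • w.1.1,
    nq w.2.1 - lamOf w.1.1 w.2.1 w.1.2 * nq w.1.1)

section

variable (Q : Finset (E d)) (l : E d → Lab d) (own : E d → Submodule ℝ (LL d))

/-- Quadruples in small cliques. -/
noncomputable def Sm (L : ℕ) : ℕ :=
  #{w ∈ quads Q l own | w.2.1 ≠ w.1.1 ∧ #(clq Q l (l w.1.1) (homOf w)) < L}

/-- A clique dominated by one own circle, directly or through the images. -/
def Dom (L : ℕ) (b : Lab d) (T : ℝ × E d × ℝ) : Prop :=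
  ∃ U, #(clq Q l b T) ≤ L * #{z ∈ clq Q l b T | own z = U} ∨
    #(clq Q l b T) ≤ L * #{z ∈ clq Q l b T | own (T.1 • z + T.2.1) = U}

noncomputable def Iso : ℕ := #{w ∈ Q ×ˢ prs Q l own | dual w.2 ⬝ᵥ w.1 = 1}

end

/-- At most `a` points of `Q` satisfy `m` independent affine equations. -/
def FlatBd (Q : Finset (E d)) (m : ℕ) (a : ℝ) : Prop :=
  ∀ w : Fin m → E d × ℝ, LinearIndependent ℝ w → (#{q ∈ Q | ∀ i, (w i).1 ⬝ᵥ q = (w i).2} : ℝ) ≤ a

/-- Number of distances from `q` to `P` (zero included). -/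
noncomputable def pin (P : Finset (E d)) (q : E d) : ℕ := #(P.image fun x => nq (x - q))

def PD (d : ℕ) (b : ℝ) : Prop :=
  ∀ b' > b, ∃ C : ℝ, ∀ (P : Finset (E d)) (t : ℝ), 1 ≤ t → (∀ q ∈ P, (pin P q : ℝ) ≤ t) →
    (#P : ℝ) ≤ C * t ^ b'

end Pool.Agent.P.MP_5f07f1_co
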