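import Pool.Agent.P.MP_5f07f1_co.Lift

/-! Task DOM: cliques dominated by one circle (paper section 3). -/

namespace Pool.Agent.P.MP_5f07f1_co

open Finset MvPolynomial Pool.Agent.Lib.PolyPart Classical

variable {d : ℕ}

namespace DomA

/-- The linear map on lifts induced by a homothety. -/
def Tl (T : ℝ × E d × ℝ) : LL d →ₗ[ℝ] LL d where
  toFun u := (u.1, T.1 • u.2.1 + u.1 • T.2.1, T.1 * u.2.2 + u.1 * T.2.2)
  map_add' u v := by
    refine Prod.ext rfl (Prod.ext ?_ ?_)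
    · simp only [Prod.fst_add, Prod.snd_add, smul_add, add_smul]; abel
    · simp only [Prod.fst_add, Prod.snd_add]; ring
  map_smul' c u := by
    refine Prod.ext rfl (Prod.ext ?_ ?_)
    · simp only [Prod.smul_fst, Prod.smul_snd, RingHom.id_apply, smul_eq_mul, smul_add, smul_smul,
        mul_comm]
    · simp only [Prod.smul_fst, Prod.smul_snd, RingHom.id_apply, smul_eq_mul]; ring

/-- The functional that vanishes on the lifts of the clique. -/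
def fT (T : ℝ × E d × ℝ) : LL d →ₗ[ℝ] ℝ where
  toFun u := (T.1 ^ 2 - T.1) * u.2.2 + 2 * T.1 * (T.2.1 ⬝ᵥ u.2.1) + (nq T.2.1 - T.2.2) * u.1
  map_add' u v := by simp only [Prod.fst_add, Prod.snd_add, dotProduct_add]; ring
  map_smul' c u := by
    simp only [Prod.smul_fst, Prod.smul_snd, RingHom.id_apply, smul_eq_mul, dotProduct_smul]; ring

lemma nq_comb (s : ℝ) (x c : E d) : nq (s • x + c) = s ^ 2 * nq x + 2 * s * (c ⬝ᵥ x) + nq c := by
  simp only [nq, add_dotProduct, dotProduct_add, smul_dotProduct, dotProduct_smul, smul_eq_mul,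
    dotProduct_comm x c]
  ring

lemma nq_eq_zero {x : E d} (h : nq x = 0) : x = 0 := dotProduct_self_eq_zero.1 h

lemma fT_lift (T : ℝ × E d × ℝ) (x : E d) :
    fT T (lift x) = nq (T.1 • x + T.2.1) - (T.1 * nq x + T.2.2) := by
  rw [nq_comb]; simp only [fT, lift, LinearMap.coe_mk, AddHom.coe_mk]; ring

lemma Tl_lift {T : ℝ × E d × ℝ} {x : E d} (h : nq (T.1 • x + T.2.1) = T.1 * nq x + T.2.2) :
    Tl T (lift x) = lift (T.1 • x + T.2.1) := by
  simp only [Tl, lift, LinearMap.coe_mk, AddHom.coe_mk, one_smul, one_mul, h]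

def Kill (T : ℝ × E d × ℝ) (U : Submodule ℝ (LL d)) : Prop := ∀ u ∈ U, fT T u = 0

lemma Kill.pt {T : ℝ × E d × ℝ} {U : Submodule ℝ (LL d)} (h : Kill T U) {x : E d}
    (hx : lift x ∈ U) : nq (T.1 • x + T.2.1) = T.1 * nq x + T.2.2 := by
  have := h _ hx
  rw [fT_lift] at this
  linarith

/-- A homothety is determined by one pair. -/
lemma eq_of_pt {T T' : ℝ × E d × ℝ} {U : Submodule ℝ (LL d)} (h : Kill T U) (h' : Kill T' U)
    (h0 : T.1 ≠ 0) (h0' : T'.1 ≠ 0) {z w : E d} (hz : lift z ∈ U) (hw : lift w ∈ U) (hzw : z ≠ w)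
    (e : T.1 • z + T.2.1 = T'.1 • z + T'.2.1) : T = T' := by
  have key : ∀ S : ℝ × E d × ℝ, Kill S U → S.1 ≠ 0 →
      S.1 * nq (w - z) + 2 * ((S.1 • z + S.2.1) ⬝ᵥ (w - z)) = nq w - nq z := fun S hS hS0 => by
    have h1 := hS.pt hz
    have h2 := hS.pt hw
    have h3 : S.1 • w + S.2.1 = S.1 • (w - z) + (S.1 • z + S.2.1) := by rw [smul_sub]; abel
    rw [h3, nq_comb, h1] at h2
    apply mul_left_cancel₀ hS0
    linarith
  have h1 := key T h h0
  have h2 := key T' h' h0'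
  rw [← e] at h2
  have h3 : nq (w - z) ≠ 0 := fun hh => hzw (sub_eq_zero.1 (nq_eq_zero hh)).symm
  have h4 : T.1 = T'.1 := mul_right_cancel₀ h3 (by linarith)
  have h5 := h.pt hz
  have h6 := h'.pt hz
  rw [← e, ← h4] at h6
  rw [← h4] at e
  exact Prod.ext h4 (Prod.ext (add_left_cancel e) (by linarith))

lemma step {T T' : ℝ × E d × ℝ} {U : Submodule ℝ (LL d)} (h : Kill T U) (h' : Kill T' U)
    (h0' : T'.1 ≠ 0) (e : U.map (Tl T) = U.map (Tl T')) {x : E d} (hx : lift x ∈ U) :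
    ∃ y, lift y ∈ U ∧ T'.1 • y + T'.2.1 = T.1 • x + T.2.1 := by
  have h1 : Tl T (lift x) ∈ U.map (Tl T') := e ▸ Submodule.mem_map_of_mem hx
  obtain ⟨⟨t, y, s⟩, hu, h2⟩ := h1
  rw [Tl_lift (h.pt hx)] at h2
  simp only [Tl, lift, LinearMap.coe_mk, AddHom.coe_mk, Prod.mk.injEq] at h2
  obtain ⟨rfl, h3, h4⟩ := h2
  rw [one_smul] at h3
  have h5 := h' _ hu
  simp only [fT, LinearMap.coe_mk, AddHom.coe_mk] at h5
  rw [← h3, nq_comb] at h4
  have h6 : s = nq y := by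
    apply mul_left_cancel₀ (pow_ne_zero 2 h0')
    linarith
  subst h6
  exact ⟨y, hu, h3⟩

/-- At most two homotheties map a circle to a given circle. -/
lemma eq_or_neg {T T' : ℝ × E d × ℝ} {U : Submodule ℝ (LL d)} (h : Kill T U) (h' : Kill T' U)
    (h0 : T.1 ≠ 0) (h0' : T'.1 ≠ 0) (e : U.map (Tl T) = U.map (Tl T')) {x w : E d}
    (hx : lift x ∈ U) (hw : lift w ∈ U) (hxw : x ≠ w) : T = T' ∨ T.1 = -T'.1 := by
  obtain ⟨y, hy, e1⟩ := step h h' h0' e hx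
  obtain ⟨z, hz, e2⟩ := step h h' h0' e hy
  by_cases hxy : y = x
  · subst hxy
    exact Or.inl (eq_of_pt h h' h0 h0' hx hw hxw e1.symm)
  right
  have a1 := h.pt hx
  have a2 := h.pt hy
  have a3 := h'.pt hy
  have a4 := h'.pt hz
  rw [e1] at a3
  rw [e2] at a4
  have h1 : T'.1 • z + 0 = T.1 • (y - x) + T'.1 • y := by
    have : T'.1 • z = T.1 • y + T.2.1 - T'.2.1 := by rw [← e2]; abel
    have h2 : T'.1 • y = T.1 • x + T.2.1 - T'.2.1 := by rw [← e1]; abel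
    rw [this, h2, smul_sub]; abel
  have h2 := congrArg nq h1
  have h3 : x = (-1 : ℝ) • (y - x) + y := by rw [neg_one_smul]; abel
  have h4 := congrArg nq h3
  have h5 : nq (T'.1 • y) = T'.1 ^ 2 * nq y := by
    have := nq_comb T'.1 y 0
    simpa [nq] using this
  rw [nq_comb] at h4
  rw [nq_comb, nq_comb, h5, smul_dotProduct] at h2
  simp only [zero_dotProduct, nq, smul_eq_mul] at h2
  have h6 : nq (y - x) ≠ 0 := fun hh => hxy (sub_eq_zero.1 (nq_eq_zero hh))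
  have h7 : T.1 * ((T.1 + T'.1) * nq (y - x)) = 0 := by
    have b1 : T'.1 * (nq z - nq y) = T.1 * (nq y - nq x) := by linarith
    simp only [nq] at *
    linear_combination (-1) * h2 + T'.1 * b1 - T.1 * T'.1 * h4
  rcases mul_eq_zero.1 h7 with h8 | h8
  · exact absurd h8 h0
  · rcases mul_eq_zero.1 h8 with h9 | h9
    · linarith
    · exact absurd h9 h6

lemma mem_clq' {Q : Finset (E d)} {l : E d → Lab d} {b : Lab d} {T : ℝ × E d × ℝ} {z : E d} :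
    z ∈ clq Q l b T ↔ z ∈ Q ∧ l z = b ∧ T.1 • z + T.2.1 ∈ Q ∧ l (T.1 • z + T.2.1) = b ∧
      nq (T.1 • z + T.2.1) = T.1 * nq z + T.2.2 ∧ T.1 • z + T.2.1 ≠ z := by
  simp only [clq, mem_filter]

lemma app_inj {T : ℝ × E d × ℝ} (h0 : T.1 ≠ 0) {x y : E d}
    (e : T.1 • x + T.2.1 = T.1 • y + T.2.1) : x = y :=
  smul_right_injective _ h0 (add_right_cancel e)

section

variable {Q : Finset (E d)} {l : E d → Lab d} {own : E d → Submodule ℝ (LL d)}

lemma facts (ho : Own Q own) {b : Lab d} {T : ℝ × E d × ℝ} {U : Submodule ℝ (LL d)}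
    (h3 : 3 ≤ #{z ∈ clq Q l b T | own z = U}) :
    Module.finrank ℝ U ≤ 3 ∧ Kill T U ∧ ∀ z : E d, ∃ w, lift w ∈ U ∧ z ≠ w := by
  obtain ⟨x, hx, y, hy, z, hz, h1, h2, h4⟩ := two_lt_card.1 h3
  have hm : ∀ x ∈ ({z ∈ clq Q l b T | own z = U} : Finset (E d)),
      lift x ∈ U ∧ Module.finrank ℝ U ≤ 3 ∧ fT T (lift x) = 0 := fun x hx => by
    obtain ⟨a1, a2⟩ := mem_filter.1 hx
    obtain ⟨a3, -, -, -, a4, -⟩ := mem_clq'.1 a1
    have := ho x a3
    rw [a2] at this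
    exact ⟨this.1, this.2, by rw [fT_lift, a4, sub_self]⟩
  refine ⟨(hm x hx).2.1, ?_, fun v => ?_⟩
  · have : U ≤ LinearMap.ker (fT T) := by
      rw [span_three (hm x hx).2.1 h1 h2 h4 (hm x hx).1 (hm y hy).1 (hm z hz).1,
        Submodule.span_le]
      rintro u (rfl | rfl | rfl)
      exacts [(hm _ hx).2.2, (hm _ hy).2.2, (hm _ hz).2.2]
    exact fun u hu => this hu
  · by_cases hv : v = x
    · exact ⟨y, (hm y hy).1, hv ▸ h1⟩
    · exact ⟨x, (hm x hx).1, hv⟩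

lemma pairs_le {σ : ℝ} (hσ : Size Q l σ) :
    (#{p ∈ Q ×ˢ Q | l p.1 = l p.2} : ℝ) ≤ #Q * σ := by
  rw [card_eq_sum_card_fiberwise (f := Prod.fst) (t := Q)
    (fun p hp => (mem_product.1 (mem_filter.1 hp).1).1)]
  push_cast
  calc _ ≤ ∑ _x ∈ Q, σ := sum_le_sum fun x _ => le_trans (Nat.cast_le.2 ?_) (hσ (l x))
    _ = _ := by simp
  refine card_le_card_of_injOn Prod.snd (fun p hp => ?_) (fun p hp q hq e => ?_)
  · simp only [coe_filter, mem_filter, mem_product, Set.mem_ofPred_eq] at hp ⊢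
    obtain ⟨⟨⟨-, h2⟩, h3⟩, rfl⟩ := hp
    exact ⟨h2, h3.symm⟩
  · simp only [coe_filter, Set.mem_ofPred_eq] at hp hq
    exact Prod.ext (hp.2.trans hq.2.symm) e

lemma dir_sum (ho : Own Q own) {σ a : ℝ} (hσ : Size Q l σ) (ha : Acc Q l own a) (ha1 : 1 ≤ a)
    {ι : Type} (S : Finset ι) (b : ι → Lab d) (T : ι → ℝ × E d × ℝ)
    (U : ι → Submodule ℝ (LL d)) (hinj : ∀ i ∈ S, ∀ j ∈ S, b i = b j → T i = T j → i = j)
    (h0 : ∀ i ∈ S, (T i).1 ≠ 0) (h3 : ∀ i ∈ S, 3 ≤ #{z ∈ clq Q l (b i) (T i) | own z = U i}) :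
    ∑ i ∈ S, (#{z ∈ clq Q l (b i) (T i) | own z = U i} : ℝ) ^ 2 ≤ 3 * a * (#Q * σ) := by
  set P : Finset (E d × E d) := {p ∈ Q ×ˢ Q | l p.1 = l p.2} with hP
  set K : ι → Finset (E d) := fun i => {z ∈ clq Q l (b i) (T i) | own z = U i} with hK
  set K1 : ι → Finset (E d) := fun i =>
    {z ∈ clq Q l (b i) (T i) | own ((T i).1 • z + (T i).2.1) = (U i).map (Tl (T i))} with hK1
  have hPσ : (#P : ℝ) ≤ #Q * σ := pairs_le hσ
  have hF := fun i hi => facts ho (h3 i hi)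
  have hlift : ∀ i, ∀ z ∈ K i, lift z ∈ U i := fun i z hz => by
    obtain ⟨a1, a2⟩ := mem_filter.1 hz
    exact a2 ▸ (ho z (mem_clq'.1 a1).1).1
  have s1 : ∑ i ∈ S, #(K i) ≤ #P := by
    rw [← card_sigma]
    refine card_le_card_of_injOn (fun p => (p.2, (T p.1).1 • p.2 + (T p.1).2.1))
      (fun p hp => ?_) ?_
    · obtain ⟨a1, a2, a3, a4, -⟩ := mem_clq'.1 (mem_filter.1 (mem_sigma.1 hp).2).1
      exact mem_filter.2 ⟨mem_product.2 ⟨a1, a3⟩, a2.trans a4.symm⟩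
    · rintro ⟨i, z⟩ hp ⟨j, z'⟩ hq e
      obtain ⟨hi, hz⟩ := mem_sigma.1 hp
      obtain ⟨hj, hz'⟩ := mem_sigma.1 hq
      obtain ⟨rfl, e2⟩ := Prod.mk.inj e
      have hU : U i = U j := (mem_filter.1 hz).2.symm.trans (mem_filter.1 hz').2
      obtain ⟨w, hw, hzw⟩ := (hF i hi).2.2 z
      obtain rfl := hinj i hi j hj
        ((mem_clq'.1 (mem_filter.1 hz).1).2.1.symm.trans (mem_clq'.1 (mem_filter.1 hz').1).2.1)
        (eq_of_pt (hF i hi).2.1 (hU ▸ (hF j hj).2.1) (h0 i hi) (h0 j hj) (hlift i z hz) hw hzw e2)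
      rfl
  have s2 : ∑ i ∈ S, #(K i) * #(K1 i) ≤ #P * 2 := by
    simp_rw [← card_product]
    rw [← card_sigma, show (2 : ℕ) = #(univ : Finset Bool) from rfl, ← card_product]
    refine card_le_card_of_injOn
      (fun p => ((p.2.1, (T p.1).1 • p.2.2 + (T p.1).2.1), decide (0 < (T p.1).1)))
      (fun p hp => ?_) ?_
    · obtain ⟨c1, c2⟩ := mem_product.1 (mem_sigma.1 hp).2
      obtain ⟨a1, a2, -⟩ := mem_clq'.1 (mem_filter.1 c1).1
      obtain ⟨-, -, a3, a4, -⟩ := mem_clq'.1 (mem_filter.1 c2).1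
      exact mem_product.2 ⟨mem_filter.2 ⟨mem_product.2 ⟨a1, a3⟩, a2.trans a4.symm⟩, mem_univ _⟩
    · rintro ⟨i, z, w⟩ hp ⟨j, z', w'⟩ hq e
      obtain ⟨hi, hp2⟩ := mem_sigma.1 hp
      obtain ⟨hj, hq2⟩ := mem_sigma.1 hq
      obtain ⟨hz, hw⟩ := mem_product.1 hp2
      obtain ⟨hz', hw'⟩ := mem_product.1 hq2
      obtain ⟨e1, e3⟩ := Prod.mk.inj e
      obtain ⟨rfl, e2⟩ := Prod.mk.inj e1
      dsimp only at hi hj hz hw hz' hw' e2 e3
      have hU : U i = U j := (mem_filter.1 hz).2.symm.trans (mem_filter.1 hz').2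
      have hM : (U i).map (Tl (T i)) = (U i).map (Tl (T j)) := by
        rw [← (mem_filter.1 hw).2, e2, (mem_filter.1 hw').2, hU]
      obtain ⟨v, hv, hzv⟩ := (hF i hi).2.2 z
      have hT : T i = T j := by
        refine (eq_or_neg (hF i hi).2.1 (hU ▸ (hF j hj).2.1) (h0 i hi) (h0 j hj) hM
          (hlift i z hz) hv hzv).resolve_right fun hn => ?_
        have e4 := decide_eq_decide.1 e3
        rcases lt_or_gt_of_ne (h0 j hj) with h | h
        · have := e4.1 (by linarith); linarith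
        · have := e4.2 h; linarith
      obtain rfl := hinj i hi j hj
        ((mem_clq'.1 (mem_filter.1 hz).1).2.1.symm.trans (mem_clq'.1 (mem_filter.1 hz').1).2.1) hT
      obtain rfl := app_inj (h0 i hi) e2
      rfl
  have s3 : ∀ i ∈ S, (#(K i) : ℝ) ≤ a + #(K1 i) := fun i hi => by
    have h1 := ha ((U i).map (Tl (T i))) ((Submodule.finrank_map_le _ _).trans (hF i hi).1) (b i)
    have h2 : #(K i \ K1 i) ≤ #{z ∈ Q | l z = b i ∧ lift z ∈ (U i).map (Tl (T i)) ∧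
        own z ≠ (U i).map (Tl (T i))} := by
      refine card_le_card_of_injOn (fun z => (T i).1 • z + (T i).2.1) (fun z hz => ?_)
        (fun x _ y _ e => app_inj (h0 i hi) e)
      obtain ⟨c1, c2⟩ := mem_sdiff.1 hz
      have c3 := (mem_filter.1 c1).1
      obtain ⟨-, -, a3, a4, a5, -⟩ := mem_clq'.1 c3
      refine mem_filter.2 ⟨a3, a4, ?_, fun hh => c2 (mem_filter.2 ⟨c3, hh⟩)⟩
      rw [← Tl_lift a5]
      exact Submodule.mem_map_of_mem (hlift i z c1)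
    have h4 : #(K i) ≤ #(K i \ K1 i) + #(K1 i) := card_le_card_sdiff_add_card
    have h5 : (#(K i) : ℝ) ≤ #(K i \ K1 i) + #(K1 i) := by exact_mod_cast h4
    have h6 := (Nat.cast_le (α := ℝ)).2 h2
    linarith
  have t1 : ∑ i ∈ S, (#(K i) : ℝ) ≤ #P := by exact_mod_cast s1
  have t2 : ∑ i ∈ S, (#(K i) : ℝ) * #(K1 i) ≤ #P * 2 := by exact_mod_cast s2
  have hP0 : (0 : ℝ) ≤ #P := Nat.cast_nonneg _
  calc ∑ i ∈ S, (#(K i) : ℝ) ^ 2 ≤ ∑ i ∈ S, (a * #(K i) + (#(K i) : ℝ) * #(K1 i)) :=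
        sum_le_sum fun i hi => by
          have := mul_le_mul_of_nonneg_left (s3 i hi) (Nat.cast_nonneg (α := ℝ) #(K i))
          nlinarith
    _ = a * ∑ i ∈ S, (#(K i) : ℝ) + ∑ i ∈ S, (#(K i) : ℝ) * #(K1 i) := by
        rw [sum_add_distrib, mul_sum]
    _ ≤ a * #P + #P * 2 := by gcongr
    _ ≤ 3 * a * #P := by nlinarith
    _ ≤ _ := by gcongr

/-- The inverse homothety. -/
noncomputable def inv (T : ℝ × E d × ℝ) : ℝ × E d × ℝ :=
  (T.1⁻¹, -(T.1⁻¹ • T.2.1), -(T.1⁻¹ * T.2.2))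

lemma inv_inj' {T T' : ℝ × E d × ℝ} (h0 : T.1 ≠ 0) (e : inv T = inv T') : T = T' := by
  simp only [inv, Prod.mk.injEq, inv_inj, neg_inj] at e
  obtain ⟨e1, e2, e3⟩ := e
  rw [← e1] at e2 e3
  exact Prod.ext e1 (Prod.ext (smul_right_injective _ (inv_ne_zero h0) e2)
    (mul_left_cancel₀ (inv_ne_zero h0) e3))

lemma inv_card {b : Lab d} {T : ℝ × E d × ℝ} (h0 : T.1 ≠ 0) (U : Submodule ℝ (LL d)) :
    #{z ∈ clq Q l b T | own (T.1 • z + T.2.1) = U} ≤ #{z ∈ clq Q l b (inv T) | own z = U} := by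
  refine card_le_card_of_injOn (fun z => T.1 • z + T.2.1) (fun z hz => ?_)
    (fun x _ y _ e => app_inj h0 e)
  obtain ⟨c1, c2⟩ := mem_filter.1 hz
  obtain ⟨a1, a2, a3, a4, a5, a6⟩ := mem_clq'.1 c1
  have e : (inv T).1 • (T.1 • z + T.2.1) + (inv T).2.1 = z := by
    simp [inv, smul_smul, inv_mul_cancel₀ h0]
  refine mem_filter.2 ⟨mem_clq'.2 ⟨a3, a4, ?_⟩, c2⟩
  rw [e, a5]
  refine ⟨a1, a2, ?_, a6.symm⟩
  simp only [inv]
  field_simp
  ring

end

end DomA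

open DomA in
theorem dom_count {Q : Finset (E d)} (hQ : Set.InjOn nq (Q : Set (E d))) {l : E d → Lab d}
    {own : E d → Submodule ℝ (LL d)} (ho : Own Q own) {σ a : ℝ} (hσ : Size Q l σ)
    (ha : Acc Q l own a) (ha1 : 1 ≤ a) {L : ℕ} (hL : 1 ≤ L) :
    (#{w ∈ quads Q l own | w.2.1 ≠ w.1.1 ∧ 3 * L ≤ #(clq Q l (l w.1.1) (homOf w)) ∧
      Dom Q l own L (l w.1.1) (homOf w)} : ℝ) ≤ 12 * L ^ 2 * a * (#Q * σ) := by
  set W := {w ∈ quads Q l own | w.2.1 ≠ w.1.1 ∧ 3 * L ≤ #(clq Q l (l w.1.1) (homOf w)) ∧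
      Dom Q l own L (l w.1.1) (homOf w)} with hW
  set S := W.image fun w => (l w.1.1, homOf w) with hS
  have hk : ∀ k ∈ S, k.2.1 ≠ 0 ∧ 3 * L ≤ #(clq Q l k.1 k.2) ∧ Dom Q l own L k.1 k.2 := by
    intro k hk
    obtain ⟨w, hw, rfl⟩ := mem_image.1 hk
    obtain ⟨h1, h2, h3, h4⟩ := mem_filter.1 hw
    exact ⟨(mem_clq hQ h1 h2).1, h3, h4⟩
  have h1 : #W ≤ ∑ k ∈ S, #(clq Q l k.1 k.2) ^ 2 := by
    rw [card_eq_sum_card_image (fun w => (l w.1.1, homOf w)) W]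
    refine sum_le_sum fun k _ => ?_
    rw [sq, ← card_product]
    refine card_le_card_of_injOn Prod.fst (fun w hw => ?_) (fun w hw w' hw' e => ?_)
    · obtain ⟨a1, rfl⟩ := mem_filter.1 hw
      obtain ⟨a2, a3, -⟩ := mem_filter.1 a1
      exact mem_product.2 (mem_clq hQ a2 a3).2.2.2
    · obtain ⟨a1, a4⟩ := mem_filter.1 hw
      obtain ⟨a2, a3, -⟩ := mem_filter.1 a1
      obtain ⟨c1, c4⟩ := mem_filter.1 hw'
      obtain ⟨c2, c3, -⟩ := mem_filter.1 c1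
      have e2 : homOf w = homOf w' := congrArg Prod.snd (a4.trans c4.symm)
      obtain ⟨-, a5, a6, -⟩ := mem_clq hQ a2 a3
      obtain ⟨-, c5, c6, -⟩ := mem_clq hQ c2 c3
      refine Prod.ext e (Prod.ext ?_ ?_)
      · rw [← a5, ← c5, e2, e]
      · rw [← a6, ← c6, e2, e]
  have hU : ∀ k : Lab d × ℝ × E d × ℝ, ∃ U, k ∈ S →
      (#(clq Q l k.1 k.2) ≤ L * #{z ∈ clq Q l k.1 k.2 | own z = U} ∨
        #(clq Q l k.1 k.2) ≤ L * #{z ∈ clq Q l k.1 (inv k.2) | own z = U}) := fun k => by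
    by_cases h : k ∈ S
    · obtain ⟨h0, -, U, h2⟩ := hk k h
      exact ⟨U, fun _ => h2.imp_right fun h3 =>
        h3.trans (Nat.mul_le_mul_left _ (inv_card h0 U))⟩
    · exact ⟨⊥, fun h' => absurd h' h⟩
  choose U hU using hU
  have main : ∀ (g : ℝ × E d × ℝ → ℝ × E d × ℝ) (S' : Finset (Lab d × ℝ × E d × ℝ)), S' ⊆ S →
      (∀ T T', T.1 ≠ 0 → g T = g T' → T = T') → (∀ T, T.1 ≠ 0 → (g T).1 ≠ 0) →
      (∀ k ∈ S', #(clq Q l k.1 k.2) ≤ L * #{z ∈ clq Q l k.1 (g k.2) | own z = U k}) →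
      ∑ k ∈ S', (#(clq Q l k.1 k.2) : ℝ) ^ 2 ≤ L ^ 2 * (3 * a * (#Q * σ)) := by
    intro g S' hS' g1 g2 g3
    have := dir_sum ho hσ ha ha1 S' Prod.fst (fun k => g k.2) U
      (fun i hi j _ e1 e2 => Prod.ext e1 (g1 _ _ (hk i (hS' hi)).1 e2))
      (fun i hi => g2 _ (hk i (hS' hi)).1) (fun i hi => by
        have := (hk i (hS' hi)).2.1.trans (g3 i hi)
        rw [mul_comm] at this
        exact Nat.le_of_mul_le_mul_left this hL)
    refine le_trans ?_ (mul_le_mul_of_nonneg_left this (by positivity))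
    rw [mul_sum]
    refine sum_le_sum fun k hk' => ?_
    rw [← mul_pow]
    exact pow_le_pow_left₀ (Nat.cast_nonneg _) (by exact_mod_cast g3 k hk') 2
  have m1 := main id {k ∈ S | #(clq Q l k.1 k.2) ≤ L * #{z ∈ clq Q l k.1 k.2 | own z = U k}}
    (filter_subset _ _) (fun _ _ _ e => e) (fun _ h => h) (fun k hk' => (mem_filter.1 hk').2)
  have m2 := main inv {k ∈ S | ¬ #(clq Q l k.1 k.2) ≤ L * #{z ∈ clq Q l k.1 k.2 | own z = U k}}
    (filter_subset _ _) (fun _ _ h e => inv_inj' h e) (fun _ h => inv_ne_zero h)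
    (fun k hk' => (hU k (mem_filter.1 hk').1).resolve_left (mem_filter.1 hk').2)
  have h2 : (#W : ℝ) ≤ ∑ k ∈ S, (#(clq Q l k.1 k.2) : ℝ) ^ 2 := by exact_mod_cast h1
  rw [← sum_filter_add_sum_filter_not S
    (fun k => #(clq Q l k.1 k.2) ≤ L * #{z ∈ clq Q l k.1 k.2 | own z = U k})] at h2
  have h3 : (0 : ℝ) ≤ L ^ 2 * (3 * a * (#Q * σ)) :=
    le_trans (sum_nonneg fun _ _ => sq_nonneg _) m1
  linarith

end Pool.Agent.P.MP_5f07f1_co
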