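import Pool.Agent.P.MP_5f07f1_co.Flat

/-! Incidences with hyperplanes on a tree (paper section 5, Lemma F). -/

namespace Pool.Agent.P.MP_5f07f1_co

open Finset MvPolynomial Pool.Agent.Lib.PolyPart Classical

variable {d : ℕ}

namespace LemF

/-- The block that contains an incidence. -/
def key (l : E d → Lab d) (w : E d × E d) : E d × Lab d := (w.1, l w.2)

lemma key_fst {l l' : E d → Lab d} {w w' : E d × E d} (h : key l w = key l' w') : w.1 = w'.1 :=
  (Prod.ext_iff.1 h).1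

/-- Every block spans rank at most `k`. -/
def Rk (l : E d → Lab d) (k : ℕ) (II : Finset (E d × E d)) : Prop :=
  ∀ p : E d × Lab d, ∃ U : Submodule ℝ (E d), Module.finrank ℝ U ≤ k ∧
    ∀ w ∈ II, key l w = p → w.2 ∈ U

/-- Independent tuples of one cell lie in few blocks. -/
def Tup (Q : Finset (E d)) (l : E d → Lab d) (k : ℕ) (II : Finset (E d × E d)) (W Z : ℝ) : Prop :=
  ∀ m, 1 ≤ m → m ≤ k → ∀ T : Fin m → E d, LinearIndependent ℝ T → (∀ t t', l (T t) = l (T t')) →
    (#{q ∈ Q | ∀ t, (q, T t) ∈ II} : ℝ) * W ^ m ≤ Z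

/-- The statement for one level and one rank, with the constant `c`. -/
def St (Q H : Finset (E d)) (A' : ℝ) (l : E d → Lab d) (σ : ℝ) (k : ℕ) (c : ℝ) : Prop :=
  ∀ II : Finset (E d × E d), II ⊆ Q ×ˢ H → (∀ w ∈ II, w.2 ⬝ᵥ w.1 = 1) → ∀ W Z : ℝ, 0 < W → 0 ≤ Z →
    Rk l k II → Tup Q l k II W Z →
      (#II : ℝ) ≤ c * (#H * Z / σ + #(II.image (key l)) * σ / W + #H * A')

lemma card_le_fib {α β : Type*} [DecidableEq β] (f : α → β) (s : Finset α) (t : Finset β) (c : ℝ) (hc : 0 ≤ c)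
    (ht : ∀ w ∈ s, f w ∈ t) (h : ∀ w ∈ s, (#{w' ∈ s | f w' = f w} : ℝ) ≤ c) :
    (#s : ℝ) ≤ #t * c := by
  rw [card_eq_sum_card_fiberwise (f := f) (s := s) (t := t) ht]
  push_cast
  rw [← nsmul_eq_mul]
  refine sum_le_card_nsmul _ _ _ fun b _ => ?_
  rcases eq_empty_or_nonempty ({a ∈ s | f a = b}) with he | ⟨w, hw⟩
  · rw [he]; simpa using hc
  · obtain ⟨hw1, rfl⟩ := mem_filter.1 hw
    exact h w hw1

lemma ne_zero_of_dot {a q : E d} (h : a ⬝ᵥ q = 1) : a ≠ 0 := by
  rintro rfl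
  simp at h

lemma Rk.mono {l : E d → Lab d} {k : ℕ} {II II' : Finset (E d × E d)} (h : Rk l k II)
    (hs : II' ⊆ II) : Rk l k II' := fun p => by
  obtain ⟨U, hU, h1⟩ := h p
  exact ⟨U, hU, fun w hw => h1 w (hs hw)⟩

lemma Tup.mono {Q : Finset (E d)} {l : E d → Lab d} {k k' : ℕ} {II II' : Finset (E d × E d)}
    {W Z : ℝ} (h : Tup Q l k II W Z) (hW : 0 < W) (hs : II' ⊆ II) (hk : k' ≤ k) :
    Tup Q l k' II' W Z := fun m h1 h2 T hT hl => by
  refine le_trans ?_ (h m h1 (h2.trans hk) T hT hl)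
  gcongr

lemma St.mono {Q H : Finset (E d)} {A' : ℝ} {l : E d → Lab d} {σ : ℝ} {k : ℕ} {c c' : ℝ}
    (h : St Q H A' l σ k c) (hA' : 0 ≤ A') (hσ : 0 < σ) (hc : c ≤ c') : St Q H A' l σ k c' := by
  intro II h1 h2 W Z hW hZ h3 h4
  refine (h II h1 h2 W Z hW hZ h3 h4).trans ?_
  gcongr

lemma eq_of_rank_one {U : Submodule ℝ (E d)} (hU : Module.finrank ℝ U ≤ 1) {a b q : E d}
    (ha : a ∈ U) (hb : b ∈ U) (h1 : a ⬝ᵥ q = 1) (h2 : b ⬝ᵥ q = 1) : a = b := by
  obtain ⟨v, hv⟩ := (finrank_le_one_iff (K := ℝ) (V := U)).1 hU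
  obtain ⟨r, hr⟩ := hv ⟨a, ha⟩
  obtain ⟨r', hr'⟩ := hv ⟨b, hb⟩
  have e1 : r • (v : E d) = a := congrArg Subtype.val hr
  have e2 : r' • (v : E d) = b := congrArg Subtype.val hr'
  rw [← e1, smul_dotProduct, smul_eq_mul] at h1
  rw [← e2, smul_dotProduct, smul_eq_mul] at h2
  have h3 : r = r' := by
    have h4 : (v : E d) ⬝ᵥ q ≠ 0 := by
      intro h0
      rw [h0] at h1
      simp at h1
    exact mul_right_cancel₀ h4 (h1.trans h2.symm)
  rw [← e1, ← e2, h3]

lemma base {Q H : Finset (E d)} {A' : ℝ} (hA' : 0 ≤ A') {l : E d → Lab d} {σ : ℝ} (hσ : 0 < σ)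
    {k : ℕ} {M : ℝ} (hM : 1 ≤ M)
    (hb : (∀ b, (#{z ∈ H | l z = b} : ℝ) ≤ M) ∨ k ≤ 1) : St Q H A' l σ k M := by
  intro II h1 h2 W Z hW hZ h3 h4
  have hK : (#II : ℝ) ≤ #(II.image (key l)) * M := by
    refine card_le_fib (key l) II _ M (by linarith) (fun w hw => mem_image_of_mem _ hw) ?_
    intro w hw
    rcases hb with hb | hb
    · refine le_trans ?_ (hb (l w.2))
      norm_cast
      refine card_le_card_of_injOn Prod.snd ?_ ?_
      · intro w' hw'
        obtain ⟨h5, h6⟩ := mem_filter.1 (mem_coe.1 hw')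
        exact mem_coe.2 (mem_filter.2 ⟨(mem_product.1 (h1 h5)).2, congrArg Prod.snd h6⟩)
      · intro w' hw' w'' hw'' he
        have h5 := congrArg Prod.fst (mem_filter.1 (mem_coe.1 hw')).2
        have h6 := congrArg Prod.fst (mem_filter.1 (mem_coe.1 hw'')).2
        exact Prod.ext (h5.trans h6.symm) he
    · refine le_trans ?_ hM
      norm_cast
      refine card_le_one.2 fun w' hw' w'' hw'' => ?_
      obtain ⟨h5, h6⟩ := mem_filter.1 hw'
      obtain ⟨h7, h8⟩ := mem_filter.1 hw''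
      obtain ⟨U, hU, hU'⟩ := h3 (key l w)
      have h9 : w'.1 = w''.1 := (congrArg Prod.fst h6).trans (congrArg Prod.fst h8).symm
      refine Prod.ext h9 (eq_of_rank_one (hU.trans hb) (hU' w' h5 h6) (hU' w'' h7 h8)
        (h2 w' h5) ?_)
      rw [h9]
      exact h2 w'' h7
  have hH : (#II : ℝ) ≤ #H * (Z / W) := by
    refine card_le_fib Prod.snd II H _ (by positivity)
      (fun w hw => (mem_product.1 (h1 hw)).2) ?_
    intro w hw
    have hw0 := ne_zero_of_dot (h2 w hw)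
    have hk : 1 ≤ k := by
      obtain ⟨U, hU, hU'⟩ := h3 (key l w)
      by_contra hk
      have h5 : U = ⊥ := Submodule.finrank_eq_zero.1 (by omega)
      have h6 := hU' w hw rfl
      rw [h5] at h6
      exact hw0 (by simpa using h6)
    have h5 := h4 1 le_rfl hk (fun _ => w.2) (by simpa [linearIndependent_unique_iff] using hw0)
      (fun _ _ => rfl)
    rw [pow_one, ← le_div_iff₀ hW] at h5
    refine le_trans ?_ h5
    norm_cast
    refine card_le_card_of_injOn Prod.fst ?_ ?_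
    · intro w' hw'
      obtain ⟨h6, h7⟩ := mem_filter.1 (mem_coe.1 hw')
      refine mem_coe.2 (mem_filter.2 ⟨(mem_product.1 (h1 h6)).1, fun _ => ?_⟩)
      rw [← h7]
      exact h6
    · intro w' hw' w'' hw'' he
      exact Prod.ext he ((mem_filter.1 (mem_coe.1 hw')).2.trans
        (mem_filter.1 (mem_coe.1 hw'')).2.symm)
  have p1 : 0 ≤ (#H : ℝ) * Z / σ := by positivity
  have p2 : 0 ≤ (#(II.image (key l)) : ℝ) * σ / W := by positivity
  have p3 : 0 ≤ (#H : ℝ) * A' := by positivity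
  rcases le_total W σ with hc | hc
  · have h5 : (#(II.image (key l)) : ℝ) ≤ #(II.image (key l)) * σ / W := by
      rw [le_div_iff₀ hW]
      gcongr
    nlinarith
  · have h5 : (#H : ℝ) * (Z / W) ≤ #H * Z / σ := by
      rw [mul_div_assoc]
      gcongr
    nlinarith

/-- Extension of independent tuples inside large nondegenerate blocks. -/
lemma extend {Q H : Finset (E d)} {l : E d → Lab d} {σ : ℝ} (hσ : 0 < σ)
    (hs : ∀ b, (#{z ∈ H | l z = b} : ℝ) ≤ σ) {k : ℕ} {II : Finset (E d × E d)}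
    (h1 : II ⊆ Q ×ˢ H) {W Z : ℝ} (hW : 0 < W) (hZ : 0 ≤ Z)
    (hbig : ∀ w ∈ II, ∀ U : Submodule ℝ (E d), Module.finrank ℝ U < k →
      σ / W ≤ #{w' ∈ II | key l w' = key l w ∧ w'.2 ∉ U})
    (htop : ∀ T : Fin k → E d, LinearIndependent ℝ T → (∀ t t', l (T t) = l (T t')) →
      (#{q ∈ Q | ∀ t, (q, T t) ∈ II} : ℝ) * W ^ k ≤ Z) : Tup Q l k II W Z := by
  have main : ∀ r m : ℕ, m + r = k → 1 ≤ m → ∀ T : Fin m → E d, LinearIndependent ℝ T →
      (∀ t t', l (T t) = l (T t')) → (#{q ∈ Q | ∀ t, (q, T t) ∈ II} : ℝ) * W ^ m ≤ Z := by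
    intro r
    induction r with
    | zero =>
      intro m hm _ T hT hl
      obtain rfl : m = k := by omega
      exact htop T hT hl
    | succ r ih =>
      intro m hm hm1 T hT hl
      set t0 : Fin m := ⟨0, hm1⟩
      set N := {q ∈ Q | ∀ t, (q, T t) ∈ II} with hN
      set U := Submodule.span ℝ (Set.range T) with hU
      have hUr : Module.finrank ℝ U < k := by
        have := finrank_range_le_card (R := ℝ) T
        rw [Fintype.card_fin] at this
        exact lt_of_le_of_lt this (by omega)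
      set S := {w ∈ II | w.1 ∈ N ∧ l w.2 = l (T t0) ∧ w.2 ∉ U} with hS
      have hup : (#S : ℝ) ≤ #{z ∈ H | l z = l (T t0)} * (Z / W ^ (m + 1)) := by
        refine card_le_fib Prod.snd S _ _ (by positivity) ?_ ?_
        · intro w hw
          obtain ⟨h5, -, h6, -⟩ := mem_filter.1 hw
          exact mem_filter.2 ⟨(mem_product.1 (h1 h5)).2, h6⟩
        · intro w hw
          obtain ⟨-, -, h6, h7⟩ := mem_filter.1 hw
          have h8 := ih (m + 1) (by omega) (by omega) (Fin.cons w.2 T)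
            (linearIndependent_finCons.2 ⟨hT, h7⟩) (by
              have h9 : ∀ t, l ((Fin.cons w.2 T : Fin (m + 1) → E d) t) = l (T t0) := by
                intro t
                refine Fin.cases ?_ (fun t' => ?_) t
                · exact h6
                · exact hl t' t0
              intro t t'
              rw [h9, h9])
          rw [← le_div_iff₀ (by positivity)] at h8
          refine le_trans ?_ h8
          norm_cast
          refine card_le_card_of_injOn Prod.fst ?_ ?_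
          · intro w' hw'
            obtain ⟨h9, h10⟩ := mem_filter.1 (mem_coe.1 hw')
            obtain ⟨h11, h12, -⟩ := mem_filter.1 h9
            obtain ⟨h13, h14⟩ := mem_filter.1 h12
            refine mem_coe.2 (mem_filter.2 ⟨h13, fun t => ?_⟩)
            refine Fin.cases ?_ (fun t' => ?_) t
            · change (w'.1, w.2) ∈ II
              rw [← h10]
              exact h11
            · exact h14 t'
          · intro w' hw' w'' hw'' he
            exact Prod.ext he ((mem_filter.1 (mem_coe.1 hw')).2.trans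
              (mem_filter.1 (mem_coe.1 hw'')).2.symm)
      have hlow : (#N : ℝ) * (σ / W) ≤ #S := by
        rw [card_eq_sum_card_fiberwise (f := Prod.fst) (s := S) (t := N)
          (fun w hw => (mem_filter.1 (mem_coe.1 hw)).2.1)]
        push_cast
        rw [← nsmul_eq_mul]
        refine card_nsmul_le_sum _ _ _ fun q hq => ?_
        refine (hbig (q, T t0) ((mem_filter.1 hq).2 t0) U hUr).trans ?_
        norm_cast
        refine card_le_card fun w hw => ?_
        obtain ⟨h5, h6, h7⟩ := mem_filter.1 hw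
        have h8 : w.1 = q := congrArg Prod.fst h6
        exact mem_filter.2 ⟨mem_filter.2 ⟨h5, h8 ▸ hq, congrArg Prod.snd h6, h7⟩, h8⟩
      have h5 : (#N : ℝ) * (σ / W) ≤ σ * (Z / W ^ (m + 1)) :=
        hlow.trans (hup.trans (by gcongr; exact hs _))
      have h6 : (#N : ℝ) * W ^ m * σ ≤ Z * σ := by
        have e1 : (#N : ℝ) * W ^ m * σ = #N * (σ / W) * W ^ (m + 1) := by
          field_simp
          ring
        have e2 : Z * σ = σ * (Z / W ^ (m + 1)) * W ^ (m + 1) := by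
          field_simp
        rw [e1, e2]
        gcongr
      exact le_of_mul_le_mul_right h6 hσ
  intro m h2 h3
  exact main (k - m) m (by omega) h2

/-- The affine polynomial that vanishes on `{a | a ⬝ᵥ q = 1}`. -/
noncomputable def lin (q : E d) : MP d := ∑ i, C (q i) * X i - 1

lemma eval_lin (q a : E d) : eval a (lin q) = a ⬝ᵥ q - 1 := by
  simp [lin, dotProduct, mul_comm]

lemma deg_lin (q : E d) : (lin q).totalDegree ≤ 2 := by
  refine (totalDegree_sub _ _).trans (max_le ?_ (by simp))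
  refine totalDegree_finsetSum_le fun i _ => ?_
  refine (totalDegree_mul _ _).trans ?_
  rw [totalDegree_C, totalDegree_X]
  omega

lemma step {Q H : Finset (E d)} {A' : ℝ} (hA' : 0 ≤ A')
    (hh : ∀ a b : E d, LinearIndependent ℝ ![a, b] →
      (#{q ∈ Q | a ⬝ᵥ q = 1 ∧ b ⬝ᵥ q = 1} : ℝ) ≤ A')
    {j D Λ : ℕ} {l l' : E d → Lab d} {core : E d → Set (E d)} (hL : Lvl j D Λ H l l' core)
    (hj : 1 ≤ j) (hD : 1 ≤ D) (hΛ : 1 ≤ Λ) {σ : ℝ} (hσ : 0 < σ)
    (hs : ∀ b, (#{z ∈ H | l z = b} : ℝ) ≤ σ) {k : ℕ} (hk : 1 ≤ k) {c1 c2 : ℝ} (hc1 : 0 ≤ c1)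
    (hc2 : 0 ≤ c2) (P1 : St Q H A' l σ k c1) (P2 : St Q H A' l' (σ / (D : ℝ) ^ j) (k + 1) c2) :
    St Q H A' l σ (k + 1) (2 * (D : ℝ) ^ j + 2 * c1 + 1 + Λ * c2) := by
  intro II h1 h2 W Z hW hZ h3 h4
  have hD1 : (1 : ℝ) ≤ D := by exact_mod_cast hD
  have hD0 : (0 : ℝ) < D := by linarith
  have hΛ1 : (1 : ℝ) ≤ Λ := by exact_mod_cast hΛ
  have p1 : 0 ≤ (#H : ℝ) * Z / σ := by positivity
  have p3 : 0 ≤ (#H : ℝ) * A' := by positivity
  obtain ⟨e, g, heg, hg1, hjk, hcase⟩ : ∃ e g : ℕ, e + g = j ∧ 1 ≤ g ∧ j ≤ g * (k + 1) ∧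
      (e = k ∨ e = j - 1) := by
    rcases le_total (k + 1) j with hc | hc
    · obtain ⟨r, rfl⟩ := Nat.exists_eq_add_of_le hc
      exact ⟨k, r + 1, by omega, by omega, by nlinarith, Or.inl rfl⟩
    · exact ⟨j - 1, 1, by omega, le_rfl, by omega, Or.inr rfl⟩
  obtain ⟨γ, hγ⟩ : ∃ γ : ℝ, γ = (D : ℝ) ^ g := ⟨_, rfl⟩
  have hγ0 : 0 < γ := by rw [hγ]; positivity
  have hγj : γ ≤ (D : ℝ) ^ j := hγ ▸ pow_le_pow_right₀ hD1 (by omega)
  set fib : E d × Lab d → Finset (E d × E d) := fun p => {w ∈ II | key l w = p} with hfib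
  set small : E d × Lab d → Prop := fun p => (#(fib p) : ℝ) < 2 * γ * σ / W with hsmall
  set deg : E d × Lab d → Prop := fun p => ∃ U : Submodule ℝ (E d), Module.finrank ℝ U ≤ k ∧
    #(fib p) ≤ 2 * #{w ∈ fib p | w.2 ∈ U} with hdeg
  set cont : E d × E d → Prop := fun w => ∀ x ∈ core w.2, x ⬝ᵥ w.1 = 1 with hcont
  set I1 := {w ∈ II | small (key l w)} with hI1
  set I2 := {w ∈ II | deg (key l w)} with hI2
  set I3 := {w ∈ II | ¬ deg (key l w) ∧ cont w} with hI3
  set I4 := {w ∈ II | ¬ small (key l w) ∧ ¬ deg (key l w) ∧ ¬ cont w} with hI4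
  obtain ⟨K, hK⟩ : ∃ K : ℝ, K = ((#(II.image (key l)) : ℕ) : ℝ) := ⟨_, rfl⟩
  have hK0 : 0 ≤ K := by rw [hK]; exact Nat.cast_nonneg _
  rw [← hK]
  have hH : ∀ w ∈ II, w.2 ∈ H := fun w hw => (mem_product.1 (h1 hw)).2
  have hQ : ∀ w ∈ II, w.1 ∈ Q := fun w hw => (mem_product.1 (h1 hw)).1
  have hcore : ∀ w ∈ II, ∀ w' ∈ II, key l w' = key l w → core w'.2 = core w.2 :=
    fun w hw w' hw' he => hL.core_eq _ (hH _ hw') _ (hH _ hw) (congrArg Prod.snd he)
  have p2 : 0 ≤ K * σ / W := by positivity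
  have hsplit : (#II : ℝ) ≤ #I1 + #I2 + #I3 + #I4 := by
    have h5 : II ⊆ I1 ∪ I2 ∪ I3 ∪ I4 := by
      intro w hw
      simp only [mem_union]
      by_cases a1 : small (key l w)
      · exact Or.inl (Or.inl (Or.inl (mem_filter.2 ⟨hw, a1⟩)))
      by_cases a2 : deg (key l w)
      · exact Or.inl (Or.inl (Or.inr (mem_filter.2 ⟨hw, a2⟩)))
      by_cases a3 : cont w
      · exact Or.inl (Or.inr (mem_filter.2 ⟨hw, a2, a3⟩))
      · exact Or.inr (mem_filter.2 ⟨hw, a1, a2, a3⟩)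
    have h6 := card_le_card h5
    have h7 := card_union_le (I1 ∪ I2 ∪ I3) I4
    have h8 := card_union_le (I1 ∪ I2) I3
    have h9 := card_union_le I1 I2
    exact_mod_cast (by omega : #II ≤ #I1 + #I2 + #I3 + #I4)
  have b1 : (#I1 : ℝ) ≤ 2 * (D : ℝ) ^ j * (K * σ / W) := by
    have h5 : (#I1 : ℝ) ≤ K * (2 * γ * σ / W) := by
      rw [hK]
      refine card_le_fib (key l) I1 _ _ (by positivity)
        (fun w hw => mem_image_of_mem _ (mem_filter.1 hw).1) fun w hw => ?_
      refine le_trans ?_ (le_of_lt (mem_filter.1 hw).2)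
      norm_cast
      exact card_le_card (filter_subset_filter _ (filter_subset _ _))
    calc (#I1 : ℝ) ≤ K * (2 * γ * σ / W) := h5
      _ = 2 * γ * (K * σ / W) := by ring
      _ ≤ _ := by gcongr
  have b2 : (#I2 : ℝ) ≤ 2 * c1 * (#H * Z / σ + K * σ / W + #H * A') := by
    have h5 : ∀ p, ∃ U : Submodule ℝ (E d), Module.finrank ℝ U ≤ k ∧
        (deg p → #(fib p) ≤ 2 * #{w ∈ fib p | w.2 ∈ U}) := by
      intro p
      by_cases hp : deg p
      · obtain ⟨U, hU, hU'⟩ := hp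
        exact ⟨U, hU, fun _ => hU'⟩
      · exact ⟨⊥, by simp, fun h => absurd h hp⟩
    choose U hU hU' using h5
    set I2' := {w ∈ I2 | w.2 ∈ U (key l w)} with hI2'
    have hsub : I2' ⊆ II := (filter_subset _ _).trans (filter_subset _ _)
    have h6 : #I2 ≤ 2 * #I2' := by
      rw [card_eq_sum_card_fiberwise (f := key l) (s := I2) (t := I2.image (key l))
          (fun w hw => mem_coe.2 (mem_image_of_mem _ (mem_coe.1 hw))),
        card_eq_sum_card_fiberwise (f := key l) (s := I2') (t := I2.image (key l))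
          (fun w hw => mem_coe.2 (mem_image_of_mem _ (mem_filter.1 (mem_coe.1 hw)).1)), mul_sum]
      refine sum_le_sum fun p hp => ?_
      obtain ⟨w0, hw0, rfl⟩ := mem_image.1 hp
      have h7 := (mem_filter.1 hw0).2
      refine le_trans (card_le_card (filter_subset_filter _ (filter_subset _ _)))
        ((hU' _ h7).trans ?_)
      refine Nat.mul_le_mul_left _ (card_le_card fun w hw => ?_)
      obtain ⟨h8, h9⟩ := mem_filter.1 hw
      obtain ⟨h10, h11⟩ := mem_filter.1 h8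
      exact mem_filter.2 ⟨mem_filter.2 ⟨mem_filter.2 ⟨h10, h11 ▸ h7⟩, h11 ▸ h9⟩, h11⟩
    have h7 := P1 I2' (hsub.trans h1) (fun w hw => h2 w (hsub hw)) W Z hW hZ
      (fun p => ⟨U p, hU p, fun w hw he => he ▸ (mem_filter.1 hw).2⟩)
      (h4.mono hW hsub (Nat.le_succ k))
    have h8 : (#(I2'.image (key l)) : ℝ) ≤ K := by
      rw [hK]
      exact_mod_cast card_le_card (image_subset_image hsub)
    have h9 : (#I2 : ℝ) ≤ 2 * #I2' := by exact_mod_cast h6
    calc (#I2 : ℝ) ≤ 2 * (c1 * (#H * Z / σ + #(I2'.image (key l)) * σ / W + #H * A')) := by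
          linarith
      _ ≤ 2 * (c1 * (#H * Z / σ + K * σ / W + #H * A')) := by gcongr
      _ = _ := by ring
  have b3 : (#I3 : ℝ) ≤ #H * A' := by
    refine card_le_fib Prod.snd I3 H _ hA' (fun w hw => hH w (mem_filter.1 hw).1) fun w hw => ?_
    obtain ⟨h5, h6, -⟩ := mem_filter.1 hw
    have hw0 := ne_zero_of_dot (h2 w h5)
    obtain ⟨u, hu, hu'⟩ : ∃ u ∈ fib (key l w), u.2 ∉ Submodule.span ℝ {w.2} := by
      by_contra hc
      push Not at hc
      refine h6 ⟨Submodule.span ℝ {w.2}, ?_, ?_⟩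
      · rw [finrank_span_singleton hw0]
        exact hk
      · rw [filter_true_of_mem hc]
        omega
    obtain ⟨hu1, hu2⟩ := mem_filter.1 hu
    have hli : LinearIndependent ℝ ![u.2, w.2] := by
      rw [linearIndependent_fin2]
      refine ⟨hw0, fun r hr => hu' ?_⟩
      exact Submodule.mem_span_singleton.2 ⟨r, hr⟩
    refine le_trans ?_ (hh u.2 w.2 hli)
    norm_cast
    refine card_le_card_of_injOn Prod.fst ?_ ?_
    · intro w' hw'
      obtain ⟨h7, h8⟩ := mem_filter.1 (mem_coe.1 hw')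
      obtain ⟨h9, -, h10⟩ := mem_filter.1 h7
      refine mem_coe.2 (mem_filter.2 ⟨hQ _ h9, h10 _ ?_, ?_⟩)
      · rw [h8, ← hcore w h5 u hu1 hu2]
        exact hL.mem _ (hH _ hu1)
      · rw [← h8]
        exact h2 _ h9
    · intro w' hw' w'' hw'' he
      exact Prod.ext he ((mem_filter.1 (mem_coe.1 hw')).2.trans
        (mem_filter.1 (mem_coe.1 hw'')).2.symm)
  have b4 : (#I4 : ℝ) ≤ Λ * c2 * (#H * Z / σ + K * σ / W + #H * A') := by
    have hsub : I4 ⊆ II := filter_subset _ _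
    have hfull : ∀ w ∈ I4, ∀ w' ∈ II, key l w' = key l w → w' ∈ I4 := by
      intro w hw w' hw' he
      obtain ⟨h5, h6, h7, h8⟩ := mem_filter.1 hw
      refine mem_filter.2 ⟨hw', he ▸ h6, he ▸ h7, fun h9 => h8 fun x hx => ?_⟩
      have h10 : w'.1 = w.1 := key_fst he
      rw [← h10]
      exact h9 x (by rw [hcore w h5 w' hw' he]; exact hx)
    have hT : Tup Q l (k + 1) I4 (W / γ) (Z / γ ^ (k + 1)) := by
      refine extend hσ hs (hsub.trans h1) (by positivity) (by positivity) ?_ ?_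
      · intro w hw U hU
        obtain ⟨h5, h6, h7, -⟩ := mem_filter.1 hw
        have h8 : 2 * γ * σ / W ≤ #(fib (key l w)) := not_lt.1 h6
        have h9 : 2 * #{w' ∈ fib (key l w) | w'.2 ∈ U} < #(fib (key l w)) := by
          by_contra hc
          exact h7 ⟨U, by omega, not_lt.1 hc⟩
        have h10 := card_filter_add_card_filter_not (s := fib (key l w)) (fun w' => w'.2 ∈ U)
        have h11 : #{w' ∈ fib (key l w) | ¬ w'.2 ∈ U} ≤
            #{w' ∈ I4 | key l w' = key l w ∧ w'.2 ∉ U} := by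
          refine card_le_card fun w' hw' => ?_
          obtain ⟨h12, h13⟩ := mem_filter.1 hw'
          obtain ⟨h14, h15⟩ := mem_filter.1 h12
          exact mem_filter.2 ⟨hfull w hw w' h14 h15, h15, h13⟩
        have h12 : (#(fib (key l w)) : ℝ) ≤ 2 * #{w' ∈ I4 | key l w' = key l w ∧ w'.2 ∉ U} := by
          exact_mod_cast (by omega :
            #(fib (key l w)) ≤ 2 * #{w' ∈ I4 | key l w' = key l w ∧ w'.2 ∉ U})
        have e1 : σ / (W / γ) = 2 * γ * σ / W / 2 := by field_simp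
        rw [e1]
        linarith
      · intro T hT hl
        have h5 := (h4.mono hW hsub le_rfl) (k + 1) (by omega) le_rfl T hT hl
        rw [div_pow, ← mul_div_assoc]
        gcongr
    have hT' : Tup Q l' (k + 1) I4 (W / γ) (Z / γ ^ (k + 1)) := by
      intro m hm1 hm2 T hTi hl
      rcases eq_empty_or_nonempty ({q ∈ Q | ∀ t, (q, T t) ∈ I4}) with he | ⟨q, hq⟩
      · rw [he]
        simp only [card_empty, Nat.cast_zero, zero_mul]
        positivity
      · have h5 : ∀ t, T t ∈ H := fun t => hH _ (hsub ((mem_filter.1 hq).2 t))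
        exact hT m hm1 hm2 T hTi fun t t' => hL.ref _ (h5 t) _ (h5 t') (hl t t')
    have hR' : Rk l' (k + 1) I4 := by
      intro p
      by_cases hp : ∃ w ∈ I4, key l' w = p
      · obtain ⟨w0, hw0, rfl⟩ := hp
        obtain ⟨U, hU, hU'⟩ := h3 (key l w0)
        refine ⟨U, hU, fun w hw he => hU' w (hsub hw) ?_⟩
        exact Prod.ext (key_fst he :)
          (hL.ref _ (hH _ (hsub hw)) _ (hH _ (hsub hw0)) (congrArg Prod.snd he))
      · exact ⟨⊥, by simp, fun w hw he => absurd ⟨w, hw, he⟩ hp⟩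
    have hK' : #(I4.image (key l')) ≤ #(II.image (key l)) * (Λ * D ^ e) := by
      have h5 : I4.image (key l') ⊆ (II.image (key l)).biUnion
          fun p => ({w ∈ I4 | key l w = p}).image (key l') := by
        intro p' hp'
        obtain ⟨w, hw, rfl⟩ := mem_image.1 hp'
        exact mem_biUnion.2 ⟨key l w, mem_image_of_mem _ (hsub hw),
          mem_image_of_mem _ (mem_filter.2 ⟨hw, rfl⟩)⟩
      refine (card_le_card h5).trans (card_biUnion_le.trans ?_)
      rw [← smul_eq_mul]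
      refine sum_le_card_nsmul _ _ _ fun p _ => ?_
      rcases eq_empty_or_nonempty ({w ∈ I4 | key l w = p}) with he | ⟨w0, hw00⟩
      · rw [he]; simp
      obtain ⟨hw0, rfl⟩ := mem_filter.1 hw00
      set A := ({w ∈ I4 | key l w = key l w0}).image Prod.snd with hA
      have hAw : ∀ z ∈ A, ∃ w ∈ II, key l w = key l w0 ∧ w.2 = z := by
        intro z hz
        obtain ⟨w, hw, rfl⟩ := mem_image.1 hz
        exact ⟨w, hsub (mem_filter.1 hw).1, (mem_filter.1 hw).2, rfl⟩
      have hAH : A ⊆ H := fun z hz => by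
        obtain ⟨w, hw, -, rfl⟩ := hAw z hz
        exact hH w hw
      have hAz : ∀ z ∈ A, l z = l w0.2 ∧ z ⬝ᵥ w0.1 = 1 := fun z hz => by
        obtain ⟨w, hw, he, rfl⟩ := hAw z hz
        refine ⟨congrArg Prod.snd he, ?_⟩
        have h6 : w.1 = w0.1 := key_fst he
        rw [← h6]
        exact h2 w hw
      have h6 : ({w ∈ I4 | key l w = key l w0}).image (key l') ⊆
          (A.image l').image fun b' => (w0.1, b') := by
        intro p' hp'
        obtain ⟨w, hw, rfl⟩ := mem_image.1 hp'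
        refine mem_image.2 ⟨l' w.2, mem_image_of_mem _ (mem_image_of_mem _ hw), ?_⟩
        exact Prod.ext (key_fst (mem_filter.1 hw).2).symm rfl
      refine (card_le_card h6).trans (card_image_le.trans ?_)
      rcases hcase with rfl | rfl
      · obtain ⟨U, hU, hU'⟩ := h3 (key l w0)
        refine hL.dim e _ (isDim_span hU w0.1) (l w0.2) A hAH fun z hz =>
          ⟨(hAz z hz).1, ?_, (hAz z hz).2⟩
        obtain ⟨w, hw, he, rfl⟩ := hAw z hz
        exact hU' w hw he
      · refine hL.zero (lin w0.1) (deg_lin _) (hH _ (hsub hw0)) ?_ A hAH fun z hz =>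
          ⟨(hAz z hz).1, by rw [eval_lin, (hAz z hz).2, sub_self]⟩
        have h7 := (mem_filter.1 hw0).2.2.2
        by_contra hc
        push Not at hc
        refine h7 fun x hx => ?_
        have h8 := hc x hx
        rw [eval_lin] at h8
        linarith
    have h5 := P2 I4 (hsub.trans h1) (fun w hw => h2 w (hsub hw)) (W / γ) (Z / γ ^ (k + 1))
      (by positivity) (by positivity) hR' hT'
    have q1 : (#H : ℝ) * (Z / γ ^ (k + 1)) / (σ / (D : ℝ) ^ j) ≤ Λ * (#H * Z / σ) := by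
      have h6 : (D : ℝ) ^ j ≤ γ ^ (k + 1) := by
        rw [hγ, ← pow_mul]
        exact pow_le_pow_right₀ hD1 hjk
      have e1 : ∀ x : ℝ, x * (Z / γ ^ (k + 1)) / (σ / (D : ℝ) ^ j) =
          ((D : ℝ) ^ j / γ ^ (k + 1)) * (x * Z / σ) := fun x => by field_simp
      rw [e1]
      exact mul_le_mul_of_nonneg_right (((div_le_one (by positivity)).2 h6).trans hΛ1) p1
    have q2 : (#(I4.image (key l')) : ℝ) * (σ / (D : ℝ) ^ j) / (W / γ) ≤ Λ * (K * σ / W) := by
      have h6 : (#(I4.image (key l')) : ℝ) ≤ K * (Λ * (D : ℝ) ^ e) := by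
        rw [hK]
        exact_mod_cast hK'
      have e1 : Λ * (K * σ / W) = K * (Λ * (D : ℝ) ^ e) * (σ / (D : ℝ) ^ j) / (W / γ) := by
        rw [← heg, pow_add, hγ]
        field_simp
      rw [e1]
      gcongr
    have q3 : (#H : ℝ) * A' ≤ Λ * (#H * A') := le_mul_of_one_le_left p3 hΛ1
    calc (#I4 : ℝ) ≤ _ := h5
      _ ≤ c2 * (Λ * (#H * Z / σ) + Λ * (K * σ / W) + Λ * (#H * A')) := by gcongr
      _ = _ := by ring
  have hDj : (0 : ℝ) ≤ (D : ℝ) ^ j := by positivity
  have b1' : (#I1 : ℝ) ≤ 2 * (D : ℝ) ^ j * (#H * Z / σ + K * σ / W + #H * A') := by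
    refine b1.trans ?_
    gcongr
    linarith
  calc (#II : ℝ) ≤ #I1 + #I2 + #I3 + #I4 := hsplit
    _ ≤ 2 * (D : ℝ) ^ j * (#H * Z / σ + K * σ / W + #H * A') +
        2 * c1 * (#H * Z / σ + K * σ / W + #H * A') + (#H * Z / σ + K * σ / W + #H * A') +
        Λ * c2 * (#H * Z / σ + K * σ / W + #H * A') := by linarith
    _ = _ := by ring

end LemF

open LemF in
/-- Prove the level `i`, rank `k` statement of the paper for all `II ⊆ Q ×ˢ H`, `W`, `Z`;
the block of `(q, b)` is `{a ∈ H | (q, a) ∈ II ∧ l i a = b}`. -/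
theorem lemF {η : ℝ} {D Λ : ℕ → ℕ} {M n s : ℕ} {H : Finset (E d)} {j : ℕ → ℕ}
    {l : ℕ → E d → Lab d} {core : ℕ → E d → Set (E d)} (hp : Par d η D Λ M) (hM : 1 ≤ M)
    (h : PTree D Λ M n H s j l core) (hn : #H ≤ n) (Q : Finset (E d)) {A' W Z : ℝ} (hA' : 0 ≤ A')
    (hW : 0 < W) (hZ : 0 ≤ Z)
    (h2 : ∀ a b : E d, LinearIndependent ℝ ![a, b] →
      (#{q ∈ Q | a ⬝ᵥ q = 1 ∧ b ⬝ᵥ q = 1} : ℝ) ≤ A')
    (hm : ∀ m, 1 ≤ m → m ≤ d → ∀ T : Fin m → E d, LinearIndependent ℝ T →
      (#{q ∈ Q | ∀ i, T i ⬝ᵥ q = 1} : ℝ) * W ^ m ≤ Z) :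
    (#{w ∈ Q ×ˢ H | w.2 ⬝ᵥ w.1 = 1} : ℝ) ≤
      4 ^ (d + 1) * M * (∏ k ∈ range s, (Λ (j k) : ℝ) ^ 3) * (Z + #Q * n / W + n * A') := by
  have hM1 : (1 : ℝ) ≤ M := by exact_mod_cast hM
  have hpar := fun i (hi : i < s) => hp (j i) (h.pos i hi).1 (h.pos i hi).2
  have hB : ∀ i ≤ s, 0 < ∏ k ∈ range i, D (j k) ^ j k := fun i hi =>
    prod_pos fun k hk => pow_pos (by
      have := (hpar k (lt_of_lt_of_le (mem_range.1 hk) hi)).2.2.1
      omega) _
  have hn0 : 0 < n := lt_of_lt_of_le (hB s le_rfl) h.top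
  have hn0' : (0 : ℝ) < n := by exact_mod_cast hn0
  set σ : ℕ → ℝ := fun i => (n : ℝ) / ((∏ k ∈ range i, D (j k) ^ j k : ℕ) : ℝ) with hσ
  have hσ0 : ∀ i ≤ s, 0 < σ i := fun i hi => div_pos hn0' (by exact_mod_cast hB i hi)
  have hsz : ∀ i ≤ s, ∀ b, (#{z ∈ H | l i z = b} : ℝ) ≤ σ i := fun i hi b => by
    rw [hσ]
    simp only
    rw [le_div_iff₀ (by exact_mod_cast hB i hi)]
    exact_mod_cast h.size i hi b
  set Th : ℕ → ℝ := fun i => M * ∏ k ∈ Ico i s, (Λ (j k) : ℝ) ^ 3 with hTh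
  have hThM : ∀ i, (M : ℝ) ≤ Th i := fun i => by
    refine le_mul_of_one_le_right (by linarith) ?_
    refine Finset.one_le_prod fun k hk => one_le_pow₀ ?_
    have := (hpar k (mem_Ico.1 hk).2).1
    exact_mod_cast (by omega : 1 ≤ Λ (j k))
  have hc : ∀ i k, (M : ℝ) ≤ 4 ^ k * Th i := fun i k =>
    (hThM i).trans (le_mul_of_one_le_left (by linarith [hThM i]) (one_le_pow₀ (by norm_num)))
  have main : ∀ r i, i + r = s → ∀ k, St Q H A' (l i) (σ i) k (4 ^ k * Th i) := by
    intro r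
    induction r with
    | zero =>
      intro i hi k
      obtain rfl : i = s := by omega
      exact (base hA' (hσ0 i le_rfl) hM1 (Or.inl fun b => by exact_mod_cast h.bot b)).mono hA'
        (hσ0 i le_rfl) (hc i k)
    | succ r ih =>
      intro i hi k
      have his : i < s := by omega
      induction k with
      | zero =>
        exact (base hA' (hσ0 i his.le) hM1 (Or.inr (by omega))).mono hA' (hσ0 i his.le) (hc i _)
      | succ k ihk =>
        rcases Nat.eq_zero_or_pos k with rfl | hk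
        · exact (base hA' (hσ0 i his.le) hM1 (Or.inr (by omega))).mono hA' (hσ0 i his.le)
            (hc i _)
        obtain ⟨g1, -, g2, g3, -⟩ := hpar i his
        have P2 := ih (i + 1) (by omega) (k + 1)
        have e1 : σ (i + 1) = σ i / (D (j i) : ℝ) ^ j i := by
          simp only [hσ]
          rw [prod_range_succ]
          push_cast
          rw [div_div]
        rw [e1] at P2
        have hT1 := hThM (i + 1)
        have hT0 := hThM i
        refine (step hA' h2 (h.lvl i his) (h.pos i his).1 (by omega) (by omega) (hσ0 i his.le)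
          (hsz i his.le) hk (by have := hc i k; linarith) (by have := hc (i + 1) (k + 1); linarith)
          ihk P2).mono hA' (hσ0 i his.le) ?_
        have e2 : Th i = (Λ (j i) : ℝ) ^ 3 * Th (i + 1) := by
          simp only [hTh]
          rw [prod_eq_prod_Ico_succ_bot his]
          ring
        have g4 : (D (j i) : ℝ) ^ j i ≤ M := by
          have : D (j i) ^ j i ≤ M :=
            (Nat.pow_le_pow_right (by omega) (h.pos i his).2).trans g3
          exact_mod_cast this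
        have g5 : (4 : ℝ) ≤ Λ (j i) := by exact_mod_cast g1
        have g6 : (1 : ℝ) ≤ 4 ^ k := one_le_pow₀ (by norm_num)
        set x : ℝ := ((Λ (j i) : ℕ) : ℝ)
        set y : ℝ := 4 ^ k * Th (i + 1) with hy
        have g7 : (M : ℝ) ≤ y := hc (i + 1) k
        have e3 : (4 : ℝ) ^ k * Th i = x ^ 3 * y := by rw [e2, hy]; ring
        have e4 : (4 : ℝ) ^ (k + 1) * Th i = 4 * (x ^ 3 * y) := by rw [e2, hy]; ring
        have e5 : (4 : ℝ) ^ (k + 1) * Th (i + 1) = 4 * y := by rw [hy]; ring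
        rw [e3, e4, e5]
        have g8 : 4 * x + 3 ≤ 2 * x ^ 3 := by nlinarith [sq_nonneg x, mul_nonneg (sub_nonneg.2 g5) (sq_nonneg x)]
        have g9 : (4 * x + 3) * y ≤ 2 * x ^ 3 * y := by gcongr
        nlinarith
  set II := {w ∈ Q ×ˢ H | w.2 ⬝ᵥ w.1 = 1} with hII
  have h3 := main s 0 (by omega) d II (filter_subset _ _) (fun w hw => (mem_filter.1 hw).2) W Z hW hZ
    (fun p => ⟨⊤, by simp, fun _ _ _ => Submodule.mem_top⟩) (by
      intro m hm1 hm2 T hT _
      refine le_trans ?_ (hm m hm1 hm2 T hT)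
      gcongr with q hq t
      exact fun hq => (mem_filter.1 hq).2)
  have hK : #(II.image (key (l 0))) ≤ #Q := by
    refine card_le_card_of_injOn Prod.fst ?_ ?_
    · intro p hp'
      obtain ⟨w, hw, rfl⟩ := mem_image.1 (mem_coe.1 hp')
      exact mem_coe.2 (mem_product.1 (mem_filter.1 hw).1).1
    · intro p hp' p' hp'' he
      obtain ⟨w, hw, rfl⟩ := mem_image.1 (mem_coe.1 hp')
      obtain ⟨w', hw', rfl⟩ := mem_image.1 (mem_coe.1 hp'')
      exact Prod.ext he (h.root _ (mem_product.1 (mem_filter.1 hw).1).2 _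
        (mem_product.1 (mem_filter.1 hw').1).2)
  have e0 : σ 0 = n := by simp [hσ]
  have e1 : Th 0 = M * ∏ k ∈ range s, (Λ (j k) : ℝ) ^ 3 := by simp only [hTh, range_eq_Ico]
  rw [e0] at h3
  have hn' : (#H : ℝ) ≤ n := by exact_mod_cast hn
  have hK' : (#(II.image (key (l 0))) : ℝ) ≤ #Q := by exact_mod_cast hK
  have q1 : (#H : ℝ) * Z / n ≤ Z := by
    rw [div_le_iff₀ hn0', mul_comm]
    gcongr
  have hT0 : 0 ≤ Th 0 := by linarith [hThM 0]
  calc (#II : ℝ) ≤ _ := h3
    _ ≤ 4 ^ (d + 1) * Th 0 * (Z + #Q * n / W + n * A') := by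
      gcongr
      · norm_num
      · omega
    _ = _ := by rw [e1]; ring

end Pool.Agent.P.MP_5f07f1_co
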