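import Pool.Agent.P.MP_5f07f1_co.Build
import Pool.Agent.P.MP_5f07f1_co.LemF

/-! Task DUAL: the weighted bound (paper section 5, dual bound). -/

namespace Pool.Agent.P.MP_5f07f1_co

open Finset MvPolynomial Pool.Agent.Lib.PolyPart Classical

variable {d : ℕ}

/-- Double dyadic pigeonhole. -/
lemma dual_dyadic {α : Type} (T : Finset α) (mu r : α → ℕ) (a b : ℕ)
    (h : ∀ x ∈ T, mu x ≠ 0 ∧ mu x ≤ a ∧ r x ≠ 0 ∧ r x ≤ b) :
    ∃ H ⊆ T, ∃ mu0 k0 : ℕ, 1 ≤ mu0 ∧ (∀ x ∈ H, mu0 ≤ mu x ∧ k0 ≤ r x) ∧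
      ∑ x ∈ T, mu x * r x ≤ (Nat.log 2 a + 1) * (Nat.log 2 b + 1) * (4 * mu0 * k0 * #H) := by
  set f : α → ℕ × ℕ := fun x => (Nat.log 2 (mu x), Nat.log 2 (r x)) with hf
  set K := range (Nat.log 2 a + 1) ×ˢ range (Nat.log 2 b + 1) with hK
  have hmap : ∀ x ∈ T, f x ∈ K := fun x hx => by
    simp only [hK, hf, mem_product, mem_range, Nat.lt_succ_iff]
    exact ⟨Nat.log_mono_right (h x hx).2.1, Nat.log_mono_right (h x hx).2.2.2⟩
  obtain ⟨c, -, hc⟩ := exists_max_image K (fun c => ∑ x ∈ T with f x = c, mu x * r x)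
    ⟨(0, 0), by simp [hK]⟩
  refine ⟨{x ∈ T | f x = c}, filter_subset _ _, 2 ^ c.1, 2 ^ c.2, Nat.one_le_two_pow, ?_, ?_⟩
  · intro x hx
    obtain ⟨hx', rfl⟩ := mem_filter.1 hx
    exact ⟨Nat.pow_log_le_self 2 (h x hx').1, Nat.pow_log_le_self 2 (h x hx').2.2.1⟩
  · rw [← sum_fiberwise_of_maps_to hmap]
    refine (sum_le_card_nsmul _ _ _ hc).trans ?_
    rw [hK, card_product, card_range, card_range, smul_eq_mul]
    refine Nat.mul_le_mul_left _ ((sum_le_card_nsmul _ _ (4 * 2 ^ c.1 * 2 ^ c.2) ?_).trans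
      (by rw [smul_eq_mul, mul_comm]))
    intro x hx
    obtain ⟨-, rfl⟩ := mem_filter.1 hx
    have h1 := Nat.lt_pow_succ_log_self (b := 2) (by norm_num) (mu x)
    have h2 := Nat.lt_pow_succ_log_self (b := 2) (by norm_num) (r x)
    calc mu x * r x ≤ 2 ^ (Nat.log 2 (mu x)).succ * 2 ^ (Nat.log 2 (r x)).succ :=
          Nat.mul_le_mul h1.le h2.le
      _ = _ := by simp only [hf, Nat.succ_eq_add_one, pow_succ]; ring

lemma dual_log {ε : ℝ} (hε : 0 < ε) : ∃ c : ℝ, 0 ≤ c ∧ ∀ (m : ℕ) (x : ℝ), 1 ≤ x → (m : ℝ) ≤ x →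
    ((Nat.log 2 m + 1 : ℕ) : ℝ) ≤ c * x ^ ε := by
  have l2 : 0 < Real.log 2 := Real.log_pos (by norm_num)
  refine ⟨1 / (ε * Real.log 2) + 1, by positivity, fun m x hx hm => ?_⟩
  have h1 : (2 : ℝ) ^ Nat.log 2 m ≤ x := by
    rcases eq_or_ne m 0 with rfl | h0
    · simpa using hx
    · exact le_trans (by exact_mod_cast Nat.pow_log_le_self 2 h0) hm
  have h2 := Real.log_le_log (by positivity) h1
  rw [Real.log_pow] at h2
  have h3 := Real.log_le_rpow_div (x := x) (by linarith) hε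
  have h4 : 1 ≤ x ^ ε := Real.one_le_rpow hx hε.le
  have h5 : (Nat.log 2 m : ℝ) ≤ 1 / (ε * Real.log 2) * x ^ ε := by
    rw [one_div, ← div_eq_inv_mul, ← div_div, le_div_iff₀ l2]
    linarith
  push_cast
  linarith

lemma dual_prod {η : ℝ} (hη : 0 < η) {D Λ : ℕ → ℕ} {M n s : ℕ} {H : Finset (E d)} {j : ℕ → ℕ}
    {l : ℕ → E d → Lab d} {core : ℕ → E d → Set (E d)} (hp : Par d η D Λ M)
    (h : PTree D Λ M n H s j l core) :
    4 ^ s * ∏ k ∈ range s, (Λ (j k) : ℝ) ^ 3 ≤ (n : ℝ) ^ (4 * η) := by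
  have h1 : (4 : ℝ) ^ s * ∏ k ∈ range s, (Λ (j k) : ℝ) ^ 3 =
      ∏ k ∈ range s, 4 * (Λ (j k) : ℝ) ^ 3 := by
    rw [prod_mul_distrib, prod_const, card_range]
  have h2 : ((∏ k ∈ range s, D (j k) ^ j k : ℕ) : ℝ) ≤ n := by exact_mod_cast h.top
  refine h1.le.trans (le_trans ?_ (Real.rpow_le_rpow (by positivity) h2 (by positivity)))
  push_cast
  rw [← Real.finsetProd_rpow _ _ (fun _ _ => by positivity)]
  refine prod_le_prod (fun _ _ => by positivity) fun k hk => ?_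
  obtain ⟨j1, j2⟩ := h.pos k (mem_range.1 hk)
  obtain ⟨a1, a2, a3, -⟩ := hp (j k) j1 j2
  have b1 : (4 : ℝ) ≤ Λ (j k) := by exact_mod_cast a1
  have b2 : (1 : ℝ) ≤ D (j k) := by exact_mod_cast (by omega : 1 ≤ D (j k))
  calc 4 * (Λ (j k) : ℝ) ^ 3 ≤ Λ (j k) * (Λ (j k) : ℝ) ^ 3 := by gcongr
    _ = (Λ (j k) : ℝ) ^ 4 := by ring
    _ ≤ ((D (j k) : ℝ) ^ η) ^ 4 := by gcongr
    _ = (D (j k) : ℝ) ^ (4 * η) := by
        rw [← Real.rpow_natCast, ← Real.rpow_mul (by positivity), mul_comm]; norm_num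
    _ ≤ ((D (j k) : ℝ) ^ j k) ^ (4 * η) :=
        Real.rpow_le_rpow (by positivity) (le_self_pow₀ b2 (by omega)) (by positivity)

lemma dual_inc {α : Type} (Q : Finset (E d)) (S : Finset α) (g : α → E d) :
    #{w ∈ Q ×ˢ S | g w.2 ⬝ᵥ w.1 = 1} = ∑ p ∈ S, #{q ∈ Q | g p ⬝ᵥ q = 1} := by
  simp only [card_filter]
  rw [sum_product_right]

lemma dual_final {X Z mu N q PP EE A' : ℝ} {A : ℕ → ℝ} (hX : 0 < X) (hmu : 0 < mu) (hN : 0 < N)
    (hq : 0 < q) (hA : ∀ m, 0 ≤ A m) (hA' : 0 ≤ A') (h1 : N * mu ≤ PP) (h2 : N * mu ^ 2 ≤ EE)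
    (h3 : 4 * PP * A' ≤ X) (hZ : Z = ∑ m ∈ Icc 1 d, A m * (4 * q * N * mu / X) ^ m)
    (h4 : X ≤ mu * (Z + q * N / (4 * q * N * mu / X) + N * A')) :
    X ^ 2 ≤ 8 * q * EE * ∑ m ∈ Icc 1 d, A m * (4 * q * PP / X) ^ (m - 1) := by
  have e1 : mu * (q * N / (4 * q * N * mu / X)) = X / 4 := by field_simp
  have e2 : N * mu * A' ≤ PP * A' := by gcongr
  have e3 : X ≤ 2 * (mu * Z) := by
    rw [mul_add, mul_add, e1] at h4
    linarith
  have hEE : 0 ≤ EE := le_trans (by positivity) h2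
  calc X ^ 2 ≤ X * (2 * (mu * Z)) := by rw [sq]; gcongr
    _ = ∑ m ∈ Icc 1 d, 2 * X * mu * (A m * (4 * q * N * mu / X) ^ m) := by
        rw [hZ, ← mul_sum]; ring
    _ ≤ _ := by
        rw [mul_sum]
        refine sum_le_sum fun m hm => ?_
        obtain ⟨k, rfl⟩ : ∃ k, m = k + 1 := ⟨m - 1, by have := (mem_Icc.1 hm).1; omega⟩
        have e4 : (4 * q * N * mu / X) ^ k ≤ (4 * q * PP / X) ^ k := by
          gcongr ?_ ^ k
          rw [mul_assoc (4 * q)]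
          gcongr
        have := hA (k + 1)
        calc 2 * X * mu * (A (k + 1) * (4 * q * N * mu / X) ^ (k + 1))
            = 8 * q * (N * mu ^ 2) * (A (k + 1) * (4 * q * N * mu / X) ^ k) := by
              rw [pow_succ]; field_simp; ring
          _ ≤ _ := by rw [Nat.add_sub_cancel]; gcongr

lemma dual_key {X K1 K2 mu k0 N N' C0 F G M P Y c a b e : ℝ} (hK2 : 0 ≤ K2)
    (hk : 0 ≤ k0) (hmu : 0 < mu) (hN : 0 < N) (hC : 0 ≤ C0) (hM : 0 ≤ M) (hF : 0 ≤ F) (hG : 0 ≤ G)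
    (hK1 : 0 ≤ K1) (hY : 0 ≤ Y) (he : 0 < e)
    (h1 : X * ((1 + c ^ 2 * 4 * C0 * G * M) * e) ≤ K1 * K2 * (4 * mu * k0 * N))
    (p1 : K1 ≤ c * a) (p2 : K2 ≤ c * a) (h2 : N ≤ C0 * F * N') (h3 : N' * k0 ≤ G * M * P * Y)
    (p3 : F * P ≤ b) (p4 : a * a * b = e) : X ≤ mu * Y := by
  have ha : 0 ≤ c * a := hK1.trans p1
  have haa : 0 ≤ a * a := mul_self_nonneg a
  refine le_of_mul_le_mul_right (a := (1 + c ^ 2 * 4 * C0 * G * M) * e) ?_ (by positivity)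
  calc _ ≤ _ := h1
    _ ≤ (c * a) * (c * a) * (4 * mu * k0 * (C0 * F * N')) := by gcongr
    _ = (c * a) * (c * a) * (4 * mu * C0 * F) * (N' * k0) := by ring
    _ ≤ (c * a) * (c * a) * (4 * mu * C0 * F) * (G * M * P * Y) := by gcongr
    _ = mu * Y * (c ^ 2 * 4 * C0 * G * M) * (a * a) * (F * P) := by ring
    _ ≤ mu * Y * (c ^ 2 * 4 * C0 * G * M) * (a * a) * b := by gcongr
    _ = mu * Y * ((c ^ 2 * 4 * C0 * G * M) * e) := by rw [← p4]; ring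
    _ ≤ _ := by gcongr; linarith

lemma dual_rpow {n η : ℝ} (hn : 1 ≤ n) :
    (n ^ 2) ^ (η / 8) * (n ^ 2) ^ (η / 8) * (n ^ 2) ^ (4 * (η / 16)) = n ^ η := by
  rw [← Real.rpow_add (by positivity), ← Real.rpow_add (by positivity), ← Real.rpow_natCast,
    ← Real.rpow_mul (by linarith)]
  congr 1
  push_cast
  ring

theorem dual_bound (d : ℕ) {η : ℝ} (hη : 0 < η) : ∃ C : ℝ, 1 ≤ C ∧
    ∀ (S : Finset (E d × E d)) (Q : Finset (E d)) (A : ℕ → ℝ) (A' X PP EE n : ℝ),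
      (∀ m, 1 ≤ m → m ≤ d → FlatBd Q m (A m)) → (∀ m, 0 ≤ A m) → FlatBd Q 2 A' → 0 ≤ A' →
      (#S : ℝ) ≤ PP → (#{w ∈ S ×ˢ S | dual w.1 = dual w.2} : ℝ) ≤ EE → 1 ≤ n → (#S : ℝ) ≤ n ^ 2 →
      (#Q : ℝ) ≤ n → 0 < X → X * (C * n ^ η) ≤ #{w ∈ Q ×ˢ S | dual w.2 ⬝ᵥ w.1 = 1} →
      4 * PP * A' ≤ X →
      X ^ 2 ≤ 8 * #Q * EE * ∑ m ∈ Icc 1 d, A m * (4 * #Q * PP / X) ^ (m - 1) := by
  obtain ⟨D, Λ, M, C0, hp, hM, htree⟩ := exists_ptree d (η := η / 16) (by positivity)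
  obtain ⟨c, hc0, hc⟩ := dual_log (ε := η / 8) (by positivity)
  refine ⟨1 + c ^ 2 * 4 * C0 * 4 ^ (d + 1) * M, le_add_of_nonneg_right (by positivity), ?_⟩
  have hη16 : 0 < η / 16 := by positivity
  have hη4 : 0 ≤ 4 * (η / 16) := by positivity
  have hC1 : 0 < 1 + c ^ 2 * 4 * C0 * 4 ^ (d + 1) * M := by positivity
  intro S Q A A' X PP EE n hA hA0 hA' hA'0 hPP hEE hn hS hQ hX hI h4
  have hnη : 0 < n ^ η := Real.rpow_pos_of_pos (one_pos.trans_le hn) _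
  have hCpos := mul_pos hX (mul_pos hC1 hnη)
  set mu : E d → ℕ := fun h => #{p ∈ S | dual p = h} with hmu
  set r : E d → ℕ := fun h => #{q ∈ Q | h ⬝ᵥ q = 1} with hr
  set T := {h ∈ S.image dual | r h ≠ 0} with hT
  have hI1 : #{w ∈ Q ×ˢ S | dual w.2 ⬝ᵥ w.1 = 1} = ∑ h ∈ T, mu h * r h := by
    rw [dual_inc, sum_comp r dual, hT, sum_filter_of_ne]
    · rfl
    · intro x _ hx h0
      simp [h0] at hx
  obtain ⟨H, hHT, mu0, k0, hmu0, hH, hsum⟩ := dual_dyadic T mu r #S #Q (fun x hx => by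
    obtain ⟨hx, hx0⟩ := mem_filter.1 hx
    obtain ⟨p, hp, rfl⟩ := mem_image.1 hx
    exact ⟨card_ne_zero.2 ⟨p, mem_filter.2 ⟨hp, rfl⟩⟩, card_filter_le _ _, hx0,
      card_filter_le _ _⟩)
  have hHS : H ⊆ S.image dual := hHT.trans (filter_subset _ _)
  rw [hI1] at hI
  have hHne : H.Nonempty := by
    rw [nonempty_iff_ne_empty]
    rintro rfl
    have : ∑ h ∈ T, mu h * r h = 0 := by simpa using hsum
    rw [this] at hI
    simp only [Nat.cast_zero] at hI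
    linarith
  have hQ0 : (0 : ℝ) < #Q := by
    obtain ⟨x, hx⟩ := hHne
    have h1 : r x ≠ 0 := (mem_filter.1 (hHT hx)).2
    have h2 : r x ≤ #Q := card_filter_le _ _
    exact_mod_cast (by omega : 0 < #Q)
  have hN0 : (0 : ℝ) < #H := by exact_mod_cast card_pos.2 hHne
  have hm0 : (0 : ℝ) < mu0 := by exact_mod_cast hmu0
  have g1 : #H * mu0 ≤ #S := by
    rw [card_eq_sum_card_image dual S]
    exact le_trans (card_nsmul_le_sum H mu mu0 fun x hx => (hH x hx).1)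
      (sum_le_sum_of_subset hHS)
  have g2 : #H * mu0 ^ 2 ≤ #{w ∈ S ×ˢ S | dual w.1 = dual w.2} := by
    have e : #{w ∈ S ×ˢ S | dual w.1 = dual w.2} = ∑ p ∈ S, mu (dual p) := by
      simp only [hmu, card_filter]
      rw [sum_product_right]
    rw [e, sum_comp mu dual]
    refine le_trans (card_nsmul_le_sum H (fun h => mu h * mu h) _ fun x hx => ?_)
      (sum_le_sum_of_subset hHS)
    rw [sq]
    exact Nat.mul_le_mul (hH x hx).1 (hH x hx).1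
  have g1' : (#H : ℝ) * mu0 ≤ #S := by exact_mod_cast g1
  have g2' : (#H : ℝ) * (mu0 : ℝ) ^ 2 ≤ EE := le_trans (by exact_mod_cast g2) hEE
  obtain ⟨H', hH', s, j, l, core, ht, hcard⟩ := htree H hHne
  set W : ℝ := 4 * #Q * #H * mu0 / X with hW
  have hW0 : 0 < W := div_pos (mul_pos (mul_pos (mul_pos four_pos hQ0) hN0) hm0) hX
  set Z : ℝ := ∑ m ∈ Icc 1 d, A m * W ^ m with hZ
  have hZ0 : 0 ≤ Z := sum_nonneg fun m _ => mul_nonneg (hA0 m) (pow_pos hW0 m).le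
  have hF := lemF hp hM ht (card_le_card hH') Q hA'0 hW0 hZ0
    (fun a b hab => by
      have := hA' ![(a, 1), (b, 1)] (LinearIndependent.of_comp (LinearMap.fst ℝ (E d) ℝ) (by
        convert hab using 1
        funext i; fin_cases i <;> rfl))
      simpa [Fin.forall_fin_two] using this)
    (fun m h1 h2 T hT => by
      have := hA m h1 h2 (fun i => (T i, 1))
        (LinearIndependent.of_comp (LinearMap.fst ℝ (E d) ℝ) hT)
      refine le_trans (mul_le_mul_of_nonneg_right this (pow_pos hW0 m).le) ?_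
      exact single_le_sum (f := fun m => A m * W ^ m)
        (fun m _ => mul_nonneg (hA0 m) (pow_pos hW0 m).le) (mem_Icc.2 ⟨h1, h2⟩))
  have g3 : #H' * k0 ≤ #{w ∈ Q ×ˢ H' | w.2 ⬝ᵥ w.1 = 1} := by
    rw [dual_inc Q H' fun h => h]
    exact card_nsmul_le_sum H' r k0 fun x hx => (hH x (hH' hx)).2
  have g3' : (#H' : ℝ) * k0 ≤ _ := le_trans (by exact_mod_cast g3) hF
  have hn2 : n ≤ n ^ 2 := le_self_pow₀ hn (by norm_num)
  have hHn : (#H : ℝ) ≤ n ^ 2 := by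
    have : (1 : ℝ) ≤ mu0 := by exact_mod_cast hmu0
    exact (le_mul_of_one_le_right hN0.le this).trans (g1'.trans hS)
  have p1 := hc #S (n ^ 2) (hn.trans hn2) hS
  have p2 := hc #Q (n ^ 2) (hn.trans hn2) (hQ.trans hn2)
  have p3 := (dual_prod hη16 hp ht).trans (Real.rpow_le_rpow hN0.le hHn hη4)
  have p4 := dual_rpow (η := η) hn
  exact dual_final hX hm0 hN0 hQ0 hA0 hA'0 (g1'.trans hPP) g2' h4 hZ
    (dual_key (K1 := (Nat.log 2 #S + 1 : ℕ)) (K2 := (Nat.log 2 #Q + 1 : ℕ)) (k0 := k0)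
      (N' := #H') (Nat.cast_nonneg _) (Nat.cast_nonneg _) hm0 hN0 (Nat.cast_nonneg _)
      (Nat.cast_nonneg _) (pow_nonneg (by norm_num) _) (pow_nonneg (by norm_num) _)
      (Nat.cast_nonneg _) (add_nonneg (add_nonneg hZ0 (div_nonneg (mul_nonneg hQ0.le hN0.le) hW0.le))
        (mul_nonneg hN0.le hA'0)) hnη (hI.trans (by exact_mod_cast hsum)) p1 p2
      (by exact_mod_cast hcard) g3' p3 p4)

end Pool.Agent.P.MP_5f07f1_co
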