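import Pool.Agent.P.MP_5f07f1_co.Dom

/-! Task ENS: the energy recursion (paper section 3). -/

namespace Pool.Agent.P.MP_5f07f1_co

open Finset MvPolynomial Pool.Agent.Lib.PolyPart Classical

variable {d : ℕ}

lemma ens_fib {α τ : Type*} [DecidableEq τ] (k : α → τ) (X Y : Finset α) (c : ℕ)
    (h : ∀ x ∈ X, ∀ A ⊆ X, (∀ a ∈ A, k a = k x) →
      ∃ B ⊆ Y, (∀ b ∈ B, k b = k x) ∧ #A ≤ c * #B) : #X ≤ c * #Y := by
  rw [card_eq_sum_card_fiberwise (f := k) (t := X.image k) fun x hx => mem_image_of_mem k hx]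
  calc ∑ t ∈ X.image k, #{a ∈ X | k a = t} ≤ ∑ t ∈ X.image k, c * #{a ∈ Y | k a = t} := by
        refine sum_le_sum fun t ht => ?_
        obtain ⟨x, hx, rfl⟩ := mem_image.1 ht
        obtain ⟨B, hB, hk, hc⟩ := h x hx _ (filter_subset _ X) fun a ha => (mem_filter.1 ha).2
        exact hc.trans (Nat.mul_le_mul_left c (card_le_card fun b hb =>
          mem_filter.2 ⟨hB hb, hk b hb⟩))
    _ = c * #{a ∈ Y | k a ∈ X.image k} := by rw [← mul_sum, sum_card_fiberwise_eq_card_filter]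
    _ ≤ c * #Y := Nat.mul_le_mul_left c (card_filter_le _ _)

lemma ens_cs {α γ : Type*} [DecidableEq γ] (K : Finset α) (g : α → γ) (Y : Finset (α × α))
    (hY : ∀ a ∈ K, ∀ a' ∈ K, g a = g a' → (a, a') ∈ Y) : #K ^ 2 ≤ #(K.image g) * #Y := by
  rw [card_eq_sum_card_fiberwise (f := g) (t := K.image g) fun x hx => mem_image_of_mem g hx]
  refine sq_sum_le_card_mul_sum_sq.trans (Nat.mul_le_mul_left _ ?_)
  calc ∑ t ∈ K.image g, #{a ∈ K | g a = t} ^ 2 ≤ ∑ t ∈ K.image g, #{p ∈ Y | g p.1 = t} := by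
        refine sum_le_sum fun t _ => ?_
        rw [sq, ← card_product]
        refine card_le_card fun p hp => ?_
        simp only [mem_product, mem_filter] at hp ⊢
        exact ⟨hY _ hp.1.1 _ hp.2.1 (hp.1.2.trans hp.2.2.symm), hp.1.2⟩
    _ = #{p ∈ Y | g p.1 ∈ K.image g} := sum_card_fiberwise_eq_card_filter _ _ _
    _ ≤ #Y := card_filter_le _ _

lemma ens_pair {α γ : Type*} (K : Finset α) (r : α → γ) (X : Finset (α × α)) (M : ℝ)
    (hX : ∀ p ∈ X, p.1 ∈ K ∧ p.2 ∈ K ∧ r p.1 = r p.2)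
    (hK : ∀ z ∈ K, ∀ A ⊆ K, (∀ a ∈ A, r a = r z) → (#A : ℝ) ≤ M) : (#X : ℝ) ≤ #K * M := by
  rw [card_eq_sum_card_fiberwise (f := Prod.fst) (t := K) fun p hp => (hX p hp).1, Nat.cast_sum,
    ← nsmul_eq_mul]
  refine sum_le_card_nsmul _ _ _ fun z hz => ?_
  rw [← card_image_of_injOn (f := Prod.snd) (s := {p ∈ X | p.1 = z}) fun p hp q hq e =>
    Prod.ext ((mem_filter.1 hp).2.trans (mem_filter.1 hq).2.symm) e]
  refine hK z hz _ (fun a ha => ?_) fun a ha => ?_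
  · obtain ⟨p, hp, rfl⟩ := mem_image.1 ha
    exact (hX p (mem_filter.1 hp).1).2.1
  · obtain ⟨p, hp, rfl⟩ := mem_image.1 ha
    rw [← (hX p (mem_filter.1 hp).1).2.2, (mem_filter.1 hp).2]

lemma ens_nq_eq_zero {v : E d} (h : nq v = 0) : v = 0 := dotProduct_self_eq_zero.1 h

section

variable {Q : Finset (E d)} {l l' : E d → Lab d} {own : E d → Submodule ℝ (LL d)}

lemma ens_mem_prs {p : E d × E d} :
    p ∈ prs Q l own ↔ (p.1 ∈ Q ∧ p.2 ∈ Q) ∧ l p.1 = l p.2 ∧ own p.1 ≠ own p.2 := by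
  simp only [prs, mem_filter, mem_product]

lemma ens_mem_quads {w : (E d × E d) × (E d × E d)} : w ∈ quads Q l own ↔
    (w.1 ∈ prs Q l own ∧ w.2 ∈ prs Q l own) ∧ l w.1.1 = l w.2.1 ∧ dual w.1 = dual w.2 := by
  simp only [quads, mem_filter, mem_product]

lemma ens_mem_clq {b : Lab d} {T : ℝ × E d × ℝ} {z : E d} : z ∈ clq Q l b T ↔
    z ∈ Q ∧ l z = b ∧ T.1 • z + T.2.1 ∈ Q ∧ l (T.1 • z + T.2.1) = b ∧
      nq (T.1 • z + T.2.1) = T.1 * nq z + T.2.2 ∧ T.1 • z + T.2.1 ≠ z := by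
  simp only [clq, mem_filter]

lemma ens_ne {p : E d × E d} (hp : p ∈ prs Q l own) : p.1 ≠ p.2 := fun e =>
  (ens_mem_prs.1 hp).2.2 (by rw [e])

lemma ens_nq_ne (hQ : Set.InjOn nq (Q : Set (E d))) {p : E d × E d} (hp : p ∈ prs Q l own) :
    nq p.1 ≠ nq p.2 := fun e =>
  ens_ne hp (hQ (ens_mem_prs.1 hp).1.1 (ens_mem_prs.1 hp).1.2 e)

/-- a family of quadruples that is determined by the first pair -/
lemma ens_inj {σ : ℝ} (hσ : Size Q l σ) (X : Finset ((E d × E d) × (E d × E d)))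
    (hX : X ⊆ quads Q l own) (hi : ∀ w ∈ X, ∀ w' ∈ X, w.1 = w'.1 → w.2 = w'.2) :
    (#X : ℝ) ≤ #Q * σ := by
  have h1 : #X ≤ #(prs Q l own) := card_le_card_of_injOn Prod.fst
    (fun w hw => (ens_mem_quads.1 (hX hw)).1.1) fun w hw w' hw' e => Prod.ext e (hi w hw w' hw' e)
  refine le_trans (Nat.cast_le.2 h1) (ens_pair Q l _ σ (fun p hp => ?_) fun z _ A hA hz => ?_)
  · obtain ⟨⟨h2, h3⟩, h4, -⟩ := ens_mem_prs.1 hp
    exact ⟨h2, h3, h4⟩
  · exact le_trans (Nat.cast_le.2 (card_le_card fun a ha => mem_filter.2 ⟨hA ha, hz a ha⟩))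
      (hσ (l z))

lemma ens_triv (hQ : Set.InjOn nq (Q : Set (E d))) {w : (E d × E d) × (E d × E d)}
    (hw : w ∈ quads Q l own) (e : w.2.1 = w.1.1) : w.2 = w.1 := by
  obtain ⟨⟨x, y⟩, ⟨x', y'⟩⟩ := w
  obtain ⟨⟨h1, h2⟩, -, h3⟩ := ens_mem_quads.1 hw
  obtain rfl : x' = x := e
  have h4 := (dual_eq (ens_nq_ne hQ h1) (ens_nq_ne hQ h2) h3).2.1
  have h5 : nq (y - x') ≠ 0 := fun h0 => ens_ne h1 (sub_eq_zero.1 (ens_nq_eq_zero h0)).symm
  have h6 : lamOf x' x' y = 1 := by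
    rw [lamOf, div_eq_one_iff_eq h5]
    simp only [nq, dotProduct_sub, sub_dotProduct, dotProduct_comm y x']
    ring
  simp only at h4
  rw [h4, h6, one_smul, add_sub_cancel]

/-- the quadric of the homothety of `w` contains the core -/
def EnsBad (core : E d → Set (E d)) (w : (E d × E d) × (E d × E d)) : Prop :=
  ∀ u ∈ core w.1.1, nq ((homOf w).1 • u + (homOf w).2.1) = (homOf w).1 * nq u + (homOf w).2.2

lemma ens_bad (hQ : Set.InjOn nq (Q : Set (E d))) {j D Λ : ℕ} {core : E d → Set (E d)}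
    (h : Lvl j D Λ Q l l' core) {w : (E d × E d) × (E d × E d)} (hw : w ∈ quads Q l own)
    (hne : w.2.1 ≠ w.1.1) (hb : EnsBad core w) : w.2.2 = w.1.1 + w.2.1 - w.1.2 ∧
      ∀ u ∈ Q, l u = l w.1.1 → (u - w.1.1) ⬝ᵥ (u - w.2.1) = 0 := by
  obtain ⟨h0, -, h2, -, -⟩ := mem_clq hQ hw hne
  obtain ⟨⟨hp1, hp2⟩, hl, -⟩ := ens_mem_quads.1 hw
  have hx := (ens_mem_prs.1 hp1).1.1
  have hb' : ∀ u ∈ Q, l u = l w.1.1 →
      nq ((homOf w).1 • u + (homOf w).2.1) = (homOf w).1 * nq u + (homOf w).2.2 := fun u hu e =>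
    hb u (h.core_eq u hu _ hx e ▸ h.mem u hu)
  have h3 := hb' _ (ens_mem_prs.1 hp2).1.1 hl.symm
  obtain ⟨⟨x, y⟩, ⟨x', y'⟩⟩ := w
  simp only [homOf] at *
  generalize lamOf x x' y = lam at *
  have h5 : nq (x' - x) ≠ 0 := fun h0 => hne (sub_eq_zero.1 (ens_nq_eq_zero h0))
  have h6 : lam * (lam + 1) * nq (x' - x) = 0 := by
    simp only [nq, dotProduct_sub, sub_dotProduct, dotProduct_add, add_dotProduct, smul_dotProduct,
      dotProduct_smul, smul_eq_mul, dotProduct_comm x' x] at h3 ⊢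
    linear_combination h3
  have h7 : lam = -1 := by
    rcases mul_eq_zero.1 h6 with h8 | h8
    · rcases mul_eq_zero.1 h8 with h9 | h9
      · exact absurd h9 h0
      · linarith
    · exact absurd h8 h5
  subst h7
  refine ⟨by rw [← h2]; module, fun u hu e => ?_⟩
  have h8 := hb' u hu e
  simp only [nq, dotProduct_sub, sub_dotProduct, dotProduct_add, add_dotProduct, smul_dotProduct,
    dotProduct_smul, smul_eq_mul, dotProduct_comm x' x, dotProduct_comm x u,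
    dotProduct_comm x' u] at h8 ⊢
  linear_combination (1 / 2) * h8

/-- a clique that is neither dominated nor bad has many good close pairs -/
lemma ens_clq {j D Λ : ℕ} {core : E d → Set (E d)} (h : Lvl j D Λ Q l l' core) {N : ℕ}
    (hN : N = Λ * D ^ (j - 1)) (hN1 : 1 ≤ N) {x : E d} (hx : x ∈ Q) {T : ℝ × E d × ℝ}
    (hb : ∃ u ∈ core x, nq (T.1 • u + T.2.1) ≠ T.1 * nq u + T.2.2)
    (hd : ¬ Dom Q l own (8 * N) (l x) T) :
    ∃ G : Finset (E d × E d), (∀ p ∈ G, p.1 ∈ clq Q l (l x) T ∧ p.2 ∈ clq Q l (l x) T ∧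
      p ∈ prs Q l' own ∧ (T.1 • p.1 + T.2.1, T.1 • p.2 + T.2.1) ∈ prs Q l' own) ∧
      #(clq Q l (l x) T) ^ 2 ≤ 2 * N * #G := by
  set K := clq Q l (l x) T with hK
  obtain ⟨θ, hθ⟩ := exists_hom T.1 T.2.1
  obtain ⟨φ, hφ, hev⟩ := exists_quad (T.1 ^ 2 - T.1) ((2 * T.1) • T.2.1) (nq T.2.1 - T.2.2)
  have hev' : ∀ z, eval z φ = nq (T.1 • z + T.2.1) - (T.1 * nq z + T.2.2) := by
    intro z
    rw [hev]
    simp only [nq, dotProduct_add, add_dotProduct, smul_dotProduct, dotProduct_smul, smul_eq_mul,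
      dotProduct_comm z T.2.1]
    ring
  have hcl : #(K.image fun z => (l' z, l' (θ.app z))) ≤ N := by
    rw [hN]
    refine h.joint0 θ φ hφ x hx ?_ (l x) K (filter_subset _ _) fun z hz => ?_
    · obtain ⟨u, hu, hu'⟩ := hb
      exact ⟨u, hu, by rw [hev']; exact sub_ne_zero.2 hu'⟩
    · obtain ⟨-, h1, h2, h3, h4, -⟩ := ens_mem_clq.1 hz
      rw [(hθ z).2, hev', h4, sub_self]
      exact ⟨h1, rfl, (hθ z).1, h2, h3⟩
  let G : Finset (E d × E d) := {p ∈ K ×ˢ K | p ∈ prs Q l' own ∧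
    (T.1 • p.1 + T.2.1, T.1 • p.2 + T.2.1) ∈ prs Q l' own}
  let X1 : Finset (E d × E d) := {p ∈ K ×ˢ K | own p.1 = own p.2}
  let X2 : Finset (E d × E d) :=
    {p ∈ K ×ˢ K | own (T.1 • p.1 + T.2.1) = own (T.1 • p.2 + T.2.1)}
  refine ⟨G, fun p hp => ?_, ?_⟩
  · obtain ⟨h1, h2⟩ := mem_filter.1 hp
    exact ⟨(mem_product.1 h1).1, (mem_product.1 h1).2, h2⟩
  have h1 := ens_cs K (fun z => (l' z, l' (θ.app z))) (G ∪ X1 ∪ X2) fun a ha a' ha' e => by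
    have hm : (a, a') ∈ K ×ˢ K := mem_product.2 ⟨ha, ha'⟩
    rw [Prod.mk.injEq, (hθ a).2, (hθ a').2] at e
    by_cases c1 : own a = own a'
    · exact mem_union_left _ (mem_union_right _ (mem_filter.2 ⟨hm, c1⟩))
    by_cases c2 : own (T.1 • a + T.2.1) = own (T.1 • a' + T.2.1)
    · exact mem_union_right _ (mem_filter.2 ⟨hm, c2⟩)
    exact mem_union_left _ (mem_union_left _ (mem_filter.2 ⟨hm,
      ens_mem_prs.2 ⟨⟨(ens_mem_clq.1 ha).1, (ens_mem_clq.1 ha').1⟩, e.1, c1⟩,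
      ens_mem_prs.2 ⟨⟨(ens_mem_clq.1 ha).2.2.1, (ens_mem_clq.1 ha').2.2.1⟩, e.2, c2⟩⟩))
  have h2 : #(G ∪ X1 ∪ X2) ≤ #G + #X1 + #X2 :=
    (card_union_le _ _).trans (Nat.add_le_add_right (card_union_le _ _) _)
  have hNp : (0 : ℝ) < N := by exact_mod_cast hN1
  simp only [Dom, not_exists, not_or, not_le] at hd
  have h3 : (#X1 : ℝ) ≤ #K * (#K / (8 * N)) := by
    refine ens_pair K own X1 _ (fun p hp => ?_) fun z _ A hA hz => ?_
    · obtain ⟨h4, h5⟩ := mem_filter.1 hp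
      exact ⟨(mem_product.1 h4).1, (mem_product.1 h4).2, h5⟩
    · rw [le_div_iff₀' (by positivity)]
      have h4 := (Nat.mul_le_mul_left (8 * N) (card_le_card fun a ha =>
        mem_filter.2 ⟨hA ha, hz a ha⟩)).trans (hd (own z)).1.le
      exact_mod_cast h4
  have h4 : (#X2 : ℝ) ≤ #K * (#K / (8 * N)) := by
    refine ens_pair K (fun z => own (T.1 • z + T.2.1)) X2 _ (fun p hp => ?_)
      fun z _ A hA hz => ?_
    · obtain ⟨h4, h5⟩ := mem_filter.1 hp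
      exact ⟨(mem_product.1 h4).1, (mem_product.1 h4).2, h5⟩
    · rw [le_div_iff₀' (by positivity)]
      have h4 := (Nat.mul_le_mul_left (8 * N) (card_le_card fun a ha =>
        mem_filter.2 ⟨hA ha, hz a ha⟩)).trans (hd (own (T.1 • z + T.2.1))).2.le
      exact_mod_cast h4
  have h5 : (#K : ℝ) ^ 2 ≤ N * (#G + #X1 + #X2) := by
    exact_mod_cast h1.trans (Nat.mul_le_mul hcl h2)
  rw [← mul_div_assoc, le_div_iff₀' (by positivity)] at h3 h4
  have h6 : (0 : ℝ) ≤ N * #G := by positivity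
  have h7 : (#K : ℝ) ^ 2 ≤ 2 * N * #G := by nlinarith
  exact_mod_cast h7

lemma ens_child (hQ : Set.InjOn nq (Q : Set (E d))) {j D Λ : ℕ} {core : E d → Set (E d)}
    (h : Lvl j D Λ Q l l' core) {N : ℕ} (hN : N = Λ * D ^ (j - 1))
    (Y : Finset ((E d × E d) × (E d × E d))) (hY : ∀ w ∈ Y, w.1 ∈ prs Q l' own ∧
      w.2 ∈ prs Q l' own ∧ l w.1.1 = l w.2.1 ∧ dual w.1 = dual w.2) :
    #Y ≤ N * En Q l' own := by
  refine ens_fib (fun w => (l w.1.1, dual w.1)) Y (quads Q l' own) N fun w _ A hA hk => ?_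
  let S : Finset (E d × E d) := {p ∈ prs Q l' own | l p.1 = l w.1.1 ∧ dual p = dual w.1}
  refine ⟨{v ∈ quads Q l' own | (l v.1.1, dual v.1) = (l w.1.1, dual w.1)}, filter_subset _ _,
    fun v hv => (mem_filter.1 hv).2, ?_⟩
  have h1 : #A ≤ #S ^ 2 := by
    rw [sq, ← card_product]
    refine card_le_card fun v hv => ?_
    obtain ⟨h1, h2, h3, h4⟩ := hY v (hA hv)
    obtain ⟨h5, h6⟩ := Prod.mk.inj (hk v hv)
    exact mem_product.2 ⟨mem_filter.2 ⟨h1, h5, h6⟩,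
      mem_filter.2 ⟨h2, h3.symm.trans h5, h4.symm.trans h6⟩⟩
  refine h1.trans ((ens_cs S (fun p => l' p.1) _ fun p hp p' hp' e => ?_).trans
    (Nat.mul_le_mul_right _ ?_))
  · obtain ⟨h2, h3, h4⟩ := mem_filter.1 hp
    obtain ⟨h5, -, h7⟩ := mem_filter.1 hp'
    exact mem_filter.2 ⟨ens_mem_quads.2 ⟨⟨h2, h5⟩, e, h4.trans h7.symm⟩, Prod.ext h3 h4⟩
  · obtain ⟨φ, hφ, hev⟩ := exists_quad 0 (dual w.1) (-1)
    have e : S.image (fun p => l' p.1) = (S.image Prod.fst).image l' := by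
      rw [image_image]; rfl
    rw [e, hN]
    refine h.sep φ hφ (l w.1.1) _ (fun z hz => ?_) fun z hz => ?_
    · obtain ⟨p, hp, rfl⟩ := mem_image.1 hz
      exact (ens_mem_prs.1 (mem_filter.1 hp).1).1.1
    · obtain ⟨p, hp, rfl⟩ := mem_image.1 hz
      obtain ⟨h2, h3, h4⟩ := mem_filter.1 hp
      refine ⟨h3, p.2, (ens_mem_prs.1 h2).1.2, (ens_mem_prs.1 h2).2.1.symm, ?_⟩
      rw [hev, hev, ← h4, zero_mul, zero_mul, zero_add, zero_add, ← sub_eq_add_neg,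
        ← sub_eq_add_neg]
      exact (dual_sign (ens_nq_ne hQ h2)).symm

lemma ens_big (hQ : Set.InjOn nq (Q : Set (E d))) {j D Λ : ℕ} {core : E d → Set (E d)}
    (h : Lvl j D Λ Q l l' core) {N : ℕ} (hN : N = Λ * D ^ (j - 1)) (hN1 : 1 ≤ N)
    (X : Finset ((E d × E d) × (E d × E d))) (hX : ∀ w ∈ X, w ∈ quads Q l own ∧ w.2.1 ≠ w.1.1 ∧
      ¬ Dom Q l own (8 * N) (l w.1.1) (homOf w) ∧ ¬ EnsBad core w) :
    #X ≤ 2 * N * (N * En Q l' own) := by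
  let Y : Finset ((E d × E d) × (E d × E d)) := {w ∈ prs Q l' own ×ˢ prs Q l' own |
    l w.1.1 = l w.2.1 ∧ dual w.1 = dual w.2}
  refine le_trans ?_ (Nat.mul_le_mul_left _ (ens_child hQ h hN Y fun w hw => ?_))
  swap
  · obtain ⟨h1, h2⟩ := mem_filter.1 hw
    exact ⟨(mem_product.1 h1).1, (mem_product.1 h1).2, h2⟩
  refine ens_fib (fun w => (l w.1.1, homOf w)) X Y (2 * N) fun w hw A hA hk => ?_
  obtain ⟨h1, h2, h3, h4⟩ := hX w hw
  simp only [EnsBad, not_forall] at h4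
  obtain ⟨u, hu, hu'⟩ := h4
  obtain ⟨G, hG, hc⟩ := ens_clq h hN hN1 (ens_mem_prs.1 (ens_mem_quads.1 h1).1.1).1.1
    ⟨u, hu, hu'⟩ h3
  have h0 := (mem_clq hQ h1 h2).1
  generalize homOf w = T at *
  refine ⟨G.image fun p => (p, (T.1 • p.1 + T.2.1, T.1 • p.2 + T.2.1)), fun v hv => ?_,
    fun v hv => ?_, ?_⟩
  · obtain ⟨p, hp, rfl⟩ := mem_image.1 hv
    obtain ⟨g1, g2, g3, g4⟩ := hG p hp
    exact mem_filter.2 ⟨mem_product.2 ⟨g3, g4⟩,
      (ens_mem_clq.1 g1).2.1.trans (ens_mem_clq.1 g1).2.2.2.1.symm,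
      (homOf_clq hQ h0 g1 g2 (ens_ne g3)).1⟩
  · obtain ⟨p, hp, rfl⟩ := mem_image.1 hv
    obtain ⟨g1, g2, g3, g4⟩ := hG p hp
    exact Prod.ext (ens_mem_clq.1 g1).2.1 (homOf_clq hQ h0 g1 g2 (ens_ne g3)).2
  · rw [card_image_of_injective _ fun p q e => (Prod.mk.inj e).1]
    refine le_trans ?_ hc
    rw [sq, ← card_product]
    refine card_le_card_of_injOn Prod.fst (fun v hv => ?_) fun v hv v' hv' e => ?_
    · obtain ⟨g1, g2, -⟩ := hX v (hA hv)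
      obtain ⟨g3, g4⟩ := Prod.mk.inj (hk v hv)
      obtain ⟨-, -, -, g5, g6⟩ := mem_clq hQ g1 g2
      rw [g3, g4] at g5 g6
      exact mem_coe.2 (mem_product.2 ⟨g5, g6⟩)
    · obtain ⟨g1, g2, -⟩ := hX v (hA hv)
      obtain ⟨g1', g2', -⟩ := hX v' (hA hv')
      obtain ⟨-, g5, g6, -⟩ := mem_clq hQ g1 g2
      obtain ⟨-, g5', g6', -⟩ := mem_clq hQ g1' g2'
      rw [(Prod.mk.inj (hk v hv)).2, e] at g5 g6
      rw [(Prod.mk.inj (hk v' hv')).2] at g5' g6'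
      exact Prod.ext e (Prod.ext (g5.symm.trans g5') (g6.symm.trans g6'))

end

/-- Trivial, bad, dominated (`dom_count`), big and small cliques. -/
theorem energy_step {Q : Finset (E d)} (hQ : Set.InjOn nq (Q : Set (E d))) {j D Λ : ℕ}
    {l l' : E d → Lab d} {core : E d → Set (E d)} (h : Lvl j D Λ Q l l' core)
    {own : E d → Submodule ℝ (LL d)} (ho : Own Q own) {σ a : ℝ} (hσ : Size Q l σ)
    (ha : Acc Q l own a) (ha1 : 1 ≤ a) {N : ℕ} (hN : N = Λ * D ^ (j - 1)) (hN1 : 1 ≤ N) :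
    (En Q l own : ℝ) ≤ 2 * N ^ 2 * En Q l' own + #Q * σ * (2 + 12 * (8 * N) ^ 2 * a) +
      Sm Q l own (24 * N) := by
  let W0 := {w ∈ quads Q l own | w.2.1 = w.1.1}
  let W1 := {w ∈ quads Q l own | w.2.1 ≠ w.1.1 ∧ EnsBad core w}
  let W2 := {w ∈ quads Q l own | w.2.1 ≠ w.1.1 ∧ 3 * (8 * N) ≤ #(clq Q l (l w.1.1) (homOf w)) ∧
      Dom Q l own (8 * N) (l w.1.1) (homOf w)}
  let W3 := {w ∈ quads Q l own | w.2.1 ≠ w.1.1 ∧
      ¬ Dom Q l own (8 * N) (l w.1.1) (homOf w) ∧ ¬ EnsBad core w}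
  let W4 := {w ∈ quads Q l own | w.2.1 ≠ w.1.1 ∧ #(clq Q l (l w.1.1) (homOf w)) < 24 * N}
  have hc : quads Q l own ⊆ W0 ∪ W1 ∪ W2 ∪ W3 ∪ W4 := by
    intro w hw
    simp only [W0, W1, W2, W3, W4, mem_union, mem_filter, hw, true_and]
    have : 3 * (8 * N) ≤ #(clq Q l (l w.1.1) (homOf w)) ∨
        #(clq Q l (l w.1.1) (homOf w)) < 24 * N := by omega
    tauto
  have h0 : En Q l own ≤ #W0 + #W1 + #W2 + #W3 + Sm Q l own (24 * N) :=
    (card_le_card hc).trans ((card_union_le _ _).trans (Nat.add_le_add_right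
      ((card_union_le _ _).trans (Nat.add_le_add_right ((card_union_le _ _).trans
        (Nat.add_le_add_right (card_union_le _ _) _)) _)) _))
  have b0 : (#W0 : ℝ) ≤ #Q * σ := ens_inj hσ W0 (filter_subset _ _) fun w hw w' hw' e => by
    rw [ens_triv hQ (mem_filter.1 hw).1 (mem_filter.1 hw).2,
      ens_triv hQ (mem_filter.1 hw').1 (mem_filter.1 hw').2, e]
  have b1 : (#W1 : ℝ) ≤ #Q * σ := ens_inj hσ W1 (filter_subset _ _) fun w hw w' hw' e => by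
    obtain ⟨g1, g2, g3⟩ := mem_filter.1 hw
    obtain ⟨g1', g2', g3'⟩ := mem_filter.1 hw'
    obtain ⟨k1, k2⟩ := ens_bad hQ h g1 g2 g3
    obtain ⟨k1', k2'⟩ := ens_bad hQ h g1' g2' g3'
    obtain ⟨⟨-, m1⟩, m2, -⟩ := ens_mem_quads.1 g1
    obtain ⟨⟨-, m1'⟩, m2', -⟩ := ens_mem_quads.1 g1'
    rw [← e] at k1' k2' m2'
    have k3 := k2 _ (ens_mem_prs.1 m1').1.1 m2'.symm
    have k4 := k2' _ (ens_mem_prs.1 m1).1.1 m2.symm
    have k5 : w.2.1 = w'.2.1 := by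
      refine sub_eq_zero.1 (ens_nq_eq_zero ?_)
      simp only [nq, dotProduct_sub, sub_dotProduct, dotProduct_comm w'.2.1 w.2.1] at k3 k4 ⊢
      linear_combination k3 + k4
    exact Prod.ext k5 (by rw [k1, k1', k5])
  have b2 : (#W2 : ℝ) ≤ 12 * ((8 * N : ℕ) : ℝ) ^ 2 * a * (#Q * σ) :=
    dom_count hQ ho hσ ha ha1 (by omega)
  have b3 : #W3 ≤ 2 * N * (N * En Q l' own) :=
    ens_big hQ h hN hN1 W3 fun w hw => mem_filter.1 hw
  have b3' : (#W3 : ℝ) ≤ 2 * N * (N * En Q l' own) := by exact_mod_cast b3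
  have h0' : (En Q l own : ℝ) ≤ #W0 + #W1 + #W2 + #W3 + Sm Q l own (24 * N) := by
    exact_mod_cast h0
  push_cast at b2
  linarith

end Pool.Agent.P.MP_5f07f1_co
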