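import Pool.Agent.P.MP_5f07f1_co.Lift

/-! Task FLAT: dimension of flats and circles; bounds on flats from `PD`; base cases. -/

namespace Pool.Agent.P.MP_5f07f1_co

open Finset MvPolynomial Pool.Agent.Lib.PolyPart Classical

variable {d : ℕ}

theorem flat_aff {p : MP d} (hp : p.totalDegree ≤ 1) :
    ∃ (c : ℝ) (L : E d →ₗ[ℝ] ℝ), ∀ x, eval x p = c + L x := by
  have key : ∀ m : Fin d →₀ ℕ, (m.sum fun _ e => e) ≤ 1 → ∀ a : ℝ,
      ∃ (c : ℝ) (L : E d →ₗ[ℝ] ℝ), ∀ x, eval x (monomial m a) = c + L x := by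
    intro m hm a
    by_cases h0 : m = 0
    · subst h0
      exact ⟨a, 0, fun x => by simp⟩
    · obtain ⟨i, hi⟩ := Finsupp.support_nonempty_iff.2 h0
      have h1 : m i ≠ 0 := Finsupp.mem_support_iff.1 hi
      have h2 : m = Finsupp.single i 1 := by
        rw [Finsupp.sum_fintype _ _ fun _ => rfl, ← add_sum_erase _ _ (mem_univ i)] at hm
        ext j
        by_cases h3 : j = i
        · subst h3; simp only [Finsupp.single_eq_same]; omega
        · have := single_le_sum (f := fun k => m k) (fun _ _ => Nat.zero_le _)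
            (mem_erase.2 ⟨h3, mem_univ j⟩)
          rw [Finsupp.single_eq_of_ne h3]
          omega
      refine ⟨0, a • LinearMap.proj i, fun x => ?_⟩
      rw [h2, eval_monomial]
      simp
  have h : ∀ m ∈ p.support, ∃ (c : ℝ) (L : E d →ₗ[ℝ] ℝ), ∀ x,
      eval x (monomial m (coeff m p)) = c + L x :=
    fun m hm => key m ((le_totalDegree hm).trans hp) _
  choose! c L h using h
  refine ⟨∑ m ∈ p.support, c m, ∑ m ∈ p.support, L m, fun x => ?_⟩
  conv_lhs => rw [p.as_sum]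
  rw [map_sum, LinearMap.sum_apply, ← sum_add_distrib]
  exact sum_congr rfl fun m hm => h m hm x

theorem flat_rel {V : Type*} [AddCommGroup V] [Module ℝ V] {n : ℕ} (f : V →ₗ[ℝ] E n)
    (h : LinearMap.range f ≠ ⊤) : ∃ α : E n, α ≠ 0 ∧ ∀ v, α ⬝ᵥ f v = 0 := by
  obtain ⟨g, h1, h2⟩ := (LinearMap.range f).exists_le_ker_of_lt_top (lt_top_iff_ne_top.2 h)
  have h3 : ∀ v : E n, (fun i => g (Pi.single i 1)) ⬝ᵥ v = g v := by
    intro v
    rw [LinearMap.pi_apply_eq_sum_univ g v, dotProduct]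
    refine sum_congr rfl fun i _ => ?_
    rw [smul_eq_mul, mul_comm]
    congr 2
    ext j
    simp [Pi.single_apply, eq_comm]
  refine ⟨fun i => g (Pi.single i 1), fun h4 => h1 (LinearMap.ext fun v => ?_), fun v => ?_⟩
  · rw [← h3, h4]; simp
  · rw [h3]; exact h2 (LinearMap.mem_range_self f v)

theorem flat_poly {n : ℕ} (α : E n) (c : ℝ) : ∃ ψ : MP n, ψ.totalDegree ≤ 1 ∧
    ∀ v, eval v ψ = c + α ⬝ᵥ v := by
  refine ⟨C c + ∑ i, C (α i) * X i, (totalDegree_add _ _).trans (max_le (by simp) ?_),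
    fun v => by simp [dotProduct]⟩
  refine totalDegree_finsetSum_le fun i _ => (totalDegree_mul _ _).trans (by simp)

theorem isDim_dir {e : ℕ} {W : Set (E d)} (h : W.Nonempty → ∃ D : Submodule ℝ (E d),
    Module.finrank ℝ D ≤ e ∧ ∀ x ∈ W, ∀ z ∈ W, x - z ∈ D) : IsDim e W := by
  intro y hy
  rcases W.eq_empty_or_nonempty with rfl | hW
  · exact ⟨1, one_ne_zero, by simp, fun x hx => hx.elim⟩
  obtain ⟨D, hD, hD'⟩ := h hW
  obtain ⟨x0, hx0⟩ := hW
  choose c L hL using fun i => flat_aff (hy i)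
  obtain ⟨α, h1, h2⟩ := flat_rel ((LinearMap.pi L).domRestrict D) (by
    intro h3
    have h4 := LinearMap.finrank_range_le ((LinearMap.pi L).domRestrict D)
    rw [h3, finrank_top, Module.finrank_fin_fun] at h4
    omega)
  obtain ⟨ψ, h3, h4⟩ := flat_poly α (-(α ⬝ᵥ fun i => eval x0 (y i)))
  refine ⟨ψ, fun h5 => h1 ?_, h3.trans (by norm_num), fun x hx => ?_⟩
  · have h6 := h4 0
    have h7 := h4 α
    rw [h5, map_zero] at h6 h7
    rw [dotProduct_zero] at h6
    exact dotProduct_self_eq_zero.1 (by linarith)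
  · have h6 := h2 ⟨x - x0, hD' x hx x0 hx0⟩
    have h7 : ((LinearMap.pi L).domRestrict D) ⟨x - x0, hD' x hx x0 hx0⟩ =
        (fun i => eval x (y i)) - fun i => eval x0 (y i) := by
      ext i
      simp [hL]
    rw [h7, dotProduct_sub] at h6
    rw [h4]
    linarith

theorem isDim_span {e : ℕ} {U : Submodule ℝ (E d)} (hU : Module.finrank ℝ U ≤ e + 1) (q : E d) :
    IsDim e {a | a ∈ U ∧ a ⬝ᵥ q = 1} := by
  refine isDim_dir fun ⟨a, ha, ha'⟩ =>
    ⟨U ⊓ LinearMap.ker (dotProductBilin ℝ ℝ q), ?_, fun x hx z hz => ⟨U.sub_mem hx.1 hz.1, ?_⟩⟩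
  · have h1 : U ⊓ LinearMap.ker (dotProductBilin ℝ ℝ q) < U := by
      refine lt_of_le_of_ne inf_le_left fun h => ?_
      have h2 : a ∈ U ⊓ LinearMap.ker (dotProductBilin ℝ ℝ q) := by rw [h]; exact ha
      have h3 : q ⬝ᵥ a = 0 := h2.2
      rw [dotProduct_comm, ha'] at h3
      exact one_ne_zero h3
    have := Submodule.finrank_lt_finrank_of_lt h1
    omega
  · change q ⬝ᵥ (x - z) = 0
    rw [dotProduct_comm, sub_dotProduct, hx.2, hz.2, sub_self]

/-- On the set, products of two affine functions span a space of dimension at most five. -/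
theorem isDim_circle {U : Submodule ℝ (LL d)} (hU : Module.finrank ℝ U ≤ 3) :
    IsDim 1 {x | lift x ∈ U} := by
  intro y hy
  choose c L hL using fun i => flat_aff (hy i)
  let t : LL d →ₗ[ℝ] ℝ := LinearMap.fst ℝ ℝ (E d × ℝ)
  let v : LL d →ₗ[ℝ] E d := (LinearMap.fst ℝ (E d) ℝ).comp (LinearMap.snd ℝ ℝ (E d × ℝ))
  let Φ : U →ₗ[ℝ] E 3 :=
    (LinearMap.pi ![t, c 0 • t + (L 0).comp v, c 1 • t + (L 1).comp v]).domRestrict U
  have hΦ : ∀ u : U, Φ u = ![u.1.1, c 0 * u.1.1 + L 0 u.1.2.1, c 1 * u.1.1 + L 1 u.1.2.1] := by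
    intro u
    ext i
    fin_cases i <;> rfl
  have hl : ∀ x (hx : lift x ∈ U), Φ ⟨lift x, hx⟩ = ![1, eval x (y 0), eval x (y 1)] := by
    intro x hx
    rw [hΦ, hL, hL]
    simp [lift]
  by_cases hs : LinearMap.range Φ = ⊤
  swap
  · obtain ⟨α, h1, h2⟩ := flat_rel Φ hs
    obtain ⟨ψ, h3, h4⟩ := flat_poly ![α 1, α 2] (α 0)
    refine ⟨ψ, fun h5 => h1 ?_, h3.trans (by norm_num), fun x hx => ?_⟩
    · have h6 := h4 0
      have h7 := h4 ![1, 0]
      have h8 := h4 ![0, 1]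
      rw [h5, map_zero] at h6 h7 h8
      simp at h6 h7 h8
      ext i
      fin_cases i <;> simp <;> linarith
    · have h6 := h2 ⟨lift x, hx⟩
      rw [hl] at h6
      rw [h4]
      simp only [dotProduct, Fin.sum_univ_succ, Fin.sum_univ_zero] at h6 ⊢
      simpa using h6
  have hinj : Function.Injective Φ := by
    have h1 := LinearMap.finrank_range_add_finrank_ker Φ
    rw [hs, finrank_top, Module.finrank_fin_fun] at h1
    exact LinearMap.ker_eq_bot.1 (Submodule.finrank_eq_zero.1 (by omega))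
  obtain ⟨u0, h0⟩ := LinearMap.range_eq_top.1 hs ![1, 0, 0]
  obtain ⟨u1, h1⟩ := LinearMap.range_eq_top.1 hs ![0, 1, 0]
  obtain ⟨u2, h2⟩ := LinearMap.range_eq_top.1 hs ![0, 0, 1]
  choose p hp hp' using fun k : Fin d => flat_poly ![u1.1.2.1 k, u2.1.2.1 k] (u0.1.2.1 k)
  obtain ⟨r, hr, hr'⟩ := flat_poly ![u1.1.2.2, u2.1.2.2] u0.1.2.2
  have hev : ∀ a : E 2, eval a (∑ k, p k * p k - r) =
      nq (u0.1.2.1 + a 0 • u1.1.2.1 + a 1 • u2.1.2.1) -
        (u0.1.2.2 + a 0 * u1.1.2.2 + a 1 * u2.1.2.2) := by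
    intro a
    simp only [map_sub, map_sum, map_mul, hp', hr', nq, dotProduct, Fin.sum_univ_two]
    congr 1
    · refine sum_congr rfl fun k _ => ?_
      simp
      ring
    · simp
      ring
  refine ⟨∑ k, p k * p k - r, fun h5 => ?_, (totalDegree_sub _ _).trans (max_le
    (totalDegree_finsetSum_le fun k _ => (totalDegree_mul _ _).trans (add_le_add (hp k) (hp k)))
    (hr.trans (by norm_num))), fun x hx => ?_⟩
  · have a0 := hev ![0, 0]
    have a1 := hev ![1, 0]
    have a2 := hev ![-1, 0]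
    rw [h5, map_zero] at a0 a1 a2
    simp only [nq, Matrix.cons_val_zero, Matrix.cons_val_one, zero_smul, one_smul, neg_smul,
      add_zero, add_dotProduct, dotProduct_add, neg_dotProduct, dotProduct_neg] at a0 a1 a2
    have a3 : u1.1.2.1 = 0 := dotProduct_self_eq_zero.1 (by linarith)
    rw [hΦ, a3] at h1
    have b0 := congrFun h1 0
    have b1 := congrFun h1 1
    simp only [Matrix.cons_val_zero, Matrix.cons_val_one, map_zero] at b0 b1
    rw [b0] at b1
    norm_num at b1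
  · have h6 : (⟨lift x, hx⟩ : U) = u0 + eval x (y 0) • u1 + eval x (y 1) • u2 := by
      apply hinj
      rw [hl, map_add, map_add, map_smul, map_smul, h0, h1, h2]
      ext i
      fin_cases i <;> simp
    have h7 := congrArg (fun u : U => u.1.2.1) h6
    have h8 := congrArg (fun u : U => u.1.2.2) h6
    rw [hev]
    exact sub_eq_zero.2 ((congrArg nq h7).symm.trans h8)

theorem flat_dir {m e : ℕ} (h : d ≤ m + e) {w : Fin m → E d × ℝ} (hw : LinearIndependent ℝ w)
    {q0 : E d} (h0 : ∀ i, (w i).1 ⬝ᵥ q0 = (w i).2) : ∃ D : Submodule ℝ (E d),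
      Module.finrank ℝ D ≤ e ∧ ∀ x z : E d, (∀ i, (w i).1 ⬝ᵥ x = (w i).2) →
        (∀ i, (w i).1 ⬝ᵥ z = (w i).2) → x - z ∈ D := by
  let A : E d →ₗ[ℝ] E m := LinearMap.pi fun i => dotProductBilin ℝ ℝ (w i).1
  have hA : ∀ x i, A x i = (w i).1 ⬝ᵥ x := fun _ _ => rfl
  refine ⟨LinearMap.ker A, ?_, fun x z hx hz => ?_⟩
  · have h1 : LinearMap.range A = ⊤ := by
      by_contra h1
      obtain ⟨α, h2, h3⟩ := flat_rel A h1
      have h4 : ∀ x, (∑ i, α i • (w i).1) ⬝ᵥ x = 0 := by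
        intro x
        rw [← h3 x, sum_dotProduct]
        simp only [smul_dotProduct, smul_eq_mul]
        rfl
      refine h2 (funext (Fintype.linearIndependent_iff.1 hw α (Prod.ext ?_ ?_)))
      · rw [Prod.fst_sum]
        exact dotProduct_self_eq_zero.1 (h4 _)
      · rw [Prod.snd_sum]
        have h5 := h3 q0
        simp only [dotProduct, hA] at h5 h0
        simp only [h0] at h5
        exact h5
    have h2 := LinearMap.finrank_range_add_finrank_ker A
    rw [h1, finrank_top, Module.finrank_fin_fun, Module.finrank_fin_fun] at h2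
    omega
  · ext i
    rw [hA, dotProduct_sub, hx, hz, sub_self]
    rfl

theorem isDim_flat {m e : ℕ} (h : d ≤ m + e) {w : Fin m → E d × ℝ} (hw : LinearIndependent ℝ w) :
    IsDim e {q | ∀ i, (w i).1 ⬝ᵥ q = (w i).2} := by
  refine isDim_dir fun ⟨q0, h0⟩ => ?_
  obtain ⟨D, h1, h2⟩ := flat_dir h hw h0
  exact ⟨D, h1, fun x hx z hz => h2 x z hx hz⟩

theorem flat_iso {e : ℕ} (D : Submodule ℝ (E d)) (h : Module.finrank ℝ D ≤ e) :
    ∃ f : E d → E e, ∀ x z, x - z ∈ D → nq (f x - f z) = nq (x - z) := by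
  let D' : Submodule ℝ (EuclideanSpace ℝ (Fin d)) :=
    D.map (WithLp.linearEquiv 2 ℝ (Fin d → ℝ)).symm.toLinearMap
  have h1 : Module.finrank ℝ D' = Module.finrank ℝ D := LinearEquiv.finrank_map_eq _ _
  obtain ⟨r, rfl⟩ := Nat.exists_eq_add_of_le (h1.le.trans h)
  let b := stdOrthonormalBasis ℝ D'
  refine ⟨fun x => Fin.append (fun i => (b i).1.ofLp ⬝ᵥ x) 0, fun x z hxz => ?_⟩
  have h2 := b.sum_sq_norm_inner_right ⟨WithLp.toLp 2 (x - z), Submodule.mem_map_of_mem hxz⟩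
  simp only [nq, dotProduct, Fin.sum_univ_add, Pi.sub_apply, Fin.append_left, Fin.append_right,
    Pi.zero_apply, sub_self, mul_zero, sum_const_zero, add_zero]
  rw [Submodule.coe_norm, EuclideanSpace.real_norm_sq_eq] at h2
  simp only [sq] at h2
  refine Eq.trans (sum_congr rfl fun i _ => ?_) h2
  rw [Real.norm_eq_abs, abs_mul_abs_self, Submodule.coe_inner, PiLp.inner_apply,
    ← sum_sub_distrib]
  congr 1 <;> exact sum_congr rfl fun k _ => by simp; ring

theorem pin_mono {P Q : Finset (E d)} (h : Q ⊆ P) (q : E d) : pin Q q ≤ pin P q :=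
  card_le_card (image_subset_image h)

/-- Orthonormal coordinates on the flat. -/
theorem PD.flat {e : ℕ} {b : ℝ} (h : PD e b) (b' : ℝ) (hb : b < b') : ∃ C : ℝ, 0 ≤ C ∧
    ∀ (d m : ℕ), d ≤ m + e → ∀ (P : Finset (E d)) (t : ℝ), 1 ≤ t →
      (∀ q ∈ P, (pin P q : ℝ) ≤ t) → FlatBd P m (C * t ^ b') := by
  obtain ⟨C, hC⟩ := h b' hb
  refine ⟨max C 0, le_max_right _ _, fun d m hd P t ht hP w hw => ?_⟩
  have h0 : 0 ≤ t ^ b' := Real.rpow_nonneg (by linarith) _
  generalize hS : {q ∈ P | ∀ i, (w i).1 ⬝ᵥ q = (w i).2} = S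
  have hS' : ∀ q ∈ S, q ∈ P ∧ ∀ i, (w i).1 ⬝ᵥ q = (w i).2 := fun q hq => by
    rw [← hS] at hq; exact mem_filter.1 hq
  rcases S.eq_empty_or_nonempty with rfl | ⟨q0, hq0⟩
  · simpa using mul_nonneg (le_max_right C 0) h0
  obtain ⟨D, h1, h2⟩ := flat_dir hd hw (hS' q0 hq0).2
  obtain ⟨f, hf⟩ := flat_iso D h1
  have hf' : ∀ x ∈ S, ∀ z ∈ S, nq (f x - f z) = nq (x - z) :=
    fun x hx z hz => hf x z (h2 x z (hS' x hx).2 (hS' z hz).2)
  have h3 : #(S.image f) = #S := card_image_of_injOn fun x hx z hz e => by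
    have h4 := hf' x hx z hz
    rw [e, sub_self] at h4
    exact sub_eq_zero.1 (dotProduct_self_eq_zero.1 (h4.symm.trans (by simp [nq])))
  rw [← h3]
  refine (hC (S.image f) t ht fun q hq => ?_).trans
    (mul_le_mul_of_nonneg_right (le_max_left _ _) h0)
  obtain ⟨z, hz, rfl⟩ := mem_image.1 hq
  have h4 : pin (S.image f) (f z) = pin S z := by
    unfold pin
    rw [image_image]
    exact congrArg card (image_congr fun x hx => hf' x hx z hz)
  rw [h4]
  exact le_trans (Nat.cast_le.2 (pin_mono (fun q hq => (hS' q hq).1) z)) (hP z (hS' z hz).1)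

theorem pd_zero : PD 0 0 := by
  refine fun b' hb => ⟨1, fun P t ht _ => ?_⟩
  have h1 : #P ≤ 1 := card_le_one.2 fun a _ b _ => Subsingleton.elim _ _
  rw [one_mul]
  exact le_trans (by exact_mod_cast h1) (Real.one_le_rpow ht hb.le)

theorem pd_one : PD 1 1 := by
  refine fun b' hb => ⟨1, fun P t ht hP => ?_⟩
  have h1 : t ≤ t ^ b' := by
    simpa using Real.rpow_le_rpow_of_exponent_le ht hb.le
  rw [one_mul]
  rcases P.eq_empty_or_nonempty with rfl | hne
  · simp only [card_empty, Nat.cast_zero]; linarith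
  obtain ⟨q, hq, hmin⟩ := exists_min_image P (fun x => x 0) hne
  refine le_trans (le_of_eq ?_) ((hP q hq).trans h1)
  unfold pin
  rw [card_image_of_injOn]
  intro x hx z hz e
  simp only [nq, dotProduct, Fin.sum_univ_one, Pi.sub_apply] at e
  have h2 := (mul_self_inj_of_nonneg (sub_nonneg.2 (hmin x hx)) (sub_nonneg.2 (hmin z hz))).1 e
  ext i
  rw [Subsingleton.elim i 0]
  linarith

end Pool.Agent.P.MP_5f07f1_co
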