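import Pool.Agent.P.MP_5f07f1_co.Defs

/-! Arithmetic for the induction step. -/

namespace Pool.Agent.P.MP_5f07f1_co

open Finset Real

/-- The final linear inequality between logarithms. -/
lemma ind_lin {d b ρ g c ν τ ω r s ς μ : ℝ} (hd : 2 ≤ d) (hg : 0 ≤ g) (hc : 0 ≤ c)
    (hc1 : g + c ≤ 1 / 3) (hc2 : g * d + c ≤ 2)
    (hA : d + 1 ≤ (2 + g + c / d) * b + (2 - d * g - c) * ρ)
    (hB : d + 1 - c ≤ (2 + g) * b + (1 - d * g - 2 * c) * ρ)
    (hτ : 0 ≤ τ) (hω : 0 ≤ ω) (h1 : ρ * τ ≤ r) (h2 : r ≤ ω + ρ * τ) (h3 : ν ≤ ς + d * r)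
    (h4 : ν ≤ ω + d * s) (hμ : μ = 0 ∨ (μ = r ∧ τ ≤ s + r))
    (h5 : 2 * (2 * ν + ς + r - 7 * ω - τ) ≤ 3 * ω + ν + ((ω + ν - ς - r) +
      (ω + ν + (2 - g) * ς + c * (r - s))) + (d - 1) * (8 * ω + τ - r) + μ) :
    ν ≤ (4 * d + 9) * ω + b * τ := by
  by_contra hcon
  push Not at hcon
  have hd0 : 0 < d := by linarith
  have e1 : (1 + g) * (ν - d * r) ≤ (1 + g) * ς := by gcongr; linarith
  have hK : 0 ≤ (4 * d + 9) * ω := by positivity
  rcases hμ with rfl | ⟨rfl, hs⟩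
  · have hcd : 0 ≤ c / d := by positivity
    have hcd1 : c / d ≤ 1 := by rw [div_le_one hd0]; linarith
    have e2 : c / d * (ν - ω) ≤ c * s := by
      calc c / d * (ν - ω) ≤ c / d * (d * s) := by gcongr; linarith
        _ = c * s := by field_simp
    have e3 : (2 - d * g - c) * (ρ * τ) ≤ (2 - d * g - c) * r := by gcongr; linarith
    have e4 : (d + 1) * τ ≤ ((2 + g + c / d) * b + (2 - d * g - c) * ρ) * τ := by gcongr
    have e5 : (2 + g + c / d) * ((4 * d + 9) * ω + b * τ) < (2 + g + c / d) * ν := by gcongr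
    have e6 : 2 * ((4 * d + 9) * ω) ≤ (2 + g + c / d) * ((4 * d + 9) * ω) := by
      gcongr; linarith
    have e7 : c / d * ω ≤ 1 * ω := by gcongr
    nlinarith
  · have e2 : c * (τ - μ) ≤ c * s := by gcongr; linarith
    have e3 : (1 - d * g - 2 * c) * (ρ * τ) - 2 * ω ≤ (1 - d * g - 2 * c) * μ := by
      have a1 : 0 ≤ (1 - d * g - 2 * c + 2) * (μ - ρ * τ) := by
        apply mul_nonneg <;> linarith
      nlinarith
    have e4 : (d + 1 - c) * τ ≤ ((2 + g) * b + (1 - d * g - 2 * c) * ρ) * τ := by gcongr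
    have e5 : (2 + g) * ((4 * d + 9) * ω + b * τ) < (2 + g) * ν := by gcongr
    have e6 : 2 * ((4 * d + 9) * ω) ≤ (2 + g) * ((4 * d + 9) * ω) := by
      gcongr; linarith
    nlinarith

/-- The same inequality before taking logarithms. -/
lemma ind_mul {d : ℕ} {b ρ g c n t w R S σ m : ℝ} (hd : 2 ≤ d) (hg : 0 ≤ g) (hc : 0 ≤ c)
    (hc1 : g + c ≤ 1 / 3) (hc2 : g * d + c ≤ 2)
    (hA : d + 1 ≤ (2 + g + c / d) * b + (2 - d * g - c) * ρ)
    (hB : d + 1 - c ≤ (2 + g) * b + (1 - d * g - 2 * c) * ρ)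
    (hn : 1 ≤ n) (ht : 1 ≤ t) (hw : 1 ≤ w) (hR : 1 ≤ R) (hS : 1 ≤ S) (hσ : 1 ≤ σ)
    (h1 : t ^ ρ ≤ R) (h2 : R ≤ w * t ^ ρ) (h3 : n ≤ σ * R ^ d) (h4 : n ≤ w * S ^ d)
    (hm : m = 1 ∨ (m = R ∧ t ≤ S * R))
    (h5 : (n ^ 2 * σ * R / (w ^ 7 * t)) ^ 2 ≤ w ^ 3 * n * (w * n / (σ * R) *
      (w * n * σ ^ (2 - g) * (R / S) ^ c)) * (w ^ 8 * t / R) ^ (d - 1) * m) :
    n ≤ w ^ (4 * d + 9) * t ^ b := by
  have hm0 : 0 < m := by rcases hm with rfl | ⟨rfl, -⟩ <;> linarith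
  have hn0 : 0 < n := by linarith
  have ht0 : 0 < t := by linarith
  have hw0 : 0 < w := by linarith
  have hR0 : 0 < R := by linarith
  have hS0 : 0 < S := by linarith
  have hσ0 : 0 < σ := by linarith
  have k := ind_lin (d := d) (b := b) (ρ := ρ) (g := g) (c := c) (ν := log n) (τ := log t)
    (ω := log w) (r := log R) (s := log S) (ς := log σ) (μ := log m) (by exact_mod_cast hd) hg hc
    hc1 hc2 hA hB (log_nonneg ht) (log_nonneg hw)
    (by rw [← log_rpow ht0]; exact log_le_log (by positivity) h1)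
    (by rw [← log_rpow ht0, ← log_mul hw0.ne' (by positivity)]; exact log_le_log hR0 h2)
    (by rw [← log_pow, ← log_mul hσ0.ne' (by positivity)]; exact log_le_log hn0 h3)
    (by rw [← log_pow, ← log_mul hw0.ne' (by positivity)]; exact log_le_log hn0 h4)
    (by
      rcases hm with rfl | ⟨rfl, h⟩
      · exact Or.inl log_one
      · exact Or.inr ⟨rfl, by rw [← log_mul hS0.ne' hR0.ne']; exact log_le_log ht0 h⟩)
    (by
      have := log_le_log (by positivity) h5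
      have hd1 : ((d - 1 : ℕ) : ℝ) = d - 1 := by rw [Nat.cast_sub (by omega)]; simp
      simp (disch := positivity) only [log_mul, log_div, log_pow, log_rpow, hd1] at this
      push_cast at this
      linarith)
  rw [← log_le_log_iff hn0 (by positivity), log_mul (by positivity) (by positivity), log_pow,
    log_rpow ht0]
  push_cast
  exact k

lemma term_le (d : ℕ) (β : ℕ → ℝ) (h0 : β 0 = 0) {ρ t w R Y m a y : ℝ}
    (hρ : ∀ e : ℕ, 2 ≤ e → e < d + 1 → β e ≤ e * (1 - ρ)) (ht : 1 ≤ t) (hw : 1 ≤ w) (hR : 1 ≤ R)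
    (hRw : R ≤ w * t ^ ρ) (hwY : w * t / R ≤ Y) (hY : 1 ≤ Y) (hm : 1 ≤ m)
    (ham : a * R ≤ t * m) (hy0 : 0 ≤ y) (hy : y ≤ Y) : ∀ k ∈ Icc 1 (d + 1),
      (if k = d then w * a else w * t ^ β (d + 1 - k)) * y ^ (k - 1) ≤ w * Y ^ d * m := by
  intro k hk
  rw [mem_Icc] at hk
  have ht0 : 0 < t := by linarith
  have hR0 : 0 < R := by linarith
  have hw0 : 0 < w := by linarith
  have hyk : y ^ (k - 1) ≤ Y ^ (k - 1) := pow_le_pow_left₀ hy0 hy _
  split_ifs with h
  · have e : a ≤ Y * m := by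
      calc a ≤ t * m / R := by rw [le_div_iff₀ hR0]; exact ham
        _ = t / R * m := by ring
        _ ≤ _ := mul_le_mul_of_nonneg_right (le_trans (div_le_div_of_nonneg_right
          (le_mul_of_one_le_left ht0.le hw) hR0.le) hwY) (by linarith)
    calc w * a * y ^ (k - 1) ≤ w * (Y * m) * Y ^ (k - 1) := by gcongr
      _ = w * Y ^ (k - 1 + 1) * m := by ring
      _ = _ := by rw [show k - 1 + 1 = d by omega]
  · have e : t ^ β (d + 1 - k) ≤ Y ^ (d + 1 - k) := by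
      have e1 : β (d + 1 - k) ≤ (1 - ρ) * (d + 1 - k : ℕ) := by
        by_cases h' : k = d + 1
        · simp [h', h0]
        · rw [mul_comm]; exact hρ _ (by omega) (by omega)
      refine (rpow_le_rpow_of_exponent_le ht e1).trans ?_
      rw [rpow_mul ht0.le, rpow_natCast]
      refine pow_le_pow_left₀ (by positivity) (le_trans ?_ hwY) _
      rw [rpow_sub ht0, rpow_one, div_le_div_iff₀ (by positivity) hR0]
      calc t * R ≤ t * (w * t ^ ρ) := by gcongr
        _ = _ := by ring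
    calc w * t ^ β (d + 1 - k) * y ^ (k - 1) ≤ w * Y ^ (d + 1 - k) * Y ^ (k - 1) := by gcongr
      _ = w * Y ^ (d + 1 - k + (k - 1)) * 1 := by ring
      _ ≤ _ := by rw [show d + 1 - k + (k - 1) = d by omega]; gcongr

/-- Absorbing the factor `n ^ ε`. -/
lemma absorb {b b' : ℝ} (hb : 0 ≤ b) (h : b < b') (K : ℕ) : ∃ ε > (0 : ℝ), ∀ C₀ : ℝ, 1 ≤ C₀ → ∃ C : ℝ,
    0 ≤ C ∧ ∀ n t : ℝ, 1 ≤ n → 1 ≤ t → n ≤ (C₀ * n ^ ε) ^ K * t ^ b → n ≤ C * t ^ b' := by
  have hb' : 0 < b' := by linarith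
  set δ := (b' - b) / b' with hδ
  have hδ0 : 0 < δ := by rw [hδ]; apply div_pos <;> linarith
  refine ⟨δ / (2 * (K + 1)), by positivity, fun C₀ hC => ?_⟩
  have hδ1 : δ ≤ 1 := by rw [hδ, div_le_one hb']; linarith
  refine ⟨C₀ ^ (2 * K), by positivity, fun n t hn ht hh => ?_⟩
  have hn0 : 0 < n := by linarith
  have ht0 : 0 < t := by linarith
  have hC0 : 0 < C₀ := by linarith
  have := log_le_log hn0 hh
  rw [← log_le_log_iff hn0 (by positivity)]
  simp (disch := positivity) only [log_mul, log_pow, log_rpow] at this ⊢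
  push_cast
  have a1 := log_nonneg hn
  have a2 := log_nonneg ht
  have a3 := log_nonneg hC
  have hK : (0 : ℝ) ≤ K := by positivity
  have e1 : K * (δ / (2 * (K + 1)) * log n) ≤ δ / 2 * log n := by
    rw [← mul_assoc]
    gcongr
    rw [← mul_div_assoc, div_le_div_iff₀ (by positivity) (by positivity)]
    nlinarith
  have e2 : b = (1 - δ) * b' := by rw [hδ]; field_simp; ring
  have e3 : (1 - δ / 2) * log n ≤ K * log C₀ + (1 - δ) * (b' * log t) := by
    rw [e2] at this; nlinarith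
  by_contra hcon
  push Not at hcon
  have e4 : (1 - δ / 2) * (2 * K * log C₀ + b' * log t) < (1 - δ / 2) * log n := by
    gcongr; linarith
  have e5 : 0 ≤ (1 - δ) * (K * log C₀) := by apply mul_nonneg <;> [linarith; positivity]
  have e6 : 0 ≤ δ * (b' * log t) := by positivity
  nlinarith

end Pool.Agent.P.MP_5f07f1_co
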