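import Pool.Agent.P.MP_5f07f1_co.Lift

/-! Task ISO: isosceles triples (paper section 4). -/

namespace Pool.Agent.P.MP_5f07f1_co

open Finset MvPolynomial Pool.Agent.Lib.PolyPart Classical

variable {d : ℕ}

/-- Cauchy-Schwarz for the classes of a map. -/
lemma iso_sq_card_le {α β : Type*} [DecidableEq β] (S : Finset α) (f : α → β) :
    (#S : ℝ) ^ 2 ≤ #(S.image f) * #{w ∈ S ×ˢ S | f w.1 = f w.2} := by
  have h1 : (#S : ℝ) = ∑ b ∈ S.image f, (#{x ∈ S | f x = b} : ℝ) := by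
    exact_mod_cast card_eq_sum_card_image f S
  have h2 : (#{w ∈ S ×ˢ S | f w.1 = f w.2} : ℝ) =
      ∑ b ∈ S.image f, (#{x ∈ S | f x = b} : ℝ) ^ 2 := by
    have h := card_eq_sum_card_fiberwise (s := {w ∈ S ×ˢ S | f w.1 = f w.2}) (t := S.image f)
      (f := fun w => f w.1) (fun w hw =>
        mem_coe.2 (mem_image_of_mem f (mem_product.1 (mem_filter.1 (mem_coe.1 hw)).1).1))
    rw [h]
    push_cast
    refine sum_congr rfl fun b _ => ?_
    have : {w ∈ {w ∈ S ×ˢ S | f w.1 = f w.2} | f w.1 = b} =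
        {x ∈ S | f x = b} ×ˢ {x ∈ S | f x = b} := by
      ext w
      simp only [mem_filter, mem_product]
      constructor
      · rintro ⟨⟨⟨a, b⟩, c⟩, e⟩
        exact ⟨⟨a, e⟩, b, c ▸ e⟩
      · rintro ⟨⟨a, e⟩, b, c⟩
        exact ⟨⟨⟨a, b⟩, e.trans c.symm⟩, e⟩
    rw [this, card_product]
    push_cast
    ring
  rw [h2, h1]
  exact sq_sum_le_card_mul_sum_sq

lemma iso_nq_sub (x q : E d) : nq (x - q) = nq x - 2 * (q ⬝ᵥ x) + nq q := by
  simp only [nq, sub_dotProduct, dotProduct_sub, dotProduct_comm x q]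
  ring

lemma iso_prs_ne {Q : Finset (E d)} (hQ : Set.InjOn nq (Q : Set (E d))) {l : E d → Lab d}
    {own : E d → Submodule ℝ (LL d)} {p : E d × E d} (hp : p ∈ prs Q l own) :
    nq p.1 ≠ nq p.2 := by
  simp only [prs, mem_filter, mem_product] at hp
  intro h
  exact hp.2.2 (by rw [hQ hp.1.1 hp.1.2 h])

lemma Sep.nonneg {Q : Finset (E d)} {l : E d → Lab d} {N : ℝ} (hN : Sep Q l N) : 0 ≤ N := by
  simpa using hN 0 (by simp) ∅ (empty_subset _) (by simp)

/-- Number of classes (distance from `q`, cell). -/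
lemma iso_classes {Q : Finset (E d)} {l : E d → Lab d} {N B t : ℝ} (hN : Sep Q l N)
    (hB : (#(Q.image l) : ℝ) ≤ B) {q : E d} (ht : (pin Q q : ℝ) ≤ t) :
    (#(Q.image fun x => (nq (x - q), l x)) : ℝ) ≤ t * N + B := by
  set c : E d → ℝ × Lab d := fun x => (nq (x - q), l x) with hc
  set p : E d → Prop := fun x => ∀ u ∈ Q, l u = l x → nq (u - q) = nq (x - q) with hp
  have h0 : #(Q.image c) ≤ #({x ∈ Q | ¬ p x}.image c) + #({x ∈ Q | p x}.image c) := by
    refine le_trans (card_le_card ?_) (card_union_le _ _)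
    rw [← image_union]
    refine image_subset_image fun x hx => ?_
    by_cases h : p x <;> simp [hx, h]
  have h1 : #({x ∈ Q | p x}.image c) ≤ #(Q.image l) := by
    refine card_le_card_of_injOn Prod.snd ?_ ?_
    · intro w hw
      obtain ⟨x, hx, rfl⟩ := mem_image.1 (mem_coe.1 hw)
      exact mem_coe.2 (mem_image_of_mem l (mem_filter.1 hx).1)
    · intro w hw w' hw' e
      obtain ⟨x, hx, rfl⟩ := mem_image.1 (mem_coe.1 hw)
      obtain ⟨x', hx', rfl⟩ := mem_image.1 (mem_coe.1 hw')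
      have e' : l x = l x' := e
      exact Prod.ext ((mem_filter.1 hx').2 x (mem_filter.1 hx).1 e') e'
  have h2 : (#({x ∈ Q | ¬ p x}.image c) : ℝ) ≤ pin Q q * N := by
    have h := card_eq_sum_card_fiberwise (s := {x ∈ Q | ¬ p x}.image c)
      (t := Q.image fun x => nq (x - q)) (f := Prod.fst) (fun w hw => by
        obtain ⟨x, hx, rfl⟩ := mem_image.1 (mem_coe.1 hw)
        exact mem_coe.2 (mem_image_of_mem (fun x => nq (x - q)) (mem_filter.1 hx).1))
    rw [h, pin]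
    push_cast
    rw [← nsmul_eq_mul]
    refine sum_le_card_nsmul _ _ _ fun r _ => ?_
    obtain ⟨φ, hφ, hev⟩ := exists_quad (d := d) 1 ((-2 : ℝ) • q) (nq q - r)
    have hev' : ∀ z, eval z φ = nq (z - q) - r := fun z => by
      rw [hev, iso_nq_sub, smul_dotProduct, smul_eq_mul]; ring
    refine le_trans ?_ (hN φ hφ {x ∈ Q | ¬ p x ∧ nq (x - q) = r} (filter_subset _ _) ?_)
    · refine Nat.cast_le.2 (card_le_card_of_injOn Prod.snd ?_ ?_)
      · intro w hw
        obtain ⟨hw1, hw2⟩ := mem_filter.1 (mem_coe.1 hw)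
        obtain ⟨x, hx, rfl⟩ := mem_image.1 hw1
        exact mem_coe.2 (mem_image_of_mem l
          (mem_filter.2 ⟨(mem_filter.1 hx).1, (mem_filter.1 hx).2, hw2⟩))
      · intro w hw w' hw' e
        exact Prod.ext ((mem_filter.1 (mem_coe.1 hw)).2.trans
          (mem_filter.1 (mem_coe.1 hw')).2.symm) e
    · intro z hz
      obtain ⟨-, hz1, hz2⟩ := mem_filter.1 hz
      simp only [hp, not_forall] at hz1
      obtain ⟨u, hu, hl, hne⟩ := hz1
      refine ⟨u, hu, hl, ?_⟩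
      rw [hev', hev', hz2, sub_self, sign_zero, ne_eq, sign_eq_zero_iff, sub_eq_zero, ← hz2]
      exact hne
  have h3 : (pin Q q : ℝ) * N ≤ t * N := mul_le_mul_of_nonneg_right ht hN.nonneg
  have h0' : (#(Q.image c) : ℝ) ≤ #({x ∈ Q | ¬ p x}.image c) + #({x ∈ Q | p x}.image c) := by
    exact_mod_cast h0
  have h1' : (#({x ∈ Q | p x}.image c) : ℝ) ≤ #(Q.image l) := by exact_mod_cast h1
  linarith

/-- The linear functional `(t, v, s) ↦ s - 2 q.v + r t`. -/
def isoF (q : E d) (r : ℝ) : LL d →ₗ[ℝ] ℝ where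
  toFun w := w.2.2 - 2 * (q ⬝ᵥ w.2.1) + r * w.1
  map_add' u v := by simp only [Prod.snd_add, Prod.fst_add, dotProduct_add]; ring
  map_smul' a v := by
    simp only [Prod.smul_snd, Prod.smul_fst, dotProduct_smul, smul_eq_mul, RingHom.id_apply]; ring

lemma isoF_lift (q : E d) (r : ℝ) (z : E d) :
    isoF q (nq q - r) (lift z) = nq (z - q) - r := by
  rw [iso_nq_sub]
  simp only [isoF, lift, LinearMap.coe_mk, AddHom.coe_mk]
  ring

/-- Few points `q` are equidistant from three points with the own circle of `x`. -/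
lemma iso_bad {Q : Finset (E d)} {own : E d → Submodule ℝ (LL d)} (ho : Own Q own) {a : ℝ}
    (ha : FlatBd Q 2 a) (h1 : 4 * a ≤ #Q) {x : E d} (hx : x ∈ Q) :
    (#{q ∈ Q | 2 < #{y ∈ Q | own y = own x ∧ nq (y - q) = nq (x - q)}} : ℝ) ≤ #Q / 4 := by
  rcases eq_empty_or_nonempty
    {q ∈ Q | 2 < #{y ∈ Q | own y = own x ∧ nq (y - q) = nq (x - q)}} with h | ⟨q0, hq0⟩
  · rw [h, card_empty, Nat.cast_zero]
    positivity
  obtain ⟨y1, y2, y3, m1, m2, m3, n12, n13, n23⟩ := two_lt_card_iff.1 (mem_filter.1 hq0).2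
  have mem : ∀ {q y : E d}, y ∈ {y ∈ Q | own y = own x ∧ nq (y - q) = nq (x - q)} →
      lift y ∈ own x := fun hy => by
    obtain ⟨a1, a2, -⟩ := mem_filter.1 hy
    exact a2 ▸ (ho _ a1).1
  have hind := lift_indep n12 n13 n23
  let w : Fin 2 → E d × ℝ := ![(y2 - y1, (nq y2 - nq y1) / 2), (y3 - y1, (nq y3 - nq y1) / 2)]
  have hw : LinearIndependent ℝ w := by
    rw [LinearIndependent.pair_iff]
    intro s t hst
    have e1 : s • (y2 - y1) + t • (y3 - y1) = 0 := congrArg Prod.fst hst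
    have e2 : s * ((nq y2 - nq y1) / 2) + t * ((nq y3 - nq y1) / 2) = 0 := congrArg Prod.snd hst
    have := Fintype.linearIndependent_iff.1 hind ![-(s + t), s, t] (by
      rw [Fin.sum_univ_three]
      simp only [lift, Matrix.cons_val_zero, Matrix.cons_val_one, Matrix.cons_val_two,
        Matrix.head_cons, Matrix.tail_cons, Prod.smul_mk, Prod.mk_add_mk, smul_eq_mul]
      refine Prod.ext (by simp) (Prod.ext ?_ ?_)
      · show -(s + t) • y1 + s • y2 + t • y3 = 0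
        rw [← e1]; module
      · show -(s + t) * nq y1 + s * nq y2 + t * nq y3 = 0
        linarith)
    exact ⟨this 1, this 2⟩
  refine le_trans (Nat.cast_le.2 (card_le_card ?_)) ((ha w hw).trans (by linarith))
  intro q hq
  obtain ⟨hqQ, hq⟩ := mem_filter.1 hq
  obtain ⟨z1, z2, z3, k1, k2, k3, j12, j13, j23⟩ := two_lt_card_iff.1 hq
  have hsp := span_three (ho x hx).2 j12 j13 j23 (mem k1) (mem k2) (mem k3)
  have hker : own x ≤ LinearMap.ker (isoF q (nq q - nq (x - q))) := by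
    rw [hsp, Submodule.span_le]
    rintro _ (rfl | rfl | rfl)
    · simpa [isoF_lift, sub_eq_zero] using (mem_filter.1 k1).2.2
    · simpa [isoF_lift, sub_eq_zero] using (mem_filter.1 k2).2.2
    · simpa [isoF_lift, sub_eq_zero] using (mem_filter.1 k3).2.2
  have f1 := LinearMap.mem_ker.1 (hker (mem m1))
  have f2 := LinearMap.mem_ker.1 (hker (mem m2))
  have f3 := LinearMap.mem_ker.1 (hker (mem m3))
  rw [isoF_lift, iso_nq_sub] at f1 f2 f3
  refine mem_filter.2 ⟨hqQ, fun i => ?_⟩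
  fin_cases i
  · show (y2 - y1) ⬝ᵥ q = (nq y2 - nq y1) / 2
    rw [sub_dotProduct, dotProduct_comm y2, dotProduct_comm y1]; linarith
  · show (y3 - y1) ⬝ᵥ q = (nq y3 - nq y1) / 2
    rw [sub_dotProduct, dotProduct_comm y3, dotProduct_comm y1]; linarith

/-- The count for one apex `q`. -/
lemma iso_one {Q : Finset (E d)} (hQ : Set.InjOn nq (Q : Set (E d))) (l : E d → Lab d)
    (own : E d → Submodule ℝ (LL d)) (q : E d) {K : ℝ}
    (hK : (#(Q.image fun x => (nq (x - q), l x)) : ℝ) ≤ K) :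
    (#{x ∈ Q | ¬ 2 < #{y ∈ Q | own y = own x ∧ nq (y - q) = nq (x - q)}} : ℝ) ^ 2 ≤
      K * (#{p ∈ prs Q l own | dual p ⬝ᵥ q = 1} + 2 * #Q) := by
  set G := {x ∈ Q | ¬ 2 < #{y ∈ Q | own y = own x ∧ nq (y - q) = nq (x - q)}} with hG
  have hGQ : G ⊆ Q := filter_subset _ _
  refine (iso_sq_card_le G fun x => (nq (x - q), l x)).trans (mul_le_mul ?_ ?_ (by positivity)
    (le_trans (by positivity) hK))
  · exact le_trans (Nat.cast_le.2 (card_le_card (image_subset_image hGQ))) hK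
  have h1 : {w ∈ G ×ˢ G | (nq (w.1 - q), l w.1) = (nq (w.2 - q), l w.2)} ⊆
      {p ∈ prs Q l own | dual p ⬝ᵥ q = 1} ∪
        {w ∈ G ×ˢ Q | own w.2 = own w.1 ∧ nq (w.2 - q) = nq (w.1 - q)} := by
    intro w hw
    obtain ⟨hw, e⟩ := mem_filter.1 hw
    obtain ⟨a1, a2⟩ := mem_product.1 hw
    obtain ⟨e1, e2⟩ := Prod.ext_iff.1 e
    by_cases h : own w.1 = own w.2
    · exact mem_union_right _ (mem_filter.2 ⟨mem_product.2 ⟨a1, hGQ a2⟩, h.symm, e1.symm⟩)
    · have hp : w ∈ prs Q l own := mem_filter.2 ⟨mem_product.2 ⟨hGQ a1, hGQ a2⟩, e2, h⟩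
      exact mem_union_left _ (mem_filter.2 ⟨hp, (dual_dot (iso_prs_ne hQ hp) q).2 e1⟩)
  have h2 : #{w ∈ G ×ˢ Q | own w.2 = own w.1 ∧ nq (w.2 - q) = nq (w.1 - q)} ≤ 2 * #Q := by
    refine le_trans (card_le_mul_card_image_of_maps_to (f := Prod.fst) (t := G) ?_ 2 ?_)
      (Nat.mul_le_mul_left _ (card_le_card hGQ))
    · intro w hw
      exact (mem_product.1 (mem_filter.1 hw).1).1
    · intro x hx
      refine le_trans (card_le_card_of_injOn Prod.snd ?_ ?_) (not_lt.1 (mem_filter.1 hx).2)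
      · intro w hw
        obtain ⟨hw1, rfl⟩ := mem_filter.1 (mem_coe.1 hw)
        obtain ⟨hw2, e⟩ := mem_filter.1 hw1
        exact mem_coe.2 (mem_filter.2 ⟨(mem_product.1 hw2).2, e⟩)
      · intro w hw w' hw' e
        exact Prod.ext ((mem_filter.1 (mem_coe.1 hw)).2.trans
          (mem_filter.1 (mem_coe.1 hw')).2.symm) e
  have h3 := (card_le_card h1).trans ((card_union_le _ _).trans (Nat.add_le_add_left h2 _))
  exact_mod_cast h3

theorem iso_lower {Q : Finset (E d)} (hQ : Set.InjOn nq (Q : Set (E d))) {l : E d → Lab d}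
    {own : E d → Submodule ℝ (LL d)} (ho : Own Q own) {N B t a : ℝ} (hN : Sep Q l N)
    (hB : (#(Q.image l) : ℝ) ≤ B) (ht : ∀ q ∈ Q, (pin Q q : ℝ) ≤ t) (ha : FlatBd Q 2 a)
    (h1 : 4 * a ≤ #Q) (h2 : 48 * (t * N + B) ≤ #Q) :
    (#Q : ℝ) ^ 3 ≤ 2 * (t * N + B) * Iso Q l own := by
  set K := t * N + B with hK
  set bad : E d → E d → Prop := fun q x =>
    2 < #{y ∈ Q | own y = own x ∧ nq (y - q) = nq (x - q)} with hbad
  set n : ℝ := (#Q : ℝ) with hn
  have n0 : 0 ≤ n := by positivity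
  have hI : (Iso Q l own : ℝ) = ∑ q ∈ Q, (#{p ∈ prs Q l own | dual p ⬝ᵥ q = 1} : ℝ) := by
    rw [Iso, card_filter, sum_product]
    push_cast
    refine sum_congr rfl fun q _ => ?_
    rw [card_filter]
    push_cast
    rfl
  have hG : 3 / 4 * n ^ 2 ≤ ∑ q ∈ Q, (#{x ∈ Q | ¬ bad q x} : ℝ) := by
    have e : ∑ q ∈ Q, (#{x ∈ Q | ¬ bad q x} : ℝ) = ∑ x ∈ Q, (#{q ∈ Q | ¬ bad q x} : ℝ) := by
      exact_mod_cast sum_card_bipartiteAbove_eq_sum_card_bipartiteBelow
        (s := Q) (t := Q) fun q x => ¬ bad q x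
    have : #Q • (3 / 4 * n) ≤ ∑ x ∈ Q, (#{q ∈ Q | ¬ bad q x} : ℝ) := by
      refine card_nsmul_le_sum _ _ _ fun x hx => ?_
      have a1 := iso_bad ho ha h1 hx
      have a2 : (#{q ∈ Q | bad q x} : ℝ) + #{q ∈ Q | ¬ bad q x} = n := by
        rw [hn]
        exact_mod_cast card_filter_add_card_filter_not (s := Q) fun q => bad q x
      linarith
    rw [nsmul_eq_mul] at this
    rw [e]
    linarith
  have hq : ∀ q ∈ Q, 3 / 2 * n * (#{x ∈ Q | ¬ bad q x} : ℝ) - (9 / 16 + 1 / 24) * n ^ 2 ≤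
      K * (#{p ∈ prs Q l own | dual p ⬝ᵥ q = 1} : ℝ) := by
    intro q hq
    have a1 := iso_one hQ l own q (iso_classes hN hB (ht q hq))
    have a2 := sq_nonneg ((#{x ∈ Q | ¬ bad q x} : ℝ) - 3 / 4 * n)
    have a3 : K * n ≤ n / 48 * n := mul_le_mul_of_nonneg_right (by linarith) n0
    nlinarith
  have hs := sum_le_sum hq
  rw [sum_sub_distrib, sum_const, nsmul_eq_mul, ← mul_sum, ← mul_sum, ← hI, ← hn] at hs
  have a4 := mul_le_mul_of_nonneg_left hG n0
  have a5 : 0 ≤ n ^ 3 := by positivity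
  nlinarith

theorem en2_le {Q : Finset (E d)} (hQ : Set.InjOn nq (Q : Set (E d))) {l : E d → Lab d}
    (own : E d → Submodule ℝ (LL d)) {N : ℝ} (hN : Sep Q l N) :
    (En2 Q l own : ℝ) ≤ N * En Q l own := by
  set P := prs Q l own with hP
  have h1 := card_eq_sum_card_fiberwise (s := {w ∈ P ×ˢ P | dual w.1 = dual w.2})
    (t := P.image dual) (f := fun w => dual w.1) (fun w hw =>
      mem_coe.2 (mem_image_of_mem dual (mem_product.1 (mem_filter.1 (mem_coe.1 hw)).1).1))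
  have h2 := card_eq_sum_card_fiberwise (s := quads Q l own)
    (t := P.image dual) (f := fun w => dual w.1) (fun w hw =>
      mem_coe.2 (mem_image_of_mem dual (mem_product.1 (mem_filter.1 (mem_coe.1 hw)).1).1))
  rw [En2, En, h1, h2]
  push_cast
  rw [mul_sum]
  refine sum_le_sum fun h _ => ?_
  set S := {p ∈ P | dual p = h} with hS
  have e1 : {w ∈ {w ∈ P ×ˢ P | dual w.1 = dual w.2} | dual w.1 = h} = S ×ˢ S := by
    ext w
    simp only [hS, mem_filter, mem_product]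
    constructor
    · rintro ⟨⟨⟨a, b⟩, c⟩, e⟩
      exact ⟨⟨a, e⟩, b, c ▸ e⟩
    · rintro ⟨⟨a, e⟩, b, c⟩
      exact ⟨⟨⟨a, b⟩, e.trans c.symm⟩, e⟩
  have e2 : {w ∈ S ×ˢ S | l w.1.1 = l w.2.1} ⊆ {w ∈ quads Q l own | dual w.1 = h} := by
    intro w hw
    obtain ⟨hw, e⟩ := mem_filter.1 hw
    obtain ⟨a, b⟩ := mem_product.1 hw
    obtain ⟨a1, a2⟩ := mem_filter.1 a
    obtain ⟨b1, b2⟩ := mem_filter.1 b
    exact mem_filter.2 ⟨mem_filter.2 ⟨mem_product.2 ⟨a1, b1⟩, e, a2.trans b2.symm⟩, a2⟩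
  have e3 : (#(S.image fun p => l p.1) : ℝ) ≤ N := by
    obtain ⟨φ, hφ, hev⟩ := exists_quad (d := d) 0 h (-1)
    have := hN φ hφ (S.image Prod.fst) (fun z hz => by
      obtain ⟨p, hp, rfl⟩ := mem_image.1 hz
      exact (mem_product.1 (mem_filter.1 (mem_filter.1 hp).1).1).1) (fun z hz => by
      obtain ⟨p, hp, rfl⟩ := mem_image.1 hz
      obtain ⟨hp, e⟩ := mem_filter.1 hp
      refine ⟨p.2, (mem_product.1 (mem_filter.1 hp).1).2, (mem_filter.1 hp).2.1.symm, ?_⟩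
      have := (dual_sign (iso_prs_ne hQ hp)).symm
      rw [hev, hev, ← e]
      simpa [sub_eq_add_neg] using this)
    rwa [image_image] at this
  rw [e1, card_product]
  push_cast
  rw [← sq]
  exact (iso_sq_card_le S fun p => l p.1).trans (mul_le_mul e3 (Nat.cast_le.2 (card_le_card e2))
    (by positivity) hN.nonneg)

theorem prs_le {Q : Finset (E d)} {l : E d → Lab d} (own : E d → Submodule ℝ (LL d)) {σ : ℝ}
    (hσ : Size Q l σ) : (#(prs Q l own) : ℝ) ≤ #Q * σ := by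
  have h := card_eq_sum_card_fiberwise (s := prs Q l own) (t := Q) (f := Prod.fst)
    (fun w hw => mem_coe.2 (mem_product.1 (mem_filter.1 (mem_coe.1 hw)).1).1)
  rw [h]
  push_cast
  rw [← nsmul_eq_mul]
  refine sum_le_card_nsmul _ _ _ fun x _ => le_trans (Nat.cast_le.2 ?_) (hσ (l x))
  refine card_le_card_of_injOn Prod.snd ?_ ?_
  · intro w hw
    obtain ⟨hw1, rfl⟩ := mem_filter.1 (mem_coe.1 hw)
    obtain ⟨hw2, e, -⟩ := mem_filter.1 hw1
    exact mem_coe.2 (mem_filter.2 ⟨(mem_product.1 hw2).2, e.symm⟩)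
  · intro w hw w' hw' e
    exact Prod.ext ((mem_filter.1 (mem_coe.1 hw)).2.trans
      (mem_filter.1 (mem_coe.1 hw')).2.symm) e

end Pool.Agent.P.MP_5f07f1_co
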