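import Pool.Agent.P.MP_5f07f1_co.Pack
import Pool.Agent.P.MP_5f07f1_co.Iso
import Pool.Agent.P.MP_5f07f1_co.Dual
import Pool.Agent.P.MP_5f07f1_co.IndA

/-! Task IND: the induction step (paper section 6). -/

namespace Pool.Agent.P.MP_5f07f1_co

open Finset MvPolynomial Pool.Agent.Lib.PolyPart Classical

variable {d : ℕ}

lemma FlatBd.mono {Q : Finset (E d)} {m : ℕ} {a a' : ℝ} (h : FlatBd Q m a) (ha : a ≤ a') :
    FlatBd Q m a' := fun w hw => (h w hw).trans ha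

lemma pin_shift (P : Finset (E d)) (o q : E d) :
    pin (P.image fun x => x - o) (q - o) = pin P q := by
  unfold pin
  rw [image_image]
  congr 2
  funext x
  simp

lemma flat_all (β : ℕ → ℝ) (hβ : ∀ e < d, PD e (β e)) {ε : ℝ} (hε : 0 < ε) : ∃ C : ℝ, 1 ≤ C ∧
    ∀ (Q : Finset (E d)) (t : ℝ), 1 ≤ t → (∀ q ∈ Q, (pin Q q : ℝ) ≤ t) → ∀ m, 1 ≤ m → m ≤ d →
      FlatBd Q m (C * t ^ ε * t ^ β (d - m)) := by
  have : ∀ e, ∃ C : ℝ, 0 ≤ C ∧ (e < d → ∀ (m : ℕ), d ≤ m + e → ∀ (P : Finset (E d)) (t : ℝ),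
      1 ≤ t → (∀ q ∈ P, (pin P q : ℝ) ≤ t) → FlatBd P m (C * t ^ (β e + ε))) := by
    intro e
    by_cases he : e < d
    · obtain ⟨C, h0, hC⟩ := (hβ e he).flat (β e + ε) (by linarith)
      exact ⟨C, h0, fun _ m hm => hC d m hm⟩
    · exact ⟨0, le_rfl, fun h => absurd h he⟩
  choose C h0 hC using this
  have hs : 0 ≤ ∑ e ∈ range d, C e := sum_nonneg fun e _ => h0 e
  refine ⟨1 + ∑ e ∈ range d, C e, by linarith, fun Q t ht hQ m h1 h2 => ?_⟩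
  refine (hC (d - m) (by omega) m (by omega) Q t ht hQ).mono ?_
  rw [Real.rpow_add (by linarith), mul_comm (t ^ β (d - m)), ← mul_assoc]
  have : C (d - m) ≤ ∑ e ∈ range d, C e :=
    single_le_sum (fun e _ => h0 e) (mem_range.2 (by omega))
  gcongr
  linarith

lemma pd_core (d : ℕ) (hd : 2 ≤ d) (β : ℕ → ℝ) (hβ : ∀ e < d, PD e (β e)) (h0 : β 0 = 0)
    (h1 : β 1 = 1) {b ρ g c : ℝ} (hg : 0 ≤ g) (hc : 0 ≤ c) (hc1 : g + c ≤ 1 / 3)
    (hc2 : g * d + c ≤ 2) (hc3 : ∀ j : ℕ, 2 ≤ j → j ≤ d → g * j + c ≤ (j - 1) / 3)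
    (hρ0 : 0 ≤ ρ) (hρ1 : ρ ≤ 1) (hρ : ∀ e : ℕ, 2 ≤ e → e < d → β e ≤ e * (1 - ρ))
    (h2 : β (d - 2) + 1 ≤ b + ρ) (h3 : 1 + (d - 1) * ρ ≤ b)
    (hA : d + 1 ≤ (2 + g + c / d) * b + (2 - d * g - c) * ρ)
    (hB : d + 1 - c ≤ (2 + g) * b + (1 - d * g - 2 * c) * ρ) {ε : ℝ} (hε : 0 < ε) :
    ∃ C₀ : ℝ, 1 ≤ C₀ ∧ ∀ (P : Finset (E d)) (n t : ℝ), n = #P → 1 ≤ n → 1 ≤ t →
      Set.InjOn nq (P : Set (E d)) → (∀ q ∈ P, (pin P q : ℝ) ≤ t) →
      n ≤ (C₀ * n ^ ε) ^ (4 * d + 9) * t ^ b := by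
  obtain ⟨C₁, hC₁, hflat⟩ := flat_all β hβ hε
  obtain ⟨C₂, hC₂, hpack⟩ := package d (by omega) hε hg hc hc1 hc2 hc3
  obtain ⟨C₃, hC₃, hdual⟩ := dual_bound d hε
  have hd' : (2 : ℝ) ≤ d := by exact_mod_cast hd
  refine ⟨C₁ + C₂ + C₃ + 96 + 8 * d, by linarith, fun P n t hn hn1 ht hinj hpin => ?_⟩
  generalize hw : (C₁ + C₂ + C₃ + 96 + 8 * d) * n ^ ε = w
  replace hw := hw.symm
  by_contra hcon
  push Not at hcon
  have hn0 : 0 < n := by linarith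
  have ht0 : 0 < t := by linarith
  have hne : 1 ≤ n ^ ε := Real.one_le_rpow hn1 hε.le
  have hwC : ∀ C : ℝ, C ≤ C₁ + C₂ + C₃ + 96 + 8 * d → C * n ^ ε ≤ w := fun C h => by
    rw [hw]; gcongr
  have hwC' : ∀ C : ℝ, 0 ≤ C → C ≤ C₁ + C₂ + C₃ + 96 + 8 * d → C ≤ w := fun C h0 h =>
    (le_mul_of_one_le_right h0 hne).trans (hwC C h)
  have hw96 : 96 ≤ w := hwC' _ (by norm_num) (by linarith)
  have hw1 : 1 ≤ w := by linarith
  have hw0 : 0 < w := by linarith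
  have hwd : 8 * d ≤ w := hwC' _ (by linarith) (by linarith)
  have hb1 : 1 ≤ b := by nlinarith
  have key : ∀ (k : ℕ) (x : ℝ), k ≤ 4 * d + 9 → x ≤ b → w ^ k * t ^ x ≤ n := fun k x hk hx => by
    refine le_trans ?_ hcon.le
    gcongr
  have htn : t ≤ n := by simpa using key 0 1 (by omega) hb1
  have hC₁w : C₁ * t ^ ε ≤ w := le_trans (by gcongr) (hwC C₁ (by linarith))
  obtain ⟨u, hu⟩ : ∃ u, u = C₂ * n ^ ε := ⟨_, rfl⟩
  have huw : u ≤ w := hu ▸ hwC _ (by linarith)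
  have hu1 : 1 ≤ u := hu ▸ one_le_mul_of_one_le_of_one_le hC₂ hne
  have hC₂w : C₂ ≤ w := hwC' _ (by linarith) (by linarith)
  have hvw : C₃ * n ^ ε ≤ w := hwC _ (by linarith)
  have htρ : 1 ≤ t ^ ρ := Real.one_le_rpow ht hρ0
  have hpow : ∀ k : ℕ, (t ^ ρ) ^ k = t ^ (k * ρ) := fun k => by
    rw [mul_comm, Real.rpow_mul ht0.le, Real.rpow_natCast]
  obtain ⟨Q, hQP, l, own, R, σ, S, q1, q2, q3, q4, q5, q6, q7, q8, q9, q10, q11, q12, q13⟩ :=
    hpack P hinj (t ^ ρ) n u hn hu hn1 htρ (by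
      rw [hpow]
      refine le_trans ?_ (key 1 (d * ρ) (by omega) (by linarith))
      gcongr; simpa)
  have hR1 : 1 ≤ R := htρ.trans q2
  have hS1 : 1 ≤ S := hR1.trans q4
  have hR0 : 0 < R := by linarith
  have hσ0 : 0 < σ := by linarith
  have hRw : R ≤ w * t ^ ρ := q3.trans (by gcongr)
  have hRt : R ≤ w * t := hRw.trans (by
    gcongr; simpa using Real.rpow_le_rpow_of_exponent_le ht hρ1)
  have hQn : (#Q : ℝ) ≤ n := by rw [hn]; exact_mod_cast card_le_card hQP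
  have hQw : n ≤ w * #Q := q1.trans (by gcongr)
  have hinjQ : Set.InjOn nq (Q : Set (E d)) := hinj.mono (coe_subset.2 hQP)
  have hpinQ : ∀ q ∈ Q, (pin Q q : ℝ) ≤ t := fun q hq =>
    le_trans (by exact_mod_cast pin_mono hQP q) (hpin q (hQP hq))
  have hfl : ∀ m, 1 ≤ m → m ≤ d → FlatBd Q m (w * t ^ β (d - m)) := fun m h1 h2 =>
    (hflat Q t ht hpinQ m h1 h2).mono (by gcongr)
  have hsep : Sep Q l (w * n / (σ * R)) := fun φ hφ A hA h =>
    (q9 φ hφ A hA h).trans (by gcongr)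
  have hcells : (#(Q.image l) : ℝ) ≤ w * t * (w * n / (σ * R)) := by
    calc (#(Q.image l) : ℝ) ≤ w * n / σ := by
          rw [le_div_iff₀ hσ0]; exact q8.trans (by gcongr)
      _ = R * (w * n / (σ * R)) := by field_simp
      _ ≤ _ := by gcongr
  obtain ⟨N, hN⟩ : ∃ N, N = w * n / (σ * R) := ⟨_, rfl⟩
  rw [← hN] at hsep hcells
  have hN0 : 0 < N := by rw [hN]; positivity
  have hBk : t * N + w * t * N ≤ 2 * w * t * N := by
    have : t * N ≤ w * t * N := by gcongr; exact le_mul_of_one_le_left ht0.le hw1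
    linarith
  obtain ⟨d', rfl⟩ : ∃ d', d = d' + 1 := ⟨d - 1, by omega⟩
  have hNR : N ≤ w * (w * t ^ ρ) ^ d' := by
    rw [hN, div_le_iff₀ (by positivity)]
    calc w * n ≤ w * (σ * R ^ (d' + 1)) := by gcongr
      _ = w * R ^ d' * (σ * R) := by ring
      _ ≤ _ := by gcongr
  have hiso := iso_lower hinjQ q10 hsep hcells hpinQ (hfl 2 (by omega) hd)
    (by
      refine le_of_mul_le_mul_left (le_trans ?_ hQw) hw0
      refine le_trans ?_ (key 3 (β (d' + 1 - 2)) (by omega) (by linarith))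
      calc w * (4 * (w * t ^ β (d' + 1 - 2))) ≤ w * (w * (w * t ^ β (d' + 1 - 2))) := by
            gcongr; linarith
        _ = _ := by ring)
    (by
      refine le_of_mul_le_mul_left (le_trans ?_ hQw) hw0
      refine le_trans ?_ (key (d' + 4) (1 + d' * ρ) (by omega) (by push_cast at h3; linarith))
      calc w * (48 * (t * N + w * t * N)) ≤ w * (48 * (2 * w * t * N)) := by gcongr
        _ = 96 * (w ^ 2 * t * N) := by ring
        _ ≤ w * (w ^ 2 * t * (w * (w * t ^ ρ) ^ d')) := by gcongr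
        _ = _ := by rw [Real.rpow_add ht0, Real.rpow_one, ← hpow]; ring)
  obtain ⟨X, hX⟩ : ∃ X, X = n ^ 2 * σ * R / (w ^ 7 * t) := ⟨_, rfl⟩
  have hX0 : 0 < X := by rw [hX]; positivity
  have hXI : X * (C₃ * n ^ ε) ≤ Iso Q l own := by
    have e : n ^ 3 ≤ w ^ 3 * (w * (w * t * N) * Iso Q l own) := by
      calc n ^ 3 ≤ (w * #Q) ^ 3 := by gcongr
        _ = w ^ 3 * (#Q : ℝ) ^ 3 := by ring
        _ ≤ w ^ 3 * (2 * (2 * w * t * N) * Iso Q l own) := by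
          gcongr; exact hiso.trans (by gcongr)
        _ = w ^ 3 * (4 * (w * t * N) * Iso Q l own) := by ring
        _ ≤ _ := by gcongr; linarith
    calc X * (C₃ * n ^ ε) ≤ X * w := by gcongr
      _ = n ^ 3 / (w ^ 3 * (w * (w * t * N))) := by rw [hX, hN]; field_simp
      _ ≤ _ := by rw [div_le_iff₀ (by positivity)]; linarith
  have hPP : (#(prs Q l own) : ℝ) ≤ n * σ := (prs_le own q6).trans (by gcongr)
  have hEE : (En2 Q l own : ℝ) ≤ N * (w * n * σ ^ (2 - g) * (R / S) ^ c) :=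
    (en2_le hinjQ own hsep).trans (by gcongr; exact q11.trans (by gcongr))
  obtain ⟨a, m, ha0, hm1, hfa, ham, hm⟩ : ∃ a m : ℝ, 0 ≤ a ∧ 1 ≤ m ∧ FlatBd Q d' (w * a) ∧
      a * R ≤ t * m ∧ (m = 1 ∨ (m = R ∧ t ≤ S * R)) := by
    by_cases h : S * R ≤ t
    · refine ⟨S, 1, by linarith, le_rfl, fun v hv => ?_, by linarith, Or.inl rfl⟩
      have := q12 _ (isDim_flat (e := 1) le_rfl hv)
      exact le_trans (by simpa using this) (by gcongr)
    · refine ⟨t, R, ht0.le, hR1, ?_, le_rfl, Or.inr ⟨rfl, by linarith⟩⟩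
      simpa [h1] using hfl d' (by omega) (by omega)
  obtain ⟨Y, hY⟩ : ∃ Y, Y = w ^ 8 * t / R := ⟨_, rfl⟩
  have hwY : w * t / R ≤ Y := by
    rw [hY]; gcongr; exact le_self_pow₀ hw1 (by norm_num)
  have hY1 : 1 ≤ Y := le_trans (by rw [le_div_iff₀ hR0]; linarith) hwY
  have hfin := hdual (prs Q l own) Q (fun k => if k = d' then w * a else w * t ^ β (d' + 1 - k))
    (w * t ^ β (d' + 1 - 2)) X (n * σ) _ n
    (fun k h1 h2 => by
      split_ifs with h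
      · exact h ▸ hfa
      · exact hfl k h1 h2)
    (fun k => by split_ifs <;> positivity) (hfl 2 (by omega) hd) (by positivity) hPP hEE hn1
    (by
      have : #(prs Q l own) ≤ #Q * #Q := (card_filter_le _ _).trans (card_product _ _).le
      calc (#(prs Q l own) : ℝ) ≤ #Q * #Q := by exact_mod_cast this
        _ ≤ n * n := by gcongr
        _ = _ := by ring)
    hQn hX0 hXI
    (by
      rw [hX, le_div_iff₀ (by positivity)]
      have e := key 9 (β (d' + 1 - 2) + 1 - ρ) (by omega) (by linarith)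
      rw [Real.rpow_sub ht0, Real.rpow_add ht0, Real.rpow_one, ← mul_div_assoc,
        div_le_iff₀ (by positivity)] at e
      calc 4 * (n * σ) * (w * t ^ β (d' + 1 - 2)) * (w ^ 7 * t)
          ≤ w * (n * σ) * (w * t ^ β (d' + 1 - 2)) * (w ^ 7 * t) := by gcongr; linarith
        _ = n * σ * (w ^ 9 * (t ^ β (d' + 1 - 2) * t)) := by ring
        _ ≤ n * σ * (n * R) :=
          mul_le_mul_of_nonneg_left (e.trans (by gcongr)) (by positivity)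
        _ = _ := by ring)
  have hy : 4 * #Q * (n * σ) / X ≤ Y := by
    calc 4 * #Q * (n * σ) / X ≤ w * n * (n * σ) / X := by gcongr; linarith
      _ = Y := by rw [hX, hY]; field_simp
  have hterm := term_le d' β h0 hρ ht hw1 hR1 hRw hwY hY1 hm1 ham (by positivity) hy
  have hsum := sum_le_card_nsmul _ _ _ hterm
  rw [Nat.card_Icc, nsmul_eq_mul, Nat.add_sub_cancel] at hsum
  refine absurd (ind_mul hd hg hc hc1 hc2 hA hB hn1 ht hw1 hR1 hS1 q5 q2 hRw q7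
    (q13.trans (by gcongr)) hm ?_) (not_le.2 hcon)
  rw [← hX, ← hN, ← hY, Nat.add_sub_cancel]
  refine hfin.trans ?_
  calc _ ≤ 8 * n * (N * (w * n * σ ^ (2 - g) * (R / S) ^ c)) *
        (((d' + 1 : ℕ) : ℝ) * (w * Y ^ d' * m)) := by gcongr
    _ = 8 * ((d' + 1 : ℕ) : ℝ) * 1 * (w * n * (N * (w * n * σ ^ (2 - g) * (R / S) ^ c)) *
        Y ^ d' * m) := by ring
    _ ≤ w * w * (w * n * (N * (w * n * σ ^ (2 - g) * (R / S) ^ c)) * Y ^ d' * m) := by gcongr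
    _ = _ := by ring

theorem pd_step (d : ℕ) (hd : 2 ≤ d) (β : ℕ → ℝ) (hβ : ∀ e < d, PD e (β e)) (h0 : β 0 = 0)
    (h1 : β 1 = 1) {b ρ g c : ℝ} (hg : 0 ≤ g) (hc : 0 ≤ c) (hc1 : g + c ≤ 1 / 3)
    (hc2 : g * d + c ≤ 2) (hc3 : ∀ j : ℕ, 2 ≤ j → j ≤ d → g * j + c ≤ (j - 1) / 3)
    (hρ0 : 0 ≤ ρ) (hρ1 : ρ ≤ 1) (hρ : ∀ e : ℕ, 2 ≤ e → e < d → β e ≤ e * (1 - ρ))
    (h2 : β (d - 2) + 1 ≤ b + ρ) (h3 : 1 + (d - 1) * ρ ≤ b)
    (hA : d + 1 ≤ (2 + g + c / d) * b + (2 - d * g - c) * ρ)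
    (hB : d + 1 - c ≤ (2 + g) * b + (1 - d * g - 2 * c) * ρ) : PD d b := by
  intro b' hb'
  have hd' : (2 : ℝ) ≤ d := by exact_mod_cast hd
  obtain ⟨ε, hε, hab⟩ := absorb (b := b) (by nlinarith) hb' (4 * d + 9)
  obtain ⟨C₀, hC₀, hcore⟩ :=
    pd_core d hd β hβ h0 h1 hg hc hc1 hc2 hc3 hρ0 hρ1 hρ h2 h3 hA hB hε
  obtain ⟨C, hC, habs⟩ := hab C₀ hC₀
  refine ⟨C, fun P t ht hP => ?_⟩
  rcases P.eq_empty_or_nonempty with rfl | hne
  · simp only [card_empty, Nat.cast_zero]; positivity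
  obtain ⟨o, ho⟩ := exists_shift P
  have hn : (1 : ℝ) ≤ #P := by exact_mod_cast hne.card_pos
  refine habs _ t hn ht (hcore (P.image fun x => x - o) _ t ?_ hn ht ?_ ?_)
  · rw [card_image_of_injective _ (sub_left_injective)]
  · rw [coe_image]
    rintro _ ⟨x, hx, rfl⟩ _ ⟨y, hy, rfl⟩ h
    rw [ho hx hy h]
  · intro q hq
    obtain ⟨x, hx, rfl⟩ := mem_image.1 hq
    rw [pin_shift]
    exact hP x hx

end Pool.Agent.P.MP_5f07f1_co
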