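import Pool.Agent.P.MP_5f07f1_co.PackB
import Pool.Agent.P.MP_5f07f1_co.Ind

/-! The induction step with the level chosen after the profile of the tree is known. -/

namespace Pool.Agent.P.MP_5f07f1_co

open Finset MvPolynomial Pool.Agent.Lib.PolyPart Classical

lemma ib_term (d : ℕ) (β : ℕ → ℝ) (h0 : β 0 = 0) {t w Y Y' m a y : ℝ} (hw : 0 ≤ w)
    (hY' : 0 ≤ Y') (hY : Y' ≤ Y) (hm : 1 ≤ m) (ha : a ≤ Y' * m)
    (hβ : ∀ e : ℕ, 2 ≤ e → e ≤ d → t ^ β e ≤ Y' ^ e * m) (hy0 : 0 ≤ y) (hy : y ≤ Y) :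
    ∀ k ∈ Icc 1 (d + 1),
      (if k = d then w * a else w * t ^ β (d + 1 - k)) * y ^ (k - 1) ≤ w * Y ^ d * m := by
  intro k hk
  rw [mem_Icc] at hk
  have hY0 : 0 ≤ Y := hY'.trans hY
  have hm0 : 0 ≤ m := by linarith
  have hyk : y ^ (k - 1) ≤ Y ^ (k - 1) := pow_le_pow_left₀ hy0 hy _
  split_ifs with h
  · have e : a ≤ Y * m := ha.trans (by gcongr)
    calc w * a * y ^ (k - 1) ≤ w * (Y * m) * Y ^ (k - 1) := by gcongr
      _ = w * Y ^ (k - 1 + 1) * m := by ring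
      _ = _ := by rw [show k - 1 + 1 = d by omega]
  · have e : t ^ β (d + 1 - k) ≤ Y ^ (d + 1 - k) * m := by
      by_cases h' : k = d + 1
      · simpa [h', h0] using hm
      · exact (hβ _ (by omega) (by omega)).trans (by gcongr)
    calc w * t ^ β (d + 1 - k) * y ^ (k - 1) ≤ w * (Y ^ (d + 1 - k) * m) * Y ^ (k - 1) := by gcongr
      _ = w * Y ^ (d + 1 - k + (k - 1)) * m := by ring
      _ = _ := by rw [show d + 1 - k + (k - 1) = d by omega]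

/-- The inequality of one admissible level. -/
lemma ib_mul (d : ℕ) (hd : 1 ≤ d) (β : ℕ → ℝ) (h0 : β 0 = 0) {Q : Finset (E (d + 1))}
    {l : E (d + 1) → Lab (d + 1)} {own : E (d + 1) → Submodule ℝ (LL (d + 1))}
    {n t w R σ F a m v : ℝ}
    (hdual : ∀ (S : Finset (E (d + 1) × E (d + 1))) (A : ℕ → ℝ) (A' X PP EE : ℝ),
      (∀ m, 1 ≤ m → m ≤ d + 1 → FlatBd Q m (A m)) → (∀ m, 0 ≤ A m) → FlatBd Q 2 A' → 0 ≤ A' →
      (#S : ℝ) ≤ PP → (#{w ∈ S ×ˢ S | dual w.1 = dual w.2} : ℝ) ≤ EE → (#S : ℝ) ≤ n ^ 2 →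
      0 < X → X * v ≤ #{w ∈ Q ×ˢ S | dual w.2 ⬝ᵥ w.1 = 1} → 4 * PP * A' ≤ X →
      X ^ 2 ≤ 8 * #Q * EE * ∑ m ∈ Icc 1 (d + 1), A m * (4 * #Q * PP / X) ^ (m - 1))
    (hn1 : 1 ≤ n) (ht : 1 ≤ t) (hw96 : 96 ≤ w) (hwd : 8 * ((d + 1 : ℕ) : ℝ) ≤ w) (hvw : v ≤ w)
    (hR1 : 1 ≤ R) (hσ0 : 0 < σ) (hF : 0 ≤ F) (hRt : R ≤ w * t) (hQn : (#Q : ℝ) ≤ n)
    (hQw : n ≤ w * #Q) (hinjQ : Set.InjOn nq (Q : Set (E (d + 1)))) (ho : Own Q own)
    (hpinQ : ∀ q ∈ Q, (pin Q q : ℝ) ≤ t)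
    (hfl : ∀ m, 1 ≤ m → m ≤ d + 1 → FlatBd Q m (w * t ^ β (d + 1 - m)))
    (hsz : Size Q l σ) (hcell : #(Q.image l) * σ ≤ w * n) (hsep : Sep Q l (w * n / (σ * R)))
    (hEn : (En Q l own : ℝ) ≤ w * n * F) (ha0 : 0 ≤ a) (hm1 : 1 ≤ m) (hfa : FlatBd Q d (w * a))
    (ham : a * R ≤ t * m) (hβ : ∀ e : ℕ, 2 ≤ e → e ≤ d → t ^ β e ≤ (w * t / R) ^ e * m)
    (k1 : w ^ 3 * t ^ β (d + 1 - 2) ≤ n) (k2 : w ^ 4 * t ≤ σ * R)
    (k3 : w ^ 9 * (t ^ β (d + 1 - 2) * t) ≤ n * R) :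
    (n ^ 2 * σ * R / (w ^ 7 * t)) ^ 2 ≤
      w ^ 3 * n * (w * n / (σ * R) * (w * n * F)) * (w ^ 8 * t / R) ^ d * m := by
  have hn0 : 0 < n := by linarith
  have ht0 : 0 < t := by linarith
  have hw1 : 1 ≤ w := by linarith
  have hw0 : 0 < w := by linarith
  have hR0 : 0 < R := by linarith
  have hcells : (#(Q.image l) : ℝ) ≤ w * t * (w * n / (σ * R)) := by
    calc (#(Q.image l) : ℝ) ≤ w * n / σ := by
          rw [le_div_iff₀ hσ0]; exact hcell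
      _ = R * (w * n / (σ * R)) := by field_simp
      _ ≤ _ := by gcongr
  obtain ⟨N, hN⟩ : ∃ N, N = w * n / (σ * R) := ⟨_, rfl⟩
  rw [← hN] at hsep hcells
  have hN0 : 0 < N := by rw [hN]; positivity
  have hBk : t * N + w * t * N ≤ 2 * w * t * N := by
    have : t * N ≤ w * t * N := by gcongr; exact le_mul_of_one_le_left ht0.le hw1
    linarith
  have hiso := iso_lower hinjQ ho hsep hcells hpinQ (hfl 2 (by omega) (by omega))
    (by
      refine le_of_mul_le_mul_left (le_trans ?_ hQw) hw0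
      refine le_trans ?_ k1
      calc w * (4 * (w * t ^ β (d + 1 - 2))) ≤ w * (w * (w * t ^ β (d + 1 - 2))) := by
            gcongr; linarith
        _ = _ := by ring)
    (by
      refine le_of_mul_le_mul_left (le_trans ?_ hQw) hw0
      calc w * (48 * (t * N + w * t * N)) ≤ w * (48 * (2 * w * t * N)) := by gcongr
        _ = 96 * (w ^ 2 * t * N) := by ring
        _ ≤ w * (w ^ 2 * t * N) := by gcongr
        _ = w ^ 4 * t * (n / (σ * R)) := by rw [hN]; ring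
        _ ≤ σ * R * (n / (σ * R)) := by gcongr
        _ = n := by field_simp)
  obtain ⟨X, hX⟩ : ∃ X, X = n ^ 2 * σ * R / (w ^ 7 * t) := ⟨_, rfl⟩
  have hX0 : 0 < X := by rw [hX]; positivity
  have hXI : X * v ≤ Iso Q l own := by
    have e : n ^ 3 ≤ w ^ 3 * (w * (w * t * N) * Iso Q l own) := by
      calc n ^ 3 ≤ (w * #Q) ^ 3 := by gcongr
        _ = w ^ 3 * (#Q : ℝ) ^ 3 := by ring
        _ ≤ w ^ 3 * (2 * (2 * w * t * N) * Iso Q l own) := by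
          gcongr; exact hiso.trans (by gcongr)
        _ = w ^ 3 * (4 * (w * t * N) * Iso Q l own) := by ring
        _ ≤ _ := by gcongr; linarith
    calc X * v ≤ X * w := by gcongr
      _ = n ^ 3 / (w ^ 3 * (w * (w * t * N))) := by rw [hX, hN]; field_simp
      _ ≤ _ := by rw [div_le_iff₀ (by positivity)]; linarith
  have hPP : (#(prs Q l own) : ℝ) ≤ n * σ := (prs_le own hsz).trans (by gcongr)
  have hEE : (En2 Q l own : ℝ) ≤ N * (w * n * F) :=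
    (en2_le hinjQ own hsep).trans (by gcongr)
  obtain ⟨Y, hY⟩ : ∃ Y, Y = w ^ 8 * t / R := ⟨_, rfl⟩
  have hwY : w * t / R ≤ Y := by
    rw [hY]; gcongr; exact le_self_pow₀ hw1 (by norm_num)
  have hfin := hdual (prs Q l own) (fun k => if k = d then w * a else w * t ^ β (d + 1 - k))
    (w * t ^ β (d + 1 - 2)) X (n * σ) _
    (fun k h1 h2 => by
      split_ifs with h
      · exact h ▸ hfa
      · exact hfl k h1 h2)
    (fun k => by split_ifs <;> positivity) (hfl 2 (by omega) (by omega)) (by positivity) hPP hEE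
    (by
      have : #(prs Q l own) ≤ #Q * #Q := (card_filter_le _ _).trans (card_product _ _).le
      calc (#(prs Q l own) : ℝ) ≤ #Q * #Q := by exact_mod_cast this
        _ ≤ n * n := by gcongr
        _ = _ := by ring)
    hX0 hXI
    (by
      rw [hX, le_div_iff₀ (by positivity)]
      calc 4 * (n * σ) * (w * t ^ β (d + 1 - 2)) * (w ^ 7 * t)
          ≤ w * (n * σ) * (w * t ^ β (d + 1 - 2)) * (w ^ 7 * t) := by gcongr; linarith
        _ = n * σ * (w ^ 9 * (t ^ β (d + 1 - 2) * t)) := by ring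
        _ ≤ n * σ * (n * R) := mul_le_mul_of_nonneg_left k3 (by positivity)
        _ = _ := by ring)
  have hy : 4 * #Q * (n * σ) / X ≤ Y := by
    calc 4 * #Q * (n * σ) / X ≤ w * n * (n * σ) / X := by gcongr; linarith
      _ = Y := by rw [hX, hY]; field_simp
  have hterm := ib_term d β h0 hw0.le (by positivity) hwY hm1 (a := a) (by
    calc a ≤ t * m / R := by rw [le_div_iff₀ hR0]; exact ham
      _ = t / R * m := by ring
      _ ≤ _ := mul_le_mul_of_nonneg_right (div_le_div_of_nonneg_right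
        (le_mul_of_one_le_left ht0.le hw1) hR0.le) (by linarith)) hβ (by positivity) hy
  have hsum := sum_le_card_nsmul _ _ _ hterm
  rw [Nat.card_Icc, nsmul_eq_mul, Nat.add_sub_cancel] at hsum
  have hY0 : 0 ≤ Y := le_trans (by positivity) hwY
  rw [← hX, ← hN, ← hY]
  refine hfin.trans ?_
  calc _ ≤ 8 * n * (N * (w * n * F)) * (((d + 1 : ℕ) : ℝ) * (w * Y ^ d * m)) := by gcongr
    _ = 8 * ((d + 1 : ℕ) : ℝ) * 1 * (w * n * (N * (w * n * F)) * Y ^ d * m) := by ring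
    _ ≤ w * w * (w * n * (N * (w * n * F)) * Y ^ d * m) := by gcongr
    _ = _ := by ring

/-- The same inequality between logarithms. -/
lemma ib_log (d : ℕ) (hd : 1 ≤ d) (β : ℕ → ℝ) (h0 : β 0 = 0) {Q : Finset (E (d + 1))}
    {l : E (d + 1) → Lab (d + 1)} {own : E (d + 1) → Submodule ℝ (LL (d + 1))}
    {ν τ ω u v S p r ς W α μ : ℝ}
    (hdual : ∀ (S : Finset (E (d + 1) × E (d + 1))) (A : ℕ → ℝ) (A' X PP EE : ℝ),
      (∀ m, 1 ≤ m → m ≤ d + 1 → FlatBd Q m (A m)) → (∀ m, 0 ≤ A m) → FlatBd Q 2 A' → 0 ≤ A' →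
      (#S : ℝ) ≤ PP → (#{w ∈ S ×ˢ S | dual w.1 = dual w.2} : ℝ) ≤ EE →
      (#S : ℝ) ≤ Real.exp ν ^ 2 →
      0 < X → X * v ≤ #{w ∈ Q ×ˢ S | dual w.2 ⬝ᵥ w.1 = 1} → 4 * PP * A' ≤ X →
      X ^ 2 ≤ 8 * #Q * EE * ∑ m ∈ Icc 1 (d + 1), A m * (4 * #Q * PP / X) ^ (m - 1))
    (hν : 0 ≤ ν) (hτ : 0 ≤ τ) (hw96 : 96 ≤ Real.exp ω) (hwd : 8 * ((d + 1 : ℕ) : ℝ) ≤ Real.exp ω)
    (hvw : v ≤ Real.exp ω) (huw : u ≤ Real.exp ω) (hr : 0 ≤ r) (hRt : r ≤ ω + τ)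
    (hQn : (#Q : ℝ) ≤ Real.exp ν) (hQw : Real.exp ν ≤ Real.exp ω * #Q)
    (hinjQ : Set.InjOn nq (Q : Set (E (d + 1)))) (ho : Own Q own)
    (hpinQ : ∀ q ∈ Q, (pin Q q : ℝ) ≤ Real.exp τ)
    (hfl : ∀ m, 1 ≤ m → m ≤ d + 1 → FlatBd Q m (Real.exp ω * Real.exp τ ^ β (d + 1 - m)))
    (hL : LevelData Q own (Real.exp ν) u S p l r ς)
    (hW : ∀ r' ς' : ℝ, r ≤ r' → 0 ≤ ς' → ς - (d + 1) * (r' - r) ≤ ς' → S - r' ≤ ς' →
      S + p - 2 * r' ≤ ς' → W ≤ 2 * r' + max ((ς' - max (p - r') 0) / 3) (ς' / 5))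
    (hμ : 0 ≤ μ) (hfa : FlatBd Q d (Real.exp ω * Real.exp α)) (ham : α + r ≤ τ + μ)
    (hβ : ∀ e : ℕ, 2 ≤ e → e ≤ d → β e * τ ≤ e * (ω + τ - r) + μ)
    (k1 : 3 * ω + β (d + 1 - 2) * τ ≤ ν) (k2 : 4 * ω + τ ≤ ς + r)
    (k3 : 9 * ω + β (d + 1 - 2) * τ + τ ≤ ν + r) :
    ν + ς + (d + 1) * r + W ≤ (d + 2) * τ + μ + (8 * d + 19) * ω := by
  have h := ib_mul d hd β h0 (l := l) (R := Real.exp r) (σ := Real.exp ς)
    (F := Real.exp (2 * ς + 2 * r - W)) (a := Real.exp α) (m := Real.exp μ) hdual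
    (Real.one_le_exp hν) (Real.one_le_exp hτ) hw96 hwd hvw (Real.one_le_exp hr) (Real.exp_pos _)
    (Real.exp_pos _).le (by rw [← Real.exp_add]; exact Real.exp_le_exp.2 hRt) hQn hQw hinjQ ho
    hpinQ hfl hL.size (hL.cells.trans (by gcongr))
    (fun φ hφ A hA h => (hL.sep φ hφ A hA h).trans (by gcongr))
    ((hL.en W fun r' ς' h1 h2 h3 => hW r' ς' h1 h2 (by push_cast at h3; exact h3)).trans
      (by gcongr)) (Real.exp_pos _).le (Real.one_le_exp hμ) hfa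
    (by rw [← Real.exp_add, ← Real.exp_add]; exact Real.exp_le_exp.2 ham)
    (fun e h1 h2 => by
      simp only [← Real.exp_mul, ← Real.exp_add, ← Real.exp_sub, ← Real.exp_nat_mul]
      exact Real.exp_le_exp.2 (by have := hβ e h1 h2; linarith))
    (by
      simp only [← Real.exp_mul, ← Real.exp_add, ← Real.exp_nat_mul]
      exact Real.exp_le_exp.2 (by push_cast at k1 k3 ⊢; linarith))
    (by
      simp only [← Real.exp_add, ← Real.exp_nat_mul]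
      exact Real.exp_le_exp.2 (by push_cast; linarith))
    (by
      simp only [← Real.exp_mul, ← Real.exp_add, ← Real.exp_nat_mul]
      exact Real.exp_le_exp.2 (by push_cast at k1 k3 ⊢; linarith))
  simp only [← Real.exp_add, ← Real.exp_sub, ← Real.exp_nat_mul] at h
  have := Real.exp_le_exp.1 h
  push_cast at this
  linarith

/-- The linear condition for the low level. -/
def LowOK (d b ρ0 ρ1 : ℝ) : Prop :=
  ∀ τ S P r ς : ℝ, 0 ≤ τ → ρ0 * τ ≤ r → b * τ - d * r ≤ ς → S - r ≤ ς → S + P - 2 * r ≤ ς →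
    0 ≤ ς → S ≤ τ → P ≤ S → S + P ≤ (1 + ρ1) * τ → ∀ m z : ℝ,
    (m = 0 ∨ m = S + ρ0 * τ - τ) → ς / 5 ≤ z → (ς / 3 ≤ z ∨ (ς - (P - r)) / 3 ≤ z) →
    (d + 1 - 2 * b) * τ + m ≤ 2 * r + z

lemma pd_coreB (d : ℕ) (hd : 1 ≤ d) (β : ℕ → ℝ) (hβ : ∀ e < d + 1, PD e (β e)) (h0 : β 0 = 0)
    (h1 : β 1 = 1) {b ρ0 ρ1 g : ℝ} (hρ0 : 0 ≤ ρ0) (hρ01 : ρ0 ≤ ρ1) (hρ1 : ρ1 ≤ 1)
    (hg0 : 0 ≤ g) (hg : g ≤ 1 / 5) (hgd : g * (d + 1) ≤ 2)
    (he0 : ∀ e : ℕ, 2 ≤ e → e ≤ d → β e ≤ e * (1 - ρ0))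
    (he1 : ∀ e : ℕ, 2 ≤ e → e ≤ d → β e ≤ e * (1 - ρ1) + ρ1)
    (h2 : β (d + 1 - 2) + 1 ≤ b + ρ0) (h3 : 1 + d * ρ0 ≤ b) (h4 : (d + 1) * ρ1 ≤ b)
    (hA : d + 1 ≤ b + g + (d + 1 - g) * ρ1) (hB : LowOK (d + 1) b ρ0 ρ1) {ε : ℝ} (hε : 0 < ε) :
    ∃ C₀ : ℝ, 1 ≤ C₀ ∧ ∀ (P : Finset (E (d + 1))) (n t : ℝ), n = #P → 1 ≤ n → 1 ≤ t →
      Set.InjOn nq (P : Set (E (d + 1))) → (∀ q ∈ P, (pin P q : ℝ) ≤ t) →
      n ≤ (C₀ * n ^ ε) ^ (8 * d + 19) * t ^ b := by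
  obtain ⟨C₁, hC₁, hflat⟩ := flat_all β hβ hε
  obtain ⟨C₂, hC₂, hpack⟩ := packageB (d + 1) (by omega) hε
  obtain ⟨C₃, hC₃, hdual⟩ := dual_bound (d + 1) hε
  have hd' : (1 : ℝ) ≤ d := by exact_mod_cast hd
  refine ⟨C₁ + C₂ + C₃ + 104 + 8 * d, by linarith, fun P n t hn hn1 ht hinj hpin => ?_⟩
  generalize hw : (C₁ + C₂ + C₃ + 104 + 8 * d) * n ^ ε = w
  replace hw := hw.symm
  by_contra hcon
  push Not at hcon
  have hn0 : 0 < n := by linarith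
  have ht0 : 0 < t := by linarith
  have hne : 1 ≤ n ^ ε := Real.one_le_rpow hn1 hε.le
  have hwC : ∀ C : ℝ, C ≤ C₁ + C₂ + C₃ + 104 + 8 * d → C * n ^ ε ≤ w := fun C h => by
    rw [hw]; gcongr
  have hwC' : ∀ C : ℝ, 0 ≤ C → C ≤ C₁ + C₂ + C₃ + 104 + 8 * d → C ≤ w := fun C h0 h =>
    (le_mul_of_one_le_right h0 hne).trans (hwC C h)
  have hw96 : 96 ≤ w := hwC' _ (by norm_num) (by linarith)
  have hw1 : 1 ≤ w := by linarith
  have hw0 : 0 < w := by linarith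
  have hwd : 8 * ((d + 1 : ℕ) : ℝ) ≤ w := hwC' _ (by positivity) (by push_cast; linarith)
  have hb1 : 1 ≤ b := by nlinarith
  have htn : t ≤ n := by
    refine le_trans ?_ hcon.le
    calc t = 1 * t ^ (1 : ℝ) := by simp
      _ ≤ _ := by gcongr; exact one_le_pow₀ hw1
  have hC₁w : C₁ * t ^ ε ≤ w := le_trans (by gcongr) (hwC C₁ (by linarith))
  obtain ⟨u, hu⟩ : ∃ u, u = C₂ * n ^ ε := ⟨_, rfl⟩
  have huw : u ≤ w := hu ▸ hwC _ (by linarith)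
  have hC₂w : C₂ ≤ w := hwC' _ (by linarith) (by linarith)
  have hvw : C₃ * n ^ ε ≤ w := hwC _ (by linarith)
  obtain ⟨Q, hQP, own, S, p, q1, ho, hpS, hline, hlev⟩ := hpack P hinj n u hn hu hn1
  have hQn : (#Q : ℝ) ≤ n := by rw [hn]; exact_mod_cast card_le_card hQP
  have hQw : n ≤ w * #Q := q1.trans (by gcongr)
  have hinjQ : Set.InjOn nq (Q : Set (E (d + 1))) := hinj.mono (coe_subset.2 hQP)
  have hpinQ : ∀ q ∈ Q, (pin Q q : ℝ) ≤ t := fun q hq =>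
    le_trans (by exact_mod_cast pin_mono hQP q) (hpin q (hQP hq))
  have hfl : ∀ m, 1 ≤ m → m ≤ d + 1 → FlatBd Q m (w * t ^ β (d + 1 - m)) := fun m h1 h2 =>
    (hflat Q t ht hpinQ m h1 h2).mono (by gcongr)
  have hdu := fun S A A' X PP EE a1 a2 a3 a4 a5 a6 a7 =>
    hdual S Q A A' X PP EE n a1 a2 a3 a4 a5 a6 hn1 a7 hQn
  generalize C₃ * n ^ ε = v at hdu hvw
  clear hdual hflat hpack hwC hwC' hC₁w hu hw hne hn hpin hinj
  obtain ⟨ν, rfl⟩ : ∃ ν, n = Real.exp ν := ⟨_, (Real.exp_log hn0).symm⟩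
  obtain ⟨τ, rfl⟩ : ∃ τ, t = Real.exp τ := ⟨_, (Real.exp_log ht0).symm⟩
  obtain ⟨ω, rfl⟩ : ∃ ω, w = Real.exp ω := ⟨_, (Real.exp_log hw0).symm⟩
  have hν : 0 ≤ ν := Real.one_le_exp_iff.1 hn1
  have hτ : 0 ≤ τ := Real.one_le_exp_iff.1 ht
  have hω : 0 ≤ ω := Real.one_le_exp_iff.1 hw1
  rw [← Real.exp_mul, ← Real.exp_nat_mul, ← Real.exp_add, Real.exp_lt_exp] at hcon
  push_cast at hcon
  have hdω : 0 ≤ d * ω := by positivity
  have hlev' : ∀ ρ : ℝ, 0 ≤ ρ → ρ ≤ ρ1 → ∃ (l : E (d + 1) → Lab (d + 1)) (r ς : ℝ),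
      ρ * τ ≤ r ∧ r ≤ ω + ρ * τ ∧ LevelData Q own (Real.exp ν) u S p l r ς := by
    intro ρ a0 a1
    obtain ⟨l, r, ς, c1, c2, c3⟩ := hlev (Real.exp (ρ * τ)) (Real.one_le_exp (by positivity)) (by
      refine le_trans (mul_le_mul_of_nonneg_right huw (by positivity)) ?_
      rw [← Real.exp_nat_mul, ← Real.exp_add, Real.exp_le_exp]
      push_cast
      have : (d + 1) * ρ * τ ≤ b * τ := by
        refine mul_le_mul_of_nonneg_right (le_trans ?_ h4) hτ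
        gcongr
      linarith)
    refine ⟨l, r, ς, Real.exp_le_exp.1 c1, Real.exp_le_exp.1 (c2.trans ?_), c3⟩
    rw [Real.exp_add]
    gcongr
  have m1 := mul_le_mul_of_nonneg_right hρ1 hτ
  have m2 := mul_le_mul_of_nonneg_right hρ01 hτ
  have m3 := mul_nonneg hρ0 hτ
  have m4 := mul_le_mul_of_nonneg_right h2 hτ
  obtain ⟨l1, r1, ς1, c1, c2, L1⟩ := hlev' ρ1 (hρ0.trans hρ01) le_rfl
  by_cases hcase : 4 * ω + τ ≤ ς1 + r1
  · have key := ib_log d hd β h0 hdu hν hτ hw96 hwd hvw huw (by linarith) (by linarith) hQn hQw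
      hinjQ ho hpinQ hfl L1 (W := 2 * r1 + g * ς1) (α := τ) (μ := r1)
      (fun r' ς' a1 a2 a3 _ _ => by
        have b1 := mul_le_mul_of_nonneg_left a3 hg0
        have b2 := mul_le_mul_of_nonneg_right hgd (sub_nonneg.2 a1)
        have b3 := mul_le_mul_of_nonneg_right hg a2
        have b4 := le_max_right ((ς' - max (p - r') 0) / 3) (ς' / 5)
        linarith)
      (by linarith) (by simpa [h1] using hfl d hd (by omega)) le_rfl
      (fun e a1 a2 => by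
        have b1 := mul_le_mul_of_nonneg_right (he1 e a1 a2) hτ
        have b2 : (e : ℝ) * ((1 - ρ1) * τ) ≤ e * (ω + τ - r1) := by gcongr; linarith
        linarith)
      (by linarith) hcase (by linarith)
    have b1 := mul_le_mul_of_nonneg_right hA hτ
    have b2 : (d + 1 - g) * (ρ1 * τ) ≤ (d + 1 - g) * r1 := by gcongr; linarith
    have b3 : (1 + g) * (τ - r1) ≤ (1 + g) * ς1 := by gcongr; linarith
    linarith
  · obtain ⟨l, r, ς, c3, c4, L⟩ := hlev' ρ0 hρ0 hρ01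
    have s1 := L1.one
    have s2 := L1.two
    have s3 := L.top
    rw [Real.log_exp] at s3
    push_cast at s3
    have m5 := mul_le_mul_of_nonneg_right h3 hτ
    have m6 : d * r ≤ d * (ω + ρ0 * τ) := by gcongr
    have key := ib_log d hd β h0 hdu hν hτ hw96 hwd hvw huw (by linarith) (by linarith) hQn hQw
      hinjQ ho hpinQ hfl L
      (W := (d + 2 - 2 * b) * τ + max 0 (S - 5 * ω + ρ0 * τ - τ) - 2 * ω) (α := S)
      (μ := max 0 (S + r - τ))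
      (fun r' ς' a1 a2 a3 a4 a5 => by
        have b1 := hB τ (S - 5 * ω) (p - 5 * ω) r' ς' hτ (by linarith) (by linarith) (by linarith)
          (by linarith) a2 (by linarith) (by linarith) (by linarith)
          (max 0 (S - 5 * ω + ρ0 * τ - τ))
          (max ((ς' - max (p - r') 0) / 3) (ς' / 5) + 2 * ω) (max_choice _ _)
          (by have := le_max_right ((ς' - max (p - r') 0) / 3) (ς' / 5); linarith)
          (by
            have := le_max_left ((ς' - max (p - r') 0) / 3) (ς' / 5)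
            rcases max_choice (p - r') 0 with e | e
            · right; rw [e] at this ⊢; linarith
            · left; rw [e] at this ⊢; linarith)
        linarith)
      (le_max_left _ _)
      (fun v hv => by
        have := hline _ (isDim_flat (e := 1) le_rfl hv)
        exact le_trans (by simpa using this) (by gcongr))
      (by have := le_max_right 0 (S + r - τ); linarith)
      (fun e a1 a2 => by
        have b1 := mul_le_mul_of_nonneg_right (he0 e a1 a2) hτ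
        have b2 : (e : ℝ) * ((1 - ρ0) * τ) ≤ e * (ω + τ - r) := by gcongr; linarith
        have b3 := le_max_left 0 (S + r - τ)
        linarith)
      (by linarith) (by linarith) (by linarith)
    have b1 : max 0 (S + r - τ) ≤ max 0 (S - 5 * ω + ρ0 * τ - τ) + 6 * ω := by
      have a1 := le_max_left 0 (S - 5 * ω + ρ0 * τ - τ)
      have a2 := le_max_right 0 (S - 5 * ω + ρ0 * τ - τ)
      exact max_le (by linarith) (by linarith)
    linarith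

theorem pd_stepB (d : ℕ) (hd : 1 ≤ d) (β : ℕ → ℝ) (hβ : ∀ e < d + 1, PD e (β e)) (h0 : β 0 = 0)
    (h1 : β 1 = 1) {b ρ0 ρ1 g : ℝ} (hρ0 : 0 ≤ ρ0) (hρ01 : ρ0 ≤ ρ1) (hρ1 : ρ1 ≤ 1)
    (hg0 : 0 ≤ g) (hg : g ≤ 1 / 5) (hgd : g * (d + 1) ≤ 2)
    (he0 : ∀ e : ℕ, 2 ≤ e → e ≤ d → β e ≤ e * (1 - ρ0))
    (he1 : ∀ e : ℕ, 2 ≤ e → e ≤ d → β e ≤ e * (1 - ρ1) + ρ1)
    (h2 : β (d + 1 - 2) + 1 ≤ b + ρ0) (h3 : 1 + d * ρ0 ≤ b) (h4 : (d + 1) * ρ1 ≤ b)
    (hA : d + 1 ≤ b + g + (d + 1 - g) * ρ1) (hB : LowOK (d + 1) b ρ0 ρ1) : PD (d + 1) b := by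
  intro b' hb'
  have hd' : (1 : ℝ) ≤ d := by exact_mod_cast hd
  obtain ⟨ε, hε, hab⟩ := absorb (b := b) (by nlinarith) hb' (8 * d + 19)
  obtain ⟨C₀, hC₀, hcore⟩ :=
    pd_coreB d hd β hβ h0 h1 hρ0 hρ01 hρ1 hg0 hg hgd he0 he1 h2 h3 h4 hA hB hε
  obtain ⟨C, hC, habs⟩ := hab C₀ hC₀
  refine ⟨C, fun P t ht hP => ?_⟩
  rcases P.eq_empty_or_nonempty with rfl | hne
  · simp only [card_empty, Nat.cast_zero]; positivity
  obtain ⟨o, ho⟩ := exists_shift P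
  have hn : (1 : ℝ) ≤ #P := by exact_mod_cast hne.card_pos
  refine habs _ t hn ht (hcore (P.image fun x => x - o) _ t ?_ hn ht ?_ ?_)
  · rw [card_image_of_injective _ (sub_left_injective)]
  · rw [coe_image]
    rintro _ ⟨x, hx, rfl⟩ _ ⟨y, hy, rfl⟩ h
    rw [ho hx hy h]
  · intro q hq
    obtain ⟨x, hx, rfl⟩ := mem_image.1 hq
    rw [pin_shift]
    exact hP x hx

end Pool.Agent.P.MP_5f07f1_co
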