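import Pool.Agent.P.MP_5f07f1_co.Defs

/-! Task LIFT: geometry of bisectors, homotheties and lifts. -/

namespace Pool.Agent.P.MP_5f07f1_co

open Finset MvPolynomial Pool.Agent.Lib.PolyPart Classical

variable {d : ℕ}

namespace LiftX

theorem nq_sub (x y : E d) : nq (x - y) = nq x - 2 * (x ⬝ᵥ y) + nq y := by
  simp only [nq, sub_dotProduct, dotProduct_sub, dotProduct_comm y x]; ring

theorem nq_pos {x y : E d} (h : x ≠ y) : 0 < nq (x - y) :=
  lt_of_le_of_ne (Finset.sum_nonneg (s := univ) fun i _ => mul_self_nonneg ((x - y) i))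
    fun h0 => h (sub_eq_zero.1 (dotProduct_self_eq_zero.1 h0.symm))

theorem lam_eq {x y x' y' : E d} {lam : ℝ} (h : x ≠ y) (h0 : lam ≠ 0)
    (h1 : y' = x' + lam • (y - x)) (h2 : nq y' = nq x' + lam * (nq y - nq x)) :
    lamOf x x' y = lam := by
  have h3 : nq y' = nq x' + lam * (2 * x' ⬝ᵥ (y - x) + lam * nq (y - x)) := by
    rw [h1]
    generalize y - x = u
    simp only [nq, add_dotProduct, dotProduct_add, smul_dotProduct, dotProduct_smul,
      dotProduct_comm u x', smul_eq_mul]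
    ring
  have h4 := mul_left_cancel₀ h0 (add_left_cancel (h2.symm.trans h3))
  rw [lamOf, div_eq_iff (nq_pos h.symm).ne', h4]
  ring

end LiftX

open LiftX

theorem dual_dot {x y : E d} (h : nq x ≠ nq y) (q : E d) :
    dual (x, y) ⬝ᵥ q = 1 ↔ nq (x - q) = nq (y - q) := by
  have h' : nq y - nq x ≠ 0 := sub_ne_zero.2 h.symm
  rw [dual, smul_dotProduct, sub_dotProduct, smul_eq_mul, nq_sub, nq_sub, div_mul_eq_mul_div,
    div_eq_one_iff_eq h']
  constructor <;> intro h1 <;> linarith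

theorem dual_eq {x y x' y' : E d} (h : nq x ≠ nq y) (h' : nq x' ≠ nq y')
    (e : dual (x, y) = dual (x', y')) : lamOf x x' y ≠ 0 ∧ y' = x' + lamOf x x' y • (y - x) ∧
      nq y' = nq x' + lamOf x x' y * (nq y - nq x) := by
  have a : nq y - nq x ≠ 0 := sub_ne_zero.2 h.symm
  have a' : nq y' - nq x' ≠ 0 := sub_ne_zero.2 h'.symm
  have h0 : (nq y' - nq x') / (nq y - nq x) ≠ 0 := div_ne_zero a' a
  have h1 : y' = x' + ((nq y' - nq x') / (nq y - nq x)) • (y - x) := by
    funext i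
    have := congrFun e i
    simp only [dual, Pi.smul_apply, Pi.sub_apply, Pi.add_apply, smul_eq_mul] at this ⊢
    field_simp at this ⊢
    linarith
  have h2 : nq y' = nq x' + (nq y' - nq x') / (nq y - nq x) * (nq y - nq x) := by
    field_simp; ring
  rw [lam_eq (fun e => h (by rw [e])) h0 h1 h2]
  exact ⟨h0, h1, h2⟩

theorem dual_of {x y x' y' : E d} {lam : ℝ} (h : nq x ≠ nq y) (h0 : lam ≠ 0)
    (h1 : y' = x' + lam • (y - x)) (h2 : nq y' = nq x' + lam * (nq y - nq x)) :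
    dual (x, y) = dual (x', y') ∧ lamOf x x' y = lam := by
  refine ⟨?_, lam_eq (fun e => h (by rw [e])) h0 h1 h2⟩
  have a : nq y - nq x ≠ 0 := sub_ne_zero.2 h.symm
  simp only [dual]
  rw [h2, h1, add_sub_cancel_left, add_sub_cancel_left, smul_smul]
  congr 1
  field_simp

/-- A bisector separates its pair. -/
theorem dual_sign {x y : E d} (h : nq x ≠ nq y) :
    SignType.sign (dual (x, y) ⬝ᵥ x - 1) ≠ SignType.sign (dual (x, y) ⬝ᵥ y - 1) := by
  have a : nq y - nq x ≠ 0 := sub_ne_zero.2 h.symm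
  have h1 : dual (x, y) ⬝ᵥ y - 1 = nq (y - x) / (nq y - nq x) := by
    rw [dual, smul_dotProduct, sub_dotProduct, smul_eq_mul, nq_sub, dotProduct_comm x y]
    change 2 / (nq y - nq x) * (nq y - _) - 1 = _
    field_simp; ring
  have h2 : dual (x, y) ⬝ᵥ x - 1 = -(nq (y - x) / (nq y - nq x)) := by
    rw [dual, smul_dotProduct, sub_dotProduct, smul_eq_mul, nq_sub]
    change 2 / (nq y - nq x) * (_ - nq x) - 1 = _
    field_simp; ring
  have h3 : nq (y - x) / (nq y - nq x) ≠ 0 := div_ne_zero (nq_pos fun e => h (by rw [e])).ne' a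
  rw [h1, h2, Left.sign_neg]
  exact fun h4 => h3 (sign_eq_zero_iff.1 (SignType.neg_eq_self_iff.1 h4))

/-- Every linear functional of the lift is a polynomial of degree at most two. -/
theorem exists_quad (a : ℝ) (v : E d) (b : ℝ) : ∃ φ : MP d, φ.totalDegree ≤ 2 ∧
    ∀ z, eval z φ = a * nq z + v ⬝ᵥ z + b := by
  refine ⟨C a * ∑ i, X i * X i + ∑ i, C (v i) * X i + C b, ?_, fun z => by
    simp [nq, dotProduct]⟩
  refine (totalDegree_add _ _).trans (max_le ((totalDegree_add _ _).trans (max_le ?_ ?_)) ?_)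
  · refine (totalDegree_mul _ _).trans ?_
    rw [totalDegree_C, zero_add]
    exact totalDegree_finsetSum_le fun i _ => (totalDegree_mul _ _).trans (by simp)
  · exact totalDegree_finsetSum_le fun i _ => (totalDegree_mul _ _).trans (by simp)
  · simp

theorem exists_theta (x x' : E d) : ∃ θ : RMap d, ∀ y, y ≠ x →
    eval y θ.den ≠ 0 ∧ θ.app y = x' + lamOf x x' y • (y - x) := by
  obtain ⟨φ, h1, h2⟩ := exists_quad 1 ((-2 : ℝ) • x) (nq x)
  obtain ⟨ψ, h3, h4⟩ := exists_quad 1 ((-2 : ℝ) • x') (2 * x' ⬝ᵥ x - nq x)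
  refine ⟨⟨fun i => C (x' i) * φ + ψ * (X i - C (x i)), φ, fun i => ?_, by omega⟩, fun y hy => ?_⟩
  · refine (totalDegree_add _ _).trans (max_le ?_ ?_) <;> refine (totalDegree_mul _ _).trans ?_
    · rw [totalDegree_C]; omega
    · have := totalDegree_sub_C_le (X i : MP d) (x i)
      rw [totalDegree_X] at this
      omega
  · have h5 : eval y φ = nq (y - x) := by
      rw [h2, nq_sub, smul_dotProduct, dotProduct_comm x y, smul_eq_mul]; ring
    have h6 := (nq_pos hy).ne'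
    refine ⟨h5 ▸ h6, funext fun i => ?_⟩
    simp only [RMap.app, map_add, map_mul, map_sub, eval_C, eval_X, h5, h4, lamOf, Pi.add_apply,
      Pi.smul_apply, Pi.sub_apply, smul_eq_mul, smul_dotProduct, dotProduct_sub]
    field_simp
    ring

theorem exists_hom (lam : ℝ) (c : E d) : ∃ θ : RMap d, ∀ z,
    eval z θ.den ≠ 0 ∧ θ.app z = lam • z + c := by
  refine ⟨⟨fun i => C lam * X i + C (c i), 1, fun i => ?_, by simp⟩, fun z => ⟨by simp, ?_⟩⟩
  · exact (totalDegree_add _ _).trans (max_le ((totalDegree_mul _ _).trans (by simp)) (by simp))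
  · funext i; simp [RMap.app]

theorem exists_quad' (f : LL d →ₗ[ℝ] ℝ) : ∃ φ : MP d, φ.totalDegree ≤ 2 ∧
    ∀ z, eval z φ = f (lift z) := by
  obtain ⟨φ, h1, h2⟩ := exists_quad (f (0, 0, 1)) (fun i => f (0, Pi.single i 1, 0)) (f (1, 0, 0))
  refine ⟨φ, h1, fun z => ?_⟩
  have : lift z = nq z • ((0, 0, 1) : LL d) + ∑ i, z i • ((0, Pi.single i 1, 0) : LL d) +
      (1, 0, 0) := by
    ext j <;> simp [lift, Prod.fst_sum, Prod.snd_sum, Pi.single_apply]
  rw [h2, this]
  simp only [map_add, map_smul, map_sum, smul_eq_mul, dotProduct, mul_comm]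

theorem lift_injective : Function.Injective (lift : E d → LL d) :=
  fun _ _ h => congrArg (fun p : LL d => p.2.1) h

theorem lift_indep {x y z : E d} (h1 : x ≠ y) (h2 : x ≠ z) (h3 : y ≠ z) :
    LinearIndependent ℝ ![lift x, lift y, lift z] := by
  rw [Fintype.linearIndependent_iff]
  intro g hg
  rw [Fin.sum_univ_three] at hg
  have e1 : g 0 + g 1 + g 2 = 0 := by simpa [lift] using congrArg (fun p : LL d => p.1) hg
  have e2 : ∀ q, g 0 * x ⬝ᵥ q + g 1 * y ⬝ᵥ q + g 2 * z ⬝ᵥ q = 0 := fun q => by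
    simpa [lift, add_dotProduct] using congrArg (fun p : LL d => p.2.1 ⬝ᵥ q) hg
  have e3 : g 0 * nq x + g 1 * nq y + g 2 * nq z = 0 := by
    simpa [lift] using congrArg (fun p : LL d => p.2.2) hg
  have e : ∀ q, g 0 * nq (x - q) + g 1 * nq (y - q) + g 2 * nq (z - q) = 0 := fun q => by
    simp only [nq_sub]
    linear_combination e3 - 2 * e2 q + nq q * e1
  have s : ∀ a b : E d, nq (a - b) = nq (b - a) := fun a b => by
    rw [nq_sub, nq_sub, dotProduct_comm]; ring
  have ex := e x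
  have ey := e y
  have ez := e z
  rw [sub_self, show nq (0 : E d) = 0 by simp [nq]] at ex ey ez
  rw [s y x, s z x] at ex
  rw [s z y] at ey
  have p := (nq_pos h1).ne'
  have q := (nq_pos h2).ne'
  have r := (nq_pos h3).ne'
  have g1 : g 1 = 0 := by
    have : g 1 * (2 * nq (x - y) * nq (y - z)) = 0 := by
      linear_combination nq (x - y) * ez + nq (y - z) * ex - nq (x - z) * ey
    simpa [p, r] using this
  have g0 : g 0 = 0 := by simpa [g1, q] using ez
  have g2 : g 2 = 0 := by simpa [g1, q] using ex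
  intro i
  fin_cases i <;> assumption

theorem LiftX.finrank_three {x y z : E d} (h1 : x ≠ y) (h2 : x ≠ z) (h3 : y ≠ z) :
    Module.finrank ℝ (Submodule.span ℝ {lift x, lift y, lift z}) = 3 := by
  have := finrank_span_eq_card (lift_indep h1 h2 h3)
  rwa [Matrix.range_cons, Matrix.range_cons, Matrix.range_cons, Matrix.range_empty,
    Set.union_empty, Set.singleton_union, Set.singleton_union] at this

/-- Three distinct points span their circle. -/
theorem span_three {U : Submodule ℝ (LL d)} (hU : Module.finrank ℝ U ≤ 3) {x y z : E d}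
    (h1 : x ≠ y) (h2 : x ≠ z) (h3 : y ≠ z) (hx : lift x ∈ U) (hy : lift y ∈ U) (hz : lift z ∈ U) :
    U = Submodule.span ℝ {lift x, lift y, lift z} :=
  (Submodule.eq_of_le_of_finrank_le (Submodule.span_le.2 (by
    rintro _ (rfl | rfl | rfl) <;> assumption)) (by rwa [finrank_three h1 h2 h3])).symm

theorem card_le_two {U : Submodule ℝ (LL d)} (hU : Module.finrank ℝ U ≤ 2) (A : Finset (E d))
    (hA : ∀ z ∈ A, lift z ∈ U) : #A ≤ 2 := by
  by_contra h
  obtain ⟨x, hx, y, hy, z, hz, h1, h2, h3⟩ := two_lt_card.1 (not_le.1 h)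
  rw [span_three (by omega) h1 h2 h3 (hA x hx) (hA y hy) (hA z hz), finrank_three h1 h2 h3] at hU
  omega

/-- Members of a quadruple lie in its clique. -/
theorem mem_clq {Q : Finset (E d)} (hQ : Set.InjOn nq (Q : Set (E d))) {l : E d → Lab d}
    {own : E d → Submodule ℝ (LL d)} {w : (E d × E d) × (E d × E d)} (hw : w ∈ quads Q l own)
    (hne : w.2.1 ≠ w.1.1) : (homOf w).1 ≠ 0 ∧ (homOf w).1 • w.1.1 + (homOf w).2.1 = w.2.1 ∧
      (homOf w).1 • w.1.2 + (homOf w).2.1 = w.2.2 ∧ w.1.1 ∈ clq Q l (l w.1.1) (homOf w) ∧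
      w.1.2 ∈ clq Q l (l w.1.1) (homOf w) := by
  obtain ⟨⟨x, y⟩, x', y'⟩ := w
  simp only [quads, prs, mem_filter, mem_product] at hw
  obtain ⟨⟨⟨⟨hx, hy⟩, l1, o1⟩, ⟨hx', hy'⟩, l2, o2⟩, l3, e⟩ := hw
  have n1 : x ≠ y := fun e => o1 (by rw [e])
  obtain ⟨h0, h1, h2⟩ := dual_eq (fun e => n1 (hQ hx hy e))
    (fun e => o2 (by rw [hQ hx' hy' e])) e
  simp only [clq, mem_filter, homOf] at hne ⊢
  generalize lamOf x x' y = lam at *
  have a1 : lam • x + (x' - lam • x) = x' := by abel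
  have a2 : lam • y + (x' - lam • x) = y' := by rw [h1, smul_sub]; abel
  rw [a1, a2]
  refine ⟨h0, rfl, rfl, ⟨hx, trivial, hx', l3.symm, by ring, hne⟩, hy, l1.symm, hy',
    l2.symm.trans l3.symm, by linarith, fun e => hne ?_⟩
  subst e
  have a3 : x' = y' + lam • (x - y') := by
    rw [← neg_sub y', smul_neg, ← sub_eq_add_neg, eq_sub_iff_add_eq, ← h1]
  rw [a3, ← lam_eq n1.symm h0 a3 (by linarith),
    lam_eq (y' := x) n1.symm one_ne_zero (by simp) (by ring)]
  simp

/-- Two members of a clique give a quadruple with this homothety. -/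
theorem homOf_clq {Q : Finset (E d)} (hQ : Set.InjOn nq (Q : Set (E d))) {l : E d → Lab d}
    {b : Lab d} {T : ℝ × E d × ℝ} (hT : T.1 ≠ 0) {x y : E d} (hx : x ∈ clq Q l b T)
    (hy : y ∈ clq Q l b T) (hxy : x ≠ y) :
    dual (x, y) = dual (T.1 • x + T.2.1, T.1 • y + T.2.1) ∧
      homOf ((x, y), (T.1 • x + T.2.1, T.1 • y + T.2.1)) = T := by
  simp only [clq, mem_filter] at hx hy
  obtain ⟨h1, h2⟩ := dual_of (x' := T.1 • x + T.2.1) (y' := T.1 • y + T.2.1)
    (fun e => hxy (hQ hx.1 hy.1 e)) hT (by rw [smul_sub]; abel)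
    (by rw [hx.2.2.2.2.1, hy.2.2.2.2.1]; ring)
  refine ⟨h1, ?_⟩
  simp only [homOf, h2, hx.2.2.2.2.1, add_sub_cancel_left]

theorem exists_shift (P : Finset (E d)) :
    ∃ o : E d, Set.InjOn (fun x => nq (x - o)) (P : Set (E d)) := by
  have : ∀ p : E d × E d, ∃ φ : MP d, ∀ z, eval z φ = nq (p.1 - z) - nq (p.2 - z) := fun p => by
    obtain ⟨φ, -, h⟩ := exists_quad 0 ((2 : ℝ) • (p.2 - p.1)) (nq p.1 - nq p.2)
    refine ⟨φ, fun z => ?_⟩
    rw [h, nq_sub, nq_sub, smul_dotProduct, sub_dotProduct, smul_eq_mul]; ring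
  choose φ hφ using this
  have h0 : ∏ p ∈ P.offDiag, φ p ≠ 0 := prod_ne_zero_iff.2 fun p hp e => by
    have := hφ p p.2
    rw [e, sub_self, show nq (0 : E d) = 0 by simp [nq], sub_zero, map_zero] at this
    exact (nq_pos (mem_offDiag.1 hp).2.2).ne this
  by_contra h
  refine h0 (MvPolynomial.funext fun o => ?_)
  by_contra h1
  refine h ⟨o, fun x hx y hy e => by_contra fun hne => h1 ?_⟩
  rw [map_prod, map_zero]
  exact prod_eq_zero (i := (x, y)) (mem_offDiag.2 ⟨hx, hy, hne⟩) (by rw [hφ]; exact sub_eq_zero.2 e)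

end Pool.Agent.P.MP_5f07f1_co
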