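import Pool.Agent.P.MP_5f07f1_co.Ind

/-! The chain of exponents. -/

namespace Pool.Agent.P.MP_5f07f1_co

open Finset MvPolynomial Pool.Agent.Lib.PolyPart Classical

variable {d : ℕ}

noncomputable def beta : ℕ → ℝ
  | 0 => 0
  | 1 => 1
  | 2 => 1.3
  | 3 => 1.77
  | 4 => 2.26
  | 5 => 2.75
  | 6 => 3.24
  | 7 => 3.70
  | 8 => 4.17
  | 9 => 4.635
  | 10 => 5.10
  | 11 => 5.57
  | 12 => 6.035
  | 13 => 6.525
  | 14 => 7.012
  | e + 15 => (e + 15 : ℕ) / 2

lemma beta_big {e : ℕ} (h : 15 ≤ e) : beta e = e / 2 := by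
  obtain ⟨k, rfl⟩ : ∃ k, e = k + 15 := ⟨e - 15, by omega⟩
  rfl

lemma beta_le {e : ℕ} (h : 2 ≤ e) : beta e ≤ 0.65 * e := by
  by_cases h' : 15 ≤ e
  · rw [beta_big h']
    have : (0 : ℝ) ≤ e := by positivity
    linarith
  · interval_cases e <;> norm_num [beta]

lemma pd_small {d : ℕ} (hd : 2 ≤ d) (ih : ∀ e < d, PD e (beta e)) (g ρ : ℝ) (hg : 0 ≤ g)
    (hg1 : g ≤ 1 / 6) (hg2 : g * d ≤ 2) (h0 : 0 ≤ ρ) (h1 : ρ ≤ 0.35)
    (h2 : beta (d - 2) + 1 ≤ beta d + ρ) (h3 : 1 + (d - 1) * ρ ≤ beta d)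
    (hA : d + 1 ≤ (2 + g) * beta d + (2 - d * g) * ρ)
    (hB : d + 1 ≤ (2 + g) * beta d + (1 - d * g) * ρ) : PD d (beta d) := by
  refine pd_step d hd beta ih rfl rfl (ρ := ρ) (c := 0) hg le_rfl (by linarith) (by linarith)
    (fun j hj _ => ?_) h0 (by linarith) (fun e he _ => (beta_le he).trans ?_) h2 h3
    (by simpa using hA) (by simpa using hB)
  · have : (2 : ℝ) ≤ j := by exact_mod_cast hj
    nlinarith
  · have : (0 : ℝ) ≤ e := by positivity
    nlinarith

theorem pd_beta (e : ℕ) : PD e (beta e) := by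
  induction e using Nat.strong_induction_on with
  | _ d ih =>
  by_cases h : 15 ≤ d
  · have hd : (15 : ℝ) ≤ d := by exact_mod_cast h
    have hd0 : (0 : ℝ) < d := by linarith
    have hg : 25 / 13 / (d : ℝ) ≤ 5 / 39 := by rw [div_le_iff₀ hd0]; linarith
    have hgd : 25 / 13 / (d : ℝ) * d = 25 / 13 := by field_simp
    have hcd : 1 / 13 / (d : ℝ) * d = 1 / 13 := by field_simp
    refine pd_step d (by omega) beta ih rfl rfl (ρ := 0.03) (c := 1 / 13) (g := 25 / 13 / d)
      (by positivity) (by norm_num) (by linarith) (by linarith) (fun j hj _ => ?_) (by norm_num)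
      (by norm_num) (fun e he _ => (beta_le he).trans ?_) ?_ ?_ ?_ ?_
    · have : (2 : ℝ) ≤ j := by exact_mod_cast hj
      nlinarith
    · have : (0 : ℝ) ≤ e := by positivity
      linarith
    · rw [beta_big h]
      by_cases h' : 17 ≤ d
      · rw [beta_big (by omega), Nat.cast_sub (by omega)]; push_cast; linarith
      · interval_cases d <;> norm_num [beta]
    · rw [beta_big h]; linarith
    · rw [beta_big h]; nlinarith
    · rw [beta_big h]; nlinarith
  · interval_cases d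
    · exact pd_zero
    · exact pd_one
    · apply pd_small (by norm_num) ih (1 / 6) 0.3 <;> norm_num [beta]
    · apply pd_small (by norm_num) ih (1 / 6) 0.35 <;> norm_num [beta]
    · apply pd_small (by norm_num) ih (1 / 6) 0.35 <;> norm_num [beta]
    · apply pd_small (by norm_num) ih (1 / 6) 0.35 <;> norm_num [beta]
    · apply pd_small (by norm_num) ih (1 / 6) 0.1 <;> norm_num [beta]
    · apply pd_small (by norm_num) ih (1 / 6) 0.07 <;> norm_num [beta]
    · apply pd_small (by norm_num) ih (1 / 6) 0.09 <;> norm_num [beta]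
    · apply pd_small (by norm_num) ih (1 / 6) 0.075 <;> norm_num [beta]
    · apply pd_small (by norm_num) ih (1 / 6) 0.072 <;> norm_num [beta]
    · apply pd_small (by norm_num) ih (1 / 6) 0.075 <;> norm_num [beta]
    · apply pd_small (by norm_num) ih (1 / 6) 0.07 <;> norm_num [beta]
    · apply pd_small (by norm_num) ih (2 / 13) 0.05 <;> norm_num [beta]
    · apply pd_small (by norm_num) ih (2 / 14) 0.024 <;> norm_num [beta]

lemma pin_le (P : Finset (EuclideanSpace ℝ (Fin d))) (q : EuclideanSpace ℝ (Fin d)) :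
    pin (P.image fun x => x.ofLp) q.ofLp ≤ #((P.erase q).image fun x => dist q x) + 1 := by
  unfold pin
  rw [image_image]
  refine le_trans (card_le_card (t := insert 0 (((P.erase q).image fun x => dist q x).image
    fun r => r ^ 2)) ?_) ((card_insert_le _ _).trans (Nat.add_le_add_right card_image_le 1))
  intro r hr
  obtain ⟨x, hx, rfl⟩ := mem_image.1 hr
  have e : nq (x.ofLp - q.ofLp) = dist q x ^ 2 := by
    rw [dist_comm, EuclideanSpace.dist_sq_eq]
    simp [nq, dotProduct, Real.dist_eq, sq]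
  by_cases h : x = q
  · subst h; simp [nq]
  · refine mem_insert_of_mem (mem_image.2 ⟨dist q x, ?_, e.symm⟩)
    exact mem_image.2 ⟨x, mem_erase.2 ⟨h, hx⟩, rfl⟩

/-- Transfer to Euclidean space. -/
theorem PD.pinned {b : ℝ} (h : PD d b) (hb : 0 < b) {ε : ℝ} (hε : 0 < ε) : ∃ c : ℝ, 0 < c ∧
    ∀ P : Finset (EuclideanSpace ℝ (Fin d)), 2 ≤ #P → ∃ q ∈ P,
      c * (#P : ℝ) ^ (1 / b - ε) ≤ #((P.erase q).image fun x => dist q x) := by
  obtain ⟨a, ha0, ha1, ha2⟩ : ∃ a : ℝ, 0 < a ∧ a < 1 / b ∧ 1 / b - ε ≤ a :=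
    ⟨max (1 / b / 2) (1 / b - ε), lt_max_of_lt_left (by positivity),
      max_lt (half_lt_self (by positivity)) (by linarith), le_max_right _ _⟩
  obtain ⟨C, hC⟩ := h (1 / a) (by rwa [gt_iff_lt, lt_div_iff₀ ha0, mul_comm, ← lt_div_iff₀ hb])
  have hC' : 0 < max C 1 := lt_max_of_lt_right one_pos
  refine ⟨1 / (2 * max C 1 ^ a), by positivity, fun P hP => ?_⟩
  obtain ⟨q, hq, hmax⟩ := exists_max_image P (fun q => #((P.erase q).image fun x => dist q x))
    (card_pos.1 (by omega))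
  refine ⟨q, hq, ?_⟩
  have ht : 1 ≤ #((P.erase q).image fun x => dist q x) :=
    card_pos.2 ((card_pos.1 (by rw [card_erase_of_mem hq]; omega)).image _)
  generalize #((P.erase q).image fun x => dist q x) = t at hmax ht ⊢
  have ht' : (1 : ℝ) ≤ t := by exact_mod_cast ht
  have h1 := hC (P.image fun x => x.ofLp) (2 * t) (by linarith) (by
    intro y hy
    obtain ⟨x, hx, rfl⟩ := mem_image.1 hy
    have := (pin_le P x).trans (Nat.add_le_add (hmax x hx) ht)
    exact_mod_cast this.trans (by omega))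
  rw [card_image_of_injective _ (WithLp.ofLp_injective 2)] at h1
  have hn : (1 : ℝ) ≤ #P := by exact_mod_cast (by omega : 1 ≤ #P)
  rw [one_div, inv_mul_le_iff₀ (by positivity)]
  calc (#P : ℝ) ^ (1 / b - ε) ≤ (#P : ℝ) ^ a := Real.rpow_le_rpow_of_exponent_le hn ha2
    _ ≤ (max C 1 * (2 * t) ^ (1 / a)) ^ a :=
      Real.rpow_le_rpow (by positivity) (h1.trans (by gcongr; exact le_max_left _ _)) ha0.le
    _ = _ := by
      rw [Real.mul_rpow hC'.le (by positivity), ← Real.rpow_mul (by positivity),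
        one_div_mul_cancel ha0.ne', Real.rpow_one]
      ring

theorem PD.pinned' {b a : ℝ} (h : PD d b) (hb : 0 < b) (ha : a = 1 / b) {ε : ℝ} (hε : 0 < ε) :
    ∃ c : ℝ, 0 < c ∧ ∀ P : Finset (EuclideanSpace ℝ (Fin d)), 2 ≤ P.card → ∃ q ∈ P,
      c * (P.card : ℝ) ^ (a - ε) ≤ (Set.ncard {r : ℝ | ∃ x ∈ P, x ≠ q ∧ dist q x = r} : ℝ) := by
  obtain ⟨c, hc, h⟩ := h.pinned hb hε
  refine ⟨c, hc, fun P hP => ?_⟩
  obtain ⟨q, hq, h⟩ := h P hP
  refine ⟨q, hq, ha ▸ h.trans (le_of_eq ?_)⟩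
  rw [← Set.ncard_coe_finset]
  congr 2
  ext r
  simp only [coe_image, coe_erase, Set.mem_image, Set.mem_sdiff, mem_coe, Set.mem_singleton_iff,
    Set.mem_ofPred_eq, and_assoc, ne_eq]

end Pool.Agent.P.MP_5f07f1_co
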