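import Pool.Agent.P.MP_5f07f1_co.IndB
import Pool.Agent.P.MP_5f07f1_co.Main

/-! The improved chain of exponents. -/

namespace Pool.Agent.P.MP_5f07f1_co

open Finset MvPolynomial Pool.Agent.Lib.PolyPart Classical

noncomputable def betaB : ℕ → ℝ
  | 0 => 0
  | 1 => 1
  | 2 => 1.25
  | 3 => 1.715
  | 4 => 2.203
  | 5 => 2.649
  | 6 => 3.097
  | 7 => 3.543
  | 8 => 4.02
  | 9 => 4.509
  | e + 10 => (e + 10 : ℕ) / 2

lemma betaB_big {e : ℕ} (h : 10 ≤ e) : betaB e = e / 2 := by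
  obtain ⟨k, rfl⟩ : ∃ k, e = k + 10 := ⟨e - 10, by omega⟩
  rfl

lemma betaB_le {e : ℕ} (h : 2 ≤ e) : betaB e ≤ e / 2 + 1 / 4 := by
  by_cases h' : 10 ≤ e
  · rw [betaB_big h']; linarith
  · interval_cases e <;> norm_num [betaB]

lemma pd_smallB {d : ℕ} (hd : 1 ≤ d) (ih : ∀ e < d + 1, PD e (betaB e)) (ρ0 ρ1 g : ℝ)
    (h0 : 0 ≤ ρ0) (h01 : ρ0 ≤ ρ1) (h1 : ρ0 ≤ 3 / 8) (h1' : ρ1 ≤ 1 / 2) (hg0 : 0 ≤ g)
    (hg : g ≤ 1 / 5) (hgd : g * (d + 1) ≤ 2)
    (h2 : betaB (d + 1 - 2) + 1 ≤ betaB (d + 1) + ρ0) (h3 : 1 + d * ρ0 ≤ betaB (d + 1))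
    (h4 : (d + 1) * ρ1 ≤ betaB (d + 1))
    (hA : d + 1 ≤ betaB (d + 1) + g + (d + 1 - g) * ρ1) (hB : LowOK (d + 1) (betaB (d + 1)) ρ0 ρ1) :
    PD (d + 1) (betaB (d + 1)) := by
  refine pd_stepB d hd betaB ih rfl rfl h0 h01 (by linarith) hg0 hg hgd
    (fun e he _ => (betaB_le he).trans ?_) (fun e he _ => (betaB_le he).trans ?_) h2 h3 h4 hA hB
  · have : (2 : ℝ) ≤ e := by exact_mod_cast he
    nlinarith
  · have : (2 : ℝ) ≤ e := by exact_mod_cast he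
    nlinarith

lemma lowOK_big {d : ℝ} (hd : 10 ≤ d) : LowOK d (d / 2) (1 / 50) (1 / 2) := by
  intro τ S P r ς h1 h2 h3 h4 h5 h6 h7 h8 h9 m z hm h10 h11
  have h : 5 * τ - 10 * r ≤ ς := by
    rcases le_total r (τ / 2) with e | e
    · nlinarith
    · linarith
  have e : (d + 1 - 2 * (d / 2)) * τ = τ := by ring
  rw [e]
  rcases hm with rfl | rfl <;> rcases h11 with h11 | h11 <;> linarith

theorem pd_betaB (e : ℕ) : PD e (betaB e) := by
  induction e using Nat.strong_induction_on with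
  | _ d ih =>
  by_cases h : 10 ≤ d
  · obtain ⟨k, rfl⟩ : ∃ k, d = k + 1 := ⟨d - 1, by omega⟩
    have hk : (9 : ℝ) ≤ k := by exact_mod_cast (by omega : 9 ≤ k)
    have hb : betaB (k + 1) = (k + 1) / 2 := by rw [betaB_big h]; push_cast; ring
    refine pd_smallB (by omega) ih (1 / 50) (1 / 2) 0 (by norm_num) (by norm_num) (by norm_num)
      le_rfl le_rfl (by norm_num) (by norm_num) ?_ (by rw [hb]; linarith) (by rw [hb]; linarith)
      (by rw [hb]; linarith) (by rw [hb]; exact lowOK_big (by linarith))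
    rw [hb]
    by_cases h' : 11 ≤ k
    · rw [betaB_big (by omega), Nat.cast_sub (by omega)]; push_cast; linarith
    · have : 9 ≤ k := by omega
      interval_cases k <;> norm_num [betaB]
  · have key : ∀ (k : ℕ) (ρ0 ρ1 : ℝ), 1 ≤ k → k ≤ 8 → (∀ e < k + 1, PD e (betaB e)) →
        (0 ≤ ρ0 ∧ ρ0 ≤ ρ1 ∧ ρ0 ≤ 3 / 8 ∧ ρ1 ≤ 1 / 2 ∧
          betaB (k + 1 - 2) + 1 ≤ betaB (k + 1) + ρ0 ∧ 1 + k * ρ0 ≤ betaB (k + 1) ∧
          (k + 1) * ρ1 ≤ betaB (k + 1) ∧ k + 1 ≤ betaB (k + 1) + 1 / 5 + (k + 1 - 1 / 5) * ρ1) →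
        LowOK (k + 1) (betaB (k + 1)) ρ0 ρ1 → PD (k + 1) (betaB (k + 1)) := by
      rintro k ρ0 ρ1 h1 h8 ih ⟨a1, a2, a3, a4, a5, a6, a7, a8⟩ hB
      have : (k : ℝ) ≤ 8 := by exact_mod_cast h8
      exact pd_smallB h1 ih ρ0 ρ1 (1 / 5) a1 a2 a3 a4 (by norm_num) le_rfl (by linarith)
        a5 a6 a7 a8 hB
    interval_cases d
    · exact pd_zero
    · exact pd_one
    all_goals
      first
      | refine key 1 0.25 0.306 (by norm_num) (by norm_num) ih (by norm_num [betaB]) ?_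
      | refine key 2 0.355 0.3875 (by norm_num) (by norm_num) ih (by norm_num [betaB]) ?_
      | refine key 3 0.097 0.4203 (by norm_num) (by norm_num) ih (by norm_num [betaB]) ?_
      | refine key 4 0.091 0.448125 (by norm_num) (by norm_num) ih (by norm_num [betaB]) ?_
      | refine key 5 0.106 0.4661 (by norm_num) (by norm_num) ih (by norm_num [betaB]) ?_
      | refine key 6 0.106 0.479 (by norm_num) (by norm_num) ih (by norm_num [betaB]) ?_
      | refine key 7 0.077 0.4847 (by norm_num) (by norm_num) ih (by norm_num [betaB]) ?_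
      | refine key 8 0.034 0.4877 (by norm_num) (by norm_num) ih (by norm_num [betaB]) ?_
    all_goals
      intro τ S P r ς h1 h2 h3 h4 h5 h6 h7 h8 h9 m z hm h10 h11
      norm_num [betaB] at h3 ⊢
      rcases hm with rfl | rfl <;> rcases h11 with h11 | h11 <;> linarith

end Pool.Agent.P.MP_5f07f1_co
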