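import Pool.Agent.P.MP_5f07f1_co.Flat

/-! Task MULTI: several levels of the tree; own circles (paper section 2). -/

namespace Pool.Agent.P.MP_5f07f1_co

open Finset MvPolynomial Pool.Agent.Lib.PolyPart Classical

variable {d : ℕ}

lemma multi_fib {α β γ : Type*} [DecidableEq β] [DecidableEq γ] (A : Finset α) (f : α → β) (g : α → γ) {a c : ℕ}
    (ha : #(A.image f) ≤ a) (hc : ∀ x ∈ A, #(({z ∈ A | f z = f x}).image g) ≤ c) :
    #(A.image g) ≤ a * c := by
  have h1 : A.image g ⊆ (A.image f).biUnion fun b => ({z ∈ A | f z = b}).image g := by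
    intro y hy
    obtain ⟨z, hz, rfl⟩ := mem_image.1 hy
    exact mem_biUnion.2 ⟨f z, mem_image_of_mem _ hz,
      mem_image_of_mem _ (mem_filter.2 ⟨hz, rfl⟩)⟩
  refine (card_le_card h1).trans ((card_biUnion_le_card_mul _ _ c ?_).trans
    (Nat.mul_le_mul_right _ ha))
  intro b hb
  obtain ⟨x, hx, rfl⟩ := mem_image.1 hb
  exact hc x hx

lemma multi_const {α β : Type*} [DecidableEq β] (A : Finset α) (f : α → β) (b : β) (h : ∀ z ∈ A, f z = b) :
    #(A.image f) ≤ 1 :=
  card_le_one.2 fun x hx y hy => by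
    obtain ⟨u, hu, rfl⟩ := mem_image.1 hx
    obtain ⟨v, hv, rfl⟩ := mem_image.1 hy
    rw [h u hu, h v hv]

lemma multi_card {α β : Type*} [DecidableEq β] (A : Finset α) (f : α → β) {a c : ℕ}
    (ha : #(A.image f) ≤ a) (hc : ∀ x ∈ A, #{z ∈ A | f z = f x} ≤ c) : #A ≤ a * c := by
  have := multi_fib A f id ha (c := c) fun x hx => by rw [image_id]; exact hc x hx
  rwa [image_id] at this

section

variable {D Λ : ℕ → ℕ} {M n s : ℕ} {Q : Finset (E d)} {j : ℕ → ℕ} {l : ℕ → E d → Lab d}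
  {core : ℕ → E d → Set (E d)}

theorem PTree.refine (h : PTree D Λ M n Q s j l core) {i i' : ℕ} (h1 : i ≤ i') (h2 : i' ≤ s) :
    ∀ x ∈ Q, ∀ z ∈ Q, l i' x = l i' z → l i x = l i z := by
  induction i', h1 using Nat.le_induction with
  | base => exact fun _ _ _ _ e => e
  | succ k hk ih =>
    intro x hx z hz e
    exact ih (by omega) x hx z hz ((h.lvl k (by omega)).ref x hx z hz e)

lemma PTree.multi_root (h : PTree D Λ M n Q s j l core) (A : Finset (E d)) (hA : A ⊆ Q) :
    #(A.image (l 0)) ≤ 1 :=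
  card_le_one.2 fun x hx y hy => by
    obtain ⟨u, hu, rfl⟩ := mem_image.1 hx
    obtain ⟨v, hv, rfl⟩ := mem_image.1 hy
    exact h.root u (hA hu) v (hA hv)

theorem PTree.cells (h : PTree D Λ M n Q s j l core) {i : ℕ} (hi : i ≤ s) :
    #(Q.image (l i)) ≤ ∏ k ∈ range i, Λ (j k) * D (j k) ^ j k := by
  induction i with
  | zero => simpa using h.multi_root Q Subset.rfl
  | succ k ih =>
    rw [prod_range_succ]
    refine multi_fib Q (l k) (l (k + 1)) (ih (by omega)) fun x _ => ?_
    exact (h.lvl k (by omega)).all (l k x) _ (filter_subset _ _) fun z hz => (mem_filter.1 hz).2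

theorem PTree.sepM (h : PTree D Λ M n Q s j l core) {i : ℕ} (hi : i ≤ s) :
    Sep Q (l i) (∏ k ∈ range i, Λ (j k) * D (j k) ^ (j k - 1) : ℕ) := by
  intro φ hφ
  suffices H : ∀ A : Finset (E d), A ⊆ Q → (∀ z ∈ A, ∃ u ∈ Q, l i u = l i z ∧
      SignType.sign (eval u φ) ≠ SignType.sign (eval z φ)) →
      #(A.image (l i)) ≤ ∏ k ∈ range i, Λ (j k) * D (j k) ^ (j k - 1) by
    intro A hA hz
    exact_mod_cast H A hA hz
  induction i with
  | zero => intro A hA _; simpa using h.multi_root A hA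
  | succ k ih =>
    intro A hA hz
    rw [prod_range_succ]
    have hl := h.lvl k (by omega)
    refine multi_fib A (l k) (l (k + 1)) (ih (by omega) A hA fun z hz' => ?_) fun x _ => ?_
    · obtain ⟨u, hu, e, hs⟩ := hz z hz'
      exact ⟨u, hu, hl.ref u hu z (hA hz') e, hs⟩
    · exact hl.sep φ hφ (l k x) _ ((filter_subset _ _).trans hA) fun z hz' =>
        ⟨(mem_filter.1 hz').2, hz z (mem_filter.1 hz').1⟩

theorem PTree.jointM (h : PTree D Λ M n Q s j l core) {i i' : ℕ} (h1 : i ≤ i') (h2 : i' ≤ s) :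
    Joint Q (l i) (l i') (∏ k ∈ Ico i i', Λ (j k) * D (j k) ^ j k : ℕ) := by
  intro θ b b' A hA hz
  suffices H : #(A.image fun z => (l i' z, l i' (θ.app z))) ≤
      ∏ k ∈ Ico i i', Λ (j k) * D (j k) ^ j k by exact_mod_cast H
  induction i', h1 using Nat.le_induction with
  | base =>
    simpa using multi_const A _ (b, b') fun z hz' => by
      rw [(hz z hz').1, (hz z hz').2.2.2]
  | succ k hk ih =>
    rw [prod_Ico_succ_top hk]
    refine multi_fib A (fun z => (l k z, l k (θ.app z))) _ (ih (by omega)) fun x _ => ?_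
    refine (h.lvl k (by omega)).joint θ (l k x) (l k (θ.app x)) _
      ((filter_subset _ _).trans hA) fun z hz' => ?_
    obtain ⟨h3, h4⟩ := mem_filter.1 hz'
    exact ⟨(Prod.ext_iff.1 h4).1, (hz z h3).2.1, (hz z h3).2.2.1, (Prod.ext_iff.1 h4).2⟩

theorem PTree.dimM (h : PTree D Λ M n Q s j l core) {i i' : ℕ} (h1 : i ≤ i') (h2 : i' ≤ s)
    {W : Set (E d)} (hW : IsDim 1 W) (b : Lab d) (A : Finset (E d)) (hA : A ⊆ Q)
    (hz : ∀ z ∈ A, l i z = b ∧ z ∈ W) :
    #(A.image (l i')) ≤ ∏ k ∈ Ico i i', Λ (j k) * D (j k) := by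
  induction i', h1 using Nat.le_induction with
  | base => simpa using multi_const A _ b fun z hz' => (hz z hz').1
  | succ k hk ih =>
    rw [prod_Ico_succ_top hk]
    refine multi_fib A (l k) _ (ih (by omega)) fun x _ => ?_
    simpa using (h.lvl k (by omega)).dim 1 W hW (l k x) _ ((filter_subset _ _).trans hA)
      fun z hz' => ⟨(mem_filter.1 hz').2, (hz z (mem_filter.1 hz').1).2⟩

theorem PTree.line (h : PTree D Λ M n Q s j l core) {W : Set (E d)} (hW : IsDim 1 W) :
    #{z ∈ Q | z ∈ W} ≤ M * ∏ k ∈ range s, Λ (j k) * D (j k) := by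
  rcases ({z ∈ Q | z ∈ W} : Finset (E d)).eq_empty_or_nonempty with h0 | ⟨x, hx⟩
  · rw [h0]; simp
  rw [mul_comm, range_eq_Ico]
  refine multi_card _ (l s) (h.dimM (Nat.zero_le s) le_rfl hW (l 0 x) _ (filter_subset _ _)
    fun z hz => ⟨h.root z (mem_filter.1 hz).1 x (mem_filter.1 hx).1, (mem_filter.1 hz).2⟩)
    fun y _ => le_trans (card_le_card ?_) (h.bot (l s y))
  exact filter_subset_filter _ (filter_subset _ _)

/-- The own circle attached to a core. -/
noncomputable def multiOwn (c : E d → Set (E d)) (x : E d) : Submodule ℝ (LL d) :=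
  if Module.finrank ℝ (Submodule.span ℝ (lift '' c x)) ≤ 3 then Submodule.span ℝ (lift '' c x)
  else Submodule.span ℝ {lift x}

lemma multi_rank (x : E d) : Module.finrank ℝ (Submodule.span ℝ {lift x}) ≤ 3 := by
  have := finrank_span_finset_le_card (R := ℝ) ({lift x} : Finset (LL d))
  rw [Set.finrank, coe_singleton, card_singleton] at this
  omega

lemma multi_one {D Λ : ℕ} {l l' : E d → Lab d} {c : E d → Set (E d)} (h : Lvl 1 D Λ Q l l' c)
    {U : Submodule ℝ (LL d)} (hU : Module.finrank ℝ U ≤ 3) (A : Finset (E d)) (hA : A ⊆ Q)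
    {x : E d} (hx : x ∈ Q) (hz : ∀ z ∈ A, l z = l x ∧ lift z ∈ U ∧ multiOwn c z ≠ U) :
    #A ≤ Λ + 2 := by
  by_cases hO : Submodule.span ℝ (lift '' c x) ≤ U
  · rcases A.eq_empty_or_nonempty with h0 | ⟨y, hy⟩
    · rw [h0]; simp
    have h3 : Module.finrank ℝ (Submodule.span ℝ (lift '' c x)) ≤ 3 :=
      (Submodule.finrank_mono hO).trans hU
    have hne : Submodule.span ℝ (lift '' c x) ≠ U := by
      have := (hz y hy).2.2
      rwa [multiOwn, h.core_eq y (hA hy) x hx (hz y hy).1, if_pos h3] at this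
    have h2 := Submodule.finrank_lt_finrank_of_lt (lt_of_le_of_ne hO hne)
    refine le_trans (card_le_two (U := Submodule.span ℝ (lift '' c x)) (by omega) A
      fun z hz' => Submodule.subset_span ⟨z, ?_, rfl⟩) (by omega)
    rw [← h.core_eq z (hA hz') x hx (hz z hz').1]
    exact h.mem z (hA hz')
  · rw [Submodule.span_le, Set.not_subset] at hO
    obtain ⟨_, ⟨w, hw, rfl⟩, hwU⟩ := hO
    obtain ⟨f, hf, hf0⟩ := Submodule.exists_le_ker_of_notMem (p := U) hwU
    obtain ⟨φ, hφ, he⟩ := exists_quad' f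
    refine le_trans (card_le_card fun z hz' => ?_)
      ((h.one rfl φ hφ x hx ⟨w, hw, by rw [he]; exact hf⟩).trans (by omega))
    exact mem_filter.2 ⟨hA hz', (hz z hz').1, by rw [he]; exact hf0 (hz z hz').2.1⟩

/-- `p` is the first level with `j = 1` (or `s`). If `p < s` let `O` be the span of the lifts of
`core p x`; `own x = O` if its dimension is at most three, `span {lift x}` otherwise. -/
theorem PTree.exists_own {η : ℝ} (hp : Par d η D Λ M) (h : PTree D Λ M n Q s j l core) :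
    ∃ (own : E d → Submodule ℝ (LL d)) (p : ℕ), p ≤ s ∧ (∀ k < p, 2 ≤ j k) ∧
      (∀ k, p ≤ k → k < s → j k = 1) ∧ Own Q own ∧
      ∀ i ≤ s, Acc Q (l i) own ((M + 2) * ∏ k ∈ Ico i p, Λ (j k) * D (j k) : ℕ) := by
  have key : ∀ (own : E d → Submodule ℝ (LL d)) (p : ℕ), p ≤ s →
      (∀ U : Submodule ℝ (LL d), Module.finrank ℝ U ≤ 3 → ∀ A ⊆ Q, ∀ x ∈ Q,
        (∀ z ∈ A, l p z = l p x ∧ lift z ∈ U ∧ own z ≠ U) → #A ≤ M + 2) →
      ∀ i ≤ s, Acc Q (l i) own ((M + 2) * ∏ k ∈ Ico i p, Λ (j k) * D (j k) : ℕ) := by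
    intro own p hps H i hi U hU b
    suffices H' : #{z ∈ Q | l i z = b ∧ lift z ∈ U ∧ own z ≠ U} ≤
        (M + 2) * ∏ k ∈ Ico i p, Λ (j k) * D (j k) by exact_mod_cast H'
    rw [mul_comm]
    refine multi_card _ (l p) ?_ fun x hx => H U hU _
      ((filter_subset _ _).trans (filter_subset _ _)) x (mem_filter.1 hx).1 fun z hz =>
        ⟨(mem_filter.1 hz).2, (mem_filter.1 (mem_filter.1 hz).1).2.2⟩
    rcases le_total i p with hip | hip
    · exact h.dimM hip hps (isDim_circle hU) b _ (filter_subset _ _) fun z hz =>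
        ⟨(mem_filter.1 hz).2.1, (mem_filter.1 hz).2.2.1⟩
    · rw [Ico_eq_empty_of_le hip, prod_empty]
      refine card_le_one.2 fun x hx y hy => ?_
      obtain ⟨u, hu, rfl⟩ := mem_image.1 hx
      obtain ⟨v, hv, rfl⟩ := mem_image.1 hy
      exact h.refine hip hi u (mem_filter.1 hu).1 v (mem_filter.1 hv).1
        ((mem_filter.1 hu).2.1.trans (mem_filter.1 hv).2.1.symm)
  by_cases hex : ∃ k, k < s ∧ j k = 1
  · obtain ⟨hs, h1⟩ := Nat.find_spec hex
    set p := Nat.find hex with hpdef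
    have hl := h.lvl p hs
    have hM : Λ (j p) ≤ M := (hp (j p) (h.pos p hs).1 (h.pos p hs).2).2.2.2.2
    refine ⟨multiOwn (core p), p, hs.le, fun k hk => ?_, fun k hk hks => ?_, fun x hx => ?_,
      key _ p hs.le fun U hU A hA x hx hz => ?_⟩
    · have h2 := Nat.find_min hex hk
      have h3 := (h.pos k (by omega)).1
      have h4 : j k ≠ 1 := fun e => h2 ⟨by omega, e⟩
      omega
    · have h2 := h.anti p k hk hks
      have h3 := (h.pos k hks).1
      omega
    · by_cases h3 : Module.finrank ℝ (Submodule.span ℝ (lift '' core p x)) ≤ 3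
      · rw [show multiOwn (core p) x = _ from if_pos h3]
        exact ⟨Submodule.subset_span ⟨x, hl.mem x hx, rfl⟩, h3⟩
      · rw [show multiOwn (core p) x = _ from if_neg h3]
        exact ⟨Submodule.mem_span_singleton_self _, multi_rank x⟩
    · rw [h1] at hl hM
      exact (multi_one hl hU A hA hx hz).trans (by omega)
  · refine ⟨fun x => Submodule.span ℝ {lift x}, s, le_rfl, fun k hk => ?_,
      fun k hk hks => absurd hks (by omega),
      fun x _ => ⟨Submodule.mem_span_singleton_self _, multi_rank x⟩,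
      key _ s le_rfl fun U _ A hA x _ hz => ?_⟩
    · have h3 := (h.pos k hk).1
      have h4 : j k ≠ 1 := fun e => hex ⟨k, hk, e⟩
      omega
    · refine le_trans (card_le_card fun z hz' => ?_) ((h.bot (l s x)).trans (by omega))
      exact mem_filter.2 ⟨hA hz', (hz z hz').1⟩

end

end Pool.Agent.P.MP_5f07f1_co
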