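import Pool.Agent.P.MP_5f07f1_co.SmallA

/-! Task SML: small cliques (paper section 3). -/

namespace Pool.Agent.P.MP_5f07f1_co

open Finset MvPolynomial Pool.Agent.Lib.PolyPart Classical

variable {d : ℕ}

/-- The class of a quadruple. -/
def smK (l' : E d → Lab d) (w : (E d × E d) × (E d × E d)) : (E d × E d) × (Lab d × Lab d) :=
  ((w.1.1, w.2.1), l' w.1.2, l' w.2.2)

lemma sm_seg {Q : Finset (E d)} {l : E d → Lab d} {σ : ℝ} (hσ : Size Q l σ) :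
    (#{p ∈ Q ×ˢ Q | l p.2 = l p.1} : ℝ) ≤ #Q * σ :=
  sm_pair_le (fun p => p.2 ∈ Q ∧ l p.2 = l p.1) (fun p hp => by
    simp only [mem_filter, mem_product] at hp; tauto) fun x _ _ hA => hσ.sm_le (l x) hA

lemma sm_classes {Q : Finset (E d)} (hQ : Set.InjOn nq (Q : Set (E d))) {l l' : E d → Lab d}
    {own : E d → Submodule ℝ (LL d)} {σ J : ℝ} (hσ : Size Q l σ) (hJ : Joint Q l l' J)
    (hJ0 : 0 ≤ J) {S : Finset ((E d × E d) × (E d × E d))} (hS : S ⊆ quads Q l own) :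
    (#(S.image (smK l')) : ℝ) ≤ #Q * σ * J := by
  set T := {p ∈ Q ×ˢ Q | l p.2 = l p.1} with hT
  rw [card_eq_sum_card_fiberwise (f := Prod.fst) (t := T) (fun k hk => by
    obtain ⟨w, hw, rfl⟩ := mem_image.1 (mem_coe.1 hk)
    obtain ⟨h1, -, h2, -, -, h3, -⟩ := sm_facts hQ (hS hw)
    exact mem_coe.2 (mem_filter.2 ⟨mem_product.2 ⟨h1, h2⟩, h3⟩)), Nat.cast_sum]
  refine le_trans (sum_le_sum (g := fun _ => J) fun p _ => ?_) ?_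
  · obtain ⟨θ, hθ⟩ := exists_theta p.1 p.2
    have key : ∀ w ∈ S, (w.1.1, w.2.1) = p → w.1.2 ∈ Q ∧ l w.1.2 = l p.1 ∧
        eval w.1.2 θ.den ≠ 0 ∧ θ.app w.1.2 = w.2.2 ∧ w.2.2 ∈ Q ∧ l w.2.2 = l p.1 := by
      rintro w hw rfl
      obtain ⟨-, h1, -, h2, h3, -, h4, -, h5, h6, -⟩ := sm_facts hQ (hS hw)
      exact ⟨h1, h3, (hθ _ h5).1, (hθ _ h5).2.trans h6.symm, h2, h4⟩
    refine le_trans ?_ (hJ θ (l p.1) (l p.1)
      (({w ∈ S | (w.1.1, w.2.1) = p}).image fun w => w.1.2) (fun z hz => ?_) fun z hz => ?_)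
    · refine Nat.cast_le.2 (card_le_card_of_injOn Prod.snd (fun k hk => ?_) fun k hk k' hk' e => ?_)
      · obtain ⟨hk1, hk2⟩ := mem_filter.1 (mem_coe.1 hk)
        obtain ⟨w, hw, rfl⟩ := mem_image.1 hk1
        refine mem_coe.2 (mem_image.2 ⟨w.1.2, mem_image.2 ⟨w, mem_filter.2 ⟨hw, hk2⟩, rfl⟩, ?_⟩)
        rw [(key w hw hk2).2.2.2.1]; rfl
      · exact Prod.ext ((mem_filter.1 (mem_coe.1 hk)).2.trans
          (mem_filter.1 (mem_coe.1 hk')).2.symm) e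
    · obtain ⟨w, hw, rfl⟩ := mem_image.1 hz
      exact (key w (mem_filter.1 hw).1 (mem_filter.1 hw).2).1
    · obtain ⟨w, hw, rfl⟩ := mem_image.1 hz
      obtain ⟨-, h1, h2, h3, h4, h5⟩ := key w (mem_filter.1 hw).1 (mem_filter.1 hw).2
      rw [h3]; exact ⟨h1, h2, h4, h5⟩
  · rw [sum_const, nsmul_eq_mul]
    exact mul_le_mul_of_nonneg_right (sm_seg hσ) hJ0

/-- Cherries with equal ratios. -/
lemma sm_eq {Q : Finset (E d)} (hQ : Set.InjOn nq (Q : Set (E d))) {l : E d → Lab d}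
    {own : E d → Submodule ℝ (LL d)} {L : ℕ} {S : Finset ((E d × E d) × (E d × E d))}
    (hS : ∀ w ∈ S, w ∈ quads Q l own ∧ w.2.1 ≠ w.1.1 ∧ #(clq Q l (l w.1.1) (homOf w)) < L)
    {C : Finset (((E d × E d) × (E d × E d)) × ((E d × E d) × (E d × E d)))}
    (hC : ∀ c ∈ C, c.1 ∈ S ∧ c.2 ∈ S ∧ c.1.1.1 = c.2.1.1 ∧ c.1.2.1 = c.2.2.1 ∧
      lamOf c.1.1.1 c.1.2.1 c.1.1.2 = lamOf c.2.1.1 c.2.2.1 c.2.1.2) : (#C : ℝ) ≤ #S * L := by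
  rw [← card_image_of_injOn (f := fun c => (c.1, c.2.1.2)) fun c hc c' hc' e => ?_]
  · refine sm_pair_le (fun p => p.2 ∈ clq Q l (l p.1.1.1) (homOf p.1)) (fun p hp => ?_)
      fun w hw A hA => Nat.cast_le.2 (le_trans (card_le_card hA) (hS w hw).2.2.le)
    obtain ⟨c, hc, rfl⟩ := mem_image.1 hp
    obtain ⟨h1, h2, h3, h4, h5⟩ := hC c hc
    have hh : homOf c.1 = homOf c.2 := by simp only [homOf]; rw [h5, h3, h4]
    refine ⟨h1, ?_⟩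
    dsimp only
    rw [hh, h3]
    exact (mem_clq hQ (hS _ h2).1 (hS _ h2).2.1).2.2.2.2
  · obtain ⟨-, h2, h3, h4, -⟩ := hC c hc
    obtain ⟨-, h2', h3', h4', -⟩ := hC c' hc'
    obtain ⟨e1, e2⟩ := Prod.mk.inj e
    exact Prod.ext e1 (sm_ext hQ (hS _ h2).1 (hS _ h2').1 (by rw [← h3, ← h3', e1])
      (by rw [← h4, ← h4', e1]) e2)

/-- Cherries whose plane is not the own plane of the apex. -/
lemma sm_ne {Q : Finset (E d)} (hQ : Set.InjOn nq (Q : Set (E d))) {l l' : E d → Lab d}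
    {own : E d → Submodule ℝ (LL d)} {σ σ' a : ℝ} (hσ : Size Q l σ) (hσ' : Size Q l' σ')
    (h0 : 0 ≤ σ') (ha : Acc Q l own a) (ha0 : 0 ≤ a)
    {C : Finset (((E d × E d) × (E d × E d)) × ((E d × E d) × (E d × E d)))}
    (hC : ∀ c ∈ C, c.1 ∈ quads Q l own ∧ c.2 ∈ quads Q l own ∧ smK l' c.1 = smK l' c.2 ∧
      lamOf c.1.1.1 c.1.2.1 c.1.1.2 ≠ lamOf c.2.1.1 c.2.2.1 c.2.1.2 ∧
      own c.1.1.1 ≠ smPi c.1.1.2 c.1.2.2 c.2.1.2 c.2.2.2) : (#C : ℝ) ≤ #Q * σ * σ' * σ' * a := by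
  set T1 := {p ∈ Q ×ˢ Q | l p.2 = l p.1} with hT1
  set T2 := {p ∈ T1 ×ˢ Q | l' p.2 = l' p.1.1} with hT2
  set T3 := {p ∈ T2 ×ˢ Q | l' p.2 = l' p.1.1.2} with hT3
  have b2 : (#T2 : ℝ) ≤ #T1 * σ' := sm_pair_le (fun p => p.2 ∈ Q ∧ l' p.2 = l' p.1.1)
    (fun p hp => ⟨(mem_product.1 (mem_filter.1 hp).1).1, (mem_product.1 (mem_filter.1 hp).1).2,
      (mem_filter.1 hp).2⟩) fun p _ _ hA => hσ'.sm_le (l' p.1) hA
  have b3 : (#T3 : ℝ) ≤ #T2 * σ' := sm_pair_le (fun p => p.2 ∈ Q ∧ l' p.2 = l' p.1.1.2)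
    (fun p hp => ⟨(mem_product.1 (mem_filter.1 hp).1).1, (mem_product.1 (mem_filter.1 hp).1).2,
      (mem_filter.1 hp).2⟩) fun p _ _ hA => hσ'.sm_le (l' p.1.2) hA
  refine le_trans (?_ : _ ≤ #T3 * a) (mul_le_mul_of_nonneg_right (b3.trans
    (mul_le_mul_of_nonneg_right (b2.trans (mul_le_mul_of_nonneg_right (sm_seg hσ) h0)) h0)) ha0)
  rw [← card_image_of_injOn (f := fun c => ((((c.1.1.2, c.1.2.2), c.2.1.2), c.2.2.2), c.1.1.1))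
    fun c hc c' hc' e => ?_]
  · refine sm_pair_le (fun p => p.2 ∈ Q ∧ l p.2 = l p.1.1.1.1 ∧
      lift p.2 ∈ smPi p.1.1.1.1 p.1.1.1.2 p.1.1.2 p.1.2 ∧
      own p.2 ≠ smPi p.1.1.1.1 p.1.1.1.2 p.1.1.2 p.1.2) (fun p hp => ?_)
      fun p _ _ hA => ha.sm_le (smPi_rank p.1.1.1 p.1.1.2 p.1.2 p.2) (l p.1.1.1) hA
    obtain ⟨c, hc, rfl⟩ := mem_image.1 hp
    obtain ⟨q1, q2, hk, hl, ho⟩ := hC c hc
    simp only [smK, Prod.mk.injEq] at hk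
    obtain ⟨⟨k1, k2⟩, k3, k4⟩ := hk
    obtain ⟨a1, a2, -, a4, a5, -, a7, -, -, -, a11⟩ := sm_facts hQ q1
    obtain ⟨-, c2, -, c4, -, -, -, -, -, -, c11⟩ := sm_facts hQ q2
    have c12 : lift c.2.2.2 = lift c.1.2.1 +
        lamOf c.2.1.1 c.2.2.1 c.2.1.2 • (lift c.2.1.2 - lift c.1.1.1) := by rw [k1, k2]; exact c11
    exact ⟨mem_filter.2 ⟨mem_product.2 ⟨mem_filter.2
      ⟨mem_product.2 ⟨mem_filter.2 ⟨mem_product.2 ⟨a2, a4⟩, a7.trans a5.symm⟩, c2⟩, k3.symm⟩, c4⟩,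
      k4.symm⟩, a1, a5.symm, smPi_mem hl a11 c12, ho⟩
  · obtain ⟨q1, q2, hk, hl, -⟩ := hC c hc
    obtain ⟨q1', q2', hk', -, -⟩ := hC c' hc'
    simp only [smK, Prod.mk.injEq] at hk hk' e
    obtain ⟨⟨k1, k2⟩, -⟩ := hk
    obtain ⟨⟨k1', k2'⟩, -⟩ := hk'
    obtain ⟨⟨⟨⟨e1, e2⟩, e3⟩, e4⟩, e5⟩ := e
    obtain ⟨-, -, -, -, -, -, -, -, a9, -, a11⟩ := sm_facts hQ q1
    obtain ⟨-, -, -, -, -, -, -, -, c9, -, c11⟩ := sm_facts hQ q2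
    have a12 := (sm_facts hQ q1').2.2.2.2.2.2.2.2.2.2
    have c12 := (sm_facts hQ q2').2.2.2.2.2.2.2.2.2.2
    have n3 : c.1.1.2 ≠ c.2.1.2 := fun h => hl (by rw [k1, k2, h])
    rw [← k1] at c9
    rw [← k1, ← k2] at c11
    rw [← e1, ← e2, ← e5] at a12
    rw [← k1', ← k2', ← e3, ← e4, ← e5] at c12
    have e6 := sm_det a9 c9 n3 a11 c11 a12 c12
    exact Prod.ext (sm_ext hQ q1 q1' e5 e6 e1) (sm_ext hQ q2 q2' (by rw [← k1, ← k1', e5])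
      (by rw [← k2, ← k2', e6]) e3)

/-- Cherries whose plane is the own plane of the apex. -/
lemma sm_own {Q : Finset (E d)} (hQ : Set.InjOn nq (Q : Set (E d))) {l l' : E d → Lab d}
    {own : E d → Submodule ℝ (LL d)} (ho : Own Q own) {σ σ' a : ℝ} (hσ : Size Q l σ)
    (hσ' : Size Q l' σ') (h0 : 0 ≤ σ') (ha : Acc Q l own a) (ha0 : 0 ≤ a)
    {C : Finset (((E d × E d) × (E d × E d)) × ((E d × E d) × (E d × E d)))}
    (hC : ∀ c ∈ C, c.1 ∈ quads Q l own ∧ c.2 ∈ quads Q l own ∧ smK l' c.1 = smK l' c.2 ∧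
      own c.1.1.1 = smPi c.1.1.2 c.1.2.2 c.2.1.2 c.2.2.2) : (#C : ℝ) ≤ #Q * σ * a * σ' := by
  set T1 := {p ∈ Q ×ˢ Q | l p.2 = l p.1} with hT1
  set T2 := {p ∈ T1 ×ˢ Q | l p.2 = l p.1.1 ∧ lift p.2 ∈ own p.1.1 ∧ own p.2 ≠ own p.1.1} with hT2
  have b2 : (#T2 : ℝ) ≤ #T1 * a := sm_pair_le
    (fun p => p.2 ∈ Q ∧ l p.2 = l p.1.1 ∧ lift p.2 ∈ own p.1.1 ∧ own p.2 ≠ own p.1.1)
    (fun p hp => ⟨(mem_product.1 (mem_filter.1 hp).1).1, (mem_product.1 (mem_filter.1 hp).1).2,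
      (mem_filter.1 hp).2⟩) fun p hp _ hA =>
    ha.sm_le (ho _ (mem_product.1 (mem_filter.1 hp).1).1).2 (l p.1) hA
  refine le_trans (?_ : _ ≤ #T2 * σ') (mul_le_mul_of_nonneg_right
    (b2.trans (mul_le_mul_of_nonneg_right (sm_seg hσ) ha0)) h0)
  rw [← card_image_of_injOn (f := fun c => (((c.1.1.1, c.1.2.1), c.1.1.2), c.2.1.2))
    fun c hc c' hc' e => ?_]
  · refine sm_pair_le (fun p => p.2 ∈ Q ∧ l' p.2 = l' p.1.2) (fun p hp => ?_)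
      fun p _ _ hA => hσ'.sm_le (l' p.2) hA
    obtain ⟨c, hc, rfl⟩ := mem_image.1 hp
    obtain ⟨q1, q2, hk, he⟩ := hC c hc
    simp only [smK, Prod.mk.injEq] at hk
    obtain ⟨a1, a2, a3, -, a5, a6, -, a8, -⟩ := sm_facts hQ q1
    refine ⟨mem_filter.2 ⟨mem_product.2 ⟨mem_filter.2
      ⟨mem_product.2 ⟨a1, a3⟩, a6⟩, a2⟩, a5, ?_, a8⟩, (sm_facts hQ q2).2.1, hk.2.1.symm⟩
    change lift c.1.1.2 ∈ own c.1.1.1
    rw [he]
    exact Submodule.subset_span (by simp)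
  · obtain ⟨q1, q2, hk, -⟩ := hC c hc
    obtain ⟨q1', q2', hk', -⟩ := hC c' hc'
    simp only [smK, Prod.mk.injEq] at hk hk' e
    obtain ⟨⟨k1, k2⟩, -⟩ := hk
    obtain ⟨⟨k1', k2'⟩, -⟩ := hk'
    obtain ⟨⟨⟨e1, e2⟩, e3⟩, e4⟩ := e
    exact Prod.ext (sm_ext hQ q1 q1' e1 e2 e3) (sm_ext hQ q2 q2' (by rw [← k1, ← k1', e1])
      (by rw [← k2, ← k2', e2]) e4)

/-- One global Cauchy-Schwarz over the triples (segment `(x, x')` of one cell, class `V`). -/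
theorem small_count {Q : Finset (E d)} (hQ : Set.InjOn nq (Q : Set (E d))) {l l' : E d → Lab d}
    (hr : ∀ x ∈ Q, ∀ z ∈ Q, l' x = l' z → l x = l z) {own : E d → Submodule ℝ (LL d)}
    (ho : Own Q own) {σ σ' a J : ℝ} (hσ : Size Q l σ) (hσ' : Size Q l' σ') (h1 : 1 ≤ σ')
    (ha : Acc Q l own a) (hJ : Joint Q l l' J) (L : ℕ) :
    (Sm Q l own L : ℝ) ≤ #Q * σ * (L * J + σ' * √(2 * J * a)) := by
  have _ := hr
  have hσ0 : 0 ≤ σ := le_trans (Nat.cast_nonneg _) (hσ [])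
  have ha0 : 0 ≤ a := le_trans (Nat.cast_nonneg _) (ha ⊥ (by simp) [])
  have hJ0 : 0 ≤ J := le_trans (Nat.cast_nonneg _)
    (hJ (RMap.id d) [] [] ∅ (empty_subset _) (by simp))
  have h0 : 0 ≤ σ' := zero_le_one.trans h1
  rw [Sm]
  set S := {w ∈ quads Q l own | w.2.1 ≠ w.1.1 ∧ #(clq Q l (l w.1.1) (homOf w)) < L} with hS
  have hq : ∀ w ∈ S, w ∈ quads Q l own := fun w hw => (mem_filter.1 hw).1
  set C := {p ∈ S ×ˢ S | smK l' p.1 = smK l' p.2} with hC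
  have hC' : ∀ c ∈ C, c.1 ∈ S ∧ c.2 ∈ S ∧ smK l' c.1 = smK l' c.2 := fun c hc =>
    ⟨(mem_product.1 (mem_filter.1 hc).1).1, (mem_product.1 (mem_filter.1 hc).1).2,
      (mem_filter.1 hc).2⟩
  set C2 := {c ∈ C | ¬ lamOf c.1.1.1 c.1.2.1 c.1.1.2 = lamOf c.2.1.1 c.2.2.1 c.2.1.2} with hC2
  have s1 := card_filter_add_card_filter_not (s := C)
    (fun c => lamOf c.1.1.1 c.1.2.1 c.1.1.2 = lamOf c.2.1.1 c.2.2.1 c.2.1.2)
  have s2 := card_filter_add_card_filter_not (s := C2)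
    (fun c => own c.1.1.1 = smPi c.1.1.2 c.1.2.2 c.2.1.2 c.2.2.2)
  have b1 := sm_eq hQ (S := S) (fun w hw => mem_filter.1 hw)
    (C := {c ∈ C | lamOf c.1.1.1 c.1.2.1 c.1.1.2 = lamOf c.2.1.1 c.2.2.1 c.2.1.2}) fun c hc => by
      obtain ⟨h2, h3, hk⟩ := hC' c (mem_filter.1 hc).1
      simp only [smK, Prod.mk.injEq] at hk
      exact ⟨h2, h3, hk.1.1, hk.1.2, (mem_filter.1 hc).2⟩
  have b2 := sm_own hQ ho hσ hσ' h0 ha ha0
    (C := {c ∈ C2 | own c.1.1.1 = smPi c.1.1.2 c.1.2.2 c.2.1.2 c.2.2.2}) fun c hc => by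
      obtain ⟨h2, h3, hk⟩ := hC' c (mem_filter.1 (mem_filter.1 hc).1).1
      exact ⟨hq _ h2, hq _ h3, hk, (mem_filter.1 hc).2⟩
  have b3 := sm_ne hQ hσ hσ' h0 ha ha0
    (C := {c ∈ C2 | ¬ own c.1.1.1 = smPi c.1.1.2 c.1.2.2 c.2.1.2 c.2.2.2}) fun c hc => by
      obtain ⟨h2, h3, hk⟩ := hC' c (mem_filter.1 (mem_filter.1 hc).1).1
      exact ⟨hq _ h2, hq _ h3, hk, (mem_filter.1 (mem_filter.1 hc).1).2, (mem_filter.1 hc).2⟩
  have b4 := sm_classes hQ hσ hJ hJ0 (S := S) hq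
  have cs : (#S : ℝ) ^ 2 ≤ #(S.image (smK l')) * #C := sm_cs S (smK l')
  rw [← hC2, ← s2] at s1
  set P := (#Q : ℝ) * σ with hP
  have hP0 : 0 ≤ P := by positivity
  have bC : (#C : ℝ) ≤ #S * L + 2 * (P * σ' * σ' * a) := by
    rw [← s1]
    push_cast
    have : P * a * σ' ≤ P * σ' * σ' * a := by
      nlinarith [mul_nonneg (mul_nonneg hP0 ha0) h0]
    linarith
  have hs : √(2 * J * a) ^ 2 = 2 * J * a := Real.sq_sqrt (by positivity)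
  have := sm_quad (x := #S) (p := P * L * J) (q := P * σ' * √(2 * J * a)) (by positivity)
    (by
      calc (#S : ℝ) ^ 2 ≤ _ := cs
        _ ≤ (P * J) * (#S * L + 2 * (P * σ' * σ' * a)) :=
          mul_le_mul b4 bC (Nat.cast_nonneg _) (by positivity)
        _ = _ := by rw [mul_pow, hs]; ring) (by positivity)
  linarith

end Pool.Agent.P.MP_5f07f1_co
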