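import Pool.Agent.P.MP_5f07f1_co.Build
import Pool.Agent.P.MP_5f07f1_co.Multi
import Pool.Agent.P.MP_5f07f1_co.EnStep
import Pool.Agent.P.MP_5f07f1_co.Small

/-! Task PACK: the unrolled energy bound and the package (paper section 3). -/

namespace Pool.Agent.P.MP_5f07f1_co

open Finset MvPolynomial Pool.Agent.Lib.PolyPart Classical

variable {d : ℕ}

lemma pk_down {s : ℕ} {p : ℕ → Prop} (h0 : p s) (h1 : ∀ i < s, p (i + 1) → p i) :
    ∀ i ≤ s, p i := by
  have : ∀ m i, i + m = s → p i := by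
    intro m
    induction m with
    | zero => intro i hi; obtain rfl : i = s := by omega
              exact h0
    | succ m ih => intro i hi; exact h1 i (by omega) (ih (i + 1) (by omega))
  intro i hi
  exact this (s - i) i (by omega)

lemma pk_unroll {s : ℕ} {e A Φ L : ℕ → ℝ} {K : ℝ} (hK : 0 ≤ K) (hΦ : ∀ i, 0 ≤ Φ i)
    (hA : ∀ i, 0 ≤ A i) (hL : ∀ i < s, 4 ≤ L i)
    (h1 : ∀ i < s, e i ≤ A i * e (i + 1) + K * Φ i)
    (h2 : ∀ i < s, A i * Φ (i + 1) ≤ 2 * L i ^ 2 * Φ i) (h3 : e s ≤ K * Φ s) :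
    ∀ i ≤ s, e i ≤ K * (∏ k ∈ Ico i s, L k) ^ 3 * Φ i := by
  refine pk_down (by simpa using h3) fun i hi ih => ?_
  rw [prod_eq_prod_Ico_succ_bot hi]
  set P := ∏ k ∈ Ico (i + 1) s, L k with hP
  have hP1 : 1 ≤ P := Finset.one_le_prod fun k hk => by
    have := hL k (mem_Ico.1 hk).2; linarith
  have hP3 : 1 ≤ P ^ 3 := one_le_pow₀ hP1
  have hLi := hL i hi
  have e1 : A i * e (i + 1) ≤ K * P ^ 3 * (2 * L i ^ 2 * Φ i) := by
    calc A i * e (i + 1) ≤ A i * (K * P ^ 3 * Φ (i + 1)) := mul_le_mul_of_nonneg_left ih (hA i)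
      _ = K * P ^ 3 * (A i * Φ (i + 1)) := by ring
      _ ≤ _ := mul_le_mul_of_nonneg_left (h2 i hi) (by positivity)
  have e2 : 2 * L i ^ 2 * P ^ 3 + 1 ≤ L i ^ 3 * P ^ 3 := by
    have a1 : 16 ≤ L i ^ 2 := by nlinarith
    have a2 : 16 ≤ L i ^ 2 * P ^ 3 := by nlinarith
    nlinarith
  have e3 := mul_le_mul_of_nonneg_left e2 (mul_nonneg hK (hΦ i))
  have := h1 i hi
  calc e i ≤ K * P ^ 3 * (2 * L i ^ 2 * Φ i) + K * Φ i := by linarith
    _ = K * Φ i * (2 * L i ^ 2 * P ^ 3 + 1) := by ring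
    _ ≤ K * Φ i * (L i ^ 3 * P ^ 3) := e3
    _ = _ := by ring

lemma pk_bottom (Q : Finset (E d)) (l : E d → Lab d) (own : E d → Submodule ℝ (LL d)) {M : ℕ}
    (h : ∀ b, #{z ∈ Q | l z = b} ≤ M) : En Q l own ≤ M ^ 3 * #Q := by
  unfold En
  refine card_le_mul_card_image_of_maps_to (f := fun w => w.1.1) (fun w hw => ?_) _
    (fun x _ => ?_)
  · simp only [quads, prs, mem_filter, mem_product] at hw
    exact hw.1.1.1.1
  · set C := {z ∈ Q | l z = l x} with hC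
    have hc : #C ≤ M := h _
    calc _ ≤ #(C ×ˢ C ×ˢ C) := by
          refine card_le_card_of_injOn (fun w => (w.1.2, w.2.1, w.2.2)) (fun w hw => ?_)
            (fun w hw w' hw' e => ?_)
          · simp only [quads, prs, coe_filter, mem_filter, mem_product, Set.mem_ofPred_eq] at hw
            obtain ⟨⟨⟨⟨⟨a1, a2⟩, a3, a4⟩, ⟨a5, a6⟩, a7, a8⟩, a9, a10⟩, rfl⟩ := hw
            simp only [hC, coe_product, coe_filter, Set.mem_prod, Set.mem_ofPred_eq]
            exact ⟨⟨a2, a3.symm⟩, ⟨a5, a9.symm⟩, a6, a7.symm.trans a9.symm⟩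
          · simp only [coe_filter, Set.mem_ofPred_eq] at hw hw'
            simp only [Prod.mk.injEq] at e
            exact Prod.ext (Prod.ext (hw.2.trans hw'.2.symm) e.1) (Prod.ext e.2.1 e.2.2)
      _ = #C * (#C * #C) := by rw [card_product, card_product]
      _ ≤ M * (M * M) := by gcongr
      _ = M ^ 3 := by ring

/-- The error terms of one level. -/
lemma pk_err {q n σ z ρ w M N a J : ℝ} (hq0 : 0 ≤ q) (hq : q ≤ n) (hz : 1 ≤ z) (hρ : 1 ≤ ρ)
    (hσ : σ = ρ * z ^ 3) (hw : 1 ≤ w) (hM : 1 ≤ M) (hN0 : 0 ≤ N) (hN : N ≤ M ^ 2) (ha0 : 0 ≤ a)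
    (ha : a ≤ (M + 2) * (w * ρ)) (hJ0 : 0 ≤ J) (hJ : J ≤ w * (σ / z)) :
    q * σ * (2 + 12 * (8 * N) ^ 2 * a) + q * σ * (24 * N * J + M * z * √(2 * J * a)) ≤
      (2 + 768 * M ^ 4 * (M + 2) + 24 * M ^ 2 + 2 * M * (M + 2)) * w * n * (σ ^ 2 / z) := by
  have hz0 : 0 < z := by linarith
  have hy : σ / z = ρ * z ^ 2 := by rw [hσ]; field_simp
  have hz2 : 1 ≤ z ^ 2 := one_le_pow₀ hz
  set y := σ / z with hyd
  have hρy : ρ ≤ y := by rw [hy]; nlinarith
  have hy1 : 1 ≤ y := hρ.trans hρy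
  have hσ0 : 0 ≤ σ := by rw [hσ]; positivity
  have hs : √(2 * J * a) ≤ 2 * (M + 2) * w * (ρ * z) := by
    refine Real.sqrt_le_iff.2 ⟨by positivity, ?_⟩
    have b1 : J * a ≤ (w * (ρ * z ^ 2)) * ((M + 2) * (w * ρ)) :=
      mul_le_mul (hy ▸ hJ) ha ha0 (by positivity)
    have b2 : 0 ≤ (w * (ρ * z)) ^ 2 := by positivity
    have b3 : 2 * (M + 2) ≤ (2 * (M + 2)) ^ 2 := by nlinarith
    calc 2 * J * a ≤ 2 * (M + 2) * (w * (ρ * z)) ^ 2 := by nlinarith
      _ ≤ (2 * (M + 2)) ^ 2 * (w * (ρ * z)) ^ 2 := mul_le_mul_of_nonneg_right b3 b2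
      _ = _ := by ring
  have t1 : (2 : ℝ) ≤ 2 * (w * y) := by nlinarith
  have t2 : 12 * (8 * N) ^ 2 * a ≤ 768 * M ^ 4 * (M + 2) * (w * y) := by
    have c1 : N ^ 2 ≤ (M ^ 2) ^ 2 := pow_le_pow_left₀ hN0 hN 2
    have c2 : a ≤ (M + 2) * (w * y) := ha.trans (by gcongr)
    calc 12 * (8 * N) ^ 2 * a = 768 * (N ^ 2 * a) := by ring
      _ ≤ 768 * ((M ^ 2) ^ 2 * ((M + 2) * (w * y))) := by gcongr
      _ = _ := by ring
  have t3 : 24 * N * J ≤ 24 * M ^ 2 * (w * y) := by gcongr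
  have t4 : M * z * √(2 * J * a) ≤ 2 * M * (M + 2) * (w * y) := by
    calc M * z * √(2 * J * a) ≤ M * z * (2 * (M + 2) * w * (ρ * z)) := by gcongr
      _ = _ := by rw [hy]; ring
  have t5 : (2 + 12 * (8 * N) ^ 2 * a) + (24 * N * J + M * z * √(2 * J * a)) ≤
      (2 + 768 * M ^ 4 * (M + 2) + 24 * M ^ 2 + 2 * M * (M + 2)) * (w * y) := by nlinarith
  have hn0 : 0 ≤ n := hq0.trans hq
  calc _ = q * σ * ((2 + 12 * (8 * N) ^ 2 * a) + (24 * N * J + M * z * √(2 * J * a))) := by ring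
    _ ≤ n * σ * ((2 + 768 * M ^ 4 * (M + 2) + 24 * M ^ 2 + 2 * M * (M + 2)) * (w * y)) := by
        gcongr
    _ = _ := by rw [hyd]; ring

noncomputable def pkx (D j : ℕ → ℕ) (k : ℕ) : ℝ := Real.log (D (j k))
noncomputable def pkb (D j : ℕ → ℕ) (i : ℕ) : ℝ := ∑ k ∈ range i, (j k : ℝ) * pkx D j k
noncomputable def pkr (D j : ℕ → ℕ) (i : ℕ) : ℝ := ∑ k ∈ range i, pkx D j k

lemma pkx_nonneg (D j : ℕ → ℕ) (k : ℕ) : 0 ≤ pkx D j k := Real.log_natCast_nonneg _

lemma pkb_succ (D j : ℕ → ℕ) (i : ℕ) : pkb D j (i + 1) = pkb D j i + j i * pkx D j i :=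
  sum_range_succ _ _

lemma pkr_succ (D j : ℕ → ℕ) (i : ℕ) : pkr D j (i + 1) = pkr D j i + pkx D j i :=
  sum_range_succ _ _

lemma pkb_mono (D j : ℕ → ℕ) : Monotone (pkb D j) := monotone_nat_of_le_succ fun i => by
  rw [pkb_succ]; have := mul_nonneg (Nat.cast_nonneg (α := ℝ) (j i)) (pkx_nonneg D j i); linarith

lemma pkr_mono (D j : ℕ → ℕ) : Monotone (pkr D j) := monotone_nat_of_le_succ fun i => by
  rw [pkr_succ]; have := pkx_nonneg D j i; linarith

lemma pk_logs {s p : ℕ} {D j : ℕ → ℕ} {ν g c : ℝ} (hj : ∀ k < s, 1 ≤ j k ∧ j k ≤ d) (hp : p ≤ s)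
    (hp2 : ∀ k < p, 2 ≤ j k) (hp1 : ∀ k, p ≤ k → k < s → j k = 1) (hν : pkb D j s ≤ ν)
    (hc : 0 ≤ c) (h1 : g + c ≤ 1 / 3) (h3 : ∀ j : ℕ, 2 ≤ j → j ≤ d → g * j + c ≤ (j - 1) / 3) :
    ∀ i ≤ s, 2 * ∑ k ∈ Ico i p, pkx D j k ≤ ν - pkb D j i ∧
      g * (ν - pkb D j i) + c * (pkr D j s - pkr D j i) ≤
        (ν - pkb D j i - ∑ k ∈ Ico i p, pkx D j k) / 3 := by
  refine pk_down ?_ fun i hi ih => ?_
  · rw [Ico_eq_empty (by omega), sum_empty]
    constructor <;> nlinarith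
  · have hx := pkx_nonneg D j i
    rw [pkb_succ, pkr_succ] at ih
    by_cases hip : i < p
    · rw [sum_eq_sum_Ico_succ_bot hip]
      have a1 : (2 : ℝ) ≤ j i := by exact_mod_cast hp2 i hip
      have a2 := mul_le_mul_of_nonneg_right (h3 (j i) (hp2 i hip) (hj i hi).2) hx
      constructor <;> nlinarith [ih.1, ih.2]
    · rw [Ico_eq_empty (by omega), sum_empty] at ih ⊢
      rw [hp1 i (by omega) hi] at ih
      have a2 := mul_le_mul_of_nonneg_right h1 hx
      push_cast at ih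
      constructor <;> nlinarith [ih.1, ih.2]

section

variable {D Λ : ℕ → ℕ} {M n s : ℕ} {Q : Finset (E d)} {j : ℕ → ℕ} {l : ℕ → E d → Lab d}
  {core : ℕ → E d → Set (E d)} {η : ℝ}

lemma pk_exp (hp : Par d η D Λ M) (h : PTree D Λ M n Q s j l core) {k : ℕ} (hk : k < s) :
    Real.exp (pkx D j k) = D (j k) := by
  have := (hp _ (h.pos k hk).1 (h.pos k hk).2).2.2.1
  exact Real.exp_log (by exact_mod_cast (by omega : 0 < D (j k)))

lemma pk_pow (hp : Par d η D Λ M) (h : PTree D Λ M n Q s j l core) {T : Finset ℕ}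
    (hT : T ⊆ range s) (m : ℕ → ℕ) :
    ∏ k ∈ T, (D (j k) : ℝ) ^ m k = Real.exp (∑ k ∈ T, (m k : ℝ) * pkx D j k) := by
  rw [Real.exp_sum]
  refine prod_congr rfl fun k hk => ?_
  rw [Real.exp_nat_mul, pk_exp hp h (mem_range.1 (hT hk))]

lemma pk_B (hp : Par d η D Λ M) (h : PTree D Λ M n Q s j l core) {i : ℕ} (hi : i ≤ s) :
    ((∏ k ∈ range i, D (j k) ^ j k : ℕ) : ℝ) = Real.exp (pkb D j i) := by
  push_cast
  exact pk_pow hp h (range_subset_range.2 hi) j

lemma pk_top (hp : Par d η D Λ M) (h : PTree D Λ M n Q s j l core) :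
    pkb D j s ≤ Real.log n := by
  refine Real.le_log_iff_exp_le ?_ |>.2 ?_
  · have := h.top
    have h2 : ((∏ k ∈ range s, D (j k) ^ j k : ℕ) : ℝ) ≤ n := by exact_mod_cast this
    rw [pk_B hp h le_rfl] at h2
    exact (Real.exp_pos _).trans_le h2
  · rw [← pk_B hp h le_rfl]; exact_mod_cast h.top

lemma pk_rb (h : PTree D Λ M n Q s j l core) {i : ℕ} (hi : i ≤ s) :
    pkr D j i ≤ pkb D j i ∧ pkb D j i ≤ d * pkr D j i := by
  unfold pkr pkb
  rw [mul_sum]
  constructor <;> refine sum_le_sum fun k hk => ?_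
  · have a : (1 : ℝ) ≤ j k := by exact_mod_cast (h.pos k (by simp at hk; omega)).1
    nlinarith [pkx_nonneg D j k]
  · have a : (j k : ℝ) ≤ d := by exact_mod_cast (h.pos k (by simp at hk; omega)).2
    exact mul_le_mul_of_nonneg_right a (pkx_nonneg D j k)

lemma pk_lam (hη : 0 ≤ η) (hp : Par d η D Λ M) (h : PTree D Λ M n Q s j l core) {T : Finset ℕ}
    (hT : T ⊆ range s) : ∏ k ∈ T, (Λ (j k) : ℝ) ≤ Real.exp (η * Real.log n) := by
  calc ∏ k ∈ T, (Λ (j k) : ℝ) ≤ ∏ k ∈ T, Real.exp (η * pkx D j k) := by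
        refine prod_le_prod (fun _ _ => by positivity) fun k hk => ?_
        have hk' := mem_range.1 (hT hk)
        have a := (hp _ (h.pos k hk').1 (h.pos k hk').2).2.1
        rwa [← pk_exp hp h hk', ← Real.exp_mul, mul_comm] at a
    _ = Real.exp (η * ∑ k ∈ T, pkx D j k) := by rw [mul_sum, Real.exp_sum]
    _ ≤ _ := by
        refine Real.exp_le_exp.2 (mul_le_mul_of_nonneg_left ?_ hη)
        refine le_trans ?_ ((pk_rb h le_rfl).1.trans (pk_top hp h))
        exact sum_le_sum_of_subset_of_nonneg hT fun k _ _ => pkx_nonneg D j k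

lemma pk_prod (hη : 0 ≤ η) (hp : Par d η D Λ M) (h : PTree D Λ M n Q s j l core) {T : Finset ℕ}
    (hT : T ⊆ range s) (m : ℕ → ℕ) : ((∏ k ∈ T, Λ (j k) * D (j k) ^ m k : ℕ) : ℝ) ≤
      Real.exp (η * Real.log n) * Real.exp (∑ k ∈ T, (m k : ℝ) * pkx D j k) := by
  push_cast
  rw [prod_mul_distrib, pk_pow hp h hT]
  exact mul_le_mul_of_nonneg_right (pk_lam hη hp h hT) (Real.exp_pos _).le

lemma pk_prod1 (hη : 0 ≤ η) (hp : Par d η D Λ M) (h : PTree D Λ M n Q s j l core) {T : Finset ℕ}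
    (hT : T ⊆ range s) : ((∏ k ∈ T, Λ (j k) * D (j k) : ℕ) : ℝ) ≤
      Real.exp (η * Real.log n) * Real.exp (∑ k ∈ T, pkx D j k) := by
  simpa using pk_prod hη hp h hT fun _ => 1

lemma pk_size (hp : Par d η D Λ M) (h : PTree D Λ M n Q s j l core) (hn : 1 ≤ n) {i : ℕ}
    (hi : i ≤ s) : Size Q (l i) (Real.exp (Real.log n - pkb D j i)) := fun b => by
  have a : ((#{z ∈ Q | l i z = b} * ∏ k ∈ range i, D (j k) ^ j k : ℕ) : ℝ) ≤ n := by
    exact_mod_cast h.size i hi b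
  rw [Nat.cast_mul, pk_B hp h hi] at a
  rw [Real.exp_sub, Real.exp_log (by exact_mod_cast hn), le_div_iff₀ (Real.exp_pos _)]
  exact a

lemma pk_DM (hp : Par d η D Λ M) (h : PTree D Λ M n Q s j l core) {k m : ℕ} (hk : k < s)
    (hm : m ≤ d) : D (j k) ^ m ≤ M := by
  obtain ⟨-, -, a, b, -⟩ := hp _ (h.pos k hk).1 (h.pos k hk).2
  exact (Nat.pow_le_pow_right (by omega) hm).trans b

/-- A finer level whose cells have about `exp t` points. -/
lemma pk_fine (hp : Par d η D Λ M) (h : PTree D Λ M n Q s j l core) (hn : 1 ≤ n) {i : ℕ}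
    (hi : i ≤ s) {t : ℝ} (ht0 : 0 ≤ t) (ht : t ≤ Real.log n - pkb D j i) :
    ∃ i', i ≤ i' ∧ i' ≤ s ∧ t ≤ Real.log n - pkb D j i' ∧ Size Q (l i') (M * Real.exp t) := by
  have hi' := Nat.le_findGreatest (P := fun k => t ≤ Real.log n - pkb D j k) hi ht
  have hs := Nat.findGreatest_le (P := fun k => t ≤ Real.log n - pkb D j k) s
  have hsp := Nat.findGreatest_spec (P := fun k => t ≤ Real.log n - pkb D j k) hi ht
  set i' := Nat.findGreatest (fun k => t ≤ Real.log n - pkb D j k) s with hi'd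
  refine ⟨i', hi', hs, hsp, fun b => ?_⟩
  rcases hs.eq_or_lt with e | e
  · have a : (#{z ∈ Q | l s z = b} : ℝ) ≤ M := by exact_mod_cast h.bot b
    rw [e]
    exact a.trans (le_mul_of_one_le_right (by positivity) (Real.one_le_exp ht0))
  · have a := Nat.findGreatest_is_greatest (P := fun k => t ≤ Real.log n - pkb D j k)
      (k := i' + 1) (n := s) (by omega) e
    rw [not_le, pkb_succ] at a
    refine (pk_size hp h hn hs b).trans ?_
    have b1 : Real.exp (j i' * pkx D j i') ≤ M := by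
      rw [Real.exp_nat_mul, pk_exp hp h e]
      exact_mod_cast pk_DM hp h e (h.pos _ e).2
    calc _ ≤ Real.exp (j i' * pkx D j i' + t) := Real.exp_le_exp.2 (by linarith)
      _ ≤ _ := by rw [Real.exp_add]; gcongr

lemma pk_energy {g c : ℝ} (hη : 0 ≤ η) (hp : Par d η D Λ M) (hM : 1 ≤ M)
    (h : PTree D Λ M n Q s j l core) (hn : 1 ≤ n) (hQn : #Q ≤ n)
    (hQ : Set.InjOn nq (Q : Set (E d))) (hg : 0 ≤ g) (hc : 0 ≤ c) (h1 : g + c ≤ 1 / 3)
    (h2 : g * d + c ≤ 2) (h3 : ∀ j : ℕ, 2 ≤ j → j ≤ d → g * j + c ≤ (j - 1) / 3) :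
    ∃ own, Own Q own ∧ ∀ i ≤ s, (En Q (l i) own : ℝ) ≤
      (2 + 768 * M ^ 4 * (M + 2) + 24 * M ^ 2 + 2 * M * (M + 2)) *
        Real.exp (η * Real.log n) ^ 4 * n *
        Real.exp ((2 - g) * (Real.log n - pkb D j i) + c * (pkr D j i - pkr D j s)) := by
  obtain ⟨own, p, hps, hp2, hp1, ho, hacc⟩ := h.exists_own hp
  refine ⟨own, ho, fun i hi => ?_⟩
  set ν := Real.log n with hν
  set w := Real.exp (η * ν) with hw
  set K : ℝ := 2 + 768 * M ^ 4 * (M + 2) + 24 * M ^ 2 + 2 * M * (M + 2) with hK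
  have hM' : (1 : ℝ) ≤ M := by exact_mod_cast hM
  have hν0 : 0 ≤ ν := Real.log_natCast_nonneg _
  have hw1 : 1 ≤ w := Real.one_le_exp (mul_nonneg hη hν0)
  have hK0 : 0 ≤ K := by positivity
  have hQn' : (#Q : ℝ) ≤ n := by exact_mod_cast hQn
  have htop : pkb D j s ≤ ν := pk_top hp h
  have hlog := pk_logs h.pos hps hp2 hp1 htop hc h1 h3
  have key := pk_unroll (s := s) (e := fun i => (En Q (l i) own : ℝ))
    (A := fun i => 2 * ((Λ (j i) * D (j i) ^ (j i - 1) : ℕ) : ℝ) ^ 2)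
    (Φ := fun i => Real.exp ((2 - g) * (ν - pkb D j i) + c * (pkr D j i - pkr D j s)))
    (L := fun i => (Λ (j i) : ℝ)) (K := K * w * n) (by positivity) (fun _ => by positivity)
    (fun _ => by positivity)
    (fun k hk => by exact_mod_cast (hp _ (h.pos k hk).1 (h.pos k hk).2).1) ?_ ?_ ?_ i hi
  · refine key.trans ?_
    have a := pk_lam hη hp h (T := Ico i s) fun k hk => mem_range.2 (mem_Ico.1 hk).2
    have a0 : 0 ≤ ∏ k ∈ Ico i s, (Λ (j k) : ℝ) := prod_nonneg fun _ _ => by positivity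
    have a3 := pow_le_pow_left₀ a0 a 3
    calc _ ≤ K * w * n * w ^ 3 *
          Real.exp ((2 - g) * (ν - pkb D j i) + c * (pkr D j i - pkr D j s)) := by gcongr
      _ = _ := by ring
  · intro k hk
    obtain ⟨p4, -, p2, -, pM⟩ := hp _ (h.pos k hk).1 (h.pos k hk).2
    obtain ⟨l1, l2⟩ := hlog k hk.le
    set q := ∑ k ∈ Ico k p, pkx D j k with hq
    have hq0 : 0 ≤ q := sum_nonneg fun k _ => pkx_nonneg D j k
    set t := (ν - pkb D j k - q) / 3 with ht
    have ht0 : 0 ≤ t := by linarith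
    obtain ⟨i', a1, a2, a3, a4⟩ := pk_fine hp h hn hk.le ht0 (by linarith)
    have hsz := pk_size hp h hn hk.le
    have hsub : Ico k p ⊆ range s := fun x hx => mem_range.2 ((mem_Ico.1 hx).2.trans_le hps)
    have ha1 : 1 ≤ (M + 2) * ∏ k ∈ Ico k p, Λ (j k) * D (j k) := by
      refine Nat.mul_pos (by omega) (prod_pos fun x hx => ?_)
      have hx' := mem_range.1 (hsub hx)
      obtain ⟨p4, -, p2, -, -⟩ := hp _ (h.pos x hx').1 (h.pos x hx').2
      exact Nat.mul_pos (by omega) (by omega)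
    have e1 := energy_step hQ (h.lvl k hk) ho hsz (hacc k hk.le) (by exact_mod_cast ha1) rfl
      (Nat.mul_pos (by omega) (by positivity))
    have hz1 : 1 ≤ Real.exp t := Real.one_le_exp ht0
    have e2 := small_count hQ (h.refine a1 a2) ho hsz a4 (by nlinarith) (hacc k hk.le)
      (h.jointM a1 a2) (24 * (Λ (j k) * D (j k) ^ (j k - 1)))
    have e3 := pk_err (q := #Q) (n := n) (σ := Real.exp (ν - pkb D j k)) (z := Real.exp t)
      (ρ := Real.exp q) (w := w) (M := M) (N := ((Λ (j k) * D (j k) ^ (j k - 1) : ℕ) : ℝ))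
      (a := (((M + 2) * ∏ k ∈ Ico k p, Λ (j k) * D (j k) : ℕ) : ℝ))
      (J := ((∏ k ∈ Ico k i', Λ (j k) * D (j k) ^ j k : ℕ) : ℝ)) (by positivity) hQn' hz1
      (Real.one_le_exp hq0) ?_ hw1 hM' (by positivity) ?_ (by positivity) ?_ (by positivity) ?_
    · have e4 : Real.exp (ν - pkb D j k) ^ 2 / Real.exp t ≤
          Real.exp ((2 - g) * (ν - pkb D j k) + c * (pkr D j k - pkr D j s)) := by
        rw [← Real.exp_nat_mul, ← Real.exp_sub]
        refine Real.exp_le_exp.2 ?_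
        push_cast
        linarith
      have e5 := mul_le_mul_of_nonneg_left e4 (by positivity : 0 ≤ K * w * n)
      rw [Nat.cast_mul 24, Nat.cast_ofNat] at e2
      linarith
    · rw [← Real.exp_nat_mul, ← Real.exp_add]
      congr 1
      push_cast
      rw [ht]; ring
    · have := Nat.mul_le_mul pM (pk_DM hp h hk (m := j k - 1) (by have := (h.pos k hk).2; omega))
      rw [sq]; exact_mod_cast this
    · rw [Nat.cast_mul]
      have := pk_prod1 hη hp h hsub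
      push_cast at this ⊢
      gcongr
    · refine (pk_prod hη hp h (fun x hx => mem_range.2 ((mem_Ico.1 hx).2.trans_le a2)) j).trans ?_
      rw [← Real.exp_sub, sum_Ico_eq_sub _ a1]
      refine mul_le_mul_of_nonneg_left (Real.exp_le_exp.2 ?_) (by positivity)
      change pkb D j i' - pkb D j k ≤ _
      linarith
  · intro k hk
    have hj1 := (h.pos k hk).1
    have hjd : (j k : ℝ) ≤ d := by exact_mod_cast (h.pos k hk).2
    have hx := pkx_nonneg D j k
    have e : (((D (j k) ^ (j k - 1) : ℕ) : ℝ)) ^ 2 = Real.exp (2 * (j k - 1) * pkx D j k) := by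
      push_cast
      rw [← pk_exp hp h hk, ← Real.exp_nat_mul, ← Real.exp_nat_mul]
      congr 1
      rw [Nat.cast_sub hj1]; push_cast; ring
    rw [Nat.cast_mul, mul_pow, e, ← mul_assoc, mul_assoc _ (Real.exp _), ← Real.exp_add]
    refine mul_le_mul_of_nonneg_left (Real.exp_le_exp.2 ?_) (by positivity)
    rw [pkb_succ, pkr_succ]
    have a : g * j k + c ≤ 2 := by nlinarith
    nlinarith [mul_le_mul_of_nonneg_right a hx]
  · have a : (En Q (l s) own : ℝ) ≤ M ^ 3 * #Q := by exact_mod_cast pk_bottom Q (l s) own h.bot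
    have b : 1 ≤ Real.exp ((2 - g) * (ν - pkb D j s) + c * (pkr D j s - pkr D j s)) :=
      Real.one_le_exp (by nlinarith)
    have c1 : (M : ℝ) ^ 3 ≤ K := by
      have : (M : ℝ) ^ 3 ≤ M ^ 4 := pow_le_pow_right₀ hM' (by norm_num)
      have : (0 : ℝ) ≤ M ^ 4 := by positivity
      rw [hK]; nlinarith
    calc _ ≤ (M : ℝ) ^ 3 * #Q := a
      _ = M ^ 3 * 1 * #Q * 1 := by ring
      _ ≤ _ := by gcongr

end

theorem package (d : ℕ) (hd : 1 ≤ d) {g c η : ℝ} (hη : 0 < η) (hg : 0 ≤ g) (hc : 0 ≤ c)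
    (h1 : g + c ≤ 1 / 3) (h2 : g * d + c ≤ 2) (h3 : ∀ j : ℕ, 2 ≤ j → j ≤ d → g * j + c ≤ (j - 1) / 3) :
    ∃ C : ℝ, 1 ≤ C ∧ ∀ P : Finset (E d), Set.InjOn nq (P : Set (E d)) → ∀ R₀ n u : ℝ, n = #P →
      u = C * n ^ η → 1 ≤ n → 1 ≤ R₀ → u * R₀ ^ d ≤ n →
      ∃ Q ⊆ P, ∃ (l : E d → Lab d) (own : E d → Submodule ℝ (LL d)) (R σ S : ℝ),
        n ≤ u * #Q ∧ R₀ ≤ R ∧ R ≤ C * R₀ ∧ R ≤ S ∧ 1 ≤ σ ∧ Size Q l σ ∧ n ≤ σ * R ^ d ∧
        #(Q.image l) * σ ≤ u * n ∧ Sep Q l (u * n / (σ * R)) ∧ Own Q own ∧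
        (En Q l own : ℝ) ≤ u * n * σ ^ (2 - g) * (R / S) ^ c ∧
        (∀ W, IsDim 1 W → (#{z ∈ Q | z ∈ W} : ℝ) ≤ u * S) ∧ n ≤ u * S ^ d := by
  have hη' : 0 < η / 4 := by positivity
  obtain ⟨D, Λ, M, C0, hp, hM, hT⟩ := exists_ptree d hη'
  have hM' : (1 : ℝ) ≤ M := by exact_mod_cast hM
  have hC0 : (0 : ℝ) ≤ C0 := by positivity
  set K : ℝ := 2 + 768 * M ^ 4 * (M + 2) + 24 * M ^ 2 + 2 * M * (M + 2) with hK
  have hK0 : 0 ≤ K := by positivity
  have hCM : (0 : ℝ) ≤ C0 * M := by positivity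
  refine ⟨K + C0 * M + C0 + M, by linarith, fun P hP R₀ n u hn hu hn1 hR₀ hRn => ?_⟩
  set C := K + C0 * M + C0 + M with hC
  subst hn
  have hn1' : 1 ≤ #P := by exact_mod_cast hn1
  obtain ⟨Q, hQP, s, j, l, core, h, hPQ⟩ := hT P (card_pos.1 hn1')
  obtain ⟨own, ho, hEn⟩ := pk_energy hη'.le hp hM h hn1' (card_le_card hQP)
    (hP.mono (by exact_mod_cast hQP)) hg hc h1 h2 h3
  set ν := Real.log (#P : ℝ) with hν
  set w := Real.exp (η / 4 * ν) with hw
  have hν0 : 0 ≤ ν := Real.log_natCast_nonneg _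
  have hw1 : 1 ≤ w := Real.one_le_exp (by positivity)
  have hnν : (#P : ℝ) = Real.exp ν := (Real.exp_log (by linarith)).symm
  have hu4 : u = C * w ^ 4 := by
    rw [hu, Real.rpow_def_of_pos (by linarith), hw, ← Real.exp_nat_mul]
    congr 2; push_cast; ring
  have hw2 : w ^ 2 ≤ w ^ 4 := pow_le_pow_right₀ hw1 (by norm_num)
  have hw14 : w ≤ w ^ 4 := le_self_pow₀ hw1 (by norm_num)
  have hw4 : 0 ≤ w ^ 4 := by positivity
  have u1 : C0 * w ≤ u := by rw [hu4]; exact mul_le_mul (by linarith) hw14 (by linarith) (by linarith)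
  have u2 : C0 * M * w ^ 2 ≤ u := by
    rw [hu4]; exact mul_le_mul (by linarith) hw2 (by positivity) (by linarith)
  have u3 : M * w ≤ u := by rw [hu4]; exact mul_le_mul (by linarith) hw14 (by linarith) (by linarith)
  have u4 : K * w ^ 4 ≤ u := by rw [hu4]; exact mul_le_mul_of_nonneg_right (by linarith) hw4
  have u5 : w ≤ u := le_trans (by nlinarith) u3
  have hu0 : 0 < u := by linarith
  have f1 : (#P : ℝ) ≤ C0 * w * #Q := by
    have a : (#P : ℝ) ≤ C0 * 4 ^ s * #Q := by exact_mod_cast hPQ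
    have b : (4 : ℝ) ^ s ≤ w := by
      refine le_trans ?_ (pk_lam hη'.le hp h (T := range s) subset_rfl)
      calc (4 : ℝ) ^ s = ∏ _k ∈ range s, (4 : ℝ) := by simp
        _ ≤ _ := prod_le_prod (fun _ _ => by norm_num) fun k hk => by
            have hk' := mem_range.1 hk
            exact_mod_cast (hp _ (h.pos k hk').1 (h.pos k hk').2).1
    exact a.trans (mul_le_mul_of_nonneg_right (mul_le_mul_of_nonneg_left b hC0)
      (Nat.cast_nonneg _))
  have hcells : ∀ i ≤ s, (#(Q.image (l i)) : ℝ) ≤ w * Real.exp (pkb D j i) := fun i hi =>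
    le_trans (by exact_mod_cast h.cells hi) (pk_prod hη'.le hp h (range_subset_range.2 hi) j)
  have hBR : ∀ i ≤ s, Real.exp (pkb D j i) ≤ Real.exp (pkr D j i) ^ d := fun i hi => by
    rw [← Real.exp_nat_mul]; exact Real.exp_le_exp.2 (pk_rb h hi).2
  have f2 : (#P : ℝ) ≤ u * Real.exp (pkr D j s) ^ d := by
    have a : (#Q : ℝ) ≤ M * #(Q.image (l s)) := by
      exact_mod_cast card_le_mul_card_image Q M fun b _ => h.bot b
    calc (#P : ℝ) ≤ C0 * w * (M * (w * Real.exp (pkr D j s) ^ d)) := by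
          refine f1.trans (mul_le_mul_of_nonneg_left (a.trans ?_) (by positivity))
          gcongr
          exact (hcells s le_rfl).trans (by gcongr; exact hBR s le_rfl)
      _ = C0 * M * w ^ 2 * Real.exp (pkr D j s) ^ d := by ring
      _ ≤ _ := by gcongr
  have f3 : R₀ ≤ Real.exp (pkr D j s) :=
    le_of_pow_le_pow_left₀ (by omega) (Real.exp_pos _).le
      (le_of_mul_le_mul_left (hRn.trans f2) hu0)
  have hex : ∃ i, R₀ ≤ Real.exp (pkr D j i) := ⟨s, f3⟩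
  have hrs : Nat.find hex ≤ s := Nat.find_min' hex f3
  have hr1 := Nat.find_spec hex
  have hr2 : Real.exp (pkr D j (Nat.find hex)) ≤ M * R₀ := by
    rcases e : Nat.find hex with _ | m
    · simp only [pkr, range_zero, sum_empty, Real.exp_zero]; nlinarith
    · have a := Nat.find_min hex (m := m) (by omega)
      have b : (D (j m) : ℝ) ≤ M := by
        have := pk_DM hp h (k := m) (m := 1) (by omega) hd
        rw [pow_one] at this; exact_mod_cast this
      rw [pkr_succ, Real.exp_add, pk_exp hp h (by omega), mul_comm]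
      exact mul_le_mul b (not_le.1 a).le (Real.exp_pos _).le (by linarith)
  set r := Nat.find hex with hr
  have hbr : pkb D j r ≤ ν := (pkb_mono D j hrs).trans (pk_top hp h)
  have hσB : Real.exp (ν - pkb D j r) * Real.exp (pkb D j r) = #P := by
    rw [← Real.exp_add, hnν]; congr 1; ring
  refine ⟨Q, hQP, l r, own, Real.exp (pkr D j r), Real.exp (ν - pkb D j r),
    Real.exp (pkr D j s), f1.trans (mul_le_mul_of_nonneg_right u1 (Nat.cast_nonneg _)), hr1,
    hr2.trans (by gcongr; linarith),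
    Real.exp_le_exp.2 (pkr_mono D j hrs), Real.one_le_exp (by linarith), pk_size hp h hn1' hrs,
    ?_, ?_, fun φ hφ A hA hz => ?_, ho, (hEn r hrs).trans ?_, fun W hW => ?_, f2⟩
  · rw [← hσB]; gcongr; exact hBR r hrs
  · calc _ ≤ w * Real.exp (pkb D j r) * Real.exp (ν - pkb D j r) := by
          gcongr; exact hcells r hrs
      _ = w * #P := by rw [← hσB]; ring
      _ ≤ _ := mul_le_mul_of_nonneg_right u5 (Nat.cast_nonneg _)
  · refine (h.sepM hrs φ hφ A hA hz).trans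
      ((pk_prod hη'.le hp h (range_subset_range.2 hrs) fun k => j k - 1).trans ?_)
    have e : ∑ k ∈ range r, ((j k - 1 : ℕ) : ℝ) * pkx D j k = pkb D j r - pkr D j r := by
      unfold pkb pkr
      rw [← sum_sub_distrib]
      refine sum_congr rfl fun k hk => ?_
      rw [Nat.cast_sub (h.pos k (by simp at hk; omega)).1]; push_cast; ring
    rw [e, Real.exp_sub (pkb D j r)]
    calc _ ≤ u * (Real.exp (pkb D j r) / Real.exp (pkr D j r)) :=
          mul_le_mul_of_nonneg_right u5 (by positivity)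
      _ = _ := by rw [← hσB]; field_simp
  · rw [← Real.exp_sub, ← Real.exp_mul, ← Real.exp_mul, mul_assoc (u * _), ← Real.exp_add,
      mul_comm (2 - g), mul_comm c]
    exact mul_le_mul_of_nonneg_right (mul_le_mul_of_nonneg_right u4 (Nat.cast_nonneg _))
      (Real.exp_pos _).le
  · have a : (#{z ∈ Q | z ∈ W} : ℝ) ≤ M * ((∏ k ∈ range s, Λ (j k) * D (j k) : ℕ) : ℝ) := by
      exact_mod_cast h.line hW
    calc _ ≤ M * (w * Real.exp (pkr D j s)) :=
          a.trans (by gcongr; exact pk_prod1 hη'.le hp h subset_rfl)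
      _ = M * w * Real.exp (pkr D j s) := by ring
      _ ≤ _ := by gcongr

end Pool.Agent.P.MP_5f07f1_co
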