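import Pool.Agent.P.MP_5f07f1_co.EnStep
import Pool.Agent.P.MP_5f07f1_co.Small

/-! Small cliques again: cherries on poor and on rich circles. -/

namespace Pool.Agent.P.MP_5f07f1_co

open Finset MvPolynomial Pool.Agent.Lib.PolyPart Classical

variable {d : ℕ}

/-- Chebyshev's sum inequality for the class sizes of a set with few classes. -/
lemma rich_cheb {α β : Type*} [DecidableEq α] [DecidableEq β] (G : Finset α) (f : α → β) {r : ℕ}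
    (hr : #(G.image f) ≤ r) (hk : 4 * r ≤ #G) :
    #G * #{p ∈ G ×ˢ G | p.1 ≠ p.2 ∧ f p.1 = f p.2} ≤
      2 * r * #{t ∈ G ×ˢ G ×ˢ G | t.2.1 ≠ t.2.2 ∧ t.1 ≠ t.2.1 ∧ t.1 ≠ t.2.2 ∧
        f t.2.1 = f t.2.2 ∧ f t.1 = f t.2.1} := by
  set I := G.image f with hI
  set P := {p ∈ G ×ˢ G | p.1 ≠ p.2 ∧ f p.1 = f p.2} with hP
  set T := {t ∈ G ×ˢ G ×ˢ G | t.2.1 ≠ t.2.2 ∧ t.1 ≠ t.2.1 ∧ t.1 ≠ t.2.2 ∧
        f t.2.1 = f t.2.2 ∧ f t.1 = f t.2.1} with hT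
  let dg : β → ℕ := fun b => #{a ∈ G | f a = b}
  have hPm : ∀ p ∈ P, p.1 ∈ G ∧ p.2 ∈ G ∧ p.1 ≠ p.2 ∧ f p.1 = f p.2 := fun p hp => by
    simp only [hP, mem_filter, mem_product] at hp; tauto
  have e0 : (#G : ℝ) = ∑ b ∈ I, (dg b : ℝ) := by
    rw [card_eq_sum_card_image f G, Nat.cast_sum]
  have e1 : ∀ b, (#{p ∈ P | f p.1 = b} : ℝ) = dg b * (dg b - 1) := fun b => by
    have : {p ∈ P | f p.1 = b} = ({a ∈ G | f a = b}).offDiag := by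
      ext p
      simp only [hP, mem_filter, mem_product, mem_offDiag]
      constructor
      · rintro ⟨⟨⟨h1, h2⟩, h3, h4⟩, h5⟩
        exact ⟨⟨h1, h5⟩, ⟨h2, h4 ▸ h5⟩, h3⟩
      · rintro ⟨⟨h1, h5⟩, ⟨h2, h4⟩, h3⟩
        exact ⟨⟨⟨h1, h2⟩, h3, h5.trans h4.symm⟩, h5⟩
    rw [this, offDiag_card, Nat.cast_sub (Nat.le_mul_self _)]
    push_cast
    ring
  have e2 : (#P : ℝ) = ∑ b ∈ I, (dg b : ℝ) * (dg b - 1) := by
    rw [card_eq_sum_card_fiberwise (f := fun p : α × α => f p.1) (t := I)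
      (fun p hp => mem_coe.2 (mem_image_of_mem _ (hPm p hp).1)), Nat.cast_sum]
    exact sum_congr rfl fun b _ => e1 b
  have e3 : ∑ b ∈ I, ((dg b : ℝ) - 2) * (dg b * (dg b - 1)) ≤ #T := by
    have a1 : ∑ p ∈ P, ((dg (f p.1) : ℝ) - 2) =
        ∑ b ∈ I, ((dg b : ℝ) - 2) * (dg b * (dg b - 1)) := by
      rw [← sum_fiberwise_of_maps_to (g := fun p : α × α => f p.1) (t := I)
        (fun p hp => mem_image_of_mem _ (hPm p hp).1)]
      refine sum_congr rfl fun b _ => ?_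
      rw [sum_congr rfl (g := fun _ => (dg b : ℝ) - 2) fun p hp => by rw [(mem_filter.1 hp).2],
        sum_const, nsmul_eq_mul, e1, mul_comm]
    rw [← a1, card_eq_sum_card_fiberwise (f := Prod.snd) (t := P) (fun t ht => by
      simp only [hT, hP, coe_filter, mem_product, Set.mem_ofPred_eq] at ht ⊢; tauto), Nat.cast_sum]
    refine sum_le_sum fun p hp => ?_
    obtain ⟨h1, h2, h3, h4⟩ := hPm p hp
    have b1 : dg (f p.1) ≤ #(({a ∈ G | f a = f p.1}) \ {p.1, p.2}) + 2 :=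
      (le_card_sdiff _ _ |> tsub_le_iff_right.1).trans (Nat.add_le_add_left Finset.card_le_two _)
    have b2 : #(({a ∈ G | f a = f p.1}) \ {p.1, p.2}) ≤ #{t ∈ T | t.2 = p} := by
      refine card_le_card_of_injOn (fun a => (a, p)) (fun a ha => ?_) fun a _ a' _ e =>
        (Prod.mk.inj e).1
      simp only [hT, coe_sdiff, coe_filter, coe_insert, coe_singleton, Set.mem_sdiff,
        Set.mem_ofPred_eq, Set.mem_insert_iff, Set.mem_singleton_iff, not_or, mem_filter,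
        mem_product] at ha ⊢
      tauto
    have : (dg (f p.1) : ℝ) ≤ #{t ∈ T | t.2 = p} + 2 := by
      exact_mod_cast b1.trans (Nat.add_le_add_right b2 _)
    linarith
  have hm : MonovaryOn (fun b => (dg b : ℝ) - 2) (fun b => (dg b : ℝ) * (dg b - 1)) I := by
    intro i _ j _ h
    dsimp only at h ⊢
    by_contra hc
    have : dg j + 1 ≤ dg i := by
      have : (dg j : ℝ) < dg i := by linarith
      exact_mod_cast this
    have h1 : (dg j : ℝ) + 1 ≤ dg i := by exact_mod_cast this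
    have h2 : (0 : ℝ) ≤ dg j := by positivity
    nlinarith
  have ch := hm.sum_mul_sum_le_card_mul_sum
  rw [← e2, sum_sub_distrib, ← e0, sum_const, nsmul_eq_mul] at ch
  have hr' : (#I : ℝ) ≤ r := by exact_mod_cast hr
  have hk' : 4 * (r : ℝ) ≤ #G := by exact_mod_cast hk
  have hP0 : (0 : ℝ) ≤ #P := by positivity
  have hT0 : (0 : ℝ) ≤ #T := by positivity
  have hI0 : (0 : ℝ) ≤ #I := by positivity
  have : (#G : ℝ) * #P ≤ 2 * r * #T := by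
    have c1 := mul_le_mul_of_nonneg_left e3 hI0
    have c2 := mul_le_mul_of_nonneg_right hr' hT0
    have c3 : (#G : ℝ) / 2 * #P ≤ (#G - #I * 2) * #P :=
      mul_le_mul_of_nonneg_right (by linarith) hP0
    linarith
  exact_mod_cast this

/-- A circle or a line meets at most `r` fine cells inside a cell. -/
def Few (Q : Finset (E d)) (l l' : E d → Lab d) (r : ℕ) : Prop :=
  ∀ U : Submodule ℝ (LL d), Module.finrank ℝ U ≤ 3 → ∀ (b : Lab d) (A : Finset (E d)), A ⊆ Q →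
    (∀ z ∈ A, l z = b ∧ lift z ∈ U) → #(A.image l') ≤ r

/-- Triples on rich circles whose last two points are close. -/
lemma rich_triples {Q : Finset (E d)} {l l' : E d → Lab d}
    (hr : ∀ x ∈ Q, ∀ z ∈ Q, l' x = l' z → l x = l z) {σ' : ℝ} (hσ' : Size Q l' σ') (h0 : 0 ≤ σ')
    {r : ℕ} (hF : Few Q l l' r) (X : Finset (E d × E d × E d))
    (hX : ∀ t ∈ X, t.1 ∈ Q ∧ t.2.1 ∈ Q ∧ t.2.2 ∈ Q ∧ t.2.1 ≠ t.2.2 ∧ t.1 ≠ t.2.1 ∧ t.1 ≠ t.2.2 ∧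
      l t.2.1 = l t.1 ∧ l' t.2.1 = l' t.2.2 ∧ 4 * r ≤ #{z ∈ Q | l z = l t.1 ∧
        lift z ∈ Submodule.span ℝ {lift t.1, lift t.2.1, lift t.2.2}}) :
    (#X : ℝ) ≤ 2 * r * (#Q * (σ' * σ')) := by
  set Y := {t ∈ Q ×ˢ Q ×ˢ Q | t.2.1 ≠ t.2.2 ∧ t.1 ≠ t.2.1 ∧ t.1 ≠ t.2.2 ∧
        l' t.2.1 = l' t.2.2 ∧ l' t.1 = l' t.2.1} with hY
  have h1 : #X ≤ 2 * r * #Y := by
    refine ens_fib (fun t : E d × E d × E d =>
      (l t.1, Submodule.span ℝ {lift t.1, lift t.2.1, lift t.2.2})) X Y (2 * r) fun t ht A hA hk => ?_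
    obtain ⟨-, -, -, n1, n2, n3, -, -, hrich⟩ := hX t ht
    set U := Submodule.span ℝ {lift t.1, lift t.2.1, lift t.2.2} with hU
    have hU3 : Module.finrank ℝ U ≤ 3 := (LiftX.finrank_three n2 n3 n1).le
    set G := {z ∈ Q | l z = l t.1 ∧ lift z ∈ U} with hG
    have hc := rich_cheb G l' (hF U hU3 (l t.1) G (filter_subset _ _) fun z hz =>
      (mem_filter.1 hz).2) hrich
    refine ⟨_, fun v hv => ?_, fun v hv => ?_, le_trans ?_ hc⟩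
    · simp only [hY, hG, mem_filter, mem_product] at hv ⊢
      tauto
    · simp only [hG, mem_filter, mem_product] at hv
      obtain ⟨⟨⟨-, a1, a2⟩, ⟨-, -, a3⟩, -, -, a4⟩, a5, a6, a7, -⟩ := hv
      exact Prod.ext a1 (span_three hU3 a6 a7 a5 a2 a3 a4).symm
    · rw [← card_product]
      refine card_le_card fun v hv => ?_
      obtain ⟨a1, a2, a3, a4, -, -, a7, a8, -⟩ := hX v (hA hv)
      obtain ⟨k1, k2⟩ := Prod.mk.inj (hk v hv)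
      have m1 : lift v.1 ∈ U := k2 ▸ Submodule.subset_span (by simp)
      have m2 : lift v.2.1 ∈ U := k2 ▸ Submodule.subset_span (by simp)
      have m3 : lift v.2.2 ∈ U := k2 ▸ Submodule.subset_span (by simp)
      simp only [hG, mem_filter, mem_product]
      exact ⟨⟨a1, k1, m1⟩, ⟨⟨a2, a7.trans k1, m2⟩, a3,
        ((hr _ a2 _ a3 a8).symm.trans a7).trans k1, m3⟩, a4, a8⟩
  have h2 : (#Y : ℝ) ≤ #Q * (σ' * σ') := by
    refine sm_pair_le (fun t => t.2.1 ∈ Q ∧ l' t.2.1 = l' t.1 ∧ t.2.2 ∈ Q ∧ l' t.2.2 = l' t.1)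
      (fun t ht => ?_) fun a _ A hA => ?_
    · simp only [hY, mem_filter, mem_product] at ht
      obtain ⟨⟨a1, a2, a3⟩, -, -, -, a4, a5⟩ := ht
      exact ⟨a1, a2, a5.symm, a3, a4.symm.trans a5.symm⟩
    · refine le_trans (sm_pair_le (s := {z ∈ Q | l' z = l' a})
        (fun p => p.2 ∈ Q ∧ l' p.2 = l' a) (fun p hp => ?_)
        fun _ _ B hB => hσ'.sm_le (l' a) hB) (mul_le_mul_of_nonneg_right (hσ' _) h0)
      obtain ⟨a1, a2, a3, a4⟩ := hA p hp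
      exact ⟨mem_filter.2 ⟨a1, a2⟩, a3, a4⟩
  have h3 : (#X : ℝ) ≤ 2 * r * #Y := by exact_mod_cast h1
  exact h3.trans (mul_le_mul_of_nonneg_left h2 (by positivity))

/-- Cherries on poor circles. -/
lemma sm_poor {Q : Finset (E d)} (hQ : Set.InjOn nq (Q : Set (E d))) {l l' : E d → Lab d}
    {own : E d → Submodule ℝ (LL d)} {σ σ' : ℝ} (hσ : Size Q l σ) (hσ' : Size Q l' σ')
    (h0 : 0 ≤ σ') {a : ℕ}
    {C : Finset (((E d × E d) × (E d × E d)) × ((E d × E d) × (E d × E d)))}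
    (hC : ∀ c ∈ C, c.1 ∈ quads Q l own ∧ c.2 ∈ quads Q l own ∧ smK l' c.1 = smK l' c.2 ∧
      lamOf c.1.1.1 c.1.2.1 c.1.1.2 ≠ lamOf c.2.1.1 c.2.2.1 c.2.1.2 ∧
      #{z ∈ Q | l z = l c.1.1.1 ∧ lift z ∈ smPi c.1.1.2 c.1.2.2 c.2.1.2 c.2.2.2} ≤ a) :
    (#C : ℝ) ≤ #Q * σ * σ' * σ' * a := by
  have ha0 : (0 : ℝ) ≤ a := by positivity
  set T1 := {p ∈ Q ×ˢ Q | l p.2 = l p.1} with hT1
  set T2 := {p ∈ T1 ×ˢ Q | l' p.2 = l' p.1.1} with hT2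
  set T3 := {p ∈ T2 ×ˢ Q | l' p.2 = l' p.1.1.2} with hT3
  have b2 : (#T2 : ℝ) ≤ #T1 * σ' := sm_pair_le (fun p => p.2 ∈ Q ∧ l' p.2 = l' p.1.1)
    (fun p hp => ⟨(mem_product.1 (mem_filter.1 hp).1).1, (mem_product.1 (mem_filter.1 hp).1).2,
      (mem_filter.1 hp).2⟩) fun p _ _ hA => hσ'.sm_le (l' p.1) hA
  have b3 : (#T3 : ℝ) ≤ #T2 * σ' := sm_pair_le (fun p => p.2 ∈ Q ∧ l' p.2 = l' p.1.1.2)
    (fun p hp => ⟨(mem_product.1 (mem_filter.1 hp).1).1, (mem_product.1 (mem_filter.1 hp).1).2,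
      (mem_filter.1 hp).2⟩) fun p _ _ hA => hσ'.sm_le (l' p.1.2) hA
  refine le_trans (?_ : _ ≤ #T3 * (a : ℝ)) (mul_le_mul_of_nonneg_right (b3.trans
    (mul_le_mul_of_nonneg_right (b2.trans (mul_le_mul_of_nonneg_right (sm_seg hσ) h0)) h0)) ha0)
  rw [← card_image_of_injOn (f := fun c => ((((c.1.1.2, c.1.2.2), c.2.1.2), c.2.2.2), c.1.1.1))
    fun c hc c' hc' e => ?_]
  · refine sm_pair_le (fun p => p.2 ∈ Q ∧ l p.2 = l p.1.1.1.1 ∧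
      lift p.2 ∈ smPi p.1.1.1.1 p.1.1.1.2 p.1.1.2 p.1.2 ∧
      #{z ∈ Q | l z = l p.1.1.1.1 ∧ lift z ∈ smPi p.1.1.1.1 p.1.1.1.2 p.1.1.2 p.1.2} ≤ a)
      (fun p hp => ?_) fun p _ A hA => ?_
    · obtain ⟨c, hc, rfl⟩ := mem_image.1 hp
      obtain ⟨q1, q2, hk, hl, ho⟩ := hC c hc
      simp only [smK, Prod.mk.injEq] at hk
      obtain ⟨⟨k1, k2⟩, k3, k4⟩ := hk
      obtain ⟨a1, a2, -, a4, a5, -, a7, -, -, -, a11⟩ := sm_facts hQ q1
      obtain ⟨-, c2, -, c4, -, -, -, -, -, -, c11⟩ := sm_facts hQ q2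
      have c12 : lift c.2.2.2 = lift c.1.2.1 +
          lamOf c.2.1.1 c.2.2.1 c.2.1.2 • (lift c.2.1.2 - lift c.1.1.1) := by
        rw [k1, k2]; exact c11
      refine ⟨mem_filter.2 ⟨mem_product.2 ⟨mem_filter.2
        ⟨mem_product.2 ⟨mem_filter.2 ⟨mem_product.2 ⟨a2, a4⟩, a7.trans a5.symm⟩, c2⟩, k3.symm⟩,
          c4⟩, k4.symm⟩, a1, a5.symm, smPi_mem hl a11 c12, ?_⟩
      dsimp only
      rw [a5]
      exact ho
    · rcases A.eq_empty_or_nonempty with rfl | ⟨z, hz⟩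
      · simp
      · exact Nat.cast_le.2 (le_trans (card_le_card fun y hy =>
          mem_filter.2 ⟨(hA y hy).1, (hA y hy).2.1, (hA y hy).2.2.1⟩) (hA z hz).2.2.2)
  · obtain ⟨q1, q2, hk, hl, -⟩ := hC c hc
    obtain ⟨q1', q2', hk', -, -⟩ := hC c' hc'
    simp only [smK, Prod.mk.injEq] at hk hk' e
    obtain ⟨⟨k1, k2⟩, -⟩ := hk
    obtain ⟨⟨k1', k2'⟩, -⟩ := hk'
    obtain ⟨⟨⟨⟨e1, e2⟩, e3⟩, e4⟩, e5⟩ := e
    obtain ⟨-, -, -, -, -, -, -, -, a9, -, a11⟩ := sm_facts hQ q1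
    obtain ⟨-, -, -, -, -, -, -, -, c9, -, c11⟩ := sm_facts hQ q2
    have a12 := (sm_facts hQ q1').2.2.2.2.2.2.2.2.2.2
    have c12 := (sm_facts hQ q2').2.2.2.2.2.2.2.2.2.2
    have n3 : c.1.1.2 ≠ c.2.1.2 := fun h => hl (by rw [k1, k2, h])
    rw [← k1] at c9
    rw [← k1, ← k2] at c11
    rw [← e1, ← e2, ← e5] at a12
    rw [← k1', ← k2', ← e3, ← e4, ← e5] at c12
    have e6 := sm_det a9 c9 n3 a11 c11 a12 c12
    exact Prod.ext (sm_ext hQ q1 q1' e5 e6 e1) (sm_ext hQ q2 q2' (by rw [← k1, ← k1', e5])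
      (by rw [← k2, ← k2', e6]) e3)

/-- Cherries on rich circles. -/
lemma sm_rich {Q : Finset (E d)} (hQ : Set.InjOn nq (Q : Set (E d))) {l l' : E d → Lab d}
    (hr : ∀ x ∈ Q, ∀ z ∈ Q, l' x = l' z → l x = l z)
    {own : E d → Submodule ℝ (LL d)} {σ σ' : ℝ} (hσ : Size Q l σ) (hσ' : Size Q l' σ')
    (hσ0 : 0 ≤ σ) (h0 : 0 ≤ σ') {r : ℕ} (hF : Few Q l l' r)
    {C : Finset (((E d × E d) × (E d × E d)) × ((E d × E d) × (E d × E d)))}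
    (hC : ∀ c ∈ C, c.1 ∈ quads Q l own ∧ c.2 ∈ quads Q l own ∧ smK l' c.1 = smK l' c.2 ∧
      lamOf c.1.1.1 c.1.2.1 c.1.1.2 ≠ lamOf c.2.1.1 c.2.2.1 c.2.1.2 ∧
      4 * r ≤ #{z ∈ Q | l z = l c.1.1.1 ∧ lift z ∈ smPi c.1.1.2 c.1.2.2 c.2.1.2 c.2.2.2}) :
    (#C : ℝ) ≤ 2 * r * (#Q * (σ' * σ')) * σ := by
  set X := C.image fun c => (c.1.1.1, c.1.1.2, c.2.1.2) with hX
  have hXle := rich_triples hr hσ' h0 hF X fun t ht => by
    obtain ⟨c, hc, rfl⟩ := mem_image.1 ht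
    obtain ⟨q1, q2, hk, hl, ho⟩ := hC c hc
    simp only [smK, Prod.mk.injEq] at hk
    obtain ⟨⟨k1, k2⟩, k3, k4⟩ := hk
    obtain ⟨a1, a2, -, -, a5, -, -, -, a9, -, a11⟩ := sm_facts hQ q1
    obtain ⟨-, c2, -, -, -, -, -, -, c9, -, c11⟩ := sm_facts hQ q2
    have c12 : lift c.2.2.2 = lift c.1.2.1 +
        lamOf c.2.1.1 c.2.2.1 c.2.1.2 • (lift c.2.1.2 - lift c.1.1.1) := by
      rw [k1, k2]; exact c11
    have n3 : c.1.1.2 ≠ c.2.1.2 := fun h => hl (by rw [k1, k2, h])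
    rw [← k1] at c9
    refine ⟨a1, a2, c2, n3, a9.symm, c9.symm, a5, k3, ?_⟩
    dsimp only
    rw [← span_three (smPi_rank _ _ _ _) a9.symm c9.symm n3 (smPi_mem hl a11 c12)
      (Submodule.subset_span (by simp)) (Submodule.subset_span (by simp))]
    exact ho
  refine le_trans (?_ : _ ≤ #X * σ) (mul_le_mul_of_nonneg_right hXle hσ0)
  rw [← card_image_of_injOn (f := fun c => ((c.1.1.1, c.1.1.2, c.2.1.2), c.1.2.1))
    fun c hc c' hc' e => ?_]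
  · refine sm_pair_le (fun p => p.2 ∈ Q ∧ l p.2 = l p.1.1) (fun p hp => ?_)
      fun p _ _ hA => hσ.sm_le (l p.1) hA
    obtain ⟨c, hc, rfl⟩ := mem_image.1 hp
    obtain ⟨-, -, a3, -, -, a6, -⟩ := sm_facts hQ (hC c hc).1
    exact ⟨mem_image_of_mem _ hc, a3, a6⟩
  · obtain ⟨q1, q2, hk, -⟩ := hC c hc
    obtain ⟨q1', q2', hk', -⟩ := hC c' hc'
    simp only [smK, Prod.mk.injEq] at hk hk' e
    obtain ⟨⟨k1, k2⟩, -⟩ := hk
    obtain ⟨⟨k1', k2'⟩, -⟩ := hk'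
    obtain ⟨⟨e1, e3, e4⟩, e2⟩ := e
    exact Prod.ext (sm_ext hQ q1 q1' e1 e2 e3) (sm_ext hQ q2 q2' (by rw [← k1, ← k1', e1])
      (by rw [← k2, ← k2', e2]) e4)

/-- The count of small cliques with the number of fine cells on a circle as the loss. -/
theorem small_count_few {Q : Finset (E d)} (hQ : Set.InjOn nq (Q : Set (E d))) {l l' : E d → Lab d}
    (hr : ∀ x ∈ Q, ∀ z ∈ Q, l' x = l' z → l x = l z) (own : E d → Submodule ℝ (LL d))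
    {σ σ' J : ℝ} (hσ : Size Q l σ) (hσ' : Size Q l' σ') (h0 : 0 ≤ σ')
    {r : ℕ} (hF : Few Q l l' r) (hJ : Joint Q l l' J) (L : ℕ) :
    (Sm Q l own L : ℝ) ≤ #Q * σ * (L * J + σ' * √(2 * J * (3 * r))) := by
  have hσ0 : 0 ≤ σ := le_trans (Nat.cast_nonneg _) (hσ [])
  have hJ0 : 0 ≤ J := le_trans (Nat.cast_nonneg _)
    (hJ (RMap.id d) [] [] ∅ (empty_subset _) (by simp))
  rw [Sm]
  set S := {w ∈ quads Q l own | w.2.1 ≠ w.1.1 ∧ #(clq Q l (l w.1.1) (homOf w)) < L} with hS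
  have hq : ∀ w ∈ S, w ∈ quads Q l own := fun w hw => (mem_filter.1 hw).1
  set C := {p ∈ S ×ˢ S | smK l' p.1 = smK l' p.2} with hC
  have hC' : ∀ c ∈ C, c.1 ∈ S ∧ c.2 ∈ S ∧ smK l' c.1 = smK l' c.2 := fun c hc =>
    ⟨(mem_product.1 (mem_filter.1 hc).1).1, (mem_product.1 (mem_filter.1 hc).1).2,
      (mem_filter.1 hc).2⟩
  set C2 := {c ∈ C | ¬ lamOf c.1.1.1 c.1.2.1 c.1.1.2 = lamOf c.2.1.1 c.2.2.1 c.2.1.2} with hC2
  have s1 := card_filter_add_card_filter_not (s := C)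
    (fun c => lamOf c.1.1.1 c.1.2.1 c.1.1.2 = lamOf c.2.1.1 c.2.2.1 c.2.1.2)
  have s2 := card_filter_add_card_filter_not (s := C2) (fun c => 4 * r ≤
    #{z ∈ Q | l z = l c.1.1.1 ∧ lift z ∈ smPi c.1.1.2 c.1.2.2 c.2.1.2 c.2.2.2})
  have b1 := sm_eq hQ (S := S) (fun w hw => mem_filter.1 hw)
    (C := {c ∈ C | lamOf c.1.1.1 c.1.2.1 c.1.1.2 = lamOf c.2.1.1 c.2.2.1 c.2.1.2}) fun c hc => by
      obtain ⟨h2, h3, hk⟩ := hC' c (mem_filter.1 hc).1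
      simp only [smK, Prod.mk.injEq] at hk
      exact ⟨h2, h3, hk.1.1, hk.1.2, (mem_filter.1 hc).2⟩
  have b2 := sm_rich hQ hr (own := own) hσ hσ' hσ0 h0 hF
    (C := {c ∈ C2 | 4 * r ≤
      #{z ∈ Q | l z = l c.1.1.1 ∧ lift z ∈ smPi c.1.1.2 c.1.2.2 c.2.1.2 c.2.2.2}}) fun c hc => by
      obtain ⟨h2, h3, hk⟩ := hC' c (mem_filter.1 (mem_filter.1 hc).1).1
      exact ⟨hq _ h2, hq _ h3, hk, (mem_filter.1 (mem_filter.1 hc).1).2, (mem_filter.1 hc).2⟩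
  have b3 := sm_poor hQ (own := own) hσ hσ' h0 (a := 4 * r)
    (C := {c ∈ C2 | ¬ 4 * r ≤
      #{z ∈ Q | l z = l c.1.1.1 ∧ lift z ∈ smPi c.1.1.2 c.1.2.2 c.2.1.2 c.2.2.2}}) fun c hc => by
      obtain ⟨h2, h3, hk⟩ := hC' c (mem_filter.1 (mem_filter.1 hc).1).1
      exact ⟨hq _ h2, hq _ h3, hk, (mem_filter.1 (mem_filter.1 hc).1).2,
        (not_le.1 (mem_filter.1 hc).2).le⟩
  have b4 := sm_classes hQ hσ hJ hJ0 (S := S) hq
  have cs : (#S : ℝ) ^ 2 ≤ #(S.image (smK l')) * #C := sm_cs S (smK l')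
  rw [← hC2, ← s2] at s1
  set P := (#Q : ℝ) * σ with hP
  have hP0 : 0 ≤ P := by positivity
  have bC : (#C : ℝ) ≤ #S * L + 2 * (P * σ' * σ' * (3 * r)) := by
    rw [← s1]
    push_cast at b3 ⊢
    have : 2 * (r : ℝ) * (#Q * (σ' * σ')) * σ = P * σ' * σ' * (2 * r) := by rw [hP]; ring
    linarith
  have hs : √(2 * J * (3 * r)) ^ 2 = 2 * J * (3 * r) := Real.sq_sqrt (by positivity)
  have := sm_quad (x := #S) (p := P * L * J) (q := P * σ' * √(2 * J * (3 * r))) (by positivity)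
    (by
      calc (#S : ℝ) ^ 2 ≤ _ := cs
        _ ≤ (P * J) * (#S * L + 2 * (P * σ' * σ' * (3 * r))) :=
          mul_le_mul b4 bC (Nat.cast_nonneg _) (by positivity)
        _ = _ := by rw [mul_pow, hs]; ring) (by positivity)
  linarith

end Pool.Agent.P.MP_5f07f1_co
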