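import Pool.Agent.P.MP_5f07f1_co.Pack
import Pool.Agent.P.MP_5f07f1_co.Rich

/-! The energy bound with the whole profile of the tree, and the package for all levels. -/

namespace Pool.Agent.P.MP_5f07f1_co

open Finset MvPolynomial Pool.Agent.Lib.PolyPart Classical

variable {d : ℕ}

/-- The error terms of one level, with separate losses `a` and `a'`. -/
lemma pb_err {q n σ z ρ w M N a a' J : ℝ} (hq0 : 0 ≤ q) (hq : q ≤ n) (hz : 1 ≤ z) (hρ : 1 ≤ ρ)
    (hσ : σ = ρ * z ^ 3) (hw : 1 ≤ w) (hM : 1 ≤ M) (hN0 : 0 ≤ N) (hN : N ≤ M ^ 2) (ha0 : 0 ≤ a)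
    (ha : a ≤ (M + 2) * (w * (σ / z))) (ha0' : 0 ≤ a') (ha' : a' ≤ (M + 2) * (w * ρ))
    (hJ0 : 0 ≤ J) (hJ : J ≤ w * (σ / z)) :
    q * σ * (2 + 12 * (8 * N) ^ 2 * a) + q * σ * (24 * N * J + M * z * √(2 * J * a')) ≤
      (2 + 768 * M ^ 4 * (M + 2) + 24 * M ^ 2 + 2 * M * (M + 2)) * w * n * (σ ^ 2 / z) := by
  have hz0 : 0 < z := by linarith
  have hy : σ / z = ρ * z ^ 2 := by rw [hσ]; field_simp
  have hz2 : 1 ≤ z ^ 2 := one_le_pow₀ hz
  set y := σ / z with hyd
  have hρy : ρ ≤ y := by rw [hy]; nlinarith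
  have hy1 : 1 ≤ y := hρ.trans hρy
  have hσ0 : 0 ≤ σ := by rw [hσ]; positivity
  have hs : √(2 * J * a') ≤ 2 * (M + 2) * w * (ρ * z) := by
    refine Real.sqrt_le_iff.2 ⟨by positivity, ?_⟩
    have b1 : J * a' ≤ (w * (ρ * z ^ 2)) * ((M + 2) * (w * ρ)) :=
      mul_le_mul (hy ▸ hJ) ha' ha0' (by positivity)
    have b2 : 0 ≤ (w * (ρ * z)) ^ 2 := by positivity
    have b3 : 2 * (M + 2) ≤ (2 * (M + 2)) ^ 2 := by nlinarith
    calc 2 * J * a' ≤ 2 * (M + 2) * (w * (ρ * z)) ^ 2 := by nlinarith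
      _ ≤ (2 * (M + 2)) ^ 2 * (w * (ρ * z)) ^ 2 := mul_le_mul_of_nonneg_right b3 b2
      _ = _ := by ring
  have t1 : (2 : ℝ) ≤ 2 * (w * y) := by nlinarith
  have t2 : 12 * (8 * N) ^ 2 * a ≤ 768 * M ^ 4 * (M + 2) * (w * y) := by
    have c1 : N ^ 2 ≤ (M ^ 2) ^ 2 := pow_le_pow_left₀ hN0 hN 2
    calc 12 * (8 * N) ^ 2 * a = 768 * (N ^ 2 * a) := by ring
      _ ≤ 768 * ((M ^ 2) ^ 2 * ((M + 2) * (w * y))) := by gcongr
      _ = _ := by ring
  have t3 : 24 * N * J ≤ 24 * M ^ 2 * (w * y) := by gcongr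
  have t4 : M * z * √(2 * J * a') ≤ 2 * M * (M + 2) * (w * y) := by
    calc M * z * √(2 * J * a') ≤ M * z * (2 * (M + 2) * w * (ρ * z)) := by gcongr
      _ = _ := by rw [hy]; ring
  have t5 : (2 + 12 * (8 * N) ^ 2 * a) + (24 * N * J + M * z * √(2 * J * a')) ≤
      (2 + 768 * M ^ 4 * (M + 2) + 24 * M ^ 2 + 2 * M * (M + 2)) * (w * y) := by nlinarith
  have hn0 : 0 ≤ n := hq0.trans hq
  calc _ = q * σ * ((2 + 12 * (8 * N) ^ 2 * a) + (24 * N * J + M * z * √(2 * J * a'))) := by ring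
    _ ≤ n * σ * ((2 + 768 * M ^ 4 * (M + 2) + 24 * M ^ 2 + 2 * M * (M + 2)) * (w * y)) := by
        gcongr
    _ = _ := by rw [hyd]; ring

lemma pb_r (D j : ℕ → ℕ) {k m : ℕ} (h : k ≤ m) :
    ∑ i ∈ Ico k m, pkx D j i = pkr D j m - pkr D j k := sum_Ico_eq_sub _ h

lemma pb_b (D j : ℕ → ℕ) {k m : ℕ} (h : k ≤ m) :
    ∑ i ∈ Ico k m, (j i : ℝ) * pkx D j i = pkb D j m - pkb D j k := sum_Ico_eq_sub _ h

lemma pb_lo (D j : ℕ → ℕ) {k m a : ℕ} (h : k ≤ m) (ha : ∀ i < m, a ≤ j i) :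
    a * (pkr D j m - pkr D j k) ≤ pkb D j m - pkb D j k := by
  rw [← pb_r D j h, ← pb_b D j h, mul_sum]
  exact sum_le_sum fun i hi => mul_le_mul_of_nonneg_right
    (by exact_mod_cast ha i (mem_Ico.1 hi).2) (pkx_nonneg D j i)

lemma pb_hi (D j : ℕ → ℕ) {k m a : ℕ} (h : k ≤ m) (ha : ∀ i < m, j i ≤ a) :
    pkb D j m - pkb D j k ≤ a * (pkr D j m - pkr D j k) := by
  rw [← pb_r D j h, ← pb_b D j h, mul_sum]
  exact sum_le_sum fun i hi => mul_le_mul_of_nonneg_right
    (by exact_mod_cast ha i (mem_Ico.1 hi).2) (pkx_nonneg D j i)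

lemma pb_q (D j : ℕ → ℕ) (k p : ℕ) :
    ∑ i ∈ Ico k p, pkx D j i = max (pkr D j p - pkr D j k) 0 := by
  rcases le_total k p with h | h
  · rw [pb_r D j h, max_eq_left (sub_nonneg.2 (pkr_mono D j h))]
  · rw [Ico_eq_empty_of_le h, sum_empty, max_eq_right (sub_nonpos.2 (pkr_mono D j h))]

section

variable {D Λ : ℕ → ℕ} {M n s : ℕ} {Q : Finset (E d)} {j : ℕ → ℕ} {l : ℕ → E d → Lab d}
  {core : ℕ → E d → Set (E d)} {η : ℝ}

/-- One level of the recursion with saving `exp t`. -/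
lemma pb_level (hη : 0 ≤ η) (hp : Par d η D Λ M) (hM : 1 ≤ M)
    (h : PTree D Λ M n Q s j l core) (hn : 1 ≤ n) (hQn : #Q ≤ n)
    (hQ : Set.InjOn nq (Q : Set (E d))) {own : E d → Submodule ℝ (LL d)} {p : ℕ} (hps : p ≤ s)
    (hp2 : ∀ k < p, 2 ≤ j k) (ho : Own Q own)
    (hacc : ∀ i ≤ s, Acc Q (l i) own ((M + 2) * ∏ k ∈ Ico i p, Λ (j k) * D (j k) : ℕ))
    {k : ℕ} (hk : k < s) {t : ℝ} (ht0 : 0 ≤ t)
    (ht : 3 * t + max (pkr D j p - pkr D j k) 0 ≤ Real.log n - pkb D j k ∨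
      5 * t ≤ Real.log n - pkb D j k) :
    (En Q (l k) own : ℝ) ≤ 2 * ((Λ (j k) * D (j k) ^ (j k - 1) : ℕ) : ℝ) ^ 2 * En Q (l (k + 1)) own +
      (2 + 768 * M ^ 4 * (M + 2) + 24 * M ^ 2 + 2 * M * (M + 2)) * Real.exp (η * Real.log n) * n *
        Real.exp (2 * (Real.log n - pkb D j k) - t) := by
  set ν := Real.log n with hν
  set w := Real.exp (η * ν) with hw
  have hM' : (1 : ℝ) ≤ M := by exact_mod_cast hM
  have hν0 : 0 ≤ ν := Real.log_natCast_nonneg _
  have hw1 : 1 ≤ w := Real.one_le_exp (mul_nonneg hη hν0)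
  have hQn' : (#Q : ℝ) ≤ n := by exact_mod_cast hQn
  have htop : pkb D j s ≤ ν := pk_top hp h
  obtain ⟨p4, -, p2, -, pM⟩ := hp _ (h.pos k hk).1 (h.pos k hk).2
  rw [← pb_q] at ht
  set q := ∑ k ∈ Ico k p, pkx D j k with hq
  have hq0 : 0 ≤ q := sum_nonneg fun k _ => pkx_nonneg D j k
  have hq2 : ∀ m, p ≤ m → k ≤ m → 2 * q ≤ pkb D j m - pkb D j k := fun m h1 h2 => by
    rcases le_total k p with e | e
    · have a := pb_lo D j (a := 2) e hp2
      have b := pkb_mono D j h1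
      rw [hq, pb_r D j e]
      push_cast at a
      linarith
    · rw [hq, Ico_eq_empty_of_le e, sum_empty]
      have b := pkb_mono D j h2
      linarith
  have hq3 := hq2 s hps hk.le
  have ht3 : 3 * t ≤ ν - pkb D j k := by rcases ht with e | e <;> linarith
  obtain ⟨i', a1, a2, a3, a4⟩ := pk_fine hp h hn hk.le ht0 (by linarith)
  have hsz := pk_size hp h hn hk.le
  have hsub : Ico k p ⊆ range s := fun x hx => mem_range.2 ((mem_Ico.1 hx).2.trans_le hps)
  have ha1 : 1 ≤ (M + 2) * ∏ k ∈ Ico k p, Λ (j k) * D (j k) := by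
    refine Nat.mul_pos (by omega) (prod_pos fun x hx => ?_)
    have hx' := mem_range.1 (hsub hx)
    obtain ⟨p4, -, p2, -, -⟩ := hp _ (h.pos x hx').1 (h.pos x hx').2
    exact Nat.mul_pos (by omega) (by omega)
  have e1 := energy_step hQ (h.lvl k hk) ho hsz (hacc k hk.le) (by exact_mod_cast ha1) rfl
    (Nat.mul_pos (by omega) (by positivity))
  have hz1 : 1 ≤ Real.exp t := Real.one_le_exp ht0
  have haq : (((M + 2) * ∏ k ∈ Ico k p, Λ (j k) * D (j k) : ℕ) : ℝ) ≤
      (M + 2) * (w * Real.exp q) := by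
    rw [Nat.cast_mul]
    have := pk_prod1 hη hp h hsub
    push_cast at this ⊢
    gcongr
  obtain ⟨a', ha0', ha', e2⟩ : ∃ a' : ℝ, 0 ≤ a' ∧
      a' ≤ (M + 2) * (w * Real.exp (ν - pkb D j k - 3 * t)) ∧
      (Sm Q (l k) own (24 * (Λ (j k) * D (j k) ^ (j k - 1))) : ℝ) ≤
        #Q * Real.exp (ν - pkb D j k) * (((24 * (Λ (j k) * D (j k) ^ (j k - 1)) : ℕ) : ℝ) *
          ((∏ k ∈ Ico k i', Λ (j k) * D (j k) ^ j k : ℕ) : ℝ) + M * Real.exp t *
          √(2 * ((∏ k ∈ Ico k i', Λ (j k) * D (j k) ^ j k : ℕ) : ℝ) * a')) := by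
    by_cases hc : 3 * t + q ≤ ν - pkb D j k
    · refine ⟨_, by positivity, haq.trans ?_, small_count hQ (h.refine a1 a2) ho hsz a4
        (by nlinarith) (hacc k hk.le) (h.jointM a1 a2) _⟩
      gcongr
      linarith
    · have h5 : 5 * t ≤ ν - pkb D j k := ht.resolve_left hc
      have hip : i' ≤ p := by
        by_contra hh
        have := hq2 i' (by omega) a1
        exact hc (by linarith)
      refine ⟨3 * ((∏ k ∈ Ico k i', Λ (j k) * D (j k) : ℕ) : ℝ), by positivity, ?_,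
        small_count_few hQ (h.refine a1 a2) own hsz a4 (by positivity)
          (fun U hU b A hA hz => h.dimM a1 a2 (isDim_circle hU) b A hA hz) (h.jointM a1 a2) _⟩
      have b1 := pk_prod1 hη hp h (T := Ico k i')
        fun x hx => mem_range.2 ((mem_Ico.1 hx).2.trans_le a2)
      have b2 := pb_lo D j (a := 2) a1 fun i hi => hp2 i (by omega)
      rw [pb_r D j a1] at b1
      push_cast at b2
      exact mul_le_mul (by linarith) (b1.trans (mul_le_mul_of_nonneg_left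
        (Real.exp_le_exp.2 (by linarith)) (by positivity))) (by positivity) (by positivity)
  have e3 := pb_err (q := #Q) (n := n) (σ := Real.exp (ν - pkb D j k)) (z := Real.exp t)
    (ρ := Real.exp (ν - pkb D j k - 3 * t)) (w := w) (M := M)
    (N := ((Λ (j k) * D (j k) ^ (j k - 1) : ℕ) : ℝ))
    (a := (((M + 2) * ∏ k ∈ Ico k p, Λ (j k) * D (j k) : ℕ) : ℝ)) (a' := a')
    (J := ((∏ k ∈ Ico k i', Λ (j k) * D (j k) ^ j k : ℕ) : ℝ)) (by positivity) hQn' hz1
    (Real.one_le_exp (by linarith)) ?_ hw1 hM' (by positivity) ?_ (by positivity) ?_ ha0' ha'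
    (by positivity) ?_
  · have e4 : Real.exp (ν - pkb D j k) ^ 2 / Real.exp t =
        Real.exp (2 * (ν - pkb D j k) - t) := by
      rw [← Real.exp_nat_mul, ← Real.exp_sub]
      norm_num
    rw [e4] at e3
    rw [Nat.cast_mul 24, Nat.cast_ofNat] at e2
    linarith
  · rw [← Real.exp_nat_mul, ← Real.exp_add]
    congr 1
    push_cast
    ring
  · have := Nat.mul_le_mul pM (pk_DM hp h hk (m := j k - 1) (by have := (h.pos k hk).2; omega))
    rw [sq]; exact_mod_cast this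
  · refine haq.trans ?_
    rw [← Real.exp_sub]
    gcongr
    linarith
  · refine (pk_prod hη hp h (fun x hx => mem_range.2 ((mem_Ico.1 hx).2.trans_le a2)) j).trans ?_
    rw [← Real.exp_sub, pb_b D j a1]
    refine mul_le_mul_of_nonneg_left (Real.exp_le_exp.2 ?_) (by positivity)
    linarith

lemma pb_energy (hη : 0 ≤ η) (hp : Par d η D Λ M) (hM : 1 ≤ M)
    (h : PTree D Λ M n Q s j l core) (hn : 1 ≤ n) (hQn : #Q ≤ n)
    (hQ : Set.InjOn nq (Q : Set (E d))) :
    ∃ own p, p ≤ s ∧ (∀ k < p, 2 ≤ j k) ∧ Own Q own ∧ ∀ i ≤ s, ∀ W : ℝ,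
      (∀ k, i ≤ k → k ≤ s → W ≤ 2 * pkr D j k +
        max ((Real.log n - pkb D j k - max (pkr D j p - pkr D j k) 0) / 3)
          ((Real.log n - pkb D j k) / 5)) →
      (En Q (l i) own : ℝ) ≤ (2 + 768 * M ^ 4 * (M + 2) + 24 * M ^ 2 + 2 * M * (M + 2)) *
        Real.exp (η * Real.log n) ^ 4 * n *
        Real.exp (2 * (Real.log n - pkb D j i) + 2 * pkr D j i - W) := by
  obtain ⟨own, p, hps, hp2, -, ho, hacc⟩ := h.exists_own hp
  refine ⟨own, p, hps, hp2, ho, fun i hi W hW => ?_⟩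
  have hlev := fun (k : ℕ) (hk : k < s) (t : ℝ) =>
    pb_level hη hp hM h hn hQn hQ hps hp2 ho hacc hk (t := t)
  set ν := Real.log n with hν
  set w := Real.exp (η * ν) with hw
  set K : ℝ := 2 + 768 * M ^ 4 * (M + 2) + 24 * M ^ 2 + 2 * M * (M + 2) with hK
  have hM' : (1 : ℝ) ≤ M := by exact_mod_cast hM
  have hν0 : 0 ≤ ν := Real.log_natCast_nonneg _
  have hw1 : 1 ≤ w := Real.one_le_exp (mul_nonneg hη hν0)
  have hK0 : 0 ≤ K := by positivity
  have hQn' : (#Q : ℝ) ≤ n := by exact_mod_cast hQn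
  have htop : pkb D j s ≤ ν := pk_top hp h
  have key := pk_unroll (s := s) (e := fun k => if i ≤ k then (En Q (l k) own : ℝ) else 0)
    (A := fun i => 2 * ((Λ (j i) * D (j i) ^ (j i - 1) : ℕ) : ℝ) ^ 2)
    (Φ := fun i => Real.exp (2 * (ν - pkb D j i) + 2 * pkr D j i - W))
    (L := fun i => (Λ (j i) : ℝ)) (K := K * w * n) (by positivity) (fun _ => by positivity)
    (fun _ => by positivity)
    (fun k hk => by exact_mod_cast (hp _ (h.pos k hk).1 (h.pos k hk).2).1) ?_ ?_ ?_ i hi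
  · rw [if_pos le_rfl] at key
    refine key.trans ?_
    have a := pk_lam hη hp h (T := Ico i s) fun k hk => mem_range.2 (mem_Ico.1 hk).2
    have a0 : 0 ≤ ∏ k ∈ Ico i s, (Λ (j k) : ℝ) := prod_nonneg fun _ _ => by positivity
    have a3 := pow_le_pow_left₀ a0 a 3
    calc _ ≤ K * w * n * w ^ 3 * Real.exp (2 * (ν - pkb D j i) + 2 * pkr D j i - W) := by gcongr
      _ = _ := by ring
  · intro k hk
    by_cases hik : i ≤ k
    swap
    · rw [if_neg hik]
      have : (0 : ℝ) ≤ if i ≤ k + 1 then (En Q (l (k + 1)) own : ℝ) else 0 := by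
        split_ifs <;> positivity
      positivity
    rw [if_pos hik, if_pos (by omega)]
    have hb : pkb D j k ≤ ν := (pkb_mono D j hk.le).trans htop
    have a := hW k hik hk.le
    set t := max ((ν - pkb D j k - max (pkr D j p - pkr D j k) 0) / 3) ((ν - pkb D j k) / 5)
      with ht
    refine (hlev k hk t (le_max_of_le_right (by linarith)) ?_).trans ?_
    · rcases max_choice ((ν - pkb D j k - max (pkr D j p - pkr D j k) 0) / 3)
        ((ν - pkb D j k) / 5) with e | e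
      · left; rw [ht, e]; linarith
      · right; rw [ht, e]; linarith
    · exact add_le_add le_rfl (mul_le_mul_of_nonneg_left (Real.exp_le_exp.2 (by linarith))
        (by positivity))
  · intro k hk
    have hj1 := (h.pos k hk).1
    have e : (((D (j k) ^ (j k - 1) : ℕ) : ℝ)) ^ 2 = Real.exp (2 * (j k - 1) * pkx D j k) := by
      push_cast
      rw [← pk_exp hp h hk, ← Real.exp_nat_mul, ← Real.exp_nat_mul]
      congr 1
      rw [Nat.cast_sub hj1]; push_cast; ring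
    rw [Nat.cast_mul, mul_pow, e, ← mul_assoc, mul_assoc _ (Real.exp _), ← Real.exp_add]
    refine mul_le_mul_of_nonneg_left (Real.exp_le_exp.2 ?_) (by positivity)
    rw [pkb_succ, pkr_succ]
    linarith
  · rw [if_pos hi]
    have a : (En Q (l s) own : ℝ) ≤ M ^ 3 * #Q := by exact_mod_cast pk_bottom Q (l s) own h.bot
    have b : 1 ≤ Real.exp (2 * (ν - pkb D j s) + 2 * pkr D j s - W) := by
      refine Real.one_le_exp ?_
      have a1 := hW s hi le_rfl
      have a2 := le_max_right (pkr D j p - pkr D j s) 0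
      have a3 : max ((ν - pkb D j s - max (pkr D j p - pkr D j s) 0) / 3) ((ν - pkb D j s) / 5) ≤
          ν - pkb D j s := max_le (by linarith) (by linarith)
      linarith
    have c1 : (M : ℝ) ^ 3 ≤ K := by
      have : (M : ℝ) ^ 3 ≤ M ^ 4 := pow_le_pow_right₀ hM' (by norm_num)
      have : (0 : ℝ) ≤ M ^ 4 := by positivity
      rw [hK]; nlinarith
    calc _ ≤ (M : ℝ) ^ 3 * #Q := a
      _ = M ^ 3 * 1 * #Q * 1 := by ring
      _ ≤ _ := by gcongr

end

/-- The data of one level: cell size `exp ς`, scale `exp r`, inside a profile with total length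
`S` whose one-dimensional part starts at `p`. -/
structure LevelData (Q : Finset (E d)) (own : E d → Submodule ℝ (LL d)) (n u S p : ℝ)
    (l : E d → Lab d) (r ς : ℝ) : Prop where
  nonneg : 0 ≤ ς
  size : Size Q l (Real.exp ς)
  top : Real.log n ≤ ς + d * r
  one : S - r ≤ ς
  two : S + p - 2 * r ≤ ς
  cells : #(Q.image l) * Real.exp ς ≤ u * n
  sep : Sep Q l (u * n / (Real.exp ς * Real.exp r))
  en : ∀ W : ℝ, (∀ r' ς' : ℝ, r ≤ r' → 0 ≤ ς' → ς - d * (r' - r) ≤ ς' → S - r' ≤ ς' →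
    S + p - 2 * r' ≤ ς' → W ≤ 2 * r' + max ((ς' - max (p - r') 0) / 3) (ς' / 5)) →
    (En Q l own : ℝ) ≤ u * n * Real.exp (2 * ς + 2 * r - W)

theorem packageB (d : ℕ) (hd : 1 ≤ d) {η : ℝ} (hη : 0 < η) :
    ∃ C : ℝ, 1 ≤ C ∧ ∀ P : Finset (E d), Set.InjOn nq (P : Set (E d)) → ∀ n u : ℝ, n = #P →
      u = C * n ^ η → 1 ≤ n →
      ∃ Q ⊆ P, ∃ (own : E d → Submodule ℝ (LL d)) (S p : ℝ), n ≤ u * #Q ∧ Own Q own ∧ p ≤ S ∧
        (∀ W, IsDim 1 W → (#{z ∈ Q | z ∈ W} : ℝ) ≤ u * Real.exp S) ∧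
        ∀ R₀ : ℝ, 1 ≤ R₀ → u * R₀ ^ d ≤ n → ∃ (l : E d → Lab d) (r ς : ℝ),
          R₀ ≤ Real.exp r ∧ Real.exp r ≤ C * R₀ ∧ LevelData Q own n u S p l r ς := by
  have hη' : 0 < η / 4 := by positivity
  obtain ⟨D, Λ, M, C0, hp, hM, hT⟩ := exists_ptree d hη'
  have hM' : (1 : ℝ) ≤ M := by exact_mod_cast hM
  have hC0 : (0 : ℝ) ≤ C0 := by positivity
  set K : ℝ := 2 + 768 * M ^ 4 * (M + 2) + 24 * M ^ 2 + 2 * M * (M + 2) with hK
  have hK0 : 0 ≤ K := by positivity
  have hCM : (0 : ℝ) ≤ C0 * M := by positivity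
  refine ⟨K + C0 * M + C0 + M, by linarith, fun P hP n u hn hu hn1 => ?_⟩
  set C := K + C0 * M + C0 + M with hC
  subst hn
  have hn1' : 1 ≤ #P := by exact_mod_cast hn1
  obtain ⟨Q, hQP, s, j, l, core, h, hPQ⟩ := hT P (card_pos.1 hn1')
  obtain ⟨own, p, hps, hp2, ho, hEn⟩ := pb_energy hη'.le hp hM h hn1' (card_le_card hQP)
    (hP.mono (by exact_mod_cast hQP))
  set ν := Real.log (#P : ℝ) with hν
  set w := Real.exp (η / 4 * ν) with hw
  have hν0 : 0 ≤ ν := Real.log_natCast_nonneg _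
  have hw1 : 1 ≤ w := Real.one_le_exp (by positivity)
  have hnν : (#P : ℝ) = Real.exp ν := (Real.exp_log (by linarith)).symm
  have hu4 : u = C * w ^ 4 := by
    rw [hu, Real.rpow_def_of_pos (by linarith), hw, ← Real.exp_nat_mul]
    congr 2; push_cast; ring
  have hw2 : w ^ 2 ≤ w ^ 4 := pow_le_pow_right₀ hw1 (by norm_num)
  have hw14 : w ≤ w ^ 4 := le_self_pow₀ hw1 (by norm_num)
  have hw4 : 0 ≤ w ^ 4 := by positivity
  have u1 : C0 * w ≤ u := by rw [hu4]; exact mul_le_mul (by linarith) hw14 (by linarith) (by linarith)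
  have u2 : C0 * M * w ^ 2 ≤ u := by
    rw [hu4]; exact mul_le_mul (by linarith) hw2 (by positivity) (by linarith)
  have u3 : M * w ≤ u := by rw [hu4]; exact mul_le_mul (by linarith) hw14 (by linarith) (by linarith)
  have u4 : K * w ^ 4 ≤ u := by rw [hu4]; exact mul_le_mul_of_nonneg_right (by linarith) hw4
  have u5 : w ≤ u := le_trans (by nlinarith) u3
  have hu0 : 0 < u := by linarith
  have f1 : (#P : ℝ) ≤ C0 * w * #Q := by
    have a : (#P : ℝ) ≤ C0 * 4 ^ s * #Q := by exact_mod_cast hPQ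
    have b : (4 : ℝ) ^ s ≤ w := by
      refine le_trans ?_ (pk_lam hη'.le hp h (T := range s) subset_rfl)
      calc (4 : ℝ) ^ s = ∏ _k ∈ range s, (4 : ℝ) := by simp
        _ ≤ _ := prod_le_prod (fun _ _ => by norm_num) fun k hk => by
            have hk' := mem_range.1 hk
            exact_mod_cast (hp _ (h.pos k hk').1 (h.pos k hk').2).1
    exact a.trans (mul_le_mul_of_nonneg_right (mul_le_mul_of_nonneg_left b hC0)
      (Nat.cast_nonneg _))
  have hcells : ∀ i ≤ s, (#(Q.image (l i)) : ℝ) ≤ w * Real.exp (pkb D j i) := fun i hi =>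
    le_trans (by exact_mod_cast h.cells hi) (pk_prod hη'.le hp h (range_subset_range.2 hi) j)
  have hBR : ∀ i ≤ s, Real.exp (pkb D j i) ≤ Real.exp (pkr D j i) ^ d := fun i hi => by
    rw [← Real.exp_nat_mul]; exact Real.exp_le_exp.2 (pk_rb h hi).2
  have f2 : (#P : ℝ) ≤ u * Real.exp (pkr D j s) ^ d := by
    have a : (#Q : ℝ) ≤ M * #(Q.image (l s)) := by
      exact_mod_cast card_le_mul_card_image Q M fun b _ => h.bot b
    calc (#P : ℝ) ≤ C0 * w * (M * (w * Real.exp (pkr D j s) ^ d)) := by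
          refine f1.trans (mul_le_mul_of_nonneg_left (a.trans ?_) (by positivity))
          gcongr
          exact (hcells s le_rfl).trans (by gcongr; exact hBR s le_rfl)
      _ = C0 * M * w ^ 2 * Real.exp (pkr D j s) ^ d := by ring
      _ ≤ _ := by gcongr
  have htop : pkb D j s ≤ ν := pk_top hp h
  have g1 : ∀ k ≤ s, pkr D j s - pkr D j k ≤ ν - pkb D j k := fun k hk => by
    have := pb_lo D j (a := 1) hk fun i hi => (h.pos i hi).1
    push_cast at this
    linarith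
  have g2 : ∀ k ≤ s, pkr D j s + pkr D j p - 2 * pkr D j k ≤ ν - pkb D j k := fun k hk => by
    rcases le_total k p with e | e
    · have a := pb_lo D j (a := 2) e hp2
      have b := g1 p hps
      push_cast at a
      linarith
    · have a := pkr_mono D j e
      have b := g1 k hk
      linarith
  refine ⟨Q, hQP, own, pkr D j s, pkr D j p,
    f1.trans (mul_le_mul_of_nonneg_right u1 (Nat.cast_nonneg _)), ho, pkr_mono D j hps,
    fun W hW => ?_, fun R₀ hR₀ hRn => ?_⟩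
  · have a : (#{z ∈ Q | z ∈ W} : ℝ) ≤ M * ((∏ k ∈ range s, Λ (j k) * D (j k) : ℕ) : ℝ) := by
      exact_mod_cast h.line hW
    calc _ ≤ M * (w * Real.exp (pkr D j s)) :=
          a.trans (by gcongr; exact pk_prod1 hη'.le hp h subset_rfl)
      _ = M * w * Real.exp (pkr D j s) := by ring
      _ ≤ _ := by gcongr
  have f3 : R₀ ≤ Real.exp (pkr D j s) :=
    le_of_pow_le_pow_left₀ (by omega) (Real.exp_pos _).le
      (le_of_mul_le_mul_left (hRn.trans f2) hu0)
  have hex : ∃ i, R₀ ≤ Real.exp (pkr D j i) := ⟨s, f3⟩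
  have hrs : Nat.find hex ≤ s := Nat.find_min' hex f3
  have hr1 := Nat.find_spec hex
  have hr2 : Real.exp (pkr D j (Nat.find hex)) ≤ M * R₀ := by
    rcases e : Nat.find hex with _ | m
    · simp only [pkr, range_zero, sum_empty, Real.exp_zero]; nlinarith
    · have a := Nat.find_min hex (m := m) (by omega)
      have b : (D (j m) : ℝ) ≤ M := by
        have := pk_DM hp h (k := m) (m := 1) (by omega) hd
        rw [pow_one] at this; exact_mod_cast this
      rw [pkr_succ, Real.exp_add, pk_exp hp h (by omega), mul_comm]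
      exact mul_le_mul b (not_le.1 a).le (Real.exp_pos _).le (by linarith)
  set r := Nat.find hex with hr
  have hbr : pkb D j r ≤ ν := (pkb_mono D j hrs).trans htop
  have hσB : Real.exp (ν - pkb D j r) * Real.exp (pkb D j r) = #P := by
    rw [← Real.exp_add, hnν]; congr 1; ring
  refine ⟨l r, pkr D j r, ν - pkb D j r, hr1, hr2.trans (by gcongr; linarith), by linarith,
    pk_size hp h hn1' hrs, ?_, g1 r hrs, g2 r hrs, ?_, fun φ hφ A hA hz => ?_, fun W hW => ?_⟩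
  · have := (pk_rb h hrs).2
    linarith
  · calc _ ≤ w * Real.exp (pkb D j r) * Real.exp (ν - pkb D j r) := by
          gcongr; exact hcells r hrs
      _ = w * #P := by rw [← hσB]; ring
      _ ≤ _ := mul_le_mul_of_nonneg_right u5 (Nat.cast_nonneg _)
  · refine (h.sepM hrs φ hφ A hA hz).trans
      ((pk_prod hη'.le hp h (range_subset_range.2 hrs) fun k => j k - 1).trans ?_)
    have e : ∑ k ∈ range r, ((j k - 1 : ℕ) : ℝ) * pkx D j k = pkb D j r - pkr D j r := by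
      unfold pkb pkr
      rw [← sum_sub_distrib]
      refine sum_congr rfl fun k hk => ?_
      rw [Nat.cast_sub (h.pos k (by simp at hk; omega)).1]; push_cast; ring
    rw [e, Real.exp_sub (pkb D j r)]
    calc _ ≤ u * (Real.exp (pkb D j r) / Real.exp (pkr D j r)) :=
          mul_le_mul_of_nonneg_right u5 (by positivity)
      _ = _ := by rw [← hσB]; field_simp
  · refine (hEn r hrs W fun k h1 h2 => hW _ _ (pkr_mono D j h1) ?_ ?_ (g1 k h2) (g2 k h2)).trans
      (mul_le_mul_of_nonneg_right (mul_le_mul_of_nonneg_right u4 (Nat.cast_nonneg _))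
        (Real.exp_pos _).le)
    · have := (pkb_mono D j h2).trans htop
      linarith
    · have := pb_hi D j (a := d) h1 fun i hi => (h.pos i (by omega)).2
      linarith

end Pool.Agent.P.MP_5f07f1_co
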