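import Pool.Agent.P.MP_5f07f1_co.Lift

/-! Counting helpers for the small cliques. -/

namespace Pool.Agent.P.MP_5f07f1_co

open Finset MvPolynomial Pool.Agent.Lib.PolyPart Classical

variable {d : ℕ}

lemma sm_pair_le {α β : Type*} {s : Finset α} {T : Finset (α × β)} (R : α × β → Prop) {c : ℝ}
    (hT : ∀ p ∈ T, p.1 ∈ s ∧ R p)
    (h : ∀ a ∈ s, ∀ A : Finset β, (∀ b ∈ A, R (a, b)) → (#A : ℝ) ≤ c) : (#T : ℝ) ≤ #s * c := by
  rw [card_eq_sum_card_fiberwise (f := Prod.fst) (t := s) (fun p hp => (hT p hp).1), Nat.cast_sum]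
  refine le_trans (sum_le_sum (g := fun _ => c) fun a ha => ?_) (by rw [sum_const, nsmul_eq_mul])
  refine le_trans (Nat.cast_le.2 (card_image_of_injOn (f := Prod.snd) fun p hp q hq e => ?_).ge)
    (h a ha _ fun b hb => ?_)
  · exact Prod.ext ((mem_filter.1 (mem_coe.1 hp)).2.trans (mem_filter.1 (mem_coe.1 hq)).2.symm) e
  · obtain ⟨p, hp, rfl⟩ := mem_image.1 hb
    rw [← (mem_filter.1 hp).2]
    exact (hT p (mem_filter.1 hp).1).2

lemma Size.sm_le {Q A : Finset (E d)} {l : E d → Lab d} {σ : ℝ} (hσ : Size Q l σ) (b : Lab d)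
    (h : ∀ z ∈ A, z ∈ Q ∧ l z = b) : (#A : ℝ) ≤ σ :=
  le_trans (Nat.cast_le.2 (card_le_card fun z hz => mem_filter.2 (h z hz))) (hσ b)

lemma Acc.sm_le {Q A : Finset (E d)} {l : E d → Lab d} {own : E d → Submodule ℝ (LL d)} {a : ℝ}
    (ha : Acc Q l own a) {U : Submodule ℝ (LL d)} (hU : Module.finrank ℝ U ≤ 3) (b : Lab d)
    (h : ∀ z ∈ A, z ∈ Q ∧ l z = b ∧ lift z ∈ U ∧ own z ≠ U) : (#A : ℝ) ≤ a :=
  le_trans (Nat.cast_le.2 (card_le_card fun z hz => mem_filter.2 (h z hz))) (ha U hU b)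

lemma sm_cs {α β : Type*} [DecidableEq β] (S : Finset α) (κ : α → β) :
    (#S : ℝ) ^ 2 ≤ #(S.image κ) * #{p ∈ S ×ˢ S | κ p.1 = κ p.2} := by
  have e1 : (#S : ℝ) = ∑ b ∈ S.image κ, (#{a ∈ S | κ a = b} : ℝ) := by
    rw [card_eq_sum_card_image κ S, Nat.cast_sum]
  have e2 : (#{p ∈ S ×ˢ S | κ p.1 = κ p.2} : ℝ) =
      ∑ b ∈ S.image κ, (#{a ∈ S | κ a = b} : ℝ) ^ 2 := by
    rw [card_eq_sum_card_fiberwise (f := fun p : α × α => κ p.1) (t := S.image κ)
      (fun p hp => by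
        simp only [coe_filter, mem_product, Set.mem_ofPred_eq] at hp
        exact mem_coe.2 (mem_image_of_mem _ hp.1.1)), Nat.cast_sum]
    refine sum_congr rfl fun b _ => ?_
    rw [← Nat.cast_pow, sq, ← card_product]
    congr 2
    ext p
    simp only [mem_filter, mem_product]
    constructor
    · rintro ⟨⟨⟨h1, h2⟩, h3⟩, h4⟩
      exact ⟨⟨h1, h4⟩, h2, h3 ▸ h4⟩
    · rintro ⟨⟨h1, h4⟩, h2, h3⟩
      exact ⟨⟨⟨h1, h2⟩, h4.trans h3.symm⟩, h4⟩
  rw [e1, e2]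
  exact sq_sum_le_card_mul_sum_sq

lemma sm_quad {x p q : ℝ} (hp : 0 ≤ p) (h : x ^ 2 ≤ p * x + q ^ 2) (hq : 0 ≤ q) : x ≤ p + q := by
  by_contra hc
  push Not at hc
  nlinarith [mul_nonneg hp hq]

/-- Everything we use about a quadruple. -/
lemma sm_facts {Q : Finset (E d)} (hQ : Set.InjOn nq (Q : Set (E d))) {l : E d → Lab d}
    {own : E d → Submodule ℝ (LL d)} {w : (E d × E d) × (E d × E d)} (hw : w ∈ quads Q l own) :
    w.1.1 ∈ Q ∧ w.1.2 ∈ Q ∧ w.2.1 ∈ Q ∧ w.2.2 ∈ Q ∧ l w.1.2 = l w.1.1 ∧ l w.2.1 = l w.1.1 ∧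
      l w.2.2 = l w.1.1 ∧ own w.1.2 ≠ own w.1.1 ∧ w.1.2 ≠ w.1.1 ∧
      w.2.2 = w.2.1 + lamOf w.1.1 w.2.1 w.1.2 • (w.1.2 - w.1.1) ∧
      lift w.2.2 = lift w.2.1 + lamOf w.1.1 w.2.1 w.1.2 • (lift w.1.2 - lift w.1.1) := by
  obtain ⟨⟨x, y⟩, x', y'⟩ := w
  simp only [quads, prs, mem_filter, mem_product] at hw
  obtain ⟨⟨⟨⟨hx, hy⟩, h1, h2⟩, ⟨hx', hy'⟩, h3, h4⟩, h5, h6⟩ := hw
  have n1 : x ≠ y := fun e => h2 (by rw [e])
  have n2 : x' ≠ y' := fun e => h4 (by rw [e])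
  obtain ⟨-, e1, e2⟩ := dual_eq (fun e => n1 (hQ hx hy e)) (fun e => n2 (hQ hx' hy' e)) h6
  refine ⟨hx, hy, hx', hy', h1.symm, h5.symm, h3.symm.trans h5.symm, h2.symm, n1.symm, e1, ?_⟩
  refine Prod.ext (by simp [lift]) (Prod.ext ?_ ?_)
  · simpa [lift] using e1
  · simpa [lift] using e2

lemma sm_ext {Q : Finset (E d)} (hQ : Set.InjOn nq (Q : Set (E d))) {l : E d → Lab d}
    {own : E d → Submodule ℝ (LL d)} {w v : (E d × E d) × (E d × E d)} (hw : w ∈ quads Q l own)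
    (hv : v ∈ quads Q l own) (h1 : w.1.1 = v.1.1) (h2 : w.2.1 = v.2.1) (h3 : w.1.2 = v.1.2) :
    w = v := by
  have a := (sm_facts hQ hw).2.2.2.2.2.2.2.2.2.1
  have b := (sm_facts hQ hv).2.2.2.2.2.2.2.2.2.1
  refine Prod.ext (Prod.ext h1 h3) (Prod.ext h2 ?_)
  rw [a, b, h1, h2, h3]

/-- The plane spanned by the ends of a cherry. -/
def smPi (y1 y1' y2 y2' : E d) : Submodule ℝ (LL d) :=
  Submodule.span ℝ {lift y1, lift y2, lift y2' - lift y1'}

lemma smPi_rank (y1 y1' y2 y2' : E d) : Module.finrank ℝ (smPi y1 y1' y2 y2') ≤ 3 := by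
  have := finrank_span_finset_le_card (R := ℝ)
    ({lift y1, lift y2, lift y2' - lift y1'} : Finset (LL d))
  rw [Set.finrank, coe_insert, coe_insert, coe_singleton] at this
  exact this.trans card_le_three

lemma smPi_mem {x x' y1 y1' y2 y2' : E d} {a b : ℝ} (hab : a ≠ b)
    (h1 : lift y1' = lift x' + a • (lift y1 - lift x))
    (h2 : lift y2' = lift x' + b • (lift y2 - lift x)) : lift x ∈ smPi y1 y1' y2 y2' := by
  have e : lift x = (a - b)⁻¹ • ((lift y2' - lift y1') - b • lift y2 + a • lift y1) := by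
    have : (lift y2' - lift y1') - b • lift y2 + a • lift y1 = (a - b) • lift x := by
      rw [h1, h2]; module
    rw [this, smul_smul, inv_mul_cancel₀ (sub_ne_zero.2 hab), one_smul]
  rw [e]
  refine Submodule.smul_mem _ _ (Submodule.add_mem _ (Submodule.sub_mem _ ?_
    (Submodule.smul_mem _ _ ?_)) (Submodule.smul_mem _ _ ?_)) <;>
  exact Submodule.subset_span (by simp)

lemma sm_det {x x' z' y1 y1' y2 y2' : E d} {a b a' b' : ℝ} (n1 : y1 ≠ x) (n2 : y2 ≠ x)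
    (n3 : y1 ≠ y2) (h1 : lift y1' = lift x' + a • (lift y1 - lift x))
    (h2 : lift y2' = lift x' + b • (lift y2 - lift x))
    (h3 : lift y1' = lift z' + a' • (lift y1 - lift x))
    (h4 : lift y2' = lift z' + b' • (lift y2 - lift x)) : x' = z' := by
  have hi := lift_indep n1.symm n2.symm n3
  rw [Fintype.linearIndependent_iff] at hi
  have e : (a - b - (a' - b')) • lift x + (a' - a) • lift y1 + (b - b') • lift y2 = 0 := by
    have e1 : lift y2' - lift y1' = b • (lift y2 - lift x) - a • (lift y1 - lift x) := by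
      rw [h1, h2]; module
    have e2 : lift y2' - lift y1' = b' • (lift y2 - lift x) - a' • (lift y1 - lift x) := by
      rw [h3, h4]; module
    have e3 := sub_eq_zero.2 (e1.symm.trans e2)
    rw [← e3]; module
  have := hi ![a - b - (a' - b'), a' - a, b - b'] (by simpa [Fin.sum_univ_three] using e) 1
  have ha : a' = a := sub_eq_zero.1 (by simpa using this)
  rw [ha, h1] at h3
  exact lift_injective (add_right_cancel h3)

end Pool.Agent.P.MP_5f07f1_co
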