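import Pool.Agent.P.MP_5f07f1_co.Count2
import Pool.Agent.P.MP_5f07f1_co.Cover

/-! Task STEP: one level of the tree from towers (paper section 2). -/

namespace Pool.Agent.P.MP_5f07f1_co

open Finset MvPolynomial Pool.Agent.Lib.PolyPart Classical

variable {d : ℕ}

/-- Clearing denominators in `G ∘ θ`. -/
theorem RMap.exists_clear (θ : RMap d) (G : MP d) : ∃ Ψ : MP d,
    Ψ.totalDegree ≤ 3 * G.totalDegree ∧
      ∀ z, eval z θ.den ≠ 0 → (eval z Ψ = 0 ↔ eval (θ.app z) G = 0) := by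
  have hm : ∀ m ∈ G.support, ∑ i, m i ≤ G.totalDegree := fun m hm => by
    have := le_totalDegree hm
    rwa [Finsupp.sum_fintype _ _ (fun _ => rfl)] at this
  refine ⟨∑ m ∈ G.support, C (coeff m G) * (∏ i, θ.num i ^ m i) *
    θ.den ^ (G.totalDegree - ∑ i, m i), ?_, fun z hz => ?_⟩
  · refine totalDegree_finsetSum_le fun m hmG => ?_
    have h1 : (∏ i, θ.num i ^ m i).totalDegree ≤ 3 * ∑ i, m i := by
      refine (totalDegree_finsetProd _ _).trans ?_
      rw [mul_sum]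
      refine sum_le_sum fun i _ => (totalDegree_pow _ _).trans ?_
      rw [mul_comm]; exact Nat.mul_le_mul_right _ (θ.hnum i)
    have h2 : (θ.den ^ (G.totalDegree - ∑ i, m i)).totalDegree ≤
        3 * (G.totalDegree - ∑ i, m i) := (totalDegree_pow _ _).trans (by
      rw [mul_comm]; exact Nat.mul_le_mul_right _ θ.hden)
    have h3 := totalDegree_mul (C (coeff m G) * (∏ i, θ.num i ^ m i))
      (θ.den ^ (G.totalDegree - ∑ i, m i))
    have h4 := totalDegree_mul (C (coeff m G) : MP d) (∏ i, θ.num i ^ m i)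
    rw [totalDegree_C] at h4
    have := hm m hmG
    omega
  · have key : eval z (∑ m ∈ G.support, C (coeff m G) * (∏ i, θ.num i ^ m i) *
        θ.den ^ (G.totalDegree - ∑ i, m i)) =
        eval z θ.den ^ G.totalDegree * eval (θ.app z) G := by
      rw [eval_eq' (θ.app z) G, map_sum, mul_sum]
      refine sum_congr rfl fun m hmG => ?_
      have e : eval z θ.den ^ G.totalDegree =
          eval z θ.den ^ (G.totalDegree - ∑ i, m i) * ∏ i, eval z θ.den ^ m i := by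
        rw [prod_pow_eq_pow_sum, ← pow_add, Nat.sub_add_cancel (hm m hmG)]
      have e2 : (∏ i, eval z θ.den ^ m i) * ∏ i, θ.app z i ^ m i =
          ∏ i, eval z (θ.num i) ^ m i := by
        rw [← prod_mul_distrib]
        refine prod_congr rfl fun i _ => ?_
        rw [← mul_pow, RMap.app, mul_div_cancel₀ _ hz]
      rw [e]
      simp only [map_mul, eval_C, map_prod, map_pow]
      rw [← e2]; ring
    rw [key, mul_eq_zero, or_iff_right (pow_ne_zero _ hz)]

/-- Representatives of the classes of `f`, in different components. -/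
lemma exists_apart {β : Type*} (S : Set (E d)) (A : Finset (E d)) (w : E d → E d) (f : E d → β)
    (hw : ∀ z ∈ A, w z ∈ S)
    (hf : ∀ z ∈ A, ∀ z' ∈ A, w z' ∈ connectedComponentIn S (w z) → f z = f z') :
    ∃ B : Finset (E d), Apart S B ∧ (∀ x ∈ B, ∃ z ∈ A, x = w z) ∧ #(A.image f) ≤ #B := by
  have h : ∀ v : β, ∃ z, v ∈ A.image f → z ∈ A ∧ f z = v := fun v => by
    by_cases hv : v ∈ A.image f
    · obtain ⟨z, hz, e⟩ := mem_image.1 hv
      exact ⟨z, fun _ => ⟨hz, e⟩⟩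
    · exact ⟨0, fun h => absurd h hv⟩
  choose r hr using h
  have key : ∀ v ∈ A.image f, ∀ v' ∈ A.image f,
      w (r v') ∈ connectedComponentIn S (w (r v)) → v = v' := fun v hv v' hv' h => by
    rw [← (hr v hv).2, ← (hr v' hv').2]
    exact hf _ (hr v hv).1 _ (hr v' hv').1 h
  refine ⟨(A.image f).image fun v => w (r v), ⟨fun x hx => ?_, fun x hx z hz h => ?_⟩,
    fun x hx => ?_, ?_⟩
  · obtain ⟨v, hv, rfl⟩ := mem_image.1 hx
    exact hw _ (hr v hv).1
  · obtain ⟨v, hv, rfl⟩ := mem_image.1 hx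
    obtain ⟨v', hv', rfl⟩ := mem_image.1 hz
    rw [key v hv v' hv' h]
  · obtain ⟨v, hv, rfl⟩ := mem_image.1 hx
    exact ⟨_, (hr v hv).1, rfl⟩
  · refine (card_image_of_injOn fun v hv v' hv' h => key v hv v' hv' ?_).ge
    have h' : w (r v) = w (r v') := h
    rw [← h']
    exact mem_connectedComponentIn (hw _ (hr v hv).1)

lemma RMap.continuousOn (θ : RMap d) : ContinuousOn θ.app (NZ θ.den) :=
  continuousOn_pi.2 fun i => (MvPolynomial.continuous_eval (θ.num i)).continuousOn.div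
    (MvPolynomial.continuous_eval θ.den).continuousOn fun _ hx => hx

/-- The pairs of components of `z` and of its image. -/
lemma joint_aux (X X' : Set (E d)) (G G' : MP d) {c' : ℕ} (hc : Cov X' G' c') (θ : RMap d) :
    ∃ Φ : MP d, Φ.totalDegree ≤ G.totalDegree + 3 + 3 * G'.totalDegree ∧
      ∀ {β : Type} (f : E d → β) (A : Finset (E d)) (N : ℕ),
      (∀ z ∈ A, z ∈ X ∩ NZ G ∧ eval z θ.den ≠ 0 ∧ θ.app z ∈ X' ∩ NZ G') →
      (∀ z ∈ A, ∀ z' ∈ A, z' ∈ connectedComponentIn (X ∩ NZ G) z →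
        θ.app z' ∈ connectedComponentIn (X' ∩ NZ G') (θ.app z) → f z = f z') →
      (∀ B ⊆ A, Apart (X ∩ NZ Φ) B → #B ≤ N) → #(A.image f) ≤ c' * N := by
  obtain ⟨Ψ, hΨ, hΨ'⟩ := θ.exists_clear G'
  refine ⟨G * θ.den * Ψ, ?_, fun {β} f A N hA hf hN => ?_⟩
  · have h1 := totalDegree_mul (G * θ.den) Ψ
    have h2 := totalDegree_mul G θ.den
    have := θ.hden
    omega
  set S := X ∩ NZ (G * θ.den * Ψ) with hS
  have hmem : ∀ z, z ∈ S ↔ z ∈ X ∧ eval z G ≠ 0 ∧ eval z θ.den ≠ 0 ∧ eval z Ψ ≠ 0 := fun z => by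
    simp only [hS, NZ, Set.mem_inter_iff, Set.mem_ofPred_eq, map_mul, ne_eq, mul_eq_zero, not_or,
      and_assoc]
  have hAS : ∀ z ∈ A, z ∈ S := fun z hz => (hmem z).2 ⟨(hA z hz).1.1, (hA z hz).1.2,
    (hA z hz).2.1, fun h => (hA z hz).2.2.2 ((hΨ' z (hA z hz).2.1).1 h)⟩
  set K : E d → Set (E d) := fun z => connectedComponentIn S z with hK
  have h1 : #(A.image K) ≤ N := by
    obtain ⟨B, hB, hBA, hcard⟩ := exists_apart S A id K hAS
      fun z _ z' _ h => connectedComponentIn_eq h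
    refine hcard.trans (hN B (fun x hx => ?_) hB)
    obtain ⟨z, hz, rfl⟩ := hBA x hx
    exact hz
  have h2 : ∀ k ∈ A.image K, #(({z ∈ A | K z = k}).image f) ≤ c' := fun k hk => by
    obtain ⟨z₀, hz₀, rfl⟩ := mem_image.1 hk
    have hin : ∀ z ∈ A, ∀ z' ∈ A, K z' = K z → z' ∈ K z := fun z _ z' hz' h => by
      rw [← h]; exact mem_connectedComponentIn (hAS z' hz')
    obtain ⟨B, hB, hBA, hcard⟩ := exists_apart (X' ∩ NZ G') {z ∈ A | K z = K z₀} θ.app f
      (fun z hz => (hA z (mem_filter.1 hz).1).2.2) fun z hz z' hz' h => by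
        obtain ⟨hz1, hz2⟩ := mem_filter.1 hz
        obtain ⟨hz1', hz2'⟩ := mem_filter.1 hz'
        refine hf z hz1 z' hz1' (connectedComponentIn_mono z (fun u hu => ?_)
          (hin z hz1 z' hz1' (hz2'.trans hz2.symm))) h
        exact ⟨((hmem u).1 hu).1, ((hmem u).1 hu).2.1⟩
    refine hcard.trans (hc (θ.app z₀) B hB fun x hx => ?_)
    obtain ⟨z, hz, rfl⟩ := hBA x hx
    obtain ⟨hz1, hz2⟩ := mem_filter.1 hz
    have hsub : K z₀ ⊆ S := connectedComponentIn_subset _ _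
    have hpre : IsPreconnected (θ.app '' K z₀) :=
      isPreconnected_connectedComponentIn.image _
        (θ.continuousOn.mono fun u hu => ((hmem u).1 (hsub hu)).2.2.1)
    refine hpre.subset_connectedComponentIn ⟨z₀, hin z₀ hz₀ z₀ hz₀ rfl, rfl⟩ ?_
      ⟨z, hin z₀ hz₀ z hz1 hz2, rfl⟩
    rintro _ ⟨u, hu, rfl⟩ h
    obtain ⟨-, -, h3, h4⟩ := (hmem u).1 (hsub hu)
    exact h4 ((hΨ' u h3).2 h)
  have h3 : A.image f ⊆ (A.image K).biUnion fun k => ({z ∈ A | K z = k}).image f := by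
    intro v hv
    obtain ⟨z, hz, rfl⟩ := mem_image.1 hv
    exact mem_biUnion.2 ⟨K z, mem_image_of_mem _ hz, mem_image_of_mem _ (mem_filter.2 ⟨hz, rfl⟩)⟩
  calc #(A.image f) ≤ #(A.image K) * c' := (card_le_card h3).trans (card_biUnion_le_card_mul _ _ _ h2)
    _ ≤ c' * N := by rw [mul_comm]; exact Nat.mul_le_mul_left _ h1

/-- Different signs on a preconnected set give a zero, and one of the two values is nonzero. -/
lemma exists_zero_of_sign {K : Set (E d)} (hK : IsPreconnected K) (φ : MP d) {u z : E d}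
    (hu : u ∈ K) (hz : z ∈ K) (h : SignType.sign (eval u φ) ≠ SignType.sign (eval z φ)) :
    (∃ w ∈ K, eval w φ = 0) ∧ ∃ w ∈ K, eval w φ ≠ 0 := by
  have hc : ContinuousOn (fun x : E d => eval x φ) K := (MvPolynomial.continuous_eval φ).continuousOn
  constructor
  · rcases lt_trichotomy (eval u φ) 0 with h1 | h1 | h1
    · have h2 : 0 ≤ eval z φ := le_of_not_gt fun h2 => h (by rw [sign_neg h1, sign_neg h2])
      exact hK.intermediate_value hu hz hc ⟨h1.le, h2⟩
    · exact ⟨u, hu, h1⟩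
    · have h2 : eval z φ ≤ 0 := le_of_not_gt fun h2 => h (by rw [sign_pos h1, sign_pos h2])
      exact hK.intermediate_value hz hu hc ⟨h2, h1.le⟩
  · by_contra hn
    push Not at hn
    exact h (by rw [hn u hu, hn z hz])

lemma card_image_inst {α β : Type*} (i₁ i₂ : DecidableEq β) (A : Finset α) (f : α → β) :
    #(@image α β i₁ f A) = #(@image α β i₂ f A) := by
  rw [Subsingleton.elim i₁ i₂]

/-- `joint`: `Φ = G b * den * Ψ`; group the points by their component of `X ∩ NZ Φ`; inside a group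
`l'` is constant and the images lie in one component of `NZ (G b')`, so `Cov` applies. -/
theorem lvl_of_towers (d j c c' : ℕ) (hj : 1 ≤ j) : ∃ κ : ℕ, ∀ (Δ D Λ : ℕ), 1 ≤ D →
    (∀ e ≤ j, κ * (4 * Δ + 4) ^ e ≤ Λ * D ^ e) →
    ∀ (Q : Finset (E d)) (l : E d → Lab d) (T : Lab d → Tw d j c) (x₀ : Lab d → E d)
      (G : Lab d → MP d), (∀ b, (G b).totalDegree ≤ Δ) → (∀ b, Cov (T b).X (G b) c') →
      (∀ x ∈ Q, x ∈ connectedComponentIn (T (l x)).X (x₀ (l x)) ∧ eval x (G (l x)) ≠ 0) →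
      Lvl j D Λ Q l (fun x => connectedComponentIn ((T (l x)).X ∩ NZ (G (l x))) x :: l x)
        (fun x => connectedComponentIn (T (l x)).X (x₀ (l x))) := by
  obtain ⟨j, rfl⟩ : ∃ j', j = j' + 1 := ⟨j - 1, by omega⟩
  obtain ⟨D₀, hD₀⟩ := zero_sub d (j + 1) c
  obtain ⟨k₁, hk₁⟩ := count_all d (j + 1) c
  obtain ⟨k₂, hk₂⟩ := count_hyp d j c D₀
  obtain ⟨k₃, hk₃⟩ := count_dim d (j + 1) c
  obtain ⟨k₄, hk₄⟩ := card_zero d c D₀
  refine ⟨(c' + 1) * (k₁ + k₂) + k₃ + k₄, fun Δ D Λ hD hκ Q l T x₀ G hG hC hQ => ?_⟩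
  have fin : ∀ {n k m e : ℕ}, n ≤ k * (m + 1) ^ e → k ≤ (c' + 1) * (k₁ + k₂) + k₃ + k₄ →
      m ≤ 4 * Δ + 3 → e ≤ j + 1 → n ≤ Λ * D ^ e := fun {n k m e} h1 h2 h3 h4 =>
    h1.trans ((Nat.mul_le_mul h2 (Nat.pow_le_pow_left (by omega) _)).trans (hκ e h4))
  have hS : ∀ x ∈ Q, ∀ b, l x = b → x ∈ (T b).X ∩ NZ (G b) := fun x hx b hb => by
    subst hb
    exact ⟨connectedComponentIn_subset _ _ (hQ x hx).1, (hQ x hx).2⟩
  set l' : E d → Lab d :=
    fun x => connectedComponentIn ((T (l x)).X ∩ NZ (G (l x))) x :: l x with hl'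
  have hl : ∀ b, ∀ z z', l z = b → l z' = b →
      z' ∈ connectedComponentIn ((T b).X ∩ NZ (G b)) z → l' z = l' z' := fun b z z' h h' hz => by
    simp only [hl', h, h']
    rw [connectedComponentIn_eq hz]
  have hrep : ∀ b, ∀ A ⊆ Q, (∀ z ∈ A, l z = b) →
      ∃ B ⊆ A, Apart ((T b).X ∩ NZ (G b)) B ∧ #(A.image l') ≤ #B := fun b A hA hb => by
    obtain ⟨B, hB, hBA, hcard⟩ := exists_apart ((T b).X ∩ NZ (G b)) A id l'
      (fun z hz => hS z (hA hz) b (hb z hz)) fun z hz z' hz' h => hl b z z' (hb z hz) (hb z' hz') h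
    refine ⟨B, fun x hx => ?_, hB, (card_image_inst _ _ A _).trans_le hcard⟩
    obtain ⟨z, hz, rfl⟩ := hBA x hx
    exact hz
  have hjoint : ∀ (θ : RMap d) (b b' : Lab d), ∃ Φ : MP d, Φ.totalDegree ≤ 4 * Δ + 3 ∧
      ∀ A ⊆ Q, (∀ z ∈ A, l z = b ∧ eval z θ.den ≠ 0 ∧ θ.app z ∈ Q ∧ l (θ.app z) = b') →
      ∀ N, (∀ B ⊆ A, Apart ((T b).X ∩ NZ Φ) B → #B ≤ N) →
      #(A.image fun z => (l' z, l' (θ.app z))) ≤ c' * N := fun θ b b' => by
    obtain ⟨Φ, hΦ, h⟩ := joint_aux (T b).X (T b').X (G b) (G b') (hC b') θ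
    refine ⟨Φ, by have := hG b; have := hG b'; omega, fun A hA hz N hN => ?_⟩
    have := h (fun z => (l' z, l' (θ.app z))) A N
      (fun z hz' => ⟨hS z (hA hz') b (hz z hz').1, (hz z hz').2.1,
        hS _ (hz z hz').2.2.1 b' (hz z hz').2.2.2⟩)
      (fun z hz1 z' hz2 h1 h2 => Prod.ext (hl b z z' (hz z hz1).1 (hz z' hz2).1 h1)
        (hl b' _ _ (hz z hz1).2.2.2 (hz z' hz2).2.2.2 h2)) hN
    exact (card_image_inst _ _ A _).trans_le this
  refine ⟨fun x _ z _ h => (List.cons.inj h).2, fun x _ z _ h => by simp only [h],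
    fun x hx => (hQ x hx).1, fun φ hφ b A hA hz => ?_, fun e W hW b A hA hz => ?_,
    fun θ b b' A hA hz => ?_, fun θ φ hφ x hx hw b' A hA hz => ?_, fun h1 φ hφ x hx hw => ?_⟩
  · obtain ⟨ψ, hψ0, hψd, hψ⟩ := hD₀ (T b) φ hφ
    have h : ∀ z, ∃ w, z ∈ A → w ∈ connectedComponentIn ((T b).X ∩ NZ (G b)) z ∧
        eval ((T b).yv w) ψ = 0 := fun z => by
      by_cases hzA : z ∈ A
      swap
      · exact ⟨0, fun h => absurd h hzA⟩
      obtain ⟨hb, u, hu, huz, hs⟩ := hz z hzA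
      subst hb
      obtain ⟨e1, e2⟩ := List.cons.inj huz
      have hu' : u ∈ connectedComponentIn ((T (l z)).X ∩ NZ (G (l z))) z := by
        rw [← e1]; exact mem_connectedComponentIn (hS u hu _ rfl)
      obtain ⟨⟨w, hw, hw0⟩, w', hw', hw0'⟩ := exists_zero_of_sign
        isPreconnected_connectedComponentIn φ hu'
        (mem_connectedComponentIn (hS z (hA hzA) _ rfl)) hs
      have hsub : connectedComponentIn ((T (l z)).X ∩ NZ (G (l z))) z ⊆
          connectedComponentIn (T (l z)).X (x₀ (l z)) := by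
        rw [connectedComponentIn_eq (hQ z (hA hzA)).1]
        exact connectedComponentIn_mono _ Set.inter_subset_left
      exact ⟨w, fun _ => ⟨hw, hψ _ ⟨w', hsub hw', hw0'⟩ w (hsub hw) hw0⟩⟩
    choose w hw using h
    obtain ⟨B, hB, hBA, hcard⟩ := exists_apart ((T b).X ∩ NZ (G b)) A w l'
      (fun z hz' => connectedComponentIn_subset _ _ (hw z hz').1) fun z hz1 z' hz2 h => by
        refine hl b z z' (hz z hz1).1 (hz z' hz2).1 ?_
        rw [connectedComponentIn_eq (hw z hz1).1, connectedComponentIn_eq h,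
          ← connectedComponentIn_eq (hw z' hz2).1]
        exact mem_connectedComponentIn (hS z' (hA hz2) b (hz z' hz2).1)
    have := hk₂ (T b) ψ hψ0 hψd (G b) B hB fun x hx => by
      obtain ⟨z, hz', rfl⟩ := hBA x hx
      exact (hw z hz').2
    have hcard' : #(A.image l') ≤ #B := (card_image_inst _ _ A _).trans_le hcard
    exact hcard'.trans (fin this (by nlinarith) (by have := hG b; omega) (by omega))
  · obtain ⟨B, hBA, hB, hcard⟩ := hrep b A hA fun z hz' => (hz z hz').1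
    refine hcard.trans ?_
    by_cases he : e ≤ j + 1
    · exact fin (hk₃ (T b) e W hW (G b) B hB fun x hx => (hz x (hBA hx)).2) (by omega)
        (by have := hG b; omega) he
    · exact (fin (hk₁ (T b) (G b) B hB) (by nlinarith) (by have := hG b; omega) le_rfl).trans
        (Nat.mul_le_mul_left _ (Nat.pow_le_pow_right hD (by omega)))
  · obtain ⟨Φ, hΦ, h⟩ := hjoint θ b b'
    have := h A hA hz _ fun B _ hB => hk₁ (T b) Φ B hB
    rw [← mul_assoc] at this
    exact fin this (by nlinarith) hΦ le_rfl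
  · obtain ⟨Φ, hΦ, h⟩ := hjoint θ (l x) b'
    obtain ⟨ψ, hψ0, hψd, hψ⟩ := hD₀ (T (l x)) φ hφ
    have := h A hA (fun z hz' => ⟨(hz z hz').1, (hz z hz').2.2⟩) _ fun B hBA hB =>
      hk₂ (T (l x)) ψ hψ0 hψd Φ B hB fun z hz' => by
        refine hψ _ hw z ?_ (hz z (hBA hz')).2.1
        rw [← (hz z (hBA hz')).1]
        exact (hQ z (hA (hBA hz'))).1
    rw [← mul_assoc] at this
    exact fin this (by nlinarith) hΦ (by omega)
  · obtain rfl : j = 0 := by omega
    obtain ⟨ψ, hψ0, hψd, hψ⟩ := hD₀ (T (l x)) φ hφ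
    have := hk₄ (T (l x)) ψ hψ0 hψd {z ∈ Q | l z = l x ∧ eval z φ = 0} fun z hz => by
      obtain ⟨hzQ, hz1, hz2⟩ := mem_filter.1 hz
      refine ⟨(hS z hzQ _ hz1).1, hψ _ hw z ?_ hz2⟩
      rw [← hz1]
      exact (hQ z hzQ).1
    have h0 := hκ 0 (by omega)
    simp only [pow_zero, mul_one] at h0
    omega

end Pool.Agent.P.MP_5f07f1_co
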