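import Pool.Agent.P.MP_5f07f1_co.Main

namespace Pool.Agent.P.MP_5f07f1_co.VariantHighDim

open Pool.Agent.P.MP_5f07f1_co

/-- Pinned distinct distances with exponent `2 / d - ε` in every dimension `d ≥ 15`. -/
theorem result (d : ℕ) (hd : 15 ≤ d) (ε : ℝ) (hε : 0 < ε) :
    ∃ c : ℝ, 0 < c ∧ ∀ P : Finset (EuclideanSpace ℝ (Fin d)), 2 ≤ P.card → ∃ q ∈ P,
      c * (P.card : ℝ) ^ (2 / (d : ℝ) - ε) ≤
        (Set.ncard {r : ℝ | ∃ x ∈ P, x ≠ q ∧ dist q x = r} : ℝ) := by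
  have h : (0 : ℝ) < d := by exact_mod_cast (by omega : 0 < d)
  exact (pd_beta d).pinned' (by rw [beta_big hd]; positivity) (by rw [beta_big hd]; simp) hε

end Pool.Agent.P.MP_5f07f1_co.VariantHighDim
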