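import Pool.Agent.P.MP_5f07f1_co.ZDefs
import Pool.Agent.P.MP_5f07f1_co.Main

/-! The algebraic alternative gains a power. -/

namespace Pool.Agent.P.MP_5f07f1_co.Z

open Finset MvPolynomial Pool.Agent.Lib.PolyPart Classical Module

namespace XALG

/-- The final absorption: `n ≤ K n ^ (1 - δ)` bounds `n`. -/
lemma absorb_end {K n δ : ℝ} (hK : 1 ≤ K) (hδ : 0 < δ) (hn : K ^ (1 / δ) + 1 ≤ n)
    (h : n ≤ K * n ^ (1 - δ)) : False := by
  have hK0 : 0 < K := by linarith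
  have h1 : 0 < K ^ (1 / δ) := Real.rpow_pos_of_pos hK0 _
  have hn0 : 0 < n := by linarith
  have h2 : n ^ δ ≤ K := by
    have e : n = n ^ δ * n ^ (1 - δ) := by
      rw [← Real.rpow_add hn0]; simp
    have h3 : 0 < n ^ (1 - δ) := Real.rpow_pos_of_pos hn0 _
    refine le_of_mul_le_mul_right ?_ h3
    rw [← e]; exact h
  have h4 : (n ^ δ) ^ (1 / δ) ≤ K ^ (1 / δ) :=
    Real.rpow_le_rpow (Real.rpow_nonneg hn0.le _) h2 (by positivity)
  rw [← Real.rpow_mul hn0.le, mul_one_div_cancel hδ.ne', Real.rpow_one] at h4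
  linarith

/-- The first exponent inequality. -/
lemma ineqA {d c₁ d₁ : ℝ} (hd : 17 ≤ d) (h0 : 0 < c₁) (h1 : c₁ ≤ 1) (hd0 : 0 ≤ d₁)
    (hd1 : d₁ ≤ c₁ / (78 * (d - 1))) :
    d + 1 ≤ (2 + 25 / 13 / d + 1 / 13 * ((d - 1 + c₁) / (d * (d - 1)))) * (d / 2 - d₁) +
      (2 - d * (25 / 13 / d) - 1 / 13) * 0.03 := by
  have hd' : 0 < d := by linarith
  have hm : 0 < d - 1 := by linarith
  obtain ⟨x, hx⟩ : ∃ x, x = c₁ / (78 * (d - 1)) := ⟨_, rfl⟩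
  obtain ⟨y, hy⟩ : ∃ y, y = 1 / d := ⟨_, rfl⟩
  have hx0 : 0 ≤ x := by rw [hx]; positivity
  have hx1 : x ≤ 1 := by rw [hx, div_le_one (by positivity)]; linarith
  have hy0 : 0 ≤ y := by rw [hy]; positivity
  have hy1 : y ≤ 1 / 17 := by rw [hy]; exact one_div_le_one_div_of_le (by norm_num) hd
  have hyd : y * d = 1 := by rw [hy]; field_simp
  have e1 : 25 / 13 / d + 1 / 13 * ((d - 1 + c₁) / (d * (d - 1))) = 2 * y + 6 * x * y := by
    rw [hx, hy]; field_simp; ring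
  have e2 : d * (25 / 13 / d) = 25 / 13 := by field_simp
  rw [add_assoc 2, e1, e2]
  rw [← hx] at hd1
  have e3 : (2 + (2 * y + 6 * x * y)) * (d / 2 - d₁) =
      d + y * d + 3 * x * (y * d) - (2 + 2 * y + 6 * x * y) * d₁ := by ring
  have h5 : 2 + 2 * y + 6 * x * y ≤ 3 := by nlinarith
  have h6 : (2 + 2 * y + 6 * x * y) * d₁ ≤ 3 * x :=
    (mul_le_mul_of_nonneg_right h5 hd0).trans (by linarith)
  rw [e3, hyd]
  linarith

/-- The second exponent inequality. -/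
lemma ineqB {d d₁ : ℝ} (hd : 17 ≤ d) (hd0 : 0 ≤ d₁) (hd1 : d₁ ≤ 0.002) :
    d + 1 - 1 / 13 ≤ (2 + 25 / 13 / d) * (d / 2 - d₁) +
      (1 - d * (25 / 13 / d) - 2 * (1 / 13)) * 0.03 := by
  have hd' : 0 < d := by linarith
  have hg : 25 / 13 / d ≤ 5 / 39 := by rw [div_le_iff₀ hd']; linarith
  have e2 : d * (25 / 13 / d) = 25 / 13 := by field_simp
  generalize 25 / 13 / d = g at hg e2
  have e3 : (2 + g) * (d / 2 - d₁) = d + d * g / 2 - (2 + g) * d₁ := by ring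
  have h6 : (2 + g) * d₁ ≤ (2 + 5 / 39) * d₁ := mul_le_mul_of_nonneg_right (by linarith) hd0
  rw [e3, e2]
  linarith

end XALG

theorem p_ALG (hPK : S_PK) (hCORE : S_CORE) : S_ALG := by
  intro d c₁ hd hc0 hc1
  have hd' : (17 : ℝ) ≤ d := by exact_mod_cast hd
  have hd0 : (0 : ℝ) < d := by linarith
  have hm : (0 : ℝ) < d - 1 := by linarith
  obtain ⟨d₁, hd1, hd2, hd3⟩ : ∃ d₁ : ℝ, 0 < d₁ ∧ d₁ ≤ 0.002 ∧ d₁ ≤ c₁ / (78 * (d - 1)) :=
    ⟨min 0.002 (c₁ / (78 * (d - 1))), lt_min (by norm_num) (by positivity), min_le_left _ _,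
      min_le_right _ _⟩
  obtain ⟨δ, hδ⟩ : ∃ δ : ℝ, δ = d₁ / d := ⟨_, rfl⟩
  have hδ0 : 0 < δ := by rw [hδ]; positivity
  obtain ⟨η, hη⟩ : ∃ η : ℝ, η = δ / (10 * (4 * d + 9)) := ⟨_, rfl⟩
  have hη0 : 0 < η := by rw [hη]; positivity
  have hg : 25 / 13 / (d : ℝ) ≤ 5 / 39 := by rw [div_le_iff₀ hd0]; linarith
  have hg0 : 0 ≤ 25 / 13 / (d : ℝ) := by positivity
  have hgd : 25 / 13 / (d : ℝ) * d = 25 / 13 := by field_simp
  obtain ⟨C₀, hC₀, hcore⟩ := hCORE d beta (d / 2 - d₁) 0.03 (25 / 13 / d) (1 / 13) c₁ η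
    (by omega) (fun e _ => pd_beta e) rfl rfl hg0 (by norm_num) (by linarith) (by linarith)
    (by norm_num) (by norm_num)
    (fun e he _ => (beta_le he).trans (by
      have : (0 : ℝ) ≤ e := by positivity
      linarith))
    (by rw [beta_big (by omega), Nat.cast_sub (by omega)]; push_cast; linarith)
    (by linarith) hc0.le hc1 (XALG.ineqA hd' hc0 hc1 hd1.le hd3) (XALG.ineqB hd' hd1.le hd2) hη0
  have hK : (1 : ℝ) ≤ (3000 * C₀) ^ (4 * d + 9) := one_le_pow₀ (by linarith)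
  refine ⟨η, η, ((3000 * C₀) ^ (4 * d + 9)) ^ (1 / δ) + 1, hη0, hη0, ?_⟩
  intro P t H R' hinj hn ht hpin hH hHn hR hRn halg
  by_contra hcon
  push Not at hcon
  have hn1 : (1 : ℝ) ≤ #P := by
    have : 0 < ((3000 * C₀) ^ (4 * d + 9)) ^ (1 / δ) := Real.rpow_pos_of_pos (by linarith) _
    linarith
  have hu1 : (1 : ℝ) ≤ 3000 * H ^ 5 * (#P : ℝ) ^ (4 * η) := by
    have a1 : 1 ≤ H ^ 5 := one_le_pow₀ hH
    have a2 : 1 ≤ (#P : ℝ) ^ (4 * η) := Real.one_le_rpow hn1 (by positivity)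
    nlinarith
  have hmain := hcore P (#P) t (3000 * H ^ 5 * (#P : ℝ) ^ (4 * η)) R' rfl hn1 ht hu1 hinj hpin hR
    hRn (fun R₀ h1 h2 => hPK d (25 / 13 / d) (1 / 13) η (by omega) hη0 hg0 (by norm_num)
      (by linarith) (by linarith)
      (fun j hj _ => by
        have : (2 : ℝ) ≤ j := by exact_mod_cast hj
        nlinarith)
      P H R' R₀ (#P) _ hinj rfl hn1 hH hR.le halg rfl h1 h2)
  generalize (#P : ℝ) = n at hn hHn hcon hn1 hmain
  have hn0 : 0 < n := by linarith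
  have ht0 : 0 < t := by linarith
  refine XALG.absorb_end hK hδ0 hn (hmain.trans ?_)
  have b1 : H ^ 5 ≤ n ^ (5 * η) := by
    calc H ^ 5 ≤ (n ^ η) ^ 5 := by gcongr
      _ = n ^ (5 * η) := by
        rw [mul_comm, Real.rpow_mul hn0.le]; norm_cast
  have b2 : C₀ * (3000 * H ^ 5 * n ^ (4 * η)) * n ^ η ≤ 3000 * C₀ * n ^ (10 * η) := by
    calc C₀ * (3000 * H ^ 5 * n ^ (4 * η)) * n ^ η
        ≤ C₀ * (3000 * n ^ (5 * η) * n ^ (4 * η)) * n ^ η := by gcongr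
      _ = 3000 * C₀ * (n ^ (5 * η) * n ^ (4 * η) * n ^ η) := by ring
      _ = _ := by
        rw [← Real.rpow_add hn0, ← Real.rpow_add hn0]; congr 2; ring
  have b3 : (n ^ (10 * η)) ^ (4 * d + 9) = n ^ δ := by
    rw [← Real.rpow_natCast, ← Real.rpow_mul hn0.le]
    congr 1
    rw [hη]; push_cast; field_simp
  have b4 : t ^ ((d : ℝ) / 2 - d₁) ≤ n ^ (1 - 2 * δ) := by
    have e : (d : ℝ) / 2 - d₁ = d * (1 / 2 - δ) := by rw [hδ]; field_simp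
    have hpos : 0 ≤ 1 / 2 - δ := by
      have : δ ≤ 1 / 2 := by rw [hδ, div_le_iff₀ hd0]; linarith
      linarith
    calc t ^ ((d : ℝ) / 2 - d₁) = (t ^ d) ^ (1 / 2 - δ) := by
          rw [e, Real.rpow_mul ht0.le, Real.rpow_natCast]
      _ ≤ (n ^ 2) ^ (1 / 2 - δ) := Real.rpow_le_rpow (by positivity) hcon hpos
      _ = _ := by
        rw [← Real.rpow_natCast, ← Real.rpow_mul hn0.le]; congr 1; push_cast; ring
  calc (C₀ * (3000 * H ^ 5 * n ^ (4 * η)) * n ^ η) ^ (4 * d + 9) * t ^ ((d : ℝ) / 2 - d₁)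
      ≤ (3000 * C₀ * n ^ (10 * η)) ^ (4 * d + 9) * n ^ (1 - 2 * δ) := by gcongr
    _ = (3000 * C₀) ^ (4 * d + 9) * (n ^ δ * n ^ (1 - 2 * δ)) := by rw [mul_pow, b3]; ring
    _ = _ := by rw [← Real.rpow_add hn0]; congr 2; ring

end Pool.Agent.P.MP_5f07f1_co.Z
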