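import Pool.Agent.P.MP_5f07f1_co.ZDefs

/-! Closed walks of length six in a bipartite graph with blocks. -/

namespace Pool.Agent.P.MP_5f07f1_co.Z

open Finset MvPolynomial Pool.Agent.Lib.PolyPart Classical Module

namespace XBIP

lemma card_filt {γ : Type} (s : Finset γ) (p : γ → Prop) [DecidablePred p] (g : γ → ℝ)
    (h1 : ∀ x, p x → g x = 1) (h0 : ∀ x, ¬ p x → g x = 0) :
    (#(s.filter p) : ℝ) = ∑ x ∈ s, g x := by
  rw [card_filter, Nat.cast_sum]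
  refine sum_congr rfl fun x _ => ?_
  by_cases h : p x
  · rw [if_pos h, h1 x h]; simp
  · rw [if_neg h, h0 x h]; simp

lemma amgm {s t : ℝ} (hs : 0 < s) (ht : 0 < t) : 3 ≤ s * t + s⁻¹ + t⁻¹ := by
  have h1 := Real.log_le_sub_one_of_pos (mul_pos hs ht)
  have h2 := Real.log_le_sub_one_of_pos (inv_pos.2 hs)
  have h3 := Real.log_le_sub_one_of_pos (inv_pos.2 ht)
  rw [Real.log_mul hs.ne' ht.ne'] at h1
  rw [Real.log_inv] at h2 h3
  linarith

lemma inv_sum_le {α β : Type} (A : Finset α) (B : Finset β) (M : α → β → ℝ) :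
    ∑ a ∈ A, ∑ b ∈ B, M a b * (∑ b' ∈ B, M a b')⁻¹ ≤ #A := by
  have : ∀ a ∈ A, ∑ b ∈ B, M a b * (∑ b' ∈ B, M a b')⁻¹ ≤ 1 := by
    intro a _
    rw [← sum_mul]
    exact mul_inv_le_one
  simpa using sum_le_sum this

/-- paths with three edges -/
lemma p3 {α β : Type} (A : Finset α) (B : Finset β) (M : α → β → ℝ)
    (hM : ∀ a b, M a b = 0 ∨ M a b = 1) :
    (∑ a ∈ A, ∑ b ∈ B, M a b) ^ 3 ≤ (#A : ℝ) * (#B : ℝ) *
      ∑ a ∈ A, ∑ b ∈ B, M a b * ((∑ b' ∈ B, M a b') * ∑ a' ∈ A, M a' b) := by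
  have h0 : ∀ a b, 0 ≤ M a b := fun a b => by rcases hM a b with h | h <;> rw [h]; exact zero_le_one
  set e : ℝ := ∑ a ∈ A, ∑ b ∈ B, M a b with he
  set P : ℝ := ∑ a ∈ A, ∑ b ∈ B, M a b * ((∑ b' ∈ B, M a b') * ∑ a' ∈ A, M a' b) with hP
  have hP0 : 0 ≤ P := sum_nonneg fun a _ => sum_nonneg fun b _ => mul_nonneg (h0 a b)
    (mul_nonneg (sum_nonneg fun _ _ => h0 _ _) (sum_nonneg fun _ _ => h0 _ _))
  have he0 : 0 ≤ e := sum_nonneg fun a _ => sum_nonneg fun b _ => h0 a b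
  rcases he0.eq_or_lt with h | hpos
  · rw [← h]
    have : (0 : ℝ) ^ 3 = 0 := by norm_num
    rw [this]
    positivity
  have hA : (0 : ℝ) < #A := by
    rcases A.eq_empty_or_nonempty with rfl | hA
    · simp at he; linarith
    · exact_mod_cast hA.card_pos
  have hB : (0 : ℝ) < #B := by
    rcases B.eq_empty_or_nonempty with rfl | hB
    · simp at he; linarith
    · exact_mod_cast hB.card_pos
  set x : ℝ := e / #A with hx
  set y : ℝ := e / #B with hy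
  have hx0 : 0 < x := div_pos hpos hA
  have hy0 : 0 < y := div_pos hpos hB
  have key : ∀ a ∈ A, ∀ b ∈ B, 3 * M a b ≤
      (x * y)⁻¹ * (M a b * ((∑ b' ∈ B, M a b') * ∑ a' ∈ A, M a' b)) +
        x * (M a b * (∑ b' ∈ B, M a b')⁻¹) + y * (M a b * (∑ a' ∈ A, M a' b)⁻¹) := by
    intro a ha b hb
    rcases hM a b with h | h
    · rw [h]; simp
    · have h1 : 0 < ∑ b' ∈ B, M a b' :=
        lt_of_lt_of_le (by rw [h]; exact one_pos) (single_le_sum (fun b' _ => h0 a b') hb)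
      have h2 : 0 < ∑ a' ∈ A, M a' b :=
        lt_of_lt_of_le (by rw [h]; exact one_pos)
          (single_le_sum (f := fun a' => M a' b) (fun a' _ => h0 a' b) ha)
      have h3 := amgm (div_pos h1 hx0) (div_pos h2 hy0)
      rw [h]
      refine le_trans (by linarith) (h3.trans (le_of_eq ?_))
      field_simp
  have hs : 3 * e ≤ (x * y)⁻¹ * P + x * (∑ a ∈ A, ∑ b ∈ B, M a b * (∑ b' ∈ B, M a b')⁻¹) +
      y * (∑ a ∈ A, ∑ b ∈ B, M a b * (∑ a' ∈ A, M a' b)⁻¹) := by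
    rw [he, hP]
    simp only [mul_sum _ _ (3 : ℝ), mul_sum _ _ (x * y)⁻¹, mul_sum _ _ x, mul_sum _ _ y,
      ← sum_add_distrib]
    exact sum_le_sum fun a ha => sum_le_sum fun b hb => key a ha b hb
  have i1 := inv_sum_le A B M
  have i2 := inv_sum_le B A (fun b a => M a b)
  rw [sum_comm] at i2
  have e1 : x * #A = e := by rw [hx]; field_simp
  have e2 : y * #B = e := by rw [hy]; field_simp
  have j1 := mul_le_mul_of_nonneg_left i1 hx0.le
  have j2 := mul_le_mul_of_nonneg_left i2 hy0.le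
  have hfin : e ≤ (x * y)⁻¹ * P := by linarith
  have hxy : 0 < x * y := mul_pos hx0 hy0
  rw [le_inv_mul_iff₀ hxy] at hfin
  calc e ^ 3 = (#A : ℝ) * (#B : ℝ) * (x * y * e) := by
        have : e ^ 3 = (x * #A) * (y * #B) * e := by rw [e1, e2]; ring
        rw [this]; ring
    _ ≤ _ := mul_le_mul_of_nonneg_left hfin (mul_pos hA hB).le

/-- number of paths with three edges from `a` to `b` -/
noncomputable def pth {α β : Type} (A : Finset α) (B : Finset β) (M : α → β → ℝ) (a : α) (b : β) :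
    ℝ := ∑ a' ∈ A, (∑ b' ∈ B, M a b' * M a' b') * M a' b

lemma sum_pth {α β : Type} (A : Finset α) (B : Finset β) (M : α → β → ℝ) :
    ∑ a ∈ A, ∑ b ∈ B, pth A B M a b =
      ∑ a ∈ A, ∑ b ∈ B, M a b * ((∑ b' ∈ B, M a b') * ∑ a' ∈ A, M a' b) := by
  have h1 : ∀ a, ∑ b ∈ B, pth A B M a b =
      ∑ a' ∈ A, ∑ b' ∈ B, M a' b' * ((∑ b ∈ B, M a' b) * M a b') := by
    intro a
    unfold pth
    rw [sum_comm]
    refine sum_congr rfl fun a' _ => ?_
    rw [← mul_sum, sum_mul]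
    exact sum_congr rfl fun b' _ => by ring
  rw [sum_congr rfl fun a _ => h1 a, sum_comm]
  refine sum_congr rfl fun a' _ => ?_
  rw [sum_comm]
  refine sum_congr rfl fun b' _ => ?_
  rw [← mul_sum, ← mul_sum]

lemma sum_pth_sq {α β : Type} (A : Finset α) (B : Finset β) (M : α → β → ℝ) :
    ∑ a ∈ A, ∑ b ∈ B, pth A B M a b ^ 2 =
      ∑ a ∈ A, ∑ a₂ ∈ A, ∑ a₃ ∈ A, (∑ b ∈ B, M a b * M a₂ b) * (∑ b ∈ B, M a₂ b * M a₃ b) *
        ∑ b ∈ B, M a₃ b * M a b := by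
  refine sum_congr rfl fun a _ => ?_
  have h1 : ∀ b, pth A B M a b ^ 2 = ∑ a₂ ∈ A, ∑ a₃ ∈ A,
      (∑ b' ∈ B, M a b' * M a₂ b') * (∑ b' ∈ B, M a₃ b' * M a b') * (M a₂ b * M a₃ b) := by
    intro b
    unfold pth
    rw [sq, sum_mul_sum]
    refine sum_congr rfl fun a₂ _ => sum_congr rfl fun a₃ _ => ?_
    have : ∑ b' ∈ B, M a₃ b' * M a b' = ∑ b' ∈ B, M a b' * M a₃ b' :=
      sum_congr rfl fun _ _ => mul_comm _ _
    rw [this]; ring
  rw [sum_congr rfl fun b _ => h1 b, sum_comm]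
  refine sum_congr rfl fun a₂ _ => ?_
  rw [sum_comm]
  refine sum_congr rfl fun a₃ _ => ?_
  rw [← mul_sum]; ring

end XBIP

open XBIP in
theorem p_BIP : S_BIP := by
  intro α β δ A B R ω ω' m hω hm
  rcases A.eq_empty_or_nonempty with rfl | ⟨a₀, _⟩
  · simp
  have hm0 : 0 ≤ m := le_trans (Nat.cast_nonneg _) (hm (ω a₀))
  let M : α → β → ℝ := fun a b => if R a b then 1 else 0
  have M1 : ∀ a b, R a b → M a b = 1 := fun a b h => if_pos h
  have M0 : ∀ a b, ¬ R a b → M a b = 0 := fun a b h => if_neg h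
  have hM : ∀ a b, M a b = 0 ∨ M a b = 1 := fun a b => by
    by_cases h : R a b
    · exact Or.inr (M1 a b h)
    · exact Or.inl (M0 a b h)
  have hc : ∀ a a' : α, (#{b ∈ B | R a b ∧ R a' b} : ℝ) = ∑ b ∈ B, M a b * M a' b := by
    intro a a'
    refine card_filt B _ _ (fun b h => by rw [M1 _ _ h.1, M1 _ _ h.2, one_mul]) fun b h => ?_
    by_cases h1 : R a b
    · rw [M0 a' b (fun h2 => h ⟨h1, h2⟩), mul_zero]
    · rw [M0 a b h1, zero_mul]
  have he : (#{p ∈ A ×ˢ B | R p.1 p.2} : ℝ) = ∑ a ∈ A, ∑ b ∈ B, M a b := by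
    rw [card_filt (A ×ˢ B) _ (fun p => M p.1 p.2) (fun p h => M1 _ _ h) (fun p h => M0 _ _ h),
      sum_product]
  have hT : ∑ t ∈ A ×ˢ A ×ˢ A, (#{b ∈ B | R t.1 b ∧ R t.2.1 b} : ℝ) *
      #{b ∈ B | R t.2.1 b ∧ R t.2.2 b} * #{b ∈ B | R t.2.2 b ∧ R t.1 b} =
      ∑ a ∈ A, ∑ b ∈ B, pth A B M a b ^ 2 := by
    rw [sum_pth_sq, sum_product]
    refine sum_congr rfl fun a _ => ?_
    rw [sum_product]
    refine sum_congr rfl fun a₂ _ => sum_congr rfl fun a₃ _ => ?_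
    rw [hc, hc, hc]
  rw [he, hT]
  let S : Finset (α × β) := {p ∈ A ×ˢ B | ω p.1 = ω' p.2}
  have hS : (#S : ℝ) ≤ #B * m := by
    have h1 : (#S : ℝ) = ∑ p ∈ A ×ˢ B, (if ω p.1 = ω' p.2 then (1 : ℝ) else 0) :=
      card_filt _ _ _ (fun p h => if_pos h) (fun p h => if_neg h)
    rw [h1, sum_product_right]
    have h2 : ∀ b ∈ B, ∑ a ∈ A, (if ω a = ω' b then (1 : ℝ) else 0) ≤ m := by
      intro b _
      rw [← card_filt A (fun a => ω a = ω' b) _ (fun a h => if_pos h) (fun a h => if_neg h)]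
      exact hm (ω' b)
    simpa using sum_le_sum h2
  have hsupp : ∑ a ∈ A, ∑ b ∈ B, pth A B M a b = ∑ p ∈ S, pth A B M p.1 p.2 := by
    rw [← sum_product' A B (pth A B M)]
    refine (sum_subset (filter_subset _ _) fun p hp hn => ?_).symm
    have hpA := (mem_product.1 hp).1
    have hpB := (mem_product.1 hp).2
    have hne : ω p.1 ≠ ω' p.2 := fun e => hn (mem_filter.2 ⟨hp, e⟩)
    unfold pth
    refine sum_eq_zero fun a' ha' => ?_
    by_cases h1 : R a' p.2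
    · refine mul_eq_zero_of_left (sum_eq_zero fun b' hb' => ?_) _
      by_cases h2 : R p.1 b'
      · refine mul_eq_zero_of_right _ (M0 _ _ fun h3 => hne ?_)
        rw [hω _ hpA _ hb' h2, ← hω _ ha' _ hb' h3, hω _ ha' _ hpB h1]
      · rw [M0 _ _ h2, zero_mul]
    · rw [M0 _ _ h1, mul_zero]
  have hsq : ∑ p ∈ S, pth A B M p.1 p.2 ^ 2 ≤ ∑ a ∈ A, ∑ b ∈ B, pth A B M a b ^ 2 := by
    rw [← sum_product' A B (fun a b => pth A B M a b ^ 2)]
    exact sum_le_sum_of_subset_of_nonneg (filter_subset _ _) fun p _ _ => sq_nonneg _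
  have hcs : (∑ p ∈ S, pth A B M p.1 p.2) ^ 2 ≤ #S * ∑ p ∈ S, pth A B M p.1 p.2 ^ 2 :=
    sq_sum_le_card_mul_sum_sq
  have h3 := p3 A B M hM
  rw [← sum_pth, hsupp] at h3
  have he0 : 0 ≤ ∑ a ∈ A, ∑ b ∈ B, M a b := by rw [← he]; positivity
  have hq : (∑ p ∈ S, pth A B M p.1 p.2) ^ 2 ≤
      #B * m * ∑ a ∈ A, ∑ b ∈ B, pth A B M a b ^ 2 :=
    hcs.trans (mul_le_mul hS hsq (sum_nonneg fun _ _ => sq_nonneg _) (by positivity))
  calc (∑ a ∈ A, ∑ b ∈ B, M a b) ^ 6 = ((∑ a ∈ A, ∑ b ∈ B, M a b) ^ 3) ^ 2 := by ring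
    _ ≤ ((#A : ℝ) * (#B : ℝ) * ∑ p ∈ S, pth A B M p.1 p.2) ^ 2 :=
        pow_le_pow_left₀ (by positivity) h3 2
    _ = ((#A : ℝ) * (#B : ℝ)) ^ 2 * (∑ p ∈ S, pth A B M p.1 p.2) ^ 2 := by ring
    _ ≤ ((#A : ℝ) * (#B : ℝ)) ^ 2 * (#B * m * ∑ a ∈ A, ∑ b ∈ B, pth A B M a b ^ 2) :=
        mul_le_mul_of_nonneg_left hq (by positivity)
    _ = _ := by ring

end Pool.Agent.P.MP_5f07f1_co.Z
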