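import Pool.Agent.P.MP_5f07f1_co.ZDefs

/-! Counting components with constants polynomial in the complexity. -/

namespace Pool.Agent.P.MP_5f07f1_co.Z

open Finset MvPolynomial Pool.Agent.Lib.PolyPart Classical Module

namespace XCA

variable {d : ℕ}

lemma le_pow_self (n k : ℕ) (hn : 2 ≤ n) : k ≤ n ^ k :=
  (Nat.lt_two_pow_self).le.trans (Nat.pow_le_pow_left hn k)

lemma lin_le (c a b : ℕ) : a * c + b ≤ (c + 2) ^ (a + b + 1) := by
  have h := le_pow_self (c + 2) (a + b) (by omega)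
  calc a * c + b ≤ (a + b) * (c + 2) := by nlinarith [Nat.zero_le (b * c), Nat.zero_le a]
    _ ≤ (c + 2) ^ (a + b) * (c + 2) := Nat.mul_le_mul_right _ h
    _ = (c + 2) ^ (a + b + 1) := by rw [pow_succ]

lemma mul_pow_le (c a b j : ℕ) : c * (a * c + b) ^ j ≤ (c + 2) ^ ((a + b + 1) * j + 1) := by
  rw [pow_succ, pow_mul, mul_comm]
  exact Nat.mul_le_mul (Nat.pow_le_pow_left (lin_le c a b) j) (by omega)

lemma desc_le (c D A : ℕ) : D * ((c + 1) * (D + 1) + 2) ^ A ≤ (c + D + 2) ^ (2 * A + 1) := by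
  rw [pow_succ, pow_mul, mul_comm]
  refine Nat.mul_le_mul (Nat.pow_le_pow_left ?_ A) (by omega)
  nlinarith [Nat.zero_le (c * D), Nat.zero_le (c * c), Nat.zero_le (D * D)]

lemma ca {j c : ℕ} (T : Tw d j c) (Φ : MP d) (A : Finset (E d)) (hA : Apart (T.X ∩ NZ Φ) A) :
    #A ≤ c * (j * (2 * (d * c) + 4) + 2) ^ j * (Φ.totalDegree + 1) ^ j := by
  obtain ⟨R, hR⟩ : ∃ R : ℝ, ∀ x ∈ A, ∑ s, x s ^ 2 < R := by
    obtain ⟨R, hR⟩ := (A.image fun x => ∑ s, x s ^ 2).exists_le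
    exact ⟨R + 1, fun x hx => lt_of_le_of_lt (hR _ (mem_image_of_mem _ hx)) (by linarith)⟩
  set G : MP d := Φ ^ 2 * (C R - ∑ s, X s ^ 2) with hG
  have hGd : G.totalDegree ≤ 2 * Φ.totalDegree + 2 := by
    refine (totalDegree_mul _ _).trans (Nat.add_le_add (totalDegree_pow _ _) ?_)
    refine (totalDegree_sub _ _).trans (max_le (by simp) ?_)
    exact totalDegree_finsetSum_le fun s _ => by simp
  choose δ hδ hδ' using fun x : A => cnt1_crit T Φ R (hA.1 x.1 x.2) (hR x.1 x.2)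
  obtain ⟨ε, hε, hεδ⟩ : ∃ ε > 0, ∀ x : A, ε ≤ δ x := by
    rcases isEmpty_or_nonempty A with h | h
    · exact ⟨1, one_pos, fun x => h.elim x⟩
    · obtain ⟨x, hx⟩ := Finite.exists_min δ
      exact ⟨δ x, hδ x, hx⟩
  have key := T.nice'.fibre (cnt1W T G) (2 * Φ.totalDegree + 2 + 2 * (d * c)) #A
    (fun i => (cnt1W_deg T G i).trans (Nat.add_le_add_right hGd _)) hε fun v hv => by
      choose z hz hz' using fun x : A => hδ' x v fun i => (hv i).trans_le (hεδ x)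
      have hzinj : Function.Injective z := by
        intro x x' h
        refine Subtype.ext (hA.2 _ x.2 _ x'.2 ?_)
        rw [connectedComponentIn_eq (hz x), h, ← connectedComponentIn_eq (hz x')]
        exact mem_connectedComponentIn (hA.1 _ x'.2)
      refine ⟨univ.image z, by rw [card_image_of_injective _ hzinj]; simp, fun x hx => ?_⟩
      obtain ⟨x', -, rfl⟩ := mem_image.1 hx
      exact ⟨(T.van_iff _).2 (connectedComponentIn_subset _ _ (hz x')).1.1, hz' x'⟩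
  refine key.trans ?_
  rw [mul_assoc, ← mul_pow]
  refine Nat.mul_le_mul_left _ (Nat.pow_le_pow_left ?_ _)
  nlinarith [Nat.zero_le (j * Φ.totalDegree), Nat.zero_le (j * (d * c) * Φ.totalDegree)]

open CovX in
lemma cov {j c : ℕ} (T : Tw d j c) : ∃ Δ : MP j, Δ ≠ 0 ∧
    Δ.totalDegree ≤ j * (c * (j + d * c + 1) ^ j) ∧
    ∀ h : MP j, Cov T.X (aeval T.y (Δ * h)) (c * (j * 1 + 2) ^ j) := by
  obtain ⟨Δ, h0, h1, h2⟩ := T.nice'.exists_curve T.J _ (deg_J T)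
  refine ⟨Δ, h0, h1, fun h z A hA hz => ?_⟩
  have hg : ∀ x, Van T.I x → eval x T.J = 0 → ¬ DegAt T.I x T.J → eval (T.yv x) (Δ * h) = 0 :=
    fun x a1 a2 a3 => by rw [map_mul, show eval (T.yv x) Δ = 0 from h2 x a1 a2 a3, zero_mul]
  generalize Δ * h = g at hA hz hg
  rcases A.eq_empty_or_nonempty with rfl | ⟨x0, hx0⟩
  · simp
  have nz : ∀ x, x ∈ NZ (aeval T.y g) → T.yv x ∈ NZ g := fun x hx => by
    rwa [NZ, Set.mem_ofPred_eq, T.eval_aeval_y] at hx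
  have h3 : ∀ x ∈ A, connectedComponentIn (NZ g) (T.yv x0) =
      connectedComponentIn (NZ g) (T.yv x) := fun x hx => by
    refine connectedComponentIn_eq ((isPreconnected_connectedComponentIn.image _
      (cont_yv T).continuousOn).subset_connectedComponentIn ⟨x0, hz x0 hx0, rfl⟩ ?_
      ⟨x, hz x hx, rfl⟩)
    rintro _ ⟨w, hw, rfl⟩
    exact nz w (connectedComponentIn_subset _ _ hw)
  obtain ⟨δ, d1, d2⟩ := Metric.isOpen_iff.1 ((isOpen_NZ g).connectedComponentIn (x := T.yv x0)) _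
    (mem_connectedComponentIn (nz x0 (hA.1 x0 hx0).2))
  refine T.nice'.fibre (fun i => T.y i - C (T.yv x0 i)) 1 _ (fun i => ?_) d1 fun v hv => ?_
  · exact (totalDegree_sub _ _).trans (max_le (T.nice'.1 i) (by simp))
  have h4 : T.yv x0 + v ∈ Metric.ball (T.yv x0) δ := by
    rw [mem_ball_iff_norm, add_sub_cancel_left]
    exact (pi_norm_lt_iff d1).2 hv
  have h5 : ∀ x ∈ A, ∃ w ∈ connectedComponentIn (T.X ∩ NZ (aeval T.y g)) x,
      T.yv w = T.yv x0 + v := fun x hx => covers T hg (hA.1 x hx) (h3 x hx ▸ d2 h4)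
  choose! f f1 f2 using h5
  refine ⟨A.image f, card_image_of_injOn fun x hx x' hx' e => hA.2 x hx x' hx' ?_, ?_⟩
  · rw [connectedComponentIn_eq (f1 x hx), e, ← connectedComponentIn_eq (f1 x' hx')]
    exact mem_connectedComponentIn (hA.1 x' hx')
  · refine forall_mem_image.2 fun x hx => ⟨(T.van_iff _).2
      (connectedComponentIn_subset _ _ (f1 x hx)).1.1, fun i => ?_⟩
    have := congrFun (f2 x hx) i
    rw [map_sub, eval_C, show eval (f x) (T.y i) = _ from this]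
    simp

open BuildX in
lemma piece {j c D κ : ℕ} (hκ : ∀ (T : Tw d j ((c + 1) * (D + 1))) (Φ : MP d) (B : Finset (E d)),
      Apart (T.X ∩ NZ Φ) B → #B ≤ κ * (Φ.totalDegree + 1) ^ j)
    (T : Tw d (j + 1) c) (ψ : MP (j + 1)) (h0 : ψ ≠ 0) (hD : ψ.totalDegree ≤ D)
    (A : Finset (E d)) (hA : A.Nonempty) (h : ∀ x ∈ A, x ∈ T.X ∧ eval (T.yv x) ψ = 0) :
    ∃ (T' : Tw d j ((c + 1) * (D + 1))) (x₀ : E d),
      #A ≤ D * κ * #{x ∈ A | x ∈ connectedComponentIn T'.X x₀} := by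
  obtain ⟨m, Ts, hm, -, hc⟩ := T.descend D ψ h0 hD
  obtain ⟨z, hz⟩ := hA
  obtain ⟨i₀, -⟩ := hc z (h z hz).1 (h z hz).2
  have : Nonempty (Fin m) := ⟨i₀⟩
  choose! f hf using fun x (hx : x ∈ A) => hc x (h x hx).1 (h x hx).2
  obtain ⟨x₁, h1, h2⟩ := popular A ⟨z, hz⟩ f (N := D)
    ((card_le_univ _).trans (by simpa using hm))
  have h3 : ∀ x ∈ {x ∈ A | f x = f x₁}, x ∈ (Ts (f x₁)).X := fun x hx => by
    rw [← (mem_filter.1 hx).2]
    exact hf x (mem_filter.1 hx).1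
  obtain ⟨x₂, -, h4⟩ := popular {x ∈ A | f x = f x₁} ⟨x₁, mem_filter.2 ⟨h1, rfl⟩⟩
    (connectedComponentIn (Ts (f x₁)).X) (N := κ) (card_comp_le (fun R hR => by
      have := hκ (Ts (f x₁)) 1 R (by simpa [NZ] using hR)
      simpa using this) _ h3)
  refine ⟨Ts (f x₁), x₂, h2.trans ?_⟩
  rw [mul_assoc]
  refine Nat.mul_le_mul_left _ (h4.trans (Nat.mul_le_mul_left _ (card_le_card fun x hx => ?_)))
  obtain ⟨h5, h6⟩ := mem_filter.1 hx
  refine mem_filter.2 ⟨(mem_filter.1 h5).1, ?_⟩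
  rw [← h6]
  exact mem_connectedComponentIn (h3 x h5)

lemma pieces {j c D K : ℕ} (hK : ∀ (T : Tw d (j + 1) c) (ψ : MP (j + 1)), ψ ≠ 0 →
      ψ.totalDegree ≤ D → ∀ A : Finset (E d), A.Nonempty →
      (∀ x ∈ A, x ∈ T.X ∧ eval (T.yv x) ψ = 0) →
      ∃ (T' : Tw d j ((c + 1) * (D + 1))) (x₀ : E d),
        #A ≤ K * #{x ∈ A | x ∈ connectedComponentIn T'.X x₀})
    (T : Lab d → Tw d (j + 1) c) (ψ : Lab d → MP (j + 1))
    (hψ : ∀ b, ψ b ≠ 0 ∧ (ψ b).totalDegree ≤ D) (l : E d → Lab d) (Q : Finset (E d))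
    (hQ : Q.Nonempty) (h : ∀ x ∈ Q, x ∈ (T (l x)).X ∧ eval ((T (l x)).yv x) (ψ (l x)) = 0) :
    ∃ Q' ⊆ Q, #Q ≤ K * #Q' ∧ ∃ (T' : Lab d → Tw d j ((c + 1) * (D + 1))) (x₀ : Lab d → E d),
      ∀ x ∈ Q', x ∈ connectedComponentIn (T' (l x)).X (x₀ (l x)) := by
  have h1 : ∀ b, ({x ∈ Q | l x = b} : Finset (E d)).Nonempty →
      ∃ (T' : Tw d j ((c + 1) * (D + 1))) (x₀ : E d), #{x ∈ Q | l x = b} ≤
        K * #{x ∈ {x ∈ Q | l x = b} | x ∈ connectedComponentIn T'.X x₀} := fun b hb =>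
    hK (T b) (ψ b) (hψ b).1 (hψ b).2 _ hb fun x hx => by
      rw [← (mem_filter.1 hx).2]
      exact h x (mem_filter.1 hx).1
  obtain ⟨z, hz⟩ := hQ
  obtain ⟨T₀, -⟩ := h1 (l z) ⟨z, mem_filter.2 ⟨hz, rfl⟩⟩
  have h2 : ∀ b, ∃ (T' : Tw d j ((c + 1) * (D + 1))) (x₀ : E d), #{x ∈ Q | l x = b} ≤
      K * #{x ∈ {x ∈ Q | l x = b} | x ∈ connectedComponentIn T'.X x₀} := fun b => by
    rcases ({x ∈ Q | l x = b} : Finset (E d)).eq_empty_or_nonempty with e | e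
    · exact ⟨T₀, z, by simp [e]⟩
    · exact h1 b e
  choose T' x₀ h3 using h2
  refine ⟨{x ∈ Q | x ∈ connectedComponentIn (T' (l x)).X (x₀ (l x))}, filter_subset _ _, ?_,
    T', x₀, fun x hx => (mem_filter.1 hx).2⟩
  rw [card_eq_sum_card_fiberwise (f := l) (s := Q) (t := Q.image l)
      fun x hx => mem_image_of_mem l hx,
    card_eq_sum_card_fiberwise (f := l) (t := Q.image l)
      (s := {x ∈ Q | x ∈ connectedComponentIn (T' (l x)).X (x₀ (l x))})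
      fun x hx => mem_image_of_mem l (mem_filter.1 hx).1, mul_sum]
  refine sum_le_sum fun b _ => (h3 b).trans (Nat.mul_le_mul_left _ (card_le_card fun x hx => ?_))
  obtain ⟨h4, h5⟩ := mem_filter.1 hx
  obtain ⟨h6, rfl⟩ := mem_filter.1 h4
  exact mem_filter.2 ⟨mem_filter.2 ⟨h6, h5⟩, rfl⟩

end XCA

theorem p_CA : S_CA := fun d j => by
  refine ⟨(j * (2 * d) + (j * 4 + 2) + 1) * j + 1, fun c T Φ B hB => (XCA.ca T Φ B hB).trans ?_⟩
  refine Nat.mul_le_mul_right _ (le_trans (le_of_eq ?_) (XCA.mul_pow_le c _ _ j))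
  ring

theorem p_CH : S_CH := fun d j => by
  obtain ⟨A₀, hκ⟩ := p_CA d j
  refine ⟨2 * A₀ + 1, fun c D T ψ hψ hD Φ A hA hz => ?_⟩
  obtain ⟨m, Ts, hm, hsub, hcov⟩ := T.descend D ψ hψ hD
  refine le_trans ?_ (Nat.mul_le_mul_right _ (XCA.desc_le c D A₀))
  rw [mul_assoc]
  refine card_le_of_cover hm (fun i => (Ts i).X) A
    (fun x hx => hcov x (hA.1 x hx).1 (hz x hx)) fun i => hκ _ (Ts i) Φ _ ?_
  refine hA.sub (Set.inter_subset_inter_left _ (hsub i)) (filter_subset _ _) fun x hx => ?_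
  obtain ⟨hx1, hx2⟩ := mem_filter.1 hx
  exact ⟨hx2, (hA.1 x hx1).2⟩

theorem p_COV : S_COV := fun d j => by
  refine ⟨j + ((d + (j + 2) + 1) * j + 1), fun c T => ?_⟩
  obtain ⟨Δ, h0, h1, h2⟩ := XCA.cov T
  have k1 := XCA.mul_pow_le c d (j + 2) j
  have k2 := XCA.le_pow_self (c + 2) j (by omega)
  have k3 : 1 ≤ (c + 2) ^ j := Nat.one_le_pow _ _ (by omega)
  refine ⟨Δ, h0, h1.trans ?_, fun h z A a1 a2 => (h2 h z A a1 a2).trans ?_⟩
  · rw [pow_add]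
    exact Nat.mul_le_mul k2 (le_trans (Nat.mul_le_mul_left _
      (Nat.pow_le_pow_left (by omega) j)) k1)
  · rw [pow_add, ← one_mul (c * (j * 1 + 2) ^ j)]
    exact Nat.mul_le_mul k3 (le_trans (Nat.mul_le_mul_left _
      (Nat.pow_le_pow_left (by omega) j)) k1)

theorem p_PCS : S_PCS := fun d j => by
  obtain ⟨A₀, hκ⟩ := p_CA d j
  refine ⟨2 * A₀ + 1, fun c D T ψ hψ l B hB h => ?_⟩
  obtain ⟨Q, h1, h2, h3⟩ := XCA.pieces (K := D * ((c + 1) * (D + 1) + 2) ^ A₀)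
    (fun T ψ h0 hD A hA h => XCA.piece (hκ _) T ψ h0 hD A hA h) T ψ hψ l B hB h
  exact ⟨Q, h1, h2.trans (Nat.mul_le_mul_right _ (XCA.desc_le c D A₀)), h3⟩

end Pool.Agent.P.MP_5f07f1_co.Z
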