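import Pool.Agent.P.MP_5f07f1_co.ZDefs
import Pool.Agent.P.MP_5f07f1_co.Ind

/-! The induction step with the improved bound for rich lines. -/

namespace Pool.Agent.P.MP_5f07f1_co.Z

open Finset MvPolynomial Pool.Agent.Lib.PolyPart Classical Module

namespace XCORE

open Real

/-- The final linear inequality between logarithms. -/
lemma ind_lin2 {d b ρ g c k ν τ ω r s ς μ : ℝ} (hd : 2 ≤ d) (hg : 0 ≤ g) (hc : 0 ≤ c)
    (hc1 : g + c ≤ 1 / 3) (hc2 : g * d + c ≤ 2) (hk : 0 ≤ k)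
    (hA : d + 1 ≤ (2 + g + k) * b + (2 - d * g - c) * ρ)
    (hB : d + 1 - c ≤ (2 + g) * b + (1 - d * g - 2 * c) * ρ)
    (hτ : 0 ≤ τ) (hω : 0 ≤ ω) (h1 : ρ * τ ≤ r) (h2 : r ≤ ω + ρ * τ) (h3 : ν ≤ ς + d * r)
    (e2 : k * ν - ω ≤ c * s) (hμ : μ = 0 ∨ (μ = r ∧ τ ≤ s + r))
    (h5 : 2 * (2 * ν + ς + r - 7 * ω - τ) ≤ 3 * ω + ν + ((ω + ν - ς - r) +
      (ω + ν + (2 - g) * ς + c * (r - s))) + (d - 1) * (8 * ω + τ - r) + μ) :
    ν ≤ (4 * d + 9) * ω + b * τ := by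
  by_contra hcon
  push Not at hcon
  have hd0 : 0 < d := by linarith
  have e1 : (1 + g) * (ν - d * r) ≤ (1 + g) * ς := by gcongr; linarith
  have hK : 0 ≤ (4 * d + 9) * ω := by positivity
  rcases hμ with rfl | ⟨rfl, hs⟩
  · have e3 : (2 - d * g - c) * (ρ * τ) ≤ (2 - d * g - c) * r := by gcongr; linarith
    have e4 : (d + 1) * τ ≤ ((2 + g + k) * b + (2 - d * g - c) * ρ) * τ := by gcongr
    have e5 : (2 + g + k) * ((4 * d + 9) * ω + b * τ) < (2 + g + k) * ν := by gcongr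
    have e6 : 2 * ((4 * d + 9) * ω) ≤ (2 + g + k) * ((4 * d + 9) * ω) := by
      gcongr; linarith
    nlinarith
  · have e2 : c * (τ - μ) ≤ c * s := by gcongr; linarith
    have e3 : (1 - d * g - 2 * c) * (ρ * τ) - 2 * ω ≤ (1 - d * g - 2 * c) * μ := by
      have a1 : 0 ≤ (1 - d * g - 2 * c + 2) * (μ - ρ * τ) := by
        apply mul_nonneg <;> linarith
      nlinarith
    have e4 : (d + 1 - c) * τ ≤ ((2 + g) * b + (1 - d * g - 2 * c) * ρ) * τ := by gcongr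
    have e5 : (2 + g) * ((4 * d + 9) * ω + b * τ) < (2 + g) * ν := by gcongr
    have e6 : 2 * ((4 * d + 9) * ω) ≤ (2 + g) * ((4 * d + 9) * ω) := by
      gcongr; linarith
    nlinarith

lemma kap_le {d c c₁ ν ω s p : ℝ} (hd : 2 ≤ d) (hc : 0 ≤ c) (hc1 : c ≤ 1) (hω : 0 ≤ ω)
    (h1 : d * p ≤ (1 - c₁) * ν) (h2 : ν ≤ ω + p + (d - 1) * s) :
    c * ((d - 1 + c₁) / (d * (d - 1))) * ν - ω ≤ c * s := by
  have hd0 : 0 < d := by linarith
  have hd1 : 0 < d - 1 := by linarith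
  have e1 : (d - 1 + c₁) / (d * (d - 1)) * ν ≤ s + ω := by
    rw [div_mul_eq_mul_div, div_le_iff₀ (mul_pos hd0 hd1)]
    have a1 : d * ν ≤ d * (ω + p + (d - 1) * s) := by gcongr
    have a2 : d * ω * 1 ≤ d * ω * (d - 1) := by gcongr; linarith
    nlinarith
  have e2 : c * ((d - 1 + c₁) / (d * (d - 1)) * ν) ≤ c * (s + ω) := by gcongr
  have e3 : c * ω ≤ 1 * ω := by gcongr
  nlinarith

/-- The same inequality before taking logarithms. -/
lemma ind_mul2 {d : ℕ} {b ρ g c c₁ n t w R S σ m R' : ℝ} (hd : 2 ≤ d) (hg : 0 ≤ g) (hc : 0 ≤ c)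
    (hc1 : g + c ≤ 1 / 3) (hc2 : g * d + c ≤ 2) (hc₁0 : 0 ≤ c₁) (_hc₁1 : c₁ ≤ 1)
    (hA : d + 1 ≤ (2 + g + c * ((d - 1 + c₁) / (d * (d - 1)))) * b + (2 - d * g - c) * ρ)
    (hB : d + 1 - c ≤ (2 + g) * b + (1 - d * g - 2 * c) * ρ)
    (hn : 1 ≤ n) (ht : 1 ≤ t) (hw : 1 ≤ w) (hR : 1 ≤ R) (hS : 1 ≤ S) (hσ : 1 ≤ σ)
    (h1 : t ^ ρ ≤ R) (h2 : R ≤ w * t ^ ρ) (h3 : n ≤ σ * R ^ d) (hR' : 0 < R')
    (hR'n : R' ^ d ≤ n ^ (1 - c₁)) (h4 : n ≤ w * R' * S ^ (d - 1))
    (hm : m = 1 ∨ (m = R ∧ t ≤ S * R))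
    (h5 : (n ^ 2 * σ * R / (w ^ 7 * t)) ^ 2 ≤ w ^ 3 * n * (w * n / (σ * R) *
      (w * n * σ ^ (2 - g) * (R / S) ^ c)) * (w ^ 8 * t / R) ^ (d - 1) * m) :
    n ≤ w ^ (4 * d + 9) * t ^ b := by
  have hm0 : 0 < m := by rcases hm with rfl | ⟨rfl, -⟩ <;> linarith
  have hn0 : 0 < n := by linarith
  have ht0 : 0 < t := by linarith
  have hw0 : 0 < w := by linarith
  have hR0 : 0 < R := by linarith
  have hS0 : 0 < S := by linarith
  have hσ0 : 0 < σ := by linarith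
  have hd' : (2 : ℝ) ≤ d := by exact_mod_cast hd
  have hd1 : ((d - 1 : ℕ) : ℝ) = d - 1 := by rw [Nat.cast_sub (by omega)]; simp
  have k := ind_lin2 (d := d) (b := b) (ρ := ρ) (g := g) (c := c)
    (k := c * ((d - 1 + c₁) / (d * (d - 1)))) (ν := log n) (τ := log t)
    (ω := log w) (r := log R) (s := log S) (ς := log σ) (μ := log m) hd' hg hc
    hc1 hc2 (mul_nonneg hc (div_nonneg (by linarith) (mul_nonneg (by linarith) (by linarith))))
    hA hB (log_nonneg ht) (log_nonneg hw)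
    (by rw [← log_rpow ht0]; exact log_le_log (by positivity) h1)
    (by rw [← log_rpow ht0, ← log_mul hw0.ne' (by positivity)]; exact log_le_log hR0 h2)
    (by rw [← log_pow, ← log_mul hσ0.ne' (by positivity)]; exact log_le_log hn0 h3)
    (kap_le (p := log R') hd' hc (by linarith) (log_nonneg hw)
      (by rw [← log_pow, ← log_rpow hn0]; exact log_le_log (by positivity) hR'n)
      (by
        rw [← hd1, ← log_pow, ← log_mul hw0.ne' hR'.ne', ← log_mul (by positivity) (by positivity)]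
        exact log_le_log hn0 h4))
    (by
      rcases hm with rfl | ⟨rfl, h⟩
      · exact Or.inl log_one
      · exact Or.inr ⟨rfl, by rw [← log_mul hS0.ne' hR0.ne']; exact log_le_log ht0 h⟩)
    (by
      have := log_le_log (by positivity) h5
      simp (disch := positivity) only [log_mul, log_div, log_pow, log_rpow, hd1] at this
      push_cast at this
      linarith)
  rw [← log_le_log_iff hn0 (by positivity), log_mul (by positivity) (by positivity), log_pow,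
    log_rpow ht0]
  push_cast
  exact k

end XCORE

theorem p_CORE : S_CORE := by
  intro d β b ρ g c c₁ ε hd hβ h0 h1 hg hc hc1 hc2 hρ0 hρ1 hρ h2 h3 hc₁0 hc₁1 hA hB hε
  obtain ⟨C₁, hC₁, hflat⟩ := flat_all β hβ hε
  obtain ⟨C₃, hC₃, hdual⟩ := dual_bound d hε
  have hd' : (2 : ℝ) ≤ d := by exact_mod_cast hd
  refine ⟨C₁ + C₃ + 96 + 8 * d, by linarith,
    fun P n t u R' hn hn1 ht hu1 hinj hpin hR' hR'n hpack => ?_⟩
  generalize hw : (C₁ + C₃ + 96 + 8 * d) * u * n ^ ε = w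
  replace hw := hw.symm
  by_contra hcon
  push Not at hcon
  have hn0 : 0 < n := by linarith
  have ht0 : 0 < t := by linarith
  have hne : 1 ≤ n ^ ε := Real.one_le_rpow hn1 hε.le
  have hK0 : 0 ≤ C₁ + C₃ + 96 + 8 * (d : ℝ) := by linarith
  have hwC : ∀ C : ℝ, C ≤ C₁ + C₃ + 96 + 8 * d → C * n ^ ε ≤ w := fun C h => by
    rw [hw]
    exact mul_le_mul_of_nonneg_right (h.trans (le_mul_of_one_le_right hK0 hu1)) (by linarith)
  have hwC' : ∀ C : ℝ, 0 ≤ C → C ≤ C₁ + C₃ + 96 + 8 * d → C ≤ w := fun C h0 h =>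
    (le_mul_of_one_le_right h0 hne).trans (hwC C h)
  have hw96 : 96 ≤ w := hwC' _ (by norm_num) (by linarith)
  have hw1 : 1 ≤ w := by linarith
  have hw0 : 0 < w := by linarith
  have hwd : 8 * d ≤ w := hwC' _ (by linarith) (by linarith)
  have hb1 : 1 ≤ b := by nlinarith
  have key : ∀ (k : ℕ) (x : ℝ), k ≤ 4 * d + 9 → x ≤ b → w ^ k * t ^ x ≤ n := fun k x hk hx => by
    refine le_trans ?_ hcon.le
    gcongr
  have htn : t ≤ n := by simpa using key 0 1 (by omega) hb1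
  have hC₁w : C₁ * t ^ ε ≤ w := le_trans (by gcongr) (hwC C₁ (by linarith))
  have huw : u ≤ w := by
    rw [hw]
    exact (le_mul_of_one_le_left (by linarith) (by linarith)).trans
      (le_mul_of_one_le_right (mul_nonneg hK0 (by linarith)) hne)
  have hvw : C₃ * n ^ ε ≤ w := hwC _ (by linarith)
  have htρ : 1 ≤ t ^ ρ := Real.one_le_rpow ht hρ0
  have hpow : ∀ k : ℕ, (t ^ ρ) ^ k = t ^ (k * ρ) := fun k => by
    rw [mul_comm, Real.rpow_mul ht0.le, Real.rpow_natCast]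
  obtain ⟨Q, hQP, l, own, R, σ, S, q1, q2, q3, q4, q5, q6, q7, q8, q9, q10, q11, q12, q13⟩ :=
    hpack (t ^ ρ) htρ (by
      rw [hpow]
      refine le_trans ?_ (key 1 (d * ρ) (by omega) (by linarith))
      gcongr; simpa)
  have hR1 : 1 ≤ R := htρ.trans q2
  have hS1 : 1 ≤ S := hR1.trans q4
  have hR0 : 0 < R := by linarith
  have hσ0 : 0 < σ := by linarith
  have hRw : R ≤ w * t ^ ρ := q3.trans (by gcongr)
  have hRt : R ≤ w * t := hRw.trans (by
    gcongr; simpa using Real.rpow_le_rpow_of_exponent_le ht hρ1)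
  have hQn : (#Q : ℝ) ≤ n := by rw [hn]; exact_mod_cast card_le_card hQP
  have hQw : n ≤ w * #Q := q1.trans (by gcongr)
  have hinjQ : Set.InjOn nq (Q : Set (E d)) := hinj.mono (coe_subset.2 hQP)
  have hpinQ : ∀ q ∈ Q, (pin Q q : ℝ) ≤ t := fun q hq =>
    le_trans (by exact_mod_cast pin_mono hQP q) (hpin q (hQP hq))
  have hfl : ∀ m, 1 ≤ m → m ≤ d → FlatBd Q m (w * t ^ β (d - m)) := fun m h1 h2 =>
    (hflat Q t ht hpinQ m h1 h2).mono (by gcongr)
  have hsep : Sep Q l (w * n / (σ * R)) := fun φ hφ A hA h =>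
    (q9 φ hφ A hA h).trans (by gcongr)
  have hcells : (#(Q.image l) : ℝ) ≤ w * t * (w * n / (σ * R)) := by
    calc (#(Q.image l) : ℝ) ≤ w * n / σ := by
          rw [le_div_iff₀ hσ0]; exact q8.trans (by gcongr)
      _ = R * (w * n / (σ * R)) := by field_simp
      _ ≤ _ := by gcongr
  obtain ⟨N, hN⟩ : ∃ N, N = w * n / (σ * R) := ⟨_, rfl⟩
  rw [← hN] at hsep hcells
  have hN0 : 0 < N := by rw [hN]; positivity
  have hBk : t * N + w * t * N ≤ 2 * w * t * N := by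
    have : t * N ≤ w * t * N := by gcongr; exact le_mul_of_one_le_left ht0.le hw1
    linarith
  obtain ⟨d', rfl⟩ : ∃ d', d = d' + 1 := ⟨d - 1, by omega⟩
  have hNR : N ≤ w * (w * t ^ ρ) ^ d' := by
    rw [hN, div_le_iff₀ (by positivity)]
    calc w * n ≤ w * (σ * R ^ (d' + 1)) := by gcongr
      _ = w * R ^ d' * (σ * R) := by ring
      _ ≤ _ := by gcongr
  have hiso := iso_lower hinjQ q10 hsep hcells hpinQ (hfl 2 (by omega) hd)
    (by
      refine le_of_mul_le_mul_left (le_trans ?_ hQw) hw0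
      refine le_trans ?_ (key 3 (β (d' + 1 - 2)) (by omega) (by linarith))
      calc w * (4 * (w * t ^ β (d' + 1 - 2))) ≤ w * (w * (w * t ^ β (d' + 1 - 2))) := by
            gcongr; linarith
        _ = _ := by ring)
    (by
      refine le_of_mul_le_mul_left (le_trans ?_ hQw) hw0
      refine le_trans ?_ (key (d' + 4) (1 + d' * ρ) (by omega) (by push_cast at h3; linarith))
      calc w * (48 * (t * N + w * t * N)) ≤ w * (48 * (2 * w * t * N)) := by gcongr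
        _ = 96 * (w ^ 2 * t * N) := by ring
        _ ≤ w * (w ^ 2 * t * (w * (w * t ^ ρ) ^ d')) := by gcongr
        _ = _ := by rw [Real.rpow_add ht0, Real.rpow_one, ← hpow]; ring)
  obtain ⟨X, hX⟩ : ∃ X, X = n ^ 2 * σ * R / (w ^ 7 * t) := ⟨_, rfl⟩
  have hX0 : 0 < X := by rw [hX]; positivity
  have hXI : X * (C₃ * n ^ ε) ≤ Iso Q l own := by
    have e : n ^ 3 ≤ w ^ 3 * (w * (w * t * N) * Iso Q l own) := by
      calc n ^ 3 ≤ (w * #Q) ^ 3 := by gcongr
        _ = w ^ 3 * (#Q : ℝ) ^ 3 := by ring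
        _ ≤ w ^ 3 * (2 * (2 * w * t * N) * Iso Q l own) := by
          gcongr; exact hiso.trans (by gcongr)
        _ = w ^ 3 * (4 * (w * t * N) * Iso Q l own) := by ring
        _ ≤ _ := by gcongr; linarith
    calc X * (C₃ * n ^ ε) ≤ X * w := by gcongr
      _ = n ^ 3 / (w ^ 3 * (w * (w * t * N))) := by rw [hX, hN]; field_simp
      _ ≤ _ := by rw [div_le_iff₀ (by positivity)]; linarith
  have hPP : (#(prs Q l own) : ℝ) ≤ n * σ := (prs_le own q6).trans (by gcongr)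
  have hEE : (En2 Q l own : ℝ) ≤ N * (w * n * σ ^ (2 - g) * (R / S) ^ c) :=
    (en2_le hinjQ own hsep).trans (by gcongr; exact q11.trans (by gcongr))
  obtain ⟨a, m, ha0, hm1, hfa, ham, hm⟩ : ∃ a m : ℝ, 0 ≤ a ∧ 1 ≤ m ∧ FlatBd Q d' (w * a) ∧
      a * R ≤ t * m ∧ (m = 1 ∨ (m = R ∧ t ≤ S * R)) := by
    by_cases h : S * R ≤ t
    · refine ⟨S, 1, by linarith, le_rfl, fun v hv => ?_, by linarith, Or.inl rfl⟩
      have := q12 _ (isDim_flat (e := 1) le_rfl hv)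
      exact le_trans (by simpa using this) (by gcongr)
    · refine ⟨t, R, ht0.le, hR1, ?_, le_rfl, Or.inr ⟨rfl, by linarith⟩⟩
      simpa [h1] using hfl d' (by omega) (by omega)
  obtain ⟨Y, hY⟩ : ∃ Y, Y = w ^ 8 * t / R := ⟨_, rfl⟩
  have hwY : w * t / R ≤ Y := by
    rw [hY]; gcongr; exact le_self_pow₀ hw1 (by norm_num)
  have hY1 : 1 ≤ Y := le_trans (by rw [le_div_iff₀ hR0]; linarith) hwY
  have hfin := hdual (prs Q l own) Q (fun k => if k = d' then w * a else w * t ^ β (d' + 1 - k))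
    (w * t ^ β (d' + 1 - 2)) X (n * σ) _ n
    (fun k h1 h2 => by
      split_ifs with h
      · exact h ▸ hfa
      · exact hfl k h1 h2)
    (fun k => by split_ifs <;> positivity) (hfl 2 (by omega) hd) (by positivity) hPP hEE hn1
    (by
      have : #(prs Q l own) ≤ #Q * #Q := (card_filter_le _ _).trans (card_product _ _).le
      calc (#(prs Q l own) : ℝ) ≤ #Q * #Q := by exact_mod_cast this
        _ ≤ n * n := by gcongr
        _ = _ := by ring)
    hQn hX0 hXI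
    (by
      rw [hX, le_div_iff₀ (by positivity)]
      have e := key 9 (β (d' + 1 - 2) + 1 - ρ) (by omega) (by linarith)
      rw [Real.rpow_sub ht0, Real.rpow_add ht0, Real.rpow_one, ← mul_div_assoc,
        div_le_iff₀ (by positivity)] at e
      calc 4 * (n * σ) * (w * t ^ β (d' + 1 - 2)) * (w ^ 7 * t)
          ≤ w * (n * σ) * (w * t ^ β (d' + 1 - 2)) * (w ^ 7 * t) := by gcongr; linarith
        _ = n * σ * (w ^ 9 * (t ^ β (d' + 1 - 2) * t)) := by ring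
        _ ≤ n * σ * (n * R) :=
          mul_le_mul_of_nonneg_left (e.trans (by gcongr)) (by positivity)
        _ = _ := by ring)
  have hy : 4 * #Q * (n * σ) / X ≤ Y := by
    calc 4 * #Q * (n * σ) / X ≤ w * n * (n * σ) / X := by gcongr; linarith
      _ = Y := by rw [hX, hY]; field_simp
  have hterm := term_le d' β h0 hρ ht hw1 hR1 hRw hwY hY1 hm1 ham (by positivity) hy
  have hsum := sum_le_card_nsmul _ _ _ hterm
  rw [Nat.card_Icc, nsmul_eq_mul, Nat.add_sub_cancel] at hsum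
  refine absurd (XCORE.ind_mul2 hd hg hc hc1 hc2 hc₁0 hc₁1 hA hB hn1 ht hw1 hR1 hS1 q5 q2 hRw q7
    hR' hR'n (q13.trans (by gcongr)) hm ?_) (not_le.2 hcon)
  rw [← hX, ← hN, ← hY, Nat.add_sub_cancel]
  refine hfin.trans ?_
  calc _ ≤ 8 * n * (N * (w * n * σ ^ (2 - g) * (R / S) ^ c)) *
        (((d' + 1 : ℕ) : ℝ) * (w * Y ^ d' * m)) := by gcongr
    _ = 8 * ((d' + 1 : ℕ) : ℝ) * 1 * (w * n * (N * (w * n * σ ^ (2 - g) * (R / S) ^ c)) *
        Y ^ d' * m) := by ring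
    _ ≤ w * w * (w * n * (N * (w * n * σ ^ (2 - g) * (R / S) ^ c)) * Y ^ d' * m) := by gcongr
    _ = _ := by ring

end Pool.Agent.P.MP_5f07f1_co.Z
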