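import Pool.Agent.P.MP_5f07f1_co.ZDefs
import Pool.Agent.P.MP_5f07f1_co.Flat

namespace Pool.Agent.P.MP_5f07f1_co.Z

open Finset MvPolynomial Pool.Agent.Lib.PolyPart Classical Module

namespace XDEG

variable {d : ℕ}

/-- The pairing that describes bisectors. -/
noncomputable def B (d : ℕ) : LinearMap.BilinForm ℝ (ℝ × E d) :=
  LinearMap.mk₂ ℝ (fun a b => 2 * (b.2 ⬝ᵥ a.2) - b.1 * a.1)
    (fun a a' b => by simp only [Prod.snd_add, Prod.fst_add, dotProduct_add]; ring)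
    (fun c a b => by
      simp only [Prod.smul_snd, Prod.smul_fst, dotProduct_smul, smul_eq_mul]; ring)
    (fun a b b' => by simp only [Prod.snd_add, Prod.fst_add, add_dotProduct]; ring)
    (fun c a b => by
      simp only [Prod.smul_snd, Prod.smul_fst, smul_dotProduct, smul_eq_mul]; ring)

lemma B_apply (a b : ℝ × E d) : B d a b = 2 * (b.2 ⬝ᵥ a.2) - b.1 * a.1 := rfl

lemma B_ker : LinearMap.ker (B d) = ⊥ := by
  refine LinearMap.ker_eq_bot'.2 fun a ha => ?_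
  have h1 : B d a (1, 0) = 0 := by rw [ha]; rfl
  have h2 : B d a (0, a.2) = 0 := by rw [ha]; rfl
  rw [B_apply] at h1 h2
  refine Prod.ext (by simpa using h1) (dotProduct_self_eq_zero.1 ?_)
  simpa using h2

lemma rank_top : finrank ℝ (ℝ × E d) = d + 1 := by
  simp [finrank_prod, add_comm]

lemma rank_orth (F : Submodule ℝ (ℝ × E d)) :
    finrank ℝ F + finrank ℝ ((B d).orthogonal F) = d + 1 := by
  have := LinearMap.BilinForm.finrank_add_finrank_orthogonal' (B := B d) F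
  rwa [B_ker, inf_bot_eq, finrank_bot, add_zero, rank_top] at this

lemma rank_hU (w : E d) : finrank ℝ (hU w) ≤ d := by
  have h : hU w < ⊤ := lt_top_iff_ne_top.2 fun e => by
    have h1 : ((1 : ℝ), (0 : E d)) ∈ hU w := e ▸ Submodule.mem_top
    have h2 : w ⬝ᵥ (0 : E d) = 1 := h1
    simp at h2
  have := Submodule.finrank_lt_finrank_of_lt h
  rw [finrank_top, rank_top] at this
  omega

/-- The second ends of the chords from `y` whose bisector contains `F` lie on a circle. -/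
lemma circle (F : Submodule ℝ (ℝ × E d)) (hF : d ≤ finrank ℝ F + 1) (y : E d) :
    ∃ U : Submodule ℝ (LL d), finrank ℝ U ≤ 3 ∧
      ∀ z, nq y ≠ nq z → F ≤ hU (dual (y, z)) → lift z ∈ U := by
  let j : (ℝ × E d) →ₗ[ℝ] LL d :=
    LinearMap.prod 0 (LinearMap.prod (LinearMap.snd ℝ ℝ (E d)) (LinearMap.fst ℝ ℝ (E d)))
  refine ⟨Submodule.span ℝ {lift y} ⊔ ((B d).orthogonal F).map j, ?_, fun z hz hle => ?_⟩
  · have h1 := Submodule.finrank_add_le_finrank_add_finrank (Submodule.span ℝ {lift y})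
      (((B d).orthogonal F).map j)
    have h2 : finrank ℝ (Submodule.span ℝ {lift y}) ≤ 1 := by
      simpa using finrank_span_le_card (R := ℝ) {lift y}
    have h3 := Submodule.finrank_map_le j ((B d).orthogonal F)
    have h4 := rank_orth F
    omega
  · have e : lift z = lift y + j (nq z - nq y, z - y) := by
      simp [lift, j]
    rw [e]
    refine Submodule.add_mem_sup (Submodule.mem_span_singleton_self _)
      (Submodule.mem_map_of_mem fun a ha => ?_)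
    have h1 : dual (y, z) ⬝ᵥ a.2 = a.1 := hle ha
    have h2 : nq z - nq y ≠ 0 := sub_ne_zero.2 hz.symm
    rw [dual, smul_dotProduct, smul_eq_mul] at h1
    show B d a _ = 0
    rw [B_apply, ← h1]
    field_simp
    ring

/-- Few chords have a bisector through a given flat of codimension two. -/
lemma mult {C K : ℕ} {C' : ℝ} {g : Dat d} (hg : Geo C K C' g) (F : Submodule ℝ (ℝ × E d))
    (S : Finset (E d × E d))
    (hS : ∀ p ∈ S, p ∈ chords g.Q ∧ F ≤ hU (dual p) ∧ d ≤ finrank ℝ F + 1) :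
    (#S : ℝ) ≤ g.N ^ d * (g.L ^ 2 * g.N) := by
  have hN := hg.N1
  rcases S.eq_empty_or_nonempty with rfl | ⟨p₀, hp₀⟩
  · rw [card_empty, Nat.cast_zero]
    positivity
  have hF := (hS p₀ hp₀).2.2
  have hQ : ∀ p ∈ S, p.1 ∈ g.Q ∧ p.2 ∈ g.Q ∧ p.1 ≠ p.2 := fun p hp => by
    have := (hS p hp).1
    rw [chords, mem_filter, mem_product] at this
    exact ⟨this.1.1, this.1.2, this.2⟩
  rw [card_eq_sum_card_fiberwise (f := Prod.fst) (t := g.Q) fun p hp => (hQ p hp).1]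
  push_cast
  have h0 : 0 ≤ g.L ^ 2 * g.N := mul_nonneg (sq_nonneg _) (zero_le_one.trans hg.N1)
  refine (sum_le_card_nsmul _ _ (g.L ^ 2 * g.N) fun y _ => ?_).trans ?_
  · obtain ⟨U, hU3, hU'⟩ := circle F hF y
    have h1 := hg.flat 1 _ (isDim_circle hU3)
    rw [pow_one] at h1
    refine le_trans (Nat.cast_le.2 ?_) h1
    refine card_le_card_of_injOn Prod.snd (fun p hp => ?_) fun p hp q hq e => ?_
    · obtain ⟨hp1, hp2⟩ := mem_filter.1 (mem_coe.1 hp)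
      obtain ⟨a1, a2, a3⟩ := hQ p hp1
      subst hp2
      exact mem_coe.2 (mem_filter.2
        ⟨a2, hU' p.2 (fun e => a3 (hg.inj a1 a2 e)) (hS p hp1).2.1⟩)
    · exact Prod.ext ((mem_filter.1 (mem_coe.1 hp)).2.trans (mem_filter.1 (mem_coe.1 hq)).2.symm) e
  · rw [nsmul_eq_mul]
    exact mul_le_mul_of_nonneg_right hg.card h0

/-- A degenerate rich bisector has a nondegenerate part in a flat of codimension two. -/
lemma part (hDEC : S_DEC) (hDIM : S_DIM) {C K : ℕ} {C' : ℝ} {g : Dat d} (hg : Geo C K C' g)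
    (hd : 3 ≤ d) (hK : 3 ≤ K) (hL : 2 ^ (d + 2) ≤ g.L) (w : E d)
    (h1 : ¬ ND (1 / 2) hm (hU w) (hp g.Q w)) (h2 : g.N ^ (d - 2) ≤ #(hp g.Q w)) :
    ∃ (F : Submodule ℝ (ℝ × E d)) (Y : Finset (E d)), finrank ℝ F = d - 2 + 1 ∧ Y ⊆ g.Q ∧
      ND (1 / 2) hm F Y ∧ F ≤ hU w ∧ (#(hp g.Q w) : ℝ) ≤ 2 ^ (d + 1) * #Y := by
  have hN := hg.N1
  have hm1 : ∀ y ∈ hp g.Q w, hm y ∈ hU w := fun y hy => (mem_filter.1 hy).2
  obtain ⟨U', hU', hc⟩ : ∃ U' < hU w,
      1 / 2 * (#(hp g.Q w) : ℝ) < #{y ∈ hp g.Q w | hm y ∈ U'} := by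
    by_contra hn
    exact h1 ⟨hm1, fun U' hU' => not_lt.1 fun hc => hn ⟨U', hU', hc⟩⟩
  have hr : finrank ℝ U' < d := (Submodule.finrank_lt_finrank_of_lt hU').trans_le (rank_hU w)
  have hne : ({y ∈ hp g.Q w | hm y ∈ U'} : Finset (E d)).Nonempty := by
    rw [← card_pos, ← Nat.cast_pos (α := ℝ)]
    exact lt_of_le_of_lt (by positivity) hc
  obtain ⟨F, hF, -, hF2, hF3⟩ := hDEC _ _ hm (1 / 2) d U' _ (by norm_num) (by norm_num) hne
    (fun y hy => ⟨(mem_filter.1 hy).2, (np_hm {y}).1 y (mem_singleton_self y)⟩) hr.le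
  have hsub : ({y ∈ {y ∈ hp g.Q w | hm y ∈ U'} | hm y ∈ F} : Finset (E d)) ⊆
      {z ∈ g.Q | z ∈ {x | hm x ∈ F}} := fun y hy => by
    obtain ⟨a1, a2⟩ := mem_filter.1 hy
    exact mem_filter.2 ⟨(mem_filter.1 (mem_filter.1 a1).1).1, a2⟩
  have hbig : (#(hp g.Q w) : ℝ) ≤
      2 ^ (d + 1) * #{y ∈ {y ∈ hp g.Q w | hm y ∈ U'} | hm y ∈ F} := by
    have e : (2 : ℝ) ^ d * (1 / 2) ^ d = 1 := by rw [← mul_pow]; norm_num
    have h3 := mul_le_mul_of_nonneg_left hF3 (show (0 : ℝ) ≤ 2 ^ d by positivity)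
    rw [← mul_assoc, e, one_mul] at h3
    rw [pow_succ]
    linarith
  refine ⟨F, _, ?_, hsub.trans (filter_subset _ _), hF2, hF.trans hU'.le, hbig⟩
  have hr2 : finrank ℝ F < d := (Submodule.finrank_mono hF).trans_lt hr
  by_contra hn
  have h3 := hg.flat (d - 3) _ ((hDIM d).1 (d - 3) F (by omega))
  have h4 := (Nat.cast_le (α := ℝ)).2 (card_le_card hsub)
  have h5 : g.N ^ (d - 2) = g.N * g.N ^ (d - 3) := by
    rw [← pow_succ', show d - 3 + 1 = d - 2 by omega]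
  have h6 : g.N * g.N ^ (d - 3) ≤ 2 ^ (d + 1) * g.L ^ 2 * g.N ^ (d - 3) := by
    rw [← h5, mul_assoc]
    exact h2.trans (hbig.trans (mul_le_mul_of_nonneg_left (h4.trans h3) (by positivity)))
  have h7 := le_of_mul_le_mul_right h6 (by positivity)
  have h8 := hg.pow_le hK
  have h9 : 0 < g.L ^ 2 := pow_pos (zero_lt_one.trans_le hg.L1) 2
  have h10 : (0 : ℝ) < 2 ^ (d + 1) := by positivity
  rw [pow_succ] at hL
  rw [pow_succ'] at h8
  nlinarith

end XDEG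

theorem p_DEG (hR : S_R) (hDEC : S_DEC) (hDIM : S_DIM) : S_DEG := by
  intro d hd
  obtain ⟨a₀, K₁, h1⟩ := hR d
  refine ⟨max K₁ (a₀ + 3), fun C => ?_⟩
  obtain ⟨C₁, hC₁, h1⟩ := h1 C
  refine ⟨max C₁ (2 ^ ((d + 1) * (d + 1))), hC₁.trans (le_max_left _ _), fun g hg => ?_⟩
  have hR' := h1 g (hg.mono (le_max_left _ _) (le_max_left _ _))
  have hL : (2 : ℝ) ^ ((d + 1) * (d + 1)) ≤ g.L := (le_max_right _ _).trans hg.big
  have hL' : (2 : ℝ) ^ (d + 2) ≤ g.L :=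
    (pow_le_pow_right₀ one_le_two (by nlinarith)).trans hL
  have hN := hg.N1
  have hL1 := hg.L1
  have hN0 : 0 < g.N := zero_lt_one.trans_le hN
  set I := {p ∈ chords g.Q | ¬ ND (1 / 2) hm (hU (dual p)) (hp g.Q (dual p)) ∧
    g.N ^ (d - 2) ≤ #(hp g.Q (dual p))} with hI
  have key : ∀ p ∈ I, ∃ (F : Submodule ℝ (ℝ × E d)) (Y : Finset (E d)),
      finrank ℝ F = d - 2 + 1 ∧ Y ⊆ g.Q ∧ ND (1 / 2) hm F Y ∧ F ≤ hU (dual p) ∧
        (#(hp g.Q (dual p)) : ℝ) ≤ 2 ^ (d + 1) * #Y := fun p hp =>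
    XDEG.part hDEC hDIM hg (by omega) (le_trans (by omega) (le_max_right _ _)) hL' _
      (mem_filter.1 hp).2.1 (mem_filter.1 hp).2.2
  choose! F Y hFY using key
  have h2 := hR' _ I F Y (d - 2) 0 (g.N ^ (d - 2) / 2 ^ (d + 1)) (g.N ^ d * (g.L ^ 2 * g.N))
    (Nat.zero_le _) (by positivity) (by positivity)
    (fun p hp => by
      obtain ⟨a1, a2, a3, -, a5⟩ := hFY p hp
      have hp1 : p.1 ∈ g.Q := (mem_product.1 (mem_filter.1 (mem_filter.1 hp).1).1).1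
      refine ⟨a1, a2, ⟨g.l 0 p.1, fun y hy => hg.root _ (a2 hy) _ hp1⟩, a3, ?_⟩
      rw [div_le_iff₀' (by positivity)]
      exact (mem_filter.1 hp).2.2.trans a5)
    (fun x F₀ => XDEG.mult hg F₀ _ fun q hq => by
      simp only [mem_filter] at hq
      obtain ⟨c1, -, rfl⟩ := hq
      exact ⟨(mem_filter.1 c1).1, (hFY q c1).2.2.2.1, by rw [(hFY q c1).1]; omega⟩)
  have h3 : (∑ p ∈ I, (#(hp g.Q (dual p)) : ℝ)) ≤ 2 ^ (d + 1) * ∑ p ∈ I, (#(Y p) : ℝ) := by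
    rw [mul_sum]
    exact sum_le_sum fun p hp => (hFY p hp).2.2.2.2
  have e1 : g.N ^ d * (g.L ^ 2 * g.N) * g.L ^ a₀ * g.N ^ d * g.M 0 ^ (d * (d - 2)) /
      (g.N ^ (d - 2) / 2 ^ (d + 1)) ^ d =
      (2 ^ (d + 1)) ^ d * g.L ^ (a₀ + 2) * g.N ^ (2 * d + 1) := by
    rw [hg.top, div_pow, ← pow_mul, mul_comm (d - 2) d]
    field_simp
    ring
  rw [e1] at h2
  have h4 := hg.pow_le (le_max_right K₁ (a₀ + 3))
  calc _ ≤ 2 ^ (d + 1) * ((2 ^ (d + 1)) ^ d * g.L ^ (a₀ + 2) * g.N ^ (2 * d + 1)) :=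
        h3.trans (mul_le_mul_of_nonneg_left h2 (by positivity))
    _ = 2 ^ ((d + 1) * (d + 1)) * g.L ^ (a₀ + 2) * g.N ^ (2 * d + 1) := by ring
    _ ≤ g.L * g.L ^ (a₀ + 2) * g.N ^ (2 * d + 1) := by gcongr
    _ = g.L ^ (a₀ + 3) * g.N ^ (2 * d + 1) := by ring
    _ ≤ g.N * g.N ^ (2 * d + 1) := by gcongr
    _ = g.N ^ (2 * d + 2) := by ring
    _ ≤ g.N ^ (3 * d - 2) := pow_le_pow_right₀ hN (by omega)

end Pool.Agent.P.MP_5f07f1_co.Z
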