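import Pool.Agent.P.MP_5f07f1_co.ZDefs

namespace Pool.Agent.P.MP_5f07f1_co.Z

open Finset MvPolynomial Pool.Agent.Lib.PolyPart Classical Module

namespace XDISC

lemma theta {d : ℕ} (x : E d) : ∃ θ : RMap d,
    ∀ y, eval y θ.den = nq y - nq x ∧ θ.app y = dual (x, y) := by
  have h1 : ∀ i : Fin d, (X i : MP d).totalDegree ≤ 1 := fun i => (totalDegree_X i).le
  have e : ∀ y : E d, eval y (∑ i, X i * X i - C (nq x) : MP d) = nq y - nq x := fun y => by
    simp [nq, dotProduct]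
  refine ⟨⟨fun i => C 2 * (X i - C (x i)), ∑ i, X i * X i - C (nq x), fun i => ?_, ?_⟩,
    fun y => ⟨e y, ?_⟩⟩
  · refine (totalDegree_mul _ _).trans ?_
    have := (totalDegree_sub_C_le (X i : MP d) (x i)).trans (h1 i)
    rw [totalDegree_C]
    omega
  · refine (totalDegree_sub_C_le _ _).trans (totalDegree_finsetSum_le fun i _ => ?_)
    have := totalDegree_mul (X i : MP d) (X i)
    have := h1 i
    omega
  · funext i
    simp only [RMap.app, e, dual, map_mul, map_sub, eval_C, eval_X, Pi.smul_apply, Pi.sub_apply,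
      smul_eq_mul]
    ring

lemma pull {d : ℕ} (hd : 1 ≤ d) {G : MP d} (hG : G ≠ 0) (x : E d) : ∃ Ψ : MP d, Ψ ≠ 0 ∧
    Ψ.totalDegree ≤ 3 * G.totalDegree ∧
    ∀ y, nq y ≠ nq x → eval (dual (x, y)) G = 0 → eval y Ψ = 0 := by
  obtain ⟨θ, hθ⟩ := theta x
  obtain ⟨Ψ, h1, h2⟩ := θ.exists_clear G
  have h3 : ∀ y, nq y ≠ nq x → (eval y Ψ = 0 ↔ eval (dual (x, y)) G = 0) := fun y hy => by
    rw [← (hθ y).2]
    exact h2 y (by rw [(hθ y).1]; exact sub_ne_zero.2 hy)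
  refine ⟨Ψ, ?_, h1, fun y hy => (h3 y hy).2⟩
  have n1 : (∑ i, X i * X i : MP d) ≠ 0 := fun h => by
    have := congrArg (eval fun _ => (1 : ℝ)) h
    simp at this
    omega
  have n2 : (1 - ∑ i, X i * C (x i) : MP d) ≠ 0 := fun h => by
    have := congrArg (eval fun _ => (0 : ℝ)) h
    simp at this
  obtain ⟨a, ha⟩ : ∃ a : E d,
      eval a (G * (∑ i, X i * X i) * (1 - ∑ i, X i * C (x i))) ≠ 0 := by
    by_contra h
    refine mul_ne_zero (mul_ne_zero hG n1) n2 (MvPolynomial.funext fun a => ?_)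
    rw [map_zero]
    exact not_not.1 fun e => h ⟨a, e⟩
  have ha' : eval a G * nq a * (1 - a ⬝ᵥ x) ≠ 0 := by simpa [nq, dotProduct] using ha
  simp only [ne_eq, mul_eq_zero, not_or] at ha'
  obtain ⟨⟨a1, a2⟩, a3⟩ := ha'
  obtain ⟨τ, t0, ht⟩ : ∃ τ : ℝ, τ ≠ 0 ∧ τ * nq a = 2 * (1 - a ⬝ᵥ x) :=
    ⟨2 * (1 - a ⬝ᵥ x) / nq a, div_ne_zero (mul_ne_zero two_ne_zero a3) a2, div_mul_cancel₀ _ a2⟩
  have e : nq (x + τ • a) - nq x = 2 * τ := by
    simp only [nq, add_dotProduct, dotProduct_add, smul_dotProduct, dotProduct_smul, smul_eq_mul,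
      dotProduct_comm x a] at ht ⊢
    linear_combination τ * ht
  have e2 : dual (x, x + τ • a) = a := by
    simp only [dual, e, add_sub_cancel_left, smul_smul]
    rw [show 2 / (2 * τ) * τ = 1 by field_simp, one_smul]
  rintro rfl
  refine a1 (e2 ▸ (h3 _ (sub_ne_zero.1 ?_)).1 (map_zero _))
  rw [e]
  exact mul_ne_zero two_ne_zero t0

end XDISC

theorem p_DISC : S_DISC := by
  intro d C K C' g hd hg G hG
  choose Ψ h0 h1 h2 using XDISC.pull hd hG
  have N0 : 0 < g.N := zero_lt_one.trans_le hg.N1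
  have h : #{p ∈ chords g.Q | eval (dual p) G = 0} ≤
      ∑ x ∈ g.Q, #({x} ×ˢ {y ∈ g.Q | eval y (Ψ x) = 0}) := by
    refine le_trans (card_le_card fun p hp => ?_) card_biUnion_le
    simp only [chords, mem_filter, mem_product, mem_biUnion, mem_singleton] at hp ⊢
    obtain ⟨⟨⟨a, b⟩, c⟩, e⟩ := hp
    exact ⟨p.1, a, rfl, b, h2 p.1 p.2 (fun f => c (hg.inj b a f).symm) e⟩
  refine (Nat.cast_le.2 h).trans ?_
  rw [Nat.cast_sum]
  refine (sum_le_card_nsmul _ _ ((3 * (G.totalDegree : ℝ) + 2) ^ C * g.N ^ d /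
    g.N ^ (1 / C : ℝ)) fun x _ => ?_).trans ?_
  · rw [card_product, card_singleton, one_mul]
    refine (hg.hyp _ (h0 x)).trans ?_
    have : ((Ψ x).totalDegree : ℝ) ≤ 3 * G.totalDegree := by exact_mod_cast h1 x
    gcongr
  · rw [nsmul_eq_mul]
    refine (mul_le_mul_of_nonneg_right hg.card (by positivity)).trans (le_of_eq ?_)
    ring

end Pool.Agent.P.MP_5f07f1_co.Z
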