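import Pool.Agent.P.MP_5f07f1_co.ZDefs

namespace Pool.Agent.P.MP_5f07f1_co.Z

open Finset MvPolynomial Pool.Agent.Lib.PolyPart Classical Module

namespace XE2

lemma lf_inj {d : ℕ} : Function.Injective (lf : E d → E d × ℝ) :=
  fun _ _ h => congrArg Prod.fst h

lemma E2_eq {d : ℕ} (Q : Finset (E d)) (j : ℕ) :
    E2 (Q.image lf) j = ∑ p ∈ Q ×ˢ Q, (#(Kc Q (lf p.2 - lf p.1)) : ℝ) ^ j := by
  unfold E2
  symm
  refine sum_bij (fun p _ => (lf p.1, lf p.2)) (fun p hp => ?_) (fun p _ q _ h => ?_)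
    (fun q hq => ?_) fun p _ => ?_
  · simp only [mem_product, mem_image] at hp ⊢
    exact ⟨⟨_, hp.1, rfl⟩, ⟨_, hp.2, rfl⟩⟩
  · exact Prod.ext (lf_inj (congrArg Prod.fst h)) (lf_inj (congrArg Prod.snd h))
  · simp only [mem_product, mem_image] at hq
    obtain ⟨⟨x, hx, hx'⟩, ⟨y, hy, hy'⟩⟩ := hq
    exact ⟨(x, y), mem_product.2 ⟨hx, hy⟩, Prod.ext hx' hy'⟩
  · congr 2
    refine card_bij (fun x _ => lf x) (fun x hx => ?_) (fun x _ y _ h => lf_inj h) fun z hz => ?_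
    · simp only [Kc, mem_filter, mem_image] at hx ⊢
      exact ⟨⟨x, hx.1, rfl⟩, hx.2⟩
    · simp only [mem_filter, mem_image] at hz
      obtain ⟨⟨x, hx, rfl⟩, h2⟩ := hz
      refine ⟨x, ?_, rfl⟩
      simp only [Kc, mem_filter, mem_image]
      exact ⟨hx, h2⟩

end XE2

theorem p_E2 (hT2 : S_T2) (hLAYER : S_LAYER) : S_E2 := by
  intro d hd
  obtain ⟨K, h1⟩ := hT2 d hd
  refine ⟨K, fun C => ?_⟩
  obtain ⟨C₁, hC₁, h1⟩ := h1 C
  have h2p : (1 : ℝ) ≤ 2 ^ (239 + 2) := one_le_pow₀ (by norm_num)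
  obtain ⟨T, hT⟩ : ∃ T : ℝ, T = 2 ^ (239 + 2) := ⟨_, rfl⟩
  rw [← hT] at h2p
  refine ⟨T * C₁ + 1, by nlinarith, fun g hg => ?_⟩
  have h := h1 g (hg.mono le_rfl (by nlinarith))
  have hN := hg.N1
  have hQ := hg.card
  have hch : (#(chords g.Q) : ℝ) ≤ C₁ * g.N ^ (2 * d) := by
    have e1 : (#(chords g.Q) : ℝ) ≤ #g.Q * #g.Q := by
      have : #(chords g.Q) ≤ #(g.Q ×ˢ g.Q) := card_filter_le _ _
      rw [card_product] at this
      exact_mod_cast this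
    have e2 : (#g.Q : ℝ) * #g.Q ≤ g.N ^ (2 * d) := by
      rw [two_mul, pow_add]
      exact mul_le_mul hQ hQ (by positivity) (by positivity)
    exact (e1.trans e2).trans (le_mul_of_one_le_left (by positivity) hC₁)
  have hL := hLAYER (E d × E d) 239 (chords g.Q) (fun p => (#(Kc g.Q (lf p.2 - lf p.1)) : ℝ))
    (g.N ^ (d - 2)) (C₁ * g.N ^ (2 * d)) (by positivity) (fun _ _ => by positivity) hch
    (fun u hu => h u hu)
  rw [← hT] at hL
  have hD : (∑ p ∈ g.Q ×ˢ g.Q with ¬ p.1 ≠ p.2, (#(Kc g.Q (lf p.2 - lf p.1)) : ℝ) ^ 239) ≤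
      g.N ^ (2 * d) * (g.N ^ (d - 2)) ^ 239 := by
    have e1 : (#{p ∈ g.Q ×ˢ g.Q | ¬ p.1 ≠ p.2} : ℝ) ≤ g.N ^ d := by
      refine le_trans (Nat.cast_le.2 (card_le_card_of_injOn Prod.fst (fun p hp => ?_)
        fun p hp q hq hpq => ?_)) hQ
      · simp only [coe_filter, mem_product, Set.mem_ofPred_eq] at hp
        exact mem_coe.2 hp.1.1
      · simp only [coe_filter, mem_product, Set.mem_ofPred_eq, not_not] at hp hq
        exact Prod.ext hpq (by rw [← hp.2, ← hq.2]; exact hpq)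
    have e2 : ∀ p ∈ ({p ∈ g.Q ×ˢ g.Q | ¬ p.1 ≠ p.2} : Finset (E d × E d)),
        (#(Kc g.Q (lf p.2 - lf p.1)) : ℝ) ^ 239 ≤ (g.N ^ d) ^ 239 := fun p _ =>
      pow_le_pow_left₀ (by positivity)
        (le_trans (Nat.cast_le.2 (card_filter_le _ _)) hQ) 239
    refine (sum_le_sum e2).trans ?_
    rw [sum_const, nsmul_eq_mul]
    refine (mul_le_mul_of_nonneg_right e1 (by positivity)).trans ?_
    rw [← pow_mul, ← pow_mul, ← pow_add, ← pow_add]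
    exact pow_le_pow_right₀ hN (by omega)
  show E2 (g.Q.image lf) 239 ≤ _
  rw [XE2.E2_eq, ← sum_filter_add_sum_filter_not (g.Q ×ˢ g.Q) (fun p => p.1 ≠ p.2)]
  refine (add_le_add hL hD).trans (le_of_eq ?_)
  generalize (g.N ^ (d - 2)) ^ 239 = z
  ring

end Pool.Agent.P.MP_5f07f1_co.Z
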