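import Pool.Agent.P.MP_5f07f1_co.ZDefs

/-! The third moment bound. -/

namespace Pool.Agent.P.MP_5f07f1_co.Z

open Finset MvPolynomial Pool.Agent.Lib.PolyPart Classical Module

namespace XE3

variable {d : ℕ}

lemma lf_inj : Function.Injective (lf : E d → E d × ℝ) := fun _ _ h => congrArg Prod.fst h

lemma card_eq (Q : Finset (E d)) (c c' : E d × ℝ) :
    #{x ∈ Q.image lf | x + c ∈ Q.image lf ∧ x + c' ∈ Q.image lf} = #(Kcc Q c c') := by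
  rw [← card_image_of_injective (Kcc Q c c') lf_inj]
  congr 1
  ext x
  simp only [Kcc, mem_filter]
  constructor
  · rintro ⟨h, h1⟩
    obtain ⟨y, hy, rfl⟩ := mem_image.1 h
    exact mem_image.2 ⟨y, mem_filter.2 ⟨hy, h1⟩, rfl⟩
  · intro h
    obtain ⟨y, hy, rfl⟩ := mem_image.1 h
    exact ⟨mem_image_of_mem _ (mem_filter.1 hy).1, (mem_filter.1 hy).2⟩

lemma E3_eq (Q : Finset (E d)) (j : ℕ) : E3 (Q.image lf) j =
    ∑ p ∈ Q ×ˢ Q ×ˢ Q, (#(Kcc Q (lf p.2.1 - lf p.1) (lf p.2.2 - lf p.1)) : ℝ) ^ j := by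
  unfold E3
  symm
  refine sum_bij (fun p _ => (lf p.1, lf p.2.1, lf p.2.2)) ?_ ?_ ?_ ?_
  · intro p hp
    simp only [mem_product] at hp ⊢
    exact ⟨mem_image_of_mem _ hp.1, mem_image_of_mem _ hp.2.1, mem_image_of_mem _ hp.2.2⟩
  · intro p _ q _ h
    simp only [Prod.mk.injEq] at h
    exact Prod.ext (lf_inj h.1) (Prod.ext (lf_inj h.2.1) (lf_inj h.2.2))
  · intro q hq
    simp only [mem_product] at hq
    obtain ⟨x, hx, ex⟩ := mem_image.1 hq.1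
    obtain ⟨y, hy, ey⟩ := mem_image.1 hq.2.1
    obtain ⟨z, hz, ez⟩ := mem_image.1 hq.2.2
    exact ⟨(x, y, z), by simp [hx, hy, hz], by simp [ex, ey, ez]⟩
  · intro p _
    rw [← card_eq]
    congr 3
    ext x
    simp only [mem_filter]

lemma dep {x y z : E d} (h : ¬ Ind3 hm x y z) : x = y ∨ hm z ∈ sp2 hm x y := by
  by_contra hn
  push Not at hn
  apply h
  have h2 : LinearIndependent ℝ ![hm x, hm y] := by
    rw [LinearIndependent.pair_iff]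
    intro s t e
    have e1 : s * 1 + t * 1 = 0 := congrArg Prod.fst e
    have e2 : s • x + t • y = 0 := congrArg Prod.snd e
    have e3 : t = -s := by linarith
    rw [e3, neg_smul, ← sub_eq_add_neg, ← smul_sub, smul_eq_zero, sub_eq_zero] at e2
    have e4 : s = 0 := e2.resolve_right hn.1
    exact ⟨e4, by rw [e3, e4, neg_zero]⟩
  have h3 : (![hm x, hm y, hm z] : Fin 3 → ℝ × E d) = Fin.snoc ![hm x, hm y] (hm z) := by
    funext i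
    fin_cases i <;> rfl
  rw [Ind3, h3, linearIndependent_finSnoc]
  refine ⟨h2, ?_⟩
  rw [Matrix.range_cons, Matrix.range_cons, Matrix.range_empty, Set.union_empty,
    Set.singleton_union]
  exact hn.2

lemma rank2 (x y : E d) : finrank ℝ (sp2 hm x y) ≤ 1 + 1 := by
  have h := finrank_range_le_card (R := ℝ) ![hm x, hm y]
  rw [Matrix.range_cons, Matrix.range_cons, Matrix.range_empty, Set.union_empty,
    Set.singleton_union, Fintype.card_fin] at h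
  exact h

lemma card_dep (Q : Finset (E d)) (n a : ℝ) (hn : #Q ≤ n) (ha : 0 ≤ a)
    (h : ∀ x y : E d, (#{z ∈ Q | hm z ∈ sp2 hm x y} : ℝ) ≤ a) :
    (#{p ∈ Q ×ˢ Q ×ˢ Q | ¬ Ind3 hm p.1 p.2.1 p.2.2} : ℝ) ≤ n ^ 2 * (1 + a) := by
  have h0 : (0 : ℝ) ≤ #Q := Nat.cast_nonneg _
  have hQ : ((#(Q ×ˢ Q) : ℕ) : ℝ) ≤ n ^ 2 := by
    rw [card_product, Nat.cast_mul, ← sq]
    exact pow_le_pow_left₀ h0 hn 2
  have hs : {p ∈ Q ×ˢ Q ×ˢ Q | ¬ Ind3 hm p.1 p.2.1 p.2.2} ⊆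
      (Q ×ˢ Q).image (fun q => (q.1, q.1, q.2)) ∪ (Q ×ˢ Q).biUnion fun q =>
        {z ∈ Q | hm z ∈ sp2 hm q.1 q.2}.image fun z => (q.1, q.2, z) := by
    intro p hp
    simp only [mem_filter, mem_product] at hp
    obtain ⟨⟨h1, h2, h3⟩, h4⟩ := hp
    rcases dep h4 with e | e
    · exact mem_union_left _ (mem_image.2 ⟨(p.1, p.2.2), mem_product.2 ⟨h1, h3⟩,
        Prod.ext rfl (Prod.ext e rfl)⟩)
    · exact mem_union_right _ (mem_biUnion.2 ⟨(p.1, p.2.1), mem_product.2 ⟨h1, h2⟩,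
        mem_image.2 ⟨p.2.2, mem_filter.2 ⟨h3, e⟩, rfl⟩⟩)
  have h1 := (card_le_card hs).trans ((card_union_le _ _).trans
    (add_le_add card_image_le (card_biUnion_le.trans (sum_le_sum fun _ _ => card_image_le))))
  have h2 : (∑ q ∈ Q ×ˢ Q, (#{z ∈ Q | hm z ∈ sp2 hm q.1 q.2} : ℝ)) ≤ #(Q ×ˢ Q) * a := by
    rw [← nsmul_eq_mul]
    exact sum_le_card_nsmul _ _ _ fun q _ => h q.1 q.2
  have h3 : (#{p ∈ Q ×ˢ Q ×ˢ Q | ¬ Ind3 hm p.1 p.2.1 p.2.2} : ℝ) ≤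
      #(Q ×ˢ Q) + ∑ q ∈ Q ×ˢ Q, (#{z ∈ Q | hm z ∈ sp2 hm q.1 q.2} : ℝ) := by exact_mod_cast h1
  nlinarith [mul_le_mul_of_nonneg_right hQ ha]

end XE3

theorem p_E3 (hT : S_T3) (hL : S_LAYER) (hD : S_DIM) : S_E3 := by
  intro d hd
  obtain ⟨K₁, h1⟩ := hT d hd
  refine ⟨max K₁ 2, fun C => ?_⟩
  obtain ⟨C₁, hC₁, h1⟩ := h1 C
  refine ⟨2 ^ 37 * C₁ + 2, by nlinarith, fun g hg => ?_⟩
  have h2 := h1 g (hg.mono (le_max_left _ _) (by nlinarith))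
  have hN := hg.N1
  have hN0 : 0 < g.N := by linarith
  have hL2 : g.L ^ 2 ≤ g.N := hg.pow_le (le_max_right _ _)
  have h0 : (0 : ℝ) ≤ #g.Q := Nat.cast_nonneg _
  show E3 _ 35 ≤ _
  rw [XE3.E3_eq, ← sum_filter_add_sum_filter_not _ fun p => Ind3 hm p.1 p.2.1 p.2.2]
  have hA := hL _ 35 {p ∈ g.Q ×ˢ g.Q ×ˢ g.Q | Ind3 hm p.1 p.2.1 p.2.2}
    (fun p => (#(Kcc g.Q (lf p.2.1 - lf p.1) (lf p.2.2 - lf p.1)) : ℝ)) (g.N ^ (d - 4))
    (C₁ * g.N ^ (3 * d)) (by positivity) (fun _ _ => Nat.cast_nonneg _) ?_ ?_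
  · have hdep := XE3.card_dep g.Q (g.N ^ d) (g.N * g.N) hg.card (by positivity) fun x y => by
      have := hg.flat 1 _ ((hD d).1 1 _ (XE3.rank2 x y))
      rw [pow_one] at this
      refine le_trans (le_of_eq ?_) (this.trans (mul_le_mul_of_nonneg_right hL2 hN0.le))
      congr 2
    have hB : (∑ p ∈ {p ∈ g.Q ×ˢ g.Q ×ˢ g.Q | ¬ Ind3 hm p.1 p.2.1 p.2.2},
        (#(Kcc g.Q (lf p.2.1 - lf p.1) (lf p.2.2 - lf p.1)) : ℝ) ^ 35) ≤
        #{p ∈ g.Q ×ˢ g.Q ×ˢ g.Q | ¬ Ind3 hm p.1 p.2.1 p.2.2} * (g.N ^ d) ^ 35 := by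
      rw [← nsmul_eq_mul]
      refine sum_le_card_nsmul _ _ _ fun p _ => pow_le_pow_left₀ (Nat.cast_nonneg _) ?_ 35
      exact le_trans (Nat.cast_le.2 (card_filter_le _ _)) hg.card
    have hC : (g.N ^ d) ^ 2 * (1 + g.N * g.N) * (g.N ^ d) ^ 35 ≤
        2 * (g.N ^ (3 * d) * (g.N ^ (d - 4)) ^ 35) := by
      have e1 : 1 + g.N * g.N ≤ 2 * g.N ^ 2 := by nlinarith
      have e2 : (g.N ^ d) ^ 2 * g.N ^ 2 * (g.N ^ d) ^ 35 ≤
          g.N ^ (3 * d) * (g.N ^ (d - 4)) ^ 35 := by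
        simp only [← pow_mul, ← pow_add]
        exact pow_le_pow_right₀ hN (by omega)
      calc _ ≤ (g.N ^ d) ^ 2 * (2 * g.N ^ 2) * (g.N ^ d) ^ 35 := by gcongr
        _ = 2 * ((g.N ^ d) ^ 2 * g.N ^ 2 * (g.N ^ d) ^ 35) := by ring
        _ ≤ _ := by linarith
    have hE := hB.trans ((mul_le_mul_of_nonneg_right hdep (by positivity)).trans hC)
    calc _ ≤ 2 ^ (35 + 2) * (C₁ * g.N ^ (3 * d)) * (g.N ^ (d - 4)) ^ 35 +
          2 * (g.N ^ (3 * d) * (g.N ^ (d - 4)) ^ 35) := add_le_add hA hE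
      _ = _ := by ring
  · have e1 : ((#(g.Q ×ˢ g.Q ×ˢ g.Q) : ℕ) : ℝ) ≤ g.N ^ (3 * d) := by
      rw [card_product, card_product, mul_comm 3 d, pow_mul]
      push_cast
      calc (#g.Q : ℝ) * (#g.Q * #g.Q) = (#g.Q : ℝ) ^ 3 := by ring
        _ ≤ _ := pow_le_pow_left₀ h0 hg.card 3
    refine le_trans (Nat.cast_le.2 (card_filter_le _ _)) (e1.trans ?_)
    exact le_mul_of_one_le_left (by positivity) hC₁
  · intro u hu
    rw [filter_filter]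
    exact h2 u hu

end Pool.Agent.P.MP_5f07f1_co.Z
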