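import Pool.Agent.P.MP_5f07f1_co.ZDefs

/-! Rich nondegenerate flats, moment form. -/

namespace Pool.Agent.P.MP_5f07f1_co.Z

open Finset MvPolynomial Pool.Agent.Lib.PolyPart Classical Module

namespace XET

/-- The statement for one rank and fixed constants. -/
def PK (k : ℕ) (γ C : ℝ) : Prop :=
  ∀ (α V : Type) [AddCommGroup V] [Module ℝ V] [FiniteDimensional ℝ V] (f : α → V) (A : Finset α)
  (𝒰 : Finset (Submodule ℝ V)) (Y : Submodule ℝ V → Finset α) (σ a : ℝ), NP f A → #A ≤ σ → 0 < a →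
  (∀ U ∈ 𝒰, finrank ℝ U = k + 2 ∧ Y U ⊆ A ∧ ND γ f U (Y U) ∧ a ≤ #(Y U)) →
  (∑ U ∈ 𝒰, (#(Y U) : ℝ) ^ (k + 1)) ≤ C * (σ ^ (k + 2) / a ^ 2 + σ ^ (k + 1))

lemma PK.mono {k : ℕ} {γ γ' C C' : ℝ} (h : PK k γ C) (h1 : γ' ≤ γ) (h2 : C ≤ C') :
    PK k γ' C' := by
  intro α V _ _ _ f A 𝒰 Y σ a hA hσ ha hU
  have h0 : 0 ≤ σ := (Nat.cast_nonneg _).trans hσ
  exact (h α V f A 𝒰 Y σ a hA hσ ha fun U hu =>
    ⟨(hU U hu).1, (hU U hu).2.1, (hU U hu).2.2.1.mono h1, (hU U hu).2.2.2⟩).trans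
    (mul_le_mul_of_nonneg_right h2 (by positivity))

section

variable {α V : Type} [AddCommGroup V] [Module ℝ V] [FiniteDimensional ℝ V]
  {f : α → V} {γ : ℝ} {U : Submodule ℝ V} {Y : Finset α}

lemma small (h : ND γ f U Y) {W : Submodule ℝ V} (hW : finrank ℝ W < finrank ℝ U) :
    (cnt f Y W : ℝ) ≤ γ * #Y := by
  have h1 : W ⊓ U < U := lt_of_le_of_ne inf_le_right fun e => by
    have := Submodule.finrank_mono (e.symm.le.trans inf_le_left)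
    omega
  refine le_trans ?_ (h.2 _ h1)
  exact Nat.cast_le.2 (card_le_card fun z hz => mem_filter.2 ⟨(mem_filter.1 hz).1,
    Submodule.mem_inf.2 ⟨(mem_filter.1 hz).2, h.1 z (mem_filter.1 hz).1⟩⟩)

lemma one_le (h : ND γ f U Y) (hU : 2 ≤ finrank ℝ U) (hY : 0 < #Y) : 1 ≤ γ * #Y := by
  obtain ⟨y, hy⟩ := card_pos.1 hY
  have h1 : finrank ℝ (Submodule.span ℝ {f y}) ≤ 1 := by
    simpa using finrank_span_le_card (R := ℝ) ({f y} : Set V)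
  refine le_trans ?_ (small h (W := Submodule.span ℝ {f y}) (by omega))
  exact Nat.one_le_cast.2
    (card_pos.2 ⟨y, mem_filter.2 ⟨hy, Submodule.mem_span_singleton_self (f y)⟩⟩)

/-- The poor partners of `p`. -/
noncomputable def Po (f : α → V) (K : ℝ) (Y : Finset α) (p : α) : Finset α :=
  {x ∈ Y | x ≠ p ∧ (cnt f Y (sp2 f p x) : ℝ) < K}

omit [FiniteDimensional ℝ V] in
lemma good {K : ℝ} (h4 : (4 : ℝ) ≤ #Y)
    (hR : (#{p ∈ Y ×ˢ Y | p.1 ≠ p.2 ∧ K ≤ cnt f Y (sp2 f p.1 p.2)} : ℝ) ≤ (#Y : ℝ) ^ 2 / 8) :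
    (#Y : ℝ) ≤ 2 * #{p ∈ Y | (#Y : ℝ) ≤ 2 * #(Po f K Y p)} := by
  have h1 : ∀ p ∈ Y, (#Y : ℝ) ≤ 1 + #(Po f K Y p) +
      #{x ∈ Y | p ≠ x ∧ K ≤ cnt f Y (sp2 f p x)} := fun p _ => by
    have : Y ⊆ ({p} ∪ Po f K Y p) ∪ {x ∈ Y | p ≠ x ∧ K ≤ cnt f Y (sp2 f p x)} := fun x hx => by
      simp only [Po, mem_union, mem_singleton, mem_filter]
      by_cases e : x = p
      · exact Or.inl (Or.inl e)
      · by_cases e' : K ≤ cnt f Y (sp2 f p x)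
        · exact Or.inr ⟨hx, Ne.symm e, e'⟩
        · exact Or.inl (Or.inr ⟨hx, e, not_le.1 e'⟩)
    have h2 := (card_le_card this).trans ((card_union_le _ _).trans
      (Nat.add_le_add_right (card_union_le _ _) _))
    rw [card_singleton] at h2
    exact_mod_cast h2
  have h2 : (#{p ∈ Y ×ˢ Y | p.1 ≠ p.2 ∧ K ≤ cnt f Y (sp2 f p.1 p.2)} : ℝ) =
      ∑ p ∈ Y, (#{x ∈ Y | p ≠ x ∧ K ≤ cnt f Y (sp2 f p x)} : ℝ) := by
    simp only [card_filter, sum_product]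
    push_cast
    rfl
  have h3 : (#{p ∈ Y | ¬ (#Y : ℝ) ≤ 2 * #(Po f K Y p)} : ℝ) * (#Y / 4) ≤
      ∑ p ∈ Y, (#{x ∈ Y | p ≠ x ∧ K ≤ cnt f Y (sp2 f p x)} : ℝ) := by
    rw [← nsmul_eq_mul]
    refine (card_nsmul_le_sum _ _ _ fun p hp => ?_).trans
      (sum_le_sum_of_subset_of_nonneg (filter_subset _ _) fun _ _ _ => Nat.cast_nonneg _)
    have := h1 p (mem_filter.1 hp).1
    have := not_le.1 (mem_filter.1 hp).2
    linarith
  have h5 : (#{p ∈ Y | (#Y : ℝ) ≤ 2 * #(Po f K Y p)} : ℝ) +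
      #{p ∈ Y | ¬ (#Y : ℝ) ≤ 2 * #(Po f K Y p)} = #Y := by
    exact_mod_cast card_filter_add_card_filter_not _
  rw [← h2] at h3
  have h6 := h3.trans hR
  nlinarith

lemma rank_map {S : Submodule ℝ V} (h : S ≤ U) :
    finrank ℝ (U.map S.mkQ) + finrank ℝ S = finrank ℝ U := by
  have h1 := LinearMap.finrank_range_add_finrank_ker (S.mkQ.domRestrict U)
  rw [LinearMap.range_domRestrict, LinearMap.ker_domRestrict, Submodule.ker_mkQ,
    (Submodule.comapSubtypeEquivOfLe h).finrank_eq] at h1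
  exact h1

omit [FiniteDimensional ℝ V] in
lemma sp2_le {p x : α} {W : Submodule ℝ V} : sp2 f p x ≤ W ↔ f p ∈ W ∧ f x ∈ W := by
  simp only [sp2, Submodule.span_le, Set.insert_subset_iff, Set.singleton_subset_iff,
    SetLike.mem_coe]

omit [FiniteDimensional ℝ V] in
/-- The lines through `p` as points of the quotient. -/
lemma lines {A : Finset α} (hA : NP f A) {p : α} (hp : p ∈ A) :
    ∃ g : Submodule ℝ V → V ⧸ Submodule.span ℝ {f p}, NP g ((A.erase p).image (sp2 f p)) ∧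
      ∀ x ∈ A.erase p, ∀ W : Submodule ℝ (V ⧸ Submodule.span ℝ {f p}),
        g (sp2 f p x) ∈ W ↔ f x ∈ W.comap (Submodule.span ℝ {f p}).mkQ := by
  have h0 : ∀ W : Submodule ℝ (V ⧸ Submodule.span ℝ {f p}),
      f p ∈ W.comap (Submodule.span ℝ {f p}).mkQ := fun W =>
    Submodule.le_comap_mkQ _ W (Submodule.mem_span_singleton_self _)
  have h1 : ∀ l : Submodule ℝ V, ∃ r, (∃ x ∈ A.erase p, sp2 f p x = l) → sp2 f p r = l := by
    intro l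
    by_cases h : ∃ x ∈ A.erase p, sp2 f p x = l
    · obtain ⟨x, -, hx⟩ := h
      exact ⟨x, fun _ => hx⟩
    · exact ⟨p, fun k => absurd k h⟩
  choose r hr using h1
  have h2 : ∀ x ∈ A.erase p, ∀ W : Submodule ℝ (V ⧸ Submodule.span ℝ {f p}),
      (Submodule.span ℝ {f p}).mkQ (f (r (sp2 f p x))) ∈ W ↔
      sp2 f p x ≤ W.comap (Submodule.span ℝ {f p}).mkQ := fun x hx W => by
    conv_rhs => rw [← hr _ ⟨x, hx, rfl⟩]
    rw [sp2_le, and_iff_right (h0 W), Submodule.mem_comap]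
  have h3 : ∀ x, ((sp2 f p x).map (Submodule.span ℝ {f p}).mkQ).comap
      (Submodule.span ℝ {f p}).mkQ = sp2 f p x := fun x => by
    rw [Submodule.comap_map_mkQ, sup_eq_right, Submodule.span_singleton_le_iff_mem]
    exact (sp2_le.1 le_rfl).1
  have h4 : ∀ x ∈ A.erase p, (Submodule.span ℝ {f p}).mkQ (f (r (sp2 f p x))) ≠ 0 :=
    fun x hx e => by
      have k := (sp2_le.1 ((h2 x hx ⊥).1 e)).2
      rw [Submodule.comap_bot, Submodule.ker_mkQ, Submodule.mem_span_singleton] at k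
      obtain ⟨c, hc⟩ := k
      exact (mem_erase.1 hx).1 (hA.2 p hp x (mem_erase.1 hx).2 c hc.symm)
  have h5 : ∀ x ∈ A.erase p, ∀ y ∈ A.erase p, ∀ c : ℝ,
      (Submodule.span ℝ {f p}).mkQ (f (r (sp2 f p y))) =
        c • (Submodule.span ℝ {f p}).mkQ (f (r (sp2 f p x))) → sp2 f p y ≤ sp2 f p x :=
    fun x hx y hy c e => by
      rw [← h3 x, ← h2 y hy, e]
      exact Submodule.smul_mem _ c ((h2 x hx _).2 (h3 x).ge)
  refine ⟨fun l => (Submodule.span ℝ {f p}).mkQ (f (r l)), ⟨fun l hl => ?_, fun l hl m hm c e => ?_⟩,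
    fun x hx W => by rw [h2 x hx, sp2_le, and_iff_right (h0 W)]⟩
  · obtain ⟨x, hx, rfl⟩ := mem_image.1 hl
    exact h4 x hx
  · obtain ⟨x, hx, rfl⟩ := mem_image.1 hl
    obtain ⟨y, hy, rfl⟩ := mem_image.1 hm
    have hc : c ≠ 0 := fun k => h4 y hy (by rw [k, zero_smul] at e; exact e)
    exact le_antisymm (h5 x hx y hy c e) (h5 y hy x hx c⁻¹ ((eq_inv_smul_iff₀ hc).2 e.symm))

omit [FiniteDimensional ℝ V] in
lemma po_le {K : ℝ} (p : α) :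
    (#(Po f K Y p) : ℝ) ≤ K * #((Po f K Y p).image (sp2 f p)) := by
  rw [card_eq_sum_card_image (sp2 f p) (Po f K Y p), mul_comm, ← nsmul_eq_mul]
  push_cast
  refine sum_le_card_nsmul _ _ _ fun l hl => ?_
  obtain ⟨x, hx, rfl⟩ := mem_image.1 hl
  refine le_trans ?_ (mem_filter.1 hx).2.2.le
  refine Nat.cast_le.2 (card_le_card fun z hz => ?_)
  obtain ⟨h1, h2⟩ := mem_filter.1 hz
  exact mem_filter.2 ⟨(mem_filter.1 h1).1, h2 ▸ (sp2_le.1 le_rfl).2⟩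

lemma quot {k : ℕ} {γ₀ C K σ a : ℝ} (hP : PK k γ₀ C) (hK : 0 < K) (hγ : 0 ≤ γ)
    (hγ' : γ * (2 * K) ≤ γ₀) {A : Finset α} (hA : NP f A) (hσ : #A ≤ σ) (ha : 0 < a) {p : α}
    (hp : p ∈ A) (𝒰 : Finset (Submodule ℝ V)) (Y : Submodule ℝ V → Finset α)
    (hU : ∀ U ∈ 𝒰, finrank ℝ U = k + 3 ∧ Y U ⊆ A ∧ ND γ f U (Y U) ∧ a ≤ #(Y U) ∧ p ∈ Y U ∧
      (#(Y U) : ℝ) ≤ 2 * #(Po f K (Y U) p)) :
    (∑ U ∈ 𝒰, (#(Y U) : ℝ) ^ (k + 1)) ≤
      (2 * K) ^ (k + 1) * (C * (σ ^ (k + 2) / (a / (2 * K)) ^ 2 + σ ^ (k + 1))) := by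
  obtain ⟨g, hg, hW⟩ := lines hA hp
  have h0 : ∀ U ∈ 𝒰, Submodule.span ℝ {f p} ≤ U := fun U hu =>
    (Submodule.span_singleton_le_iff_mem _ _).2 ((hU U hu).2.2.1.1 p (hU U hu).2.2.2.2.1)
  have h1 : ∀ U ∈ 𝒰, (U.map (Submodule.span ℝ {f p}).mkQ).comap (Submodule.span ℝ {f p}).mkQ = U :=
    fun U hu => by rw [Submodule.comap_map_mkQ, sup_eq_right.2 (h0 U hu)]
  have h2 : ∀ U ∈ 𝒰, (#(Y U) : ℝ) ≤ 2 * K * #((Po f K (Y U) p).image (sp2 f p)) := fun U hu => by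
    have := po_le (f := f) (Y := Y U) (K := K) p
    linarith [(hU U hu).2.2.2.2.2]
  have h3 : ∀ U ∈ 𝒰, Po f K (Y U) p ⊆ A.erase p := fun U hu x hx =>
    mem_erase.2 ⟨(mem_filter.1 hx).2.1, (hU U hu).2.1 (mem_filter.1 hx).1⟩
  have h4 := hP _ _ g _ (𝒰.image fun U => U.map (Submodule.span ℝ {f p}).mkQ)
    (fun W => (Po f K (Y (W.comap (Submodule.span ℝ {f p}).mkQ)) p).image (sp2 f p)) σ
    (a / (2 * K)) hg
    ((Nat.cast_le.2 (card_image_le.trans card_erase_le)).trans hσ) (by positivity) (by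
      intro W hw
      obtain ⟨U, hu, rfl⟩ := mem_image.1 hw
      obtain ⟨k1, k2, k3, k4, k5, k6⟩ := hU U hu
      rw [h1 U hu]
      refine ⟨?_, image_subset_image (h3 U hu), ⟨fun l hl => ?_, fun W hw => ?_⟩, ?_⟩
      · have e := rank_map (h0 U hu)
        rw [finrank_span_singleton (hA.1 p hp)] at e
        omega
      · obtain ⟨x, hx, rfl⟩ := mem_image.1 hl
        rw [hW x (h3 U hu hx), h1 U hu]
        exact k3.1 x (mem_filter.1 hx).1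
      · have e := Submodule.comap_strictMono_of_surjective (Submodule.mkQ_surjective _) hw
        rw [h1 U hu] at e
        have e1 : {l ∈ (Po f K (Y U) p).image (sp2 f p) | g l ∈ W} ⊆
            {x ∈ Y U | f x ∈ W.comap (Submodule.span ℝ {f p}).mkQ}.image (sp2 f p) := fun l hl => by
          obtain ⟨x, hx, rfl⟩ := mem_image.1 (mem_filter.1 hl).1
          exact mem_image_of_mem _ (mem_filter.2 ⟨(mem_filter.1 hx).1,
            (hW x (h3 U hu hx) W).1 (mem_filter.1 hl).2⟩)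
        refine (Nat.cast_le.2 ((card_le_card e1).trans card_image_le)).trans ((k3.2 _ e).trans ?_)
        refine (mul_le_mul_of_nonneg_left (h2 U hu) hγ).trans ?_
        rw [← mul_assoc]
        exact mul_le_mul_of_nonneg_right hγ' (Nat.cast_nonneg _)
      · rw [div_le_iff₀' (by positivity)]
        exact k4.trans (h2 U hu))
  rw [sum_image fun U hu U' hu' e => by rw [← h1 U hu, ← h1 U' hu', e]] at h4
  refine le_trans ?_ (mul_le_mul_of_nonneg_left h4 (by positivity))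
  rw [mul_sum]
  refine sum_le_sum fun U hu => ?_
  rw [h1 U hu, ← mul_pow]
  exact pow_le_pow_left₀ (Nat.cast_nonneg _) (h2 U hu) _

end

lemma base (h : S_ST) : ∃ C, 1 ≤ C ∧ PK 0 (1 / 2) C := by
  obtain ⟨C, hC, h⟩ := h
  refine ⟨C, hC, fun α V _ _ _ f A 𝒰 Y σ a hA hσ ha hU => ?_⟩
  simp only [zero_add, pow_one]
  refine h α V f A 𝒰 Y σ a hA hσ ha fun U hu => ?_
  obtain ⟨k1, k2, k3, k4⟩ := hU U hu
  have := one_le k3 (by omega) (Nat.cast_pos.1 (ha.trans_le k4))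
  exact ⟨k1, k2, k3.1, Nat.ofNat_le_cast.1 (show (2 : ℝ) ≤ _ by linarith), k4⟩

lemma step (h : S_PAIR) {k : ℕ} {γ₀ C₀ : ℝ} (h0 : 0 < γ₀) (hC₀ : 1 ≤ C₀) (hP : PK k γ₀ C₀) :
    ∃ γ C, 0 < γ ∧ PK (k + 1) γ C := by
  obtain ⟨C, hC, h⟩ := h
  refine ⟨min (1 / (16 * C)) (γ₀ / (2 * (16 * C))), 2 * (2 * (16 * C)) ^ (k + 3) * C₀,
    by positivity, fun α V _ _ _ f A 𝒰 Y σ a hA hσ ha hU => ?_⟩
  have g0 : 0 ≤ min (1 / (16 * C)) (γ₀ / (2 * (16 * C))) := by positivity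
  have g1 : min (1 / (16 * C)) (γ₀ / (2 * (16 * C))) * (16 * C) ≤ 1 :=
    (le_div_iff₀ (by positivity)).1 (min_le_left _ _)
  have g2 : min (1 / (16 * C)) (γ₀ / (2 * (16 * C))) * (2 * (16 * C)) ≤ γ₀ :=
    (le_div_iff₀ (by positivity)).1 (min_le_right _ _)
  generalize min (1 / (16 * C)) (γ₀ / (2 * (16 * C))) = γ at *
  have s0 : 0 ≤ σ := (Nat.cast_nonneg _).trans hσ
  have h1 : ∀ U ∈ 𝒰, (#(Y U) : ℝ) ≤
      2 * #{p ∈ A | p ∈ Y U ∧ (#(Y U) : ℝ) ≤ 2 * #(Po f (16 * C) (Y U) p)} := fun U hu => by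
    obtain ⟨k1, k2, k3, k4⟩ := hU U hu
    have y0 : (0 : ℝ) ≤ #(Y U) := Nat.cast_nonneg _
    have e1 := one_le k3 (by omega) (Nat.cast_pos.1 (ha.trans_le k4))
    have e2 := h α V f (Y U) (#(Y U)) (16 * C) (γ * #(Y U)) (hA.mono k2) le_rfl (by positivity)
      fun W hw => small k3 (by omega)
    have e3 : γ * C ≤ 1 / 16 := by linarith
    have e4 : γ ≤ 1 / 16 := by nlinarith
    refine (good (f := f) (K := 16 * C) (by nlinarith) (e2.trans ?_)).trans ?_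
    · have : C * ((#(Y U) : ℝ) ^ 2 / (16 * C)) = (#(Y U) : ℝ) ^ 2 / 16 := by field_simp
      rw [mul_add, this]
      nlinarith [mul_le_mul_of_nonneg_right e3 (sq_nonneg (#(Y U) : ℝ))]
    · refine mul_le_mul_of_nonneg_left (Nat.cast_le.2 (card_le_card fun p hp => ?_)) zero_le_two
      exact mem_filter.2 ⟨k2 (mem_filter.1 hp).1, mem_filter.1 hp⟩
  have h2 : (∑ U ∈ 𝒰, (#(Y U) : ℝ) ^ (k + 1 + 1)) ≤ 2 * ∑ p ∈ A,
      ∑ U ∈ {U ∈ 𝒰 | p ∈ Y U ∧ (#(Y U) : ℝ) ≤ 2 * #(Po f (16 * C) (Y U) p)},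
        (#(Y U) : ℝ) ^ (k + 1) := by
    simp only [sum_filter]
    rw [sum_comm, mul_sum]
    refine sum_le_sum fun U hu => ?_
    rw [← sum_filter, sum_const, nsmul_eq_mul, pow_succ', ← mul_assoc]
    exact mul_le_mul_of_nonneg_right (h1 U hu) (by positivity)
  have h3 := sum_le_card_nsmul A _ _ fun p hp => quot hP (K := 16 * C) (by positivity) g0 g2 hA hσ
    ha hp {U ∈ 𝒰 | p ∈ Y U ∧ (#(Y U) : ℝ) ≤ 2 * #(Po f (16 * C) (Y U) p)} Y fun U hu => by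
      obtain ⟨hu, k5⟩ := mem_filter.1 hu
      obtain ⟨k1, k2, k3, k4⟩ := hU U hu
      exact ⟨k1, k2, k3, k4, k5⟩
  rw [nsmul_eq_mul] at h3
  refine h2.trans ((mul_le_mul_of_nonneg_left (h3.trans
    (mul_le_mul_of_nonneg_right hσ (by positivity))) zero_le_two).trans ?_)
  have t1 : (1 : ℝ) ≤ (2 * (16 * C)) ^ 2 := one_le_pow₀ (by linarith)
  have t0 : (0 : ℝ) < 2 * (16 * C) := by positivity
  generalize 2 * (16 * C) = T at *
  have e1 : 2 * (σ * (T ^ (k + 1) * (C₀ * (σ ^ (k + 2) / (a / T) ^ 2 + σ ^ (k + 1))))) =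
      2 * T ^ (k + 1) * C₀ * (T ^ 2 * (σ ^ (k + 1 + 2) / a ^ 2) + 1 * σ ^ (k + 1 + 1)) := by
    field_simp
    ring
  have e2 : 2 * T ^ (k + 3) * C₀ * (σ ^ (k + 1 + 2) / a ^ 2 + σ ^ (k + 1 + 1)) =
      2 * T ^ (k + 1) * C₀ * (T ^ 2 * (σ ^ (k + 1 + 2) / a ^ 2) + T ^ 2 * σ ^ (k + 1 + 1)) := by
    ring
  rw [e1, e2]
  gcongr

end XET

theorem p_ET (hA : S_ST) (hB : S_PAIR) : S_ET := by
  intro k₀
  change ∃ γ C : ℝ, 0 < γ ∧ γ ≤ 1 / 2 ∧ 1 ≤ C ∧ ∀ k ≤ k₀, XET.PK k γ C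
  induction k₀ with
  | zero =>
    obtain ⟨C, hC, h⟩ := XET.base hA
    exact ⟨1 / 2, C, by norm_num, le_rfl, hC, fun k hk => by rwa [Nat.le_zero.1 hk]⟩
  | succ n ih =>
    obtain ⟨γ, C, h0, h1, h2, h⟩ := ih
    obtain ⟨γ', C', h3, h4⟩ := XET.step hB h0 h2 (h n le_rfl)
    refine ⟨min γ γ', max C C', lt_min h0 h3, (min_le_left _ _).trans h1,
      h2.trans (le_max_left _ _), fun k hk => ?_⟩
    rcases Nat.le_succ_iff.1 hk with hk | rfl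
    · exact (h k hk).mono (min_le_left _ _) (le_max_left _ _)
    · exact h4.mono (min_le_right _ _) (le_max_right _ _)

end Pool.Agent.P.MP_5f07f1_co.Z
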