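import Pool.Agent.P.MP_5f07f1_co.ZDefs

/-! From the moment form of the rich flats bound to the incidence form with multiplicity. -/

namespace Pool.Agent.P.MP_5f07f1_co.Z

open Finset MvPolynomial Pool.Agent.Lib.PolyPart Classical Module

namespace XETW

variable {α V : Type} [AddCommGroup V] [Module ℝ V]

/-- A largest nondegenerate subset meets every more strongly nondegenerate set in half of it. -/
lemma star {γ : ℝ} (hγ : 0 ≤ γ) (f : α → V) (A : Finset α) (F : Submodule ℝ V) :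
    ∃ Z : Finset α, Z ⊆ A ∧ ND (2 * γ) f F Z ∧ ∀ Y : Finset α, Y ⊆ A → ND γ f F Y →
      #Y ≤ #Z ∧ #Y ≤ 2 * #{y ∈ Z | y ∈ Y} := by
  have hne : ({Z ∈ A.powerset | ND (2 * γ) f F Z} : Finset (Finset α)).Nonempty := by
    refine ⟨∅, mem_filter.2 ⟨mem_powerset.2 (empty_subset _), ?_, ?_⟩⟩
    · intro y hy; simp at hy
    · intro U' _; simp
  obtain ⟨Z, hZ, hmax⟩ := exists_max_image _ (fun Z : Finset α => #Z) hne
  obtain ⟨hZA, hZN⟩ := mem_filter.1 hZ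
  have hZA' : Z ⊆ A := mem_powerset.1 hZA
  refine ⟨Z, hZA', hZN, fun Y hYA hY => ⟨?_, ?_⟩⟩
  · exact hmax Y (mem_filter.2 ⟨mem_powerset.2 hYA, hY.mono (by linarith)⟩)
  · by_contra hlt
    push Not at hlt
    have hI : ({y ∈ Z | y ∈ Y} : Finset α) = Z ∩ Y := by
      ext y; simp
    have hU : #(Z ∪ Y) + #(Z ∩ Y) = #Z + #Y := card_union_add_card_inter Z Y
    rw [hI] at hlt
    have hN : ND (2 * γ) f F (Z ∪ Y) := by
      refine ⟨fun y hy => ?_, fun U' hU' => ?_⟩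
      · rcases mem_union.1 hy with h | h
        · exact hZN.1 y h
        · exact hY.1 y h
      · have h1 := hZN.2 U' hU'
        have h2 := hY.2 U' hU'
        have h3 : #{y ∈ Z ∪ Y | f y ∈ U'} ≤ #{y ∈ Z | f y ∈ U'} + #{y ∈ Y | f y ∈ U'} := by
          rw [filter_union]; exact card_union_le _ _
        have h3' : (#{y ∈ Z ∪ Y | f y ∈ U'} : ℝ) ≤ #{y ∈ Z | f y ∈ U'} + #{y ∈ Y | f y ∈ U'} := by
          exact_mod_cast h3
        have h4 : 2 * #Z + #Y ≤ 2 * #(Z ∪ Y) := by omega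
        have h4' : 2 * (#Z : ℝ) + #Y ≤ 2 * #(Z ∪ Y) := by exact_mod_cast h4
        nlinarith [mul_le_mul_of_nonneg_left h4' hγ]
    have := hmax (Z ∪ Y) (mem_filter.2 ⟨mem_powerset.2 (union_subset hZA' hYA), hN⟩)
    omega

/-- Double counting inside one fibre. -/
lemma fibre {ι : Type} {I : Finset ι} {U : ι → Submodule ℝ V} {Y : ι → Finset α} {w : ℝ}
    (hM : Mlt I U Y w) (F : Submodule ℝ V) (Z : Finset α) :
    (∑ i ∈ I with U i = F, (#{y ∈ Z | y ∈ Y i} : ℝ)) ≤ w * #Z := by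
  have h1 : (∑ i ∈ I with U i = F, (#{y ∈ Z | y ∈ Y i} : ℝ)) =
      ∑ y ∈ Z, (#{i ∈ I | y ∈ Y i ∧ U i = F} : ℝ) := by
    simp only [card_filter, Nat.cast_sum, sum_filter]
    rw [sum_comm]
    refine sum_congr rfl fun i _ => ?_
    by_cases h : U i = F <;> simp [h]
  rw [h1]
  calc ∑ y ∈ Z, (#{i ∈ I | y ∈ Y i ∧ U i = F} : ℝ) ≤ ∑ _y ∈ Z, w :=
        sum_le_sum fun y _ => hM y F
    _ = w * #Z := by rw [sum_const, nsmul_eq_mul, mul_comm]

end XETW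

theorem p_ETW (hET : S_ET) : S_ETW := by
  intro k₀
  obtain ⟨γ, C, hγ0, hγ1, hC, H⟩ := hET k₀
  refine ⟨γ / 2, 2 * C, by linarith, by linarith, by linarith, ?_⟩
  intro k hk α V ι _ _ _ f A I U Y σ a w hNP hA ha hw hI hM
  choose Z hZA hZN hZ using fun F : Submodule ℝ V =>
    XETW.star (γ := γ / 2) (by linarith) f A F
  have hγ2 : 2 * (γ / 2) = γ := by ring
  have hall : ∀ F ∈ I.image U, finrank ℝ F = k + 2 ∧ Z F ⊆ A ∧ ND γ f F (Z F) ∧ a ≤ #(Z F) := by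
    intro F hF
    obtain ⟨i, hi, rfl⟩ := mem_image.1 hF
    obtain ⟨h1, h2, h3, h4⟩ := hI i hi
    refine ⟨h1, hZA _, hγ2 ▸ hZN _, h4.trans ?_⟩
    exact_mod_cast (hZ (U i) (Y i) h2 h3).1
  have hB := H k hk α V f A (I.image U) Z σ a hNP hA ha hall
  have hak : 0 < a ^ k := pow_pos ha k
  have hfib : ∀ F ∈ I.image U, (∑ i ∈ I with U i = F, (#(Y i) : ℝ)) ≤
      2 * w / a ^ k * (#(Z F) : ℝ) ^ (k + 1) := by
    intro F hF
    have ha' := (hall F hF).2.2.2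
    have h1 : (∑ i ∈ I with U i = F, (#(Y i) : ℝ)) ≤
        ∑ i ∈ I with U i = F, 2 * (#{y ∈ Z F | y ∈ Y i} : ℝ) := by
      refine sum_le_sum fun i hi => ?_
      obtain ⟨hi', hF'⟩ := mem_filter.1 hi
      obtain ⟨_, h2, h3, _⟩ := hI i hi'
      exact_mod_cast (hZ F (Y i) h2 (hF' ▸ h3)).2
    rw [← mul_sum] at h1
    have h2 := XETW.fibre hM F (Z F)
    have h3 : a ^ k ≤ (#(Z F) : ℝ) ^ k := pow_le_pow_left₀ ha.le ha' k
    have h4 : (#(Z F) : ℝ) ≤ (#(Z F) : ℝ) ^ (k + 1) / a ^ k := by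
      rw [le_div_iff₀ hak, pow_succ, mul_comm]
      exact mul_le_mul_of_nonneg_right h3 (Nat.cast_nonneg _)
    calc (∑ i ∈ I with U i = F, (#(Y i) : ℝ)) ≤ 2 * (w * #(Z F)) := by linarith
      _ ≤ 2 * (w * ((#(Z F) : ℝ) ^ (k + 1) / a ^ k)) :=
          mul_le_mul_of_nonneg_left (mul_le_mul_of_nonneg_left h4 hw) (by norm_num)
      _ = 2 * w / a ^ k * (#(Z F) : ℝ) ^ (k + 1) := by ring
  calc (∑ i ∈ I, (#(Y i) : ℝ)) = ∑ F ∈ I.image U, ∑ i ∈ I with U i = F, (#(Y i) : ℝ) :=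
        (sum_fiberwise_of_maps_to (fun i hi => mem_image_of_mem U hi) _).symm
    _ ≤ ∑ F ∈ I.image U, 2 * w / a ^ k * (#(Z F) : ℝ) ^ (k + 1) := sum_le_sum hfib
    _ = 2 * w / a ^ k * ∑ F ∈ I.image U, (#(Z F) : ℝ) ^ (k + 1) := by rw [mul_sum]
    _ ≤ 2 * w / a ^ k * (C * (σ ^ (k + 2) / a ^ 2 + σ ^ (k + 1))) :=
        mul_le_mul_of_nonneg_left hB (by positivity)
    _ = 2 * C * w * (σ ^ (k + 2) / a ^ (k + 2) + σ ^ (k + 1) / a ^ k) := by
        field_simp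
        ring

end Pool.Agent.P.MP_5f07f1_co.Z
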