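import Pool.Agent.P.MP_5f07f1_co.ZDefs
import Pool.Agent.P.MP_5f07f1_co.Main

/-! The final count and the transfer to Euclidean space. -/

namespace Pool.Agent.P.MP_5f07f1_co.Z

open Finset MvPolynomial Pool.Agent.Lib.PolyPart Classical Module

namespace XFIN

variable {d : ℕ}

lemma one (Q : Finset (E d)) (hQ : Set.InjOn nq (Q : Set (E d))) (q : E d) {t : ℝ}
    (ht : (pin Q q : ℝ) ≤ t) :
    (#Q : ℝ) ^ 2 ≤ t * (#{p ∈ chords Q | dual p ⬝ᵥ q = 1} + #Q) := by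
  have h1 := iso_sq_card_le Q fun x => nq (x - q)
  have h2 : #{w ∈ Q ×ˢ Q | nq (w.1 - q) = nq (w.2 - q)} ≤
      #{p ∈ chords Q | dual p ⬝ᵥ q = 1} + #Q := by
    refine le_trans (card_le_card (t := {p ∈ chords Q | dual p ⬝ᵥ q = 1} ∪ Q.image fun x => (x, x))
      fun w hw => ?_) ((card_union_le _ _).trans (Nat.add_le_add_left card_image_le _))
    obtain ⟨h3, h4⟩ := mem_filter.1 hw
    obtain ⟨h5, h6⟩ := mem_product.1 h3
    by_cases e : w.1 = w.2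
    · exact mem_union_right _ (mem_image.2 ⟨w.1, h5, Prod.ext rfl e⟩)
    · exact mem_union_left _ (mem_filter.2 ⟨mem_filter.2 ⟨h3, e⟩,
        (dual_dot (fun h => e (hQ h5 h6 h)) q).2 h4⟩)
  have h2' : (#{w ∈ Q ×ˢ Q | nq (w.1 - q) = nq (w.2 - q)} : ℝ) ≤
      #{p ∈ chords Q | dual p ⬝ᵥ q = 1} + #Q := by exact_mod_cast h2
  exact h1.trans (mul_le_mul ht h2' (by positivity) ((Nat.cast_nonneg _).trans ht))

lemma low (Q : Finset (E d)) (hQ : Set.InjOn nq (Q : Set (E d))) {t : ℝ}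
    (ht : ∀ q ∈ Q, (pin Q q : ℝ) ≤ t) :
    (#Q : ℝ) ^ 3 ≤ t * (∑ p ∈ chords Q, (#(hp Q (dual p)) : ℝ) + #Q ^ 2) := by
  have e : (∑ p ∈ chords Q, (#(hp Q (dual p)) : ℝ)) =
      ∑ q ∈ Q, (#{p ∈ chords Q | dual p ⬝ᵥ q = 1} : ℝ) := by
    simp only [hp, card_filter]
    push_cast
    exact sum_comm
  calc (#Q : ℝ) ^ 3 = ∑ _q ∈ Q, (#Q : ℝ) ^ 2 := by simp; ring
    _ ≤ ∑ q ∈ Q, t * (#{p ∈ chords Q | dual p ⬝ᵥ q = 1} + #Q) :=
      sum_le_sum fun q hq => one Q hQ q (ht q hq)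
    _ = _ := by rw [← mul_sum, sum_add_distrib, e]; simp; ring_nf; simp

end XFIN

theorem p_FIN (hGEO : S_GEO) (hISO : S_ISO) : S_FIN := by
  intro d hd
  obtain ⟨K, hK⟩ := hISO d hd
  obtain ⟨C, hC⟩ := hGEO d K (by omega)
  obtain ⟨C', hC', hI⟩ := hK C
  obtain ⟨n₀, hn₀⟩ := hC C'
  have hC0 : (0 : ℝ) ≤ (C ^ 3 * (C' + 1)) ^ d := by positivity
  refine ⟨1 + n₀ ^ 2 + (C ^ 3 * (C' + 1)) ^ d, by nlinarith [sq_nonneg n₀], fun P t ht hP => ?_⟩
  have htd : 1 ≤ t ^ d := one_le_pow₀ ht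
  by_cases h1 : (#P : ℝ) < n₀
  · have : (#P : ℝ) ^ 2 ≤ n₀ ^ 2 := pow_le_pow_left₀ (by positivity) h1.le 2
    nlinarith [sq_nonneg n₀]
  by_cases h2 : (#P : ℝ) ^ 2 < t ^ d
  · nlinarith [sq_nonneg n₀]
  obtain ⟨o, ho⟩ := exists_shift P
  have hc : #(P.image fun x => x - o) = #P := card_image_of_injective _ sub_left_injective
  have hpin : ∀ q ∈ P.image fun x => x - o, (pin (P.image fun x => x - o) q : ℝ) ≤ t := by
    intro q hq
    obtain ⟨x, hx, rfl⟩ := mem_image.1 hq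
    rw [pin_shift]
    exact hP x hx
  obtain ⟨g, hg, hQ, hN, hPQ⟩ := hn₀ (P.image fun x => x - o) t (by
    rw [coe_image]
    rintro _ ⟨x, hx, rfl⟩ _ ⟨y, hy, rfl⟩ h
    rw [ho hx hy h]) (by rw [hc]; exact not_lt.1 h1) ht hpin (by rw [hc]; exact not_lt.1 h2)
  rw [hc] at hN hPQ
  have hlow := XFIN.low g.Q hg.inj fun q hq =>
    le_trans (by exact_mod_cast pin_mono hQ q) (hpin q (hQ hq))
  have hup := hI g hg
  have hN1 := hg.N1
  have hN0 : 0 < g.N := by linarith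
  have hPQ' : g.N ^ d ≤ C * #g.Q := by rw [hN]; exact_mod_cast hPQ
  have hq2 : (#g.Q : ℝ) ^ 2 ≤ g.N ^ (3 * d - 2) := by
    refine (pow_le_pow_left₀ (by positivity) hg.card 2).trans ?_
    rw [← pow_mul]
    exact pow_le_pow_right₀ hN1 (by omega)
  have h3 : g.N ^ 2 * g.N ^ (3 * d - 2) ≤ (C ^ 3 * (C' + 1) * t) * g.N ^ (3 * d - 2) := by
    calc g.N ^ 2 * g.N ^ (3 * d - 2) = (g.N ^ d) ^ 3 := by
          rw [← pow_add, ← pow_mul]; congr 1; omega
      _ ≤ ((C : ℝ) * #g.Q) ^ 3 := by gcongr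
      _ = C ^ 3 * (#g.Q : ℝ) ^ 3 := by ring
      _ ≤ C ^ 3 * (t * (C' * g.N ^ (3 * d - 2) + g.N ^ (3 * d - 2))) := by
          gcongr
          exact hlow.trans (by gcongr)
      _ = _ := by ring
  have h4 : g.N ^ 2 ≤ C ^ 3 * (C' + 1) * t := le_of_mul_le_mul_right h3 (by positivity)
  calc (#P : ℝ) ^ 2 = (g.N ^ 2) ^ d := by rw [← hN, ← pow_mul, ← pow_mul, mul_comm]
    _ ≤ (C ^ 3 * (C' + 1) * t) ^ d := by gcongr
    _ = (C ^ 3 * (C' + 1)) ^ d * t ^ d := mul_pow _ _ _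
    _ ≤ _ := by nlinarith [sq_nonneg n₀]

theorem p_RES (hFIN : S_FIN) : S_RES := by
  intro d hd
  obtain ⟨B, hB, h⟩ := hFIN d hd
  have hd0 : (0 : ℝ) < d := by exact_mod_cast (by omega : 0 < d)
  have hB0 : 0 < B := by linarith
  refine ⟨1 / (2 * B ^ (1 / d : ℝ)), by positivity, fun P hP => ?_⟩
  obtain ⟨q, hq, hmax⟩ := exists_max_image P (fun q => #((P.erase q).image fun x => dist q x))
    (card_pos.1 (by omega))
  refine ⟨q, hq, ?_⟩
  have e : Set.ncard {r : ℝ | ∃ x ∈ P, x ≠ q ∧ dist q x = r} =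
      #((P.erase q).image fun x => dist q x) := by
    rw [← Set.ncard_coe_finset]
    congr 1
    ext r
    simp only [coe_image, coe_erase, Set.mem_image, Set.mem_sdiff, mem_coe, Set.mem_singleton_iff,
      Set.mem_ofPred_eq, and_assoc, ne_eq]
  rw [e]
  have ht : 1 ≤ #((P.erase q).image fun x => dist q x) :=
    card_pos.2 ((card_pos.1 (by rw [card_erase_of_mem hq]; omega)).image _)
  generalize #((P.erase q).image fun x => dist q x) = t at hmax ht ⊢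
  have ht' : (1 : ℝ) ≤ t := by exact_mod_cast ht
  have h1 := h (P.image fun x => x.ofLp) (2 * t) (by linarith) (by
    intro y hy
    obtain ⟨x, hx, rfl⟩ := mem_image.1 hy
    have := (pin_le P x).trans (Nat.add_le_add (hmax x hx) ht)
    exact_mod_cast this.trans (by omega))
  rw [card_image_of_injective _ (WithLp.ofLp_injective 2)] at h1
  rw [one_div, inv_mul_le_iff₀ (by positivity)]
  calc (#P : ℝ) ^ (2 / (d : ℝ)) = ((#P : ℝ) ^ 2) ^ (1 / d : ℝ) := by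
        rw [← Real.rpow_natCast, ← Real.rpow_mul (by positivity)]
        congr 1; push_cast; ring
    _ ≤ (B * (2 * t) ^ d) ^ (1 / d : ℝ) := Real.rpow_le_rpow (by positivity) h1 (by positivity)
    _ = _ := by
      rw [Real.mul_rpow hB0.le (by positivity), ← Real.rpow_natCast (2 * (t : ℝ)),
        ← Real.rpow_mul (by positivity), mul_one_div_cancel hd0.ne', Real.rpow_one]
      ring

end Pool.Agent.P.MP_5f07f1_co.Z
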