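import Pool.Agent.P.MP_5f07f1_co.ZDefs

namespace Pool.Agent.P.MP_5f07f1_co.Z

open Finset MvPolynomial Pool.Agent.Lib.PolyPart Classical Module

namespace XGEO

variable {d D Λ r : ℕ} {Q : Finset (E d)} {l : ℕ → E d → Lab d}

lemma ref (h : ∀ i < r, Lvl d D Λ Q (l i) (l (i + 1)) fun _ => Set.univ) (i : ℕ) :
    ∀ i', i ≤ i' → i' ≤ r → ∀ x ∈ Q, ∀ z ∈ Q, l i' x = l i' z → l i x = l i z := by
  intro i' hi
  induction i', hi using Nat.le_induction with
  | base => exact fun _ _ _ _ _ e => e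
  | succ j _ ih => exact fun hr x hx z hz e => ih (by omega) x hx z hz ((h j (by omega)).ref x hx z hz e)

lemma cross (h : ∀ i < r, Lvl d D Λ Q (l i) (l (i + 1)) fun _ => Set.univ) (i : ℕ) {e : ℕ}
    {W : Set (E d)} (hW : IsDim e W) {b : Lab d} {A : Finset (E d)} (hA : A ⊆ Q)
    (hb : ∀ z ∈ A, l i z = b ∧ z ∈ W) :
    ∀ k, i + k ≤ r → #(A.image (l (i + k))) ≤ (Λ * D ^ e) ^ k := by
  intro k
  induction k with
  | zero =>
    intro _
    rw [pow_zero, card_le_one]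
    intro x hx y hy
    obtain ⟨x', hx', rfl⟩ := mem_image.1 hx
    obtain ⟨y', hy', rfl⟩ := mem_image.1 hy
    exact (hb x' hx').1.trans (hb y' hy').1.symm
  | succ k ih =>
    intro hk
    have h1 : A.image (l (i + (k + 1))) ⊆ (A.image (l (i + k))).biUnion fun c =>
        {z ∈ A | l (i + k) z = c}.image (l (i + k + 1)) := by
      intro y hy
      obtain ⟨x, hx, rfl⟩ := mem_image.1 hy
      exact mem_biUnion.2 ⟨_, mem_image_of_mem _ hx, mem_image.2 ⟨x, mem_filter.2 ⟨hx, rfl⟩, rfl⟩⟩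
    refine (card_le_card h1).trans ((card_biUnion_le_card_mul _ _ (Λ * D ^ e) fun c _ => ?_).trans ?_)
    · have := (h (i + k) (by omega)).dim e W hW c {z ∈ A | l (i + k) z = c}
        ((filter_subset _ _).trans hA) fun z hz =>
          ⟨(mem_filter.1 hz).2, (hb z (mem_filter.1 hz).1).2⟩
      simpa using this
    · rw [pow_succ]
      exact Nat.mul_le_mul_right _ (ih (by omega))

/-- The first alternative of the tree gives the geometric data. -/
lemma geo {K S A C : ℕ} {C' y : ℝ} {P : Finset (E d)} (hd : 1 ≤ d) (hS : 1 ≤ S) (hΛ : 1 ≤ Λ)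
    (hinj : Set.InjOn nq (P : Set (E d))) (hy : 2 ≤ y) (hC : (C : ℝ) ≤ y) (hC' : C' ≤ y)
    (hn : (y ^ (2 * (K + 1) * S)) ^ d = #P) (hD : y ≤ D) (hD' : (D : ℝ) ≤ y ^ (2 * S))
    (hr : r ≤ C) (hΛC : Λ ^ r ≤ C) (hA : A ≤ C) (hT : 2 * (K + 1) * S ≤ C)
    (h1 : ((D : ℝ) ^ r) ^ d ≤ #P) (h2 : (#P : ℝ) ≤ ((D : ℝ) ^ r) ^ d * y ^ (2 * S)) (hQ : Q ⊆ P)
    (h0 : ∀ x ∈ Q, ∀ z ∈ Q, l 0 x = l 0 z)
    (h : ∀ i < r, Lvl d D Λ Q (l i) (l (i + 1)) fun _ => Set.univ)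
    (hs : ∀ i ≤ r, ∀ b, #{z ∈ Q | l i z = b} * D ^ (d * i) ≤ #P)
    (hf : ∀ f : MP d, f ≠ 0 → #{z ∈ Q | eval z f = 0} * D ≤ (f.totalDegree + 2) ^ A * #P) :
    Geo C K C' ⟨Q, y ^ (2 * (K + 1) * S), y ^ (2 * S), r,
      fun i => y ^ (2 * (K + 1) * S) / (D : ℝ) ^ i, l⟩ := by
  have y1 : 1 ≤ y := by linarith
  have yL : y ≤ y ^ (2 * S) := le_self_pow₀ y1 (by omega)
  have hgap : (y ^ (2 * S)) ^ K ≤ y ^ (2 * (K + 1) * S) := by
    rw [← pow_mul]
    exact pow_le_pow_right₀ y1 (by nlinarith)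
  have hC1 : 1 ≤ C := le_trans (by nlinarith) hT
  have hNC : (y ^ (2 * (K + 1) * S)) ^ (1 / C : ℝ) ≤ D := by
    have c0 : (0 : ℝ) < C := by exact_mod_cast hC1
    refine le_trans ?_ hD
    calc (y ^ (2 * (K + 1) * S)) ^ (1 / C : ℝ) ≤ (y ^ C) ^ (1 / C : ℝ) :=
          Real.rpow_le_rpow (by positivity) (pow_le_pow_right₀ y1 hT) (by positivity)
      _ = y := by rw [one_div, Real.pow_rpow_inv_natCast (by linarith) (by omega)]
  generalize y ^ (2 * (K + 1) * S) = N at *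
  generalize y ^ (2 * S) = L at *
  have D1 : (1 : ℝ) ≤ D := y1.trans hD
  have D0 : (0 : ℝ) < D := by linarith
  have L1 : 1 ≤ L := y1.trans yL
  have N1 : 1 ≤ N := (one_le_pow₀ L1).trans hgap
  have N0 : 0 < N := by linarith
  have b1 : 1 ≤ N / (D : ℝ) ^ r := by
    rw [one_le_div (by positivity)]
    exact le_of_pow_le_pow_left₀ (n := d) (by omega) N0.le (hn ▸ h1)
  have b2 : (N / (D : ℝ) ^ r) ^ d ≤ L := by
    rw [div_pow, div_le_iff₀ (by positivity), hn, mul_comm]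
    exact h2
  have st : ∀ i, N / (D : ℝ) ^ i ≤ L * (N / (D : ℝ) ^ (i + 1)) := fun i => by
    rw [show N / (D : ℝ) ^ i = D * (N / (D : ℝ) ^ (i + 1)) by rw [pow_succ]; field_simp]
    exact mul_le_mul_of_nonneg_right hD' (by positivity)
  have sz : ∀ i ≤ r, ∀ b, (#{z ∈ Q | l i z = b} : ℝ) ≤ (N / (D : ℝ) ^ i) ^ d := fun i hi b => by
    rw [div_pow, le_div_iff₀ (by positivity), hn, ← pow_mul, mul_comm i]
    exact_mod_cast hs i hi b
  have cr : ∀ i i', i ≤ i' → i' ≤ r → ∀ (e : ℕ) (W : Set (E d)), IsDim e W → ∀ (b : Lab d),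
      ∀ A ⊆ Q, (∀ z ∈ A, l i z = b ∧ z ∈ W) →
      (#(A.image (l i')) : ℝ) ≤ C * (N / (D : ℝ) ^ i / (N / (D : ℝ) ^ i')) ^ e := by
    intro i i' hi hi' e W hW b A hA hb
    obtain ⟨k, rfl⟩ := Nat.exists_eq_add_of_le hi
    have k1 := cross h i hW hA hb k hi'
    have k2 : Λ ^ k ≤ C := (Nat.pow_le_pow_right hΛ (by omega)).trans hΛC
    rw [show N / (D : ℝ) ^ i / (N / (D : ℝ) ^ (i + k)) = D ^ k by rw [pow_add]; field_simp]
    have k3 : #(A.image (l (i + k))) ≤ C * (D ^ k) ^ e := by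
      refine k1.trans ?_
      rw [mul_pow, ← pow_mul, ← pow_mul, mul_comm e]
      exact Nat.mul_le_mul_right _ k2
    exact_mod_cast k3
  refine
    { inj := hinj.mono (coe_subset.2 hQ), one := hC1, bigC := hC.trans yL, big := hC'.trans yL,
      gap := hgap, depth := hr, top := by simp, anti := fun i i' hi _ => ?_,
      step := fun i _ => st i, bot1 := b1, bot := b2, lev := fun X hX hX' => ?_,
      ref := fun i => ref h i, root := h0, size := sz, cross := cr, card := ?_,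
      flat := fun e W hW => ?_, hyp := fun f hf0 => ?_ }
  · exact div_le_div_of_nonneg_left N0.le (by positivity) (pow_le_pow_right₀ D1 hi)
  · show ∃ i ≤ r, X ≤ N / (D : ℝ) ^ i ∧ N / (D : ℝ) ^ i ≤ L * X
    have X1 : 1 ≤ X := L1.trans hX
    have g1 : X ≤ N / (D : ℝ) ^ Nat.findGreatest (fun i => X ≤ N / (D : ℝ) ^ i) r :=
      Nat.findGreatest_spec (P := fun i => X ≤ N / (D : ℝ) ^ i) (Nat.zero_le r) (by simpa using hX')
    have g2 := Nat.findGreatest_le (P := fun i => X ≤ N / (D : ℝ) ^ i) r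
    refine ⟨_, g2, g1, ?_⟩
    rcases g2.eq_or_lt with e | e
    · rw [e]
      exact ((le_self_pow₀ b1 (by omega)).trans b2).trans (le_mul_of_one_le_right (by linarith) X1)
    · have g3 := Nat.findGreatest_is_greatest (P := fun i => X ≤ N / (D : ℝ) ^ i)
        (Nat.lt_succ_self _) e
      exact (st _).trans (mul_le_mul_of_nonneg_left (not_le.1 g3).le (by linarith))
  · show (#Q : ℝ) ≤ N ^ d
    rw [hn]
    exact_mod_cast card_le_card hQ
  · show (#{z ∈ Q | z ∈ W} : ℝ) ≤ L ^ 2 * N ^ e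
    rcases ({z ∈ Q | z ∈ W} : Finset (E d)).eq_empty_or_nonempty with e0 | ⟨x, hx⟩
    · rw [e0, card_empty, Nat.cast_zero]
      positivity
    have k1 := cr 0 r (Nat.zero_le r) le_rfl e W hW (l 0 x) {z ∈ Q | z ∈ W} (filter_subset _ _)
      fun z hz => ⟨h0 z (mem_filter.1 hz).1 x (mem_filter.1 hx).1, (mem_filter.1 hz).2⟩
    have k2 : (#{z ∈ Q | z ∈ W} : ℝ) ≤ #(({z ∈ Q | z ∈ W} : Finset (E d)).image (l r)) * L := by
      rw [card_eq_sum_card_image (l r), Nat.cast_sum, ← nsmul_eq_mul]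
      refine sum_le_card_nsmul _ _ _ fun b _ => le_trans ?_ ((sz r le_rfl b).trans b2)
      exact_mod_cast card_le_card (filter_subset_filter _ (filter_subset _ _))
    have k3 : (N / (D : ℝ) ^ 0 / (N / (D : ℝ) ^ r)) ^ e ≤ N ^ e := by
      rw [pow_zero, div_one]
      exact pow_le_pow_left₀ (by positivity) (div_le_self N0.le b1) e
    calc _ ≤ _ := k2
      _ ≤ L * N ^ e * L := mul_le_mul_of_nonneg_right (k1.trans
          (mul_le_mul (hC.trans yL) k3 (by positivity) (by linarith))) (by linarith)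
      _ = _ := by ring
  · show (#{z ∈ Q | eval z f = 0} : ℝ) ≤ ((f.totalDegree : ℝ) + 2) ^ C * N ^ d / N ^ (1 / C : ℝ)
    rw [le_div_iff₀ (by positivity), hn]
    have k1 : (#{z ∈ Q | eval z f = 0} : ℝ) * D ≤ ((f.totalDegree : ℝ) + 2) ^ A * #P := by
      exact_mod_cast hf f hf0
    have k2 : ((f.totalDegree : ℝ) + 2) ^ A ≤ ((f.totalDegree : ℝ) + 2) ^ C :=
      pow_le_pow_right₀ (by linarith [(Nat.cast_nonneg f.totalDegree : (0 : ℝ) ≤ _)]) hA
    exact (mul_le_mul_of_nonneg_left hNC (by positivity)).trans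
      (k1.trans (mul_le_mul_of_nonneg_right k2 (by positivity)))

end XGEO

theorem p_GEO (hTREE : S_TREE) (hALG : S_ALG) : S_GEO := by
  intro d K hd
  have hd0 : (0 : ℝ) < d := by exact_mod_cast (by omega : 0 < d)
  have hd1 : (1 : ℝ) ≤ d := by exact_mod_cast (by omega : 1 ≤ d)
  have hK : (0 : ℝ) ≤ K := Nat.cast_nonneg K
  obtain ⟨η, θ, n₁, hη, hθ, hA⟩ := hALG d (1 / (2 * d * (K + 1))) hd (by positivity)
    (by rw [div_le_one (by positivity)]; nlinarith)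
  obtain ⟨Λ, A, hΛ, hT⟩ := hTREE d η (by omega) hη
  obtain ⟨S, hS1, hS2⟩ : ∃ S : ℕ, 2 * d ≤ S ∧ 3 * A / θ ≤ S :=
    ⟨max (2 * d) ⌈3 * A / θ⌉₊, le_max_left _ _,
      (Nat.le_ceil _).trans (by exact_mod_cast le_max_right _ _)⟩
  obtain ⟨T, hTe⟩ : ∃ T, T = 2 * (K + 1) * S * d := ⟨_, rfl⟩
  have T1 : 2 * (K + 1) * S ≤ T := hTe ▸ Nat.le_mul_of_pos_right _ (by omega)
  have T2 : 2 * S ≤ T := le_trans (by nlinarith) T1
  have T0 : T ≠ 0 := by omega
  have Λ1 : 1 ≤ Λ ^ T := Nat.one_le_pow _ _ (by omega)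
  refine ⟨T + A + Λ ^ T, fun C' => ?_⟩
  obtain ⟨Y, Y2, YC, YC', YΛ⟩ : ∃ Y : ℝ, 2 ≤ Y ∧ ((T + A + Λ ^ T : ℕ) : ℝ) ≤ Y ∧ C' ≤ Y ∧
      (Λ : ℝ) ^ η⁻¹ ≤ Y :=
    ⟨max (max 2 _) (max C' _), (le_max_left _ _).trans (le_max_left _ _),
      (le_max_right _ _).trans (le_max_left _ _), (le_max_left _ _).trans (le_max_right _ _),
      (le_max_right _ _).trans (le_max_right _ _)⟩
  refine ⟨max n₁ (Y ^ T), fun P t hinj hn ht hpin htd => ?_⟩
  obtain ⟨y, y0, hy⟩ : ∃ y : ℝ, 0 ≤ y ∧ y ^ T = #P :=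
    ⟨(#P : ℝ) ^ (T : ℝ)⁻¹, by positivity, Real.rpow_inv_natCast_pow (by positivity) T0⟩
  have hY : Y ≤ y := le_of_pow_le_pow_left₀ T0 y0 (hy ▸ (le_max_right _ _).trans hn)
  have y2 : 2 ≤ y := Y2.trans hY
  have y1 : 1 ≤ y := by linarith
  obtain ⟨k, k1, k2⟩ := exists_nat_pow_near y1 (one_lt_two (α := ℝ))
  have D1 : (2 : ℝ) ^ (k + 1) ≤ y ^ 2 := by rw [pow_succ]; nlinarith
  have D2 : ((2 : ℝ) ^ (k + 1)) ^ d ≤ y ^ S :=
    (pow_le_pow_left₀ (by positivity) D1 d).trans (by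
      rw [← pow_mul]; exact pow_le_pow_right₀ y1 hS1)
  obtain ⟨r, r1, r2⟩ := exists_nat_pow_near (one_le_pow₀ y1 (n := T - S))
    (one_lt_pow₀ (a := (2 : ℝ) ^ (k + 1)) (by linarith) (n := d) (by omega))
  have r0 : 1 ≤ r := by
    by_contra h
    obtain rfl : r = 0 := by omega
    rw [zero_add, pow_one] at r2
    exact absurd (r2.trans_le (D2.trans (pow_le_pow_right₀ y1 (by omega)))) (lt_irrefl _)
  have r3 : (((2 : ℝ) ^ (k + 1)) ^ r) ^ d ≤ y ^ (T - S) := by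
    rwa [← pow_mul, mul_comm r, pow_mul]
  have r4 : (((2 : ℝ) ^ (k + 1)) ^ r) ^ d ≤ #P :=
    r3.trans (hy ▸ pow_le_pow_right₀ y1 (Nat.sub_le _ _))
  have rT : r ≤ T := by
    have h1 : y ^ (r * d) ≤ y ^ T := by
      rw [pow_mul, hy]
      exact (pow_le_pow_left₀ (by positivity) (pow_le_pow_left₀ y0 k2.le r) d).trans r4
    have h2 := (pow_le_pow_iff_right₀ (by linarith : 1 < y)).1 h1
    nlinarith
  rcases hT (k + 1) r P (by omega) r0 (by
      refine le_trans ?_ (Real.rpow_le_rpow (by positivity) ((YΛ.trans hY).trans k2.le) hη.le)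
      rw [Real.rpow_inv_rpow (by positivity) hη.ne']) (by
      rw [← pow_mul, mul_comm r] at r4
      exact_mod_cast r4) with ⟨Q, hQ, hc, l, h0, h1, h2, h3⟩ | hal
  · have hn' : (y ^ (2 * (K + 1) * S)) ^ d = #P := by rw [← pow_mul, ← hTe, hy]
    have ΛT : Λ ^ r ≤ Λ ^ T := Nat.pow_le_pow_right (by omega) rT
    refine ⟨_, XGEO.geo (D := 2 ^ (k + 1)) (S := S) (A := A) (by omega) (by omega) (by omega) hinj
      y2 (YC.trans hY) (YC'.trans hY) hn' (by exact_mod_cast k2.le) ?_ (by omega) (by omega)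
      (by omega) (by omega) (by exact_mod_cast r4) ?_ hQ h0 h1 h2 h3, hQ, hn', ?_⟩
    · push_cast
      exact D1.trans (pow_le_pow_right₀ y1 (by omega))
    · push_cast
      rw [← hy, show T = T - S + S by omega, pow_add, two_mul, pow_add y S S, ← mul_assoc]
      refine mul_le_mul_of_nonneg_right (r2.le.trans ?_) (by positivity)
      rw [pow_succ _ r, ← pow_mul _ d r, mul_comm d r, pow_mul]
      exact mul_le_mul_of_nonneg_left D2 (by positivity)
    · refine hc.trans (Nat.mul_le_mul_right _ ?_)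
      have : 2 ^ r ≤ Λ ^ r := Nat.pow_le_pow_left (by omega) r
      omega
  · refine absurd (hA P t _ _ hinj ((le_max_left _ _).trans hn) ht hpin
      (one_le_pow₀ (by linarith [k2])) ?_ (by positivity) ?_ hal) (not_lt.2 htd)
    · have h1 : (2 : ℝ) ^ (k + 1) + 2 ≤ y ^ 3 := by rw [pow_succ]; nlinarith
      refine (pow_le_pow_left₀ (by positivity) h1 A).trans ?_
      rw [← hy, ← pow_mul, ← Real.rpow_natCast, ← Real.rpow_natCast, ← Real.rpow_mul y0]
      refine Real.rpow_le_rpow_of_exponent_le y1 ?_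
      have h2 : (S : ℝ) ≤ T := by exact_mod_cast (by omega : S ≤ T)
      rw [div_le_iff₀ hθ] at hS2
      push_cast
      nlinarith
    · refine r3.trans (le_of_eq ?_)
      rw [← hy, ← Real.rpow_natCast, ← Real.rpow_natCast, ← Real.rpow_mul y0,
        Nat.cast_sub (by omega), hTe]
      congr 1
      push_cast
      field_simp

end Pool.Agent.P.MP_5f07f1_co.Z
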