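import Pool.Agent.P.MP_5f07f1_co.ZDefs

namespace Pool.Agent.P.MP_5f07f1_co.Z

open Finset MvPolynomial Pool.Agent.Lib.PolyPart Classical Module

namespace XHYP

lemma level {d C K : ℕ} {C' : ℝ} {g : Dat d} (hg : Geo C K C' g) {e i : ℕ} (he : 2 ≤ e)
    (hK : e ≤ K) (hi : i ≤ g.r) (h : g.L ^ e * g.N ^ 2 ≤ g.M i ^ e) :
    ∃ j, i ≤ j ∧ j ≤ g.r ∧ g.N ^ 2 ≤ g.M j ^ e ∧ g.M j ^ e ≤ g.L ^ e * g.N ^ 2 := by
  have hL := hg.L1
  have hN := hg.N1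
  have he0 : e ≠ 0 := by omega
  obtain ⟨X, X0, hX⟩ : ∃ X : ℝ, 0 ≤ X ∧ X ^ e = g.N ^ 2 :=
    ⟨(g.N ^ 2) ^ (e⁻¹ : ℝ), by positivity, Real.rpow_inv_natCast_pow (by positivity) he0⟩
  have h1 : g.L ≤ X := le_of_pow_le_pow_left₀ he0 X0 (by
    rw [hX]
    exact (hg.pow_le hK).trans (le_self_pow₀ hN two_ne_zero))
  have h2 : X ≤ g.N := le_of_pow_le_pow_left₀ he0 (by positivity) (by
    rw [hX]
    exact pow_le_pow_right₀ hN he)
  obtain ⟨j, hj, j1, j2⟩ := hg.lev X h1 h2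
  have up : ∀ t, t ≤ g.r → g.M t ≤ g.L * X → g.M t ^ e ≤ g.L ^ e * g.N ^ 2 := fun t ht h' => by
    rw [← hX, ← mul_pow]
    exact pow_le_pow_left₀ (zero_le_one.trans (hg.M1 ht)) h' e
  rcases le_total i j with hij | hij
  · exact ⟨j, hij, hj, hX ▸ pow_le_pow_left₀ X0 j1 e, up j hj j2⟩
  · refine ⟨i, le_rfl, hi, le_trans ?_ h, up i hi ((hg.anti j i hij hi).trans j2)⟩
    exact le_mul_of_one_le_left (by positivity) (one_le_pow₀ hL)

lemma degT {L N M y w : ℝ} {a D e e' k q : ℕ} (hL : 1 ≤ L) (hN : 0 < N) (hM : 0 < M) (hy : 1 ≤ y)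
    (hw : 0 ≤ w) (he : e = e' + (k + 1)) (hq : q ≤ D) (h : L ^ (a + 2) * N ^ 2 ≤ M ^ D) :
    L ^ a * (w * (L ^ 2 * N ^ 2) ^ (k + 1) * N ^ D * M ^ (D * e') / (y * M ^ e / N) ^ D) ≤
      w * N ^ (2 * D) / y ^ q := by
  have h0 : 0 < M ^ D := by positivity
  have r1 : L ^ a * (L ^ 2 * N ^ 2 / M ^ D) ≤ 1 := by
    rw [← mul_div_assoc, div_le_one h0, ← mul_assoc, ← pow_add]
    exact h
  have r0 : 0 ≤ L ^ 2 * N ^ 2 / M ^ D := by positivity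
  have r2 : L ^ 2 * N ^ 2 / M ^ D ≤ 1 :=
    (le_mul_of_one_le_left r0 (one_le_pow₀ hL)).trans r1
  have r3 : L ^ a * (L ^ 2 * N ^ 2 / M ^ D) ^ (k + 1) ≤ 1 :=
    (mul_le_mul_of_nonneg_left (pow_le_of_le_one r0 r2 (by omega)) (by positivity)).trans r1
  have e1 : (M ^ e) ^ D = M ^ (D * e') * (M ^ D) ^ (k + 1) := by
    rw [he, ← pow_mul, ← pow_mul, ← pow_add]
    congr 1
    ring
  have e2 : L ^ a * (w * (L ^ 2 * N ^ 2) ^ (k + 1) * N ^ D * M ^ (D * e') / (y * M ^ e / N) ^ D) =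
      w * N ^ (2 * D) / y ^ D * (L ^ a * (L ^ 2 * N ^ 2 / M ^ D) ^ (k + 1)) := by
    rw [div_pow, div_pow, mul_pow y, e1, two_mul, pow_add N D D]
    have : 0 < y := by linarith
    field_simp
  rw [e2]
  calc _ ≤ w * N ^ (2 * D) / y ^ D := mul_le_of_le_one_right (by positivity) r3
    _ ≤ _ := div_le_div_of_nonneg_left (by positivity) (by positivity) (pow_le_pow_right₀ hy hq)

lemma mainT {N M y c : ℝ} {n : ℕ} (hN : 0 < N) (hM : 0 < M) (hy : 1 ≤ y) (hc : 1 ≤ c)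
    (h : M ^ (n + 1) ≤ N ^ 2) :
    (N / M) ^ (n + 3) * ((M ^ (n + 3)) ^ (n + 1 + 2) / (y * M ^ (n + 2) / N / c) ^ (n + 1 + 2) +
      (M ^ (n + 3)) ^ (n + 1 + 1) / (y * M ^ (n + 2) / N / c) ^ (n + 1)) ≤
      2 * c ^ (n + 3) * N ^ (2 * (n + 3)) / y ^ (n + 1) := by
  have y0 : 0 < y := by linarith
  have c0 : 0 < c := by linarith
  have e1 : (N / M) ^ (n + 3) * ((M ^ (n + 3)) ^ (n + 1 + 2) /
      (y * M ^ (n + 2) / N / c) ^ (n + 1 + 2)) = c ^ (n + 3) * N ^ (2 * (n + 3)) / y ^ (n + 3) := by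
    simp only [div_pow, mul_pow]
    field_simp
    ring
  have e2 : (N / M) ^ (n + 3) * ((M ^ (n + 3)) ^ (n + 1 + 1) /
      (y * M ^ (n + 2) / N / c) ^ (n + 1)) =
      c ^ (n + 1) * (N ^ (2 * n + 4) * M ^ (n + 1)) / y ^ (n + 1) := by
    simp only [div_pow, mul_pow]
    field_simp
    ring
  rw [mul_add, e1, e2, mul_assoc, mul_div_assoc 2, two_mul (_ / _)]
  refine add_le_add (div_le_div_of_nonneg_left (by positivity) (by positivity)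
    (pow_le_pow_right₀ hy (by omega))) (div_le_div_of_nonneg_right ?_ (by positivity))
  refine mul_le_mul (pow_le_pow_right₀ hc (by omega)) ?_ (by positivity) (by positivity)
  rw [show 2 * (n + 3) = 2 * n + 4 + 2 by ring, pow_add N (2 * n + 4) 2]
  exact mul_le_mul_of_nonneg_left h (by positivity)

lemma mlt_fst {α V ι β : Type} [AddCommGroup V] [Module ℝ V] {I : Finset ι}
    {U : ι → Submodule ℝ V} {Y : ι → Finset α} {w : ℝ} (h : Mlt I U Y w) {J : Finset (ι × β)}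
    {Y' : ι × β → Finset α} {b : β} (hJ : ∀ p ∈ J, p.1 ∈ I ∧ Y' p ⊆ Y p.1 ∧ p.2 = b) :
    Mlt J (fun p => U p.1) Y' w := by
  refine fun x F => le_trans ?_ (h x F)
  refine Nat.cast_le.2 (card_le_card_of_injOn Prod.fst (fun p hp => ?_) fun p hp q hq e => ?_)
  · obtain ⟨hp, h1, h2⟩ := mem_filter.1 (mem_coe.1 hp)
    exact mem_coe.2 (mem_filter.2 ⟨(hJ p hp).1, (hJ p hp).2.1 h1, h2⟩)
  · exact Prod.ext e ((hJ p (mem_filter.1 (mem_coe.1 hp)).1).2.2.trans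
      (hJ q (mem_filter.1 (mem_coe.1 hq)).1).2.2.symm)

end XHYP

theorem p_HYP (hMAS : S_MAS) (hETW : S_ETW) (hDIM : S_DIM) : S_HYP := by
  intro d hd
  obtain ⟨n, rfl⟩ : ∃ n, d = n + 3 := ⟨d - 3, by omega⟩
  obtain ⟨γ, CE, γ0, γ1, hCE, hE⟩ := hETW (n + 1)
  obtain ⟨a₁, K₁, hM⟩ := hMAS (n + 3) γ γ0 γ1
  refine ⟨K₁ + (a₁ + n + 3) * (n + 2), fun C => ?_⟩
  obtain ⟨C₁, hC₁, hM⟩ := hM C
  have hpos : 0 ≤ C₁ * (C * CE * (2 * C₁ ^ (n + 3))) + (n + 2) := by positivity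
  refine ⟨C₁ + (C₁ * (C * CE * (2 * C₁ ^ (n + 3))) + (n + 2)), by linarith, ?_⟩
  intro g hg ι I U Y i y w hi hMi hy hw hI hml hdeg
  have hL := hg.L1
  have hN := hg.N1
  have N0 : 0 < g.N := by linarith
  have y0 : 0 < y := by linarith
  obtain ⟨j, hij, hj, j1, j2⟩ := XHYP.level hg (e := n + 2) (by omega) (by nlinarith) hi hMi
  have Mi0 : 0 < g.M i := zero_lt_one.trans_le (hg.M1 hi)
  have Mj0 : 0 < g.M j := zero_lt_one.trans_le (hg.M1 hj)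
  have hP : g.L ^ (a₁ + n + 3) ≤ g.M j := le_of_pow_le_pow_left₀ (n := n + 2) (by omega) Mj0.le (by
    rw [← pow_mul]
    exact ((hg.pow_le (by omega)).trans (le_self_pow₀ hN two_ne_zero)).trans j1)
  have b1 : g.L ^ (a₁ + 2) * g.N ^ 2 ≤ g.M j ^ (n + 3) := by
    rw [pow_succ' (g.M j)]
    exact mul_le_mul ((pow_le_pow_right₀ hL (by omega)).trans hP) j1 (by positivity) Mj0.le
  have b2 : g.M j ^ (n + 1) ≤ g.N ^ 2 := by
    refine le_of_mul_le_mul_left ?_ Mj0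
    rw [← pow_succ']
    exact j2.trans (mul_le_mul_of_nonneg_right
      ((pow_le_pow_right₀ hL (by omega)).trans hP) (by positivity))
  obtain ⟨J, Y', hJ, hs⟩ := hM g (hg.mono (by omega) (by linarith)) ι I U Y (n + 2) i j
    (y * g.M i ^ (n + 2) / g.N) (fun e' => w * (g.L ^ 2 * g.N ^ 2) ^ (n + 2 - e')) hij hj
    (by positivity) hI fun e' he' => ⟨by positivity, fun x F hF hx =>
      hdeg _ x F (by omega) (by omega) hx⟩
  have ea : y * g.M i ^ (n + 2) / g.N * (g.M j / g.M i) ^ (n + 2) = y * g.M j ^ (n + 2) / g.N := by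
    rw [div_pow]
    field_simp
  rw [ea] at hJ hs
  have a0 : 0 < y * g.M j ^ (n + 2) / g.N / C₁ := by positivity
  have hcell : (#(g.Q.image (g.l j)) : ℝ) ≤ C * (g.N / g.M j) ^ (n + 3) := by
    rcases g.Q.eq_empty_or_nonempty with h | ⟨x₀, h⟩
    · rw [h, image_empty, card_empty, Nat.cast_zero]
      positivity
    · have := hg.cross 0 j (Nat.zero_le _) hj (n + 3) _ (hDIM (n + 3)).2.2 (g.l 0 x₀) g.Q
        subset_rfl fun z hz => ⟨hg.root z hz x₀ h, trivial⟩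
      rwa [hg.top] at this
  have hmap : ∀ p ∈ J, p.2 ∈ g.Q.image (g.l j) := fun p hp => by
    obtain ⟨p1, p2, p3, -, p5⟩ := hJ p hp
    obtain ⟨x, hx⟩ : (Y' p).Nonempty := card_pos.1 (by exact_mod_cast a0.trans_le p5)
    exact mem_image.2 ⟨x, (hI _ p1).2.1 (p2 hx), p3 x hx⟩
  have hb : ∀ b ∈ g.Q.image (g.l j), (∑ p ∈ J with p.2 = b, (#(Y' p) : ℝ)) ≤ CE * w *
      ((g.M j ^ (n + 3)) ^ (n + 1 + 2) / (y * g.M j ^ (n + 2) / g.N / C₁) ^ (n + 1 + 2) +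
        (g.M j ^ (n + 3)) ^ (n + 1 + 1) / (y * g.M j ^ (n + 2) / g.N / C₁) ^ (n + 1)) := by
    intro b _
    obtain ⟨Jb, hJb, eJb⟩ : ∃ Jb : Finset (ι × Lab (n + 3)), (∀ p ∈ Jb, p ∈ J ∧ p.2 = b) ∧
        (∑ p ∈ J with p.2 = b, (#(Y' p) : ℝ)) = ∑ p ∈ Jb, (#(Y' p) : ℝ) :=
      ⟨_, fun p hp => mem_filter.1 hp, rfl⟩
    have hm' : Mlt Jb (fun p => U p.1) Y' w := XHYP.mlt_fst hml fun p hp =>
      ⟨(hJ p (hJb p hp).1).1, (hJ p (hJb p hp).1).2.1, (hJb p hp).2⟩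
    rw [eJb]
    refine hE (n + 1) le_rfl _ _ _ hm {z ∈ g.Q | g.l j z = b} Jb (fun p => U p.1) Y'
      (g.M j ^ (n + 3)) _ w (np_hm _) (hg.size j hj b) a0 hw (fun p hp => ?_) hm'
    obtain ⟨hp', e⟩ := hJb p hp
    obtain ⟨p1, p2, p3, p4, p5⟩ := hJ p hp'
    exact ⟨(hI _ p1).1, fun x hx => mem_filter.2 ⟨(hI _ p1).2.1 (p2 hx), (p3 x hx).trans e⟩,
      p4, p5⟩
  have hJs : (∑ p ∈ J, (#(Y' p) : ℝ)) ≤
      C * CE * (2 * C₁ ^ (n + 3)) * (w * g.N ^ (2 * (n + 3)) / y ^ (n + 1)) := by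
    rw [← sum_fiberwise_of_maps_to hmap]
    refine (sum_le_card_nsmul _ _ _ hb).trans ?_
    rw [nsmul_eq_mul]
    refine (mul_le_mul_of_nonneg_right hcell (by positivity)).trans ?_
    have := mul_le_mul_of_nonneg_left (XHYP.mainT N0 Mj0 hy hC₁ b2)
      (show 0 ≤ C * CE * w by positivity)
    refine le_trans (le_of_eq ?_) (this.trans (le_of_eq ?_)) <;> ring
  have hD : g.L ^ a₁ * ∑ e' ∈ range (n + 2), w * (g.L ^ 2 * g.N ^ 2) ^ (n + 2 - e') *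
      g.N ^ (n + 3) * g.M j ^ ((n + 3) * e') / (y * g.M j ^ (n + 2) / g.N) ^ (n + 3) ≤
      (n + 2) * (w * g.N ^ (2 * (n + 3)) / y ^ (n + 1)) := by
    rw [mul_sum]
    refine (sum_le_card_nsmul _ _ (w * g.N ^ (2 * (n + 3)) / y ^ (n + 1)) fun e' he' => ?_).trans
      (by rw [card_range, nsmul_eq_mul]; push_cast; exact le_rfl)
    have := mem_range.1 he'
    obtain ⟨k, hk⟩ : ∃ k, n + 2 = e' + (k + 1) := ⟨n + 1 - e', by omega⟩
    rw [show n + 2 - e' = k + 1 by omega]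
    exact XHYP.degT hL N0 Mj0 hy hw hk (by omega) b1
  have T0 : 0 ≤ w * g.N ^ (2 * (n + 3)) / y ^ (n + 1) := by positivity
  refine (hs.trans (add_le_add (mul_le_mul_of_nonneg_left hJs (by linarith)) hD)).trans ?_
  rw [show n + 3 - 2 = n + 1 from rfl, mul_assoc _ w, mul_div_assoc _ (w * _)]
  generalize w * g.N ^ (2 * (n + 3)) / y ^ (n + 1) = T at T0 ⊢
  nlinarith [mul_nonneg (zero_le_one.trans hC₁) T0]

end Pool.Agent.P.MP_5f07f1_co.Z
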