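import Pool.Agent.P.MP_5f07f1_co.ZDefs

/-! The number of isosceles triangles on a set with a sharp tree. -/

namespace Pool.Agent.P.MP_5f07f1_co.Z

open Finset MvPolynomial Pool.Agent.Lib.PolyPart Classical Module

namespace XISO

/-- Chords whose bisector lies in `W` and is shared by fewer than `m` chords. -/
lemma card_le_of_mu {d : ℕ} (Q : Finset (E d)) (T : Finset (E d × E d)) (m : ℝ)
    (hT : T ⊆ chords Q) (hmu : ∀ p ∈ T, (mu Q p : ℝ) ≤ m) :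
    (#T : ℝ) ≤ #(T.image dual) * m := by
  have h1 : #T = ∑ w ∈ T.image dual, #{p ∈ T | dual p = w} :=
    card_eq_sum_card_image dual T
  rw [h1]
  push_cast
  have h2 : ∀ w ∈ T.image dual, (#{p ∈ T | dual p = w} : ℝ) ≤ m := by
    intro w hw
    obtain ⟨p, hp, rfl⟩ := mem_image.1 hw
    refine le_trans ?_ (hmu p hp)
    have : #{q ∈ T | dual q = dual p} ≤ mu Q p := by
      unfold mu
      refine card_le_card fun q hq => ?_
      rw [mem_filter] at hq ⊢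
      exact ⟨hT hq.1, hq.2⟩
    exact_mod_cast this
  calc ∑ w ∈ T.image dual, (#{p ∈ T | dual p = w} : ℝ) ≤ ∑ _w ∈ T.image dual, m := sum_le_sum h2
    _ = #(T.image dual) * m := by rw [sum_const, nsmul_eq_mul]

lemma card_chords {d C K : ℕ} {C' : ℝ} {g : Dat d} (h : Geo C K C' g) :
    (#(chords g.Q) : ℝ) ≤ g.N ^ (2 * d) := by
  have h1 : #(chords g.Q) ≤ #g.Q * #g.Q := by
    unfold chords
    exact (card_filter_le _ _).trans (card_product _ _).le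
  have h2 : (#(chords g.Q) : ℝ) ≤ #g.Q * #g.Q := by exact_mod_cast h1
  have h3 := h.card
  calc (#(chords g.Q) : ℝ) ≤ #g.Q * #g.Q := h2
    _ ≤ g.N ^ d * g.N ^ d := mul_le_mul h3 h3 (Nat.cast_nonneg _) ((Nat.cast_nonneg _).trans h3)
    _ = g.N ^ (2 * d) := by ring

lemma arith {d : ℕ} (hd : 500 ≤ d) {N u C₁ : ℝ} (hN : 1 ≤ N) (hu : 1 ≤ u) (hC : 0 ≤ C₁) :
    C₁ * N ^ (d + 2) / u ^ (d - 1) * (u ^ 14 * N ^ (d - 2)) ≤ C₁ * N ^ (2 * d) / u ^ 2 := by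
  obtain ⟨e, rfl⟩ : ∃ e, d = e + 17 := ⟨d - 17, by omega⟩
  have hu0 : 0 < u := by linarith
  have e1 : e + 17 - 1 = e + 16 := by omega
  have e2 : e + 17 - 2 = e + 15 := by omega
  rw [e1, e2]
  have h1 : C₁ * N ^ (e + 17 + 2) / u ^ (e + 16) * (u ^ 14 * N ^ (e + 15)) =
      C₁ * N ^ (2 * (e + 17)) / u ^ 2 / u ^ e := by
    field_simp
    ring
  rw [h1]
  exact div_le_self (by positivity) (one_le_pow₀ hu)

end XISO

open XISO

theorem p_ISO (hR : S_RICH) (hD : S_DEG) (hM : S_MU) (hL : S_LAYER) : S_ISO := by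
  intro d hd
  obtain ⟨K₁, h₁⟩ := hR d hd
  obtain ⟨K₃, h₃⟩ := hD d hd
  obtain ⟨K₂, h₂⟩ := hM d hd
  refine ⟨max K₁ (max K₂ K₃), fun C => ?_⟩
  obtain ⟨C₁, hC₁, h₁⟩ := h₁ C
  obtain ⟨C₂, hC₂, h₂⟩ := h₂ C
  obtain ⟨C₃, hC₃, h₃⟩ := h₃ C
  refine ⟨8 * (C₁ + C₂) + C₃, by linarith, fun g hg => ?_⟩
  have r₁ := h₁ g (hg.mono (le_max_left _ _) (by linarith))
  have r₂ := h₂ g (hg.mono ((le_max_left _ _).trans (le_max_right _ _)) (by linarith))
  have r₃ := h₃ g (hg.mono ((le_max_right _ _).trans (le_max_right _ _)) (by linarith))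
  have hN := hg.N1
  have hN0 : 0 < g.N := by linarith
  set bad : E d × E d → Prop := fun p =>
    ¬ ND (1 / 2) hm (hU (dual p)) (hp g.Q (dual p)) ∧ g.N ^ (d - 2) ≤ #(hp g.Q (dual p))
    with hbad
  set S : Finset (E d × E d) := {p ∈ chords g.Q | ¬ bad p} with hS
  have hSc : S ⊆ chords g.Q := filter_subset _ _
  have hk0 : 0 < g.N ^ (d - 2) := by positivity
  have hcard : (#S : ℝ) ≤ (C₁ + C₂) * g.N ^ (2 * d) := by
    have a1 : (#S : ℝ) ≤ #(chords g.Q) := by exact_mod_cast card_le_card hSc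
    have a2 := card_chords hg
    have a3 : (0 : ℝ) < g.N ^ (2 * d) := by positivity
    nlinarith
  have htail : ∀ u : ℝ, 1 ≤ u → (#{p ∈ S | u * g.N ^ (d - 2) ≤ (#(hp g.Q (dual p)) : ℝ)} : ℝ) ≤
      (C₁ + C₂) * g.N ^ (2 * d) / u ^ (1 + 1) := by
    intro u hu
    have hu0 : 0 < u := by linarith
    set T : Finset (E d × E d) := {p ∈ S | u * g.N ^ (d - 2) ≤ (#(hp g.Q (dual p)) : ℝ)} with hT
    set T₁ : Finset (E d × E d) := {p ∈ T | (mu g.Q p : ℝ) < u ^ 14 * g.N ^ (d - 2)} with hT₁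
    have hsub : T ⊆ T₁ ∪ {p ∈ chords g.Q | u ^ 14 * g.N ^ (d - 2) ≤ mu g.Q p} := by
      intro p hp'
      rw [mem_union]
      by_cases hc : (mu g.Q p : ℝ) < u ^ 14 * g.N ^ (d - 2)
      · exact Or.inl (mem_filter.2 ⟨hp', hc⟩)
      · exact Or.inr (mem_filter.2 ⟨hSc (mem_filter.1 hp').1, not_lt.1 hc⟩)
    have hc1 : (#T : ℝ) ≤ #T₁ + #{p ∈ chords g.Q | u ^ 14 * g.N ^ (d - 2) ≤ mu g.Q p} := by
      exact_mod_cast (card_le_card hsub).trans (card_union_le _ _)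
    have hW : (#(T₁.image dual) : ℝ) ≤ C₁ * g.N ^ (d + 2) / u ^ (d - 1) := by
      refine r₁ _ u hu fun w hw => ?_
      obtain ⟨p, hp', rfl⟩ := mem_image.1 hw
      have q1 := mem_filter.1 (mem_filter.1 hp').1
      have q2 := (mem_filter.1 q1.1).2
      refine ⟨?_, q1.2⟩
      by_contra hnd
      refine q2 ⟨hnd, le_trans ?_ q1.2⟩
      exact le_mul_of_one_le_left hk0.le hu
    have hm0 : 0 ≤ u ^ 14 * g.N ^ (d - 2) := by positivity
    have hT1 : (#T₁ : ℝ) ≤ #(T₁.image dual) * (u ^ 14 * g.N ^ (d - 2)) :=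
      card_le_of_mu g.Q T₁ _
        (fun p hp' => hSc (mem_filter.1 (mem_filter.1 hp').1).1)
        (fun p hp' => (mem_filter.1 hp').2.le)
    have hT2 : (#T₁ : ℝ) ≤ C₁ * g.N ^ (2 * d) / u ^ 2 :=
      hT1.trans ((mul_le_mul_of_nonneg_right hW hm0).trans (arith hd hN hu (by linarith)))
    have hT3 := r₂ u hu
    calc (#T : ℝ) ≤ C₁ * g.N ^ (2 * d) / u ^ 2 + C₂ * g.N ^ (2 * d) / u ^ 2 :=
          hc1.trans (add_le_add hT2 hT3)
      _ = (C₁ + C₂) * g.N ^ (2 * d) / u ^ (1 + 1) := by ring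
  have hlay := hL (E d × E d) 1 S (fun p => (#(hp g.Q (dual p)) : ℝ)) (g.N ^ (d - 2))
    ((C₁ + C₂) * g.N ^ (2 * d)) hk0 (fun _ _ => Nat.cast_nonneg _) hcard htail
  have hsplit := sum_filter_add_sum_filter_not (chords g.Q) bad
    (fun p => (#(hp g.Q (dual p)) : ℝ))
  have hpow : g.N ^ (2 * d) * g.N ^ (d - 2) = g.N ^ (3 * d - 2) := by
    rw [← pow_add]
    congr 1
    omega
  have hl2 : (∑ p ∈ S, (#(hp g.Q (dual p)) : ℝ)) ≤ 8 * (C₁ + C₂) * g.N ^ (3 * d - 2) := by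
    simp only [pow_one] at hlay
    refine hlay.trans (le_of_eq ?_)
    rw [← hpow]
    ring
  have hpos : (0 : ℝ) < g.N ^ (3 * d - 2) := by positivity
  show (∑ p ∈ chords g.Q, (#(hp g.Q (dual p)) : ℝ)) ≤ (8 * (C₁ + C₂) + C₃) * g.N ^ (3 * d - 2)
  rw [← hsplit]
  have hb : (∑ p ∈ chords g.Q with bad p, (#(hp g.Q (dual p)) : ℝ)) ≤ g.N ^ (3 * d - 2) := r₃
  nlinarith

end Pool.Agent.P.MP_5f07f1_co.Z
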