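import Pool.Agent.P.MP_5f07f1_co.ZDefs

namespace Pool.Agent.P.MP_5f07f1_co.Z

open Finset MvPolynomial Pool.Agent.Lib.PolyPart Classical Module

namespace XL1

variable {d : ℕ}

/-- The linear form whose kernel holds the points of `Kc`. -/
def phi (c : E d × ℝ) : Module.Dual ℝ (ℝ × E d) where
  toFun p := 2 * (c.1 ⬝ᵥ p.2) + p.1 * (nq c.1 - c.2)
  map_add' a b := by simp only [Prod.snd_add, Prod.fst_add, dotProduct_add]; ring
  map_smul' t a := by
    simp only [Prod.smul_snd, Prod.smul_fst, dotProduct_smul, smul_eq_mul, RingHom.id_apply]; ring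

lemma mem_ker (c : E d × ℝ) (p : ℝ × E d) :
    p ∈ LinearMap.ker (phi c) ↔ 2 * (c.1 ⬝ᵥ p.2) + p.1 * (nq c.1 - c.2) = 0 := Iff.rfl

lemma rank_ker {c : E d × ℝ} (hc : c.1 ≠ 0) : finrank ℝ (LinearMap.ker (phi c)) = d := by
  have h1 : phi c ≠ 0 := by
    intro h
    have : phi c (0, c.1) = 0 := by rw [h]; rfl
    have h2 : 2 * (c.1 ⬝ᵥ c.1) + 0 * (nq c.1 - c.2) = 0 := this
    exact hc (dotProduct_self_eq_zero.1 (by linarith))
  have h2 := Module.Dual.finrank_ker_add_one_of_ne_zero h1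
  rw [Module.finrank_prod, Module.finrank_self, Module.finrank_fin_fun] at h2
  omega

lemma kc_spec {Q : Finset (E d)} {c : E d × ℝ} {x : E d} (h : x ∈ Kc Q c) :
    x ∈ Q ∧ x + c.1 ∈ Q ∧ c.2 = nq (x + c.1) - nq x := by
  obtain ⟨h1, h2⟩ := mem_filter.1 h
  obtain ⟨z, hz, e⟩ := mem_image.1 h2
  have e1 : z = x + c.1 := congrArg Prod.fst e
  have e2 : nq z = nq x + c.2 := congrArg Prod.snd e
  subst e1
  exact ⟨h1, hz, by linarith⟩

lemma hm_mem {Q : Finset (E d)} {c : E d × ℝ} {x : E d} (h : x ∈ Kc Q c) :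
    hm x ∈ LinearMap.ker (phi c) := by
  rw [mem_ker, (kc_spec h).2.2]
  simp only [hm, nq, add_dotProduct, dotProduct_add, dotProduct_comm x c.1]
  ring

lemma parallel {c c₀ : E d × ℝ} (h0 : c₀.1 ≠ 0)
    (h : LinearMap.ker (phi c) = LinearMap.ker (phi c₀)) : ∃ a : ℝ, c.1 = a • c₀.1 := by
  have hn : c₀.1 ⬝ᵥ c₀.1 ≠ 0 := fun e => h0 (dotProduct_self_eq_zero.1 e)
  refine ⟨(c.1 ⬝ᵥ c₀.1) / (c₀.1 ⬝ᵥ c₀.1), ?_⟩
  set a := (c.1 ⬝ᵥ c₀.1) / (c₀.1 ⬝ᵥ c₀.1) with ha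
  have h1 : c₀.1 ⬝ᵥ (c.1 - a • c₀.1) = 0 := by
    rw [dotProduct_sub, dotProduct_smul, smul_eq_mul, ha, dotProduct_comm c₀.1 c.1]
    field_simp
    ring
  have h2 : ((0 : ℝ), c.1 - a • c₀.1) ∈ LinearMap.ker (phi c) := by
    rw [h, mem_ker]
    simp only [h1]; ring
  rw [mem_ker] at h2
  have h3 : c.1 ⬝ᵥ (c.1 - a • c₀.1) = 0 := by simp only at h2; linarith
  have h4 : (c.1 - a • c₀.1) ⬝ᵥ (c.1 - a • c₀.1) = 0 := by
    rw [sub_dotProduct, smul_dotProduct, h1, h3]; simp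
  exact sub_eq_zero.1 (dotProduct_self_eq_zero.1 h4)

lemma on_line (x v : E d) (a : ℝ) : hm (x + a • v) ∈ sp2 hm x (x + v) := by
  refine Submodule.mem_span_pair.2 ⟨1 - a, a, ?_⟩
  refine Prod.ext (by simp [hm]) ?_
  simp only [hm, Prod.snd_add, Prod.smul_snd]
  module

end XL1

open XL1 in
theorem p_L1 (hHYP : S_HYP) (hDIM : S_DIM) : S_L1 := by
  intro d hd
  obtain ⟨K, h1⟩ := hHYP d (by omega)
  refine ⟨K, fun C => ?_⟩
  obtain ⟨C', hC', h1⟩ := h1 C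
  refine ⟨C', hC', fun g hg i s y hi hM hs hy => ?_⟩
  set S := {p ∈ chords g.Q | (cnt hm g.Q (sp2 hm p.1 p.2) : ℝ) < s ∧ y * g.M i ^ (d - 1) / g.N ≤
    #{z ∈ Kp g.Q s (lf p.2 - lf p.1) | g.l i z = g.l i p.1}} with hS
  let key : E d × E d → (E d × ℝ) × Lab d := fun p => (lf p.2 - lf p.1, g.l i p.1)
  let Y : (E d × ℝ) × Lab d → Finset (E d) := fun q => {z ∈ Kp g.Q s q.1 | g.l i z = q.2}
  have hY : ∀ q x, x ∈ Y q → x ∈ Kc g.Q q.1 ∧ (cnt hm g.Q (sp2 hm x (x + q.1.1)) : ℝ) < s ∧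
      g.l i x = q.2 := fun q x hx =>
    ⟨(mem_filter.1 (mem_filter.1 hx).1).1, (mem_filter.1 (mem_filter.1 hx).1).2,
      (mem_filter.1 hx).2⟩
  have hI : ∀ q ∈ S.image key, q.1.1 ≠ 0 ∧ y * g.M i ^ (d - 1) / g.N ≤ #(Y q) := by
    intro q hq
    obtain ⟨p, hp, rfl⟩ := mem_image.1 hq
    obtain ⟨a1, -, a3⟩ := mem_filter.1 hp
    exact ⟨fun e => (mem_filter.1 a1).2 (sub_eq_zero.1 e).symm, a3⟩
  have hinj : ∀ x, Set.InjOn (fun q : (E d × ℝ) × Lab d => x + q.1.1) {q | x ∈ Y q} := by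
    intro x q hq q' hq' e
    obtain ⟨a1, -, a2⟩ := hY q x hq
    obtain ⟨b1, -, b2⟩ := hY q' x hq'
    have e1 : q.1.1 = q'.1.1 := add_left_cancel e
    refine Prod.ext (Prod.ext e1 ?_) (a2.symm.trans b2)
    rw [(kc_spec a1).2.2, (kc_spec b1).2.2, e1]
  have key1 := h1 g hg _ (S.image key) (fun q => LinearMap.ker (phi q.1)) Y i y s hi hM hy
    (by linarith) (fun q hq => ⟨rank_ker (hI q hq).1, fun x hx => (kc_spec (hY q x hx).1).1,
      ⟨q.2, fun x hx => (hY q x hx).2.2⟩, fun x hx => hm_mem (hY q x hx).1, (hI q hq).2⟩) ?_ ?_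
  · refine le_trans ?_ key1
    rw [card_eq_sum_card_image key S]
    push_cast
    refine sum_le_sum fun q _ => Nat.cast_le.2 (card_le_card_of_injOn Prod.fst ?_ ?_)
    · intro p hp
      obtain ⟨hp1, rfl⟩ := mem_filter.1 (mem_coe.1 hp)
      obtain ⟨a1, a2, -⟩ := mem_filter.1 hp1
      have a1' : p ∈ g.Q ×ˢ g.Q ∧ p.1 ≠ p.2 := by simpa only [chords, mem_filter] using a1
      obtain ⟨b1, b2⟩ := mem_product.1 a1'.1
      refine mem_coe.2 (mem_filter.2 ⟨mem_filter.2 ⟨mem_filter.2 ⟨b1, ?_⟩, ?_⟩, rfl⟩)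
      · exact mem_image.2 ⟨p.2, b2, by simp [key]⟩
      · have : p.1 + (key p).1.1 = p.2 := by simp [key, lf]
        rwa [this]
    · intro p hp p' hp' e
      have a1 := (mem_filter.1 (mem_coe.1 hp)).2
      have a2 := (mem_filter.1 (mem_coe.1 hp')).2
      have a3 : p.2 - p.1 = p'.2 - p'.1 := congrArg (fun q => q.1.1) (a1.trans a2.symm)
      refine Prod.ext e ?_
      rw [e] at a3
      exact sub_left_injective a3
  · intro x F
    have gen : ∀ T : Finset ((E d × ℝ) × Lab d),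
        (∀ q ∈ T, q ∈ S.image key ∧ x ∈ Y q ∧ LinearMap.ker (phi q.1) = F) → (#T : ℝ) ≤ s := by
      intro T hT
      rcases T.eq_empty_or_nonempty with h | ⟨q₀, h⟩
      · rw [h]; simp; linarith
      obtain ⟨a1, a2, a3⟩ := hT q₀ h
      refine le_trans (Nat.cast_le.2 ?_) (hY q₀ x a2).2.1.le
      refine card_le_card_of_injOn (fun q => x + q.1.1) (fun q hq => ?_)
        ((hinj x).mono fun q hq => (hT q (mem_coe.1 hq)).2.1)
      obtain ⟨-, b2, b3⟩ := hT q (mem_coe.1 hq)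
      obtain ⟨a, ha⟩ := parallel (hI q₀ a1).1 (b3.trans a3.symm)
      refine mem_coe.2 (mem_filter.2 ⟨(kc_spec (hY q x b2).1).2.1, ?_⟩)
      simp only [ha]
      exact on_line x _ a
    exact gen _ fun q hq => by simpa only [mem_filter] using hq
  · intro k x F hk hF hx
    have f1 : finrank ℝ F ≠ 0 := by
      intro e
      rw [Submodule.finrank_eq_zero] at e
      rw [e, Submodule.mem_bot] at hx
      exact one_ne_zero (congrArg Prod.fst hx)
    obtain ⟨e, he⟩ := Nat.exists_eq_succ_of_ne_zero f1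
    have a1 := hg.flat _ _ ((hDIM d).2.1 e F x hx he)
    rw [show d - e = k + 1 by omega] at a1
    have a2 : g.L ^ 2 * g.N ^ (k + 1) ≤ s * (g.L ^ 2 * g.N ^ 2) ^ k := by
      have b1 := hg.L1
      have b2 := hg.N1
      have b3 : g.L ^ 2 ≤ g.L ^ (2 * k) := pow_le_pow_right₀ b1 (by omega)
      have b4 : g.N ^ (k + 1) ≤ g.N ^ (2 * k) := pow_le_pow_right₀ b2 (by omega)
      rw [mul_pow, ← pow_mul, ← pow_mul]
      exact (mul_le_mul b3 b4 (by positivity) (by positivity)).trans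
        (le_mul_of_one_le_left (by positivity) hs)
    refine le_trans (Nat.cast_le.2 ?_) (a1.trans a2)
    refine card_le_card_of_injOn (fun q => x + q.1.1) (fun q hq => ?_)
      ((hinj x).mono fun q hq => (mem_filter.1 (mem_coe.1 hq)).2.1)
    obtain ⟨-, b2, b3⟩ := mem_filter.1 (mem_coe.1 hq)
    refine mem_coe.2 (mem_filter.2 ⟨(kc_spec (hY q x b2).1).2.1, fun v hv => ?_⟩)
    have := (mem_ker _ _).1 (b3 hv)
    simp only [add_sub_cancel_left] at this ⊢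
    linarith

end Pool.Agent.P.MP_5f07f1_co.Z
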