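import Pool.Agent.P.MP_5f07f1_co.ZDefs

namespace Pool.Agent.P.MP_5f07f1_co.Z

open Finset MvPolynomial Pool.Agent.Lib.PolyPart Classical Module

namespace XLD

/-- The large fibres of a labelling carry half of the points. -/
lemma half {α β : Type} (Y : Finset α) (lab : α → β) (κ : ℝ) (hκ : 0 < κ)
    (h : (#(Y.image lab) : ℝ) ≤ κ) :
    (#Y : ℝ) ≤ 2 * ∑ b ∈ {b ∈ Y.image lab | (#Y : ℝ) / (2 * κ) ≤ #{y ∈ Y | lab y = b}},
      (#{y ∈ Y | lab y = b} : ℝ) := by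
  have h1 : (#Y : ℝ) = ∑ b ∈ Y.image lab, (#{y ∈ Y | lab y = b} : ℝ) := by
    exact_mod_cast card_eq_sum_card_image lab Y
  have h2 := sum_filter_add_sum_filter_not (Y.image lab)
    (fun b => (#Y : ℝ) / (2 * κ) ≤ #{y ∈ Y | lab y = b}) (fun b => (#{y ∈ Y | lab y = b} : ℝ))
  have h0 : (0 : ℝ) ≤ (#Y : ℝ) / (2 * κ) := by positivity
  have h3 : ∑ b ∈ {b ∈ Y.image lab | ¬ ((#Y : ℝ) / (2 * κ) ≤ #{y ∈ Y | lab y = b})},
      (#{y ∈ Y | lab y = b} : ℝ) ≤ κ * ((#Y : ℝ) / (2 * κ)) := by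
    refine (sum_le_card_nsmul _ _ ((#Y : ℝ) / (2 * κ)) ?_).trans ?_
    · intro b hb
      exact (not_le.mp (mem_filter.mp hb).2).le
    · rw [nsmul_eq_mul]
      refine mul_le_mul_of_nonneg_right (le_trans ?_ h) h0
      exact_mod_cast card_filter_le _ _
  have h4 : κ * ((#Y : ℝ) / (2 * κ)) = #Y / 2 := by field_simp
  linarith

end XLD

theorem p_LD (hA : S_DEC) : S_LD := by
  intro α V ι β _ _ _ f γ κ a m I U Y lab hγ hγ1 hκ ha hI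
  have hg : (0 : ℝ) < γ ^ m := pow_pos hγ m
  have key : ∀ p : ι × β, ∃ F : Submodule ℝ V, p.1 ∈ I →
      (#(Y p.1) : ℝ) / (2 * κ) ≤ #{y ∈ Y p.1 | lab y = p.2} →
      F ≤ U p.1 ∧ 1 ≤ finrank ℝ F ∧ ND γ f F {y ∈ {y ∈ Y p.1 | lab y = p.2} | f y ∈ F} ∧
        γ ^ m * #{y ∈ Y p.1 | lab y = p.2} ≤ #{y ∈ {y ∈ Y p.1 | lab y = p.2} | f y ∈ F} := by
    intro p
    by_cases hp : p.1 ∈ I ∧ (#(Y p.1) : ℝ) / (2 * κ) ≤ #{y ∈ Y p.1 | lab y = p.2}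
    · obtain ⟨h1, h2, -, h4⟩ := hI _ hp.1
      have hpos : (0 : ℝ) < #{y ∈ Y p.1 | lab y = p.2} :=
        lt_of_lt_of_le (div_pos (ha.trans_le h4) (by positivity)) hp.2
      have hne : ({y ∈ Y p.1 | lab y = p.2} : Finset α).Nonempty :=
        card_pos.mp (by exact_mod_cast hpos)
      obtain ⟨F, hF, hF1, hF2, hF3⟩ := hA α V f γ m (U p.1) _ hγ hγ1 hne
        (fun y hy => h2 y (mem_filter.mp hy).1) h1
      exact ⟨F, fun _ _ => ⟨hF, hF1, hF2, hF3⟩⟩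
    · exact ⟨⊥, fun h1 h2 => absurd ⟨h1, h2⟩ hp⟩
  choose F hF using key
  let B : ι → Finset β := fun i =>
    {b ∈ (Y i).image lab | (#(Y i) : ℝ) / (2 * κ) ≤ #{y ∈ Y i | lab y = b}}
  let J : Finset (ι × β) := {p ∈ I ×ˢ I.biUnion B | p.2 ∈ B p.1}
  have hJ : ∀ p : ι × β, p ∈ J ↔ p.1 ∈ I ∧ p.2 ∈ B p.1 := by
    intro p
    simp only [J, mem_filter, mem_product, mem_biUnion]
    exact ⟨fun h => ⟨h.1.1, h.2⟩, fun h => ⟨⟨h.1, p.1, h.1, h.2⟩, h.2⟩⟩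
  refine ⟨J, F, fun p => {y ∈ {y ∈ Y p.1 | lab y = p.2} | f y ∈ F p}, ?_, ?_⟩
  · intro p hp
    obtain ⟨hp1, hp2⟩ := (hJ p).mp hp
    have hb := (mem_filter.mp hp2).2
    obtain ⟨h1, h2, h3, h4⟩ := hF p hp1 hb
    refine ⟨hp1, (filter_subset _ _).trans (filter_subset _ _),
      fun y hy => (mem_filter.mp (mem_filter.mp hy).1).2, h1, h2, h3, le_trans ?_ h4⟩
    have h5 : a / (2 * κ) ≤ #{y ∈ Y p.1 | lab y = p.2} :=
      le_trans (div_le_div_of_nonneg_right (hI _ hp1).2.2.2 (by positivity)) hb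
    calc a * γ ^ m / (2 * κ) = γ ^ m * (a / (2 * κ)) := by ring
      _ ≤ _ := mul_le_mul_of_nonneg_left h5 hg.le
  · rw [sum_finset_product J I B hJ, mul_sum]
    refine sum_le_sum fun i hi => ?_
    refine (XLD.half (Y i) lab κ hκ (hI i hi).2.2.1).trans ?_
    rw [mul_sum, mul_sum]
    refine sum_le_sum fun b hb => ?_
    have h4 := (hF (i, b) hi (mem_filter.mp hb).2).2.2.2
    rw [div_mul_eq_mul_div, le_div_iff₀ hg]
    have h5 : γ ^ m * (#{y ∈ Y i | lab y = b} : ℝ) ≤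
        #{y ∈ {y ∈ Y i | lab y = b} | f y ∈ F (i, b)} := h4
    linarith

end Pool.Agent.P.MP_5f07f1_co.Z
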