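import Pool.Agent.P.MP_5f07f1_co.ZDefs

/-! One level of the tree from towers, with a constant that is polynomial in the complexity. -/

namespace Pool.Agent.P.MP_5f07f1_co.Z

open Finset MvPolynomial Pool.Agent.Lib.PolyPart Classical Module

namespace XLV

/-- Polynomially bounded functions. -/
def PB (f : ℕ → ℕ) : Prop := ∃ A : ℕ, ∀ c, f c ≤ (c + 2) ^ A

lemma PB.const (n : ℕ) : PB fun _ => n :=
  ⟨n, fun c => Nat.lt_two_pow_self.le.trans (Nat.pow_le_pow_left (by omega) _)⟩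

lemma PB.id : PB fun c => c := ⟨1, fun c => by simp⟩

lemma PB.mul {f g : ℕ → ℕ} (hf : PB f) (hg : PB g) : PB fun c => f c * g c := by
  obtain ⟨a, ha⟩ := hf
  obtain ⟨b, hb⟩ := hg
  exact ⟨a + b, fun c => by rw [pow_add]; exact Nat.mul_le_mul (ha c) (hb c)⟩

lemma PB.pow {f : ℕ → ℕ} (hf : PB f) (n : ℕ) : PB fun c => f c ^ n := by
  obtain ⟨a, ha⟩ := hf
  exact ⟨a * n, fun c => by rw [pow_mul]; exact Nat.pow_le_pow_left (ha c) _⟩

lemma PB.add {f g : ℕ → ℕ} (hf : PB f) (hg : PB g) : PB fun c => f c + g c := by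
  obtain ⟨a, ha⟩ := hf
  obtain ⟨b, hb⟩ := hg
  refine ⟨a + b + 1, fun c => ?_⟩
  have h1 : (c + 2) ^ a ≤ (c + 2) ^ (a + b) := Nat.pow_le_pow_right (by omega) (by omega)
  have h2 : (c + 2) ^ b ≤ (c + 2) ^ (a + b) := Nat.pow_le_pow_right (by omega) (by omega)
  have h3 : (c + 2) ^ (a + b) * 2 ≤ (c + 2) ^ (a + b) * (c + 2) :=
    Nat.mul_le_mul_left _ (by omega)
  have := ha c
  have := hb c
  show f c + g c ≤ _
  rw [pow_succ]
  omega

lemma zero_sub' (d j c : ℕ) (T : Tw d j c) (φ : MP d) (hφ : φ.totalDegree ≤ 2) :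
    ∃ ψ : MP j, ψ ≠ 0 ∧ ψ.totalDegree ≤ j * (c * (j + 2 + 1) ^ j) ∧
      ∀ x₀, (∃ w ∈ connectedComponentIn T.X x₀, eval w φ ≠ 0) →
      ∀ x ∈ connectedComponentIn T.X x₀, eval x φ = 0 → eval (T.yv x) ψ = 0 := by
  obtain ⟨q, hq0, hqd, hq⟩ := T.nice'.exists_curve φ 2 hφ
  refine ⟨q, hq0, hqd, ?_⟩
  rintro x₀ ⟨w, hw, hwφ⟩ x hx hxφ
  refine hq x ((T.van_iff x).2 (connectedComponentIn_subset _ _ hx).1) hxφ ?_
  rintro ⟨Ψ, N, hΨ, hN⟩
  refine hwφ (T.zero_of_near φ hx hw {u | eval u Ψ ≠ 0}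
    (isOpen_ne_fun (continuous_eval Ψ) continuous_const) hΨ fun u hu huV => ?_)
  have h1 := (T.van_iff u).2 huV _ hN
  rw [map_mul, map_pow] at h1
  exact eq_zero_of_pow_eq_zero ((mul_eq_zero.1 h1).resolve_right hu)

lemma count_dim' (hCA : S_CA) (d j : ℕ) : ∃ a : ℕ, ∀ (c : ℕ) (T : Tw d j c) (e : ℕ)
    (W : Set (E d)), IsDim e W → ∀ (Φ : MP d) (A : Finset (E d)), Apart (T.X ∩ NZ Φ) A →
    (∀ x ∈ A, x ∈ W) → #A ≤ (c + 2) ^ a * (Φ.totalDegree + 1) ^ e := by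
  induction j with
  | zero =>
    obtain ⟨κ, hκ⟩ := hCA d 0
    refine ⟨κ, fun c T e W _ Φ A hA _ => (hκ c T Φ A hA).trans ?_⟩
    exact Nat.mul_le_mul_left _ (Nat.pow_le_pow_right (Nat.succ_pos _) (Nat.zero_le _))
  | succ j ih =>
    obtain ⟨κ, hκ⟩ := hCA d (j + 1)
    obtain ⟨κ', hκ'⟩ := ih
    obtain ⟨a, ha⟩ : PB fun c => (c + 2) ^ κ + 2 * ((c + 1) * (2 + 1) + 2) ^ κ' :=
      ((PB.id.add (PB.const 2)).pow κ).add ((PB.const 2).mul
        ((((PB.id.add (PB.const 1)).mul (PB.const (2 + 1))).add (PB.const 2)).pow κ'))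
    refine ⟨a, fun c T e W hW Φ A hA hAW => ?_⟩
    refine le_trans ?_ (Nat.mul_le_mul_right _ (ha c))
    by_cases he : j + 1 ≤ e
    · refine (hκ c T Φ A hA).trans (Nat.mul_le_mul (Nat.le_add_right _ _) ?_)
      exact Nat.pow_le_pow_right (Nat.succ_pos _) he
    · have hle : e + 1 ≤ j + 1 := by omega
      obtain ⟨ψ, hψ0, hψd, hψ⟩ := hW (fun i => T.y (Fin.castLE hle i)) fun i => T.nice'.1 _
      have hr0 : rename (Fin.castLE hle) ψ ≠ 0 := fun h =>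
        hψ0 (rename_injective _ (Fin.castLE_injective hle) (h.trans (map_zero _).symm))
      obtain ⟨m, Ts, hm, hsub, hcov⟩ := T.descend 2 _ hr0 ((totalDegree_rename_le _ _).trans hψd)
      refine le_trans ?_ (Nat.mul_le_mul_right _ (Nat.le_add_left _ _))
      rw [mul_assoc]
      refine card_le_of_cover hm (fun i => (Ts i).X) A
        (fun x hx => hcov x (hA.1 x hx).1 ?_) fun i => hκ' _ (Ts i) e W hW Φ _ ?_ ?_
      · rw [eval_rename]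
        exact hψ x (hAW x hx)
      · refine hA.sub (Set.inter_subset_inter_left _ (hsub i)) (filter_subset _ _) fun x hx => ?_
        obtain ⟨hx1, hx2⟩ := mem_filter.1 hx
        exact ⟨hx2, (hA.1 x hx1).2⟩
      · exact fun x hx => hAW x (mem_filter.1 hx).1

lemma card_zero' (d c D : ℕ) (T : Tw d 1 c) (ψ : MP 1) (hψ : ψ ≠ 0) (hD : ψ.totalDegree ≤ D)
    (A : Finset (E d)) (hA : ∀ x ∈ A, x ∈ T.X ∧ eval (T.yv x) ψ = 0) :
    #A ≤ D * ((c + 1) * (D + 1)) := by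
  obtain ⟨m, Ts, hm, -, hcov⟩ := Tw.descend (j := 0) T D ψ hψ hD
  refine card_le_of_cover hm (fun i => (Ts i).X) A
    (fun x hx => hcov x (hA x hx).1 (hA x hx).2) fun i => (Ts i).nice'.card_le _ fun x hx => ?_
  exact ((Ts i).van_iff x).2 (mem_filter.1 hx).2.1

lemma core (d j c c' D₀ k₁ k₂ k₃ k₄ : ℕ)
    (hD₀ : ∀ (T : Tw d (j + 1) c) (φ : MP d), φ.totalDegree ≤ 2 →
      ∃ ψ : MP (j + 1), ψ ≠ 0 ∧ ψ.totalDegree ≤ D₀ ∧
      ∀ x₀, (∃ w ∈ connectedComponentIn T.X x₀, eval w φ ≠ 0) →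
      ∀ x ∈ connectedComponentIn T.X x₀, eval x φ = 0 → eval (T.yv x) ψ = 0)
    (hk₁ : ∀ (T : Tw d (j + 1) c) (Φ : MP d) (A : Finset (E d)), Apart (T.X ∩ NZ Φ) A →
      #A ≤ k₁ * (Φ.totalDegree + 1) ^ (j + 1))
    (hk₂ : ∀ (T : Tw d (j + 1) c) (ψ : MP (j + 1)), ψ ≠ 0 → ψ.totalDegree ≤ D₀ →
      ∀ (Φ : MP d) (A : Finset (E d)), Apart (T.X ∩ NZ Φ) A →
      (∀ x ∈ A, eval (T.yv x) ψ = 0) → #A ≤ k₂ * (Φ.totalDegree + 1) ^ j)
    (hk₃ : ∀ (T : Tw d (j + 1) c) (e : ℕ) (W : Set (E d)), IsDim e W →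
      ∀ (Φ : MP d) (A : Finset (E d)), Apart (T.X ∩ NZ Φ) A → (∀ x ∈ A, x ∈ W) →
      #A ≤ k₃ * (Φ.totalDegree + 1) ^ e)
    (hk₄ : ∀ (T : Tw d 1 c) (ψ : MP 1), ψ ≠ 0 → ψ.totalDegree ≤ D₀ →
      ∀ A : Finset (E d), (∀ x ∈ A, x ∈ T.X ∧ eval (T.yv x) ψ = 0) → #A ≤ k₄)
    (Δ D Λ : ℕ) (hD : 1 ≤ D)
    (hκ : ∀ e ≤ j + 1, ((c' + 1) * (k₁ + k₂) + k₃ + k₄) * (4 * Δ + 4) ^ e ≤ Λ * D ^ e)
    (Q : Finset (E d)) (l : E d → Lab d) (T : Lab d → Tw d (j + 1) c) (x₀ : Lab d → E d)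
    (G : Lab d → MP d) (hG : ∀ b, (G b).totalDegree ≤ Δ) (hC : ∀ b, Cov (T b).X (G b) c')
    (hQ : ∀ x ∈ Q, x ∈ connectedComponentIn (T (l x)).X (x₀ (l x)) ∧ eval x (G (l x)) ≠ 0) :
    Lvl (j + 1) D Λ Q l (fun x => connectedComponentIn ((T (l x)).X ∩ NZ (G (l x))) x :: l x)
      (fun x => connectedComponentIn (T (l x)).X (x₀ (l x))) := by
  have fin : ∀ {n k m e : ℕ}, n ≤ k * (m + 1) ^ e → k ≤ (c' + 1) * (k₁ + k₂) + k₃ + k₄ →
      m ≤ 4 * Δ + 3 → e ≤ j + 1 → n ≤ Λ * D ^ e := fun {n k m e} h1 h2 h3 h4 =>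
    h1.trans ((Nat.mul_le_mul h2 (Nat.pow_le_pow_left (by omega) _)).trans (hκ e h4))
  have hS : ∀ x ∈ Q, ∀ b, l x = b → x ∈ (T b).X ∩ NZ (G b) := fun x hx b hb => by
    subst hb
    exact ⟨connectedComponentIn_subset _ _ (hQ x hx).1, (hQ x hx).2⟩
  set l' : E d → Lab d :=
    fun x => connectedComponentIn ((T (l x)).X ∩ NZ (G (l x))) x :: l x with hl'
  have hl : ∀ b, ∀ z z', l z = b → l z' = b →
      z' ∈ connectedComponentIn ((T b).X ∩ NZ (G b)) z → l' z = l' z' := fun b z z' h h' hz => by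
    simp only [hl', h, h']
    rw [connectedComponentIn_eq hz]
  have hrep : ∀ b, ∀ A ⊆ Q, (∀ z ∈ A, l z = b) →
      ∃ B ⊆ A, Apart ((T b).X ∩ NZ (G b)) B ∧ #(A.image l') ≤ #B := fun b A hA hb => by
    obtain ⟨B, hB, hBA, hcard⟩ := exists_apart ((T b).X ∩ NZ (G b)) A id l'
      (fun z hz => hS z (hA hz) b (hb z hz)) fun z hz z' hz' h => hl b z z' (hb z hz) (hb z' hz') h
    refine ⟨B, fun x hx => ?_, hB, (card_image_inst _ _ A _).trans_le hcard⟩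
    obtain ⟨z, hz, rfl⟩ := hBA x hx
    exact hz
  have hjoint : ∀ (θ : RMap d) (b b' : Lab d), ∃ Φ : MP d, Φ.totalDegree ≤ 4 * Δ + 3 ∧
      ∀ A ⊆ Q, (∀ z ∈ A, l z = b ∧ eval z θ.den ≠ 0 ∧ θ.app z ∈ Q ∧ l (θ.app z) = b') →
      ∀ N, (∀ B ⊆ A, Apart ((T b).X ∩ NZ Φ) B → #B ≤ N) →
      #(A.image fun z => (l' z, l' (θ.app z))) ≤ c' * N := fun θ b b' => by
    obtain ⟨Φ, hΦ, h⟩ := joint_aux (T b).X (T b').X (G b) (G b') (hC b') θ
    refine ⟨Φ, by have := hG b; have := hG b'; omega, fun A hA hz N hN => ?_⟩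
    have := h (fun z => (l' z, l' (θ.app z))) A N
      (fun z hz' => ⟨hS z (hA hz') b (hz z hz').1, (hz z hz').2.1,
        hS _ (hz z hz').2.2.1 b' (hz z hz').2.2.2⟩)
      (fun z hz1 z' hz2 h1 h2 => Prod.ext (hl b z z' (hz z hz1).1 (hz z' hz2).1 h1)
        (hl b' _ _ (hz z hz1).2.2.2 (hz z' hz2).2.2.2 h2)) hN
    exact (card_image_inst _ _ A _).trans_le this
  refine ⟨fun x _ z _ h => (List.cons.inj h).2, fun x _ z _ h => by simp only [h],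
    fun x hx => (hQ x hx).1, fun φ hφ b A hA hz => ?_, fun e W hW b A hA hz => ?_,
    fun θ b b' A hA hz => ?_, fun θ φ hφ x hx hw b' A hA hz => ?_, fun h1 φ hφ x hx hw => ?_⟩
  · obtain ⟨ψ, hψ0, hψd, hψ⟩ := hD₀ (T b) φ hφ
    have h : ∀ z, ∃ w, z ∈ A → w ∈ connectedComponentIn ((T b).X ∩ NZ (G b)) z ∧
        eval ((T b).yv w) ψ = 0 := fun z => by
      by_cases hzA : z ∈ A
      swap
      · exact ⟨0, fun h => absurd h hzA⟩
      obtain ⟨hb, u, hu, huz, hs⟩ := hz z hzA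
      subst hb
      obtain ⟨e1, e2⟩ := List.cons.inj huz
      have hu' : u ∈ connectedComponentIn ((T (l z)).X ∩ NZ (G (l z))) z := by
        rw [← e1]; exact mem_connectedComponentIn (hS u hu _ rfl)
      obtain ⟨⟨w, hw, hw0⟩, w', hw', hw0'⟩ := exists_zero_of_sign
        isPreconnected_connectedComponentIn φ hu'
        (mem_connectedComponentIn (hS z (hA hzA) _ rfl)) hs
      have hsub : connectedComponentIn ((T (l z)).X ∩ NZ (G (l z))) z ⊆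
          connectedComponentIn (T (l z)).X (x₀ (l z)) := by
        rw [connectedComponentIn_eq (hQ z (hA hzA)).1]
        exact connectedComponentIn_mono _ Set.inter_subset_left
      exact ⟨w, fun _ => ⟨hw, hψ _ ⟨w', hsub hw', hw0'⟩ w (hsub hw) hw0⟩⟩
    choose w hw using h
    obtain ⟨B, hB, hBA, hcard⟩ := exists_apart ((T b).X ∩ NZ (G b)) A w l'
      (fun z hz' => connectedComponentIn_subset _ _ (hw z hz').1) fun z hz1 z' hz2 h => by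
        refine hl b z z' (hz z hz1).1 (hz z' hz2).1 ?_
        rw [connectedComponentIn_eq (hw z hz1).1, connectedComponentIn_eq h,
          ← connectedComponentIn_eq (hw z' hz2).1]
        exact mem_connectedComponentIn (hS z' (hA hz2) b (hz z' hz2).1)
    have := hk₂ (T b) ψ hψ0 hψd (G b) B hB fun x hx => by
      obtain ⟨z, hz', rfl⟩ := hBA x hx
      exact (hw z hz').2
    have hcard' : #(A.image l') ≤ #B := (card_image_inst _ _ A _).trans_le hcard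
    exact hcard'.trans (fin this (by nlinarith) (by have := hG b; omega) (by omega))
  · obtain ⟨B, hBA, hB, hcard⟩ := hrep b A hA fun z hz' => (hz z hz').1
    refine hcard.trans ?_
    by_cases he : e ≤ j + 1
    · exact fin (hk₃ (T b) e W hW (G b) B hB fun x hx => (hz x (hBA hx)).2) (by omega)
        (by have := hG b; omega) he
    · exact (fin (hk₁ (T b) (G b) B hB) (by nlinarith) (by have := hG b; omega) le_rfl).trans
        (Nat.mul_le_mul_left _ (Nat.pow_le_pow_right hD (by omega)))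
  · obtain ⟨Φ, hΦ, h⟩ := hjoint θ b b'
    have := h A hA hz _ fun B _ hB => hk₁ (T b) Φ B hB
    rw [← mul_assoc] at this
    exact fin this (by nlinarith) hΦ le_rfl
  · obtain ⟨Φ, hΦ, h⟩ := hjoint θ (l x) b'
    obtain ⟨ψ, hψ0, hψd, hψ⟩ := hD₀ (T (l x)) φ hφ
    have := h A hA (fun z hz' => ⟨(hz z hz').1, (hz z hz').2.2⟩) _ fun B hBA hB =>
      hk₂ (T (l x)) ψ hψ0 hψd Φ B hB fun z hz' => by
        refine hψ _ hw z ?_ (hz z (hBA hz')).2.1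
        rw [← (hz z (hBA hz')).1]
        exact (hQ z (hA (hBA hz'))).1
    rw [← mul_assoc] at this
    exact fin this (by nlinarith) hΦ (by omega)
  · obtain rfl : j = 0 := by omega
    obtain ⟨ψ, hψ0, hψd, hψ⟩ := hD₀ (T (l x)) φ hφ
    have := hk₄ (T (l x)) ψ hψ0 hψd {z ∈ Q | l z = l x ∧ eval z φ = 0} fun z hz => by
      obtain ⟨hzQ, hz1, hz2⟩ := mem_filter.1 hz
      refine ⟨(hS z hzQ _ hz1).1, hψ _ hw z ?_ hz2⟩
      rw [← hz1]
      exact (hQ z hzQ).1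
    have h0 := hκ 0 (by omega)
    simp only [pow_zero, mul_one] at h0
    omega

end XLV

open XLV in
theorem p_LV (hCA : S_CA) (hCH : S_CH) : S_LV := by
  intro d j hj
  obtain ⟨j, rfl⟩ : ∃ j', j = j' + 1 := ⟨j - 1, by omega⟩
  obtain ⟨a₁, h₁⟩ := hCA d (j + 1)
  obtain ⟨a₂, h₂⟩ := hCH d j
  obtain ⟨a₃, h₃⟩ := count_dim' hCA d (j + 1)
  set D₀ : ℕ → ℕ := fun c => (j + 1) * (c * (j + 1 + 2 + 1) ^ (j + 1)) with hD₀
  have p0 : PB D₀ := (PB.const _).mul (PB.id.mul (PB.const _))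
  have p1 : ∀ a, PB fun c => (c + 2) ^ a := fun a => (PB.id.add (PB.const 2)).pow a
  obtain ⟨a, ha⟩ : PB fun c => (c + 2) ^ a₁ + (c + D₀ c + 2) ^ a₂ + (c + 2) ^ a₃ +
      D₀ c * ((c + 1) * (D₀ c + 1)) :=
    (((p1 a₁).add (((PB.id.add p0).add (PB.const 2)).pow a₂)).add (p1 a₃)).add
      (p0.mul ((PB.id.add (PB.const 1)).mul (p0.add (PB.const 1))))
  refine ⟨a + 1, fun c c' Δ D Λ hD hκ Q l T x₀ G hG hC hQ => ?_⟩
  refine core d j c c' (D₀ c) ((c + 2) ^ a₁) ((c + D₀ c + 2) ^ a₂) ((c + 2) ^ a₃)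
    (D₀ c * ((c + 1) * (D₀ c + 1))) (zero_sub' d (j + 1) c) (h₁ c) (h₂ c (D₀ c)) (h₃ c)
    (card_zero' d c (D₀ c)) Δ D Λ hD (fun e he => le_trans (Nat.mul_le_mul_right _ ?_) (hκ e he))
    Q l T x₀ G hG hC hQ
  have h1 : (c + 2) ^ a₁ + (c + D₀ c + 2) ^ a₂ + (c + 2) ^ a₃ + D₀ c * ((c + 1) * (D₀ c + 1)) ≤
      (c + c' + 2) ^ a := (ha c).trans (Nat.pow_le_pow_left (by omega) _)
  generalize (c + 2) ^ a₁ = k₁, (c + D₀ c + 2) ^ a₂ = k₂, (c + 2) ^ a₃ = k₃,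
    D₀ c * ((c + 1) * (D₀ c + 1)) = k₄ at h1 ⊢
  calc (c' + 1) * (k₁ + k₂) + k₃ + k₄ ≤ (c' + 1) * (k₁ + k₂ + k₃ + k₄) := by nlinarith
    _ ≤ (c + c' + 2) * (c + c' + 2) ^ a := Nat.mul_le_mul (by omega) h1
    _ = (c + c' + 2) ^ (a + 1) := by ring

end Pool.Agent.P.MP_5f07f1_co.Z
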