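import Pool.Agent.P.MP_5f07f1_co.ZDefs

/-! The tree below a tower, with polynomial constants. -/

namespace Pool.Agent.P.MP_5f07f1_co.Z

open Finset MvPolynomial Pool.Agent.Lib.PolyPart Classical Module

namespace XMAIN

lemma bounds {c c' A₀ A₁ d j D₀ Λ₀ K M C : ℕ} (hD : D₀ ≤ (c + 2) ^ A₀) (hΛ : Λ₀ ≤ (c + 2) ^ A₀)
    (hc : c' ≤ (c + 2) ^ A₀) (hK : K ≤ (c + 2) ^ A₀) (hM : M ≤ (c' + 2) ^ A₁)
    (hC : C ≤ (c' + 2) ^ A₁) :
    M + D₀ ^ d + D₀ ^ (j + 1) + Λ₀ ≤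
        (c + 2) ^ ((A₀ + 2) * A₁ + A₀ * d + A₀ * (j + 1) + A₀ + 2) ∧
      K * C + 1 ≤ (c + 2) ^ ((A₀ + 2) * A₁ + A₀ * d + A₀ * (j + 1) + A₀ + 2) := by
  set y := c + 2 with hy
  have y2 : 2 ≤ y := by omega
  have y4 : 4 ≤ y ^ 2 := by nlinarith
  have y1 : ∀ a b, a ≤ b → y ^ a ≤ y ^ b := fun a b h => Nat.pow_le_pow_right (by omega) h
  have b1 : c' + 2 ≤ y ^ (A₀ + 2) := by
    have h1 : 1 ≤ y ^ A₀ := Nat.one_le_pow _ _ (by omega)
    have h2 := Nat.mul_le_mul_left (y ^ A₀) y4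
    rw [pow_add]
    omega
  have b2 : (c' + 2) ^ A₁ ≤ y ^ ((A₀ + 2) * A₁) := by
    rw [pow_mul]
    exact Nat.pow_le_pow_left b1 _
  have b3 : ∀ k, D₀ ^ k ≤ y ^ (A₀ * k) := fun k => by
    rw [pow_mul]
    exact Nat.pow_le_pow_left hD _
  set T := (A₀ + 2) * A₁ + A₀ * d + A₀ * (j + 1) + A₀ with hT
  have h1 := y1 ((A₀ + 2) * A₁) T (by omega)
  have h2 := y1 (A₀ * d) T (by omega)
  have h3 := y1 (A₀ * (j + 1)) T (by omega)
  have h4 := y1 A₀ T (by omega)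
  have h5 := Nat.mul_le_mul_left (y ^ T) y4
  have h6 := b3 d
  have h7 := b3 (j + 1)
  have h8 : K * C ≤ y ^ T :=
    calc K * C ≤ y ^ A₀ * y ^ ((A₀ + 2) * A₁) := Nat.mul_le_mul hK (hC.trans b2)
      _ = y ^ (A₀ + (A₀ + 2) * A₁) := (pow_add _ _ _).symm
      _ ≤ _ := y1 _ _ (by omega)
  have h9 : 1 ≤ y ^ T := Nat.one_le_pow _ _ (by omega)
  rw [pow_add y T 2]
  omega

end XMAIN

open BuildX in
theorem p_MAIN (hRND : S_RND) : S_MAIN := by
  intro d j η hη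
  induction j with
  | zero =>
    refine ⟨1, fun c => ⟨fun _ => 0, fun _ => 0, c + 1, 1, by simp, by simp,
      fun i h1 h2 => by omega, by omega,
      fun n B Q l₀ hS => ⟨Q, subset_rfl, _, _, _, _, RT.nil hS.size hS.top fun b => ?_, by simp⟩⟩⟩
    obtain ⟨T, x₀, hT⟩ := hS.tw
    refine ((T b).nice'.card_le _ fun x hx => ((T b).van_iff x).2 ?_).trans c.le_succ
    rw [← (mem_filter.1 hx).2]
    exact (connectedComponentIn_subset _ _ (hT x (mem_filter.1 hx).1)).1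
  | succ j ih =>
    obtain ⟨A₀, h0⟩ := hRND d j η hη
    obtain ⟨A₁, ih⟩ := ih
    refine ⟨(A₀ + 2) * A₁ + A₀ * d + A₀ * (j + 1) + A₀ + 2, fun c => ?_⟩
    obtain ⟨D₀, Λ₀, c', K, o1, o2, o3, o4, p1, p2, p3, hr⟩ := h0 c
    obtain ⟨D, Λ, M, C, o5, o6, hP, hM, hC⟩ := ih c'
    obtain ⟨w1, w2⟩ := XMAIN.bounds (d := d) (j := j) o1 o2 o3 o4 o5 o6
    refine ⟨Function.update D (j + 1) D₀, Function.update Λ (j + 1) Λ₀,
      M + D₀ ^ d + D₀ ^ (j + 1) + Λ₀, K * C + 1, w1, w2, fun i h1 h2 => ?_, by omega,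
      fun n B => ?_⟩
    · by_cases h : i = j + 1
      · subst h
        simp only [Function.update_self]
        exact ⟨p1, p2, p3, by omega, by omega⟩
      · simp only [Function.update_of_ne h]
        obtain ⟨q1, q2, q3, q4, q5⟩ := hP i h1 (by omega)
        exact ⟨q1, q2, q3, by omega, by omega⟩
    clear w1 w2
    induction hk : n - B using Nat.strong_induction_on generalizing B with
    | _ k ihk =>
    intro Q l₀ hS
    by_cases hB : B * D₀ ^ (j + 1) ≤ n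
    · rcases hr n B Q l₀ hS hB with ⟨Q₁, q1, q2, l₁, c₀, q3, q4⟩ | ⟨Q₁, q1, q2, q3⟩
      · have h2 : 2 ≤ D₀ ^ (j + 1) := p3.trans (Nat.le_self_pow (by omega) _)
        have h3 := Nat.mul_le_mul_left B h2
        have h4 := hS.pos
        obtain ⟨Q', r1, s, jj, l, core, r2, r3⟩ := ihk _ (by omega) (B * D₀ ^ (j + 1)) rfl Q₁ l₁ q4
        refine ⟨Q', r1.trans q1, s + 1, _, _, _, RT.cons (c₀ := c₀) (by simpa using r2) (by omega)
          (by simpa using q3.mono r1) (size_mono (r1.trans q1) hS.size), ?_⟩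
        rw [pow_succ, ← mul_assoc, mul_right_comm]
        omega
      · obtain ⟨Q', r1, s, jj, l, core, r2, r3⟩ := hC n B Q₁ l₀ q3
        refine ⟨Q', r1.trans q1, s, jj, l, core,
          r2.congr (fun i hi => Function.update_of_ne (by omega) _ _)
            (fun i hi => Function.update_of_ne (by omega) _ _) (by omega), ?_⟩
        calc #Q ≤ K * (C * 4 ^ s * #Q') := q2.trans (Nat.mul_le_mul_left _ r3)
          _ = K * C * 4 ^ s * #Q' := by ring
          _ ≤ _ := by gcongr; omega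
    · refine ⟨Q, subset_rfl, _, _, _, _, RT.nil hS.size hS.top fun b => ?_, ?_⟩
      · have h1 := (hS.size b).trans_lt (not_le.1 hB)
        rw [mul_comm B] at h1
        have := lt_of_mul_lt_mul_right h1 B.zero_le
        omega
      · rw [pow_zero, mul_one]
        exact Nat.le_mul_of_pos_left _ (by omega)

end Pool.Agent.P.MP_5f07f1_co.Z
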