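import Pool.Agent.P.MP_5f07f1_co.ZDefs

namespace Pool.Agent.P.MP_5f07f1_co.Z

open Finset MvPolynomial Pool.Agent.Lib.PolyPart Classical Module

namespace XMU

/-- One dyadic class. -/
lemma one {δ C u : ℝ} (b : ℕ) (hδ : 0 ≤ δ) (hC : 1 ≤ C) (hu : 1 ≤ u)
    (h : δ ^ 7 * (2 ^ b * u ^ 14) ≤ C) : δ ≤ C * (10 / 11) ^ b / u ^ 2 := by
  have hu0 : 0 < u := by linarith
  have h1 : ((11 / 10 : ℝ) ^ b) ^ 7 ≤ 2 ^ b := by
    rw [← pow_mul, mul_comm, pow_mul]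
    exact pow_le_pow_left₀ (by positivity) (by norm_num) b
  have h2 : (δ * (11 / 10) ^ b * u ^ 2) ^ 7 ≤ C ^ 7 := by
    have e : (δ * (11 / 10) ^ b * u ^ 2) ^ 7 = δ ^ 7 * (((11 / 10 : ℝ) ^ b) ^ 7 * u ^ 14) := by ring
    rw [e]
    calc δ ^ 7 * (((11 / 10 : ℝ) ^ b) ^ 7 * u ^ 14) ≤ δ ^ 7 * (2 ^ b * u ^ 14) := by gcongr
      _ ≤ C := h
      _ ≤ C ^ 7 := le_self_pow₀ hC (by norm_num)
  have h3 : δ * (11 / 10) ^ b * u ^ 2 ≤ C :=
    le_of_pow_le_pow_left₀ (by norm_num) (by linarith) h2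
  have h4 : ((11 / 10 : ℝ) ^ b) * (10 / 11) ^ b = 1 := by
    rw [← mul_pow]; norm_num
  rw [le_div_iff₀ (by positivity)]
  calc δ * u ^ 2 = δ * (11 / 10) ^ b * u ^ 2 * (10 / 11) ^ b := by
        rw [show δ * (11 / 10) ^ b * u ^ 2 * (10 / 11) ^ b =
          δ * u ^ 2 * ((11 / 10 : ℝ) ^ b * (10 / 11) ^ b) by ring, h4, mul_one]
    _ ≤ C * (10 / 11) ^ b := by gcongr

/-- The dyadic sum. -/
lemma tail {α : Type} (S : Finset α) (f : α → ℝ) {k T C u : ℝ} (hk : 0 < k) (hT : 0 < T)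
    (hC : 1 ≤ C) (hu : 1 ≤ u)
    (h : ∀ v : ℝ, 1 ≤ v → (#{x ∈ S | v * k ≤ f x ∧ f x < 2 * v * k} / T) ^ 7 * v ≤ C) :
    (#{x ∈ S | u ^ 14 * k ≤ f x} : ℝ) ≤ 11 * C * T / u ^ 2 := by
  have hu0 : 0 < u := by linarith
  have hu14 : 1 ≤ u ^ 14 := one_le_pow₀ hu
  have key : ∀ B : ℕ, (#{x ∈ S | u ^ 14 * k ≤ f x ∧ f x < 2 ^ B * u ^ 14 * k} : ℝ) ≤
      C * T / u ^ 2 * (11 - 11 * (10 / 11) ^ B) := by
    intro B
    induction B with
    | zero =>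
      have : ({x ∈ S | u ^ 14 * k ≤ f x ∧ f x < 2 ^ 0 * u ^ 14 * k} : Finset α) = ∅ := by
        refine filter_eq_empty_iff.2 fun x _ hx => ?_
        have h1 := hx.1
        have h2 := hx.2
        rw [pow_zero, one_mul] at h2
        linarith
      rw [this]; simp
    | succ B ih =>
      have hv : (1 : ℝ) ≤ 2 ^ B * u ^ 14 := one_le_mul_of_one_le_of_one_le (one_le_pow₀ (by norm_num)) hu14
      have h1 := one B (by positivity) hC hu (h _ hv)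
      rw [div_le_iff₀ hT] at h1
      have hsub : ({x ∈ S | u ^ 14 * k ≤ f x ∧ f x < 2 ^ (B + 1) * u ^ 14 * k} : Finset α) ⊆
          {x ∈ S | u ^ 14 * k ≤ f x ∧ f x < 2 ^ B * u ^ 14 * k} ∪
          {x ∈ S | 2 ^ B * u ^ 14 * k ≤ f x ∧ f x < 2 * (2 ^ B * u ^ 14) * k} := by
        intro x hx
        rw [mem_filter] at hx
        rw [mem_union, mem_filter, mem_filter]
        by_cases hc : f x < 2 ^ B * u ^ 14 * k
        · exact Or.inl ⟨hx.1, hx.2.1, hc⟩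
        · refine Or.inr ⟨hx.1, not_lt.1 hc, ?_⟩
          have h2 := hx.2.2
          rw [show (2 : ℝ) * (2 ^ B * u ^ 14) * k = 2 ^ (B + 1) * u ^ 14 * k by ring]
          exact h2
      have h3 : (#{x ∈ S | u ^ 14 * k ≤ f x ∧ f x < 2 ^ (B + 1) * u ^ 14 * k} : ℝ) ≤
          #{x ∈ S | u ^ 14 * k ≤ f x ∧ f x < 2 ^ B * u ^ 14 * k} +
          #{x ∈ S | 2 ^ B * u ^ 14 * k ≤ f x ∧ f x < 2 * (2 ^ B * u ^ 14) * k} := by
        exact_mod_cast (card_le_card hsub).trans (card_union_le _ _)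
      have e : C * T / u ^ 2 * (11 - 11 * (10 / 11) ^ (B + 1)) =
          C * T / u ^ 2 * (11 - 11 * (10 / 11) ^ B) + C * (10 / 11) ^ B / u ^ 2 * T := by
        rw [pow_succ]; ring
      rw [e]
      linarith
  obtain ⟨B, hB⟩ : ∃ B : ℕ, (∑ x ∈ S, |f x|) / k < 2 ^ B :=
    pow_unbounded_of_one_lt _ (by norm_num)
  rw [div_lt_iff₀ hk] at hB
  have hsub : ({x ∈ S | u ^ 14 * k ≤ f x} : Finset α) ⊆
      {x ∈ S | u ^ 14 * k ≤ f x ∧ f x < 2 ^ B * u ^ 14 * k} := by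
    intro x hx
    rw [mem_filter] at hx ⊢
    refine ⟨hx.1, hx.2, ?_⟩
    have h1 : |f x| ≤ ∑ x ∈ S, |f x| :=
      single_le_sum (f := fun x => |f x|) (fun _ _ => abs_nonneg _) hx.1
    have h2 : (2 : ℝ) ^ B * k ≤ 2 ^ B * u ^ 14 * k := by
      have : (2 : ℝ) ^ B * 1 * k ≤ 2 ^ B * u ^ 14 * k := by gcongr
      simpa using this
    linarith [le_abs_self (f x)]
  have h1 : (#{x ∈ S | u ^ 14 * k ≤ f x} : ℝ) ≤
      #{x ∈ S | u ^ 14 * k ≤ f x ∧ f x < 2 ^ B * u ^ 14 * k} := by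
    exact_mod_cast card_le_card hsub
  have h2 : C * T / u ^ 2 * (11 - 11 * (10 / 11) ^ B) ≤ C * T / u ^ 2 * 11 := by
    have : (0 : ℝ) ≤ 11 * (10 / 11) ^ B := by positivity
    have h0 : 0 ≤ C * T / u ^ 2 := by positivity
    exact mul_le_mul_of_nonneg_left (by linarith) h0
  calc _ ≤ _ := h1
    _ ≤ _ := key B
    _ ≤ _ := h2
    _ = 11 * C * T / u ^ 2 := by ring

end XMU

theorem p_MU (hMU1 : S_MU1) : S_MU := by
  intro d hd
  obtain ⟨K, hK⟩ := hMU1 d hd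
  refine ⟨K, fun C => ?_⟩
  obtain ⟨C', hC', h⟩ := hK C
  refine ⟨11 * C', by linarith, fun g hg u hu => ?_⟩
  have hN : 0 < g.N := lt_of_lt_of_le one_pos hg.N1
  exact XMU.tail (chords g.Q) (fun p => (mu g.Q p : ℝ)) (pow_pos hN _) (pow_pos hN _) hC' hu
    (h g (hg.mono le_rfl (by linarith)))

end Pool.Agent.P.MP_5f07f1_co.Z
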