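import Pool.Agent.P.MP_5f07f1_co.ZDefs
import Pool.Agent.P.MP_5f07f1_co.Flat

namespace Pool.Agent.P.MP_5f07f1_co.Z

open Finset MvPolynomial Pool.Agent.Lib.PolyPart Classical Module

namespace XMU1

variable {d : ℕ}

lemma nq_ne {Q : Finset (E d)} (hi : Set.InjOn nq (Q : Set (E d))) {p : E d × E d}
    (hp : p ∈ chords Q) : p.1 ∈ Q ∧ p.2 ∈ Q ∧ nq p.1 ≠ nq p.2 := by
  obtain ⟨h1, h2⟩ := mem_filter.1 hp
  obtain ⟨h3, h4⟩ := mem_product.1 h1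
  exact ⟨h3, h4, fun h => h2 (hi h3 h4 h)⟩

lemma mu_le {Q : Finset (E d)} (hi : Set.InjOn nq (Q : Set (E d))) (p : E d × E d) :
    mu Q p ≤ #Q := by
  refine card_le_card_of_injOn Prod.fst (fun q hq => (nq_ne hi (mem_filter.1 hq).1).1) ?_
  rintro ⟨x, y⟩ hq ⟨x', y'⟩ hq' (e : x = x')
  subst e
  obtain ⟨h1, h2⟩ := mem_filter.1 hq
  obtain ⟨h3, h4⟩ := mem_filter.1 hq'
  have a := (nq_ne hi h1).2.2
  have a' := (nq_ne hi h3).2.2
  have h5 := (dual_eq a a' (h2.trans h4.symm)).2.1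
  have h6 : lamOf x x y = 1 :=
    LiftX.lam_eq (y' := y) (fun e => a (by rw [e])) one_ne_zero (by simp) (by ring)
  rw [h6] at h5
  exact Prod.ext rfl (by simpa using h5.symm)

lemma chords_le (Q : Finset (E d)) : #(chords Q) ≤ #Q * #Q :=
  (card_filter_le _ _).trans (card_product _ _).le

/-- Fibres of `dual`. -/
lemma fib (Q : Finset (E d)) (W : Finset (E d)) (a : ℝ)
    (h : ∀ w ∈ W, ∃ p, dual p = w ∧ a ≤ mu Q p) :
    (#W : ℝ) * a ≤ #{p ∈ chords Q | dual p ∈ W} := by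
  have h1 := card_eq_sum_card_fiberwise (s := {p ∈ chords Q | dual p ∈ W}) (t := W) (f := dual)
    (fun p hp => (mem_filter.1 hp).2)
  rw [h1, Nat.cast_sum, ← nsmul_eq_mul, ← sum_const]
  refine sum_le_sum fun w hw => ?_
  obtain ⟨p, rfl, hp⟩ := h w hw
  refine hp.trans (Nat.cast_le.2 (card_le_card fun q hq => ?_))
  obtain ⟨h2, h3⟩ := mem_filter.1 hq
  exact mem_filter.2 ⟨mem_filter.2 ⟨h2, h3 ▸ hw⟩, h3⟩

/-- Chords whose bisector lies in a subspace of rank three. -/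
lemma plane {C K : ℕ} {C' : ℝ} {g : Dat d} (hg : Geo C K C' g) (U : Submodule ℝ (ℝ × E d))
    (hU : finrank ℝ U ≤ 3) (S : Finset (E d × E d))
    (hS : ∀ p ∈ S, p ∈ chords g.Q ∧ hm (dual p) ∈ U) :
    (#S : ℝ) ≤ g.N ^ d * (g.L ^ 2 * g.N ^ 3) := by
  have h1 := card_eq_sum_card_fiberwise (s := S) (t := g.Q) (f := Prod.fst)
    (fun p hp => (nq_ne hg.inj (hS p hp).1).1)
  have hL := hg.L1
  have hN := hg.N1
  refine le_trans ?_ (mul_le_mul_of_nonneg_right hg.card (by positivity))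
  rw [h1, Nat.cast_sum, ← nsmul_eq_mul, ← sum_const]
  refine sum_le_sum fun x _ => ?_
  have h2 : IsDim 3 {y : E d | y - x ∈ U.map (LinearMap.snd ℝ ℝ (E d))} :=
    isDim_dir fun _ => ⟨U.map (LinearMap.snd ℝ ℝ (E d)), (Submodule.finrank_map_le _ _).trans hU,
      fun a ha b hb => by
        have := Submodule.sub_mem (U.map (LinearMap.snd ℝ ℝ (E d))) (x := a - x) (y := b - x) ha hb
        rwa [sub_sub_sub_cancel_right] at this⟩
  refine le_trans (Nat.cast_le.2 ?_) (hg.flat 3 _ h2)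
  refine card_le_card_of_injOn Prod.snd (fun p hp => ?_) ?_
  · obtain ⟨h3, h4⟩ := mem_filter.1 hp
    obtain ⟨h5, h6⟩ := hS p h3
    obtain ⟨-, h7, h8⟩ := nq_ne hg.inj h5
    refine mem_coe.2 (mem_filter.2 ⟨h7, ?_⟩)
    have h9 : dual p ∈ U.map (LinearMap.snd ℝ ℝ (E d)) := ⟨_, h6, rfl⟩
    have h10 := Submodule.smul_mem _ ((nq p.2 - nq p.1) / 2) h9
    have h11 : nq p.2 - nq p.1 ≠ 0 := sub_ne_zero.2 h8.symm
    rw [dual, smul_smul, show (nq p.2 - nq p.1) / 2 * (2 / (nq p.2 - nq p.1)) = 1 by field_simp,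
      one_smul, h4] at h10
    exact h10
  · intro p hp q hq e
    exact Prod.ext ((mem_filter.1 hp).2.trans (mem_filter.1 hq).2.symm) e

lemma le_of_pow {x A : ℝ} {k : ℕ} (hk : k ≠ 0) (hA : 1 ≤ A) (h : x ^ k ≤ A) : x ≤ A := by
  by_contra hc
  have h1 : A < x := not_le.1 hc
  have h2 : x ≤ x ^ k := le_self_pow₀ (hA.trans h1.le) hk
  linarith

lemma caseA {δ v A T : ℝ} (h0 : 0 ≤ δ) (h1 : δ ≤ 1) (hv : 1 ≤ v) (hA : 1 ≤ A) (hT : T ≤ v)
    (h : δ ^ 13 * v ^ 3 ≤ A * T) : δ ^ 7 * v ≤ A := by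
  refine le_of_pow (k := 2) two_ne_zero hA ?_
  have h2 : δ ^ 14 ≤ δ ^ 13 := pow_le_pow_of_le_one h0 h1 (by norm_num)
  have h3 : (δ ^ 7 * v) ^ 2 * v ≤ A * v :=
    calc (δ ^ 7 * v) ^ 2 * v = δ ^ 14 * v ^ 3 := by ring
      _ ≤ δ ^ 13 * v ^ 3 := by gcongr
      _ ≤ A * T := h
      _ ≤ A * v := by gcongr
  exact le_of_mul_le_mul_right h3 (by linarith)

lemma caseB {δ v A : ℝ} (h0 : 0 ≤ δ) (h1 : δ ≤ 1) (hv : 1 ≤ v) (hA : 1 ≤ A)
    (h : δ ^ 13 * v ^ 3 ≤ A) : δ ^ 7 * v ≤ A := by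
  refine le_of_pow (k := 3) three_ne_zero hA ?_
  have h2 : δ ^ 21 ≤ δ ^ 13 := pow_le_pow_of_le_one h0 h1 (by norm_num)
  calc (δ ^ 7 * v) ^ 3 = δ ^ 21 * v ^ 3 := by ring
    _ ≤ δ ^ 13 * v ^ 3 := by gcongr
    _ ≤ A := h

lemma caseC {δ v B R : ℝ} (h0 : 0 ≤ δ) (hR : 1 ≤ R) (hv : v ≤ R ^ 20)
    (h : δ * R ^ 3 ≤ 2 * B) : δ ^ 7 * v ≤ 128 * B ^ 7 :=
  calc δ ^ 7 * v ≤ δ ^ 7 * R ^ 21 := by
        gcongr
        exact hv.trans (pow_le_pow_right₀ hR (by norm_num))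
    _ = (δ * R ^ 3) ^ 7 := by ring
    _ ≤ (2 * B) ^ 7 := by gcongr
    _ = 128 * B ^ 7 := by ring

lemma exists_two_pow {S : ℝ} (hS : 1 ≤ S) : ∃ a : ℕ, S ≤ 2 ^ a ∧ (2 : ℝ) ^ a ≤ 2 * S := by
  obtain ⟨n, h1, h2⟩ := exists_nat_pow_near hS (one_lt_two (α := ℝ))
  exact ⟨n + 1, h2.le, by rw [pow_succ]; linarith⟩

end XMU1

open XMU1

theorem p_MU1 (hRDQ : S_RDQ) (hSH : S_SH) (hDISC : S_DISC) (_hDIM : S_DIM) : S_MU1 := by
  intro d hd
  obtain ⟨K1, h1⟩ := hRDQ d hd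
  obtain ⟨Cs, hCs, hsh⟩ := hSH d (by omega)
  refine ⟨max K1 4, fun C => ?_⟩
  obtain ⟨C1, hC1, h1⟩ := h1 C
  have hCs' : (1 : ℝ) ≤ Cs := by exact_mod_cast hCs
  have hd0 : (0 : ℝ) ≤ d := Nat.cast_nonneg _
  have hC0 : (0 : ℝ) ≤ C := Nat.cast_nonneg _
  obtain ⟨A, hA⟩ : ∃ A : ℝ, A = 2 ^ 13 * C1 * (8 * (Cs * (1 + 2 * d * C))) ^ 3 := ⟨_, rfl⟩
  obtain ⟨B, hB⟩ : ∃ B : ℝ, B = (8 * Cs) ^ C := ⟨_, rfl⟩
  obtain ⟨A', hA'⟩ : ∃ A : ℝ, A = 2 ^ 13 * C1 * (8 * (Cs * (1 + 2 * d * (4 * C ^ 2)))) ^ 3 :=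
    ⟨_, rfl⟩
  have one_le : ∀ x : ℝ, 0 ≤ x → 1 ≤ 2 ^ 13 * C1 * (8 * (Cs * (1 + x))) ^ 3 := fun x hx =>
    one_le_mul_of_one_le_of_one_le (by linarith) (one_le_pow₀ (by nlinarith))
  have hA1 : 1 ≤ A := hA ▸ one_le _ (by positivity)
  have hA1' : 1 ≤ A' := hA' ▸ one_le _ (by positivity)
  have hB0 : 0 ≤ B := by rw [hB]; positivity
  have hB7 : 0 ≤ 128 * B ^ 7 := by positivity
  refine ⟨C1 + A + 128 * B ^ 7 + A', by linarith, fun g hg v hv => ?_⟩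
  have h1 := h1 g (hg.mono (le_max_left _ _) (by linarith))
  have hN := hg.N1
  have hL := hg.L1
  have hL4 : g.L ^ 4 ≤ g.N := hg.pow_le (le_max_right _ _)
  have hC : (1 : ℝ) ≤ C := by exact_mod_cast hg.one
  set N := g.N with hNdef
  set G := {p ∈ chords g.Q | v * N ^ (d - 2) ≤ mu g.Q p ∧ mu g.Q p < 2 * v * N ^ (d - 2)} with hG
  have hN0 : 0 < N := by linarith
  have hk : 1 ≤ N ^ (d - 2) := one_le_pow₀ hN
  have hvk : 1 ≤ v * N ^ (d - 2) := one_le_mul_of_one_le_of_one_le hv hk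
  have hGN : (#G : ℝ) ≤ N ^ (2 * d) := by
    have a1 : (#G : ℝ) ≤ #g.Q * #g.Q := by
      exact_mod_cast (card_filter_le _ _).trans (chords_le g.Q)
    have a2 := hg.card
    calc (#G : ℝ) ≤ #g.Q * #g.Q := a1
      _ ≤ N ^ d * N ^ d := by gcongr
      _ = N ^ (2 * d) := by ring
  have hN2 : 0 < N ^ (2 * d) := by positivity
  obtain ⟨δ, hδ⟩ : ∃ δ : ℝ, δ = #G / N ^ (2 * d) := ⟨_, rfl⟩
  rw [← hδ]
  have hδ0 : 0 ≤ δ := by rw [hδ]; positivity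
  have hδ1 : δ ≤ 1 := by rw [hδ]; exact (div_le_one hN2).2 hGN
  have hGδ : (#G : ℝ) = δ * N ^ (2 * d) := by rw [hδ]; field_simp
  rcases G.eq_empty_or_nonempty with hE | ⟨p₀, hp₀⟩
  · rw [hδ, hE]
    simp only [card_empty, Nat.cast_zero, zero_div]
    norm_num
    linarith
  have hdd : N ^ d = N ^ 2 * N ^ (d - 2) := by rw [← pow_add]; congr 1; omega
  have hv2 : v ≤ N ^ 2 := by
    have a1 : (mu g.Q p₀ : ℝ) ≤ #g.Q := by exact_mod_cast mu_le hg.inj p₀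
    have a2 := ((mem_filter.1 hp₀).2.1.trans a1).trans hg.card
    rw [hdd] at a2
    exact le_of_mul_le_mul_right a2 (by positivity)
  set W := G.image dual with hW
  have hWG : ∀ p ∈ chords g.Q, dual p ∈ W → p ∈ G := fun p hp h => by
    obtain ⟨q, hq, e⟩ := mem_image.1 h
    have : mu g.Q p = mu g.Q q := by simp only [mu, e]
    exact mem_filter.2 ⟨hp, this ▸ (mem_filter.1 hq).2⟩
  have hfib : ∀ W' ⊆ W, (#W' : ℝ) * (v * N ^ (d - 2)) ≤ #{p ∈ chords g.Q | dual p ∈ W'} :=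
    fun W' h => fib _ _ _ fun w hw => by
      obtain ⟨q, hq, e⟩ := mem_image.1 (h hw)
      exact ⟨q, e, (mem_filter.1 hq).2.1⟩
  obtain ⟨m, hm'⟩ : ∃ m : ℝ, m = #G / (v * N ^ (d - 2)) := ⟨_, rfl⟩
  have hWm : (#W : ℝ) ≤ m := by
    rw [hm', le_div_iff₀ (by linarith)]
    refine (hfib W Subset.rfl).trans (Nat.cast_le.2 (card_le_card fun p hp => ?_))
    exact hWG p (mem_filter.1 hp).1 (mem_filter.1 hp).2
  have hm1 : 1 ≤ m := le_trans (by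
    exact_mod_cast card_pos.2 ⟨_, mem_image_of_mem dual hp₀⟩) hWm
  have hmN : m ≤ N ^ (2 * d) := by
    rw [hm']
    exact (div_le_self (Nat.cast_nonneg _) hvk).trans hGN
  have hlog : Real.log m ≤ 2 * d * Real.log N := by
    have := Real.log_le_log (by linarith) hmN
    rwa [Real.log_pow, Nat.cast_mul, Nat.cast_ofNat] at this
  have hs : ∀ U : Submodule ℝ (ℝ × E d), finrank ℝ U ≤ 3 → (cnt hm W U : ℝ) ≤ g.L ^ 2 * N ^ 5 := by
    intro U hU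
    have a1 := hfib {z ∈ W | hm z ∈ U} (filter_subset _ _)
    have a2 := plane hg U hU {p ∈ chords g.Q | dual p ∈ {z ∈ W | hm z ∈ U}} fun p hp =>
      ⟨(mem_filter.1 hp).1, (mem_filter.1 (mem_filter.1 hp).2).2⟩
    have a3 : (cnt hm W U : ℝ) * N ^ (d - 2) ≤ g.L ^ 2 * N ^ 5 * N ^ (d - 2) :=
      calc (cnt hm W U : ℝ) * N ^ (d - 2) ≤ cnt hm W U * (v * N ^ (d - 2)) := by
            gcongr
            exact le_mul_of_one_le_left (by positivity) hv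
        _ ≤ N ^ d * (g.L ^ 2 * N ^ 3) := by
            refine le_trans (le_of_eq ?_) (a1.trans a2)
            rfl
        _ = g.L ^ 2 * N ^ 5 * N ^ (d - 2) := by rw [hdd]; ring
    exact le_of_mul_le_mul_right a3 (by positivity)
  rcases lt_or_ge m ((g.L ^ 2 * N ^ 5) ^ 2) with hms | hms
  · rw [hm', div_lt_iff₀ (by linarith), hGδ] at hms
    have a1 : δ * v * N ^ (2 * d) ≤ 1 * N ^ (2 * d) :=
      calc δ * v * N ^ (2 * d) = δ * N ^ (2 * d) * v := by ring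
        _ ≤ (g.L ^ 2 * N ^ 5) ^ 2 * (v * N ^ (d - 2)) * v := by gcongr
        _ = g.L ^ 4 * N ^ 10 * v * v * N ^ (d - 2) := by ring
        _ ≤ N * N ^ 10 * N ^ 2 * N ^ 2 * N ^ (d - 2) := by gcongr
        _ = N ^ (15 + (d - 2)) := by ring
        _ ≤ N ^ (2 * d) := pow_le_pow_right₀ hN (by omega)
        _ = 1 * N ^ (2 * d) := (one_mul _).symm
    have a2 := le_of_mul_le_mul_right a1 hN2
    have a3 : δ ^ 7 ≤ δ := pow_le_of_le_one hδ0 hδ1 (by norm_num)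
    have a4 : δ ^ 7 * v ≤ δ * v := by gcongr
    linarith
  have key : ∀ (P : MP d) (Lq : ℝ), 1 ≤ Lq →
      (#(Quad {w ∈ W | eval w P ≠ 0}) : ℝ) ≤ Lq * m ^ 3 →
      2 * (#{p ∈ chords g.Q | eval (dual p) P = 0} : ℝ) ≤ #G →
      δ ^ 13 * v ^ 3 ≤ 2 ^ 13 * C1 * (8 * Lq) ^ 3 := by
    intro P Lq hLq hq hz
    set G' := {p ∈ chords g.Q | dual p ∈ {w ∈ W | eval w P ≠ 0}} with hG'
    have a1 : (#G : ℝ) ≤ #G' + #{p ∈ chords g.Q | eval (dual p) P = 0} := by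
      have : G ⊆ G' ∪ {p ∈ chords g.Q | eval (dual p) P = 0} := fun p hp => by
        by_cases h : eval (dual p) P = 0
        · exact mem_union_right _ (mem_filter.2 ⟨(mem_filter.1 hp).1, h⟩)
        · exact mem_union_left _ (mem_filter.2 ⟨(mem_filter.1 hp).1,
            mem_filter.2 ⟨mem_image_of_mem _ hp, h⟩⟩)
      exact_mod_cast (card_le_card this).trans (card_union_le _ _)
    have a2 : (#G : ℝ) ≤ 2 * #G' := by linarith
    have a3 : m ≤ 2 * (#G' / (v * N ^ (d - 2))) := by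
      rw [hm', ← mul_div_assoc]
      gcongr
    have a4 : δ ≤ 2 * (#G' / N ^ (2 * d)) := by
      rw [hδ, ← mul_div_assoc]
      gcongr
    have a5 := h1 {w ∈ W | eval w P ≠ 0} v (8 * Lq) hv hv2 (by linarith)
      (fun p hp h => (mem_filter.1 (hWG p hp (mem_filter.1 h).1)).2.2.le) (hq.trans (by
        calc Lq * m ^ 3 ≤ Lq * (2 * (#G' / (v * N ^ (d - 2)))) ^ 3 := by gcongr
          _ = 8 * Lq * (#G' / (v * N ^ (d - 2))) ^ 3 := by ring))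
    calc δ ^ 13 * v ^ 3 ≤ (2 * (#G' / N ^ (2 * d))) ^ 13 * v ^ 3 := by gcongr
      _ = 2 ^ 13 * ((#G' / N ^ (2 * d)) ^ 13 * v ^ 3) := by ring
      _ ≤ 2 ^ 13 * (C1 * (8 * Lq) ^ 3) := by gcongr
      _ = _ := by ring
  obtain ⟨S, hS⟩ : ∃ S : ℝ, S = N ^ (1 / (4 * C ^ 2) : ℝ) := ⟨_, rfl⟩
  obtain ⟨T, hT⟩ : ∃ T : ℝ, T = N ^ (1 / C : ℝ) := ⟨_, rfl⟩
  have hS1 : 1 ≤ S := hS ▸ Real.one_le_rpow hN (by positivity)
  have hT1 : 1 ≤ T := hT ▸ Real.one_le_rpow hN (by positivity)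
  have hST : (S ^ C) ^ 4 = T := by
    rw [hS, hT, ← pow_mul, ← Real.rpow_natCast, ← Real.rpow_mul hN0.le]
    congr 1
    push_cast
    field_simp
  have hlS : Real.log N ≤ 4 * C ^ 2 * S := by
    have := Real.log_le_rpow_div hN0.le (ε := 1 / (4 * C ^ 2)) (by positivity)
    rw [← hS] at this
    refine this.trans (le_of_eq ?_)
    field_simp
  have hlT : Real.log N ≤ C * T := by
    have := Real.log_le_rpow_div hN0.le (ε := 1 / C) (by positivity)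
    rw [← hT] at this
    refine this.trans (le_of_eq ?_)
    field_simp
  have hm3 : 0 ≤ m ^ 3 := by positivity
  rcases lt_or_ge (T ^ 5) v with hvT | hvT
  · obtain ⟨P, -, -, hP, hq⟩ := hsh W 0 m _ hWm hm1 hs hms
    have a1 : 1 + Real.log m / 2 ^ 0 ≤ (1 + 2 * d * C) * T := by
      have : 2 * d * Real.log N ≤ 2 * d * (C * T) := by gcongr
      rw [pow_zero, div_one]
      nlinarith
    have a2 := key P (Cs * ((1 + 2 * d * C) * T))
      (one_le_mul_of_one_le_of_one_le hCs' (one_le_mul_of_one_le_of_one_le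
        (le_add_of_nonneg_right (by positivity)) hT1))
      (hq.trans (by gcongr)) (by rw [hP rfl]; simp)
    have a3 := caseA hδ0 hδ1 hv hA1 (T := T ^ 3)
      ((pow_le_pow_right₀ hT1 (by norm_num)).trans hvT.le) (a2.trans (le_of_eq (by rw [hA]; ring)))
    linarith
  obtain ⟨a, ha1, ha2⟩ := exists_two_pow hS1
  obtain ⟨P, hP0, hP, -, hq⟩ := hsh W a m _ hWm hm1 hs hms
  have hz := hDISC d C _ _ g (by omega) hg P hP0
  have hR1 : 1 ≤ S ^ C := one_le_pow₀ hS1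
  have hz' : (#{p ∈ chords g.Q | eval (dual p) P = 0} : ℝ) * (S ^ C) ^ 3 ≤ B * N ^ (2 * d) := by
    have a1 : (P.totalDegree : ℝ) ≤ Cs * 2 ^ a := by exact_mod_cast hP
    have a2 : 3 * (P.totalDegree : ℝ) + 2 ≤ 8 * Cs * S := by
      have b1 : (Cs : ℝ) * 2 ^ a ≤ Cs * (2 * S) := by gcongr
      have b2 : 1 ≤ Cs * S := one_le_mul_of_one_le_of_one_le hCs' hS1
      nlinarith
    rw [← hT, ← hST, le_div_iff₀ (by positivity)] at hz
    have a3 : (#{p ∈ chords g.Q | eval (dual p) P = 0} : ℝ) * (S ^ C) ^ 3 * S ^ C ≤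
        B * N ^ (2 * d) * S ^ C :=
      calc _ = (#{p ∈ chords g.Q | eval (dual p) P = 0} : ℝ) * (S ^ C) ^ 4 := by ring
        _ ≤ (3 * (P.totalDegree : ℝ) + 2) ^ C * N ^ (2 * d) := hz
        _ ≤ (8 * Cs * S) ^ C * N ^ (2 * d) := by gcongr
        _ = B * N ^ (2 * d) * S ^ C := by rw [hB, mul_pow]; ring
    exact le_of_mul_le_mul_right a3 (by positivity)
  rcases le_total (δ * (S ^ C) ^ 3) (2 * B) with hc | hc
  · have := caseC hδ0 hR1 (v := v) (by rw [← hST, ← pow_mul] at hvT; exact hvT) hc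
    linarith
  have a1 : 1 + Real.log m / 2 ^ a ≤ 1 + 2 * d * (4 * C ^ 2) := by
    have b1 : 2 * d * Real.log N ≤ 2 * d * (4 * C ^ 2 * 2 ^ a) := by
      gcongr
      exact hlS.trans (by gcongr)
    have b2 : Real.log m / 2 ^ a ≤ 2 * d * (4 * C ^ 2) := by
      rw [div_le_iff₀ (by positivity)]
      linarith
    linarith
  have a2 := key P (Cs * (1 + 2 * d * (4 * C ^ 2)))
    (one_le_mul_of_one_le_of_one_le hCs' (le_add_of_nonneg_right (by positivity)))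
    (hq.trans (by gcongr)) (by
      have b1 : 2 * (#{p ∈ chords g.Q | eval (dual p) P = 0} : ℝ) * (S ^ C) ^ 3 ≤
          #G * (S ^ C) ^ 3 :=
        calc _ = 2 * ((#{p ∈ chords g.Q | eval (dual p) P = 0} : ℝ) * (S ^ C) ^ 3) := by ring
          _ ≤ 2 * (B * N ^ (2 * d)) := by gcongr
          _ = 2 * B * N ^ (2 * d) := by ring
          _ ≤ δ * (S ^ C) ^ 3 * N ^ (2 * d) := by gcongr
          _ = #G * (S ^ C) ^ 3 := by rw [hGδ]; ring
      exact le_of_mul_le_mul_right b1 (by positivity))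
  have a3 := caseB hδ0 hδ1 hv hA1' (a2.trans (le_of_eq hA'.symm))
  linarith

end Pool.Agent.P.MP_5f07f1_co.Z
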