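import Pool.Agent.P.MP_5f07f1_co.ZDefs

/-! Pairs on rich lines. -/

namespace Pool.Agent.P.MP_5f07f1_co.Z

open Finset MvPolynomial Pool.Agent.Lib.PolyPart Classical Module

namespace XPAIR

lemma tele {s : ℝ} (hs : 0 < s) (n : ℕ) :
    ∑ k ∈ range n, 1 / (((k : ℝ) + 1 + s) / 2) ^ 2 ≤ 4 / s - 4 / (n + s) := by
  induction n with
  | zero => simp
  | succ n ih =>
    rw [sum_range_succ]
    have h0 : (0 : ℝ) < n + s := by positivity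
    have h1 : 1 / (((n : ℝ) + 1 + s) / 2) ^ 2 ≤ 4 / (n + s) - 4 / (n + 1 + s) := by
      rw [div_sub_div _ _ h0.ne' (by positivity), div_le_div_iff₀ (by positivity) (by positivity)]
      nlinarith
    push_cast
    linarith

lemma rank2 {α V : Type} [AddCommGroup V] [Module ℝ V] {f : α → V} {A : Finset α} (h : NP f A)
    {x y : α} (hx : x ∈ A) (hy : y ∈ A) (hxy : x ≠ y) : finrank ℝ (sp2 f x y) = 2 := by
  have h1 : LinearIndependent ℝ ![f x, f y] :=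
    (LinearIndependent.pair_iff' (h.1 x hx)).2 fun a e => hxy (h.2 x hx y hy a e.symm).symm
  have := finrank_span_eq_card h1
  rwa [Matrix.range_cons, Matrix.range_cons, Matrix.range_empty, Set.union_empty,
    Set.singleton_union] at this

lemma sq_eq {c n : ℕ} (h : c ≤ n) :
    (c : ℝ) ^ 2 = ∑ k ∈ range n, if k + 1 ≤ c then (c : ℝ) else 0 := by
  have : {k ∈ range n | k + 1 ≤ c} = range c := by
    ext k
    simp only [mem_filter, mem_range]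
    omega
  rw [← sum_filter, this, sum_const, card_range, nsmul_eq_mul, sq]

end XPAIR

open XPAIR in
theorem p_PAIR (hST : S_ST) : S_PAIR := by
  obtain ⟨C, hC, hST⟩ := hST
  refine ⟨4 * C, by linarith, fun α V _ _ _ f A σ s a hA hσ hs ha => ?_⟩
  have a0 : 0 ≤ a := le_trans (Nat.cast_nonneg _) (ha ⊥ (by simp))
  have σ0 : 0 ≤ σ := le_trans (Nat.cast_nonneg _) hσ
  generalize hP : {p ∈ A ×ˢ A | p.1 ≠ p.2 ∧ s ≤ cnt f A (sp2 f p.1 p.2)} = P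
  have mP : ∀ p ∈ P, p.1 ∈ A ∧ p.2 ∈ A ∧ p.1 ≠ p.2 ∧ s ≤ cnt f A (sp2 f p.1 p.2) := fun p hp => by
    rw [← hP, mem_filter, mem_product] at hp
    exact ⟨hp.1.1, hp.1.2, hp.2⟩
  let Y : Submodule ℝ V → Finset α := fun U => {z ∈ A | f z ∈ U}
  let 𝓛 := P.image fun p => sp2 f p.1 p.2
  have m1 : ∀ p ∈ P, p.1 ∈ Y (sp2 f p.1 p.2) ∧ p.2 ∈ Y (sp2 f p.1 p.2) := fun p hp =>
    ⟨mem_filter.2 ⟨(mP p hp).1, Submodule.subset_span (by simp)⟩,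
      mem_filter.2 ⟨(mP p hp).2.1, Submodule.subset_span (by simp)⟩⟩
  have mL : ∀ U ∈ 𝓛, finrank ℝ U = 2 ∧ 2 ≤ #(Y U) ∧ s ≤ #(Y U) := fun U hU => by
    obtain ⟨p, hp, rfl⟩ := mem_image.1 hU
    obtain ⟨h1, h2, h3, h4⟩ := mP p hp
    exact ⟨rank2 hA h1 h2 h3, one_lt_card.2 ⟨_, (m1 p hp).1, _, (m1 p hp).2, h3⟩, h4⟩
  have h1 : #P ≤ ∑ U ∈ 𝓛, #(Y U) ^ 2 := by
    rw [card_eq_sum_card_image (fun p : α × α => sp2 f p.1 p.2) P]
    refine sum_le_sum fun U _ => ?_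
    rw [sq, ← card_product]
    refine card_le_card fun p hp => ?_
    obtain ⟨hq, rfl⟩ := mem_filter.1 hp
    exact mem_product.2 (m1 p hq)
  have h2 : ∀ k : ℕ, ∑ U ∈ 𝓛, (if k + 1 ≤ #(Y U) then (#(Y U) : ℝ) else 0) ≤
      C * σ ^ 2 * (1 / (((k : ℝ) + 1 + s) / 2) ^ 2) + C * σ := fun k => by
    rw [← sum_filter]
    refine (hST α V f A _ Y σ (((k : ℝ) + 1 + s) / 2) hA hσ (by positivity) fun U hU => ?_).trans
      (le_of_eq (by ring))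
    obtain ⟨hU, hk⟩ := mem_filter.1 hU
    obtain ⟨b1, b2, b3⟩ := mL U hU
    have : (k : ℝ) + 1 ≤ #(Y U) := by exact_mod_cast hk
    exact ⟨b1, filter_subset _ _, fun y hy => (mem_filter.1 hy).2, b2, by linarith⟩
  have h3 := tele hs ⌊a⌋₊
  have h4 : (0 : ℝ) ≤ 4 / (⌊a⌋₊ + s) := by positivity
  have h5 := Nat.floor_le a0
  calc (#P : ℝ) ≤ ∑ U ∈ 𝓛, (#(Y U) : ℝ) ^ 2 := by exact_mod_cast h1
    _ = ∑ U ∈ 𝓛, ∑ k ∈ range ⌊a⌋₊, if k + 1 ≤ #(Y U) then (#(Y U) : ℝ) else 0 :=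
      sum_congr rfl fun U hU => sq_eq (Nat.le_floor (ha U (mL U hU).1.le))
    _ ≤ ∑ k ∈ range ⌊a⌋₊, (C * σ ^ 2 * (1 / (((k : ℝ) + 1 + s) / 2) ^ 2) + C * σ) := by
      rw [sum_comm]
      exact sum_le_sum fun k _ => h2 k
    _ = C * σ ^ 2 * ∑ k ∈ range ⌊a⌋₊, 1 / (((k : ℝ) + 1 + s) / 2) ^ 2 + ⌊a⌋₊ * (C * σ) := by
      rw [sum_add_distrib, mul_sum, sum_const, card_range, nsmul_eq_mul]
    _ ≤ C * σ ^ 2 * (4 / s) + 4 * a * (C * σ) := by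
      gcongr <;> linarith
    _ = _ := by ring

end Pool.Agent.P.MP_5f07f1_co.Z
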