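import Pool.Agent.P.MP_5f07f1_co.ZDefs

/-! One polynomial partition with sharp degree and sharp crossing numbers. -/

namespace Pool.Agent.P.MP_5f07f1_co.Z

open Finset MvPolynomial Pool.Agent.Lib.PolyPart Classical Module

namespace XPART

/-- The factors have constant sign on a component of the complement of the zero set. -/
lemma sign_const {d k : ℕ} (h : Fin k → MP d) (z : E d) :
    ∃ σ : Fin k → Bool, ∀ x ∈ connectedComponentIn (NZ (∏ i, h i)) z,
      ∀ i, 0 < sg (σ i) * eval x (h i) := by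
  set S := NZ (∏ i, h i) with hS
  have h0 : ∀ x ∈ S, ∀ i, eval x (h i) ≠ 0 := fun x hx i => by
    rw [hS, NZ, Set.mem_ofPred_eq, map_prod] at hx
    exact prod_ne_zero_iff.1 hx i (mem_univ _)
  refine ⟨fun i => decide (0 < eval z (h i)), fun x hx i => ?_⟩
  have hz : z ∈ S := connectedComponentIn_nonempty_iff.1 ⟨x, hx⟩
  have hc : Continuous fun x : E d => eval x (h i) := continuous_eval _
  have h1 : ∀ w ∈ connectedComponentIn S z, eval w (h i) ≠ 0 := fun w hw =>
    h0 w (connectedComponentIn_subset _ _ hw) i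
  by_cases e : 0 < eval z (h i)
  · simp only [e, decide_true, sg_true, one_mul]
    exact isPreconnected_connectedComponentIn.lt_of_ne hc.continuousOn h1
      ⟨z, mem_connectedComponentIn hz, e⟩ hx
  · simp only [e, decide_false, sg_false, neg_mul, one_mul, Left.neg_pos_iff]
    exact isPreconnected_connectedComponentIn.gt_of_ne hc.continuousOn h1
      ⟨z, mem_connectedComponentIn hz, lt_of_le_of_ne (not_lt.1 e) (h0 z hz i)⟩ hx

/-- Crossing numbers in the whole space. -/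
lemma cross (d : ℕ) : ∃ κ : ℕ, 1 ≤ κ ∧ ∀ (e : ℕ) (S : Set (E d)), IsDim e S → ∀ (G : MP d)
    (b D : ℕ), 1 ≤ b → 1 ≤ D → G.totalDegree + 1 ≤ b * D → ∀ B : Finset (E d), Apart (NZ G) B →
    (∀ x ∈ B, x ∈ S) → #B ≤ κ * b ^ d * D ^ e := by
  obtain ⟨T, hT⟩ := Tw.exists_root d
  obtain ⟨κ, hκ⟩ := count_dim d d 1
  obtain ⟨κ', hκ'⟩ := count_all d d 1
  refine ⟨κ + κ' + 1, by omega, fun e S hS G b D hb hD hG B hB hBS => ?_⟩
  have hB' : Apart (T.X ∩ NZ G) B := by rwa [hT, Set.univ_inter]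
  rcases le_total e d with he | he
  · calc #B ≤ κ * (G.totalDegree + 1) ^ e := hκ T e S hS G B hB' hBS
      _ ≤ (κ + κ' + 1) * (b * D) ^ e := by gcongr; omega
      _ = (κ + κ' + 1) * b ^ e * D ^ e := by rw [mul_pow, mul_assoc]
      _ ≤ _ := by gcongr
  · calc #B ≤ κ' * (G.totalDegree + 1) ^ d := hκ' T G B hB'
      _ ≤ (κ + κ' + 1) * (b * D) ^ d := by gcongr; omega
      _ = (κ + κ' + 1) * b ^ d * D ^ d := by rw [mul_pow, mul_assoc]
      _ ≤ _ := by gcongr

end XPART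

theorem p_PART (hSP : S_SP) (_hDIM : S_DIM) : S_PART := by
  intro d hd
  obtain ⟨κ, hκ1, hκ⟩ := XPART.cross d
  have hb : 1 ≤ 2 * d ^ 2 + 1 := by omega
  refine ⟨κ * (2 * d ^ 2 + 1) ^ d, le_mul_of_le_of_one_le hκ1 (Nat.one_le_pow _ _ hb),
    fun m W => ?_⟩
  obtain ⟨h, h0, hdeg, hσ⟩ := hSP (E d) d m (fun x => x) W hd
  have hD : 1 ≤ 2 ^ m := Nat.one_le_two_pow
  have hG : (∏ i, h i).totalDegree ≤ 2 * d ^ 2 * 2 ^ m := (totalDegree_finsetProd _ _).trans hdeg
  refine ⟨∏ i, h i, prod_ne_zero_iff.2 fun i _ => h0 i, hG.trans (Nat.mul_le_mul_right _ ?_),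
    fun x => connectedComponentIn (NZ (∏ i, h i)) x,
    fun W' hW' hnz => ⟨fun b => ?_, fun e S hS A hA hAS => ?_⟩⟩
  · exact le_mul_of_one_le_of_le hκ1 ((Nat.le_succ _).trans (Nat.le_self_pow (by omega) _))
  · rcases Finset.eq_empty_or_nonempty
      {x ∈ W' | connectedComponentIn (NZ (∏ i, h i)) x = b} with e | ⟨z, hz⟩
    · rw [e]
      simp
    obtain ⟨σ, hs⟩ := XPART.sign_const h z
    have key : #{x ∈ W' | connectedComponentIn (NZ (∏ i, h i)) x = b} * (2 ^ m) ^ d ≤ #W := by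
      rw [← pow_mul, mul_comm]
      refine le_trans (Nat.mul_le_mul_left _ (card_le_card fun x hx => ?_)) (hσ σ)
      obtain ⟨x1, x2⟩ := mem_filter.1 hx
      refine mem_filter.2 ⟨hW' x1, hs x ?_⟩
      rw [(mem_filter.1 hz).2, ← x2]
      exact mem_connectedComponentIn (hnz x x1)
    exact_mod_cast key
  · obtain ⟨B, hB, hBA, hc⟩ := exists_apart (NZ (∏ i, h i)) A (fun x => x)
      (fun x => connectedComponentIn (NZ (∏ i, h i)) x) (fun z hz => hnz z (hA hz))
      fun z _ z' _ e => connectedComponentIn_eq e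
    refine ((card_image_inst _ _ _ _).trans_le hc).trans
      (hκ e S hS _ _ _ hb hD ?_ B hB fun x hx => ?_)
    · rw [add_mul, one_mul]
      omega
    · obtain ⟨z, hz, rfl⟩ := hBA x hx
      exact hAS _ hz

end Pool.Agent.P.MP_5f07f1_co.Z
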