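import Pool.Agent.P.MP_5f07f1_co.ZDefs

/-! Pencils, nondegenerate parts, moments from tails. -/

namespace Pool.Agent.P.MP_5f07f1_co.Z

open Finset MvPolynomial Pool.Agent.Lib.PolyPart Classical Module

theorem p_PEN : S_PEN := by
  intro α V _ _ _ f A k F 𝒰 Y σ a hσ ha hU
  have s0 : 0 ≤ σ := (Nat.cast_nonneg _).trans hσ
  induction k generalizing F 𝒰 with
  | zero =>
    rw [pow_zero]
    have h : ∀ U ∈ 𝒰, F = U := fun U hu =>
      Submodule.eq_of_le_of_finrank_eq (hU U hu).1 (hU U hu).2.1.symm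
    exact Nat.cast_le_one.2 (card_le_one.2 fun U hu U' hu' => (h U hu).symm.trans (h U' hu'))
  | succ k ih =>
    have h1 : ∀ U ∈ 𝒰, a / 2 ≤ (#{y ∈ A | y ∈ Y U ∧ f y ∉ F} : ℝ) := fun U hu => by
      obtain ⟨k1, k2, k3, k4, k5⟩ := hU U hu
      have e1 := k4.2 F (lt_of_le_of_ne k1 fun e => by rw [e] at k2; omega)
      have e2 : (#{y ∈ Y U | f y ∈ F} : ℝ) + #{y ∈ Y U | f y ∉ F} = #(Y U) := by
        exact_mod_cast card_filter_add_card_filter_not _
      have e3 : (#{y ∈ Y U | f y ∉ F} : ℝ) ≤ #{y ∈ A | y ∈ Y U ∧ f y ∉ F} :=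
        Nat.cast_le.2 (card_le_card fun y hy =>
          mem_filter.2 ⟨k3 (mem_filter.1 hy).1, mem_filter.1 hy⟩)
      linarith
    have h2 : ∀ y ∈ A, (#{U ∈ 𝒰 | y ∈ Y U ∧ f y ∉ F} : ℝ) ≤ (2 * σ / a) ^ k := fun y _ =>
      ih (F ⊔ Submodule.span ℝ {f y}) _ fun U hu => by
        obtain ⟨hu, e1, e2⟩ := mem_filter.1 hu
        obtain ⟨k1, k2, k3, k4, k5⟩ := hU U hu
        refine ⟨sup_le k1 ((Submodule.span_singleton_le_iff_mem _ _).2 (k4.1 y e1)), ?_, k3, k4, k5⟩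
        rw [Submodule.finrank_sup_span_singleton e2]
        omega
    have h3 : (∑ U ∈ 𝒰, (#{y ∈ A | y ∈ Y U ∧ f y ∉ F} : ℝ)) =
        ∑ y ∈ A, (#{U ∈ 𝒰 | y ∈ Y U ∧ f y ∉ F} : ℝ) := by
      simp only [card_filter]
      push_cast
      exact sum_comm
    have h4 := card_nsmul_le_sum _ _ _ h1
    have h5 := sum_le_card_nsmul _ _ _ h2
    rw [nsmul_eq_mul] at h4 h5
    have h6 := (h4.trans (h3.le.trans h5)).trans (mul_le_mul_of_nonneg_right hσ (by positivity))
    rw [pow_succ', div_mul_eq_mul_div, le_div_iff₀ ha]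
    linarith

theorem p_DEC : S_DEC := by
  intro α V _ _ _ f γ m U Y h0 h1 hY hf hm
  induction m generalizing U Y with
  | zero =>
    obtain ⟨y, hy⟩ := hY
    have e := (hf y hy).1
    rw [Submodule.finrank_eq_zero.1 (Nat.le_zero.1 hm), Submodule.mem_bot] at e
    exact absurd e (hf y hy).2
  | succ m ih =>
    by_cases h : ND γ f U Y
    · have e : {y ∈ Y | f y ∈ U} = Y := filter_true_of_mem h.1
      refine ⟨U, le_rfl, Submodule.one_le_finrank_iff.2 fun k => ?_, by rwa [e], ?_⟩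
      · obtain ⟨y, hy⟩ := hY
        exact (hf y hy).2 ((Submodule.mem_bot ℝ).1 (k ▸ (hf y hy).1))
      · rw [e]
        exact mul_le_of_le_one_left (Nat.cast_nonneg _) (pow_le_one₀ h0.le h1)
    · obtain ⟨U', k1, k2⟩ : ∃ U' < U, γ * #Y < (#{y ∈ Y | f y ∈ U'} : ℝ) := by
        by_contra k
        exact h ⟨fun y hy => (hf y hy).1, fun U' hU => not_lt.1 fun e => k ⟨U', hU, e⟩⟩
      have k3 : (0 : ℝ) < #{y ∈ Y | f y ∈ U'} :=
        (mul_nonneg h0.le (Nat.cast_nonneg _)).trans_lt k2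
      have k4 := Submodule.finrank_lt_finrank_of_lt k1
      obtain ⟨F, a1, a2, a3, a4⟩ := ih U' {y ∈ Y | f y ∈ U'} (card_pos.1 (Nat.cast_pos.1 k3))
        (fun y hy => ⟨(mem_filter.1 hy).2, (hf y (mem_filter.1 hy).1).2⟩) (by omega)
      have e : {y ∈ {y ∈ Y | f y ∈ U'} | f y ∈ F} = {y ∈ Y | f y ∈ F} := by
        rw [filter_filter]
        exact filter_congr fun y _ => and_iff_right_of_imp fun k => a1 k
      rw [e] at a3 a4
      refine ⟨F, a1.trans k1.le, a2, a3, le_trans ?_ a4⟩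
      rw [pow_succ, mul_assoc]
      exact mul_le_mul_of_nonneg_left k2.le (by positivity)

theorem p_LAYER : S_LAYER := by
  intro α p S f b B hb hf hS h
  have B0 : 0 ≤ B := (Nat.cast_nonneg _).trans hS
  have key : ∀ n : ℕ, (∑ x ∈ S with f x < 2 ^ n * b, f x ^ p) ≤
      B * b ^ p * (1 + 2 ^ p * (2 - 2 / 2 ^ n)) := by
    intro n
    induction n with
    | zero =>
      have e := sum_le_card_nsmul {x ∈ S | f x < 2 ^ 0 * b} (fun x => f x ^ p) (b ^ p) fun x hx =>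
        pow_le_pow_left₀ (hf x (mem_filter.1 hx).1) (by simpa using (mem_filter.1 hx).2.le) p
      rw [nsmul_eq_mul] at e
      refine e.trans ((mul_le_mul_of_nonneg_right
        ((Nat.cast_le.2 (card_filter_le _ _)).trans hS) (by positivity)).trans (le_of_eq ?_))
      norm_num
    | succ n ih =>
      rw [← sum_filter_add_sum_filter_not _ fun x => f x < 2 ^ n * b]
      have e1 : (∑ x ∈ {x ∈ S | f x < 2 ^ (n + 1) * b} with f x < 2 ^ n * b, f x ^ p) ≤
          ∑ x ∈ S with f x < 2 ^ n * b, f x ^ p :=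
        sum_le_sum_of_subset_of_nonneg (filter_subset_filter _ (filter_subset _ _))
          fun x hx _ => pow_nonneg (hf x (mem_filter.1 hx).1) p
      have e2 := sum_le_card_nsmul {x ∈ {x ∈ S | f x < 2 ^ (n + 1) * b} | ¬ f x < 2 ^ n * b}
        (fun x => f x ^ p) ((2 ^ (n + 1) * b) ^ p) fun x hx =>
        pow_le_pow_left₀ (hf x (mem_filter.1 (mem_filter.1 hx).1).1)
          (mem_filter.1 (mem_filter.1 hx).1).2.le p
      rw [nsmul_eq_mul] at e2
      have e3 : (#{x ∈ {x ∈ S | f x < 2 ^ (n + 1) * b} | ¬ f x < 2 ^ n * b} : ℝ) ≤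
          B / (2 ^ n) ^ (p + 1) :=
        (Nat.cast_le.2 (card_le_card fun x hx => mem_filter.2
          ⟨(mem_filter.1 (mem_filter.1 hx).1).1, not_lt.1 (mem_filter.1 hx).2⟩)).trans
          (h _ (one_le_pow₀ one_le_two))
      refine (add_le_add (e1.trans ih) (e2.trans
        (mul_le_mul_of_nonneg_right e3 (by positivity)))).trans (le_of_eq ?_)
      rw [pow_succ (2 : ℝ) n, mul_pow, mul_pow, pow_succ]
      field_simp
      ring
  obtain ⟨n, hn⟩ := pow_unbounded_of_one_lt ((∑ x ∈ S, f x) / b) (one_lt_two (α := ℝ))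
  have e : {x ∈ S | f x < 2 ^ n * b} = S := filter_true_of_mem fun x hx =>
    (single_le_sum hf hx).trans_lt ((div_lt_iff₀ hb).1 hn)
  have k := key n
  rw [e] at k
  refine k.trans ?_
  have e1 : (1 : ℝ) ≤ 2 ^ p := one_le_pow₀ one_le_two
  have e2 : (0 : ℝ) ≤ 2 ^ p * (2 / 2 ^ n) := by positivity
  rw [mul_comm, mul_assoc]
  refine mul_le_mul_of_nonneg_right ?_ (by positivity)
  rw [pow_add]
  linarith

end Pool.Agent.P.MP_5f07f1_co.Z
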