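import Pool.Agent.P.MP_5f07f1_co.ZDefs
import Pool.Agent.P.MP_5f07f1_co.Pack

/-! The energy package from a given tree. -/

namespace Pool.Agent.P.MP_5f07f1_co.Z

open Finset MvPolynomial Pool.Agent.Lib.PolyPart Classical Module

theorem p_PK : S_PK := by
  intro d g c η hd hη hg hc h1 h2 h3 P H R' R₀ n u hP hn hn1 hH hR' hA hu hR₀ hRn
  obtain ⟨Q, hQP, D, Λ, M, C0, s, j, l, core, hMH, hCH, hM, hp, h, hPQ, hBS⟩ := hA
  have hM' : (1 : ℝ) ≤ M := by exact_mod_cast hM
  have hC0 : (0 : ℝ) ≤ C0 := by positivity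
  set K : ℝ := 2 + 768 * M ^ 4 * (M + 2) + 24 * M ^ 2 + 2 * M * (M + 2) with hK
  have hK0 : 0 ≤ K := by positivity
  have hCM : (0 : ℝ) ≤ C0 * M := by positivity
  have hH5 : ∀ k ≤ 5, H ^ k ≤ H ^ 5 := fun k hk => pow_le_pow_right₀ hH hk
  have hMk : ∀ k ≤ 5, (M : ℝ) ^ k ≤ H ^ 5 := fun k hk =>
    (pow_le_pow_left₀ (by linarith) hMH k).trans (hH5 k hk)
  have b0 : 1 ≤ H ^ 5 := one_le_pow₀ hH
  have b1 : K ≤ 3000 * H ^ 5 := by
    have a1 := hMk 5 le_rfl
    have a2 := hMk 4 (by norm_num)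
    have a3 := hMk 2 (by norm_num)
    have a4 := hMk 1 (by norm_num)
    rw [hK]; nlinarith
  have b2 : (C0 : ℝ) * M ≤ 3000 * H ^ 5 := by
    have a1 : (C0 : ℝ) * M ≤ H ^ 2 := by rw [sq]; gcongr
    linarith [hH5 2 (by norm_num)]
  have b3 : (C0 : ℝ) ≤ 3000 * H ^ 5 := by
    have := hH5 1 (by norm_num)
    rw [pow_one] at this; linarith
  have b4 : (M : ℝ) ≤ 3000 * H ^ 5 := by
    have := hMk 1 (by norm_num)
    rw [pow_one] at this; linarith
  subst hn
  have hn1' : 1 ≤ #P := by exact_mod_cast hn1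
  obtain ⟨own, ho, hEn⟩ := pk_energy hη.le hp hM h hn1' (card_le_card hQP)
    (hP.mono (by exact_mod_cast hQP)) hg hc h1 h2 h3
  set ν := Real.log (#P : ℝ) with hν
  set w := Real.exp (η * ν) with hw
  have hν0 : 0 ≤ ν := Real.log_natCast_nonneg _
  have hw1 : 1 ≤ w := Real.one_le_exp (by positivity)
  have hnν : (#P : ℝ) = Real.exp ν := (Real.exp_log (by linarith)).symm
  have hu4 : u = 3000 * H ^ 5 * w ^ 4 := by
    rw [hu, Real.rpow_def_of_pos (by linarith), hw, ← Real.exp_nat_mul]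
    congr 2; push_cast; ring
  have hw2 : w ^ 2 ≤ w ^ 4 := pow_le_pow_right₀ hw1 (by norm_num)
  have hw14 : w ≤ w ^ 4 := le_self_pow₀ hw1 (by norm_num)
  have hw4 : 0 ≤ w ^ 4 := by positivity
  have u1 : C0 * w ≤ u := by rw [hu4]; exact mul_le_mul (by linarith) hw14 (by linarith) (by linarith)
  have u2 : C0 * M * w ^ 2 ≤ u := by
    rw [hu4]; exact mul_le_mul (by linarith) hw2 (by positivity) (by linarith)
  have u3 : M * w ≤ u := by rw [hu4]; exact mul_le_mul (by linarith) hw14 (by linarith) (by linarith)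
  have u4 : K * w ^ 4 ≤ u := by rw [hu4]; exact mul_le_mul_of_nonneg_right (by linarith) hw4
  have u6 : (M : ℝ) ≤ u := le_trans (by nlinarith) u3
  have u5 : w ≤ u := le_trans (by nlinarith) u3
  have hu0 : 0 < u := by linarith
  have f1 : (#P : ℝ) ≤ C0 * w * #Q := by
    have a : (#P : ℝ) ≤ C0 * 4 ^ s * #Q := by exact_mod_cast hPQ
    have b : (4 : ℝ) ^ s ≤ w := by
      refine le_trans ?_ (pk_lam hη.le hp h (T := range s) subset_rfl)
      calc (4 : ℝ) ^ s = ∏ _k ∈ range s, (4 : ℝ) := by simp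
        _ ≤ _ := prod_le_prod (fun _ _ => by norm_num) fun k hk => by
            have hk' := mem_range.1 hk
            exact_mod_cast (hp _ (h.pos k hk').1 (h.pos k hk').2).1
    exact a.trans (mul_le_mul_of_nonneg_right (mul_le_mul_of_nonneg_left b hC0)
      (Nat.cast_nonneg _))
  have hcells : ∀ i ≤ s, (#(Q.image (l i)) : ℝ) ≤ w * Real.exp (pkb D j i) := fun i hi =>
    le_trans (by exact_mod_cast h.cells hi) (pk_prod hη.le hp h (range_subset_range.2 hi) j)
  have hBR : ∀ i ≤ s, Real.exp (pkb D j i) ≤ Real.exp (pkr D j i) ^ d := fun i hi => by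
    rw [← Real.exp_nat_mul]; exact Real.exp_le_exp.2 (pk_rb h hi).2
  have f0 : (#P : ℝ) ≤ u * Real.exp (pkb D j s) := by
    have a : (#Q : ℝ) ≤ M * #(Q.image (l s)) := by
      exact_mod_cast card_le_mul_card_image Q M fun b _ => h.bot b
    calc (#P : ℝ) ≤ C0 * w * (M * (w * Real.exp (pkb D j s))) := by
          refine f1.trans (mul_le_mul_of_nonneg_left (a.trans ?_) (by positivity))
          gcongr
          exact hcells s le_rfl
      _ = C0 * M * w ^ 2 * Real.exp (pkb D j s) := by ring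
      _ ≤ _ := by gcongr
  have f2 : (#P : ℝ) ≤ u * Real.exp (pkr D j s) ^ d := f0.trans (by gcongr; exact hBR s le_rfl)
  have f4 : (#P : ℝ) ≤ u * R' * Real.exp (pkr D j s) ^ (d - 1) := by
    have e : ((∏ k ∈ range s, D (j k) : ℕ) : ℝ) = Real.exp (pkr D j s) := by
      have := pk_pow hp h (T := range s) subset_rfl fun _ => 1
      simpa [pkr] using this
    rw [pk_B hp h le_rfl, e] at hBS
    rw [mul_assoc]
    exact f0.trans (by gcongr)
  have f3 : R₀ ≤ Real.exp (pkr D j s) :=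
    le_of_pow_le_pow_left₀ (by omega) (Real.exp_pos _).le
      (le_of_mul_le_mul_left (hRn.trans f2) hu0)
  have hex : ∃ i, R₀ ≤ Real.exp (pkr D j i) := ⟨s, f3⟩
  have hrs : Nat.find hex ≤ s := Nat.find_min' hex f3
  have hr1 := Nat.find_spec hex
  have hr2 : Real.exp (pkr D j (Nat.find hex)) ≤ M * R₀ := by
    rcases e : Nat.find hex with _ | m
    · simp only [pkr, range_zero, sum_empty, Real.exp_zero]; nlinarith
    · have a := Nat.find_min hex (m := m) (by omega)
      have b : (D (j m) : ℝ) ≤ M := by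
        have := pk_DM hp h (k := m) (m := 1) (by omega) hd
        rw [pow_one] at this; exact_mod_cast this
      rw [pkr_succ, Real.exp_add, pk_exp hp h (by omega), mul_comm]
      exact mul_le_mul b (not_le.1 a).le (Real.exp_pos _).le (by linarith)
  set r := Nat.find hex with hr
  have hbr : pkb D j r ≤ ν := (pkb_mono D j hrs).trans (pk_top hp h)
  have hσB : Real.exp (ν - pkb D j r) * Real.exp (pkb D j r) = #P := by
    rw [← Real.exp_add, hnν]; congr 1; ring
  refine ⟨Q, hQP, l r, own, Real.exp (pkr D j r), Real.exp (ν - pkb D j r),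
    Real.exp (pkr D j s), f1.trans (mul_le_mul_of_nonneg_right u1 (Nat.cast_nonneg _)), hr1,
    hr2.trans (by gcongr),
    Real.exp_le_exp.2 (pkr_mono D j hrs), Real.one_le_exp (by linarith), pk_size hp h hn1' hrs,
    ?_, ?_, fun φ hφ A hA hz => ?_, ho, (hEn r hrs).trans ?_, fun W hW => ?_, f4⟩
  · rw [← hσB]; gcongr; exact hBR r hrs
  · calc _ ≤ w * Real.exp (pkb D j r) * Real.exp (ν - pkb D j r) := by
          gcongr; exact hcells r hrs
      _ = w * #P := by rw [← hσB]; ring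
      _ ≤ _ := mul_le_mul_of_nonneg_right u5 (Nat.cast_nonneg _)
  · refine (h.sepM hrs φ hφ A hA hz).trans
      ((pk_prod hη.le hp h (range_subset_range.2 hrs) fun k => j k - 1).trans ?_)
    have e : ∑ k ∈ range r, ((j k - 1 : ℕ) : ℝ) * pkx D j k = pkb D j r - pkr D j r := by
      unfold pkb pkr
      rw [← sum_sub_distrib]
      refine sum_congr rfl fun k hk => ?_
      rw [Nat.cast_sub (h.pos k (by simp at hk; omega)).1]; push_cast; ring
    rw [e, Real.exp_sub (pkb D j r)]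
    calc _ ≤ u * (Real.exp (pkb D j r) / Real.exp (pkr D j r)) :=
          mul_le_mul_of_nonneg_right u5 (by positivity)
      _ = _ := by rw [← hσB]; field_simp
  · rw [← Real.exp_sub, ← Real.exp_mul, ← Real.exp_mul, mul_assoc (u * _), ← Real.exp_add,
      mul_comm (2 - g), mul_comm c]
    exact mul_le_mul_of_nonneg_right (mul_le_mul_of_nonneg_right u4 (Nat.cast_nonneg _))
      (Real.exp_pos _).le
  · have a : (#{z ∈ Q | z ∈ W} : ℝ) ≤ M * ((∏ k ∈ range s, Λ (j k) * D (j k) : ℕ) : ℝ) := by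
      exact_mod_cast h.line hW
    calc _ ≤ M * (w * Real.exp (pkr D j s)) :=
          a.trans (by gcongr; exact pk_prod1 hη.le hp h subset_rfl)
      _ = M * w * Real.exp (pkr D j s) := by ring
      _ ≤ _ := by gcongr

end Pool.Agent.P.MP_5f07f1_co.Z
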