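import Pool.Agent.P.MP_5f07f1_co.ZDefs

/-! Points and planes. -/

namespace Pool.Agent.P.MP_5f07f1_co.Z

open Finset MvPolynomial Pool.Agent.Lib.PolyPart Classical Module

theorem p_PP (hETW : S_ETW) : S_PP := by
  obtain ⟨γ, C, hγ, hγ2, hC, h⟩ := hETW 1
  have hγi : 0 < 1 / γ := by positivity
  refine ⟨C + 1 / γ, by linarith, fun α V _ _ _ f A 𝒰 z a k hNP hA h𝒰 ha hk hU => ?_⟩
  have hz : 0 ≤ z := (Nat.cast_nonneg _).trans hA
  set Y : Submodule ℝ V → Finset α := fun U => {x ∈ A | f x ∈ U} with hY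
  set P : Submodule ℝ V → Prop := fun U => ND γ f U (Y U) ∧ a ≤ #(Y U) with hP
  have h1 : (∑ U ∈ 𝒰.filter P, (#(Y U) : ℝ)) ≤
      C * 1 * (z ^ (1 + 2) / a ^ (1 + 2) + z ^ (1 + 1) / a ^ 1) := by
    refine h 1 le_rfl α V (Submodule ℝ V) f A (𝒰.filter P) (fun U => U) Y z a 1 hNP hA ha
      zero_le_one (fun U hU' => ?_) fun x F => ?_
    · obtain ⟨hU1, hU2⟩ := mem_filter.1 hU'
      exact ⟨(hU U hU1).1, filter_subset _ _, hU2.1, hU2.2⟩
    · refine Nat.cast_le_one.2 (card_le_one.2 fun U hU1 U' hU2 => ?_)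
      exact (mem_filter.1 hU1).2.2.trans (mem_filter.1 hU2).2.2.symm
  have h2 : ∀ U ∈ 𝒰.filter (fun U => ¬ P U), (#(Y U) : ℝ) ≤ a + 1 / γ * k := fun U hU' => by
    obtain ⟨hU1, hU2⟩ := mem_filter.1 hU'
    have hk' : 0 ≤ 1 / γ * k := by positivity
    by_cases hle : a ≤ #(Y U)
    · have hnd : ¬ ∀ U' : Submodule ℝ V, U' < U → (#{y ∈ Y U | f y ∈ U'} : ℝ) ≤ γ * #(Y U) :=
        fun hh => hU2 ⟨⟨fun y hy => (mem_filter.1 hy).2, hh⟩, hle⟩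
      push Not at hnd
      obtain ⟨U', hlt, hU'⟩ := hnd
      have h3 : (#{y ∈ Y U | f y ∈ U'} : ℝ) ≤ cnt f A U' :=
        Nat.cast_le.2 (card_le_card fun y hy =>
          mem_filter.2 ⟨(mem_filter.1 (mem_filter.1 hy).1).1, (mem_filter.1 hy).2⟩)
      have h4 : γ * #(Y U) ≤ k := hU'.le.trans (h3.trans ((hU U hU1).2 U' hlt))
      have h5 : (#(Y U) : ℝ) ≤ 1 / γ * k := by
        rw [one_div, ← div_eq_inv_mul, le_div_iff₀ hγ]; linarith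
      linarith
    · push Not at hle
      linarith
  have h3 : (∑ U ∈ 𝒰.filter (fun U => ¬ P U), (#(Y U) : ℝ)) ≤ z * (a + 1 / γ * k) := by
    refine (sum_le_card_nsmul _ _ _ h2).trans ?_
    rw [nsmul_eq_mul]
    refine mul_le_mul_of_nonneg_right (le_trans ?_ h𝒰) (by positivity)
    exact Nat.cast_le.2 (card_filter_le _ _)
  have h4 : (∑ U ∈ 𝒰, (cnt f A U : ℝ)) = (∑ U ∈ 𝒰.filter P, (#(Y U) : ℝ)) +
      ∑ U ∈ 𝒰.filter (fun U => ¬ P U), (#(Y U) : ℝ) :=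
    (sum_filter_add_sum_filter_not 𝒰 P _).symm
  rw [h4]
  have e1 : C * 1 * (z ^ (1 + 2) / a ^ (1 + 2) + z ^ (1 + 1) / a ^ 1) =
      C * (z ^ 3 / a ^ 3 + z ^ 2 / a) := by norm_num
  rw [e1] at h1
  have p1 : 0 ≤ z ^ 3 / a ^ 3 + z ^ 2 / a := by positivity
  have p2 : 0 ≤ a * z := by positivity
  have p3 : 0 ≤ k * z := by positivity
  generalize 1 / γ = g at *
  generalize z ^ 3 / a ^ 3 = u at *
  generalize z ^ 2 / a = v at *
  nlinarith [mul_nonneg hγi.le p1, mul_nonneg hγi.le p2, mul_nonneg (sub_nonneg.2 hC) p2,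
    mul_nonneg (zero_le_one.trans hC) p3]

end Pool.Agent.P.MP_5f07f1_co.Z
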