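import Pool.Agent.P.MP_5f07f1_co.ZDefs

namespace Pool.Agent.P.MP_5f07f1_co.Z

open Finset MvPolynomial Pool.Agent.Lib.PolyPart Classical Module

namespace XR

/-- Pencils with multiplicity. -/
lemma penw (hPEN : S_PEN) {d : ℕ} {ι : Type} (I I' : Finset ι) (U : ι → Submodule ℝ (ℝ × E d))
    (Y : ι → Finset (E d)) (A : Finset (E d)) (x : E d) (F : Submodule ℝ (ℝ × E d)) (k : ℕ)
    (σ a w : ℝ) (hA : (#A : ℝ) ≤ σ) (ha : 0 < a) (hw : 0 ≤ w)
    (hI' : ∀ p ∈ I', p ∈ I ∧ x ∈ Y p ∧ F ≤ U p ∧ finrank ℝ (U p) = finrank ℝ F + k ∧ Y p ⊆ A ∧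
      ND (1 / 2) hm (U p) (Y p) ∧ a ≤ #(Y p)) (hM : Mlt I U Y w) :
    (#I' : ℝ) ≤ w * (2 * σ / a) ^ k := by
  have hex : ∀ V : Submodule ℝ (ℝ × E d), ∃ Z : Finset (E d), V ∈ I'.image U →
      ∃ p ∈ I', U p = V ∧ Z = Y p := by
    intro V
    by_cases hV : V ∈ I'.image U
    · obtain ⟨p, hp, hpV⟩ := mem_image.1 hV
      exact ⟨Y p, fun _ => ⟨p, hp, hpV, rfl⟩⟩
    · exact ⟨∅, fun h => absurd h hV⟩
  choose Z hZ using hex
  have h1 : (#(I'.image U) : ℝ) ≤ (2 * σ / a) ^ k := by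
    refine hPEN (E d) (ℝ × E d) hm A k F (I'.image U) Z σ a hA ha fun V hV => ?_
    obtain ⟨p, hp, hpV, hz⟩ := hZ V hV
    obtain ⟨-, -, h3, h4, h5, h6, h7⟩ := hI' p hp
    rw [hz, ← hpV]
    exact ⟨h3, h4, h5, h6, h7⟩
  have h2 : #I' = ∑ V ∈ I'.image U, #{p ∈ I' | U p = V} :=
    card_eq_sum_card_fiberwise (fun p hp => mem_coe.2 (mem_image_of_mem U (mem_coe.1 hp)))
  have h3 : ∀ V ∈ I'.image U, ((#{p ∈ I' | U p = V} : ℕ) : ℝ) ≤ w := by
    intro V _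
    refine le_trans ?_ (hM x V)
    refine Nat.cast_le.2 (card_le_card fun p hp => ?_)
    simp only [mem_filter] at hp ⊢
    exact ⟨(hI' p hp.1).1, (hI' p hp.1).2.1, hp.2⟩
  calc (#I' : ℝ) = ∑ V ∈ I'.image U, ((#{p ∈ I' | U p = V} : ℕ) : ℝ) := by
        rw [h2]; push_cast; rfl
    _ ≤ ∑ _V ∈ I'.image U, w := sum_le_sum h3
    _ = w * #(I'.image U) := by rw [sum_const, nsmul_eq_mul, mul_comm]
    _ ≤ _ := mul_le_mul_of_nonneg_left h1 hw

/-- The hypotheses on a family. -/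
def Fam {d : ℕ} (g : Dat d) {ι : Type} (I : Finset ι) (U : ι → Submodule ℝ (ℝ × E d))
    (Y : ι → Finset (E d)) (e i : ℕ) (a : ℝ) : Prop :=
  ∀ p ∈ I, finrank ℝ (U p) = e + 1 ∧ Y p ⊆ g.Q ∧ (∃ b, ∀ y ∈ Y p, g.l i y = b) ∧
    ND (1 / 2) hm (U p) (Y p) ∧ a ≤ #(Y p)

/-- The claim at level `i` with the constant `T`. -/
def Cl {d : ℕ} (g : Dat d) (i : ℕ) (T : ℝ) : Prop :=
  ∀ (ι : Type) (I : Finset ι) (U : ι → Submodule ℝ (ℝ × E d)) (Y : ι → Finset (E d)) (e : ℕ)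
    (a w : ℝ), 0 < a → 0 ≤ w → Fam g I U Y e i a → Mlt I U Y w →
    (∑ p ∈ I, (#(Y p) : ℝ)) ≤ w * (T * g.L ^ (d + e * d)) * g.N ^ d * g.M i ^ (d * e) / a ^ d

lemma rank_le {d : ℕ} (U : Submodule ℝ (ℝ × E d)) : finrank ℝ U ≤ d + 1 := by
  have h := Submodule.finrank_le U
  rw [Module.finrank_prod, Module.finrank_self, Module.finrank_fin_fun] at h
  omega

lemma hm_ne {d : ℕ} (x : E d) : hm x ≠ 0 := fun h => one_ne_zero (congrArg Prod.fst h)

/-- The number of members of the family through a point and a subspace. -/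
lemma thru (hPEN : S_PEN) {d C K : ℕ} {C' : ℝ} {g : Dat d} (hg : Geo C K C' g) {ι : Type}
    {I : Finset ι} {U : ι → Submodule ℝ (ℝ × E d)} {Y : ι → Finset (E d)} {e i : ℕ} {a w : ℝ}
    (hi : i ≤ g.r) (ha : 0 < a) (hw : 0 ≤ w) (hF : Fam g I U Y e i a) (hM : Mlt I U Y w)
    (x : E d) (F : Submodule ℝ (ℝ × E d)) (k : ℕ) (hk : e + 1 = finrank ℝ F + k) :
    (#{p ∈ I | x ∈ Y p ∧ F ≤ U p} : ℝ) ≤ w * (2 * g.M i ^ d / a) ^ k := by
  refine penw hPEN I _ U Y {z ∈ g.Q | g.l i z = g.l i x} x F k _ a w (hg.size i hi _) ha hw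
    (fun p hp => ?_) hM
  rw [mem_filter] at hp
  obtain ⟨hp, hx, hFU⟩ := hp
  obtain ⟨h1, h2, ⟨b, hb⟩, h4, h5⟩ := hF p hp
  refine ⟨hp, hx, hFU, h1.trans hk, fun y hy => ?_, h4, h5⟩
  rw [mem_filter]
  exact ⟨h2 hy, (hb y hy).trans (hb x hx).symm⟩

lemma base (hPEN : S_PEN) {d C K : ℕ} {C' : ℝ} {g : Dat d} (hg : Geo C K C' g) (hL : 2 ≤ g.L) :
    Cl g g.r 1 := by
  intro ι I U Y e a w ha hw hF hM
  have hL1 := hg.L1
  have hN1 := hg.N1
  have hM1 := hg.bot1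
  rcases I.eq_empty_or_nonempty with rfl | ⟨p₀, hp₀⟩
  · rw [sum_empty]; positivity
  obtain ⟨h1, h2, ⟨b, hb⟩, -, h5⟩ := hF p₀ hp₀
  have hed : e ≤ d := by have := rank_le (U p₀); omega
  have haL : a ≤ g.L := by
    refine h5.trans (le_trans ?_ ((hg.size g.r le_rfl b).trans hg.bot))
    refine Nat.cast_le.2 (card_le_card fun y hy => ?_)
    rw [mem_filter]
    exact ⟨h2 hy, hb y hy⟩
  have hsum : (∑ p ∈ I, (#(Y p) : ℝ)) = ∑ x ∈ g.Q, (#{p ∈ I | x ∈ Y p} : ℝ) := by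
    have h : ∑ p ∈ I, #(Y p) = ∑ x ∈ g.Q, #{p ∈ I | x ∈ Y p} := by
      simp only [card_filter]
      rw [sum_comm]
      refine sum_congr rfl fun p hp => ?_
      rw [← card_filter, filter_mem_eq_inter, inter_eq_right.2 (hF p hp).2.1]
    exact_mod_cast h
  have hx : ∀ x ∈ g.Q, (#{p ∈ I | x ∈ Y p} : ℝ) ≤ w * (2 * g.M g.r ^ d / a) ^ e := by
    intro x _
    refine le_trans ?_ (thru hPEN hg le_rfl ha hw hF hM x (Submodule.span ℝ {hm x}) e ?_)
    · refine Nat.cast_le.2 (card_le_card fun p hp => ?_)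
      rw [mem_filter] at hp ⊢
      refine ⟨hp.1, hp.2, ?_⟩
      rw [Submodule.span_singleton_le_iff_mem]
      exact (hF p hp.1).2.2.2.1.1 x hp.2
    · rw [finrank_span_singleton (hm_ne x)]; omega
  have hkey : (2 * g.M g.r ^ d / a) ^ e ≤ g.L ^ (d + e * d) * g.M g.r ^ (d * e) / a ^ d := by
    obtain ⟨k, rfl⟩ := Nat.exists_eq_add_of_le hed
    rw [div_pow, mul_pow, ← pow_mul, div_le_div_iff₀ (by positivity) (by positivity)]
    have e1 : (2 : ℝ) ^ e ≤ g.L ^ e := pow_le_pow_left₀ (by norm_num) hL e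
    have e2 : a ^ k ≤ g.L ^ k := pow_le_pow_left₀ ha.le haL k
    have e3 : g.L ^ e * g.L ^ k ≤ g.L ^ (e + k + e * (e + k)) := by
      rw [← pow_add]; exact pow_le_pow_right₀ hL1 (by omega)
    have e4 : (2 : ℝ) ^ e * a ^ k ≤ g.L ^ (e + k + e * (e + k)) :=
      (mul_le_mul e1 e2 (by positivity) (by positivity)).trans e3
    calc 2 ^ e * g.M g.r ^ ((e + k) * e) * a ^ (e + k)
        = (2 ^ e * a ^ k) * (g.M g.r ^ ((e + k) * e) * a ^ e) := by rw [pow_add a]; ring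
      _ ≤ g.L ^ (e + k + e * (e + k)) * (g.M g.r ^ ((e + k) * e) * a ^ e) :=
          mul_le_mul_of_nonneg_right e4 (by positivity)
      _ = _ := by ring
  calc (∑ p ∈ I, (#(Y p) : ℝ)) ≤ ∑ _x ∈ g.Q, w * (2 * g.M g.r ^ d / a) ^ e := by
        rw [hsum]; exact sum_le_sum hx
    _ = #g.Q * (w * (2 * g.M g.r ^ d / a) ^ e) := by rw [sum_const, nsmul_eq_mul]
    _ ≤ g.N ^ d * (w * (g.L ^ (d + e * d) * g.M g.r ^ (d * e) / a ^ d)) :=
        mul_le_mul hg.card (mul_le_mul_of_nonneg_left hkey hw) (by positivity) (by positivity)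
    _ = _ := by ring

/-- The loss of one level. -/
noncomputable def H (d C : ℕ) : ℝ := 2 ^ (d + 2) * (d + 1) * 2 ^ d * (2 ^ (d + 2) * C) ^ d

lemma arith {d e' k : ℕ} {a w T L N M M' C : ℝ} (ha : 1 ≤ a) (hw : 0 ≤ w) (hT : 0 ≤ T)
    (hL : 1 ≤ L) (hN : 0 ≤ N) (hM' : 1 ≤ M') (hMM : M' ≤ M) (hML : M ≤ L * M') (hC : 1 ≤ C)
    (hk : k ≤ d) :
    w * (2 * M ^ d / a) ^ k * (T * L ^ (d + e' * d)) * N ^ d * M' ^ (d * e') /
        (a * (1 / 2) ^ (d + 1) / (2 * (C * (M / M') ^ (e' + k)))) ^ d ≤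
      2 ^ d * (2 ^ (d + 2) * C) ^ d *
        (w * (T * L ^ (d + (e' + k) * d)) * N ^ d * M ^ (d * (e' + k)) / a ^ d) := by
  have hM'0 : 0 < M' := by linarith
  have ha0 : 0 < a := by linarith
  obtain ⟨ρ, hρ⟩ : ∃ ρ, ρ = M / M' := ⟨_, rfl⟩
  have hM : M = ρ * M' := by rw [hρ]; field_simp
  have hρ1 : 1 ≤ ρ := by rw [hρ, le_div_iff₀ hM'0]; linarith
  have hρL : ρ ≤ L := by rw [hρ, div_le_iff₀ hM'0]; exact hML
  have hM0 : 0 < M := by linarith
  rw [← hρ]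
  have h1 : (2 * M ^ d / a) ^ k ≤ 2 ^ d * M ^ (d * k) := by
    calc (2 * M ^ d / a) ^ k ≤ (2 * M ^ d) ^ k :=
          pow_le_pow_left₀ (by positivity) (div_le_self (by positivity) ha) k
      _ = 2 ^ k * M ^ (d * k) := by rw [mul_pow, ← pow_mul]
      _ ≤ _ := mul_le_mul_of_nonneg_right (pow_le_pow_right₀ (by norm_num) hk) (by positivity)
  have h2 : (a * (1 / 2) ^ (d + 1) / (2 * (C * ρ ^ (e' + k)))) =
      a / (2 ^ (d + 2) * C * ρ ^ (e' + k)) := by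
    rw [one_div, inv_pow]; field_simp; ring
  have h3 : M' ^ (d * e') * (ρ ^ (e' + k)) ^ d ≤ M ^ (d * e') * L ^ (k * d) := by
    have : M' ^ (d * e') * (ρ ^ (e' + k)) ^ d = M ^ (d * e') * ρ ^ (k * d) := by
      rw [hM, mul_pow, ← pow_mul]; ring
    rw [this]
    exact mul_le_mul_of_nonneg_left (pow_le_pow_left₀ (by positivity) hρL _) (by positivity)
  rw [h2, div_pow a, div_div_eq_mul_div, mul_pow (2 ^ (d + 2) * C), ← mul_div_assoc]
  refine div_le_div_of_nonneg_right ?_ (by positivity)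
  calc w * (2 * M ^ d / a) ^ k * (T * L ^ (d + e' * d)) * N ^ d * M' ^ (d * e') *
        ((2 ^ (d + 2) * C) ^ d * (ρ ^ (e' + k)) ^ d)
      = (w * (T * L ^ (d + e' * d)) * N ^ d * (2 ^ (d + 2) * C) ^ d) *
        ((2 * M ^ d / a) ^ k * (M' ^ (d * e') * (ρ ^ (e' + k)) ^ d)) := by ring
    _ ≤ (w * (T * L ^ (d + e' * d)) * N ^ d * (2 ^ (d + 2) * C) ^ d) *
        ((2 ^ d * M ^ (d * k)) * (M ^ (d * e') * L ^ (k * d))) :=
        mul_le_mul_of_nonneg_left (mul_le_mul h1 h3 (by positivity) (by positivity))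
          (by positivity)
    _ = _ := by ring

lemma step1 (hLD : S_LD) (hPEN : S_PEN) (hDIM : S_DIM) {d C K : ℕ} {C' : ℝ} {g : Dat d}
    (hg : Geo C K C' g) {i : ℕ} (hi : i < g.r) {T : ℝ} (hT : 0 ≤ T) (ih : Cl g (i + 1) T)
    (ι : Type) (I : Finset ι) (U : ι → Submodule ℝ (ℝ × E d)) (Y : ι → Finset (E d)) (e : ℕ)
    (a w : ℝ) (ha : 1 ≤ a) (hw : 0 ≤ w) (hF : Fam g I U Y e i a) (hM : Mlt I U Y w) (hed : e ≤ d) :
    (∑ p ∈ I, (#(Y p) : ℝ)) ≤
      w * ((H d C * T) * g.L ^ (d + e * d)) * g.N ^ d * g.M i ^ (d * e) / a ^ d := by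
  have hL1 := hg.L1
  have hN1 := hg.N1
  have hM1 : 1 ≤ g.M (i + 1) := hg.M1 hi
  have hMi : 1 ≤ g.M i := hg.M1 hi.le
  have hC1 : (1 : ℝ) ≤ C := by exact_mod_cast hg.one
  have ha0 : 0 < a := by linarith
  have hκ : 0 < (C : ℝ) * (g.M i / g.M (i + 1)) ^ e := by positivity
  obtain ⟨J, F, Y', hJ, hS⟩ := hLD (E d) (ℝ × E d) ι (Lab d) hm (1 / 2)
    (C * (g.M i / g.M (i + 1)) ^ e) a (d + 1) I U Y (g.l (i + 1)) (by norm_num) (by norm_num) hκ ha0
    (fun p hp => by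
      obtain ⟨h1, h2, ⟨b, hb⟩, h4, h5⟩ := hF p hp
      refine ⟨rank_le _, fun y hy => ⟨h4.1 y hy, hm_ne y⟩, ?_, h5⟩
      have := hg.cross i (i + 1) (Nat.le_succ i) hi e _ ((hDIM d).1 e (U p) h1.le) b (Y p) h2
        fun z hz => ⟨hb z hz, h4.1 z hz⟩
      refine le_trans (le_of_eq ?_) this
      congr 2
      ext z
      simp only [mem_image])
  set B : ℝ := w * (T * g.L ^ (d + e * d)) * g.N ^ d * g.M i ^ (d * e) / a ^ d with hB
  have hB0 : 0 ≤ B := by positivity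
  have hpart : ∀ e' ∈ range (e + 1), (∑ p ∈ J with finrank ℝ (F p) - 1 = e', (#(Y' p) : ℝ)) ≤
      2 ^ d * (2 ^ (d + 2) * C) ^ d * B := by
    intro e' he'
    have he'' : e' ≤ e := Nat.lt_succ_iff.1 (mem_range.1 he')
    obtain ⟨k, rfl⟩ := Nat.exists_eq_add_of_le he''
    have h := ih (ι × Lab d) {p ∈ J | finrank ℝ (F p) - 1 = e'} F Y' e'
      (a * (1 / 2) ^ (d + 1) / (2 * (C * (g.M i / g.M (i + 1)) ^ (e' + k))))
      (w * (2 * g.M i ^ d / a) ^ k) (by positivity) (by positivity) (fun p hp => by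
        rw [mem_filter] at hp
        obtain ⟨j1, j2, j3, -, j5, j6, j7⟩ := hJ p hp.1
        exact ⟨by omega, j2.trans (hF p.1 j1).2.1, ⟨p.2, j3⟩, j6, j7⟩) (fun x F₀ => by
        by_cases hr : finrank ℝ F₀ = e' + 1
        · refine le_trans ?_ (thru hPEN hg hi.le ha0 hw hF hM x F₀ k (by omega))
          refine Nat.cast_le.2 (card_le_card_of_injOn Prod.fst (fun p hp => ?_) fun p hp q hq hpq => ?_)
          · simp only [coe_filter, mem_filter, Set.mem_ofPred_eq] at hp ⊢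
            obtain ⟨j1, j2, -, j4, -⟩ := hJ p hp.1.1
            exact ⟨j1, j2 hp.2.1, hp.2.2 ▸ j4⟩
          · simp only [coe_filter, mem_filter, Set.mem_ofPred_eq] at hp hq
            refine Prod.ext hpq ?_
            rw [← (hJ p hp.1.1).2.2.1 x hp.2.1, ← (hJ q hq.1.1).2.2.1 x hq.2.1]
        · refine le_trans (le_of_eq ?_) (by positivity : (0 : ℝ) ≤ w * (2 * g.M i ^ d / a) ^ k)
          rw [Nat.cast_eq_zero, card_eq_zero, eq_empty_iff_forall_notMem]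
          intro p hp
          simp only [mem_filter] at hp
          have j5 := (hJ p hp.1.1).2.2.2.2.1
          have j6 := hp.1.2
          rw [← hp.2.2] at hr
          omega)
    exact h.trans (arith ha hw hT hL1 (by linarith) hM1 (hg.anti i (i + 1) (Nat.le_succ i) hi)
      (hg.step i hi) hC1 (by omega))
  have hsplit : (∑ p ∈ J, (#(Y' p) : ℝ)) =
      ∑ e' ∈ range (e + 1), ∑ p ∈ J with finrank ℝ (F p) - 1 = e', (#(Y' p) : ℝ) := by
    refine (sum_fiberwise_of_maps_to (fun p hp => ?_) _).symm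
    obtain ⟨j1, -, -, j4, -⟩ := hJ p hp
    have h1 := Submodule.finrank_mono j4
    rw [(hF p.1 j1).1] at h1
    rw [mem_range]; omega
  have hJ2 : (∑ p ∈ J, (#(Y' p) : ℝ)) ≤ (d + 1) * (2 ^ d * (2 ^ (d + 2) * C) ^ d * B) := by
    rw [hsplit]
    refine (sum_le_sum hpart).trans ?_
    rw [sum_const, card_range, nsmul_eq_mul]
    refine mul_le_mul_of_nonneg_right ?_ (by positivity)
    exact_mod_cast Nat.succ_le_succ hed
  have h2 : (2 : ℝ) / (1 / 2) ^ (d + 1) = 2 ^ (d + 2) := by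
    rw [one_div, inv_pow]; field_simp; ring
  rw [h2] at hS
  refine hS.trans ((mul_le_mul_of_nonneg_left hJ2 (by positivity)).trans (le_of_eq ?_))
  rw [hB, H]; ring

lemma H_one {d C : ℕ} (hC : 1 ≤ C) : 1 ≤ H d C := by
  have hC1 : (1 : ℝ) ≤ C := by exact_mod_cast hC
  have h2 : ∀ n : ℕ, (1 : ℝ) ≤ 2 ^ n := fun n => one_le_pow₀ (by norm_num)
  have hd : (1 : ℝ) ≤ d + 1 := by linarith [Nat.cast_nonneg (α := ℝ) d]
  exact one_le_mul_of_one_le_of_one_le (one_le_mul_of_one_le_of_one_le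
    (one_le_mul_of_one_le_of_one_le (h2 _) hd) (h2 _))
    (one_le_pow₀ (one_le_mul_of_one_le_of_one_le (h2 _) hC1))

lemma step (hLD : S_LD) (hPEN : S_PEN) (hDIM : S_DIM) {d C K : ℕ} {C' : ℝ} {g : Dat d}
    (hg : Geo C K C' g) {i : ℕ} (hi : i < g.r) {T : ℝ} (hT : 0 ≤ T) (ih : Cl g (i + 1) T) :
    Cl g i (H d C * T) := by
  intro ι I U Y e a w ha hw hF hM
  have hL1 := hg.L1
  have hN1 := hg.N1
  have hMi : 1 ≤ g.M i := hg.M1 hi.le
  have hH := H_one (d := d) hg.one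
  rcases I.eq_empty_or_nonempty with rfl | ⟨p₀, hp₀⟩
  · rw [sum_empty]; positivity
  have hed : e ≤ d := by have := rank_le (U p₀); have := (hF p₀ hp₀).1; omega
  have h := step1 hLD hPEN hDIM hg hi hT ih ι I U Y e (max a 1) w (le_max_right _ _) hw
    (fun p hp => by
      obtain ⟨h1, h2, h3, h4, h5⟩ := hF p hp
      refine ⟨h1, h2, h3, h4, max_le h5 ?_⟩
      have : (0 : ℝ) < #(Y p) := ha.trans_le h5
      exact_mod_cast this) hM hed
  exact h.trans (div_le_div_of_nonneg_left (by positivity) (by positivity)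
    (pow_le_pow_left₀ ha.le (le_max_left _ _) d))

lemma all (hLD : S_LD) (hPEN : S_PEN) (hDIM : S_DIM) {d C K : ℕ} {C' : ℝ} {g : Dat d}
    (hg : Geo C K C' g) (hL : 2 ≤ g.L) : ∀ j i : ℕ, i + j = g.r → Cl g i (H d C ^ j) := by
  have hH := H_one (d := d) hg.one
  intro j
  induction j with
  | zero =>
    intro i hi
    rw [add_zero] at hi
    rw [hi, pow_zero]
    exact base hPEN hg hL
  | succ j ih =>
    intro i hi
    rw [pow_succ']
    exact step hLD hPEN hDIM hg (by omega) (by positivity) (ih (i + 1) (by omega))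

end XR

theorem p_R (hLD : S_LD) (hPEN : S_PEN) (hDIM : S_DIM) : S_R := by
  intro d
  refine ⟨1 + (d + d * d), 0, fun C => ⟨max (XR.H d C ^ C) 2, le_max_of_le_right (by norm_num),
    fun g hg ι I U Y e i a w hi ha hw hF hM => ?_⟩⟩
  have hL1 := hg.L1
  have hN1 := hg.N1
  have hMi : 1 ≤ g.M i := hg.M1 hi
  have hH := XR.H_one (d := d) hg.one
  rcases I.eq_empty_or_nonempty with rfl | ⟨p₀, hp₀⟩
  · rw [sum_empty]; positivity
  have hed : e ≤ d := by have := XR.rank_le (U p₀); have := (hF p₀ hp₀).1; omega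
  obtain ⟨j, hj⟩ := Nat.exists_eq_add_of_le hi
  have h := XR.all hLD hPEN hDIM hg ((le_max_right _ _).trans hg.big) j i hj.symm ι I U Y e a w ha
    hw hF hM
  refine h.trans (div_le_div_of_nonneg_right ?_ (by positivity))
  have h1 : XR.H d C ^ j ≤ g.L :=
    (pow_le_pow_right₀ hH (by have := hg.depth; omega)).trans ((le_max_left _ _).trans hg.big)
  have h2 : g.L ^ (d + e * d) ≤ g.L ^ (d + d * d) :=
    pow_le_pow_right₀ hL1 (Nat.add_le_add_left (Nat.mul_le_mul_right d hed) d)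
  have h3 : XR.H d C ^ j * g.L ^ (d + e * d) ≤ g.L ^ (1 + (d + d * d)) := by
    rw [pow_add g.L 1, pow_one]
    exact mul_le_mul h1 h2 (by positivity) (by positivity)
  gcongr

end Pool.Agent.P.MP_5f07f1_co.Z
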