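import Pool.Agent.P.MP_5f07f1_co.ZDefs

/-! One sharp round in full dimension. -/

namespace Pool.Agent.P.MP_5f07f1_co.Z

open Finset MvPolynomial Pool.Agent.Lib.PolyPart Classical Module

namespace XR0

theorem root (d : ℕ) : ∃ T : Tw d d 1, T.X = Set.univ ∧ ∀ x, T.yv x = x := by
  refine ⟨⟨MvPolynomial.X, Function.Embedding.refl _, fun k => by simp, ?_⟩, ?_, fun x => ?_⟩
  · have : (Set.range (Function.Embedding.refl (Fin d)))ᶜ = ∅ := by
      ext k; simp
    rw [this, Set.image_empty, Ideal.span_empty]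
    exact nice_bot d
  · ext x
    simp only [Tw.X, Tw.V, NZ, Set.mem_inter_iff, Set.mem_ofPred_eq, Set.mem_univ, iff_true]
    refine ⟨fun k hk => absurd ⟨k, rfl⟩ hk, ?_⟩
    have : (Matrix.of fun k s : Fin d => pderiv s (MvPolynomial.X k : MP d)) = 1 := by
      ext1 k s
      simp [pderiv_X, Pi.single_apply, Matrix.one_apply]
    simp only [Tw.J, Tw.jac, this, Matrix.det_one, map_one]
    exact one_ne_zero
  · funext i
    simp [Tw.yv, Tw.y]

theorem le_pow_self (b t : ℕ) : b ≤ (t + 2) ^ b :=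
  (Nat.lt_two_pow_self (n := b)).le.trans (Nat.pow_le_pow_left (by omega) _)

end XR0

open BuildX in
theorem p_R0 (hSP : S_SP) (hCH : S_CH) (hPCS : S_PCS) : S_R0 := by
  intro d
  obtain ⟨T, hT, hy⟩ := XR0.root (d + 1)
  obtain ⟨a, c', hcov⟩ := cover (d + 1) (d + 1) 1
  obtain ⟨Δ₀, h1, h2, h3⟩ := hcov T
  obtain ⟨κ, hκ⟩ := lvl_of_towers (d + 1) (d + 1) 1 c' (by omega)
  obtain ⟨A₁, hA₁⟩ := hCH (d + 1) d
  obtain ⟨A₂, hA₂⟩ := hPCS (d + 1) d
  set b := 4 * a + 8 * (d + 1) ^ 2 + 4 with hb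
  have hb1 : 1 ≤ b := by omega
  refine ⟨(κ + 4) * b ^ (d + 1), 2 * A₁ + b * d + ((b + 1) * A₂ + (b + 1)),
    le_mul_of_le_of_one_le (by omega) (Nat.one_le_pow _ _ hb1), fun m n B Q l hS hB hn => ?_⟩
  set Δ := a + 2 * (d + 1) ^ 2 * 2 ^ m with hΔ
  have hD : 1 ≤ 2 ^ m := Nat.one_le_two_pow
  have e1 : 4 * Δ + 4 ≤ b * 2 ^ m := by
    have e2 : 4 * a + 4 ≤ (4 * a + 4) * 2 ^ m := Nat.le_mul_of_pos_right _ hD
    rw [hΔ, hb]
    nlinarith
  have hT' : ∀ x : E (d + 1), x ∈ connectedComponentIn T.X 0 := fun x => by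
    rw [hT, connectedComponentIn_univ, PreconnectedSpace.connectedComponent_eq_univ]
    trivial
  choose h h4 h6 h5 using fun b : Lab (d + 1) =>
    hSP (E (d + 1)) (d + 1) m T.yv {z ∈ Q | l z = b} (by omega)
  set g : Lab (d + 1) → MP (d + 1) := fun b => Δ₀ * ∏ i, h b i with hg
  have hg1 : ∀ b, g b ≠ 0 ∧ (g b).totalDegree ≤ Δ := fun b =>
    ⟨mul_ne_zero h1 (prod_ne_zero_iff.2 fun i _ => h4 b i),
      (totalDegree_mul _ _).trans (add_le_add h2 ((totalDegree_finsetProd _ _).trans (h6 b)))⟩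
  have hg2 : ∀ b, (aeval T.y (g b) : MP (d + 1)).totalDegree ≤ Δ := fun b =>
    (totalDegree_aeval_le _ 1 T.nice'.1 _).trans (by simpa using (hg1 b).2)
  obtain ⟨N, hN, hs⟩ : ∃ N : Finset (E (d + 1)), (∀ x ∈ N, x ∈ Q ∧
      eval x (aeval T.y (g (l x))) = 0) ∧
      #{x ∈ Q | eval x (aeval T.y (g (l x))) ≠ 0} + #N = #Q :=
    ⟨_, fun x hx => ⟨(mem_filter.1 hx).1, not_not.1 (mem_filter.1 hx).2⟩,
      card_filter_add_card_filter_not _⟩
  by_cases hc : #Q ≤ 2 * #{x ∈ Q | eval x (aeval T.y (g (l x))) ≠ 0}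
  · have hl := hκ Δ (2 ^ m) ((κ + 4) * b ^ (d + 1)) hD (fun e he => by
        calc _ ≤ (κ + 4) * (b * 2 ^ m) ^ e := by gcongr; omega
          _ ≤ _ := by
            rw [mul_pow, ← mul_assoc]
            gcongr)
      {x ∈ Q | eval x (aeval T.y (g (l x))) ≠ 0} l (fun _ => T) (fun _ => 0)
      (fun b => aeval T.y (g b)) hg2 (fun b => h3 _)
      fun x hx => ⟨hT' x, (mem_filter.1 hx).2⟩
    have ec : (fun _ : E (d + 1) => connectedComponentIn T.X 0) = fun _ => Set.univ :=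
      funext fun _ => Set.eq_univ_of_forall hT'
    rw [ec] at hl
    refine Or.inl ⟨_, filter_subset _ _, hc, _, hl, fun b' => ?_, fun f hf b' S hSQ hz => ?_⟩
    · rcases b' with _ | ⟨S, b'⟩
      · simp
      rcases Finset.eq_empty_or_nonempty {z ∈ {x ∈ Q | eval x (aeval T.y (g (l x))) ≠ 0} |
        connectedComponentIn (T.X ∩ NZ (aeval T.y (g (l z)))) z :: l z = S :: b'}
        with e | ⟨z, hz⟩
      · rw [e]
        simp
      obtain ⟨σ, hσ⟩ := child T Δ₀ (h b') z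
      refine le_trans ?_ (hS b')
      rw [mul_comm B, ← mul_assoc, ← pow_mul, mul_comm _ (2 ^ _)]
      refine Nat.mul_le_mul_right _ (le_trans (Nat.mul_le_mul_left _
        (card_le_card fun x hx => ?_)) (h5 b' σ))
      obtain ⟨-, z2⟩ := mem_filter.1 hz
      obtain ⟨x1, x2⟩ := mem_filter.1 hx
      obtain ⟨x3, x4⟩ := mem_filter.1 x1
      obtain ⟨z3, z4⟩ := List.cons.inj z2
      obtain ⟨x5, x6⟩ := List.cons.inj x2
      refine mem_filter.2 ⟨mem_filter.2 ⟨x3, x6⟩, hσ x ?_⟩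
      rw [z4] at z3
      change x ∈ connectedComponentIn (T.X ∩ NZ (aeval T.y (g b'))) z
      rw [z3, ← x5]
      exact mem_connectedComponentIn ⟨connectedComponentIn_subset _ _ (hT' x), x4⟩
    · obtain ⟨R, hR, hRS, hcard⟩ := exists_apart (T.X ∩ NZ (aeval T.y (g b'))) S id
        (fun x => connectedComponentIn (T.X ∩ NZ (aeval T.y (g (l x)))) x :: l x)
        (fun z hz' => ⟨connectedComponentIn_subset _ _ (hT' z), by
          have := (mem_filter.1 (hSQ hz')).2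
          rwa [(hz z hz').1] at this⟩)
        fun z hz1 z' hz2 k => by
          simp only [(hz z hz1).1, (hz z' hz2).1]
          exact congrArg (· :: b') (connectedComponentIn_eq k)
      have k1 := hA₁ 1 f.totalDegree T f hf le_rfl _ R hR fun x hx => by
        obtain ⟨z, hz', e⟩ := hRS x hx
        rw [hy, e]
        exact (hz z hz').2
      refine ((card_image_inst _ _ S _).trans_le hcard).trans (k1.trans ?_)
      have k2 : 1 + f.totalDegree + 2 ≤ (f.totalDegree + 2) ^ 2 := by nlinarith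
      have k3 : (aeval T.y (g b') : MP (d + 1)).totalDegree + 1 ≤
          (f.totalDegree + 2) ^ b * 2 ^ m := by
        have := hg2 b'
        have := Nat.mul_le_mul_right (2 ^ m) (XR0.le_pow_self b f.totalDegree)
        omega
      calc _ ≤ ((f.totalDegree + 2) ^ 2) ^ A₁ * ((f.totalDegree + 2) ^ b * 2 ^ m) ^ d := by gcongr
        _ = (f.totalDegree + 2) ^ (2 * A₁ + b * d) * (2 ^ m) ^ d := by
          rw [mul_pow, ← pow_mul, ← pow_mul, pow_add, mul_assoc]
        _ ≤ _ := Nat.mul_le_mul_right _ (Nat.pow_le_pow_right (by omega) (Nat.le_add_right _ _))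
  · obtain ⟨Q', q1, q2, q3⟩ := hA₂ 1 Δ (fun _ => T) g hg1 l N (card_pos.1 (by omega)) fun x hx =>
      ⟨connectedComponentIn_subset _ _ (hT' x), by
        rw [← Tw.eval_aeval_y]
        exact (hN x hx).2⟩
    have q4 : Q' ⊆ Q := fun x hx => (hN x (q1 hx)).1
    have k1 : 4 * Δ + 4 ≤ (2 ^ m + 2) ^ (b + 1) := by
      rw [pow_succ]
      exact e1.trans (Nat.mul_le_mul (XR0.le_pow_self b _) (Nat.le_add_right _ _))
    refine Or.inr ⟨(1 + 1) * (Δ + 1), ?_, Q', q4, ?_, q3, size_mono q4 hS, hn, hB⟩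
    · exact (by omega : _ ≤ 4 * Δ + 4).trans
        (k1.trans (Nat.pow_le_pow_right (by omega) (by omega)))
    · calc #Q ≤ 2 * ((1 + Δ + 2) ^ A₂ * #Q') := by omega
        _ = (1 + Δ + 2) ^ A₂ * 2 * #Q' := by ring
        _ ≤ ((2 ^ m + 2) ^ (b + 1)) ^ A₂ * (2 ^ m + 2) ^ (b + 1) * #Q' := by
          gcongr <;> omega
        _ ≤ _ := by
          rw [← pow_mul, ← pow_add]
          exact Nat.mul_le_mul_right _ (Nat.pow_le_pow_right (by omega) (Nat.le_add_left _ _))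

end Pool.Agent.P.MP_5f07f1_co.Z
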