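import Pool.Agent.P.MP_5f07f1_co.ZDefs

/-! Few chords have a direction of high multiplicity: the abstract form. -/

namespace Pool.Agent.P.MP_5f07f1_co.Z

open Finset MvPolynomial Pool.Agent.Lib.PolyPart Classical Module

namespace XRD

noncomputable def Kf {α β : Type} (B : Finset β) (R : α → β → Prop) (p q : α) : ℝ :=
  (#{b ∈ B | R p b ∧ R q b} : ℝ)

noncomputable def Ef {α β : Type} (A : Finset α) (B : Finset β) (R : α → β → Prop) : ℝ :=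
  (#{p ∈ A ×ˢ B | R p.1 p.2} : ℝ)

lemma bip (h : S_BIP) {α β δ : Type} (A : Finset α) (B : Finset β) (R : α → β → Prop)
    (ω : α → δ) (ω' : β → δ) (m : ℝ) (h1 : ∀ a ∈ A, ∀ b ∈ B, R a b → ω a = ω' b)
    (h2 : ∀ c, (#{a ∈ A | ω a = c} : ℝ) ≤ m) :
    Ef A B R ^ 6 ≤ (#A : ℝ) ^ 2 * (#B : ℝ) ^ 3 * m *
      ∑ t ∈ A ×ˢ A ×ˢ A, Kf B R t.1 t.2.1 * Kf B R t.2.1 t.2.2 * Kf B R t.2.2 t.1 :=
  h α β δ A B R ω ω' m h1 h2

lemma Kf_le {α β γ : Type} (B : Finset β) (R : α → β → Prop) (p q : α) (S : Finset γ)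
    (f : γ → β) (h : ∀ b ∈ B, R p b → R q b → ∃ e ∈ S, f e = b) : Kf B R p q ≤ #S := by
  unfold Kf
  have h1 : {b ∈ B | R p b ∧ R q b} ⊆ S.image f := by
    intro b hb
    rw [mem_filter] at hb
    exact mem_image.2 (h b hb.1 hb.2.1 hb.2.2)
  exact_mod_cast (card_le_card h1).trans card_image_le

lemma Kf_ne {α β : Type} (B : Finset β) (R : α → β → Prop) (p q : α) (h : Kf B R p q ≠ 0) :
    ∃ b ∈ B, R p b ∧ R q b := by
  unfold Kf at h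
  have h1 : #{b ∈ B | R p b ∧ R q b} ≠ 0 := by exact_mod_cast h
  obtain ⟨b, hb⟩ := card_ne_zero.1 h1
  rw [mem_filter] at hb
  exact ⟨b, hb.1, hb.2⟩

lemma le_Ef {α β γ : Type} (A : Finset α) (B : Finset β) (R : α → β → Prop) (S : Finset γ)
    (f : γ → α × β) (h1 : ∀ c ∈ S, (f c).1 ∈ A ∧ (f c).2 ∈ B ∧ R (f c).1 (f c).2)
    (h2 : ∀ c ∈ S, ∀ c' ∈ S, f c = f c' → c = c') : (#S : ℝ) ≤ Ef A B R := by
  unfold Ef
  have : #S ≤ #{p ∈ A ×ˢ B | R p.1 p.2} := by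
    refine card_le_card_of_injOn f (fun c hc => ?_) (fun c hc c' hc' h => h2 c hc c' hc' h)
    obtain ⟨a1, a2, a3⟩ := h1 c hc
    exact mem_coe.2 (mem_filter.2 ⟨mem_product.2 ⟨a1, a2⟩, a3⟩)
  exact_mod_cast this

variable {V δ : Type} [AddCommGroup V] [Module ℝ V]

lemma app_ext {T T' : ℝ × V} {x y : V} (hxy : x ≠ y) (hx : app T x = app T' x)
    (hy : app T y = app T' y) : T = T' := by
  unfold app at hx hy
  have h1 : (T.1 - T'.1) • (x - y) = 0 := by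
    have e : (T.1 - T'.1) • (x - y) = (T.1 • x + T.2 - (T'.1 • x + T'.2)) -
        (T.1 • y + T.2 - (T'.1 • y + T'.2)) := by module
    rw [e, hx, hy]; simp
  rcases smul_eq_zero.1 h1 with h | h
  · have h2 : T.1 = T'.1 := sub_eq_zero.1 h
    rw [h2] at hx
    exact Prod.ext h2 (add_left_cancel hx)
  · exact absurd (sub_eq_zero.1 h) hxy

def Rel (X : Finset V) (G : Finset (V × V)) (ω : V × V → δ) (p : V × V) (s : δ × δ × δ × δ) :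
    Prop := ∃ c ∈ Cyc X G, (c.1, c.2.1) = p ∧ shp ω c = s

lemma cyc_mem {X : Finset V} {G : Finset (V × V)} {c : V × V × V × V} (h : c ∈ Cyc X G) :
    (c.1, c.2.1) ∈ G ∧ (c.2.2.1, c.2.2.2) ∈ G := by
  unfold Cyc at h
  rw [mem_filter] at h
  exact ⟨h.2.1, h.2.2.2.1⟩

lemma cyc_le (hH : S_HOM) (X : Finset V) (G : Finset (V × V)) (ω : V × V → δ) (hP : Parl G ω)
    (hne : ∀ p ∈ G, p.1 ≠ p.2) (B : Finset (δ × δ × δ × δ)) (hB : ∀ c ∈ Cyc X G, shp ω c ∈ B) :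
    (#(Cyc X G) : ℝ) ≤ Ef G B (Rel X G ω) := by
  refine le_Ef G B _ (Cyc X G) (fun c => ((c.1, c.2.1), shp ω c))
    (fun c hc => ⟨(cyc_mem hc).1, hB c hc, c, hc, rfl, rfl⟩) (fun c hc c' hc' h => ?_)
  have e1 : (c.1, c.2.1) = (c'.1, c'.2.1) := congrArg Prod.fst h
  have e2 : shp ω c = shp ω c' := congrArg Prod.snd h
  have a1 : c.1 = c'.1 := (Prod.mk.inj e1).1
  have a2 : c.2.1 = c'.2.1 := (Prod.mk.inj e1).2
  obtain ⟨T, -, t1, t2, t3, t4⟩ := hH V δ X G ω hP c hc c' hc' e2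
  have hid : ∀ x : V, app ((1 : ℝ), (0 : V)) x = x := fun x => by simp [app]
  have hT : T = ((1 : ℝ), (0 : V)) :=
    app_ext (hne _ (cyc_mem hc).1) (by rw [hid]; exact t1.trans a1.symm)
      (by rw [hid]; exact t2.trans a2.symm)
  rw [hT, hid] at t3 t4
  exact Prod.ext a1 (Prod.ext a2 (Prod.ext t3 t4))

lemma kernel (hH : S_HOM) (X : Finset V) (G : Finset (V × V)) (ω : V × V → δ) (hP : Parl G ω)
    (hne : ∀ p ∈ G, p.1 ≠ p.2) (B : Finset (δ × δ × δ × δ)) (p : V × V) (hp : p ∈ G) (q : V × V)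
    (h : Kf B (Rel X G ω) p q ≠ 0) :
    ω p = ω q ∧ ∃ T : ℝ × V, T.1 ≠ 0 ∧ app T p.1 = q.1 ∧ app T p.2 = q.2 ∧
      Kf B (Rel X G ω) p q ≤
        #{e ∈ G | (app T e.1, app T e.2) ∈ G ∧ ω (app T e.1, app T e.2) = ω e} := by
  obtain ⟨s, -, ⟨c, hc, c1, c2⟩, ⟨c', hc', c1', c2'⟩⟩ := Kf_ne _ _ _ _ h
  have e2 : shp ω c = shp ω c' := c2.trans c2'.symm
  obtain ⟨T, t0, t1, t2, -, -⟩ := hH V δ X G ω hP c hc c' hc' e2
  subst c1 c1'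
  refine ⟨congrArg Prod.fst e2, T, t0, t1, t2, ?_⟩
  refine Kf_le _ _ _ _ _ (fun e : V × V => shp ω (c.1, c.2.1, e.1, e.2)) ?_
  rintro b - ⟨u, hu, u1, u2⟩ ⟨u', hu', u1', u2'⟩
  have e3 : shp ω u = shp ω u' := u2.trans u2'.symm
  obtain ⟨S, -, s1, s2, s3, s4⟩ := hH V δ X G ω hP u hu u' hu' e3
  have a1 : u.1 = c.1 := (Prod.mk.inj u1).1
  have a2 : u.2.1 = c.2.1 := (Prod.mk.inj u1).2
  have b1 : u'.1 = c'.1 := (Prod.mk.inj u1').1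
  have b2 : u'.2.1 = c'.2.1 := (Prod.mk.inj u1').2
  have hST : S = T := app_ext (hne _ hp) (by rw [a1, b1] at s1; exact s1.trans t1.symm)
    (by rw [a2, b2] at s2; exact s2.trans t2.symm)
  subst hST
  refine ⟨(u.2.2.1, u.2.2.2), mem_filter.2 ⟨(cyc_mem hu).2, ?_, ?_⟩, ?_⟩
  · show (app S u.2.2.1, app S u.2.2.2) ∈ G
    rw [s3, s4]; exact (cyc_mem hu').2
  · show ω (app S u.2.2.1, app S u.2.2.2) = ω (u.2.2.1, u.2.2.2)
    rw [s3, s4]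
    exact (congrArg (fun z : δ × δ × δ × δ => z.2.2.1) e3).symm
  · rw [← u2, ← a1, ← a2]

lemma small (j : ℕ) (N v g : ℝ) (hN : 1 ≤ N) (hv0 : 0 ≤ v) (hv : v ≤ N ^ 2) (hg0 : 0 ≤ g)
    (hg : g ≤ N ^ (2 * (j + 4))) (h : g ^ 4 ≤ 8 * N ^ (7 * (j + 4) + 2)) :
    (g / N ^ (2 * (j + 4))) ^ 13 * v ^ 3 ≤ 512 := by
  have hN0 : 0 < N := by linarith
  have hM : 0 < N ^ (2 * (j + 4)) := by positivity
  set x := g / N ^ (2 * (j + 4)) with hx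
  have hx0 : 0 ≤ x := by positivity
  have hx1 : x ≤ 1 := (div_le_one hM).2 hg
  have h1 : x ^ 4 * N ^ 2 ≤ 8 := by
    rw [hx, div_pow, div_mul_eq_mul_div, div_le_iff₀ (by positivity)]
    have a : N ^ (7 * (j + 4) + 2) * N ^ 2 ≤ (N ^ (2 * (j + 4))) ^ 4 := by
      rw [← pow_add, ← pow_mul]; exact pow_le_pow_right₀ hN (by omega)
    calc g ^ 4 * N ^ 2 ≤ 8 * N ^ (7 * (j + 4) + 2) * N ^ 2 := by gcongr
      _ = 8 * (N ^ (7 * (j + 4) + 2) * N ^ 2) := by ring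
      _ ≤ _ := by gcongr
  calc x ^ 13 * v ^ 3 = x * (x ^ 4 * v) ^ 3 := by ring
    _ ≤ 1 * (x ^ 4 * N ^ 2) ^ 3 := by gcongr
    _ ≤ 1 * 8 ^ 3 := by gcongr
    _ = 512 := by norm_num

lemma large (j : ℕ) (N v g y b L C : ℝ) (hN : 1 ≤ N) (hv : 1 ≤ v) (hg : 0 < g) (hC : 0 ≤ C)
    (hb0 : 0 ≤ b) (h1 : g ^ 4 ≤ 2 * N ^ (4 * (j + 4)) * y)
    (h2 : b ≤ L * (g / (v * N ^ (j + 2))) ^ 3)
    (h3 : y ^ 6 ≤ g ^ 2 * b ^ 3 * (2 * v * N ^ (j + 2)) * (C * v ^ 5 * N ^ (10 * j + 24))) :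
    (g / N ^ (2 * (j + 4))) ^ 13 * v ^ 3 ≤ 128 * C * L ^ 3 := by
  have hN0 : 0 < N := by linarith
  have hv0 : 0 < v := by linarith
  obtain ⟨P, hP⟩ : ∃ P, P = N ^ j := ⟨_, rfl⟩
  have hP0 : 0 < P := by rw [hP]; positivity
  have e1 : N ^ (4 * (j + 4)) = P ^ 4 * N ^ 16 := by rw [hP]; ring
  have e2 : N ^ (j + 2) = P * N ^ 2 := by rw [hP]; ring
  have e3 : N ^ (10 * j + 24) = P ^ 10 * N ^ 24 := by rw [hP]; ring
  have e4 : N ^ (2 * (j + 4)) = P ^ 2 * N ^ 8 := by rw [hP]; ring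
  rw [e1] at h1
  rw [e2] at h2 h3
  rw [e3] at h3
  rw [e4]
  have h4 : (g ^ 4) ^ 6 ≤ (2 * (P ^ 4 * N ^ 16)) ^ 6 * (g ^ 2 * (L * (g / (v * (P * N ^ 2))) ^ 3) ^ 3 *
      (2 * v * (P * N ^ 2)) * (C * v ^ 5 * (P ^ 10 * N ^ 24))) := by
    calc (g ^ 4) ^ 6 ≤ (2 * (P ^ 4 * N ^ 16) * y) ^ 6 := by gcongr
      _ = (2 * (P ^ 4 * N ^ 16)) ^ 6 * y ^ 6 := mul_pow _ _ _
      _ ≤ (2 * (P ^ 4 * N ^ 16)) ^ 6 * (g ^ 2 * b ^ 3 * (2 * v * (P * N ^ 2)) *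
          (C * v ^ 5 * (P ^ 10 * N ^ 24))) := by gcongr
      _ ≤ _ := by gcongr
  have hM : 0 < g ^ 11 * (P ^ 2 * N ^ 8) ^ 13 / v ^ 3 := by positivity
  refine le_of_mul_le_mul_right ?_ hM
  calc (g / (P ^ 2 * N ^ 8)) ^ 13 * v ^ 3 * (g ^ 11 * (P ^ 2 * N ^ 8) ^ 13 / v ^ 3)
      = (g ^ 4) ^ 6 := by field_simp
    _ ≤ _ := h4
    _ = _ := by field_simp; ring

end XRD

open XRD in
theorem p_RD (hC4 : S_C4) (hHOM : S_HOM) (hBIP : S_BIP) (hTR : S_TR) : S_RD := by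
  intro C₂ hC₂
  obtain ⟨C, hC, hT⟩ := hTR C₂ hC₂
  refine ⟨512 * C, by linarith, ?_⟩
  intro d V δ _ _ X G ω N v L hd hN hv hvN hL hX hl hM hpl hG hne hP hω hB
  obtain ⟨j, rfl⟩ : ∃ j, d = j + 4 := ⟨d - 4, by omega⟩
  have hN0 : 0 < N := by linarith
  have hL3 : 1 ≤ L ^ 3 := one_le_pow₀ hL
  have hg : (#G : ℝ) ≤ N ^ (2 * (j + 4)) := by
    have a : (#G : ℝ) ≤ #X * #X := by
      rw [← Nat.cast_mul, ← card_product]; exact_mod_cast card_le_card hG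
    calc (#G : ℝ) ≤ #X * #X := a
      _ ≤ N ^ (j + 4) * N ^ (j + 4) := by gcongr
      _ = _ := by ring
  by_cases hs : (#G : ℝ) ^ 4 ≤ 8 * N ^ (7 * (j + 4) + 2)
  · have := small j N v #G hN (by linarith) hvN (Nat.cast_nonneg _) hg hs
    nlinarith
  rw [not_le] at hs
  have hg0 : (0 : ℝ) < #G := by
    rcases (Nat.cast_nonneg (α := ℝ) #G).eq_or_lt with h | h
    · rw [← h] at hs
      have : (0 : ℝ) < 8 * N ^ (7 * (j + 4) + 2) := by positivity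
      norm_num at hs
      linarith
    · exact h
  have h4 := hC4 V X G (N ^ (j + 4)) (N ^ 2) hX (by positivity) hG hl hpl
  have h5 := cyc_le hHOM X G ω hP hne ((Cyc X G).image (shp ω)) (fun c hc => mem_image_of_mem _ hc)
  have h6 := bip hBIP G ((Cyc X G).image (shp ω)) (Rel X G ω) ω Prod.fst (2 * v * N ^ (j + 4 - 2))
    (by rintro a - b - ⟨c, -, rfl, rfl⟩; rfl) hω
  have h7 := hT (j + 4) V δ X G ω (Kf ((Cyc X G).image (shp ω)) (Rel X G ω)) N v hd hN hv hX hl hM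
    hG hne hω (fun p hp q _ => ⟨Nat.cast_nonneg _, kernel hHOM X G ω hP hne _ p hp q⟩)
  have e1 : j + 4 - 2 = j + 2 := by omega
  have e2 : 10 * (j + 4) - 16 = 10 * j + 24 := by omega
  rw [e1] at h6 hB
  rw [e2] at h7
  have h8 : (#G : ℝ) ^ 4 ≤ 2 * N ^ (4 * (j + 4)) * Ef G ((Cyc X G).image (shp ω)) (Rel X G ω) := by
    have a1 : (N ^ (j + 4)) ^ 4 * ((N ^ (j + 4)) ^ 3 * (3 + N ^ 2)) ≤ 4 * N ^ (7 * (j + 4) + 2) := by
      have b : 3 + N ^ 2 ≤ 4 * N ^ 2 := by nlinarith [one_le_pow₀ (n := 2) hN]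
      calc (N ^ (j + 4)) ^ 4 * ((N ^ (j + 4)) ^ 3 * (3 + N ^ 2))
          ≤ (N ^ (j + 4)) ^ 4 * ((N ^ (j + 4)) ^ 3 * (4 * N ^ 2)) := by gcongr
        _ = _ := by ring
    have a2 : (N ^ (j + 4)) ^ 4 * (#(Cyc X G) : ℝ) ≤
        N ^ (4 * (j + 4)) * Ef G ((Cyc X G).image (shp ω)) (Rel X G ω) := by
      rw [← pow_mul, mul_comm (j + 4) 4]; gcongr
    rw [mul_add] at h4
    linarith
  have h9 := large j N v #G _ _ L C hN hv hg0 (by linarith) (Nat.cast_nonneg _) h8 hB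
    (h6.trans (by gcongr))
  nlinarith

end Pool.Agent.P.MP_5f07f1_co.Z
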