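import Pool.Agent.P.MP_5f07f1_co.ZDefs

namespace Pool.Agent.P.MP_5f07f1_co.Z

open Finset MvPolynomial Pool.Agent.Lib.PolyPart Classical Module

namespace XRICH

variable {d : ℕ}

lemma rank_hU (w : E d) : finrank ℝ (hU w) = d := by
  let j : E d →ₗ[ℝ] ℝ × E d := LinearMap.prod (dotProductBilin ℝ ℝ w) LinearMap.id
  have e : hU w = LinearMap.range j := by
    ext p
    constructor
    · intro hp
      exact ⟨p.2, Prod.ext hp rfl⟩
    · rintro ⟨v, rfl⟩
      exact rfl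
  rw [e, LinearMap.finrank_range_of_inj fun a b h => congrArg Prod.snd h]
  simp

lemma hU_inj : Function.Injective (hU : E d → _) := fun w w' e =>
  dotProduct_eq _ _ fun v => by
    have h1 : (w ⬝ᵥ v, v) ∈ hU w := rfl
    rw [e] at h1
    exact Eq.symm h1

lemma hp_eq (Q : Finset (E d)) (w : E d) : ({z ∈ Q | hm z ∈ hU w} : Finset (E d)) = hp Q w :=
  filter_congr fun _ _ => Iff.rfl

/-- Rich nondegenerate hyperplanes through a flat. -/
lemma pencil (hPEN : S_PEN) (Q : Finset (E d)) (S : Finset (E d)) (F : Submodule ℝ (ℝ × E d))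
    (k : ℕ) (σ a : ℝ) (hk : finrank ℝ F + k = d) (hQ : #Q ≤ σ) (ha : 0 < a)
    (hS : ∀ w ∈ S, F ≤ hU w ∧ ND (1 / 2) hm (hU w) (hp Q w) ∧ a ≤ #(hp Q w)) :
    (#S : ℝ) ≤ (2 * σ / a) ^ k := by
  rw [← card_image_of_injective S hU_inj]
  refine hPEN _ _ hm Q k F _ (fun U => {z ∈ Q | hm z ∈ U}) σ a hQ ha fun U hU' => ?_
  obtain ⟨w, hw, rfl⟩ := mem_image.1 hU'
  obtain ⟨a1, a2, a3⟩ := hS w hw
  rw [hp_eq]
  exact ⟨a1, by rw [rank_hU, hk], filter_subset _ _, a2, a3⟩

end XRICH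

theorem p_RICH (hHYP : S_HYP) (hPEN : S_PEN) : S_RICH := by
  intro d hd
  obtain ⟨K₁, h1⟩ := hHYP d (by omega)
  refine ⟨max K₁ (d - 1), fun C => ?_⟩
  obtain ⟨C₁, hC₁, h1⟩ := h1 C
  refine ⟨max C₁ 2, hC₁.trans (le_max_left _ _), fun g hg W u hu hW => ?_⟩
  have hH := h1 g (hg.mono (le_max_left _ _) (le_max_left _ _))
  have hL : (2 : ℝ) ≤ g.L := (le_max_right _ _).trans hg.big
  have hN := hg.N1
  have hN0 : 0 < g.N := zero_lt_one.trans_le hN
  have hu0 : 0 < u := zero_lt_one.trans_le hu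
  have e1 : g.N ^ (d - 1) = g.N ^ (d - 2) * g.N := by
    rw [← pow_succ, show d - 2 + 1 = d - 1 by omega]
  have e2 : g.N ^ d = g.N ^ (d - 2) * g.N ^ 2 := by
    rw [← pow_add, show d - 2 + 2 = d by omega]
  have h2 := hH _ W hU (hp g.Q) 0 u 1 (Nat.zero_le _)
    (by
      rw [hg.top]
      calc _ ≤ g.N * g.N ^ 2 :=
            mul_le_mul_of_nonneg_right (hg.pow_le (le_max_right _ _)) (sq_nonneg _)
        _ = g.N ^ 3 := by ring
        _ ≤ _ := pow_le_pow_right₀ hN (by omega))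
    hu zero_le_one
    (fun w hw => by
      obtain ⟨a1, a2⟩ := hW w hw
      have hne : (hp g.Q w).Nonempty := by
        rw [← card_pos, ← Nat.cast_pos (α := ℝ)]
        exact lt_of_lt_of_le (by positivity) a2
      obtain ⟨z, hz⟩ := hne
      refine ⟨XRICH.rank_hU w, filter_subset _ _,
        ⟨g.l 0 z, fun x hx => hg.root _ (mem_filter.1 hx).1 _ (mem_filter.1 hz).1⟩, a1.1, ?_⟩
      rwa [hg.top, e1, ← mul_assoc, mul_div_cancel_right₀ _ hN0.ne'])
    (fun x F => by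
      rw [← Nat.cast_one (R := ℝ), Nat.cast_le]
      refine card_le_one.2 fun a ha b hb => ?_
      simp only [mem_filter] at ha hb
      exact XRICH.hU_inj (ha.2.2.trans hb.2.2.symm))
    (fun k x F _ hk _ => by
      refine (XRICH.pencil hPEN g.Q _ F k (g.N ^ d) (u * g.N ^ (d - 2)) hk hg.card
        (by positivity) fun w hw => ?_).trans ?_
      · simp only [mem_filter] at hw
        exact ⟨hw.2.2, hW w hw.1⟩
      · rw [one_mul]
        refine pow_le_pow_left₀ (by positivity) ?_ k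
        rw [div_le_iff₀ (by positivity), e2]
        have h3 : 2 ≤ g.L ^ 2 * u := by nlinarith
        have h4 : 0 ≤ g.N ^ (d - 2) * g.N ^ 2 := by positivity
        nlinarith)
  have h3 : (#W : ℝ) * (u * g.N ^ (d - 2)) ≤ ∑ w ∈ W, (#(hp g.Q w) : ℝ) := by
    rw [← nsmul_eq_mul]
    exact card_nsmul_le_sum _ _ _ fun w hw => (hW w hw).2
  have e3 : u ^ (d - 1) = u ^ (d - 2) * u := by
    rw [← pow_succ, show d - 2 + 1 = d - 1 by omega]
  have e4 : g.N ^ (2 * d) = g.N ^ (d + 2) * g.N ^ (d - 2) := by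
    rw [← pow_add, show d + 2 + (d - 2) = 2 * d by omega]
  have h4 := h3.trans h2
  rw [le_div_iff₀ (by positivity), e4] at h4
  rw [le_div_iff₀ (by positivity), e3]
  refine le_trans (le_of_mul_le_mul_right ?_ (pow_pos hN0 (d - 2)))
    (mul_le_mul_of_nonneg_right (le_max_left C₁ 2) (by positivity))
  linarith

end Pool.Agent.P.MP_5f07f1_co.Z
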