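import Pool.Agent.P.MP_5f07f1_co.ZDefs

/-! One round of the tree with polynomial constants. -/

namespace Pool.Agent.P.MP_5f07f1_co.Z

open Finset MvPolynomial Pool.Agent.Lib.PolyPart Classical Module

namespace XRND

/-- Bounded by a power of `c + 2`. -/
def PB (f : ℕ → ℕ) : Prop := ∃ A : ℕ, ∀ c, f c ≤ (c + 2) ^ A

theorem PB.const (k : ℕ) : PB fun _ => k :=
  ⟨k, fun c => (Nat.lt_two_pow_self (n := k)).le.trans (Nat.pow_le_pow_left (by omega) _)⟩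

theorem PB.self : PB fun c => c := ⟨1, fun c => by simp⟩

theorem PB.mul {f g : ℕ → ℕ} (hf : PB f) (hg : PB g) : PB fun c => f c * g c := by
  obtain ⟨A, hA⟩ := hf
  obtain ⟨B, hB⟩ := hg
  exact ⟨A + B, fun c => by rw [pow_add]; exact Nat.mul_le_mul (hA c) (hB c)⟩

theorem PB.add {f g : ℕ → ℕ} (hf : PB f) (hg : PB g) : PB fun c => f c + g c := by
  obtain ⟨A, hA⟩ := hf
  obtain ⟨B, hB⟩ := hg
  refine ⟨A + B + 1, fun c => ?_⟩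
  have h1 : f c ≤ (c + 2) ^ (A + B) := (hA c).trans (Nat.pow_le_pow_right (by omega) (by omega))
  have h2 : g c ≤ (c + 2) ^ (A + B) := (hB c).trans (Nat.pow_le_pow_right (by omega) (by omega))
  have h3 : (c + 2) ^ (A + B) * 2 ≤ (c + 2) ^ (A + B) * (c + 2) :=
    Nat.mul_le_mul_left _ (by omega)
  rw [pow_succ]
  show f c + g c ≤ _
  omega

theorem PB.pow {f : ℕ → ℕ} (hf : PB f) (k : ℕ) : PB fun c => f c ^ k := by
  obtain ⟨A, hA⟩ := hf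
  exact ⟨A * k, fun c => by rw [pow_mul]; exact Nat.pow_le_pow_left (hA c) _⟩

theorem PB.mono {f g : ℕ → ℕ} (hf : PB f) (h : ∀ c, g c ≤ f c) : PB g :=
  let ⟨A, hA⟩ := hf
  ⟨A, fun c => (h c).trans (hA c)⟩

theorem PB.four {f₁ f₂ f₃ f₄ : ℕ → ℕ} (h₁ : PB f₁) (h₂ : PB f₂) (h₃ : PB f₃) (h₄ : PB f₄) :
    ∃ A : ℕ, ∀ c, f₁ c ≤ (c + 2) ^ A ∧ f₂ c ≤ (c + 2) ^ A ∧ f₃ c ≤ (c + 2) ^ A ∧
      f₄ c ≤ (c + 2) ^ A := by
  obtain ⟨A, hA⟩ := ((h₁.add h₂).add h₃).add h₄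
  refine ⟨A, fun c => ?_⟩
  have := hA c
  simp only at this
  omega

theorem le_rpow {Λ N : ℕ} {η : ℝ} (hN : 1 ≤ N * η) :
    (Λ : ℝ) ≤ ((2 ^ ((Nat.log 2 Λ + 1) * N) : ℕ) : ℝ) ^ η := by
  have h1 : (Λ : ℝ) ≤ (2 : ℝ) ^ (Nat.log 2 Λ + 1) := by
    exact_mod_cast (Nat.lt_pow_succ_log_self one_lt_two Λ).le
  have h2 : (1 : ℝ) ≤ (2 : ℝ) ^ (Nat.log 2 Λ + 1) := one_le_pow₀ one_le_two
  rw [Nat.cast_pow, Nat.cast_ofNat, pow_mul, ← Real.rpow_natCast _ N,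
    ← Real.rpow_mul (by positivity)]
  exact h1.trans (Real.self_le_rpow_of_one_le h2 hN)

theorem pow_log_le {Λ : ℕ} (N : ℕ) (h : Λ ≠ 0) : 2 ^ ((Nat.log 2 Λ + 1) * N) ≤ (Λ * 2) ^ N := by
  rw [pow_mul, pow_succ]
  exact Nat.pow_le_pow_left (Nat.mul_le_mul_right _ (Nat.pow_log_le_self 2 h)) _

theorem round (hSP : S_SP) {d j c a κ K m : ℕ}
    (hcov : ∀ T : Tw d (j + 1) c, ∃ Δ : MP (j + 1), Δ ≠ 0 ∧ Δ.totalDegree ≤ a ∧
      ∀ h : MP (j + 1), Cov T.X (aeval T.y (Δ * h)) a)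
    (hκ : ∀ (Δ D Λ : ℕ), 1 ≤ D → (∀ e ≤ j + 1, κ * (4 * Δ + 4) ^ e ≤ Λ * D ^ e) →
      ∀ (Q : Finset (E d)) (l : E d → Lab d) (T : Lab d → Tw d (j + 1) c) (x₀ : Lab d → E d)
        (G : Lab d → MP d), (∀ b, (G b).totalDegree ≤ Δ) → (∀ b, Cov (T b).X (G b) a) →
        (∀ x ∈ Q, x ∈ connectedComponentIn (T (l x)).X (x₀ (l x)) ∧ eval x (G (l x)) ≠ 0) →
        Lvl (j + 1) D Λ Q l (fun x => connectedComponentIn ((T (l x)).X ∩ NZ (G (l x))) x :: l x)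
          (fun x => connectedComponentIn (T (l x)).X (x₀ (l x))))
    (hK : ∀ (T : Lab d → Tw d (j + 1) c) (ψ : Lab d → MP (j + 1)),
      (∀ b, ψ b ≠ 0 ∧ (ψ b).totalDegree ≤ a + 2 * (j + 1) ^ 2 * 2 ^ m) →
      ∀ (l : E d → Lab d) (B : Finset (E d)), B.Nonempty →
      (∀ x ∈ B, x ∈ (T (l x)).X ∧ eval ((T (l x)).yv x) (ψ (l x)) = 0) →
      ∃ Q ⊆ B, #B ≤ K * #Q ∧
        ∃ (T' : Lab d → Tw d j ((c + 1) * (a + 2 * (j + 1) ^ 2 * 2 ^ m + 1))) (x₀ : Lab d → E d),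
          ∀ x ∈ Q, x ∈ connectedComponentIn (T' (l x)).X (x₀ (l x)))
    (n B : ℕ) (Q : Finset (E d)) (l : E d → Lab d) (hS : BuildX.St (j + 1) c n B Q l)
    (hB : B * (2 ^ m) ^ (j + 1) ≤ n) :
    (∃ Q' ⊆ Q, #Q ≤ 2 * #Q' ∧ ∃ l' core,
      Lvl (j + 1) (2 ^ m) ((κ + 4) * (4 * a + 8 * (j + 1) ^ 2 + 4) ^ (j + 1)) Q' l l' core ∧
      BuildX.St (j + 1) c n (B * (2 ^ m) ^ (j + 1)) Q' l') ∨
    ∃ Q' ⊆ Q, #Q ≤ 2 * K * #Q' ∧
      BuildX.St j ((c + 1) * (a + 2 * (j + 1) ^ 2 * 2 ^ m + 1)) n B Q' l := by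
  set b := 4 * a + 8 * (j + 1) ^ 2 + 4 with hb
  set Δ := a + 2 * (j + 1) ^ 2 * 2 ^ m with hΔ
  have hb1 : 1 ≤ b := by omega
  have hD : 1 ≤ 2 ^ m := Nat.one_le_two_pow
  obtain ⟨T, x₀, hT⟩ := hS.tw
  choose Δb h1 h2 h3 using hcov
  choose h h4 h4' h5 using fun b : Lab d =>
    hSP (E d) (j + 1) m (T b).yv {z ∈ Q | l z = b} (by omega)
  set g : Lab d → MP (j + 1) := fun b => Δb (T b) * ∏ i, h b i with hg
  have hg1 : ∀ b, g b ≠ 0 ∧ (g b).totalDegree ≤ Δ := fun b =>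
    ⟨mul_ne_zero (h1 _) (prod_ne_zero_iff.2 fun i _ => h4 b i),
      (totalDegree_mul _ _).trans (add_le_add (h2 _) ((totalDegree_finsetProd _ _).trans (h4' b)))⟩
  obtain ⟨N, hN, hs⟩ : ∃ N : Finset (E d), (∀ x ∈ N, x ∈ Q ∧
      eval x (aeval (T (l x)).y (g (l x))) = 0) ∧
      #{x ∈ Q | eval x (aeval (T (l x)).y (g (l x))) ≠ 0} + #N = #Q :=
    ⟨_, fun x hx => ⟨(mem_filter.1 hx).1, not_not.1 (mem_filter.1 hx).2⟩,
      card_filter_add_card_filter_not _⟩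
  by_cases hc : #Q ≤ 2 * #{x ∈ Q | eval x (aeval (T (l x)).y (g (l x))) ≠ 0}
  · refine Or.inl ⟨_, filter_subset _ _, hc, _, _, hκ Δ _ _ hD (fun e he => ?_) _ l T x₀
      (fun b => aeval (T b).y (g b)) (fun b => ?_) (fun b => h3 _ _)
      fun x hx => ⟨hT x (mem_filter.1 hx).1, (mem_filter.1 hx).2⟩,
      ⟨fun b => T b.tail, fun b => x₀ b.tail, fun x hx => hT x (mem_filter.1 hx).1⟩,
      fun b' => ?_, hB, le_mul_of_le_of_one_le hS.pos (Nat.one_le_pow _ _ hD)⟩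
    · have e1 : 4 * Δ + 4 ≤ b * 2 ^ m := by
        have e2 : 4 * a + 4 ≤ (4 * a + 4) * 2 ^ m := le_mul_of_le_of_one_le le_rfl hD
        rw [hΔ, hb]
        nlinarith
      calc _ ≤ (κ + 4) * (b * 2 ^ m) ^ e := by gcongr; omega
        _ ≤ _ := by
          rw [mul_pow, ← mul_assoc]
          gcongr
    · exact (totalDegree_aeval_le _ 1 (T b).nice'.1 _).trans (by simpa using (hg1 b).2)
    · rcases b' with _ | ⟨S, b⟩
      · simp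
      rcases Finset.eq_empty_or_nonempty {z ∈ {x ∈ Q | eval x (aeval (T (l x)).y (g (l x))) ≠ 0} |
        connectedComponentIn ((T (l z)).X ∩ NZ (aeval (T (l z)).y (g (l z)))) z :: l z = S :: b}
        with e | ⟨z, hz⟩
      · rw [e]
        simp
      obtain ⟨σ, hσ⟩ := BuildX.child (T b) (Δb (T b)) (h b) z
      refine le_trans ?_ (hS.size b)
      rw [mul_comm B, ← mul_assoc, ← pow_mul, mul_comm _ (2 ^ _)]
      refine Nat.mul_le_mul_right _ (le_trans (Nat.mul_le_mul_left _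
        (card_le_card fun x hx => ?_)) (h5 b σ))
      obtain ⟨-, z2⟩ := mem_filter.1 hz
      obtain ⟨x1, x2⟩ := mem_filter.1 hx
      obtain ⟨x3, x4⟩ := mem_filter.1 x1
      obtain ⟨z3, z4⟩ := List.cons.inj z2
      obtain ⟨x5, x6⟩ := List.cons.inj x2
      refine mem_filter.2 ⟨mem_filter.2 ⟨x3, x6⟩, hσ x ?_⟩
      rw [z4] at z3
      change x ∈ connectedComponentIn ((T b).X ∩ NZ (aeval (T b).y (g b))) z
      rw [z3, ← x5]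
      exact mem_connectedComponentIn ⟨connectedComponentIn_subset _ _ (hT x x3), x4⟩
  · obtain ⟨Q', q1, q2, q3⟩ := hK T g hg1 l N (card_pos.1 (by omega)) fun x hx =>
      ⟨connectedComponentIn_subset _ _ (hT x (hN x hx).1), by
        rw [← Tw.eval_aeval_y]
        exact (hN x hx).2⟩
    have q4 : Q' ⊆ Q := fun x hx => (hN x (q1 hx)).1
    refine Or.inr ⟨Q', q4, ?_, q3, BuildX.size_mono q4 hS.size, hS.top, hS.pos⟩
    rw [mul_assoc]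
    omega

end XRND

open XRND in
theorem p_RND (hSP : S_SP) (hCOV : S_COV) (hLV : S_LV) (hPCS : S_PCS) : S_RND := by
  intro d j η hη
  obtain ⟨A₁, h₁⟩ := hCOV d (j + 1)
  obtain ⟨A₂, h₂⟩ := hLV d (j + 1) (by omega)
  obtain ⟨A₃, h₃⟩ := hPCS d j
  obtain ⟨N, hN⟩ := exists_nat_ge (1 / η)
  have hN1 : (1 : ℝ) ≤ N * η := (div_le_iff₀ hη).1 hN
  have hN0 : 1 ≤ N := by
    rcases Nat.eq_zero_or_pos N with e | e
    · rw [e, Nat.cast_zero, zero_mul] at hN1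
      exact absurd hN1 (by norm_num)
    · exact e
  obtain ⟨a, ha⟩ : ∃ a : ℕ → ℕ, a = fun c => (c + 2) ^ A₁ := ⟨_, rfl⟩
  obtain ⟨κ, hκ⟩ : ∃ κ : ℕ → ℕ, κ = fun c => (c + a c + 2) ^ A₂ := ⟨_, rfl⟩
  obtain ⟨Λ, hΛ⟩ : ∃ Λ : ℕ → ℕ,
      Λ = fun c => (κ c + 4) * (4 * a c + 8 * (j + 1) ^ 2 + 4) ^ (j + 1) := ⟨_, rfl⟩
  obtain ⟨m, hm⟩ : ∃ m : ℕ → ℕ, m = fun c => (Nat.log 2 (Λ c) + 1) * N := ⟨_, rfl⟩
  have h4 : ∀ c, 4 ≤ Λ c := fun c => by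
    rw [hΛ]
    exact le_mul_of_le_of_one_le (by omega) (Nat.one_le_pow _ _ (by omega))
  have pa : PB a := ⟨A₁, fun c => by rw [ha]⟩
  have pκ : PB κ := by
    rw [hκ]
    exact ((PB.self.add pa).add (PB.const 2)).pow A₂
  have pΛ : PB Λ := by
    rw [hΛ]
    exact (pκ.add (PB.const 4)).mul
      (((((PB.const 4).mul pa).add (PB.const _)).add (PB.const 4)).pow (j + 1))
  have pD : PB fun c => 2 ^ m c := ((pΛ.mul (PB.const 2)).pow N).mono fun c => by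
    rw [hm]
    exact pow_log_le N (by have := h4 c; omega)
  have pΔ : PB fun c => a c + 2 * (j + 1) ^ 2 * 2 ^ m c := pa.add ((PB.const _).mul pD)
  obtain ⟨A, hA⟩ := PB.four pD pΛ ((PB.self.add (PB.const 1)).mul (pΔ.add (PB.const 1)))
    ((PB.const 2).mul (((PB.self.add pΔ).add (PB.const 2)).pow A₃))
  refine ⟨A, fun c => ⟨_, _, _, _, (hA c).1, (hA c).2.1, (hA c).2.2.1, (hA c).2.2.2, h4 c, ?_, ?_,
    fun n B Q l hS hB => ?_⟩⟩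
  · rw [hm]
    exact le_rpow hN1
  · rw [hm]
    exact (pow_one 2).ge.trans (Nat.pow_le_pow_right two_pos (Nat.mul_pos (by omega) hN0))
  · have e : Λ c = (κ c + 4) * (4 * a c + 8 * (j + 1) ^ 2 + 4) ^ (j + 1) := by rw [hΛ]
    rw [e]
    refine round hSP (fun T => ?_) (fun Δ D L => ?_) (h₃ c _) n B Q l hS hB
    · rw [ha]
      exact h₁ c T
    · rw [hκ]
      exact h₂ c (a c) Δ D L

end Pool.Agent.P.MP_5f07f1_co.Z
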