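import Pool.Agent.P.MP_5f07f1_co.ZDefs

namespace Pool.Agent.P.MP_5f07f1_co.Z

open Finset MvPolynomial Pool.Agent.Lib.PolyPart Classical Module

namespace XRS

variable {V : Type} [AddCommGroup V] [Module ℝ V]

lemma ex_dual (S : Finset V) : ∃ π : Dual ℝ V, ∀ v ∈ S, π v = 0 → v = 0 := by
  have : Finite {v // v ∈ S ∧ v ≠ 0} :=
    Set.Finite.subset S.finite_toSet fun v hv => hv.1
  obtain ⟨π, h⟩ := Module.exists_dual_forall_apply_ne_zero (K := ℝ)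
    (fun v : {v // v ∈ S ∧ v ≠ 0} => v.1) fun v => v.2.2
  exact ⟨π, fun v hv h0 => by_contra fun hne => h ⟨v, hv, hne⟩ h0⟩

/-- The point of a pair. -/
def pt (π : Dual ℝ V) (x : (ℝ × V) × (ℝ × V)) : ℝ × ℝ × ℝ × ℝ :=
  (1, x.1.1, π x.1.2, x.1.1 * π x.2.2)

/-- The equation of the plane of a pair. -/
def eqn (π : Dual ℝ V) (y : (ℝ × V) × (ℝ × V)) : Dual ℝ (ℝ × ℝ × ℝ × ℝ) where
  toFun w := y.2.1 * w.2.2.1 - π y.2.2 * w.2.1 + w.2.2.2 - y.2.1 * π y.1.2 * w.1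
  map_add' a b := by
    simp only [Prod.fst_add, Prod.snd_add]
    ring
  map_smul' a b := by
    simp only [Prod.smul_fst, Prod.smul_snd, smul_eq_mul, RingHom.id_apply]
    ring

def pl (π : Dual ℝ V) (y : (ℝ × V) × (ℝ × V)) : Submodule ℝ (ℝ × ℝ × ℝ × ℝ) :=
  LinearMap.ker (eqn π y)

lemma mem_pl {π : Dual ℝ V} {y : (ℝ × V) × (ℝ × V)} {w : ℝ × ℝ × ℝ × ℝ} : w ∈ pl π y ↔
    y.2.1 * w.2.2.1 - π y.2.2 * w.2.1 + w.2.2.2 - y.2.1 * π y.1.2 * w.1 = 0 := Iff.rfl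

lemma rk_pl (π : Dual ℝ V) (y : (ℝ × V) × (ℝ × V)) : finrank ℝ (pl π y) = 3 := by
  have h : eqn π y ≠ 0 := fun e => by
    have h1 : ((0, 0, 0, 1) : ℝ × ℝ × ℝ × ℝ) ∈ pl π y := by
      rw [pl, e]
      exact LinearMap.mem_ker.2 rfl
    rw [mem_pl] at h1
    simp at h1
  have h1 := Module.Dual.finrank_ker_add_one_of_ne_zero h
  have h2 : finrank ℝ (ℝ × ℝ × ℝ × ℝ) = 4 := by simp
  rw [h2] at h1
  exact Nat.succ_injective h1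

lemma det_zero {U : Submodule ℝ (ℝ × ℝ × ℝ × ℝ)} (hU : finrank ℝ U < 3) {u v w : ℝ × ℝ × ℝ × ℝ}
    (hu : u ∈ U) (hv : v ∈ U) (hw : w ∈ U) (u1 : u.1 = 1) (v1 : v.1 = 1) (w1 : w.1 = 1) :
    (v.2.1 - u.2.1) * (w.2.2.1 - u.2.2.1) - (w.2.1 - u.2.1) * (v.2.2.1 - u.2.2.1) = 0 := by
  by_contra hd
  have hl : LinearIndependent ℝ ![(⟨u, hu⟩ : U), ⟨v, hv⟩, ⟨w, hw⟩] := by
    refine Fintype.linearIndependent_iff.2 fun g hg => ?_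
    rw [Fin.sum_univ_three] at hg
    have h0 : g 0 • u + g 1 • v + g 2 • w = 0 := congrArg Subtype.val hg
    have h1 : g 0 * u.1 + g 1 * v.1 + g 2 * w.1 = 0 := congrArg (fun z => z.1) h0
    have h2 : g 0 * u.2.1 + g 1 * v.2.1 + g 2 * w.2.1 = 0 := congrArg (fun z => z.2.1) h0
    have h3 : g 0 * u.2.2.1 + g 1 * v.2.2.1 + g 2 * w.2.2.1 = 0 :=
      congrArg (fun z => z.2.2.1) h0
    rw [u1, v1, w1] at h1
    have e0 : g 0 = -g 1 - g 2 := by linarith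
    rw [e0] at h2 h3
    have e1 : g 1 = 0 := (mul_eq_zero.1 (by
      linear_combination (w.2.2.1 - u.2.2.1) * h2 - (w.2.1 - u.2.1) * h3)).resolve_right hd
    have e2 : g 2 = 0 := (mul_eq_zero.1 (by
      linear_combination (v.2.1 - u.2.1) * h3 - (v.2.2.1 - u.2.2.1) * h2)).resolve_right hd
    intro i
    fin_cases i
    · change g 0 = 0
      rw [e0, e1, e2]
      simp
    · exact e1
    · exact e2
  have := hl.fintype_card_le_finrank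
  rw [Fintype.card_fin] at this
  omega

/-- The pairs with a given product of slopes. -/
noncomputable def lev (𝒯 𝒜 : Finset (ℝ × V)) (c : ℝ) : Finset ((ℝ × V) × (ℝ × V)) :=
  {x ∈ 𝒯 ×ˢ 𝒜 | x.1.1 * x.2.1 = c}

lemma mem_lev {𝒯 𝒜 : Finset (ℝ × V)} {c : ℝ} {x : (ℝ × V) × (ℝ × V)} :
    x ∈ lev 𝒯 𝒜 c ↔ (x.1 ∈ 𝒯 ∧ x.2 ∈ 𝒜) ∧ x.1.1 * x.2.1 = c := by
  rw [lev, mem_filter, mem_product]

/-- The functional is generic. -/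
structure Gn (π : Dual ℝ V) (𝒯 𝒜 : Finset (ℝ × V)) : Prop where
  ne : ∀ T ∈ 𝒯, T.1 ≠ 0
  sub : 𝒜 ⊆ 𝒯
  inj : ∀ T ∈ 𝒯, ∀ S ∈ 𝒯, π T.2 = π S.2 → T.2 = S.2
  col : ∀ T ∈ 𝒯, ∀ S ∈ 𝒯, ∀ R ∈ 𝒯,
    (S.1 - T.1) * (π R.2 - π T.2) - (R.1 - T.1) * (π S.2 - π T.2) = 0 →
    (S.1 - T.1) • (R.2 - T.2) - (R.1 - T.1) • (S.2 - T.2) = 0

lemma ex_gn {𝒯 𝒜 : Finset (ℝ × V)} (h0 : ∀ T ∈ 𝒯, T.1 ≠ 0) (hs : 𝒜 ⊆ 𝒯) :
    ∃ π : Dual ℝ V, Gn π 𝒯 𝒜 := by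
  obtain ⟨π, h⟩ := ex_dual (((𝒯 ×ˢ 𝒯).image fun p => p.1.2 - p.2.2) ∪ (𝒯 ×ˢ 𝒯 ×ˢ 𝒯).image
    fun p => (p.2.1.1 - p.1.1) • (p.2.2.2 - p.1.2) - (p.2.2.1 - p.1.1) • (p.2.1.2 - p.1.2))
  refine ⟨π, h0, hs, fun T hT S hS e => sub_eq_zero.1 (h _ (mem_union_left _
    (mem_image.2 ⟨(T, S), mem_product.2 ⟨hT, hS⟩, rfl⟩)) (by rw [map_sub, e, sub_self])),
    fun T hT S hS R hR e => h _ (mem_union_right _ (mem_image.2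
      ⟨(T, S, R), mem_product.2 ⟨hT, mem_product.2 ⟨hS, hR⟩⟩, rfl⟩)) ?_⟩
  simpa only [map_sub, map_smul, smul_eq_mul] using e

variable {π : Dual ℝ V} {𝒯 𝒜 : Finset (ℝ × V)} {c : ℝ}

lemma Gn.ext (h : Gn π 𝒯 𝒜) {x y : (ℝ × V) × (ℝ × V)} (hx : x ∈ lev 𝒯 𝒜 c) (hy : y ∈ lev 𝒯 𝒜 c)
    (e1 : x.1.1 = y.1.1 ∨ x.2.1 = y.2.1) (e2 : π x.1.2 = π y.1.2) (e3 : π x.2.2 = π y.2.2) :
    x = y := by
  obtain ⟨⟨x1, x2⟩, x3⟩ := mem_lev.1 hx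
  obtain ⟨⟨y1, y2⟩, y3⟩ := mem_lev.1 hy
  have e4 : x.1.1 = y.1.1 ∧ x.2.1 = y.2.1 := by
    rcases e1 with e | e
    · exact ⟨e, mul_left_cancel₀ (h.ne _ x1) (by rw [x3, e, y3])⟩
    · exact ⟨mul_right_cancel₀ (h.ne _ (h.sub x2)) (by rw [x3, e, y3]), e⟩
  exact Prod.ext (Prod.ext e4.1 (h.inj _ x1 _ y1 e2))
    (Prod.ext e4.2 (h.inj _ (h.sub x2) _ (h.sub y2) e3))

lemma Gn.np (h : Gn π 𝒯 𝒜) : NP (pt π) (lev 𝒯 𝒜 c) := by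
  refine ⟨fun x _ e => one_ne_zero (congrArg Prod.fst e), fun x hx y hy a e => ?_⟩
  have h1 : (1 : ℝ) = a * 1 := congrArg Prod.fst e
  rw [show a = 1 by linarith, one_smul] at e
  have h2 : y.1.1 = x.1.1 := congrArg (fun z => z.2.1) e
  have h3 : π y.1.2 = π x.1.2 := congrArg (fun z => z.2.2.1) e
  have h4 : y.1.1 * π y.2.2 = x.1.1 * π x.2.2 := congrArg (fun z => z.2.2.2) e
  rw [h2] at h4
  exact h.ext hy hx (Or.inl h2) h3 (mul_left_cancel₀ (h.ne _ (mem_lev.1 hx).1.1) h4)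

lemma Gn.pl_inj (h : Gn π 𝒯 𝒜) : Set.InjOn (pl π) (lev 𝒯 𝒜 c : Set _) := by
  intro x hx y hy e
  have h1 : ((0, 0, 1, -x.2.1) : ℝ × ℝ × ℝ × ℝ) ∈ pl π y := e ▸ mem_pl.2 (by ring)
  have h2 : ((0, 1, 0, π x.2.2) : ℝ × ℝ × ℝ × ℝ) ∈ pl π y := e ▸ mem_pl.2 (by ring)
  have h3 : ((1, 0, 0, x.2.1 * π x.1.2) : ℝ × ℝ × ℝ × ℝ) ∈ pl π y := e ▸ mem_pl.2 (by ring)
  rw [mem_pl] at h1 h2 h3
  dsimp only at h1 h2 h3
  have e1 : x.2.1 = y.2.1 := by linarith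
  refine h.ext hx hy (Or.inr e1) (mul_left_cancel₀ (h.ne _ (h.sub (mem_lev.1 hx).1.2)) ?_)
    (by linarith)
  rw [← e1] at h3
  linarith

lemma Gn.small (h : Gn π 𝒯 𝒜) {κ k : ℝ} (hκ : 0 < κ) (hk : 0 ≤ k)
    (h1 : ∀ t : ℝ, (#{T ∈ 𝒜 | T.1 = t} : ℝ) ≤ κ)
    (h2 : ∀ v w : V, (#{T ∈ 𝒯 | app T v = w} : ℝ) ≤ k) {y : (ℝ × V) × (ℝ × V)}
    (hy : y ∈ lev 𝒯 𝒜 c) {U : Submodule ℝ (ℝ × ℝ × ℝ × ℝ)} (hU : U < pl π y) :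
    (cnt (pt π) (lev 𝒯 𝒜 c) U : ℝ) ≤ κ + k := by
  have hr : finrank ℝ U < 3 := rk_pl π y ▸ Submodule.finrank_lt_finrank_of_lt hU
  have hl := h.ne _ (h.sub (mem_lev.1 hy).1.2)
  obtain ⟨Y, hY⟩ : ∃ Y, Y = {z ∈ lev 𝒯 𝒜 c | pt π z ∈ U} := ⟨_, rfl⟩
  have mY : ∀ z, z ∈ Y ↔ z ∈ lev 𝒯 𝒜 c ∧ pt π z ∈ U := fun z => by rw [hY, mem_filter]
  have eY : ∀ z ∈ Y, y.2.1 * π z.1.2 - π y.2.2 * z.1.1 + z.1.1 * π z.2.2 -
      y.2.1 * π y.1.2 * 1 = 0 := fun z hz => mem_pl.1 (hU.le ((mY z).1 hz).2)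
  rw [cnt, ← hY]
  by_cases hc : ∀ x ∈ Y, ∀ z ∈ Y, x.1.1 = z.1.1
  · rcases Y.eq_empty_or_nonempty with e | ⟨x, hx⟩
    · rw [e, card_empty, Nat.cast_zero]
      linarith
    refine le_trans (le_trans (Nat.cast_le.2 (card_le_card_of_injOn (fun z => z.2)
      (fun z hz => ?_) fun z hz w hw e => ?_)) (h1 x.2.1)) (by linarith)
    · obtain ⟨⟨x1, -⟩, x3⟩ := mem_lev.1 ((mY x).1 hx).1
      obtain ⟨⟨-, z2⟩, z3⟩ := mem_lev.1 ((mY z).1 hz).1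
      exact mem_coe.2 (mem_filter.2 ⟨z2, mul_left_cancel₀ (h.ne _ x1)
        (by rw [x3, hc x hx z hz, z3])⟩)
    · have e1 := eY z hz
      have e2 := eY w hw
      have e3 : z.2 = w.2 := e
      rw [hc z hz w hw, e3] at e1
      exact h.ext ((mY z).1 hz).1 ((mY w).1 hw).1 (Or.inl (hc z hz w hw))
        (mul_left_cancel₀ hl (by linarith)) (by rw [e3])
  · push Not at hc
    obtain ⟨x, hx, x', hx', hne⟩ := hc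
    have hd : x'.1.1 - x.1.1 ≠ 0 := sub_ne_zero.2 hne.symm
    refine le_trans (le_trans (Nat.cast_le.2 (card_le_card_of_injOn (fun z => z.1)
      (fun z hz => ?_) fun z hz w hw e => ?_))
      (h2 (-((x'.1.1 - x.1.1)⁻¹ • (x'.1.2 - x.1.2)))
        (app x.1 (-((x'.1.1 - x.1.1)⁻¹ • (x'.1.2 - x.1.2)))))) (by linarith)
    · have z1 := (mem_lev.1 ((mY z).1 hz).1).1.1
      have e1 := h.col _ (mem_lev.1 ((mY x).1 hx).1).1.1 _ (mem_lev.1 ((mY x').1 hx').1).1.1 _ z1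
        (det_zero hr ((mY x).1 hx).2 ((mY x').1 hx').2 ((mY z).1 hz).2 rfl rfl rfl)
      refine mem_coe.2 (mem_filter.2 ⟨z1, ?_⟩)
      have e2 : z.1.2 - x.1.2 = (z.1.1 - x.1.1) • (x'.1.1 - x.1.1)⁻¹ • (x'.1.2 - x.1.2) := by
        rw [smul_comm, ← sub_eq_zero.1 e1, inv_smul_smul₀ hd]
      rw [app, app, eq_add_of_sub_eq e2]
      module
    · have e1 := eY z hz
      have e2 := eY w hw
      have e3 : z.1 = w.1 := e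
      rw [e3] at e1
      exact h.ext ((mY z).1 hz).1 ((mY w).1 hw).1 (Or.inl (by rw [e3])) (by rw [e3])
        (mul_left_cancel₀ (h.ne _ (mem_lev.1 ((mY w).1 hw).1).1.1) (by linarith))

lemma Gn.card_lev (h : Gn π 𝒯 𝒜) {κ B : ℝ} (hκ : 0 < κ) (hB : #𝒯 ≤ B)
    (h1 : ∀ t : ℝ, (#{T ∈ 𝒜 | T.1 = t} : ℝ) ≤ κ) : (#(lev 𝒯 𝒜 c) : ℝ) ≤ κ * B := by
  rw [card_eq_sum_card_fiberwise (f := fun x => x.1) (t := 𝒯)
    fun x hx => (mem_lev.1 hx).1.1, Nat.cast_sum]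
  refine le_trans (sum_le_card_nsmul _ _ κ fun T hT => le_trans (Nat.cast_le.2
    (card_le_card_of_injOn (fun z => z.2) (fun z hz => ?_) fun z hz w hw e => ?_))
    (h1 (c / T.1))) ?_
  · obtain ⟨z1, z2⟩ := mem_filter.1 (mem_coe.1 hz)
    refine mem_coe.2 (mem_filter.2 ⟨(mem_lev.1 z1).1.2, ?_⟩)
    rw [eq_div_iff (h.ne T hT), mul_comm, ← z2]
    exact (mem_lev.1 z1).2
  · exact Prod.ext ((mem_filter.1 (mem_coe.1 hz)).2.trans (mem_filter.1 (mem_coe.1 hw)).2.symm) e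
  · rw [nsmul_eq_mul, mul_comm]
    exact mul_le_mul_of_nonneg_left hB hκ.le

lemma Gn.count (h : Gn π 𝒯 𝒜) :
    #{q ∈ (𝒜 ×ˢ 𝒯) ×ˢ (𝒜 ×ˢ 𝒯) | dv q.1.2 q.1.1 = dv q.2.2 q.2.1} ≤
      ∑ y ∈ 𝒯 ×ˢ 𝒜, cnt (pt π) (lev 𝒯 𝒜 (y.1.1 * y.2.1)) (pl π y) := by
  rw [card_eq_sum_card_fiberwise (f := fun q => (q.2.2, q.1.1)) (t := 𝒯 ×ˢ 𝒜) fun q hq => by
    obtain ⟨q1, q2⟩ := mem_product.1 (mem_filter.1 (mem_coe.1 hq)).1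
    exact mem_coe.2 (mem_product.2 ⟨(mem_product.1 q2).2, (mem_product.1 q1).1⟩)]
  refine sum_le_sum fun y _ => card_le_card_of_injOn (fun q => (q.1.2, q.2.1))
    (fun q hq => ?_) fun q hq r hr e => ?_
  · obtain ⟨q0, rfl⟩ := mem_filter.1 (mem_coe.1 hq)
    obtain ⟨q0, e⟩ := mem_filter.1 q0
    obtain ⟨q1, q2⟩ := mem_product.1 q0
    obtain ⟨a1, a2⟩ := mem_product.1 q1
    obtain ⟨a3, a4⟩ := mem_product.1 q2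
    have n1 := h.ne _ (h.sub a1)
    have n2 := h.ne _ (h.sub a3)
    have e1 : q.1.2.1 / q.1.1.1 = q.2.2.1 / q.2.1.1 := congrArg Prod.fst e
    have e2 : q.1.2.2 - (q.1.2.1 / q.1.1.1) • q.1.1.2 = q.2.2.2 - (q.2.2.1 / q.2.1.1) • q.2.1.2 :=
      congrArg Prod.snd e
    rw [← e1] at e2
    have e3 := congrArg π e2
    rw [map_sub, map_sub, map_smul, map_smul, smul_eq_mul, smul_eq_mul] at e3
    refine mem_coe.2 (mem_filter.2 ⟨mem_lev.2 ⟨⟨a2, a3⟩, ?_⟩, mem_pl.2 ?_⟩)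
    · exact ((div_eq_div_iff n1 n2).1 e1)
    · change q.1.1.1 * π q.1.2.2 - π q.1.1.2 * q.1.2.1 + q.1.2.1 * π q.2.1.2 -
        q.1.1.1 * π q.2.2.2 * 1 = 0
      have e4 : q.1.1.1 * (q.1.2.1 / q.1.1.1) = q.1.2.1 := mul_div_cancel₀ _ n1
      linear_combination q.1.1.1 * e3 + (π q.1.1.2 - π q.2.1.2) * e4
  · have e1 := (mem_filter.1 (mem_coe.1 hq)).2.trans (mem_filter.1 (mem_coe.1 hr)).2.symm
    exact Prod.ext (Prod.ext (congrArg Prod.snd e1) (congrArg Prod.fst e))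
      (Prod.ext (congrArg Prod.snd e) (congrArg Prod.fst e1))

end XRS

open XRS in
theorem p_RS (hPP : S_PP) : S_RS := by
  obtain ⟨C, hC, hPP⟩ := hPP
  refine ⟨3 * C, by linarith, fun V _ _ 𝒯 𝒜 B κ k h0 hs hB hB0 hκ hk h1 h2 => ?_⟩
  obtain ⟨π, h⟩ := ex_gn h0 hs
  obtain ⟨a, ha⟩ : ∃ a, a = √(κ * B) := ⟨_, rfl⟩
  have a0 : 0 < a := ha ▸ Real.sqrt_pos.2 (mul_pos hκ hB0)
  have a2 : a ^ 2 = κ * B := ha ▸ Real.sq_sqrt (mul_pos hκ hB0).le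
  rw [← ha]
  have key : ∀ c, (∑ y ∈ lev 𝒯 𝒜 c, (cnt (pt π) (lev 𝒯 𝒜 c) (pl π y) : ℝ)) ≤
      3 * C * (a + κ + k) * #(lev 𝒯 𝒜 c) := by
    intro c
    have e1 := hPP _ _ (pt π) (lev 𝒯 𝒜 c) ((lev 𝒯 𝒜 c).image (pl π)) #(lev 𝒯 𝒜 c) a (κ + k)
      h.np le_rfl (Nat.cast_le.2 card_image_le) a0 (by linarith) fun U hU => by
        obtain ⟨y, hy, rfl⟩ := mem_image.1 hU
        exact ⟨rk_pl π y, fun U' hU' => h.small hκ hk h1 h2 hy hU'⟩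
    rw [sum_image h.pl_inj] at e1
    refine e1.trans ?_
    have z1 : (#(lev 𝒯 𝒜 c) : ℝ) ≤ a ^ 2 := a2 ▸ h.card_lev hκ hB h1
    obtain ⟨z, hz⟩ : ∃ z : ℝ, z = #(lev 𝒯 𝒜 c) := ⟨_, rfl⟩
    have z0 : 0 ≤ z := hz ▸ Nat.cast_nonneg _
    rw [← hz] at z1 ⊢
    have z2 : z ^ 3 / a ^ 3 ≤ a * z := by
      rw [div_le_iff₀ (pow_pos a0 3)]
      have := mul_le_mul_of_nonneg_left (pow_le_pow_left₀ z0 z1 2) z0
      nlinarith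
    have z3 : z ^ 2 / a ≤ a * z := by
      rw [div_le_iff₀ a0]
      have := mul_le_mul_of_nonneg_left z1 z0
      nlinarith
    have z4 : 0 ≤ (κ + k) * z := mul_nonneg (by linarith) z0
    have z5 : a * z + z ^ 3 / a ^ 3 + z ^ 2 / a + (κ + k) * z ≤ 3 * (a + κ + k) * z := by
      nlinarith
    calc _ ≤ C * (3 * (a + κ + k) * z) := mul_le_mul_of_nonneg_left z5 (by linarith)
      _ = _ := by ring
  have hm : ∀ y ∈ 𝒯 ×ˢ 𝒜, y.1.1 * y.2.1 ∈ (𝒯 ×ˢ 𝒜).image fun y => y.1.1 * y.2.1 :=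
    fun y hy => mem_image_of_mem _ hy
  refine le_trans (Nat.cast_le.2 h.count) ?_
  rw [Nat.cast_sum, ← sum_fiberwise_of_maps_to hm]
  refine le_trans (sum_le_sum fun c _ => le_trans (le_of_eq ?_) (key c)) ?_
  · exact sum_congr rfl fun y hy => by rw [(mem_lev.1 hy).2]
  · rw [← mul_sum, ← Nat.cast_sum]
    refine mul_le_mul_of_nonneg_left ?_ (mul_nonneg (by linarith) (by linarith))
    have e1 : ∑ c ∈ (𝒯 ×ˢ 𝒜).image fun y => y.1.1 * y.2.1, #(lev 𝒯 𝒜 c) = #(𝒯 ×ˢ 𝒜) :=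
      (card_eq_sum_card_fiberwise fun y hy => mem_coe.2 (hm y hy)).symm
    rw [e1, card_product, Nat.cast_mul, sq]
    exact mul_le_mul hB ((Nat.cast_le.2 (card_le_card hs)).trans hB) (Nat.cast_nonneg _) hB0.le

end Pool.Agent.P.MP_5f07f1_co.Z
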