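import Pool.Agent.P.MP_5f07f1_co.ZDefs

/-! Coplanar quadruples off one hypersurface: summation over the dyadic scales. -/

namespace Pool.Agent.P.MP_5f07f1_co.Z

open Finset MvPolynomial Pool.Agent.Lib.PolyPart Classical Module

namespace XSH

lemma sum_quarter4 (q : ℕ) :
    ∑ k ∈ range (4 * q), (1 : ℝ) / 2 ^ (k / 4) = 8 - 8 / 2 ^ q := by
  induction q with
  | zero => simp
  | succ q ih =>
    rw [show 4 * (q + 1) = 4 * q + 1 + 1 + 1 + 1 by ring, sum_range_succ, sum_range_succ,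
      sum_range_succ, sum_range_succ, ih, show 4 * q / 4 = q by omega,
      show (4 * q + 1) / 4 = q by omega, show (4 * q + 1 + 1) / 4 = q by omega,
      show (4 * q + 1 + 1 + 1) / 4 = q by omega, pow_succ]
    field_simp
    ring

lemma sum_quarter (n : ℕ) : ∑ k ∈ range n, (1 : ℝ) / 2 ^ (k / 4) ≤ 8 := by
  have h1 : ∑ k ∈ range n, (1 : ℝ) / 2 ^ (k / 4) ≤ ∑ k ∈ range (4 * n), (1 : ℝ) / 2 ^ (k / 4) :=
    sum_le_sum_of_subset_of_nonneg (range_subset_range.2 (by omega)) fun _ _ _ => by positivity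
  rw [sum_quarter4] at h1
  have : (0 : ℝ) ≤ 8 / 2 ^ n := by positivity
  linarith

lemma sum_four (n : ℕ) : ∑ k ∈ range (n + 1), ((2 : ℝ) ^ k) ^ 2 ≤ 2 * ((2 : ℝ) ^ n) ^ 2 := by
  induction n with
  | zero => simp
  | succ n ih =>
    rw [sum_range_succ, pow_succ (2 : ℝ) n]
    have : (0 : ℝ) ≤ ((2 : ℝ) ^ n) ^ 2 := by positivity
    nlinarith

lemma sum_two (a : ℕ) : ∑ i ∈ range a, 2 ^ (i + 1) ≤ 2 * 2 ^ a := by
  induction a with
  | zero => simp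
  | succ a ih =>
    rw [sum_range_succ, pow_succ 2 a]
    omega

lemma inv_min (x a : ℕ) : (1 : ℝ) / 2 ^ (min x a) ≤ 1 / 2 ^ x + 1 / 2 ^ a := by
  have h1 : (0 : ℝ) ≤ 1 / 2 ^ x := by positivity
  have h2 : (0 : ℝ) ≤ 1 / 2 ^ a := by positivity
  rcases le_total x a with h | h
  · rw [min_eq_left h]; linarith
  · rw [min_eq_right h]; linarith

lemma cells_mono {d C D : ℕ} {m m' : ℝ} {W : Finset (E d)} {lab : E d → Set (E d)}
    (h : Cells C D m W lab) (hm' : m ≤ m') : Cells C D m' W lab :=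
  ⟨fun b => (h.1 b).trans hm', h.2⟩

lemma cells_const {d C : ℕ} (hC : 1 ≤ C) {m : ℝ} {W : Finset (E d)} (hW : (#W : ℝ) ≤ m) :
    Cells C (2 ^ 0) m W (fun _ => (∅ : Set (E d))) := by
  refine ⟨fun b => ?_, fun e S _ A _ _ => ?_⟩
  · have : (#{x ∈ W | (fun _ => (∅ : Set (E d))) x = b} : ℝ) ≤ #W := by
      exact_mod_cast card_filter_le _ _
    simpa using this.trans hW
  · have : #(A.image fun _ => (∅ : Set (E d))) ≤ 1 :=
      card_le_one.2 fun x hx y hy => by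
        obtain ⟨_, _, rfl⟩ := mem_image.1 hx
        obtain ⟨_, _, rfl⟩ := mem_image.1 hy
        rfl
    simpa using this.trans hC

lemma rank_pln {d : ℕ} (t : E d × E d × E d × E d) : finrank ℝ (pln t) ≤ 3 := by
  have h := finrank_span_finset_le_card (R := ℝ)
    ({hm t.1, hm t.2.1, hm t.2.2.1} : Finset (ℝ × E d))
  have h2 : #({hm t.1, hm t.2.1, hm t.2.2.1} : Finset (ℝ × E d)) ≤ 3 := card_le_three
  have h3 : pln t = Submodule.span ℝ
      (({hm t.1, hm t.2.1, hm t.2.2.1} : Finset (ℝ × E d)) : Set (ℝ × E d)) := by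
    simp [pln, sp3]
  rw [h3]
  exact h.trans h2

lemma one_le_cnt {d : ℕ} {W : Finset (E d)} {t : E d × E d × E d × E d} (ht : t ∈ Quad W) :
    1 ≤ cnt hm W (pln t) := by
  have h1 : t.1 ∈ W := (mem_product.1 (mem_filter.1 ht).1).1
  exact card_pos.2 ⟨t.1, mem_filter.2 ⟨h1, Submodule.subset_span (by simp)⟩⟩

lemma cnt_mono {d : ℕ} {W W' : Finset (E d)} (h : W' ⊆ W) (U : Submodule ℝ (ℝ × E d)) :
    cnt hm W' U ≤ cnt hm W U :=
  card_le_card fun _ hx => mem_filter.2 ⟨h (mem_filter.1 hx).1, (mem_filter.1 hx).2⟩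

/-- Quadruples in poor planes. -/
lemma poor {d : ℕ} (W : Finset (E d)) (B : ℕ) :
    #{t ∈ Quad W | cnt hm W (pln t) ≤ B} ≤ B * #W ^ 3 := by
  have h := card_le_mul_card_image_of_maps_to
    (s := {t ∈ Quad W | cnt hm W (pln t) ≤ B}) (t := W ×ˢ W ×ˢ W)
    (f := fun t => (t.1, t.2.1, t.2.2.1)) (fun t ht => by
      have h1 := mem_product.1 (mem_filter.1 (mem_filter.1 ht).1).1
      have h2 := mem_product.1 h1.2
      have h3 := mem_product.1 h2.2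
      exact mem_product.2 ⟨h1.1, mem_product.2 ⟨h2.1, h3.1⟩⟩) B (fun p _ => by
      by_cases hp : cnt hm W (sp3 hm p.1 p.2.1 p.2.2) ≤ B
      · refine le_trans ?_ hp
        refine card_le_card_of_injOn (fun t => t.2.2.2) (fun t ht => ?_) (fun t ht u hu h => ?_)
        · have h0 := mem_filter.1 (mem_coe.1 ht)
          have h1 := mem_filter.1 (mem_filter.1 h0.1).1
          have h2 := mem_product.1 (mem_product.1 (mem_product.1 h1.1).2).2
          refine mem_coe.2 (mem_filter.2 ⟨h2.2, ?_⟩)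
          rw [← h0.2]
          exact h1.2.2
        · have h1 := (mem_filter.1 (mem_coe.1 ht)).2
          have h2 := (mem_filter.1 (mem_coe.1 hu)).2
          have h3 := h1.trans h2.symm
          simp only [Prod.mk.injEq] at h3
          exact Prod.ext h3.1 (Prod.ext h3.2.1 (Prod.ext h3.2.2 h))
      · rw [card_eq_zero.2]
        · exact Nat.zero_le _
        refine eq_empty_of_forall_notMem fun t ht => hp ?_
        have h0 := mem_filter.1 ht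
        rw [← h0.2]
        exact (mem_filter.1 h0.1).2)
  rw [card_product, card_product] at h
  refine h.trans (le_of_eq ?_)
  ring

/-- One dyadic scale. -/
lemma scale (hSHA : S_SHA) (hSHB : S_SHB) (d C : ℕ) (hd : 5 ≤ d) (hC : 1 ≤ C) :
    ∃ C₁ : ℕ, 1 ≤ C₁ ∧ ∀ (W : Finset (E d)) (lab : E d → Set (E d)) (D : ℕ) (m s : ℝ),
      Cells C D m W lab → #W ≤ m → 1 ≤ D → C₁ * (D : ℝ) ^ 2 ≤ s →
      (#{t ∈ Quad W | s ≤ cnt hm W (pln t) ∧ cnt hm W (pln t) < 2 * s} : ℝ) ≤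
        C₁ * (m ^ 3 / D + s ^ 2 * m ^ 2) := by
  obtain ⟨A, hA1, hA⟩ := hSHA d C hd hC
  obtain ⟨B, hB1, hB⟩ := hSHB d C hd hC
  have hc : A + B ≤ (⌈A + B⌉₊ : ℝ) := Nat.le_ceil _
  refine ⟨⌈A + B⌉₊, by exact_mod_cast (show (1 : ℝ) ≤ (⌈A + B⌉₊ : ℝ) by linarith), ?_⟩
  intro W lab D m s hcl hW hD hs
  have hD2 : (0 : ℝ) ≤ (D : ℝ) ^ 2 := by positivity
  have h1 := hA W lab D m s hcl hW hD (le_trans (by nlinarith) hs)
  have h2 := hB W lab D m s hcl hW hD (le_trans (by nlinarith) hs)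
  have hm0 : (0 : ℝ) ≤ m := (Nat.cast_nonneg _).trans hW
  have hX : (0 : ℝ) ≤ m ^ 3 / D + s ^ 2 * m ^ 2 := by positivity
  have h3 : #{t ∈ Quad W | s ≤ cnt hm W (pln t) ∧ cnt hm W (pln t) < 2 * s} ≤
      #{t ∈ Quad W | s ≤ cnt hm W (pln t) ∧ cnt hm W (pln t) < 2 * s ∧
        ¬ ND (1 / 2) hm (pln t) {w ∈ W | hm w ∈ pln t}} +
      #{t ∈ Quad W | s ≤ cnt hm W (pln t) ∧ cnt hm W (pln t) < 2 * s ∧
        ND (1 / 2) hm (pln t) {w ∈ W | hm w ∈ pln t}} := by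
    refine le_trans (card_le_card fun t ht => ?_) (card_union_le _ _)
    have h0 := mem_filter.1 ht
    by_cases hn : ND (1 / 2) hm (pln t) {w ∈ W | hm w ∈ pln t}
    · exact mem_union_right _ (mem_filter.2 ⟨h0.1, h0.2.1, h0.2.2, hn⟩)
    · exact mem_union_left _ (mem_filter.2 ⟨h0.1, h0.2.1, h0.2.2, hn⟩)
  have h4 : (#{t ∈ Quad W | s ≤ cnt hm W (pln t) ∧ cnt hm W (pln t) < 2 * s} : ℝ) ≤ _ :=
    Nat.cast_le.2 h3
  rw [Nat.cast_add] at h4
  nlinarith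

/-- Summation over the scales. -/
lemma total {d C₁ : ℕ} (hC₁ : 1 ≤ C₁) (W : Finset (E d)) (a : ℕ) (m s : ℝ) (hW : (#W : ℝ) ≤ m)
    (hm1 : 1 ≤ m) (hs1 : 1 ≤ s) (hs : ∀ t ∈ Quad W, (cnt hm W (pln t) : ℝ) ≤ s) (hsm : s ^ 2 ≤ m)
    (hsc : ∀ j ≤ a, ∀ σ : ℝ, C₁ * ((2 : ℝ) ^ j) ^ 2 ≤ σ →
      (#{t ∈ Quad W | σ ≤ cnt hm W (pln t) ∧ cnt hm W (pln t) < 2 * σ} : ℝ) ≤
        C₁ * (m ^ 3 / 2 ^ j + σ ^ 2 * m ^ 2)) :
    (#(Quad W) : ℝ) ≤ (2 * C₁ ^ 2 + 11 * C₁) * (1 + Real.log m / 2 ^ a) * m ^ 3 := by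
  set K := Nat.log 2 ⌊s⌋₊ with hK
  have hfl : ⌊s⌋₊ ≠ 0 := (Nat.floor_pos.2 hs1).ne'
  have hK1 : (2 : ℝ) ^ K ≤ s := by
    have h1 : 2 ^ K ≤ ⌊s⌋₊ := Nat.pow_log_le_self 2 hfl
    have h2 : ((2 ^ K : ℕ) : ℝ) ≤ ⌊s⌋₊ := Nat.cast_le.2 h1
    push_cast at h2
    exact h2.trans (Nat.floor_le (by linarith))
  have hK2 : ((2 : ℝ) ^ K) ^ 2 ≤ m := (pow_le_pow_left₀ (by positivity) hK1 2).trans hsm
  have hK3 : (K : ℝ) ≤ Real.log m := by
    have h1 := Real.log_le_log (by positivity) hK2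
    rw [Real.log_pow, Real.log_pow] at h1
    have h2 := Real.log_two_gt_d9
    have h3 : (0 : ℝ) ≤ K := Nat.cast_nonneg _
    push_cast at h1
    nlinarith
  have hC : (1 : ℝ) ≤ C₁ := by exact_mod_cast hC₁
  let S : ℕ → Finset (E d × E d × E d × E d) := fun k =>
    {t ∈ Quad W | (2 : ℝ) ^ k ≤ cnt hm W (pln t) ∧ cnt hm W (pln t) < 2 * (2 : ℝ) ^ k}
  let I : Finset ℕ := {k ∈ range (K + 1) | C₁ ^ 2 ≤ 2 ^ k}
  have hsub : Quad W ⊆ {t ∈ Quad W | cnt hm W (pln t) ≤ 2 * C₁ ^ 2} ∪ I.biUnion S := by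
    intro t ht
    have h1 := one_le_cnt ht
    have h2 : cnt hm W (pln t) ≤ ⌊s⌋₊ := Nat.le_floor (hs t ht)
    set c := cnt hm W (pln t) with hc
    have h3 : 2 ^ Nat.log 2 c ≤ c := Nat.pow_log_le_self 2 (by omega)
    have h4 : c < 2 ^ (Nat.log 2 c + 1) := Nat.lt_pow_succ_log_self (by norm_num) c
    have h5 : Nat.log 2 c ≤ K := Nat.log_mono_right h2
    rw [pow_succ] at h4
    by_cases h6 : C₁ ^ 2 ≤ 2 ^ Nat.log 2 c
    · refine mem_union_right _ (mem_biUnion.2 ⟨Nat.log 2 c,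
        mem_filter.2 ⟨mem_range.2 (by omega), h6⟩, mem_filter.2 ⟨ht, ?_, ?_⟩⟩)
      · exact_mod_cast h3
      · rw [mul_comm] at h4
        exact_mod_cast h4
    · exact mem_union_left _ (mem_filter.2 ⟨ht, by omega⟩)
  have hcard : #(Quad W) ≤ 2 * C₁ ^ 2 * #W ^ 3 + ∑ k ∈ I, #(S k) :=
    (card_le_card hsub).trans ((card_union_le _ _).trans
      (Nat.add_le_add (poor W _) card_biUnion_le))
  have hcard' : (#(Quad W) : ℝ) ≤ 2 * (C₁ : ℝ) ^ 2 * (#W : ℝ) ^ 3 + ∑ k ∈ I, (#(S k) : ℝ) := by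
    exact_mod_cast hcard
  have hm0 : (0 : ℝ) ≤ m := by linarith
  have hk : ∀ k ∈ I, (#(S k) : ℝ) ≤
      C₁ * (m ^ 3 * (1 / 2 ^ (k / 4) + 1 / 2 ^ a) + ((2 : ℝ) ^ k) ^ 2 * m ^ 2) := by
    intro k hk
    have h1 : C₁ ^ 2 ≤ 2 ^ k := (mem_filter.1 hk).2
    have h2 : (C₁ : ℝ) ^ 2 ≤ 2 ^ k := by exact_mod_cast h1
    have h3 : (((2 : ℝ) ^ min (k / 4) a) ^ 2) ^ 2 ≤ 2 ^ k := by
      rw [← pow_mul, ← pow_mul]
      refine pow_le_pow_right₀ (by norm_num) ?_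
      have := min_le_left (k / 4) a
      omega
    have h4 : (C₁ : ℝ) * ((2 : ℝ) ^ min (k / 4) a) ^ 2 ≤ 2 ^ k := by
      refine (pow_le_pow_iff_left₀ (by positivity) (by positivity) two_ne_zero).1 ?_
      rw [mul_pow, pow_two ((2 : ℝ) ^ k)]
      exact mul_le_mul h2 h3 (by positivity) (by positivity)
    refine (hsc _ (min_le_right _ _) _ h4).trans (mul_le_mul_of_nonneg_left ?_ (by linarith))
    have h5 := mul_le_mul_of_nonneg_left (inv_min (k / 4) a) (pow_nonneg hm0 3)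
    rw [mul_one_div] at h5
    linarith
  have hsum : ∑ k ∈ I, (#(S k) : ℝ) ≤ ∑ k ∈ range (K + 1),
      (C₁ : ℝ) * (m ^ 3 * (1 / 2 ^ (k / 4) + 1 / 2 ^ a) + ((2 : ℝ) ^ k) ^ 2 * m ^ 2) :=
    (sum_le_sum hk).trans (sum_le_sum_of_subset_of_nonneg (filter_subset _ _)
      fun _ _ _ => by positivity)
  rw [← mul_sum, sum_add_distrib, ← mul_sum, ← sum_mul, sum_add_distrib, sum_const, card_range,
    nsmul_eq_mul] at hsum
  have e1 := sum_quarter (K + 1)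
  have e2 := (sum_four K).trans (mul_le_mul_of_nonneg_left hK2 (by norm_num))
  have hl0 : 0 ≤ Real.log m / 2 ^ a := div_nonneg (Real.log_nonneg hm1) (by positivity)
  have e3 : ((K + 1 : ℕ) : ℝ) * (1 / 2 ^ a) ≤ 1 + Real.log m / 2 ^ a := by
    have h1 : (1 : ℝ) / 2 ^ a ≤ 1 := by
      rw [div_le_one (by positivity)]
      exact one_le_pow₀ (by norm_num)
    have h2 : (K : ℝ) / 2 ^ a ≤ Real.log m / 2 ^ a :=
      div_le_div_of_nonneg_right hK3 (by positivity)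
    push_cast
    rw [add_mul, mul_one_div, one_mul]
    linarith
  have hm3 : (0 : ℝ) ≤ m ^ 3 := pow_nonneg hm0 3
  have e4 : (#W : ℝ) ^ 3 ≤ m ^ 3 := pow_le_pow_left₀ (Nat.cast_nonneg _) hW 3
  set x := Real.log m / 2 ^ a with hx
  have e5 : m ^ 3 * (∑ k ∈ range (K + 1), (1 : ℝ) / 2 ^ (k / 4) + ((K + 1 : ℕ) : ℝ) * (1 / 2 ^ a)) +
      (∑ k ∈ range (K + 1), ((2 : ℝ) ^ k) ^ 2) * m ^ 2 ≤ 11 * (1 + x) * m ^ 3 := by
    have h1 := mul_le_mul_of_nonneg_left (add_le_add e1 e3) hm3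
    have h2 := mul_le_mul_of_nonneg_right e2 (pow_nonneg hm0 2)
    have h3 : 0 ≤ x * m ^ 3 := mul_nonneg hl0 hm3
    nlinarith
  have e6 := mul_le_mul_of_nonneg_left e5 (show (0 : ℝ) ≤ C₁ by linarith)
  have e7 : 2 * (C₁ : ℝ) ^ 2 * (#W : ℝ) ^ 3 ≤ 2 * (C₁ : ℝ) ^ 2 * ((1 + x) * m ^ 3) := by
    refine mul_le_mul_of_nonneg_left ?_ (by positivity)
    have h3 : 0 ≤ x * m ^ 3 := mul_nonneg hl0 hm3
    nlinarith
  nlinarith

end XSH

open XSH in
theorem p_SH (hPART : S_PART) (hSHA : S_SHA) (hSHB : S_SHB) : S_SH := by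
  intro d hd
  obtain ⟨C₀, hC₀, hP⟩ := hPART d (by omega)
  obtain ⟨C₁, hC₁, hsc⟩ := scale hSHA hSHB d C₀ hd hC₀
  refine ⟨2 * C₁ ^ 2 + 11 * C₁ + 2 * C₀, by omega, ?_⟩
  intro W a m s hW hm1 hs hsm
  choose G hG0 hGd lab hlab using fun i => hP i W
  refine ⟨∏ i ∈ range a, G (i + 1), prod_ne_zero_iff.2 fun i _ => hG0 _, ?_, ?_, ?_⟩
  · refine (totalDegree_finsetProd _ _).trans ?_
    refine (sum_le_sum fun i _ => hGd (i + 1)).trans ?_
    rw [← mul_sum]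
    have h1 := Nat.mul_le_mul_left C₀ (sum_two a)
    refine h1.trans ?_
    rw [← mul_assoc]
    exact Nat.mul_le_mul_right _ (by omega)
  · rintro rfl
    simp
  set W' : Finset (E d) := {w ∈ W | eval w (∏ i ∈ range a, G (i + 1)) ≠ 0} with hW'
  have hsub : W' ⊆ W := filter_subset _ _
  have hW1 : (#W' : ℝ) ≤ m := (Nat.cast_le.2 (card_le_card hsub)).trans hW
  have hcl : ∀ j ≤ a, ∃ l : E d → Set (E d), Cells C₀ (2 ^ j) m W' l := by
    intro j hj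
    rcases j with _ | j
    · exact ⟨_, cells_const hC₀ hW1⟩
    · refine ⟨lab (j + 1), cells_mono (hlab (j + 1) W' hsub fun x hx => ?_) hW⟩
      have h1 := (mem_filter.1 hx).2
      rw [map_prod] at h1
      exact prod_ne_zero_iff.1 h1 j (mem_range.2 (by omega))
  have hs0 : 0 ≤ s := (Nat.cast_nonneg _).trans (hs ⊥ (by simp))
  have key := total hC₁ W' a m (max s 1) hW1 hm1 (le_max_right _ _)
    (fun t _ => ((Nat.cast_le.2 (cnt_mono hsub _)).trans (hs _ (rank_pln t))).trans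
      (le_max_left _ _))
    (by rcases le_total s 1 with h | h
        · rw [max_eq_right h]; simpa using hm1
        · rw [max_eq_left h]; exact hsm)
    (fun j hj σ hσ => by
      obtain ⟨l, hl⟩ := hcl j hj
      have := hsc W' l (2 ^ j) m σ hl hW1 Nat.one_le_two_pow (by push_cast; exact hσ)
      push_cast at this
      exact this)
  refine key.trans ?_
  have hl0 : 0 ≤ Real.log m / 2 ^ a := div_nonneg (Real.log_nonneg hm1) (by positivity)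
  have hm3 : (0 : ℝ) ≤ m ^ 3 := by positivity
  refine mul_le_mul_of_nonneg_right (mul_le_mul_of_nonneg_right ?_ (by linarith)) hm3
  push_cast
  have : (0 : ℝ) ≤ C₀ := Nat.cast_nonneg _
  linarith

end Pool.Agent.P.MP_5f07f1_co.Z
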