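import Pool.Agent.P.MP_5f07f1_co.ZDefs

/-! Coplanar quadruples in planes that have more than half of their points on one line. -/

namespace Pool.Agent.P.MP_5f07f1_co.Z

open Finset MvPolynomial Pool.Agent.Lib.PolyPart Classical Module

namespace XSHA

variable {d : ℕ}

lemma rank_pln {t : E d × E d × E d × E d} (h : Ind3 hm t.1 t.2.1 t.2.2.1) :
    finrank ℝ (pln t) = 3 := by
  have h1 := finrank_span_eq_card (R := ℝ) h
  have h2 : Set.range ![hm t.1, hm t.2.1, hm t.2.2.1] = {hm t.1, hm t.2.1, hm t.2.2.1} := by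
    ext v
    simp only [Matrix.range_cons, Matrix.range_empty, Set.union_empty, Set.mem_union,
      Set.mem_singleton_iff, Set.mem_insert_iff]
  rw [h2, Fintype.card_fin] at h1
  exact h1

lemma two_le_rank {U : Submodule ℝ (ℝ × E d)} {x y : E d} (hxy : x ≠ y) (hx : hm x ∈ U)
    (hy : hm y ∈ U) : 2 ≤ finrank ℝ U := by
  by_contra hlt
  have h0 : (⟨hm x, hx⟩ : U) ≠ 0 := fun e =>
    one_ne_zero (congrArg Prod.fst (congrArg Subtype.val e))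
  have h1 : finrank ℝ U = 1 := by
    have : 0 < finrank ℝ U := finrank_pos_iff_exists_ne_zero.2 ⟨_, h0⟩
    omega
  obtain ⟨c, hc⟩ := (finrank_eq_one_iff_of_nonzero' _ h0).1 h1 ⟨hm y, hy⟩
  have e : hm y = c • hm x := (congrArg Subtype.val hc).symm
  exact hxy ((np_hm {x, y}).2 x (by simp) y (by simp) c e).symm

/-- A degenerate rich plane contains a rich line. -/
lemma exists_line {W : Finset (E d)} {s : ℝ} (hs : 2 ≤ s) {t : E d × E d × E d × E d}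
    (h : Ind3 hm t.1 t.2.1 t.2.2.1) (h1 : s ≤ cnt hm W (pln t))
    (h2 : ¬ ND (1 / 2) hm (pln t) {w ∈ W | hm w ∈ pln t}) :
    ∃ l : Submodule ℝ (ℝ × E d), l ≤ pln t ∧ finrank ℝ l = 2 ∧ s / 2 ≤ cnt hm W l := by
  have h3 : ∃ U' : Submodule ℝ (ℝ × E d), U' < pln t ∧
      (1 / 2 : ℝ) * #{w ∈ W | hm w ∈ pln t} < #{y ∈ {w ∈ W | hm w ∈ pln t} | hm y ∈ U'} := by
    by_contra hn
    exact h2 ⟨fun y hy => (mem_filter.1 hy).2, fun U' hU => not_lt.1 fun hl => hn ⟨U', hU, hl⟩⟩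
  obtain ⟨l, hl, h4⟩ := h3
  have h5 : (#{y ∈ {w ∈ W | hm w ∈ pln t} | hm y ∈ l} : ℝ) ≤ cnt hm W l := by
    exact_mod_cast card_le_card fun y hy =>
      mem_filter.2 ⟨(mem_filter.1 (mem_filter.1 hy).1).1, (mem_filter.1 hy).2⟩
  have h6 : (cnt hm W (pln t) : ℝ) = #{w ∈ W | hm w ∈ pln t} := rfl
  have h7 : s / 2 < cnt hm W l := by linarith
  refine ⟨l, hl.le, ?_, h7.le⟩
  have h8 : 1 < cnt hm W l := by
    have : (1 : ℝ) < cnt hm W l := by linarith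
    exact_mod_cast this
  obtain ⟨x, hx, y, hy, hxy⟩ := one_lt_card.1 h8
  have h9 := two_le_rank hxy (mem_filter.1 hx).2 (mem_filter.1 hy).2
  have h10 := Submodule.finrank_lt_finrank_of_lt hl
  rw [rank_pln h] at h10
  omega

lemma plane_eq {l P : Submodule ℝ (ℝ × E d)} {z : E d} (hl : l ≤ P) (r2 : finrank ℝ l = 2)
    (r3 : finrank ℝ P = 3) (hz : hm z ∈ P) (hn : hm z ∉ l) :
    l ⊔ Submodule.span ℝ {hm z} = P := by
  have h1 : l ⊔ Submodule.span ℝ {hm z} ≤ P :=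
    sup_le hl ((Submodule.span_singleton_le_iff_mem _ _).2 hz)
  have h2 : l < l ⊔ Submodule.span ℝ {hm z} := lt_of_le_of_ne le_sup_left fun e =>
    hn (e ▸ Submodule.mem_sup_right (Submodule.mem_span_singleton_self _))
  have h3 := Submodule.finrank_lt_finrank_of_lt h2
  exact Submodule.eq_of_le_of_finrank_le h1 (by omega)

/-- Quadruples in poor planes through a fixed line. -/
lemma per_line (W : Finset (E d)) {m s : ℝ} (hW : #W ≤ m) (hs : 0 ≤ s)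
    {l : Submodule ℝ (ℝ × E d)} (r2 : finrank ℝ l = 2) (T : Finset (E d × E d × E d × E d))
    (hT : ∀ t ∈ T, t ∈ Quad W ∧ l ≤ pln t ∧ (cnt hm W (pln t) : ℝ) < 2 * s) :
    (#T : ℝ) ≤ 24 * s ^ 3 * m := by
  let B : E d → Finset (E d) := fun z => {w ∈ W | hm w ∈ l ⊔ Submodule.span ℝ {hm z}}
  let Z : Finset (E d) := {z ∈ W | (#(B z) : ℝ) ≤ 2 * s}
  let S : E d → Finset (E d × E d × E d × E d) := fun z =>
    ({z} ×ˢ B z ×ˢ B z ×ˢ B z ∪ B z ×ˢ {z} ×ˢ B z ×ˢ B z) ∪ B z ×ˢ B z ×ˢ {z} ×ˢ B z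
  have h1 : T ⊆ Z.biUnion S := by
    intro t ht
    obtain ⟨hq, hl, hc⟩ := hT t ht
    obtain ⟨hw, hi, h4⟩ := mem_filter.1 hq
    simp only [mem_product] at hw
    have r3 := rank_pln hi
    have m1 : hm t.1 ∈ pln t := Submodule.subset_span (by simp)
    have m2 : hm t.2.1 ∈ pln t := Submodule.subset_span (by simp)
    have m3 : hm t.2.2.1 ∈ pln t := Submodule.subset_span (by simp)
    have key : ∀ z ∈ W, hm z ∈ pln t → hm z ∉ l → z ∈ Z ∧ t.1 ∈ B z ∧ t.2.1 ∈ B z ∧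
        t.2.2.1 ∈ B z ∧ t.2.2.2 ∈ B z := by
      intro z hz hp hn
      have e := plane_eq hl r2 r3 hp hn
      have eB : B z = {w ∈ W | hm w ∈ pln t} := by simp only [B, e]
      refine ⟨mem_filter.2 ⟨hz, ?_⟩, ?_⟩
      · rw [eB]
        exact hc.le
      · rw [eB]
        exact ⟨mem_filter.2 ⟨hw.1, m1⟩, mem_filter.2 ⟨hw.2.1, m2⟩, mem_filter.2 ⟨hw.2.2.1, m3⟩,
          mem_filter.2 ⟨hw.2.2.2, h4⟩⟩
    by_cases c1 : hm t.1 ∈ l
    · by_cases c2 : hm t.2.1 ∈ l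
      · by_cases c3 : hm t.2.2.1 ∈ l
        · have : pln t ≤ l := Submodule.span_le.2 (by
            rintro v (rfl | rfl | rfl) <;> assumption)
          have := Submodule.finrank_mono this
          omega
        · obtain ⟨k0, k1, k2, -, k4⟩ := key _ hw.2.2.1 m3 c3
          exact mem_biUnion.2 ⟨_, k0, mem_union_right _ (mem_product.2 ⟨k1, mem_product.2
            ⟨k2, mem_product.2 ⟨mem_singleton_self _, k4⟩⟩⟩)⟩
      · obtain ⟨k0, k1, -, k3, k4⟩ := key _ hw.2.1 m2 c2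
        exact mem_biUnion.2 ⟨_, k0, mem_union_left _ (mem_union_right _ (mem_product.2
          ⟨k1, mem_product.2 ⟨mem_singleton_self _, mem_product.2 ⟨k3, k4⟩⟩⟩))⟩
    · obtain ⟨k0, -, k2, k3, k4⟩ := key _ hw.1 m1 c1
      exact mem_biUnion.2 ⟨_, k0, mem_union_left _ (mem_union_left _ (mem_product.2
        ⟨mem_singleton_self _, mem_product.2 ⟨k2, mem_product.2 ⟨k3, k4⟩⟩⟩))⟩
  have h2 : ∀ z ∈ Z, (#(S z) : ℝ) ≤ 24 * s ^ 3 := by
    intro z hz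
    have b1 : #(S z) ≤ 3 * #(B z) ^ 3 := by
      refine (card_union_le _ _).trans ((Nat.add_le_add_right (card_union_le _ _) _).trans ?_)
      simp only [card_product, card_singleton]
      exact le_of_eq (by ring)
    have b2 : (#(S z) : ℝ) ≤ 3 * (#(B z) : ℝ) ^ 3 := by exact_mod_cast b1
    have b3 : (#(B z) : ℝ) ^ 3 ≤ (2 * s) ^ 3 :=
      pow_le_pow_left₀ (Nat.cast_nonneg _) (mem_filter.1 hz).2 3
    linarith
  have h3 : (#T : ℝ) ≤ ∑ z ∈ Z, (#(S z) : ℝ) := by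
    exact_mod_cast (card_le_card h1).trans card_biUnion_le
  have h4 : (#Z : ℝ) ≤ m := le_trans (by exact_mod_cast card_filter_le _ _) hW
  calc (#T : ℝ) ≤ ∑ _z ∈ Z, 24 * s ^ 3 := h3.trans (sum_le_sum h2)
    _ = 24 * s ^ 3 * #Z := by rw [sum_const, nsmul_eq_mul, mul_comm]
    _ ≤ 24 * s ^ 3 * m := by gcongr

/-- Most points of a rich line lie in cells that are rich for the line. -/
lemma rich_cells {W A : Finset (E d)} (lab : E d → Set (E d)) (hA : A ⊆ W) {a κ : ℝ} (ha : 0 ≤ a)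
    (hκ : (#(A.image lab) : ℝ) ≤ κ) :
    (#A : ℝ) ≤ κ * a + ∑ b ∈ W.image lab,
      if a ≤ #{x ∈ A | lab x = b} then (#{x ∈ A | lab x = b} : ℝ) else 0 := by
  have h1 : (#A : ℝ) = ∑ b ∈ A.image lab, (#{x ∈ A | lab x = b} : ℝ) := by
    exact_mod_cast card_eq_sum_card_image lab A
  have h2 : ∑ b ∈ A.image lab, (#{x ∈ A | lab x = b} : ℝ) ≤ ∑ b ∈ A.image lab,
      (a + if a ≤ #{x ∈ A | lab x = b} then (#{x ∈ A | lab x = b} : ℝ) else 0) :=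
    sum_le_sum fun b _ => by
      split_ifs with h
      · linarith
      · linarith [not_le.1 h]
  rw [sum_add_distrib, sum_const, nsmul_eq_mul] at h2
  have h3 : ∑ b ∈ A.image lab, (if a ≤ #{x ∈ A | lab x = b} then (#{x ∈ A | lab x = b} : ℝ) else 0)
      ≤ ∑ b ∈ W.image lab, if a ≤ #{x ∈ A | lab x = b} then (#{x ∈ A | lab x = b} : ℝ) else 0 :=
    sum_le_sum_of_subset_of_nonneg (image_subset_image hA) fun b _ _ => by positivity
  have h4 : (#(A.image lab) : ℝ) * a ≤ κ * a := mul_le_mul_of_nonneg_right hκ ha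
  linarith

end XSHA

open XSHA in
theorem p_SHA (hST : S_ST) (hD : S_DIM) : S_SHA := by
  intro d C hd hC
  obtain ⟨C₁, hC₁, hst⟩ := hST
  have c1 : (1 : ℝ) ≤ C := by exact_mod_cast hC
  have c3 : (C : ℝ) ≤ (C : ℝ) ^ 3 * C₁ := by
    have : (C : ℝ) ≤ (C : ℝ) ^ 3 := le_self_pow₀ c1 (by norm_num)
    nlinarith
  refine ⟨1536 * ((C : ℝ) ^ 3 * C₁), by linarith, fun W lab D m s hc hW hD1 hs => ?_⟩
  have d1 : (1 : ℝ) ≤ D := by exact_mod_cast hD1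
  have m0 : 0 ≤ m := le_trans (Nat.cast_nonneg _) hW
  have cd : (1 : ℝ) ≤ C * D := by nlinarith
  have s8 : 8 * (C * D : ℝ) ≤ s := by
    have h1 : (D : ℝ) ≤ (D : ℝ) ^ 2 := le_self_pow₀ d1 (by norm_num)
    have h2 : (C : ℝ) * D ≤ (C : ℝ) ^ 3 * C₁ * (D : ℝ) ^ 2 := by gcongr
    nlinarith
  have s0 : 0 < s := by linarith
  generalize hT : ({t ∈ Quad W | s ≤ cnt hm W (pln t) ∧ cnt hm W (pln t) < 2 * s ∧
    ¬ ND (1 / 2) hm (pln t) {w ∈ W | hm w ∈ pln t}} : Finset _) = T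
  have hT' : ∀ t ∈ T, t ∈ Quad W ∧ (cnt hm W (pln t) : ℝ) < 2 * s ∧
      ∃ l : Submodule ℝ (ℝ × E d), l ≤ pln t ∧ finrank ℝ l = 2 ∧ s / 2 ≤ cnt hm W l := by
    intro t ht
    rw [← hT] at ht
    obtain ⟨h1, h2, h3, h4⟩ := mem_filter.1 ht
    exact ⟨h1, h3, exists_line (by linarith) (mem_filter.1 h1).2.1 h2 h4⟩
  have hch : ∀ t, ∃ l : Submodule ℝ (ℝ × E d), t ∈ T →
      l ≤ pln t ∧ finrank ℝ l = 2 ∧ s / 2 ≤ cnt hm W l := fun t => by
    by_cases ht : t ∈ T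
    · obtain ⟨l, hl⟩ := (hT' t ht).2.2
      exact ⟨l, fun _ => hl⟩
    · exact ⟨⊥, fun h => absurd h ht⟩
  choose ln hln using hch
  set 𝓛 := T.image ln with h𝓛
  have hL : ∀ l ∈ 𝓛, finrank ℝ l = 2 ∧ s / 2 ≤ cnt hm W l := fun l hl => by
    obtain ⟨t, ht, rfl⟩ := mem_image.1 hl
    exact (hln t ht).2
  have t1 : (#T : ℝ) ≤ #𝓛 * (24 * s ^ 3 * m) := by
    have h1 : (#T : ℝ) = ∑ l ∈ 𝓛, (#{t ∈ T | ln t = l} : ℝ) := by
      exact_mod_cast card_eq_sum_card_image ln T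
    rw [h1, ← nsmul_eq_mul, ← sum_const]
    refine sum_le_sum fun l hl => per_line W hW s0.le (hL l hl).1 _ fun t ht => ?_
    obtain ⟨h2, rfl⟩ := mem_filter.1 ht
    exact ⟨(hT' t h2).1, (hln t h2).1, (hT' t h2).2.1⟩
  set a : ℝ := s / (4 * (C * D)) with ha
  have a2 : 2 ≤ a := by
    rw [ha, le_div_iff₀ (by positivity)]
    linarith
  have ea : (C * D : ℝ) * a = s / 4 := by
    rw [ha]
    field_simp
  let A : Submodule ℝ (ℝ × E d) → Finset (E d) := fun l => {z ∈ W | hm z ∈ l}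
  let n : Submodule ℝ (ℝ × E d) → Set (E d) → ℝ := fun l b =>
    if a ≤ #{x ∈ A l | lab x = b} then (#{x ∈ A l | lab x = b} : ℝ) else 0
  have t2 : ∀ l ∈ 𝓛, s / 4 ≤ ∑ b ∈ W.image lab, n l b := fun l hl => by
    have h1 := hc.2 1 _ ((hD d).1 1 l (hL l hl).1.le) (A l) (filter_subset _ _)
      fun x hx => (mem_filter.1 hx).2
    have h2 : (#((A l).image lab) : ℝ) ≤ C * D := by
      rw [pow_one] at h1
      exact_mod_cast h1
    have h3 := rich_cells lab (filter_subset _ _ : A l ⊆ W) (by linarith : 0 ≤ a) h2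
    have h4 : s / 2 ≤ #(A l) := (hL l hl).2
    linarith
  set σ : ℝ := m / (D : ℝ) ^ d with hσ
  have t3 : ∀ b ∈ W.image lab, ∑ l ∈ 𝓛, n l b ≤ C₁ * (σ ^ 2 / a ^ 2 + σ) := fun b _ => by
    have h1 := hst (E d) (ℝ × E d) hm {x ∈ W | lab x = b}
      {l ∈ 𝓛 | a ≤ #{x ∈ A l | lab x = b}} (fun l => {x ∈ A l | lab x = b}) σ a (np_hm _)
      (by rw [hσ, le_div_iff₀ (by positivity)]; exact hc.1 b) (by linarith) fun l hl => by
        obtain ⟨k1, k2⟩ := mem_filter.1 hl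
        refine ⟨(hL l k1).1, fun x hx => ?_, fun x hx => ?_, ?_, k2⟩
        · exact mem_filter.2 ⟨(mem_filter.1 (mem_filter.1 hx).1).1, (mem_filter.1 hx).2⟩
        · exact (mem_filter.1 (mem_filter.1 hx).1).2
        · exact_mod_cast a2.trans k2
    rwa [sum_filter] at h1
  have t4 : (#(W.image lab) : ℝ) ≤ C * (D : ℝ) ^ d := by
    exact_mod_cast hc.2 d _ (hD d).2.2 W Subset.rfl fun _ _ => trivial
  have σ0 : 0 ≤ σ := by positivity
  have t5 : #𝓛 * (s / 4) ≤ C * (D : ℝ) ^ d * (C₁ * (σ ^ 2 / a ^ 2 + σ)) :=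
    calc #𝓛 * (s / 4) = ∑ _l ∈ 𝓛, s / 4 := by rw [sum_const, nsmul_eq_mul]
      _ ≤ ∑ l ∈ 𝓛, ∑ b ∈ W.image lab, n l b := sum_le_sum t2
      _ = ∑ b ∈ W.image lab, ∑ l ∈ 𝓛, n l b := sum_comm
      _ ≤ ∑ _b ∈ W.image lab, C₁ * (σ ^ 2 / a ^ 2 + σ) := sum_le_sum t3
      _ = #(W.image lab) * (C₁ * (σ ^ 2 / a ^ 2 + σ)) := by rw [sum_const, nsmul_eq_mul]
      _ ≤ _ := by gcongr
  have t6 : (D : ℝ) ^ 2 / (D : ℝ) ^ d ≤ 1 / D := by
    rw [div_le_div_iff₀ (by positivity) (by positivity), one_mul, ← pow_succ]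
    exact pow_le_pow_right₀ d1 (by omega)
  have t7 : 96 * s ^ 2 * m * (C * (D : ℝ) ^ d * (C₁ * (σ ^ 2 / a ^ 2 + σ))) =
      1536 * ((C : ℝ) ^ 3 * C₁) * (m ^ 3 * ((D : ℝ) ^ 2 / (D : ℝ) ^ d)) +
        96 * (C * C₁) * (s ^ 2 * m ^ 2) := by
    rw [hσ, ha]
    field_simp
    ring
  have t8 : (#T : ℝ) ≤ 96 * s ^ 2 * m * (C * (D : ℝ) ^ d * (C₁ * (σ ^ 2 / a ^ 2 + σ))) :=
    calc (#T : ℝ) ≤ #𝓛 * (24 * s ^ 3 * m) := t1
      _ = 96 * s ^ 2 * m * (#𝓛 * (s / 4)) := by ring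
      _ ≤ _ := by gcongr
  have t9 : m ^ 3 * ((D : ℝ) ^ 2 / (D : ℝ) ^ d) ≤ m ^ 3 / D := by
    rw [div_eq_mul_one_div (m ^ 3)]
    gcongr
  have t10 : 96 * ((C : ℝ) * C₁) ≤ 1536 * ((C : ℝ) ^ 3 * C₁) := by
    have h1 : (C : ℝ) ≤ (C : ℝ) ^ 3 := le_self_pow₀ c1 (by norm_num)
    have h2 : (C : ℝ) * C₁ ≤ (C : ℝ) ^ 3 * C₁ := by gcongr
    linarith
  rw [t7] at t8
  rw [mul_add]
  refine t8.trans (add_le_add ?_ ?_)
  · gcongr
  · gcongr

end Pool.Agent.P.MP_5f07f1_co.Z
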