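import Pool.Agent.P.MP_5f07f1_co.ZDefs

/-! Coplanar quadruples in nondegenerate planes. -/

namespace Pool.Agent.P.MP_5f07f1_co.Z

open Finset MvPolynomial Pool.Agent.Lib.PolyPart Classical Module

namespace XSHB

lemma rank_pln {d : ℕ} {x y z : E d} (h : Ind3 hm x y z) : finrank ℝ (sp3 hm x y z) = 3 := by
  have h1 := finrank_span_eq_card (R := ℝ) h
  have h2 : Set.range ![hm x, hm y, hm z] = {hm x, hm y, hm z} := by
    ext v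
    simp only [Matrix.range_cons, Matrix.range_empty, Set.union_empty, Set.mem_union,
      Set.mem_singleton_iff, Set.mem_insert_iff]
  rw [h2, Fintype.card_fin] at h1
  exact h1

lemma not_rank_one {d : ℕ} {F : Submodule ℝ (ℝ × E d)} {Y : Finset (E d)}
    (hY : ∀ y ∈ Y, hm y ∈ F) (h2 : 1 < #Y) : finrank ℝ F ≠ 1 := by
  intro h1
  obtain ⟨x, hx, y, hy, hxy⟩ := one_lt_card.1 h2
  have hx0 : hm x ≠ 0 := (np_hm Y).1 x hx
  have hx1 : (⟨hm x, hY x hx⟩ : F) ≠ 0 := fun e => hx0 (congrArg Subtype.val e)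
  obtain ⟨c, hc⟩ := (finrank_eq_one_iff_of_nonzero' _ hx1).1 h1 ⟨hm y, hY y hy⟩
  exact hxy ((np_hm Y).2 x hx y hy c (congrArg Subtype.val hc).symm).symm

lemma quad_le {d : ℕ} (W : Finset (E d)) (T : Finset (E d × E d × E d × E d)) (hT : T ⊆ Quad W)
    (s : ℝ) (hs : ∀ t ∈ T, (#{w ∈ W | hm w ∈ pln t} : ℝ) ≤ 2 * s) :
    (#T : ℝ) ≤ 8 * s ^ 3 * ∑ U ∈ T.image pln, (#{w ∈ W | hm w ∈ U} : ℝ) := by
  rw [card_eq_sum_card_image pln T, Nat.cast_sum, mul_sum]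
  refine sum_le_sum fun U hU => ?_
  obtain ⟨t₀, ht₀, rfl⟩ := mem_image.1 hU
  have h1 : {t ∈ T | pln t = pln t₀} ⊆ {w ∈ W | hm w ∈ pln t₀} ×ˢ {w ∈ W | hm w ∈ pln t₀} ×ˢ
      {w ∈ W | hm w ∈ pln t₀} ×ˢ {w ∈ W | hm w ∈ pln t₀} := by
    intro t ht
    obtain ⟨ht, e⟩ := mem_filter.1 ht
    have hq := hT ht
    simp only [Quad, mem_filter, mem_product] at hq
    obtain ⟨⟨h1, h2, h3, h4⟩, -, h5⟩ := hq
    simp only [mem_product, mem_filter]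
    rw [← e]
    refine ⟨⟨h1, ?_⟩, ⟨h2, ?_⟩, ⟨h3, ?_⟩, h4, h5⟩ <;>
      exact Submodule.subset_span (by simp)
  have h2 := card_le_card h1
  rw [card_product, card_product, card_product] at h2
  have h3 := hs t₀ ht₀
  set y := #{w ∈ W | hm w ∈ pln t₀}
  have h4 : (#{t ∈ T | pln t = pln t₀} : ℝ) ≤ y * (y * (y * y)) := by exact_mod_cast h2
  have h5 : (0 : ℝ) ≤ y := Nat.cast_nonneg _
  have h6 : (y : ℝ) ^ 3 ≤ (2 * s) ^ 3 := pow_le_pow_left₀ h5 h3 3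
  calc _ ≤ (y : ℝ) ^ 3 * y := h4.trans_eq (by ring)
    _ ≤ (2 * s) ^ 3 * y := mul_le_mul_of_nonneg_right h6 h5
    _ = _ := by ring

lemma sum_cells {ι β : Type} (J : Finset (ι × β)) (B : Finset β) (f : ι × β → ℝ) (b n : ℝ)
    (hB : ∀ p ∈ J, p.2 ∈ B) (hn : (#B : ℝ) ≤ n) (hb : 0 ≤ b)
    (h : ∀ c, ∑ p ∈ {p ∈ J | p.2 = c}, f p ≤ b) : ∑ p ∈ J, f p ≤ n * b := by
  rw [← sum_fiberwise_of_maps_to hB]
  calc _ ≤ ∑ _c ∈ B, b := sum_le_sum fun c _ => h c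
    _ = #B * b := by rw [sum_const, nsmul_eq_mul]
    _ ≤ n * b := mul_le_mul_of_nonneg_right hn hb

lemma arith (c C₁ D P m s : ℝ) (hc : 1 ≤ c) (hC : 1 ≤ C₁) (hD : 1 ≤ D) (hP : D ^ 5 ≤ P)
    (hm0 : 0 ≤ m) (hs : 0 < s) :
    8 * s ^ 3 * (c * P) * (C₁ * (2 * m / s) * ((m / P) ^ 2 / (s / (c * D ^ 2)) ^ 2 + m / P) +
      C₁ * ((m / P) ^ 3 / (s / (c * D ^ 2)) ^ 3 + (m / P) ^ 2 / (s / (c * D ^ 2)))) ≤
      24 * C₁ * c ^ 4 * (m ^ 3 / D + s ^ 2 * m ^ 2) := by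
  have hD0 : 0 < D := by linarith
  have hc0 : 0 < c := by linarith
  have hP1 : 1 ≤ P := (one_le_pow₀ hD).trans hP
  have hP0 : 0 < P := by linarith
  have e : 8 * s ^ 3 * (c * P) *
      (C₁ * (2 * m / s) * ((m / P) ^ 2 / (s / (c * D ^ 2)) ^ 2 + m / P) +
      C₁ * ((m / P) ^ 3 / (s / (c * D ^ 2)) ^ 3 + (m / P) ^ 2 / (s / (c * D ^ 2)))) =
      8 * C₁ * c * ((2 * c ^ 2 * (D ^ 5 / P) + c ^ 3 * (D ^ 7 / P ^ 2)) * (m ^ 3 / D) +
        (2 + c * (D ^ 2 / P)) * (s ^ 2 * m ^ 2)) := by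
    field_simp
  have h1 : D ^ 5 / P ≤ 1 := (div_le_one hP0).2 hP
  have h2 : D ^ 7 / P ^ 2 ≤ 1 := by
    rw [div_le_one (by positivity)]
    calc D ^ 7 ≤ D ^ 10 := pow_le_pow_right₀ hD (by norm_num)
      _ = (D ^ 5) ^ 2 := by ring
      _ ≤ P ^ 2 := pow_le_pow_left₀ (by positivity) hP 2
  have h3 : D ^ 2 / P ≤ 1 :=
    (div_le_one hP0).2 ((pow_le_pow_right₀ hD (by norm_num)).trans hP)
  have h4 : c ^ 2 ≤ c ^ 3 := pow_le_pow_right₀ hc (by norm_num)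
  have h5 : c ≤ c ^ 3 := by simpa using pow_le_pow_right₀ hc (show 1 ≤ 3 by norm_num)
  have h6 : 2 * c ^ 2 * (D ^ 5 / P) + c ^ 3 * (D ^ 7 / P ^ 2) ≤ 3 * c ^ 3 := by
    have a1 : c ^ 2 * (D ^ 5 / P) ≤ c ^ 2 := mul_le_of_le_one_right (by positivity) h1
    have a2 : c ^ 3 * (D ^ 7 / P ^ 2) ≤ c ^ 3 := mul_le_of_le_one_right (by positivity) h2
    linarith
  have h7 : 2 + c * (D ^ 2 / P) ≤ 3 * c ^ 3 := by
    have a1 : c * (D ^ 2 / P) ≤ c := mul_le_of_le_one_right hc0.le h3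
    linarith
  rw [e]
  have h8 : 0 ≤ m ^ 3 / D := by positivity
  have h9 : 0 ≤ s ^ 2 * m ^ 2 := by positivity
  calc _ ≤ 8 * C₁ * c * (3 * c ^ 3 * (m ^ 3 / D) + 3 * c ^ 3 * (s ^ 2 * m ^ 2)) := by
        refine mul_le_mul_of_nonneg_left ?_ (by positivity)
        exact add_le_add (mul_le_mul_of_nonneg_right h6 h8) (mul_le_mul_of_nonneg_right h7 h9)
    _ = _ := by ring

end XSHB

open XSHB in
theorem p_SHB (hETW : S_ETW) (hPEN : S_PEN) (hLD : S_LD) (hDIM : S_DIM) : S_SHB := by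
  intro d C hd hC
  obtain ⟨γ, C₁, hγ, hγ2, hC₁, hE⟩ := hETW 1
  have hC1 : (1 : ℝ) ≤ C := by exact_mod_cast hC
  have hg0 : 0 < γ ^ 3 := by positivity
  have hg1 : γ ^ 3 ≤ 1 := pow_le_one₀ hγ.le (by linarith)
  obtain ⟨c, hc⟩ : ∃ c : ℝ, c = 2 * C / γ ^ 3 := ⟨_, rfl⟩
  have hc1 : 1 ≤ c := by rw [hc, le_div_iff₀ hg0]; linarith
  have hc4 : c ≤ c ^ 4 := by simpa using pow_le_pow_right₀ hc1 (show 1 ≤ 4 by norm_num)
  have hC' : 2 * c ≤ 24 * C₁ * c ^ 4 := by nlinarith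
  refine ⟨24 * C₁ * c ^ 4, by linarith, ?_⟩
  intro W lab D m s hcell hW hD hs
  have hD1 : (1 : ℝ) ≤ D := by exact_mod_cast hD
  have hD2 : (1 : ℝ) ≤ (D : ℝ) ^ 2 := one_le_pow₀ hD1
  have hs2 : 2 * (c * (D : ℝ) ^ 2) ≤ s := by nlinarith
  have hcD : 0 < c * (D : ℝ) ^ 2 := by positivity
  have hs0 : 0 < s := by linarith
  have hm0 : 0 ≤ m := (Nat.cast_nonneg _).trans hW
  have hP : (D : ℝ) ^ 5 ≤ (D : ℝ) ^ d := pow_le_pow_right₀ hD1 hd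
  have hP0 : (0 : ℝ) < (D : ℝ) ^ d := by positivity
  set T := {t ∈ Quad W | s ≤ cnt hm W (pln t) ∧ cnt hm W (pln t) < 2 * s ∧
    ND (1 / 2) hm (pln t) {w ∈ W | hm w ∈ pln t}} with hT
  have hTq : T ⊆ Quad W := filter_subset _ _
  have h1 := quad_le W T hTq s fun t ht => (mem_filter.1 ht).2.2.1.le
  have hU : ∀ U ∈ T.image pln, finrank ℝ U = 3 ∧ s ≤ (#{w ∈ W | hm w ∈ U} : ℝ) ∧
      ND (1 / 2) hm U {w ∈ W | hm w ∈ U} := by
    intro U hU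
    obtain ⟨t, ht, rfl⟩ := mem_image.1 hU
    obtain ⟨hq, h2, -, h3⟩ := mem_filter.1 ht
    exact ⟨rank_pln (mem_filter.1 hq).2.1, h2, h3⟩
  obtain ⟨J, F, Y, hJ, hsum⟩ := hLD (E d) (ℝ × E d) (Submodule ℝ (ℝ × E d)) (Set (E d)) hm γ
    (C * (D : ℝ) ^ 2) s 3 (T.image pln) id (fun U => {w ∈ W | hm w ∈ U}) lab hγ (by linarith)
    (by positivity) hs0 (fun U hU' => by
      refine ⟨(hU U hU').1.le, fun y hy => ⟨(mem_filter.1 hy).2, (np_hm {y}).1 y (by simp)⟩, ?_,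
        (hU U hU').2.1⟩
      have := hcell.2 2 _ ((hDIM d).1 2 U (hU U hU').1.le) {w ∈ W | hm w ∈ U} (filter_subset _ _)
        fun x hx => (mem_filter.1 hx).2
      exact_mod_cast this)
  have ea : s * γ ^ 3 / (2 * (C * (D : ℝ) ^ 2)) = s / (c * (D : ℝ) ^ 2) := by
    rw [hc]; field_simp
  simp only [ea, id] at hJ
  have ha2 : 2 ≤ s / (c * (D : ℝ) ^ 2) := by rwa [le_div_iff₀ hcD]
  have ha0 : 0 < s / (c * (D : ℝ) ^ 2) := by linarith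
  have hY2 : ∀ p ∈ J, 1 < #(Y p) := fun p hp => by
    have h2 : (2 : ℝ) ≤ #(Y p) := ha2.trans (hJ p hp).2.2.2.2.2.2
    have h3 : 2 ≤ #(Y p) := by exact_mod_cast h2
    omega
  have hYW : ∀ p ∈ J, ∀ y ∈ Y p, y ∈ W := fun p hp y hy => (mem_filter.1 ((hJ p hp).2.1 hy)).1
  have hB : ∀ p ∈ J, p.2 ∈ W.image lab := fun p hp => by
    obtain ⟨y, hy⟩ := card_pos.1 (lt_trans one_pos (hY2 p hp))
    exact mem_image.2 ⟨y, hYW p hp y hy, (hJ p hp).2.2.1 y hy⟩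
  have hn : (#(W.image lab) : ℝ) ≤ C * (D : ℝ) ^ d := by
    have := hcell.2 d _ (hDIM d).2.2 W Subset.rfl fun x _ => Set.mem_univ x
    exact_mod_cast this
  have hrk : ∀ p ∈ J, finrank ℝ (F p) = 2 ∨ finrank ℝ (F p) = 3 := fun p hp => by
    obtain ⟨h2, -, -, h3, h4, h5, -⟩ := hJ p hp
    have h6 := Submodule.finrank_mono h3
    have h7 := (hU _ h2).1
    have h8 := not_rank_one h5.1 (hY2 p hp)
    omega
  have cell : ∀ k ≤ 1, ∀ w : ℝ, 0 ≤ w →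
      (∀ b, Mlt {p ∈ {p ∈ J | finrank ℝ (F p) = k + 2} | p.2 = b} F Y w) →
      ∑ p ∈ {p ∈ J | finrank ℝ (F p) = k + 2}, (#(Y p) : ℝ) ≤ C * (D : ℝ) ^ d *
        (C₁ * w * ((m / (D : ℝ) ^ d) ^ (k + 2) / (s / (c * (D : ℝ) ^ 2)) ^ (k + 2) +
          (m / (D : ℝ) ^ d) ^ (k + 1) / (s / (c * (D : ℝ) ^ 2)) ^ k)) := by
    intro k hk w hw hM
    refine sum_cells _ (W.image lab) _ _ _ (fun p hp => hB p (mem_filter.1 hp).1) hn
      (by positivity) fun b => ?_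
    refine hE k hk (E d) (ℝ × E d) _ hm {x ∈ W | lab x = b} _ F Y _ _ w (np_hm _)
      ((le_div_iff₀ hP0).2 (hcell.1 b)) ha0 hw (fun p hp => ?_) (hM b)
    obtain ⟨hp, hb⟩ := mem_filter.1 hp
    obtain ⟨hp, hr⟩ := mem_filter.1 hp
    exact ⟨hr, fun y hy => mem_filter.2 ⟨hYW p hp y hy, ((hJ p hp).2.2.1 y hy).trans hb⟩,
      (hJ p hp).2.2.2.2.2.1, (hJ p hp).2.2.2.2.2.2⟩
  have c0 := cell 0 (by norm_num) (2 * m / s) (by positivity) fun b x F₀ => by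
    by_cases hF : finrank ℝ F₀ = 2
    · have h2 := hPEN (E d) (ℝ × E d) hm W 1 F₀ {U ∈ T.image pln | F₀ ≤ U}
        (fun U => {w ∈ W | hm w ∈ U}) m s hW hs0 fun U hU' => by
          obtain ⟨h3, h4⟩ := mem_filter.1 hU'
          exact ⟨h4, by rw [(hU U h3).1, hF], filter_subset _ _, (hU U h3).2.2, (hU U h3).2.1⟩
      rw [pow_one] at h2
      refine le_trans ?_ h2
      rw [Nat.cast_le]
      refine card_le_card_of_injOn Prod.fst (fun p hp => ?_) fun p hp q hq e => ?_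
      · simp only [coe_filter, mem_filter, Set.mem_ofPred_eq] at hp ⊢
        exact ⟨(hJ p hp.1.1.1).1, hp.2.2 ▸ (hJ p hp.1.1.1).2.2.2.1⟩
      · simp only [coe_filter, mem_filter, Set.mem_ofPred_eq] at hp hq
        exact Prod.ext e (hp.1.2.trans hq.1.2.symm)
    · refine le_trans (le_of_eq ?_) (show (0 : ℝ) ≤ 2 * m / s by positivity)
      rw [Nat.cast_eq_zero, card_eq_zero, eq_empty_iff_forall_notMem]
      intro p hp
      simp only [mem_filter] at hp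
      exact hF (hp.2.2 ▸ hp.1.1.2)
  have c1 := cell 1 le_rfl 1 zero_le_one fun b x F₀ => by
    rw [Nat.cast_le_one, card_le_one]
    have key : ∀ p ∈ J, finrank ℝ (F p) = 1 + 2 → F p = p.1 := fun p hp hr =>
      Submodule.eq_of_le_of_finrank_eq (hJ p hp).2.2.2.1 (by rw [hr, (hU _ (hJ p hp).1).1])
    intro p hp q hq
    simp only [mem_filter] at hp hq
    refine Prod.ext ?_ (hp.1.2.trans hq.1.2.symm)
    rw [← key p hp.1.1.1 hp.1.1.2, ← key q hq.1.1.1 hq.1.1.2, hp.2.2, hq.2.2]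
  have hsplit : ∑ p ∈ J, (#(Y p) : ℝ) = ∑ p ∈ {p ∈ J | finrank ℝ (F p) = 0 + 2}, (#(Y p) : ℝ) +
      ∑ p ∈ {p ∈ J | finrank ℝ (F p) = 1 + 2}, (#(Y p) : ℝ) := by
    rw [← sum_filter_add_sum_filter_not J fun p => finrank ℝ (F p) = 0 + 2]
    congr 2
    refine filter_congr fun p hp => ?_
    have := hrk p hp
    omega
  have har := arith c C₁ D ((D : ℝ) ^ d) m s hc1 hC₁ hD1 hP hm0 hs0
  refine le_trans ?_ har
  refine h1.trans ?_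
  rw [mul_assoc (8 * s ^ 3)]
  refine mul_le_mul_of_nonneg_left (hsum.trans ?_) (by positivity)
  rw [hsplit]
  refine (mul_le_mul_of_nonneg_left (add_le_add c0 c1) (by positivity)).trans (le_of_eq ?_)
  rw [hc]
  ring

end Pool.Agent.P.MP_5f07f1_co.Z
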