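import Pool.Agent.P.MP_5f07f1_co.ZDefs

namespace Pool.Agent.P.MP_5f07f1_co.Z

open Finset MvPolynomial Pool.Agent.Lib.PolyPart Classical Module

namespace XSL2

variable {V : Type} [AddCommGroup V] [Module ℝ V]

/-- Base points of translates of the pattern `τ` inside `X`. -/
noncomputable def R (X : Finset V) {j : ℕ} (τ : Fin j → V) : Finset V :=
  {x ∈ X | ∀ i, x + τ i ∈ X}

/-- All difference patterns. -/
noncomputable def D (X : Finset V) (j : ℕ) : Finset (Fin j → V) :=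
  Fintype.piFinset fun _ => (X ×ˢ X).image fun p => p.1 - p.2

omit [Module ℝ V] in
lemma mem_R {X : Finset V} {j : ℕ} {τ : Fin j → V} {x : V} :
    x ∈ R X τ ↔ x ∈ X ∧ ∀ i, x + τ i ∈ X := by simp [R]

omit [Module ℝ V] in
lemma count_le {j : ℕ} (F : Finset (Fin j → V)) (S : Finset V) (p : V) (P : (Fin j → V) → Prop)
    [DecidablePred P] (h : ∀ τ ∈ F, P τ → ∀ i, p + τ i ∈ S) : #{τ ∈ F | P τ} ≤ #S ^ j := by
  have h1 : #(Fintype.piFinset fun _ : Fin j => S) = #S ^ j := by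
    simp [Fintype.card_piFinset]
  rw [← h1]
  refine card_le_card_of_injOn (fun τ i => p + τ i) ?_ ?_
  · intro τ hτ
    have := mem_filter.1 (mem_coe.1 hτ)
    exact mem_coe.2 (Fintype.mem_piFinset.2 (h τ this.1 this.2))
  · intro τ _ σ _ e
    funext i
    exact add_left_cancel (congrFun e i)

omit [AddCommGroup V] [Module ℝ V] in
lemma swap {β : Type} {j : ℕ} (F : Finset (Fin j → V)) (B : Finset β)
    (P : (Fin j → V) → β → Prop) [∀ τ b, Decidable (P τ b)] :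
    ∑ τ ∈ F, (#{b ∈ B | P τ b} : ℝ) = ∑ b ∈ B, (#{τ ∈ F | P τ b} : ℝ) := by
  simp only [card_filter, Nat.cast_sum]
  exact sum_comm

omit [Module ℝ V] in
lemma sq_le (X : Finset V) (j : ℕ) (F : Finset (Fin j → V)) :
    ∑ τ ∈ F, (#(R X τ) : ℝ) ^ 2 ≤ E2 X j := by
  have h1 : ∀ τ ∈ F, (#(R X τ) : ℝ) ^ 2 =
      (#{p ∈ X ×ˢ X | p.1 ∈ R X τ ∧ p.2 ∈ R X τ} : ℝ) := by
    intro τ _
    have : ({p ∈ X ×ˢ X | p.1 ∈ R X τ ∧ p.2 ∈ R X τ} : Finset (V × V)) = R X τ ×ˢ R X τ := by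
      ext p
      simp only [mem_filter, mem_product]
      exact ⟨fun h => h.2, fun h => ⟨⟨(mem_R.1 h.1).1, (mem_R.1 h.2).1⟩, h⟩⟩
    rw [this, card_product]; push_cast; ring
  rw [sum_congr rfl h1, swap F (X ×ˢ X) fun τ p => p.1 ∈ R X τ ∧ p.2 ∈ R X τ]
  refine sum_le_sum fun p _ => ?_
  have := count_le F {x ∈ X | x + (p.2 - p.1) ∈ X} p.1 (fun τ => p.1 ∈ R X τ ∧ p.2 ∈ R X τ)
    fun τ _ h i => mem_filter.2 ⟨(mem_R.1 h.1).2 i, by
      have := (mem_R.1 h.2).2 i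
      rwa [show p.1 + τ i + (p.2 - p.1) = p.2 + τ i by abel]⟩
  exact_mod_cast this

omit [Module ℝ V] in
lemma cube_le (X : Finset V) (j : ℕ) (F : Finset (Fin j → V)) :
    ∑ τ ∈ F, (#(R X τ) : ℝ) ^ 3 ≤ E3 X j := by
  have h1 : ∀ τ ∈ F, (#(R X τ) : ℝ) ^ 3 =
      (#{p ∈ X ×ˢ X ×ˢ X | p.1 ∈ R X τ ∧ p.2.1 ∈ R X τ ∧ p.2.2 ∈ R X τ} : ℝ) := by
    intro τ _
    have : ({p ∈ X ×ˢ X ×ˢ X | p.1 ∈ R X τ ∧ p.2.1 ∈ R X τ ∧ p.2.2 ∈ R X τ} :
        Finset (V × V × V)) = R X τ ×ˢ R X τ ×ˢ R X τ := by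
      ext p
      simp only [mem_filter, mem_product]
      exact ⟨fun h => h.2, fun h => ⟨⟨(mem_R.1 h.1).1, (mem_R.1 h.2.1).1, (mem_R.1 h.2.2).1⟩, h⟩⟩
    rw [this, card_product, card_product]; push_cast; ring
  rw [sum_congr rfl h1,
    swap F (X ×ˢ X ×ˢ X) fun τ p => p.1 ∈ R X τ ∧ p.2.1 ∈ R X τ ∧ p.2.2 ∈ R X τ]
  refine sum_le_sum fun p _ => ?_
  have := count_le F {x ∈ X | x + (p.2.1 - p.1) ∈ X ∧ x + (p.2.2 - p.1) ∈ X} p.1
    (fun τ => p.1 ∈ R X τ ∧ p.2.1 ∈ R X τ ∧ p.2.2 ∈ R X τ)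
    fun τ _ h i => mem_filter.2 ⟨(mem_R.1 h.1).2 i, by
      have := (mem_R.1 h.2.1).2 i
      rwa [show p.1 + τ i + (p.2.1 - p.1) = p.2.1 + τ i by abel], by
      have := (mem_R.1 h.2.2).2 i
      rwa [show p.1 + τ i + (p.2.2 - p.1) = p.2.2 + τ i by abel]⟩
  exact_mod_cast this

lemma sum_smul (X : Finset V) (j k : ℕ) (F : Finset (Fin j → V)) {t : ℝ} (ht : t ≠ 0) :
    ∑ τ ∈ F, (#(R X (t • τ)) : ℝ) ^ k = ∑ σ ∈ F.image (t • ·), (#(R X σ) : ℝ) ^ k := by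
  rw [sum_image]
  intro a _ b _ e
  exact smul_right_injective _ ht e

omit [Module ℝ V] in
lemma moment_le {ι : Type} (X : Finset V) (j : ℕ) (Z : Finset ι) (K : ι → Finset V)
    (hK : ∀ z, K z ⊆ X) :
    ∑ z ∈ Z, (#(K z) : ℝ) ^ (j + 1) ≤
      ∑ τ ∈ D X j, (#{q ∈ Z ×ˢ X | q.2 ∈ K q.1 ∧ ∀ i, q.2 + τ i ∈ K q.1} : ℝ) := by
  rw [swap (D X j) (Z ×ˢ X) fun τ q => q.2 ∈ K q.1 ∧ ∀ i, q.2 + τ i ∈ K q.1, sum_product]
  refine sum_le_sum fun z _ => ?_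
  have h1 : (#(K z) : ℝ) ^ (j + 1) = ∑ _x ∈ K z, (#(K z) : ℝ) ^ j := by
    rw [sum_const, nsmul_eq_mul]; ring
  rw [h1]
  refine le_trans (sum_le_sum fun x hx => ?_)
    (sum_le_sum_of_subset_of_nonneg (hK z) fun _ _ _ => Nat.cast_nonneg _)
  have h2 : #(Fintype.piFinset fun _ : Fin j => K z) = #(K z) ^ j := by
    simp [Fintype.card_piFinset]
  have h3 : #(Fintype.piFinset fun _ : Fin j => K z) ≤
      #{τ ∈ D X j | x ∈ K z ∧ ∀ i, x + τ i ∈ K z} := by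
    refine card_le_card_of_injOn (fun y i => y i - x) ?_ ?_
    · intro y hy
      have hy' := Fintype.mem_piFinset.1 (mem_coe.1 hy)
      refine mem_coe.2 (mem_filter.2 ⟨Fintype.mem_piFinset.2 fun i => ?_, hx, fun i => ?_⟩)
      · exact mem_image.2 ⟨(y i, x), mem_product.2 ⟨hK z (hy' i), hK z hx⟩, rfl⟩
      · simpa using hy' i
    · intro y _ y' _ e
      funext i
      exact sub_left_injective (congrFun e i)
  rw [h2] at h3
  exact_mod_cast h3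

lemma app_add (T : ℝ × V) (x v : V) : app T (x + v) = app T x + T.1 • v := by
  simp only [app, smul_add]; abel

lemma app_inj {T T' : ℝ × V} {x : V} (h1 : T.1 = T'.1) (h : app T x = app T' x) : T = T' := by
  refine Prod.ext h1 ?_
  simp only [app, h1] at h
  exact add_left_cancel h

end XSL2

open XSL2 in
theorem p_SL2 : S_SL2 := by
  intro V _ _ X j t 𝒜 ht h𝒜
  refine (moment_le X j 𝒜 (KT X) fun _ => filter_subset _ _).trans ?_
  have h1 : ∀ τ ∈ D X j,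
      (#{q ∈ 𝒜 ×ˢ X | q.2 ∈ KT X q.1 ∧ ∀ i, q.2 + τ i ∈ KT X q.1} : ℝ) ≤
        ((#(R X τ) : ℝ) ^ 2 + (#(R X (t • τ)) : ℝ) ^ 2) / 2 := by
    intro τ _
    have h2 : #{q ∈ 𝒜 ×ˢ X | q.2 ∈ KT X q.1 ∧ ∀ i, q.2 + τ i ∈ KT X q.1} ≤
        #(R X τ ×ˢ R X (t • τ)) := by
      refine card_le_card_of_injOn (fun q => (q.2, app q.1 q.2)) ?_ ?_
      · intro q hq
        obtain ⟨hq1, hq2, hq3⟩ := mem_filter.1 (mem_coe.1 hq)
        have hT := h𝒜 _ (mem_product.1 hq1).1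
        refine mem_coe.2 (mem_product.2 ⟨mem_R.2 ⟨(mem_filter.1 hq2).1, fun i =>
          (mem_filter.1 (hq3 i)).1⟩, mem_R.2 ⟨(mem_filter.1 hq2).2, fun i => ?_⟩⟩)
        have := (mem_filter.1 (hq3 i)).2
        rwa [app_add, hT] at this
      · intro q hq q' hq' e
        have hT := h𝒜 _ (mem_product.1 (mem_filter.1 (mem_coe.1 hq)).1).1
        have hT' := h𝒜 _ (mem_product.1 (mem_filter.1 (mem_coe.1 hq')).1).1
        have e1 : q.2 = q'.2 := congrArg Prod.fst e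
        have e2 : app q.1 q.2 = app q'.1 q'.2 := congrArg Prod.snd e
        rw [← e1] at e2
        exact Prod.ext (app_inj (hT.trans hT'.symm) e2) e1
    rw [card_product] at h2
    have h3 : (#{q ∈ 𝒜 ×ˢ X | q.2 ∈ KT X q.1 ∧ ∀ i, q.2 + τ i ∈ KT X q.1} : ℝ) ≤
        (#(R X τ) : ℝ) * #(R X (t • τ)) := by exact_mod_cast h2
    nlinarith [sq_nonneg ((#(R X τ) : ℝ) - #(R X (t • τ)))]
  refine (sum_le_sum h1).trans ?_
  rw [← sum_div, sum_add_distrib, sum_smul X j 2 _ ht]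
  linarith [sq_le X j (D X j), sq_le X j ((D X j).image (t • ·))]

open XSL2 in
theorem p_SL3 : S_SL3 := by
  intro V _ _ X j t t' Z ht ht' hZ
  refine (moment_le X j Z (fun p => {x ∈ X | app p.1 x ∈ X ∧ app p.2 x ∈ X})
    fun _ => filter_subset _ _).trans ?_
  have h1 : ∀ τ ∈ D X j,
      (#{q ∈ Z ×ˢ X | q.2 ∈ ({x ∈ X | app q.1.1 x ∈ X ∧ app q.1.2 x ∈ X} : Finset V) ∧
        ∀ i, q.2 + τ i ∈ ({x ∈ X | app q.1.1 x ∈ X ∧ app q.1.2 x ∈ X} : Finset V)} : ℝ) ≤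
        ((#(R X τ) : ℝ) ^ 3 + (#(R X (t • τ)) : ℝ) ^ 3 + (#(R X (t' • τ)) : ℝ) ^ 3) / 3 := by
    intro τ _
    have h2 : #{q ∈ Z ×ˢ X | q.2 ∈ ({x ∈ X | app q.1.1 x ∈ X ∧ app q.1.2 x ∈ X} : Finset V) ∧
        ∀ i, q.2 + τ i ∈ ({x ∈ X | app q.1.1 x ∈ X ∧ app q.1.2 x ∈ X} : Finset V)} ≤
        #(R X τ ×ˢ R X (t • τ) ×ˢ R X (t' • τ)) := by
      refine card_le_card_of_injOn (fun q => (q.2, app q.1.1 q.2, app q.1.2 q.2)) ?_ ?_
      · intro q hq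
        obtain ⟨hq1, hq2, hq3⟩ := mem_filter.1 (mem_coe.1 hq)
        have hT := hZ _ (mem_product.1 hq1).1
        refine mem_coe.2 (mem_product.2 ⟨mem_R.2 ⟨(mem_filter.1 hq2).1, fun i =>
          (mem_filter.1 (hq3 i)).1⟩, mem_product.2 ⟨mem_R.2 ⟨(mem_filter.1 hq2).2.1, fun i => ?_⟩,
          mem_R.2 ⟨(mem_filter.1 hq2).2.2, fun i => ?_⟩⟩⟩)
        · have := (mem_filter.1 (hq3 i)).2.1
          rwa [app_add, hT.1] at this
        · have := (mem_filter.1 (hq3 i)).2.2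
          rwa [app_add, hT.2] at this
      · intro q hq q' hq' e
        have hT := hZ _ (mem_product.1 (mem_filter.1 (mem_coe.1 hq)).1).1
        have hT' := hZ _ (mem_product.1 (mem_filter.1 (mem_coe.1 hq')).1).1
        have e1 : q.2 = q'.2 := congrArg Prod.fst e
        have e2 : app q.1.1 q.2 = app q'.1.1 q'.2 := congrArg (fun z => z.2.1) e
        have e3 : app q.1.2 q.2 = app q'.1.2 q'.2 := congrArg (fun z => z.2.2) e
        rw [← e1] at e2 e3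
        exact Prod.ext (Prod.ext (app_inj (hT.1.trans hT'.1.symm) e2)
          (app_inj (hT.2.trans hT'.2.symm) e3)) e1
    rw [card_product, card_product] at h2
    have h3 : (#{q ∈ Z ×ˢ X | q.2 ∈ ({x ∈ X | app q.1.1 x ∈ X ∧ app q.1.2 x ∈ X} : Finset V) ∧
        ∀ i, q.2 + τ i ∈ ({x ∈ X | app q.1.1 x ∈ X ∧ app q.1.2 x ∈ X} : Finset V)} : ℝ) ≤
        (#(R X τ) : ℝ) * ((#(R X (t • τ)) : ℝ) * #(R X (t' • τ))) := by exact_mod_cast h2
    refine h3.trans ?_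
    generalize hA : (#(R X τ) : ℝ) = a
    generalize hB : (#(R X (t • τ)) : ℝ) = b
    generalize hC : (#(R X (t' • τ)) : ℝ) = c
    have ha : 0 ≤ a := hA ▸ Nat.cast_nonneg _
    have hb : 0 ≤ b := hB ▸ Nat.cast_nonneg _
    have hc : 0 ≤ c := hC ▸ Nat.cast_nonneg _
    have hs : 0 ≤ a + b + c := by positivity
    nlinarith [mul_nonneg hs (sq_nonneg (a - b)), mul_nonneg hs (sq_nonneg (b - c)),
      mul_nonneg hs (sq_nonneg (a - c))]
  refine (sum_le_sum h1).trans ?_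
  rw [← sum_div, sum_add_distrib, sum_add_distrib, sum_smul X j 3 _ ht, sum_smul X j 3 _ ht']
  linarith [cube_le X j (D X j), cube_le X j ((D X j).image (t • ·)),
    cube_le X j ((D X j).image (t' • ·))]

end Pool.Agent.P.MP_5f07f1_co.Z
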