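import Pool.Agent.P.MP_5f07f1_co.ZDefs
import Pool.Agent.P.MP_5f07f1_co.Flat

/-! Polynomial partitioning with sharp total degree; dimension of flats. -/

namespace Pool.Agent.P.MP_5f07f1_co.Z

open Finset MvPolynomial Pool.Agent.Lib.PolyPart Classical Module

namespace XSP

lemma part {α : Type} (k s : ℕ) (hk : 1 ≤ k) (π : α → Fin k → ℝ) (X : Finset α) :
    ∃ h : Fin s → MP k, (∀ i, h i ≠ 0) ∧
      ∑ i, (h i).totalDegree ≤ ∑ j ∈ range s, k * 2 ^ (j / k + 1) ∧ ∀ σ : Fin s → Bool,
        2 ^ s * #{x ∈ X | ∀ i, 0 < sg (σ i) * eval (π x) (h i)} ≤ #X := by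
  induction s with
  | zero => exact ⟨Fin.elim0, fun i => i.elim0, by simp, fun σ => by simp⟩
  | succ s ih =>
    obtain ⟨h, hh, hd, hσ⟩ := ih
    obtain ⟨g, hg0, hgd, hg⟩ := ham_poly (κ := Fin s → Bool) k (2 ^ (s / k + 1))
      (by
        simp only [Fintype.card_fun, Fintype.card_bool, Fintype.card_fin]
        refine lt_of_lt_of_le ?_ (Nat.pow_le_pow_left (Nat.le_succ _) k)
        rw [← pow_mul]
        refine Nat.pow_lt_pow_right one_lt_two ?_
        rw [mul_comm]
        exact Nat.lt_mul_div_succ s hk) π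
      (fun σ => {x ∈ X | ∀ i, 0 < sg (σ i) * eval (π x) (h i)})
    refine ⟨Fin.cons g h, ?_, ?_, fun σ => ?_⟩
    · intro i
      refine Fin.cases ?_ (fun i => ?_) i
      · exact hg0
      · exact hh i
    · rw [Fin.sum_univ_succ, sum_range_succ]
      simp only [Fin.cons_zero, Fin.cons_succ]
      omega
    · have h1 := hσ (Fin.tail σ)
      have h2 := hg (Fin.tail σ)
      simp only [filter_filter] at h2
      have h3 : 2 * #{x ∈ X | ∀ i, 0 < sg (σ i) *
          eval (π x) ((Fin.cons g h : Fin (s + 1) → MP k) i)} ≤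
          #{x ∈ X | ∀ i, 0 < sg (Fin.tail σ i) * eval (π x) (h i)} := by
        simp only [Fin.forall_fin_succ, Fin.cons_zero, Fin.cons_succ]
        cases hσ0 : σ 0
        · refine le_trans (le_of_eq ?_) h2.2
          congr 2
          ext x
          simp [sg_false, Fin.tail, and_comm]
        · refine le_trans (le_of_eq ?_) h2.1
          congr 2
          ext x
          simp [sg_true, Fin.tail, and_comm]
      calc _ = 2 ^ s * (2 * _) := by rw [pow_succ, mul_assoc]
        _ ≤ 2 ^ s * _ := Nat.mul_le_mul_left _ h3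
        _ ≤ _ := h1

lemma sum_deg (k m : ℕ) (hk : 1 ≤ k) :
    ∑ j ∈ range (m * k), k * 2 ^ (j / k + 1) ≤ 2 * k ^ 2 * 2 ^ m := by
  induction m with
  | zero => simp
  | succ m ih =>
    rw [add_mul, one_mul, sum_range_add]
    have e : ∑ j ∈ range k, k * 2 ^ ((m * k + j) / k + 1) = k * (k * 2 ^ (m + 1)) := by
      rw [sum_congr rfl (g := fun _ => k * 2 ^ (m + 1)), sum_const, card_range, smul_eq_mul]
      intro j hj
      rw [mul_comm m k, Nat.mul_add_div hk, Nat.div_eq_of_lt (mem_range.1 hj), add_zero]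
    rw [e]
    calc _ ≤ 2 * k ^ 2 * 2 ^ m + k * (k * 2 ^ (m + 1)) := Nat.add_le_add_right ih _
      _ = _ := by ring

/-- The directions of a flat. -/
lemma dir_rank {d : ℕ} (F : Submodule ℝ (ℝ × E d)) {x : E d} (hx : hm x ∈ F) :
    finrank ℝ (F.comap (LinearMap.inr ℝ ℝ (E d))) + 1 = finrank ℝ F := by
  have e1 : finrank ℝ ((F.comap (LinearMap.inr ℝ ℝ (E d))).map (LinearMap.inr ℝ ℝ (E d))) =
      finrank ℝ (F.comap (LinearMap.inr ℝ ℝ (E d))) :=
    (Submodule.equivMapOfInjective _ LinearMap.inr_injective _).finrank_eq.symm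
  rw [← e1]
  apply le_antisymm
  · refine Submodule.finrank_lt_finrank_of_lt (lt_of_le_of_ne (Submodule.map_comap_le _ _) ?_)
    intro h
    rw [← h] at hx
    obtain ⟨v, -, hv⟩ := hx
    exact zero_ne_one (congrArg Prod.fst hv)
  · have h1 : F ≤ (F.comap (LinearMap.inr ℝ ℝ (E d))).map (LinearMap.inr ℝ ℝ (E d)) ⊔
        Submodule.span ℝ {hm x} := by
      intro p hp
      have h2 : p - p.1 • hm x = LinearMap.inr ℝ ℝ (E d) (p.2 - p.1 • x) := by
        ext <;> simp [hm]
      rw [← sub_add_cancel p (p.1 • hm x)]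
      refine Submodule.add_mem_sup ⟨p.2 - p.1 • x, ?_, h2.symm⟩
        (Submodule.smul_mem _ _ (Submodule.mem_span_singleton_self _))
      change LinearMap.inr ℝ ℝ (E d) (p.2 - p.1 • x) ∈ F
      rw [← h2]
      exact F.sub_mem hp (F.smul_mem _ hx)
    refine (Submodule.finrank_mono h1).trans
      ((Submodule.finrank_add_le_finrank_add_finrank _ _).trans (Nat.add_le_add_left ?_ _))
    simpa using finrank_span_le_card (R := ℝ) ({hm x} : Set (ℝ × E d))

end XSP

theorem p_SP : S_SP := by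
  intro α k m π X hk
  obtain ⟨h, h1, h2, h3⟩ := XSP.part k (m * k) hk π X
  exact ⟨h, h1, h2.trans (XSP.sum_deg k m hk), h3⟩

theorem p_DIM : S_DIM := by
  intro d
  refine ⟨fun e U hU => ?_, fun e F x hx hF => ?_, ?_⟩
  · refine isDim_dir fun ⟨x, hx⟩ => ⟨U.comap (LinearMap.inr ℝ ℝ (E d)), ?_, fun y hy z hz => ?_⟩
    · have := XSP.dir_rank U hx
      omega
    · have h : LinearMap.inr ℝ ℝ (E d) (y - z) = hm y - hm z := by ext <;> simp [hm]
      change LinearMap.inr ℝ ℝ (E d) (y - z) ∈ U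
      rw [h]
      exact U.sub_mem hy hz
  · have h1 := XSP.dir_rank F hx
    obtain ⟨v, hv⟩ := exists_linearIndependent_of_le_finrank (R := ℝ)
      (M := F.comap (LinearMap.inr ℝ ℝ (E d))) (n := e) (by omega)
    have hv' : LinearIndependent ℝ fun i => ((v i : E d), (v i : E d) ⬝ᵥ x) :=
      LinearIndependent.of_comp (LinearMap.fst ℝ (E d) ℝ)
        (hv.map' (Submodule.subtype _) (Submodule.ker_subtype _))
    intro y hy
    obtain ⟨ψ, a1, a2, a3⟩ := isDim_flat (e := d - e) (by omega) hv' y hy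
    refine ⟨ψ, a1, a2, fun z hz => a3 z fun i => ?_⟩
    have h2 := hz (v i) (v i).2
    rw [sub_dotProduct, sub_eq_zero] at h2
    simpa [dotProduct_comm] using h2
  · exact isDim_dir fun _ => ⟨⊤, by simp, fun _ _ _ _ => trivial⟩

end Pool.Agent.P.MP_5f07f1_co.Z
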