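import Pool.Agent.P.MP_5f07f1_co.ZDefs

namespace Pool.Agent.P.MP_5f07f1_co.Z

open Finset MvPolynomial Pool.Agent.Lib.PolyPart Classical Module

namespace XST

variable {W : Type} [AddCommGroup W] [Module ℝ W]

lemma dual_fin (T : Finset W) : ∃ φ : W →ₗ[ℝ] ℝ, ∀ v ∈ T, v ≠ 0 → φ v ≠ 0 := by
  obtain ⟨φ, h⟩ := Module.exists_dual_forall_apply_ne_zero (K := ℝ)
    (fun v : {v // v ∈ T.filter (· ≠ 0)} => (v : W)) fun v => (mem_filter.1 v.2).2
  exact ⟨φ, fun v hv h0 => h ⟨v, mem_filter.2 ⟨hv, h0⟩⟩⟩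

lemma li_pair (ψ : W →ₗ[ℝ] ℝ) {u v : W} (hu : ψ u = 1) (hv : ψ v = 1) (h : u ≠ v) :
    LinearIndependent ℝ ![u, v] := by
  rw [LinearIndependent.pair_iff]
  intro s t e
  have e1 : s + t = 0 := by simpa [hu, hv] using congrArg ψ e
  obtain rfl : t = -s := by linarith
  rw [neg_smul, ← sub_eq_add_neg, ← smul_sub, smul_eq_zero] at e
  obtain rfl : s = 0 := e.resolve_right (sub_ne_zero.2 h)
  simp

lemma rank_pair {u v : W} (h : LinearIndependent ℝ ![u, v]) :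
    finrank ℝ (Submodule.span ℝ {u, v}) = 2 := by
  have := finrank_span_eq_card h
  rwa [Matrix.range_cons, Matrix.range_cons, Matrix.range_empty, Set.union_empty,
    Set.singleton_union, Fintype.card_fin] at this

lemma eq_span [FiniteDimensional ℝ W] {U : Submodule ℝ W} (hU : finrank ℝ U ≤ 2) {u v : W}
    (hu : u ∈ U) (hv : v ∈ U) (h : LinearIndependent ℝ ![u, v]) :
    Submodule.span ℝ {u, v} = U := by
  refine Submodule.eq_of_le_of_finrank_le ?_ (by rw [rank_pair h]; exact hU)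
  rw [Submodule.span_le]
  rintro x (rfl | rfl)
  exacts [hu, hv]

end XST

open XST in
theorem p_ST (hSTP : S_STP) : S_ST := by
  obtain ⟨C, hC, H⟩ := hSTP
  refine ⟨C, hC, fun α V _ _ _ f A 𝒰 Y σ a hf hσ ha h𝒰 => ?_⟩
  obtain ⟨φ₀, h₀⟩ := dual_fin (A.image f)
  have k₀ : ∀ x ∈ A, φ₀ (f x) ≠ 0 := fun x hx => h₀ _ (mem_image_of_mem f hx) (hf.1 x hx)
  obtain ⟨g, hg⟩ : ∃ g : α → V, ∀ x, g x = (φ₀ (f x))⁻¹ • f x := ⟨_, fun _ => rfl⟩
  have g1 : ∀ x ∈ A, φ₀ (g x) = 1 := fun x hx => by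
    rw [hg, map_smul, smul_eq_mul, inv_mul_cancel₀ (k₀ x hx)]
  have gi : ∀ x ∈ A, ∀ y ∈ A, x ≠ y → g x ≠ g y := fun x hx y hy hxy e => by
    refine hxy (hf.2 y hy x hx (φ₀ (f x) * (φ₀ (f y))⁻¹) ?_)
    rw [mul_smul, ← hg, ← e, hg, smul_smul, mul_inv_cancel₀ (k₀ x hx), one_smul]
  obtain ⟨φ₁, h₁⟩ := dual_fin ((A ×ˢ A).image fun p => g p.2 - g p.1)
  have k₁ : ∀ x ∈ A, ∀ y ∈ A, x ≠ y → φ₁ (g y) - φ₁ (g x) ≠ 0 := fun x hx y hy hxy => by
    rw [← map_sub]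
    exact h₁ _ (mem_image.2 ⟨(x, y), mem_product.2 ⟨hx, hy⟩, rfl⟩)
      (sub_ne_zero.2 (gi y hy x hx hxy.symm))
  obtain ⟨φ₂, h₂⟩ := dual_fin ((A ×ˢ A ×ˢ A).image fun p =>
    (φ₁ (g p.2.1) - φ₁ (g p.1)) • (g p.2.2 - g p.1) -
      (φ₁ (g p.2.2) - φ₁ (g p.1)) • (g p.2.1 - g p.1))
  let p : V →ₗ[ℝ] ℝ × E 2 := φ₀.prod (LinearMap.pi ![φ₁, φ₂])
  let P : α → E 2 := fun x => ![φ₁ (g x), φ₂ (g x)]
  have pv : ∀ v, p v = (φ₀ v, ![φ₁ v, φ₂ v]) := fun v =>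
    Prod.ext rfl (funext fun i => by fin_cases i <;> rfl)
  have pg : ∀ x ∈ A, p (g x) = hm (P x) := fun x hx => by rw [pv, g1 x hx]; rfl
  have Pi : ∀ x ∈ A, ∀ y ∈ A, P x = P y → x = y := fun x hx y hy e => by
    by_contra hxy
    exact k₁ x hx y hy hxy (sub_eq_zero.2 (congrFun e 0).symm)
  have gU : ∀ U ∈ 𝒰, ∀ y ∈ Y U, g y ∈ U := fun U hU y hy => by
    rw [hg]
    exact U.smul_mem _ ((h𝒰 U hU).2.2.1 y hy)
  have sp : ∀ U ∈ 𝒰, ∃ x ∈ Y U, ∃ y ∈ Y U, x ≠ y ∧ Submodule.span ℝ {g x, g y} = U :=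
    fun U hU => by
      obtain ⟨x, hx, y, hy, hxy⟩ := one_lt_card.1 (h𝒰 U hU).2.2.2.1
      have kx := (h𝒰 U hU).2.1 hx
      have ky := (h𝒰 U hU).2.1 hy
      exact ⟨x, hx, y, hy, hxy, eq_span (h𝒰 U hU).1.le (gU U hU x hx) (gU U hU y hy)
        (li_pair φ₀ (g1 x kx) (g1 y ky) (gi x kx y ky hxy))⟩
  have key : ∀ U ∈ 𝒰, ∀ z ∈ A, p (g z) ∈ U.map p → g z ∈ U := fun U hU z hz h => by
    obtain ⟨x, hx, y, hy, hxy, e⟩ := sp U hU
    have kx := (h𝒰 U hU).2.1 hx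
    have ky := (h𝒰 U hU).2.1 hy
    obtain ⟨u, hu, eu⟩ := Submodule.mem_map.1 h
    rw [← e, Submodule.mem_span_pair] at hu
    obtain ⟨s, t, rfl⟩ := hu
    rw [pv, pv] at eu
    have e0 := congrArg Prod.fst eu
    have e1 := congrFun (congrArg Prod.snd eu) 0
    have e2 := congrFun (congrArg Prod.snd eu) 1
    simp only [map_add, map_smul, smul_eq_mul, g1 x kx, g1 y ky, g1 z hz, mul_one,
      Matrix.cons_val_zero, Matrix.cons_val_one] at e0 e1 e2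
    have hv : (φ₁ (g y) - φ₁ (g x)) • (g z - g x) - (φ₁ (g z) - φ₁ (g x)) • (g y - g x) = 0 := by
      by_contra hv
      refine h₂ _ (mem_image.2 ⟨(x, y, z), mem_product.2 ⟨kx, mem_product.2 ⟨ky, hz⟩⟩, rfl⟩) hv ?_
      simp only [map_sub, map_smul, smul_eq_mul]
      obtain rfl : s = 1 - t := by linarith
      rw [← e1, ← e2]
      ring
    have m : (φ₁ (g y) - φ₁ (g x)) • (g z - g x) ∈ U := by
      rw [sub_eq_zero.1 hv]
      exact U.smul_mem _ (U.sub_mem (gU U hU y hy) (gU U hU x hx))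
    have m' := (U.smul_mem_iff (k₁ x kx y ky hxy)).1 m
    simpa using U.add_mem m' (gU U hU x hx)
  have inj : ∀ U ∈ 𝒰, ∀ U' ∈ 𝒰, U.map p = U'.map p → U = U' := fun U hU U' hU' e => by
    obtain ⟨x, hx, y, hy, -, e'⟩ := sp U' hU'
    refine (Submodule.eq_of_le_of_finrank_le ?_ (by rw [(h𝒰 U hU).1, (h𝒰 U' hU').1])).symm
    rw [← e', Submodule.span_le]
    rintro w (rfl | rfl)
    · exact key U hU x ((h𝒰 U' hU').2.1 hx) (e ▸ Submodule.mem_map_of_mem (gU U' hU' x hx))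
    · exact key U hU y ((h𝒰 U' hU').2.1 hy) (e ▸ Submodule.mem_map_of_mem (gU U' hU' y hy))
  let Y' : Submodule ℝ (ℝ × E 2) → Finset (E 2) := fun F =>
    (𝒰.filter fun U => U.map p = F).biUnion fun U => (Y U).image P
  have eY : ∀ U ∈ 𝒰, Y' (U.map p) = (Y U).image P := fun U hU => by
    have : (𝒰.filter fun U' => U'.map p = U.map p) = {U} := by
      ext U'
      rw [mem_filter, mem_singleton]
      exact ⟨fun k => inj _ k.1 _ hU k.2, fun k => by rw [k]; exact ⟨hU, rfl⟩⟩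
    simp only [Y', this, singleton_biUnion]
  have cY : ∀ U ∈ 𝒰, #((Y U).image P) = #(Y U) := fun U hU =>
    card_image_of_injOn fun x hx y hy e => Pi x ((h𝒰 U hU).2.1 hx) y ((h𝒰 U hU).2.1 hy) e
  have := H (A.image P) (𝒰.image fun U => U.map p) Y' σ a
    (le_trans (by exact_mod_cast card_image_le) hσ) ha fun F hF => by
      obtain ⟨U, hU, rfl⟩ := mem_image.1 hF
      have hm' : ∀ y ∈ Y U, hm (P y) ∈ U.map p := fun y hy =>
        pg y ((h𝒰 U hU).2.1 hy) ▸ Submodule.mem_map_of_mem (gU U hU y hy)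
      rw [eY U hU, cY U hU]
      refine ⟨?_, image_subset_image (h𝒰 U hU).2.1, fun q hq => ?_, (h𝒰 U hU).2.2.2⟩
      · obtain ⟨x, hx, y, hy, hxy, -⟩ := sp U hU
        have li : LinearIndependent ℝ ![hm (P x), hm (P y)] :=
          li_pair (LinearMap.fst ℝ ℝ (E 2)) rfl rfl fun e =>
            hxy (Pi x ((h𝒰 U hU).2.1 hx) y ((h𝒰 U hU).2.1 hy) (congrArg Prod.snd e))
        rw [← eq_span ((Submodule.finrank_map_le p U).trans (h𝒰 U hU).1.le) (hm' x hx)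
          (hm' y hy) li, rank_pair li]
      · obtain ⟨y, hy, rfl⟩ := mem_image.1 hq
        exact hm' y hy
  rwa [sum_image inj, sum_congr rfl fun U hU => by rw [eY U hU, cY U hU]] at this

end Pool.Agent.P.MP_5f07f1_co.Z
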