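import Pool.Agent.P.MP_5f07f1_co.ZDefs

/-! The tail bound for the number of translates of a lifted chord. -/

namespace Pool.Agent.P.MP_5f07f1_co.Z

open Finset MvPolynomial Pool.Agent.Lib.PolyPart Classical Module

namespace XT2

variable {d : ℕ}

/-- The lifted difference of a chord. -/
def cf (p : E d × E d) : E d × ℝ := lf p.2 - lf p.1

lemma cf_fst (p : E d × E d) : (cf p).1 = p.2 - p.1 := rfl

lemma mem_Kc {Q : Finset (E d)} {c : E d × ℝ} {x : E d} (hx : x ∈ Kc Q c) :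
    x ∈ Q ∧ x + c.1 ∈ Q ∧ lf (x + c.1) = lf x + c := by
  unfold Kc at hx
  rw [mem_filter, mem_image] at hx
  obtain ⟨h1, z, hz, e⟩ := hx
  have e1 : z = x + c.1 := congrArg Prod.fst e
  rw [← e1]
  exact ⟨h1, hz, e⟩

lemma mem_chords {Q : Finset (E d)} {p : E d × E d} :
    p ∈ chords Q ↔ p.1 ∈ Q ∧ p.2 ∈ Q ∧ p.1 ≠ p.2 := by
  unfold chords
  rw [mem_filter, mem_product, and_assoc]

/-- The hyperplane that holds `Kc Q c`. -/
def hc (c : E d × ℝ) : Submodule ℝ (ℝ × E d) where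
  carrier := {p | 2 * (p.2 ⬝ᵥ c.1) + p.1 * (nq c.1 - c.2) = 0}
  add_mem' := fun {a b} ha hb => by
    simp only [Set.mem_ofPred_eq, Prod.snd_add, Prod.fst_add, add_dotProduct] at *
    linarith
  zero_mem' := by simp
  smul_mem' := fun t a ha => by
    simp only [Set.mem_ofPred_eq, Prod.smul_snd, Prod.smul_fst, smul_dotProduct, smul_eq_mul] at *
    linear_combination t * ha

lemma mem_hc {c : E d × ℝ} {p : ℝ × E d} :
    p ∈ hc c ↔ 2 * (p.2 ⬝ᵥ c.1) + p.1 * (nq c.1 - c.2) = 0 := Iff.rfl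

lemma hc_rank {c : E d × ℝ} (h : c.1 ≠ 0) : finrank ℝ (hc c) ≤ d := by
  have h1 : hc c ≠ ⊤ := by
    intro e
    have h2 : ((0 : ℝ), c.1) ∈ hc c := e ▸ Submodule.mem_top
    rw [mem_hc] at h2
    apply h
    have h3 : c.1 ⬝ᵥ c.1 = 0 := by
      simp only [zero_mul, add_zero] at h2
      linarith
    exact dotProduct_self_eq_zero.1 h3
  have h4 := Submodule.finrank_lt h1
  rw [finrank_prod, finrank_self, finrank_fin_fun] at h4
  omega

lemma Kc_hc {Q : Finset (E d)} {c : E d × ℝ} {x : E d} (hx : x ∈ Kc Q c) : hm x ∈ hc c := by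
  obtain ⟨-, -, e⟩ := mem_Kc hx
  have e2 : nq (x + c.1) = nq x + c.2 := congrArg Prod.snd e
  rw [mem_hc]
  simp only [hm, nq, add_dotProduct, dotProduct_add] at e2 ⊢
  rw [dotProduct_comm c.1 x] at e2
  linarith

/-- Chords whose class is mostly rich are paid by the rich chords. -/
lemma mostly (Q : Finset (E d)) (s : ℝ) (T : Finset (E d × E d)) (hT : T ⊆ chords Q)
    (h : ∀ p ∈ T, 2 * #(Kp Q s (cf p)) ≤ #(Kc Q (cf p))) :
    #T ≤ 2 * #{p ∈ Q ×ˢ Q | p.1 ≠ p.2 ∧ s ≤ cnt hm Q (sp2 hm p.1 p.2)} := by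
  set R := {p ∈ Q ×ˢ Q | p.1 ≠ p.2 ∧ s ≤ cnt hm Q (sp2 hm p.1 p.2)} with hR
  have h1 : ∀ c ∈ T.image cf, #{p ∈ T | cf p = c} ≤ 2 * #{p ∈ R | cf p = c} := by
    intro c hc
    obtain ⟨p₀, hp₀, rfl⟩ := mem_image.1 hc
    have hne : (cf p₀).1 ≠ 0 := by
      rw [cf_fst]
      exact sub_ne_zero.2 (mem_chords.1 (hT hp₀)).2.2.symm
    have a1 : #{p ∈ T | cf p = cf p₀} ≤ #(Kc Q (cf p₀)) := by
      refine card_le_card_of_injOn Prod.fst (fun p hp => ?_) (fun p hp q hq e => ?_)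
      · rw [mem_coe, mem_filter] at hp
        obtain ⟨b1, b2, -⟩ := mem_chords.1 (hT hp.1)
        rw [mem_coe]
        unfold Kc
        rw [mem_filter, mem_image]
        refine ⟨b1, p.2, b2, ?_⟩
        rw [← hp.2]
        unfold cf
        abel
      · rw [mem_coe, mem_filter] at hp hq
        have e1 : p.2 - p.1 = q.2 - q.1 := congrArg Prod.fst (hp.2.trans hq.2.symm)
        refine Prod.ext e ?_
        rw [e] at e1
        exact sub_left_injective e1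
    have a2 : #{x ∈ Kc Q (cf p₀) | ¬ ((cnt hm Q (sp2 hm x (x + (cf p₀).1)) : ℝ) < s)} ≤
        #{p ∈ R | cf p = cf p₀} := by
      refine card_le_card_of_injOn (fun x => (x, x + (cf p₀).1)) (fun x hx => ?_)
        (fun x _ z _ e => congrArg Prod.fst e)
      rw [mem_coe, mem_filter] at hx
      obtain ⟨b1, b2, b3⟩ := mem_Kc hx.1
      rw [mem_coe, mem_filter, hR, mem_filter, mem_product]
      refine ⟨⟨⟨b1, b2⟩, fun e => hne ?_, not_lt.1 hx.2⟩, ?_⟩
      · have e' : x = x + (cf p₀).1 := e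
        exact left_eq_add.1 e'
      · show lf (x + (cf p₀).1) - lf x = cf p₀
        rw [b3]
        abel
    have a3 : #(Kp Q s (cf p₀)) +
        #{x ∈ Kc Q (cf p₀) | ¬ ((cnt hm Q (sp2 hm x (x + (cf p₀).1)) : ℝ) < s)} =
        #(Kc Q (cf p₀)) := by
      unfold Kp
      exact card_filter_add_card_filter_not _
    have a4 := h p₀ hp₀
    omega
  calc #T = ∑ c ∈ T.image cf, #{p ∈ T | cf p = c} := card_eq_sum_card_image cf T
    _ ≤ ∑ c ∈ T.image cf, 2 * #{p ∈ R | cf p = c} := sum_le_sum h1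
    _ = 2 * #{p ∈ R | cf p ∈ T.image cf} := by
        rw [← mul_sum, sum_card_fiberwise_eq_card_filter]
    _ ≤ 2 * #R := Nat.mul_le_mul_left 2 (card_filter_le _ _)

end XT2

open XT2 in
theorem p_T2 (hL1 : S_L1) (hPAIR : S_PAIR) (hDIM : S_DIM) : S_T2 := by
  intro d hd
  obtain ⟨K₁, h1⟩ := hL1 d hd
  obtain ⟨C₂, hC₂, h2⟩ := hPAIR
  refine ⟨K₁ + d, fun C => ?_⟩
  obtain ⟨C₁, hC₁, h1⟩ := h1 C
  have p2 : (1 : ℝ) ≤ 2 ^ (d - 2) := one_le_pow₀ (by norm_num)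
  have p3 : (1 : ℝ) ≤ 2 ^ 240 := one_le_pow₀ (by norm_num)
  have p4 : C₁ ≤ C₁ * 2 ^ (d - 2) := le_mul_of_one_le_right (by linarith) p2
  refine ⟨2 ^ 240 + 6 * C₂ + C₁ * 2 ^ (d - 2), by linarith, fun g hg u hu => ?_⟩
  have h1 := h1 g (hg.mono (Nat.le_add_right _ _) (by linarith))
  have hN := hg.N1
  have hL := hg.L1
  have hN0 : 0 < g.N := by linarith
  have hu0 : 0 < u := by linarith
  have hs1 : 1 ≤ u ^ 240 := one_le_pow₀ hu
  have hs0 : 0 < u ^ 240 := by linarith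
  have hB : 0 < g.N ^ (2 * d) / u ^ 240 := by positivity
  set T := {p ∈ chords g.Q | u * g.N ^ (d - 2) ≤ #(Kc g.Q (lf p.2 - lf p.1))} with hT
  rw [mul_div_assoc]
  by_cases c1 : u < 2
  · have a1 : (#T : ℝ) ≤ g.N ^ (2 * d) := by
      have b1 : #T ≤ #g.Q * #g.Q := by
        rw [← card_product]
        exact card_le_card ((filter_subset _ _).trans (filter_subset _ _))
      have b2 : (#T : ℝ) ≤ #g.Q * #g.Q := by exact_mod_cast b1
      refine b2.trans ?_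
      rw [two_mul, pow_add]
      exact mul_le_mul hg.card hg.card (Nat.cast_nonneg _) (by positivity)
    have a2 : g.N ^ (2 * d) ≤ 2 ^ 240 * (g.N ^ (2 * d) / u ^ 240) := by
      rw [← mul_div_assoc, le_div_iff₀ hs0, mul_comm]
      exact mul_le_mul_of_nonneg_right (pow_le_pow_left₀ hu0.le c1.le 240) (by positivity)
    refine (a1.trans a2).trans (mul_le_mul_of_nonneg_right ?_ hB.le)
    linarith
  have c2 : 2 ≤ u := not_lt.1 c1
  have hL2 : g.L ^ 2 ≤ g.N := hg.pow_le (by omega)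
  have eN : g.N ^ (d - 1) = g.N * g.N ^ (d - 2) := by
    rw [← pow_succ']
    exact congrArg _ (by omega)
  by_cases c3 : g.L ^ 2 * g.N < u
  · have a1 : T = ∅ := by
      refine eq_empty_of_forall_notMem fun p hp => ?_
      rw [hT, mem_filter] at hp
      have hne : (cf p).1 ≠ 0 := by
        rw [cf_fst]
        exact sub_ne_zero.2 (mem_chords.1 hp.1).2.2.symm
      have b1 := hg.flat (d - 1) _ ((hDIM d).1 (d - 1) (hc (cf p)) ((hc_rank hne).trans (by omega)))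
      have b2 : #(Kc g.Q (cf p)) ≤ #{z ∈ g.Q | z ∈ {x | hm x ∈ hc (cf p)}} := by
        refine card_le_card fun x hx => ?_
        rw [mem_filter]
        exact ⟨(mem_Kc hx).1, Kc_hc hx⟩
      have b3 : (#(Kc g.Q (cf p)) : ℝ) ≤ g.L ^ 2 * g.N ^ (d - 1) :=
        le_trans (by exact_mod_cast b2) b1
      have b4 : u * g.N ^ (d - 2) ≤ g.L ^ 2 * g.N * g.N ^ (d - 2) := by
        rw [mul_assoc, ← eN]
        exact hp.2.trans b3
      have b5 := le_of_mul_le_mul_right b4 (by positivity)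
      linarith
    rw [a1, card_empty, Nat.cast_zero]
    exact mul_nonneg (by linarith) hB.le
  have c4 : u ≤ g.L ^ 2 * g.N := not_lt.1 c3
  have hy : 1 ≤ u / 2 := by linarith
  have hM : g.L ^ (d - 1) * g.N ^ 2 ≤ g.M 0 ^ (d - 1) := by
    rw [hg.top]
    calc g.L ^ (d - 1) * g.N ^ 2 ≤ g.N * g.N ^ 2 :=
          mul_le_mul_of_nonneg_right (hg.pow_le (by omega)) (by positivity)
      _ = g.N ^ 3 := by ring
      _ ≤ g.N ^ (d - 1) := pow_le_pow_right₀ hN (by omega)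
  have k1 := h1 0 (u ^ 240) (u / 2) (Nat.zero_le _) hM hs1 hy
  have k2 := h2 (E d) (ℝ × E d) hm g.Q (g.N ^ d) (u ^ 240) (g.L ^ 2 * g.N) (np_hm _) hg.card hs0
    (fun U hU => by
      have b1 := hg.flat 1 _ ((hDIM d).1 1 U hU)
      rw [pow_one] at b1
      refine le_trans ?_ b1
      unfold cnt
      refine Nat.cast_le.2 (card_le_card fun x hx => ?_)
      rw [mem_filter] at hx ⊢
      exact hx)
  set R := {p ∈ g.Q ×ˢ g.Q | p.1 ≠ p.2 ∧ u ^ 240 ≤ cnt hm g.Q (sp2 hm p.1 p.2)} with hR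
  set P := {p ∈ chords g.Q | (cnt hm g.Q (sp2 hm p.1 p.2) : ℝ) < u ^ 240 ∧
    u / 2 * g.M 0 ^ (d - 1) / g.N ≤
    #{z ∈ Kp g.Q (u ^ 240) (lf p.2 - lf p.1) | g.l 0 z = g.l 0 p.1}} with hP
  set T₃ := {p ∈ T | 2 * #(Kp g.Q (u ^ 240) (cf p)) ≤ #(Kc g.Q (cf p))} with hT₃
  have k3 : #T₃ ≤ 2 * #R :=
    mostly g.Q (u ^ 240) T₃ ((filter_subset _ _).trans (filter_subset _ _))
      fun p hp => (mem_filter.1 hp).2
  have k4 : T ⊆ (R ∪ P) ∪ T₃ := by
    intro p hp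
    have hp' := hp
    rw [hT, mem_filter] at hp'
    obtain ⟨b1, b2, b3⟩ := mem_chords.1 hp'.1
    rw [mem_union, mem_union]
    by_cases e1 : 2 * #(Kp g.Q (u ^ 240) (cf p)) ≤ #(Kc g.Q (cf p))
    · exact Or.inr (mem_filter.2 ⟨hp, e1⟩)
    by_cases e2 : (cnt hm g.Q (sp2 hm p.1 p.2) : ℝ) < u ^ 240
    · refine Or.inl (Or.inr (mem_filter.2 ⟨hp'.1, e2, ?_⟩))
      have b4 : #(Kp g.Q (u ^ 240) (cf p)) ≤
          #{z ∈ Kp g.Q (u ^ 240) (lf p.2 - lf p.1) | g.l 0 z = g.l 0 p.1} := by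
        refine card_le_card fun z hz => mem_filter.2 ⟨hz, hg.root _ ?_ _ b1⟩
        exact (mem_Kc (mem_filter.1 hz).1).1
      have b5 : #(Kc g.Q (cf p)) ≤
          2 * #{z ∈ Kp g.Q (u ^ 240) (lf p.2 - lf p.1) | g.l 0 z = g.l 0 p.1} := by omega
      have b6 : (#(Kc g.Q (lf p.2 - lf p.1)) : ℝ) ≤
          2 * #{z ∈ Kp g.Q (u ^ 240) (lf p.2 - lf p.1) | g.l 0 z = g.l 0 p.1} := by
        exact_mod_cast b5
      have b7 : u / 2 * g.M 0 ^ (d - 1) / g.N = u * g.N ^ (d - 2) / 2 := by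
        rw [hg.top, eN]
        field_simp
      rw [b7]
      linarith [hp'.2]
    · exact Or.inl (Or.inl (mem_filter.2 ⟨mem_product.2 ⟨b1, b2⟩, b3, not_lt.1 e2⟩))
  have k5 : #T ≤ 3 * #R + #P := by
    have b1 := card_le_card k4
    have b2 := card_union_le (R ∪ P) T₃
    have b3 := card_union_le R P
    omega
  have k6 : (#T : ℝ) ≤ 3 * #R + #P := by exact_mod_cast k5
  have k7 : g.N ^ d * (g.L ^ 2 * g.N) ≤ g.N ^ (2 * d) / u ^ 240 := by
    have b1 : g.L ^ 2 * g.N ≤ g.N ^ 2 := by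
      rw [pow_two g.N]
      exact mul_le_mul_of_nonneg_right hL2 hN0.le
    have b2 : u ^ 240 ≤ (g.N ^ 2) ^ 240 := pow_le_pow_left₀ hu0.le (c4.trans b1) 240
    rw [le_div_iff₀ hs0]
    calc g.N ^ d * (g.L ^ 2 * g.N) * u ^ 240 ≤ g.N ^ d * g.N ^ 2 * (g.N ^ 2) ^ 240 :=
          mul_le_mul (mul_le_mul_of_nonneg_left b1 (by positivity)) b2 hs0.le (by positivity)
      _ = g.N ^ (d + 482) := by
          rw [← pow_mul, ← pow_add, ← pow_add]
      _ ≤ g.N ^ (2 * d) := pow_le_pow_right₀ hN (by omega)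
  have k8 : (#R : ℝ) ≤ 2 * C₂ * (g.N ^ (2 * d) / u ^ 240) := by
    refine le_trans (Nat.cast_le.2 (card_le_card fun p hp => ?_)) (k2.trans ?_)
    · rw [hR] at hp
      simp only [mem_filter] at hp ⊢
      exact hp
    rw [← pow_mul, mul_comm d 2, mul_comm 2 C₂, mul_assoc]
    exact mul_le_mul_of_nonneg_left (by linarith) (by linarith)
  have k9 : (#P : ℝ) ≤ C₁ * 2 ^ (d - 2) * (g.N ^ (2 * d) / u ^ 240) := by
    refine k1.trans ?_
    have b1 : u ^ 240 * u ^ 240 ≤ u ^ (d - 2) := by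
      rw [← pow_add]
      exact pow_le_pow_right₀ hu (by omega)
    have b2 : 0 < u ^ (d - 2) := by positivity
    have b3 : C₁ * u ^ 240 * g.N ^ (2 * d) / (u / 2) ^ (d - 2) =
        C₁ * 2 ^ (d - 2) * (g.N ^ (2 * d) / u ^ 240) * (u ^ 240 * u ^ 240 / u ^ (d - 2)) := by
      rw [div_pow]
      generalize u ^ 240 = a at hs0 ⊢
      generalize u ^ (d - 2) = b at b2 ⊢
      field_simp
    rw [b3]
    refine mul_le_of_le_one_right (mul_nonneg (by linarith) hB.le) ?_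
    exact (div_le_one b2).2 b1
  have k10 : 0 ≤ 2 ^ 240 * (g.N ^ (2 * d) / u ^ 240) := by positivity
  generalize g.N ^ (2 * d) / u ^ 240 = B at k8 k9 k10 ⊢
  generalize (2 : ℝ) ^ 240 = A at k10 ⊢
  linarith [k6, k8, k9, k10, show (A + 6 * C₂ + C₁ * 2 ^ (d - 2)) * B =
    A * B + 3 * (2 * C₂ * B) + C₁ * 2 ^ (d - 2) * B by ring]

end Pool.Agent.P.MP_5f07f1_co.Z
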