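import Pool.Agent.P.MP_5f07f1_co.ZDefs

namespace Pool.Agent.P.MP_5f07f1_co.Z

open Finset MvPolynomial Pool.Agent.Lib.PolyPart Classical Module

namespace XT3

variable {d : ℕ}

lemma fib {α κ : Type} [DecidableEq κ] (A B : Finset α) (cls : α → κ)
    (h : ∀ p ∈ A, #{q ∈ A | cls q = cls p} ≤ 2 * #{q ∈ B | cls q = cls p}) : #A ≤ 2 * #B := by
  rw [card_eq_sum_card_image cls A]
  calc ∑ k ∈ A.image cls, #{q ∈ A | cls q = k}
      ≤ ∑ k ∈ A.image cls, 2 * #{q ∈ B | cls q = k} := sum_le_sum fun k hk => by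
        obtain ⟨p, hp, rfl⟩ := mem_image.1 hk
        exact h p hp
    _ = 2 * #{q ∈ B | cls q ∈ A.image cls} := by rw [← mul_sum, sum_card_fiberwise_eq_card_filter]
    _ ≤ 2 * #B := Nat.mul_le_mul_left _ (card_filter_le _ _)

lemma ext3 {α : Type} (Q : Finset α) (P : Finset (α × α)) (B : Finset (α × α × α))
    (h : ∀ p ∈ B, (p.1, p.2.1) ∈ P ∧ p.2.2 ∈ Q) : #B ≤ #P * #Q := by
  rw [← card_product]
  refine card_le_card_of_injOn (fun p => ((p.1, p.2.1), p.2.2))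
    (fun p hp => mem_coe.2 (mem_product.2 (h p hp))) fun p _ q _ e => ?_
  simp only [Prod.mk.injEq] at e
  exact Prod.ext e.1.1 (Prod.ext e.1.2 e.2)

lemma ind_ne {x y z : E d} (h : Ind3 hm x y z) : x ≠ y := fun e => by
  have h1 : (0 : Fin 3) = 1 := h.injective (by simp [e])
  exact absurd h1 (by decide)

lemma ind_shift {x y z : E d} (h : Ind3 hm x y z) (w : E d) :
    Ind3 hm w (w + (y - x)) (w + (z - x)) := by
  rw [Ind3, Fintype.linearIndependent_iff] at h ⊢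
  intro g hg
  refine h g ?_
  simp only [Fin.sum_univ_three, Matrix.cons_val_zero, Matrix.cons_val_one, Matrix.cons_val, hm,
    Prod.smul_mk, Prod.mk_add_mk, Prod.mk_eq_zero, smul_eq_mul, mul_one] at hg ⊢
  refine ⟨hg.1, ?_⟩
  have e : g 0 • x + g 1 • y + g 2 • z = (g 0 • w + g 1 • (w + (y - x)) + g 2 • (w + (z - x))) +
      (g 0 + g 1 + g 2) • (x - w) := by module
  rw [e, hg.1, hg.2, zero_smul, add_zero]

lemma rank3 {x y z : E d} (h : Ind3 hm x y z) : finrank ℝ (sp3 hm x y z) = 2 + 1 := by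
  have h1 := finrank_span_eq_card h
  rw [Matrix.range_cons, Matrix.range_cons, Matrix.range_cons, Matrix.range_empty,
    Set.union_empty, Set.singleton_union, Set.singleton_union] at h1
  exact h1

lemma mem_lf {Q : Finset (E d)} {w : E d} {c : E d × ℝ} (h : lf w + c ∈ Q.image lf) :
    w + c.1 ∈ Q ∧ lf (w + c.1) - lf w = c := by
  obtain ⟨u, hu, e⟩ := mem_image.1 h
  have e1 : u = w + c.1 := congrArg Prod.fst e
  rw [← e1, e, add_sub_cancel_left]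
  exact ⟨hu, rfl⟩

lemma perp {x y w : E d} (h : lf (w + (y - x)) - lf w = lf y - lf x) :
    (w - x) ⬝ᵥ (y - x) = 0 := by
  have h2 : nq (w + (y - x)) - nq w = nq y - nq x := congrArg Prod.snd h
  simp only [nq, add_dotProduct, dotProduct_add, sub_dotProduct, dotProduct_sub] at h2 ⊢
  rw [dotProduct_comm y w, dotProduct_comm x w, dotProduct_comm y x] at h2
  linarith

lemma kcc_le (hD : S_DIM) {C K : ℕ} {C' : ℝ} {g : Dat d} (hg : Geo C K C' g) {x y z : E d}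
    (h : Ind3 hm x y z) :
    (#(Kcc g.Q (lf y - lf x) (lf z - lf x)) : ℝ) ≤ g.L ^ 2 * g.N ^ (d - 2) := by
  have h1 := (hD d).2.1 2 _ x (Submodule.subset_span (Set.mem_insert _ _)) (rank3 h)
  refine le_trans (Nat.cast_le.2 (card_le_card fun w hw => ?_)) (hg.flat _ _ h1)
  obtain ⟨hw, h2, h3⟩ := mem_filter.1 hw
  refine mem_filter.2 ⟨hw, fun v hv => ?_⟩
  obtain ⟨a, b, c, e⟩ := Submodule.mem_span_triple.1 hv
  have e1 : a * 1 + b * 1 + c * 1 = 0 := congrArg Prod.fst e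
  have e2 : a • x + b • y + c • z = v := congrArg Prod.snd e
  have e3 : v = b • (y - x) + c • (z - x) := by
    rw [← e2, show a = -b - c by linarith]
    module
  have q1 : (w - x) ⬝ᵥ (y - x) = 0 := perp (mem_lf h2).2
  have q2 : (w - x) ⬝ᵥ (z - x) = 0 := perp (mem_lf h3).2
  rw [e3, dotProduct_add, dotProduct_smul, dotProduct_smul, q1, q2]
  simp

lemma cnt_le (hD : S_DIM) {C K : ℕ} {C' : ℝ} {g : Dat d} (hg : Geo C K C' g) (e : ℕ)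
    (U : Submodule ℝ (ℝ × E d)) (h : finrank ℝ U ≤ e + 1) :
    (cnt hm g.Q U : ℝ) ≤ g.L ^ 2 * g.N ^ e :=
  le_trans (Nat.cast_le.2 (card_le_card fun _ hw => mem_filter.2 (mem_filter.1 hw)))
    (hg.flat _ _ ((hD d).1 e U h))

lemma level {C K : ℕ} {C' : ℝ} {g : Dat d} (hg : Geo C K C' g) (hd : 500 ≤ d) (hK : 4 * d ≤ K) :
    ∃ i ≤ g.r, g.N ^ 5 ≤ g.M i ^ (2 * d) ∧ g.M i ^ d ≤ g.N ^ 3 ∧
      g.L ^ (d - 1) * g.N ^ 2 ≤ g.M i ^ (d - 1) := by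
  have L1 := hg.L1
  have N1 := hg.N1
  have d0 : 2 * d ≠ 0 := by omega
  obtain ⟨X, X0, hX⟩ : ∃ X : ℝ, 0 ≤ X ∧ X ^ (2 * d) = g.N ^ 5 :=
    ⟨(g.N ^ 5) ^ (((2 * d : ℕ) : ℝ)⁻¹), by positivity,
      Real.rpow_inv_natCast_pow (by positivity) d0⟩
  have l2 : g.L ^ (2 * d) ≤ g.N := hg.pow_le (by omega)
  have l4 : g.L ^ (4 * d) ≤ g.N := hg.pow_le hK
  obtain ⟨i, hi, h1, h2⟩ := hg.lev X
    ((pow_le_pow_iff_left₀ (by positivity) X0 d0).1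
      (by rw [hX]; exact l2.trans (le_self_pow₀ N1 (by norm_num))))
    ((pow_le_pow_iff_left₀ X0 (by positivity) d0).1
      (by rw [hX]; exact pow_le_pow_right₀ N1 (by omega)))
  have M0 : 0 ≤ g.M i := X0.trans h1
  have k1 : g.N ^ 5 ≤ g.M i ^ (2 * d) := hX ▸ pow_le_pow_left₀ X0 h1 _
  refine ⟨i, hi, k1, ?_, ?_⟩
  · refine (pow_le_pow_iff_left₀ (by positivity) (by positivity) two_ne_zero).1 ?_
    calc (g.M i ^ d) ^ 2 = g.M i ^ (2 * d) := by rw [← pow_mul, mul_comm]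
      _ ≤ (g.L * X) ^ (2 * d) := pow_le_pow_left₀ M0 h2 _
      _ = g.L ^ (2 * d) * g.N ^ 5 := by rw [mul_pow, hX]
      _ ≤ g.N * g.N ^ 5 := by gcongr
      _ = (g.N ^ 3) ^ 2 := by ring
  · obtain ⟨e, rfl⟩ : ∃ e, d = e + 1 := ⟨d - 1, by omega⟩
    rw [Nat.add_sub_cancel]
    refine (pow_le_pow_iff_left₀ (by positivity) (by positivity)
      (show 4 * (e + 1) ≠ 0 by omega)).1 ?_
    calc (g.L ^ e * g.N ^ 2) ^ (4 * (e + 1))
        = (g.L ^ (4 * (e + 1))) ^ e * g.N ^ (2 * (4 * (e + 1))) := by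
          rw [mul_pow, ← pow_mul, ← pow_mul, ← pow_mul, mul_comm e]
      _ ≤ g.N ^ e * g.N ^ (2 * (4 * (e + 1))) := by gcongr
      _ = g.N ^ (e + 2 * (4 * (e + 1))) := by rw [pow_add]
      _ ≤ g.N ^ (5 * (2 * e)) := pow_le_pow_right₀ N1 (by omega)
      _ ≤ (g.M i ^ (2 * (e + 1))) ^ (2 * e) := by rw [pow_mul]; gcongr
      _ = (g.M i ^ e) ^ (4 * (e + 1)) := by
          rw [← pow_mul, ← pow_mul]
          congr 1
          ring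

/-- The triangles that are not good. -/
noncomputable def Bad (g : Dat d) (i : ℕ) (s y : ℝ) : Finset (E d × E d × E d) :=
  {p ∈ g.Q ×ˢ g.Q ×ˢ g.Q | Ind3 hm p.1 p.2.1 p.2.2 ∧
    ¬ Good g i s y (lf p.2.1 - lf p.1) (lf p.2.2 - lf p.1) p.1}

lemma bad_le (g : Dat d) (i : ℕ) (s y : ℝ) {P : Finset (E d × E d)}
    {R : Finset (E d × E d × E d)}
    (hP : ∀ p ∈ g.Q ×ˢ g.Q, p.1 ≠ p.2 → s ≤ cnt hm g.Q (sp2 hm p.1 p.2) → p ∈ P)
    (hR : ∀ p ∈ g.Q ×ˢ g.Q ×ˢ g.Q, Ind3 hm p.1 p.2.1 p.2.2 →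
      s ≤ cnt hm g.Q (sp3 hm p.1 p.2.1 p.2.2) → p ∈ R) : #(Bad g i s y) ≤ #P * #g.Q + #R +
    #{p ∈ chords g.Q | (cnt hm g.Q (sp2 hm p.1 p.2) : ℝ) < s ∧ y * g.M i ^ (d - 1) / g.N ≤
      #{z ∈ Kp g.Q s (lf p.2 - lf p.1) | g.l i z = g.l i p.1}} * #g.Q := by
  have hs : Bad g i s y ⊆ ({p ∈ Bad g i s y | s ≤ cnt hm g.Q (sp2 hm p.1 p.2.1)} ∪
      {p ∈ Bad g i s y | s ≤ cnt hm g.Q (sp3 hm p.1 p.2.1 p.2.2)}) ∪
      {p ∈ Bad g i s y | (cnt hm g.Q (sp2 hm p.1 p.2.1) : ℝ) < s ∧ y * g.M i ^ (d - 1) / g.N ≤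
        #{z ∈ Kp g.Q s (lf p.2.1 - lf p.1) | g.l i z = g.l i p.1}} := by
    intro p hp
    have h := (mem_filter.1 hp).2.2
    have e : ∀ u : E d, p.1 + (lf u - lf p.1).1 = u := fun u => add_sub_cancel _ _
    rw [Good, e, e] at h
    simp only [mem_union, mem_filter (s := Bad g i s y), hp, true_and]
    by_contra hc
    simp only [not_or, not_le, not_and] at hc
    exact h ⟨hc.1.1, hc.1.2, hc.2 hc.1.1⟩
  refine (card_le_card hs).trans ((card_union_le _ _).trans (add_le_add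
    ((card_union_le _ _).trans (add_le_add (ext3 _ _ _ fun p hp => ?_)
      (card_le_card fun p hp => ?_))) (ext3 _ _ _ fun p hp => ?_)))
  all_goals
    obtain ⟨hp, h⟩ := mem_filter.1 hp
    obtain ⟨hp, h1, -⟩ := mem_filter.1 hp
    have h2 := mem_product.1 hp
    have h3 := mem_product.1 h2.2
  · exact ⟨hP _ (mem_product.2 ⟨h2.1, h3.1⟩) (ind_ne h1) h, h3.2⟩
  · exact hR _ hp h1 h
  · exact ⟨mem_filter.2 ⟨mem_filter.2 ⟨mem_product.2 ⟨h2.1, h3.1⟩, ind_ne h1⟩, h⟩, h3.2⟩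

lemma split (g : Dat d) (i : ℕ) (s s' y : ℝ) :
    #{p ∈ g.Q ×ˢ g.Q ×ˢ g.Q | Ind3 hm p.1 p.2.1 p.2.2 ∧
      s * g.N ^ (d - 4) ≤ #(Kcc g.Q (lf p.2.1 - lf p.1) (lf p.2.2 - lf p.1))} ≤
    3 * #(Bad g i s' y) + #{p ∈ g.Q ×ˢ g.Q ×ˢ g.Q | Ind3 hm p.1 p.2.1 p.2.2 ∧
      Good g i s' y (lf p.2.1 - lf p.1) (lf p.2.2 - lf p.1) p.1 ∧ s / 2 * g.N ^ (d - 4) ≤
      #{x ∈ Kcc g.Q (lf p.2.1 - lf p.1) (lf p.2.2 - lf p.1) |
        Good g i s' y (lf p.2.1 - lf p.1) (lf p.2.2 - lf p.1) x}} := by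
  obtain ⟨cls, hc⟩ : ∃ cls : E d × E d × E d → (E d × ℝ) × (E d × ℝ),
      ∀ p, cls p = (lf p.2.1 - lf p.1, lf p.2.2 - lf p.1) := ⟨_, fun _ => rfl⟩
  obtain ⟨A, hA⟩ : ∃ A : Finset (E d × E d × E d), ∀ p, p ∈ A ↔ p ∈ g.Q ×ˢ g.Q ×ˢ g.Q ∧
      Ind3 hm p.1 p.2.1 p.2.2 ∧ #(Kcc g.Q (cls p).1 (cls p).2) ≤
        2 * #{x ∈ Kcc g.Q (cls p).1 (cls p).2 | ¬ Good g i s' y (cls p).1 (cls p).2 x} :=
    ⟨filter _ _, fun p => mem_filter⟩
  have h1 : #A ≤ 2 * #(Bad g i s' y) := by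
    refine fib A _ cls fun p hp => ?_
    obtain ⟨-, p2, p3⟩ := (hA p).1 hp
    refine le_trans ?_ (p3.trans (Nat.mul_le_mul_left _ ?_))
    · refine card_le_card_of_injOn (fun q => q.1) (fun q hq => ?_) fun q hq q' hq' e => ?_
      · obtain ⟨q1, q2⟩ := mem_filter.1 (mem_coe.1 hq)
        have h2 := mem_product.1 ((hA q).1 q1).1
        have h3 := mem_product.1 h2.2
        rw [← q2, hc q]
        refine mem_coe.2 (mem_filter.2 ⟨h2.1, ?_, ?_⟩) <;> rw [add_sub_cancel]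
        · exact mem_image_of_mem _ h3.1
        · exact mem_image_of_mem _ h3.2
      · have e1 := (mem_filter.1 (mem_coe.1 hq)).2.trans (mem_filter.1 (mem_coe.1 hq')).2.symm
        have e0 : q.1 = q'.1 := e
        rw [hc, hc, e0, Prod.mk.injEq, sub_left_inj, sub_left_inj] at e1
        exact Prod.ext e0 (Prod.ext (Prod.ext_iff.1 e1.1).1 (Prod.ext_iff.1 e1.2).1)
    · refine card_le_card_of_injOn (fun w => (w, w + (cls p).1.1, w + (cls p).2.1))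
        (fun w hw => ?_) fun w _ w' _ e => congrArg Prod.fst e
      obtain ⟨w1, w2⟩ := mem_filter.1 (mem_coe.1 hw)
      obtain ⟨w1, w3, w4⟩ := mem_filter.1 w1
      obtain ⟨a1, a2⟩ := mem_lf w3
      obtain ⟨b1, b2⟩ := mem_lf w4
      refine mem_coe.2 (mem_filter.2 ⟨mem_filter.2 ⟨mem_product.2 ⟨w1, mem_product.2 ⟨a1, b1⟩⟩,
        ?_, ?_⟩, ?_⟩)
      · rw [hc p]
        exact ind_shift p2 w
      · rwa [a2, b2]
      · rw [hc, a2, b2]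
  refine le_trans (card_le_card (t := (A ∪ Bad g i s' y) ∪ _) fun p hp => ?_)
    ((card_union_le _ _).trans (add_le_add ((card_union_le _ _).trans (by omega)) le_rfl))
  obtain ⟨p1, p2, p3⟩ := mem_filter.1 hp
  by_cases hG : Good g i s' y (lf p.2.1 - lf p.1) (lf p.2.2 - lf p.1) p.1
  swap
  · exact mem_union_left _ (mem_union_right _ (mem_filter.2 ⟨p1, p2, hG⟩))
  by_cases hp : p ∈ A
  · exact mem_union_left _ (mem_union_left _ hp)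
  refine mem_union_right _ (mem_filter.2 ⟨p1, p2, hG, ?_⟩)
  rw [hA, hc] at hp
  have h2 := card_filter_add_card_filter_not
    (s := Kcc g.Q (lf p.2.1 - lf p.1) (lf p.2.2 - lf p.1))
    fun x => Good g i s' y (lf p.2.1 - lf p.1) (lf p.2.2 - lf p.1) x
  have h3 := not_le.1 fun h => hp ⟨p1, p2, h⟩
  have h4 : #(Kcc g.Q (lf p.2.1 - lf p.1) (lf p.2.2 - lf p.1)) ≤
      2 * #{x ∈ Kcc g.Q (lf p.2.1 - lf p.1) (lf p.2.2 - lf p.1) |
        Good g i s' y (lf p.2.1 - lf p.1) (lf p.2.2 - lf p.1) x} := by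
    dsimp only at h3
    omega
  have h5 := (Nat.cast_le (α := ℝ)).2 h4
  push_cast at h5
  linarith

end XT3

open XT3 in
theorem p_T3 (hB : S_T3B) (hL : S_L1) (hP : S_PAIR) (hT : S_TRI) (hD : S_DIM) : S_T3 := by
  intro d hd
  obtain ⟨K1, h1⟩ := hB d hd
  obtain ⟨K2, h2⟩ := hL d hd
  obtain ⟨CP, CP1, hP⟩ := hP
  obtain ⟨CT, CT1, hT⟩ := hT
  refine ⟨K1 + K2 + 4 * d, fun C => ?_⟩
  obtain ⟨C1, C11, h1⟩ := h1 C
  obtain ⟨C2, C21, h2⟩ := h2 C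
  have t1 : (1 : ℝ) ≤ 2 ^ (d - 3) := one_le_pow₀ one_le_two
  have t2 : C1 ≤ C1 * 2 ^ (d - 3) := le_mul_of_one_le_right (by linarith) t1
  refine ⟨2 ^ 36 + 3 * (2 * CP + 2 * CT + C2) + C1 * 2 ^ (d - 3), by linarith, fun g hg s hs => ?_⟩
  have L1 := hg.L1
  have N1 := hg.N1
  have l2 : g.L ^ 2 ≤ g.N := hg.pow_le (by omega)
  have hQ := hg.card
  have n0 : 0 ≤ g.N ^ (3 * d) / s ^ 36 := by positivity
  rw [mul_div_assoc]
  by_cases s2 : s < 2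
  · refine le_trans (Nat.cast_le.2 (card_filter_le _ _)) ?_
    rw [card_product, card_product]
    push_cast
    calc (#g.Q : ℝ) * (#g.Q * #g.Q) ≤ g.N ^ d * (g.N ^ d * g.N ^ d) := by gcongr
      _ = s ^ 36 * (g.N ^ (3 * d) / s ^ 36) := by field_simp; ring
      _ ≤ _ := by
        refine mul_le_mul_of_nonneg_right ?_ n0
        have : s ^ 36 ≤ 2 ^ 36 := by gcongr
        linarith
  by_cases s3 : g.L ^ 2 * g.N ^ 2 < s
  · rw [filter_false_of_mem, card_empty, Nat.cast_zero]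
    · exact mul_nonneg (by linarith) n0
    rintro p - ⟨p1, p2⟩
    have k := p2.trans (kcc_le hD hg p1)
    rw [show d - 2 = 2 + (d - 4) by omega, pow_add, ← mul_assoc] at k
    exact absurd (le_of_mul_le_mul_right k (by positivity)) (not_le.2 s3)
  rw [not_lt] at s2 s3
  obtain ⟨i, hi, m1, m2, m3⟩ := level hg hd (by omega)
  obtain ⟨y, y1, rfl⟩ : ∃ y : ℝ, 1 ≤ y ∧ s = y ^ 2 :=
    ⟨√s, Real.one_le_sqrt.2 hs, (Real.sq_sqrt (by linarith)).symm⟩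
  have s1 : 1 ≤ (y ^ 2) ^ 36 := one_le_pow₀ hs
  have b1 := h1 g (hg.mono (by omega) (by linarith)) i (y ^ 2 / 2) ((y ^ 2) ^ 36) y hi m1 m2
    (by linarith) s1 y1
  have b2 := h2 g (hg.mono (by omega) (by linarith)) i ((y ^ 2) ^ 36) y hi m3 s1 y1
  obtain ⟨P, b3, hP'⟩ : ∃ P : Finset (E d × E d), (#P : ℝ) ≤ _ ∧ ∀ p ∈ g.Q ×ˢ g.Q, p.1 ≠ p.2 →
      (y ^ 2) ^ 36 ≤ cnt hm g.Q (sp2 hm p.1 p.2) → p ∈ P :=
    ⟨_, hP _ _ hm g.Q (g.N ^ d) ((y ^ 2) ^ 36) _ (np_hm _) hQ (by positivity) (cnt_le hD hg 1),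
      fun p a b c => by simp only [mem_filter]; exact ⟨a, b, c⟩⟩
  obtain ⟨R, b4, hR'⟩ : ∃ R : Finset (E d × E d × E d), (#R : ℝ) ≤ _ ∧ ∀ p ∈ g.Q ×ˢ g.Q ×ˢ g.Q,
      Ind3 hm p.1 p.2.1 p.2.2 → (y ^ 2) ^ 36 ≤ cnt hm g.Q (sp3 hm p.1 p.2.1 p.2.2) → p ∈ R :=
    ⟨_, hT _ _ hm g.Q (g.N ^ d) ((y ^ 2) ^ 36) _ (np_hm _) hQ (by positivity) (cnt_le hD hg 2),
      fun p a b c => by simp only [mem_filter]; exact ⟨a, b, c⟩⟩
  have b5 := (Nat.cast_le (α := ℝ)).2 (bad_le g i ((y ^ 2) ^ 36) y hP' hR')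
  have b6 := (Nat.cast_le (α := ℝ)).2 (split g i (y ^ 2) ((y ^ 2) ^ 36) y)
  push_cast at b5 b6
  have y0 : 0 < y := by linarith
  have k0 : g.L ^ 2 * g.N ^ 2 * (y ^ 2) ^ 36 ≤ g.N ^ d :=
    calc g.L ^ 2 * g.N ^ 2 * (y ^ 2) ^ 36 ≤ g.N * g.N ^ 2 * (g.N * g.N ^ 2) ^ 36 := by
          gcongr
          exact s3.trans (by gcongr)
      _ = g.N ^ 111 := by ring
      _ ≤ g.N ^ d := pow_le_pow_right₀ N1 (by omega)
  have k1 : (g.N ^ d) ^ 2 * (g.L ^ 2 * g.N ^ 2) ≤ g.N ^ (3 * d) / (y ^ 2) ^ 36 := by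
    rw [le_div_iff₀ (by positivity), mul_assoc]
    calc _ ≤ (g.N ^ d) ^ 2 * g.N ^ d := by gcongr
      _ = _ := by ring
  have k2 : (g.N ^ d) ^ 3 = g.N ^ (3 * d) := by ring
  have k3 : CP * ((g.N ^ d) ^ 2 / (y ^ 2) ^ 36 + g.N ^ d * (g.L ^ 2 * g.N ^ 1)) * g.N ^ d ≤
      2 * CP * (g.N ^ (3 * d) / (y ^ 2) ^ 36) := by
    have a1 : (g.N ^ d) ^ 2 * (g.L ^ 2 * g.N ^ 1) ≤ (g.N ^ d) ^ 2 * (g.L ^ 2 * g.N ^ 2) := by
      gcongr
      norm_num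
    calc _ = CP * ((g.N ^ d) ^ 3 / (y ^ 2) ^ 36 + (g.N ^ d) ^ 2 * (g.L ^ 2 * g.N ^ 1)) := by ring
      _ ≤ CP * (g.N ^ (3 * d) / (y ^ 2) ^ 36 + g.N ^ (3 * d) / (y ^ 2) ^ 36) := by
          rw [k2]
          gcongr
          exact a1.trans k1
      _ = _ := by ring
  have k4 : CT * ((g.N ^ d) ^ 3 / (y ^ 2) ^ 36 + (g.N ^ d) ^ 2 * (g.L ^ 2 * g.N ^ 2)) ≤
      2 * CT * (g.N ^ (3 * d) / (y ^ 2) ^ 36) :=
    calc _ ≤ CT * (g.N ^ (3 * d) / (y ^ 2) ^ 36 + g.N ^ (3 * d) / (y ^ 2) ^ 36) := by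
          rw [k2]
          gcongr
      _ = _ := by ring
  have k5 : C2 * (y ^ 2) ^ 36 * g.N ^ (2 * d) / y ^ (d - 2) * g.N ^ d ≤
      C2 * (g.N ^ (3 * d) / (y ^ 2) ^ 36) := by
    have a1 : y ^ 144 ≤ y ^ (d - 2) := pow_le_pow_right₀ y1 (by omega)
    calc _ ≤ C2 * (y ^ 2) ^ 36 * g.N ^ (2 * d) / y ^ 144 * g.N ^ d := by gcongr
      _ = _ := by field_simp; ring
  have k6 : C1 * ((y ^ 2) ^ 36) ^ 2 * y ^ (d - 2) * g.N ^ (3 * d) / (y ^ 2 / 2) ^ (d - 3) ≤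
      C1 * 2 ^ (d - 3) * (g.N ^ (3 * d) / (y ^ 2) ^ 36) := by
    have a1 : y ^ 216 * y ^ (d - 2) ≤ (y ^ 2) ^ (d - 3) := by
      rw [← pow_add, ← pow_mul]
      exact pow_le_pow_right₀ y1 (by omega)
    rw [div_pow]
    calc _ ≤ C1 * ((y ^ 2) ^ 36) ^ 2 * y ^ (d - 2) * g.N ^ (3 * d) /
          (y ^ 216 * y ^ (d - 2) / 2 ^ (d - 3)) := by gcongr
      _ = _ := by field_simp
  have c1 := (mul_le_mul b3 hQ (Nat.cast_nonneg _) (by positivity)).trans k3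
  have c2 := (mul_le_mul b2 hQ (Nat.cast_nonneg _) (by positivity)).trans k5
  have c3 := b4.trans k4
  have c4 := b1.trans k6
  have c5 : 0 ≤ 2 ^ 36 * (g.N ^ (3 * d) / (y ^ 2) ^ 36) := by positivity
  linarith

end Pool.Agent.P.MP_5f07f1_co.Z
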