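import Pool.Agent.P.MP_5f07f1_co.ZDefs

/-! Good triangles with many translates. -/

namespace Pool.Agent.P.MP_5f07f1_co.Z

open Finset MvPolynomial Pool.Agent.Lib.PolyPart Classical Module

namespace XT3B

variable {d : ℕ}

/-- The functional that vanishes on the points translated by `c` along the paraboloid. -/
noncomputable def ph (c : E d × ℝ) : Module.Dual ℝ (ℝ × E d) where
  toFun p := 2 * (c.1 ⬝ᵥ p.2) + p.1 * (nq c.1 - c.2)
  map_add' p q := by
    simp only [Prod.snd_add, Prod.fst_add, dotProduct_add]; ring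
  map_smul' a p := by
    simp only [Prod.smul_snd, Prod.smul_fst, dotProduct_smul, smul_eq_mul, RingHom.id_apply]; ring

lemma ph_apply (c : E d × ℝ) (p : ℝ × E d) :
    ph c p = 2 * (c.1 ⬝ᵥ p.2) + p.1 * (nq c.1 - c.2) := rfl

noncomputable def SP (p : (E d × ℝ) × (E d × ℝ)) : Submodule ℝ (Module.Dual ℝ (ℝ × E d)) :=
  Submodule.span ℝ {ph p.1, ph p.2}

noncomputable def UU (p : (E d × ℝ) × (E d × ℝ)) : Submodule ℝ (ℝ × E d) :=
  (SP p).dualCoannihilator

lemma mem_UU (p : (E d × ℝ) × (E d × ℝ)) (v : ℝ × E d) :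
    v ∈ UU p ↔ ph p.1 v = 0 ∧ ph p.2 v = 0 := by
  rw [UU, Submodule.mem_dualCoannihilator]
  constructor
  · intro h
    exact ⟨h _ (Submodule.subset_span (by simp)), h _ (Submodule.subset_span (by simp))⟩
  · rintro ⟨h1, h2⟩ φ hφ
    obtain ⟨a, b, rfl⟩ := Submodule.mem_span_pair.1 hφ
    simp [h1, h2]

/-- Membership in the lifted set. -/
lemma lift_mem {Q : Finset (E d)} {c : E d × ℝ} {x : E d} (h : lf x + c ∈ Q.image lf) :
    x + c.1 ∈ Q ∧ c = lf (x + c.1) - lf x := by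
  obtain ⟨z, hz, e⟩ := mem_image.1 h
  have e1 : z = x + c.1 := congrArg Prod.fst e
  subst e1
  exact ⟨hz, by rw [e]; simp⟩

lemma ph_hm {c : E d × ℝ} {x : E d} (h : c = lf (x + c.1) - lf x) : ph c (hm x) = 0 := by
  have h2 : c.2 = nq (x + c.1) - nq x := congrArg Prod.snd h
  rw [ph_apply, h2]
  simp only [hm, nq, add_dotProduct, dotProduct_add, dotProduct_comm c.1 x]
  ring

lemma eq_of_dot {u w : E d} (h : ∀ v, u ⬝ᵥ v = w ⬝ᵥ v) : u = w := by
  have h1 : (u - w) ⬝ᵥ (u - w) = 0 := by rw [sub_dotProduct, h, sub_self]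
  exact sub_eq_zero.1 (dotProduct_self_eq_zero.1 h1)

lemma comb_of_mem {c : E d × ℝ} {p : (E d × ℝ) × (E d × ℝ)} (h : ph c ∈ SP p) :
    ∃ a b : ℝ, c.1 = a • p.1.1 + b • p.2.1 := by
  obtain ⟨a, b, e⟩ := Submodule.mem_span_pair.1 h
  refine ⟨a, b, eq_of_dot fun v => ?_⟩
  have := LinearMap.congr_fun e (0, v)
  simp only [LinearMap.add_apply, LinearMap.smul_apply, ph_apply, smul_eq_mul] at this
  rw [add_dotProduct, smul_dotProduct, smul_dotProduct, smul_eq_mul, smul_eq_mul]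
  linarith

lemma SP_eq {p q : (E d × ℝ) × (E d × ℝ)} (h : UU p = UU q) : SP p = SP q := by
  have h1 := Subspace.dualCoannihilator_dualAnnihilator_eq (W := SP p)
  have h2 := Subspace.dualCoannihilator_dualAnnihilator_eq (W := SP q)
  rw [← h1, ← h2]
  exact congrArg Submodule.dualAnnihilator h

lemma rank_UU {x y z : E d} (h : Ind3 hm x y z) :
    finrank ℝ (UU (lf y - lf x, lf z - lf x)) = d - 1 := by
  have hi : LinearIndependent ℝ ![ph (lf y - lf x), ph (lf z - lf x)] := by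
    rw [LinearIndependent.pair_iff]
    intro a b e
    have e1 : a • (y - x) + b • (z - x) = 0 := by
      refine eq_of_dot fun v => ?_
      have := LinearMap.congr_fun e (0, v)
      simp only [LinearMap.add_apply, LinearMap.smul_apply, ph_apply, smul_eq_mul, lf,
        Prod.fst_sub, LinearMap.zero_apply] at this
      rw [add_dotProduct, smul_dotProduct, smul_dotProduct, smul_eq_mul, smul_eq_mul,
        zero_dotProduct]
      linarith
    have h3 := Fintype.linearIndependent_iff.1 h ![-(a + b), a, b] (by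
      rw [Fin.sum_univ_three]
      refine Prod.ext ?_ ?_
      · simp [hm]
      · simp only [hm, Matrix.cons_val_zero, Matrix.cons_val_one, Matrix.cons_val,
          Prod.snd_add, Prod.smul_snd, Prod.snd_zero]
        rw [← e1]
        module)
    exact ⟨h3 1, h3 2⟩
  have h2 : finrank ℝ (SP (lf y - lf x, lf z - lf x)) = 2 := by
    have := finrank_span_eq_card hi
    rw [Matrix.range_cons, Matrix.range_cons, Matrix.range_empty, Set.union_empty,
      Set.singleton_union] at this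
    exact this
  have h4 := Subspace.finrank_add_finrank_dualCoannihilator_eq (SP (lf y - lf x, lf z - lf x))
  rw [h2, Module.finrank_prod, Module.finrank_self, Module.finrank_fin_fun] at h4
  rw [UU]
  omega

lemma mem_sp3 (x u w : E d) (a b : ℝ) :
    hm (x + (a • u + b • w)) ∈ sp3 hm x (x + u) (x + w) := by
  have e : hm (x + (a • u + b • w)) = (1 - a - b) • hm x + a • hm (x + u) + b • hm (x + w) := by
    refine Prod.ext ?_ ?_
    · simp only [hm, Prod.fst_add, Prod.smul_fst, smul_eq_mul]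
      ring
    · simp only [hm, Prod.snd_add, Prod.smul_snd]
      module
  rw [e]
  refine add_mem (add_mem ?_ ?_) ?_ <;>
    exact Submodule.smul_mem _ _ (Submodule.subset_span (by simp))

/-- Pairs of translations at one point are counted by their two end points. -/
lemma card_pairs (Q R : Finset (E d)) (x : E d) (S : Finset ((E d × ℝ) × (E d × ℝ))) (t : ℝ)
    (hR : (#R : ℝ) ≤ t) (hS : ∀ p ∈ S, x ∈ Kcc Q p.1 p.2 ∧ x + p.1.1 ∈ R ∧ x + p.2.1 ∈ R) :
    (#S : ℝ) ≤ t ^ 2 := by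
  have h1 : #S ≤ #(R ×ˢ R) := by
    refine card_le_card_of_injOn (fun p => (x + p.1.1, x + p.2.1)) (fun p hp => ?_) ?_
    · exact mem_coe.2 (mem_product.2 ⟨(hS p hp).2.1, (hS p hp).2.2⟩)
    · intro p hp q hq e
      have hp' := mem_filter.1 (hS p hp).1
      have hq' := mem_filter.1 (hS q hq).1
      have e1 : x + p.1.1 = x + q.1.1 := congrArg Prod.fst e
      have e2 : x + p.2.1 = x + q.2.1 := congrArg Prod.snd e
      refine Prod.ext ?_ ?_
      · rw [(lift_mem hp'.2.1).2, (lift_mem hq'.2.1).2, e1]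
      · rw [(lift_mem hp'.2.2).2, (lift_mem hq'.2.2).2, e2]
  rw [card_product] at h1
  have h2 : (#S : ℝ) ≤ (#R : ℝ) * #R := by exact_mod_cast h1
  have h0 : (0 : ℝ) ≤ #R := Nat.cast_nonneg _
  nlinarith

/-- The translates of all chords together are at most the pairs. -/
lemma sum_Kc (Q : Finset (E d)) (B : Finset (E d × ℝ)) : ∑ c ∈ B, #(Kc Q c) ≤ #Q * #Q := by
  rw [← card_sigma, ← card_product]
  refine card_le_card_of_injOn (fun p => (p.2, p.2 + p.1.1)) (fun p hp => ?_) ?_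
  · have h := mem_filter.1 (mem_sigma.1 hp).2
    exact mem_coe.2 (mem_product.2 ⟨h.1, (lift_mem h.2).1⟩)
  · rintro ⟨c, x⟩ hp ⟨c', x'⟩ hq e
    have h := mem_filter.1 (mem_sigma.1 hp).2
    have h' := mem_filter.1 (mem_sigma.1 hq).2
    have e1 : x = x' := congrArg Prod.fst e
    have e2 : x + c.1 = x' + c'.1 := congrArg Prod.snd e
    subst e1
    have k : c = lf (x + c.1) - lf x := (lift_mem h.2).2
    have k' : c' = lf (x + c'.1) - lf x := (lift_mem h'.2).2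
    have e3 : c = c' := by rw [k, k', e2]
    subst e3
    rfl

/-- The good part of a common translate set. -/
noncomputable def YY (g : Dat d) (i : ℕ) (s y : ℝ) (p : (E d × ℝ) × (E d × ℝ)) : Finset (E d) :=
  {x ∈ Kcc g.Q p.1 p.2 | Good g i s y p.1 p.2 x}

/-- The coloured sets. -/
noncomputable def AA (g : Dat d) (i : ℕ) (s y : ℝ) (c : E d × ℝ) (b : Lab d) : Finset (E d) :=
  if (#{z ∈ Kp g.Q s c | g.l i z = b} : ℝ) < y * g.M i ^ (d - 1) / g.N then
    {z ∈ Kp g.Q s c | g.l i z = b} else ∅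

lemma AA_sub (g : Dat d) (i : ℕ) (s y : ℝ) (c : E d × ℝ) (b : Lab d) :
    AA g i s y c b ⊆ {z ∈ Kc g.Q c | g.l i z = b} := by
  unfold AA
  split_ifs
  · intro z hz
    have h := mem_filter.1 hz
    exact mem_filter.2 ⟨(mem_filter.1 h.1).1, h.2⟩
  · exact empty_subset _

lemma sum_AA (g : Dat d) (i : ℕ) (s y : ℝ) (c : E d × ℝ) (Λ : Finset (Lab d)) :
    ∑ b ∈ Λ, #(AA g i s y c b) ≤ #(Kc g.Q c) := by
  calc ∑ b ∈ Λ, #(AA g i s y c b) ≤ ∑ b ∈ Λ, #{z ∈ Kc g.Q c | g.l i z = b} :=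
        sum_le_sum fun b _ => card_le_card (AA_sub g i s y c b)
    _ = #{z ∈ Kc g.Q c | g.l i z ∈ Λ} := sum_card_fiberwise_eq_card_filter _ _ _
    _ ≤ #(Kc g.Q c) := card_filter_le _ _

lemma mlt (g : Dat d) (i : ℕ) (s y : ℝ) (x : E d) (F : Submodule ℝ (ℝ × E d))
    (S : Finset ((E d × ℝ) × (E d × ℝ))) (hS : ∀ p ∈ S, x ∈ YY g i s y p ∧ UU p = F) :
    (#S : ℝ) ≤ s ^ 2 := by
  rcases S.eq_empty_or_nonempty with h | ⟨q, hq⟩
  · rw [h]; simpa using sq_nonneg s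
  obtain ⟨hx, hF⟩ := hS q hq
  refine card_pairs g.Q {z ∈ g.Q | hm z ∈ sp3 hm x (x + q.1.1) (x + q.2.1)} x _ s
    (mem_filter.1 hx).2.2.1.le fun p hp => ?_
  obtain ⟨hx', hF'⟩ := hS p hp
  have hK := (mem_filter.1 hx').1
  obtain ⟨-, k1, k2⟩ := mem_filter.1 hK
  have hE : SP p = SP q := SP_eq (hF'.trans hF.symm)
  obtain ⟨a, b, e⟩ := comb_of_mem (c := p.1) (p := q)
    (hE ▸ Submodule.subset_span (Set.mem_insert _ _))
  obtain ⟨a', b', e'⟩ := comb_of_mem (c := p.2) (p := q)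
    (hE ▸ Submodule.subset_span (Set.mem_insert_of_mem _ rfl))
  refine ⟨hK, mem_filter.2 ⟨(lift_mem k1).1, ?_⟩, mem_filter.2 ⟨(lift_mem k2).1, ?_⟩⟩
  · rw [e]; exact mem_sp3 _ _ _ _ _
  · rw [e']; exact mem_sp3 _ _ _ _ _

/-- Triples are counted by their translation pair and first point. -/
lemma card_trip (T : Finset (E d × E d × E d)) (Y : (E d × ℝ) × (E d × ℝ) → Finset (E d))
    (hT : ∀ p ∈ T, p.1 ∈ Y (lf p.2.1 - lf p.1, lf p.2.2 - lf p.1)) :
    #T ≤ ∑ q ∈ T.image (fun p => (lf p.2.1 - lf p.1, lf p.2.2 - lf p.1)), #(Y q) := by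
  rw [← card_sigma]
  refine card_le_card_of_injOn (fun p => ⟨(lf p.2.1 - lf p.1, lf p.2.2 - lf p.1), p.1⟩)
    (fun p hp => ?_) ?_
  · exact mem_coe.2 (mem_sigma.2 ⟨mem_image_of_mem _ hp, hT p hp⟩)
  · rintro ⟨x, y, z⟩ _ ⟨x', y', z'⟩ _ e
    have e1 : x = x' := congrArg (fun r : (_ : (E d × ℝ) × (E d × ℝ)) × E d => r.2) e
    have e2 : y - x = y' - x' := congrArg (fun r : (_ : (E d × ℝ) × (E d × ℝ)) × E d => r.1.1.1) e
    have e3 : z - x = z' - x' := congrArg (fun r : (_ : (E d × ℝ) × (E d × ℝ)) × E d => r.1.2.1) e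
    subst e1
    rw [sub_left_inj.1 e2, sub_left_inj.1 e3]

end XT3B

open XT3B in
theorem p_T3B (hA : S_TWO) (hB : S_DIM) : S_T3B := by
  intro d hd
  obtain ⟨K, h1⟩ := hA d hd
  refine ⟨K, fun C => ?_⟩
  obtain ⟨C1, hC1, h1⟩ := h1 C
  refine ⟨2 * C1, by linarith, fun g hg i s s' y hi hM1 hM2 hs hs' hy => ?_⟩
  have hN := hg.N1
  have hM := hg.M1 hi
  generalize hT : ({p ∈ g.Q ×ˢ g.Q ×ˢ g.Q | Ind3 hm p.1 p.2.1 p.2.2 ∧
    Good g i s' y (lf p.2.1 - lf p.1) (lf p.2.2 - lf p.1) p.1 ∧ s * g.N ^ (d - 4) ≤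
    #{x ∈ Kcc g.Q (lf p.2.1 - lf p.1) (lf p.2.2 - lf p.1) |
      Good g i s' y (lf p.2.1 - lf p.1) (lf p.2.2 - lf p.1) x}} : Finset _) = T
  have hT' : ∀ p ∈ T, Ind3 hm p.1 p.2.1 p.2.2 ∧
      p.1 ∈ YY g i s' y (lf p.2.1 - lf p.1, lf p.2.2 - lf p.1) ∧
      s * g.N ^ (d - 4) ≤ #(YY g i s' y (lf p.2.1 - lf p.1, lf p.2.2 - lf p.1)) := by
    intro p hp
    rw [← hT] at hp
    obtain ⟨hq, h3, hG, hs⟩ := mem_filter.1 hp
    obtain ⟨q1, hq⟩ := mem_product.1 hq
    obtain ⟨q2, q3⟩ := mem_product.1 hq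
    refine ⟨h3, mem_filter.2 ⟨mem_filter.2 ⟨q1, ?_, ?_⟩, hG⟩, hs⟩
    · exact mem_image.2 ⟨_, q2, by simp⟩
    · exact mem_image.2 ⟨_, q3, by simp⟩
  have hc := card_trip T (YY g i s' y) fun p hp => (hT' p hp).2.1
  generalize hI : T.image (fun p => (lf p.2.1 - lf p.1, lf p.2.2 - lf p.1)) = I at hc
  have hI' : ∀ q ∈ I, finrank ℝ (UU q) = d - 1 ∧ s * g.N ^ (d - 4) ≤ #(YY g i s' y q) := by
    intro q hq
    rw [← hI] at hq
    obtain ⟨p, hp, rfl⟩ := mem_image.1 hq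
    exact ⟨rank_UU (hT' p hp).1, (hT' p hp).2.2⟩
  have hb : (0 : ℝ) ≤ y * g.M i ^ (d - 1) / g.N := by positivity
  have key := h1 g (hg.mono le_rfl (by linarith)) _ _ I UU (YY g i s' y) Prod.fst
    (I.image Prod.fst) (AA g i s' y) i s (s' ^ 2) y hi hM1 hM2 hs (by positivity) hy
    (fun q hq => by
      refine ⟨(hI' q hq).1, fun x hx => (mem_filter.1 (mem_filter.1 hx).1).1,
        mem_image_of_mem _ hq, fun x hx => ?_, (hI' q hq).2⟩
      obtain ⟨hK, hG⟩ := mem_filter.1 hx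
      obtain ⟨hQ, k1, k2⟩ := mem_filter.1 hK
      refine ⟨(mem_UU _ _).2 ⟨ph_hm (lift_mem k1).2, ph_hm (lift_mem k2).2⟩, ?_⟩
      unfold AA
      rw [if_pos hG.2.2]
      exact mem_filter.2 ⟨mem_filter.2 ⟨mem_filter.2 ⟨hQ, k1⟩, hG.1⟩, rfl⟩)
    (fun c b => by
      unfold AA
      split_ifs with h
      · exact h.le
      · simpa using hb)
    (by
      have h2 : ∑ c ∈ I.image Prod.fst, ∑ b ∈ g.Q.image (g.l i), #(AA g i s' y c b) ≤
          #g.Q * #g.Q :=
        (sum_le_sum fun c _ => sum_AA g i s' y c _).trans (sum_Kc _ _)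
      have h3 : (∑ c ∈ I.image Prod.fst, ∑ b ∈ g.Q.image (g.l i), (#(AA g i s' y c b) : ℝ)) ≤
          (#g.Q : ℝ) * #g.Q := by exact_mod_cast h2
      refine h3.trans ?_
      rw [two_mul, pow_add]
      exact mul_le_mul hg.card hg.card (Nat.cast_nonneg _) (by positivity))
    (fun x F => mlt g i s' y x F _ fun p hp => ((@mem_filter _ _ (_) _ _).1 hp).2)
    (fun e x F hF hx => by
      refine card_pairs g.Q _ x _ _ (hg.flat _ _ ((hB d).2.1 e F x hx hF)) fun p hp => ?_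
      obtain ⟨-, hx', hF'⟩ := mem_filter.1 hp
      have hK := (mem_filter.1 hx').1
      obtain ⟨-, k1, k2⟩ := mem_filter.1 hK
      refine ⟨hK, mem_filter.2 ⟨(lift_mem k1).1, fun v hv => ?_⟩,
        mem_filter.2 ⟨(lift_mem k2).1, fun v hv => ?_⟩⟩
      · have := ((mem_UU _ _).1 (hF' hv)).1
        rw [ph_apply] at this
        rw [add_sub_cancel_left]
        linarith
      · have := ((mem_UU _ _).1 (hF' hv)).2
        rw [ph_apply] at this
        rw [add_sub_cancel_left]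
        linarith)
  have hc' : (#T : ℝ) ≤ ∑ q ∈ I, (#(YY g i s' y q) : ℝ) := by exact_mod_cast hc
  refine hc'.trans (key.trans ?_)
  have h5 : C1 * (s' ^ 2 + 1) ≤ 2 * C1 * s' ^ 2 := by
    have : 1 ≤ s' ^ 2 := one_le_pow₀ hs'
    nlinarith
  gcongr

end Pool.Agent.P.MP_5f07f1_co.Z
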