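import Pool.Agent.P.MP_5f07f1_co.ZDefs

namespace Pool.Agent.P.MP_5f07f1_co.Z

open Finset MvPolynomial Pool.Agent.Lib.PolyPart Classical Module

namespace XTR

variable {V δ : Type} [AddCommGroup V] [Module ℝ V]

noncomputable def eG (G : Finset (V × V)) (ω : V × V → δ) (T : ℝ × V) : ℕ :=
  #{e ∈ G | (app T e.1, app T e.2) ∈ G ∧ ω (app T e.1, app T e.2) = ω e}

lemma uniq {T T' : ℝ × V} {x y : V} (h : x ≠ y) (h1 : app T x = app T' x)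
    (h2 : app T y = app T' y) : T = T' := by
  unfold app at h1 h2
  have h3 : (T.1 - T'.1) • (x - y) = 0 := by
    linear_combination (norm := module) h1 - h2
  have h4 : T.1 = T'.1 := sub_eq_zero.1 ((smul_eq_zero.1 h3).resolve_right (sub_ne_zero.2 h))
  rw [h4] at h1
  exact Prod.ext h4 (add_left_cancel h1)

lemma app_hinv {T : ℝ × V} (h : T.1 ≠ 0) (x : V) : app (hinv T) (app T x) = x := by
  simp [app, hinv, smul_smul, inv_mul_cancel₀ h]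

lemma app_dv {T : ℝ × V} (h : T.1 ≠ 0) (T' : ℝ × V) (x : V) :
    app (dv T' T) (app T x) = app T' x := by
  simp only [app, dv, smul_add, smul_smul, div_mul_cancel₀ _ h]
  abel

lemma hinv_hinv {T : ℝ × V} (h : T.1 ≠ 0) : hinv (hinv T) = T := by
  simp [hinv, smul_smul, mul_inv_cancel₀ h]

lemma app_inj {T : ℝ × V} (h : T.1 ≠ 0) {x y : V} (e : app T x = app T y) : x = y := by
  rw [← app_hinv h x, e, app_hinv h]

lemma kt_le (X : Finset V) {T : ℝ × V} (h : T.1 ≠ 0) : #(KT X T) ≤ #(KT X (hinv T)) := by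
  refine card_le_card_of_injOn (app T) (fun x hx => ?_) fun x _ y _ e => app_inj h e
  simp only [KT, coe_filter, Set.mem_ofPred_eq] at hx ⊢
  exact ⟨hx.2, by rw [app_hinv h]; exact hx.1⟩

lemma eG_le (G : Finset (V × V)) (ω : V × V → δ) {T : ℝ × V} (h : T.1 ≠ 0) :
    eG G ω T ≤ eG G ω (hinv T) := by
  refine card_le_card_of_injOn (fun e => (app T e.1, app T e.2)) (fun x hx => ?_)
    fun x _ y _ e => Prod.ext (app_inj h (congrArg Prod.fst e)) (app_inj h (congrArg Prod.snd e))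
  simp only [coe_filter, Set.mem_ofPred_eq, app_hinv h] at hx ⊢
  exact ⟨hx.2.1, hx.1, hx.2.2.symm⟩

lemma mem_kt {X : Finset V} {G : Finset (V × V)} (hG : G ⊆ X ×ˢ X) {T : ℝ × V} {e : V × V}
    (h1 : e ∈ G) (h2 : (app T e.1, app T e.2) ∈ G) : e.1 ∈ KT X T ∧ e.2 ∈ KT X T := by
  have a := mem_product.1 (hG h1)
  have b := mem_product.1 (hG h2)
  exact ⟨mem_filter.2 ⟨a.1, b.1⟩, mem_filter.2 ⟨a.2, b.2⟩⟩

lemma eG_sq {X : Finset V} {G : Finset (V × V)} (hG : G ⊆ X ×ˢ X) (ω : V × V → δ) (T : ℝ × V) :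
    (eG G ω T : ℝ) ≤ (#(KT X T) : ℝ) ^ 2 := by
  have h : eG G ω T ≤ #(KT X T ×ˢ KT X T) := card_le_card fun e he =>
    mem_product.2 (mem_kt hG (mem_filter.1 he).1 (mem_filter.1 he).2.1)
  rw [card_product, ← sq] at h
  exact_mod_cast h

lemma sum_eG {G : Finset (V × V)} (hG : ∀ p ∈ G, p.1 ≠ p.2) (ω : V × V → δ) {w : ℝ}
    (hw : ∀ c, (#{q ∈ G | ω q = c} : ℝ) ≤ w) (𝒯 : Finset (ℝ × V)) :
    (∑ T ∈ 𝒯, (eG G ω T : ℝ)) ≤ #G * w := by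
  have h : ∑ T ∈ 𝒯, eG G ω T = ∑ e ∈ G,
      #{T ∈ 𝒯 | (app T e.1, app T e.2) ∈ G ∧ ω (app T e.1, app T e.2) = ω e} := by
    simp only [eG, card_filter]
    exact sum_comm
  rw [← Nat.cast_sum, h, Nat.cast_sum, ← nsmul_eq_mul]
  refine sum_le_card_nsmul _ _ _ fun e he => le_trans ?_ (hw (ω e))
  refine Nat.cast_le.2 (card_le_card_of_injOn (fun T => (app T e.1, app T e.2)) (fun x hx => ?_)
    fun x _ y _ a => uniq (hG e he) (congrArg Prod.fst a) (congrArg Prod.snd a))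
  simp only [coe_filter, Set.mem_ofPred_eq] at hx ⊢
  exact hx.2

lemma exists_T {G : Finset (V × V)} (hG : ∀ p ∈ G, p.1 ≠ p.2) (ω : V × V → δ) {a : ℝ}
    (ha : 0 < a) : ∃ 𝒯 : Finset (ℝ × V), ∀ T, T ∈ 𝒯 ↔ T.1 ≠ 0 ∧ a ≤ eG G ω T := by
  have h : ∀ p : (V × V) × V × V, ∃ T : ℝ × V, ∀ T', p.1.1 ≠ p.1.2 →
      (app T' p.1.1, app T' p.1.2) = p.2 → T = T' := fun p => by
    by_cases h : ∃ T : ℝ × V, (app T p.1.1, app T p.1.2) = p.2
    · obtain ⟨T, hT⟩ := h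
      refine ⟨T, fun T' a b => ?_⟩
      have c := hT.trans b.symm
      exact uniq a (congrArg Prod.fst c) (congrArg Prod.snd c)
    · exact ⟨0, fun T' _ b => absurd ⟨T', b⟩ h⟩
  choose H hH using h
  refine ⟨{T ∈ (G ×ˢ G).image H | T.1 ≠ 0 ∧ a ≤ eG G ω T}, fun T => ?_⟩
  rw [mem_filter, and_iff_right_iff_imp]
  rintro ⟨-, h⟩
  obtain ⟨e, he⟩ := card_pos.1 (Nat.cast_pos.1 (ha.trans_le h))
  rw [mem_filter] at he
  exact mem_image.2 ⟨(e, app T e.1, app T e.2), mem_product.2 ⟨he.1, he.2.1⟩,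
    hH _ T (hG e he.1) rfl⟩

lemma cnt_same {α : Type} (G : Finset α) (ω : α → δ) {w : ℝ}
    (hw : ∀ c, (#{q ∈ G | ω q = c} : ℝ) ≤ w) :
    (#{t ∈ G ×ˢ G ×ˢ G | ω t.2.1 = ω t.1 ∧ ω t.2.2 = ω t.1} : ℝ) ≤ #G * w ^ 2 := by
  have h : #{t ∈ G ×ˢ G ×ˢ G | ω t.2.1 = ω t.1 ∧ ω t.2.2 = ω t.1} ≤
      ∑ p ∈ G, #({p} ×ˢ {q ∈ G | ω q = ω p} ×ˢ {q ∈ G | ω q = ω p}) := by
    refine le_trans (card_le_card fun t ht => ?_) card_biUnion_le
    simp only [mem_filter, mem_product, mem_biUnion, mem_singleton] at ht ⊢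
    exact ⟨t.1, ht.1.1, rfl, ⟨ht.1.2.1, ht.2.1⟩, ht.1.2.2, ht.2.2⟩
  refine (Nat.cast_le.2 h).trans ?_
  rw [Nat.cast_sum, ← nsmul_eq_mul]
  refine sum_le_card_nsmul _ _ _ fun p _ => ?_
  rw [card_product, card_product, card_singleton, one_mul, ← sq, Nat.cast_pow]
  exact pow_le_pow_left₀ (Nat.cast_nonneg _) (hw _) 2

/-- the triple `t` comes from the pair of homotheties `p` -/
def Fr (p : (ℝ × V) × ℝ × V) (t : (V × V) × (V × V) × V × V) : Prop :=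
  (app p.1 t.1.1, app p.1 t.1.2) = t.2.1 ∧ (app p.2 t.1.1, app p.2 t.1.2) = t.2.2

lemma cnt_fr {X : Finset V} {G : Finset (V × V)} (hG : G ⊆ X ×ˢ X)
    (Z : Finset ((ℝ × V) × ℝ × V)) :
    (#{t ∈ G ×ˢ G ×ˢ G | ∃ p ∈ Z, Fr p t} : ℝ) ≤ ∑ p ∈ Z, (m2 X p.1 p.2 : ℝ) ^ 2 := by
  have h : #{t ∈ G ×ˢ G ×ˢ G | ∃ p ∈ Z, Fr p t} ≤ ∑ p ∈ Z,
      #(({x ∈ X | app p.1 x ∈ X ∧ app p.2 x ∈ X} ×ˢ {x ∈ X | app p.1 x ∈ X ∧ app p.2 x ∈ X}).image
        fun e : V × V => (e, (app p.1 e.1, app p.1 e.2), app p.2 e.1, app p.2 e.2)) := by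
    refine le_trans (card_le_card fun t ht => ?_) card_biUnion_le
    obtain ⟨h1, p, hp, h2, h3⟩ := mem_filter.1 ht
    simp only [mem_product] at h1
    have a := mem_product.1 (hG h1.1)
    have b := mem_product.1 (hG (h2 ▸ h1.2.1 :))
    have c := mem_product.1 (hG (h3 ▸ h1.2.2 :))
    refine mem_biUnion.2 ⟨p, hp, mem_image.2 ⟨t.1, mem_product.2
      ⟨mem_filter.2 ⟨a.1, b.1, c.1⟩, mem_filter.2 ⟨a.2, b.2, c.2⟩⟩, ?_⟩⟩
    rw [h2, h3]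
  refine (Nat.cast_le.2 h).trans ?_
  rw [Nat.cast_sum]
  refine sum_le_sum fun p _ => ?_
  rw [← Nat.cast_pow, sq]
  exact Nat.cast_le.2 (card_image_le.trans (card_product _ _).le)

lemma mul3 {a b c x y z : ℝ} (hb : 0 ≤ b) (hc : 0 ≤ c) (hx : 0 ≤ x) (hy : 0 ≤ y) (h1 : a ≤ x)
    (h2 : b ≤ y) (h3 : c ≤ z) : a * b * c ≤ x * y * z :=
  mul_le_mul (mul_le_mul h1 h2 hb hx) h3 hc (mul_nonneg hx hy)

lemma small {a b c k u : ℝ} (hb : 0 ≤ b) (hc : 0 ≤ c) (hu : 1 ≤ u) (h1 : a ≤ k ^ 2 / u ^ 9)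
    (h2 : b ≤ (2 * u * k) ^ 2) (h3 : c ≤ (2 * u * k) ^ 2) : a * b * c ≤ 16 * k ^ 6 := by
  have h0 : 0 < u := by linarith
  refine (mul3 hb hc (by positivity) (by positivity) h1 h2 h3).trans ?_
  have e : k ^ 2 / u ^ 9 * (2 * u * k) ^ 2 * (2 * u * k) ^ 2 = 16 * k ^ 6 / u ^ 5 := by
    field_simp
    norm_num
  rw [e]
  exact div_le_self (by positivity) (one_le_pow₀ hu)

lemma geo (B : ℕ) : ∑ b ∈ range B, (1 / 4 : ℝ) ^ b ≤ 2 := by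
  have h : ∑ b ∈ range B, (1 / 4 : ℝ) ^ b ≤ 2 - 2 * (1 / 4 : ℝ) ^ B := by
    induction B with
    | zero => norm_num
    | succ B ih =>
      have : 0 ≤ (1 / 4 : ℝ) ^ B := by positivity
      rw [sum_range_succ, pow_succ]
      linarith
  have : 0 ≤ (1 / 4 : ℝ) ^ B := by positivity
  linarith

lemma point {X : Finset V} {G : Finset (V × V)} {ω : V × V → δ} {K : V × V → V × V → ℝ}
    {k s : ℝ} (hk : 1 ≤ k) (hs : 1 ≤ s) (hG : G ⊆ X ×ˢ X) (hne : ∀ p ∈ G, p.1 ≠ p.2)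
    (hK : ∀ p ∈ G, ∀ q ∈ G, 0 ≤ K p q ∧ (K p q ≠ 0 → ω p = ω q ∧ ∃ T : ℝ × V, T.1 ≠ 0 ∧
      app T p.1 = q.1 ∧ app T p.2 = q.2 ∧ K p q ≤ eG G ω T))
    {Z : ℕ → Finset ((ℝ × V) × ℝ × V)}
    (hZ : ∀ (b : ℕ) (p : (ℝ × V) × ℝ × V), (∀ T, T = p.1 ∨ T = p.2 ∨ T = dv p.2 p.1 →
      T.1 ≠ 0 ∧ k ^ 2 / (2 ^ b * s) ^ 9 ≤ eG G ω T) → (2 ^ b * s * k ≤ #(KT X p.1) ∨
      2 ^ b * s * k ≤ #(KT X p.2) ∨ 2 ^ b * s * k ≤ #(KT X (dv p.2 p.1))) → p ∈ Z b)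
    {t : (V × V) × (V × V) × V × V} (ht : t ∈ G ×ˢ G ×ˢ G) :
    K t.1 t.2.1 * K t.2.1 t.2.2 * K t.2.2 t.1 ≤
      (if ω t.2.1 = ω t.1 ∧ ω t.2.2 = ω t.1 then (s ^ 6 + 16) * k ^ 6 else 0) +
      ∑ b ∈ range #X, if ∃ p ∈ Z b, Fr p t then 64 * (2 ^ b * s) ^ 6 * k ^ 6 else 0 := by
  obtain ⟨p, q, r⟩ := t
  simp only [mem_product] at ht
  obtain ⟨hp, hq, hr⟩ := ht
  have k0 : 0 < k := by linarith
  have s0 : 0 < s := by linarith
  have n1 : ∀ b : ℕ, (0 : ℝ) ≤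
      if ∃ x ∈ Z b, Fr x (p, q, r) then 64 * (2 ^ b * s) ^ 6 * k ^ 6 else 0 := fun b => by
    split_ifs <;> positivity
  have n2 := sum_nonneg fun b (_ : b ∈ range #X) => n1 b
  dsimp only
  by_cases h0 : K p q * K q r * K r p = 0
  · refine h0.le.trans (add_nonneg ?_ n2)
    split_ifs <;> positivity
  simp only [mul_eq_zero, not_or] at h0
  obtain ⟨z1, h1⟩ := hK p hp q hq
  obtain ⟨z2, h2⟩ := hK q hq r hr
  obtain ⟨z3, h3⟩ := hK r hr p hp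
  obtain ⟨w1, T1, a1, b1, c1, e1⟩ := h1 h0.1.1
  obtain ⟨-, T2, a2, b2, c2, e2⟩ := h2 h0.1.2
  obtain ⟨w3, T3, a3, b3, c3, e3⟩ := h3 h0.2
  rw [if_pos ⟨w1.symm, w3⟩]
  have b4 : app (hinv T3) p.1 = r.1 := by rw [← b3, app_hinv a3]
  have c4 : app (hinv T3) p.2 = r.2 := by rw [← c3, app_hinv a3]
  have d2 : dv (hinv T3) T1 = T2 := uniq (hne q hq) (by rw [b2, ← b1, app_dv a1, b4])
    (by rw [c2, ← c1, app_dv a1, c4])
  replace e3 := e3.trans (Nat.cast_le.2 (eG_le G ω a3))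
  obtain ⟨m, m1, m2, m3, m4⟩ : ∃ m : ℝ, #(KT X T1) ≤ m ∧ #(KT X T2) ≤ m ∧
      #(KT X (hinv T3)) ≤ m ∧ (m = #(KT X T1) ∨ m = #(KT X (hinv T3)) ∨ m = #(KT X T2)) := by
    refine ⟨max #(KT X T1) (max #(KT X (hinv T3)) #(KT X T2)), le_max_left _ _,
      le_max_of_le_right (le_max_right _ _), le_max_of_le_right (le_max_left _ _), ?_⟩
    exact (max_choice _ _).imp id fun h => (max_choice _ _).imp h.trans h.trans
  have f : ∀ (T : ℝ × V) (a y : ℝ), a ≤ eG G ω T → #(KT X T) ≤ m → m ≤ y → a ≤ y ^ 2 :=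
    fun T a y h h' h'' => (h.trans (eG_sq hG ω T)).trans
      (pow_le_pow_left₀ (Nat.cast_nonneg _) (h'.trans h'') 2)
  have k6 : 0 ≤ k ^ 6 := by positivity
  have s6 : 0 ≤ s ^ 6 * k ^ 6 := by positivity
  rcases le_total m (s * k) with h | h
  · have := mul3 z2 z3 (by positivity) (by positivity) (f _ _ _ e1 m1 h) (f _ _ _ e2 m2 h)
      (f _ _ _ e3 m3 h)
    linarith
  have sk : 1 ≤ s * k := one_le_mul_of_one_le_of_one_le hs hk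
  obtain ⟨b, hb1, hb2⟩ := exists_nat_pow_near ((one_le_div (by positivity)).2 h) one_lt_two
  have hb : b ∈ range #X := by
    have x1 : (b : ℝ) < 2 ^ b := by exact_mod_cast Nat.lt_two_pow_self
    have x2 : m / (s * k) ≤ m := div_le_self (by linarith) sk
    have x3 : ∀ T, (#(KT X T) : ℝ) ≤ #X := fun T => Nat.cast_le.2 (card_filter_le _ _)
    have x4 : m ≤ #X := by rcases m4 with a | a | a <;> exact a.trans_le (x3 _)
    exact mem_range.2 (Nat.cast_lt.1 (x1.trans_le (hb1.trans (x2.trans x4))))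
  rw [le_div_iff₀ (by positivity), ← mul_assoc] at hb1
  rw [div_lt_iff₀ (by positivity)] at hb2
  have hb3 : m ≤ 2 * (2 ^ b * s) * k := by
    rw [pow_succ] at hb2
    linarith
  have hu : 1 ≤ 2 ^ b * s := one_le_mul_of_one_le_of_one_le (one_le_pow₀ one_le_two) hs
  have g1 := f _ _ _ e1 m1 hb3
  have g2 := f _ _ _ e2 m2 hb3
  have g3 := f _ _ _ e3 m3 hb3
  rcases le_total (eG G ω T1 : ℝ) (k ^ 2 / (2 ^ b * s) ^ 9) with y1 | y1
  · have := small z2 z3 hu (e1.trans y1) g2 g3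
    linarith
  rcases le_total (eG G ω T2 : ℝ) (k ^ 2 / (2 ^ b * s) ^ 9) with y2 | y2
  · have := small z1 z3 hu (e2.trans y2) g1 g3
    linarith
  rcases le_total (eG G ω (hinv T3) : ℝ) (k ^ 2 / (2 ^ b * s) ^ 9) with y3 | y3
  · have := small z1 z2 hu (e3.trans y3) g1 g2
    linarith
  have hz : (T1, hinv T3) ∈ Z b := by
    refine hZ b _ ?_ ?_ <;> dsimp only <;> rw [d2]
    · rintro T (rfl | rfl | rfl)
      exacts [⟨a1, y1⟩, ⟨inv_ne_zero a3, y3⟩, ⟨a2, y2⟩]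
    · exact m4.imp hb1.trans_eq (Or.imp hb1.trans_eq hb1.trans_eq)
  have x5 := single_le_sum (fun b _ => n1 b) hb
  rw [if_pos ⟨_, hz, Prod.ext b1 c1, Prod.ext b4 c4⟩] at x5
  have := mul3 z2 z3 (by positivity) (by positivity) g1 g2 g3
  linarith

end XTR

open XTR in
theorem p_TR (hT : S_TRIP) : S_TR := by
  intro C₂ hC₂
  obtain ⟨C, hC, hT⟩ := hT C₂ hC₂
  refine ⟨68 + 128 * C, by linarith, ?_⟩
  intro d V δ _ _ X G ω K N v hd hN hv hX hL hM hG hne hw hK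
  have N0 : 0 < N := by linarith
  have hk : 1 ≤ N ^ (d - 2) := one_le_pow₀ hN
  obtain ⟨s, hs, rfl⟩ : ∃ s : ℝ, 1 ≤ s ∧ s ^ 2 = v :=
    ⟨√v, Real.one_le_sqrt.2 hv, Real.sq_sqrt (by linarith)⟩
  have s0 : 0 < s := by linarith
  have hu : ∀ b : ℕ, s ≤ 2 ^ b * s := fun b =>
    le_mul_of_one_le_left s0.le (one_le_pow₀ one_le_two)
  have cG : (#G : ℝ) ≤ (N ^ d) ^ 2 := by
    have h := card_le_card hG
    rw [card_product, ← sq] at h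
    exact le_trans (by exact_mod_cast h) (pow_le_pow_left₀ (Nat.cast_nonneg _) hX 2)
  have p1 : N ^ (d + 2) * N ^ (d - 2) = (N ^ d) ^ 2 := by
    rw [← pow_add, ← pow_mul]
    congr 1
    omega
  have p2 : N ^ (10 * d - 16) = (N ^ d) ^ 2 * (N ^ (d - 2)) ^ 8 := by
    rw [← pow_mul, ← pow_mul, ← pow_add]
    congr 1
    omega
  have p3 : N ^ (10 * d - 16) = N ^ (4 * d - 4) * (N ^ (d - 2)) ^ 6 := by
    rw [← pow_mul, ← pow_add]
    congr 1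
    omega
  have hT' := fun 𝒯 u => hT d V X 𝒯 N u hd hN
  clear hT
  generalize N ^ (d - 2) = k at *
  have k0 : 0 < k := by linarith
  choose 𝒯 h𝒯 using fun b : ℕ => exists_T hne ω (a := k ^ 2 / (2 ^ b * s) ^ 9) (by positivity)
  have hZ := fun b : ℕ => hT' (𝒯 b) (2 ^ b * s) (hs.trans (hu b)) hX hL hM (by
    have hb := hu b
    have h1 := card_nsmul_le_sum (𝒯 b) _ _ fun T h => ((h𝒯 b T).1 h).2
    have h2 := h1.trans ((sum_eG hne ω hw (𝒯 b)).trans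
      (mul_le_mul_of_nonneg_right cG (by positivity)))
    generalize 2 ^ b * s = u at hb h2 ⊢
    have u0 : 0 < u := by linarith
    rw [nsmul_eq_mul, ← mul_div_assoc, div_le_iff₀ (by positivity), ← p1] at h2
    refine le_of_mul_le_mul_right (h2.trans ?_) (by positivity : 0 < k ^ 2)
    have h3 : s ^ 2 ≤ u ^ 2 := pow_le_pow_left₀ s0.le hb 2
    have h4 := mul_le_mul_of_nonneg_left h3 (by positivity : 0 ≤ 2 * N ^ (d + 2) * k ^ 2 * u ^ 9)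
    linarith) (fun T h => by
    obtain ⟨h1, h2⟩ := (h𝒯 b T).1 h
    have hb := hs.trans (hu b)
    refine ⟨h1, (h𝒯 b _).2 ⟨inv_ne_zero h1, h2.trans (Nat.cast_le.2 (eG_le G ω h1))⟩, ?_, ?_⟩
    · obtain ⟨e, he⟩ := card_pos.1 (Nat.cast_pos.1 (lt_of_lt_of_le (by positivity) h2))
      rw [mem_filter] at he
      have h3 := mem_kt hG he.1 he.2.1
      exact one_lt_card.2 ⟨_, h3.1, _, h3.2, hne e he.1⟩
    · refine (pow_le_pow_iff_left₀ (by positivity) (Nat.cast_nonneg _) two_ne_zero).1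
        (le_trans ?_ (h2.trans (eG_sq hG ω T)))
      rw [div_pow, ← pow_mul]
      exact div_le_div_of_nonneg_left (by positivity) (by positivity)
        (pow_le_pow_right₀ hb (by norm_num)))
  obtain ⟨Z, hZ, hm⟩ : ∃ Z : ℕ → Finset ((ℝ × V) × ℝ × V), (∀ b, ∑ p ∈ Z b,
      (m2 X p.1 p.2 : ℝ) ^ 2 ≤ C * N ^ (4 * d - 4) / (2 ^ b * s) ^ 8) ∧
      ∀ (b : ℕ) (p : (ℝ × V) × ℝ × V), (∀ T, T = p.1 ∨ T = p.2 ∨ T = dv p.2 p.1 →
      T.1 ≠ 0 ∧ k ^ 2 / (2 ^ b * s) ^ 9 ≤ eG G ω T) → (2 ^ b * s * k ≤ #(KT X p.1) ∨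
      2 ^ b * s * k ≤ #(KT X p.2) ∨ 2 ^ b * s * k ≤ #(KT X (dv p.2 p.1))) → p ∈ Z b :=
    ⟨_, hZ, fun b p h1 h2 => mem_filter.2 ⟨mem_product.2 ⟨(h𝒯 b _).2 (h1 _ (.inl rfl)),
      (h𝒯 b _).2 (h1 _ (.inr (.inl rfl)))⟩, (h𝒯 b _).2 (h1 _ (.inr (.inr rfl))), h2⟩⟩
  refine (sum_le_sum fun t ht => point hk hs hG hne hK hm ht).trans ?_
  rw [sum_add_distrib, sum_comm, ← sum_filter, sum_const, nsmul_eq_mul]
  have P0 : 0 < N ^ (10 * d - 16) := by positivity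
  have q1 : 1 ≤ s ^ 6 := one_le_pow₀ hs
  have q2 : 1 ≤ (s ^ 2) ^ 5 := one_le_pow₀ hv
  have t1 := mul_le_mul ((cnt_same G ω hw).trans (mul_le_mul_of_nonneg_right cG (by positivity)))
    (by gcongr; linarith : (s ^ 6 + 16) * k ^ 6 ≤ (17 * s ^ 6) * k ^ 6) (by positivity)
    (by positivity)
  have t2 : ∑ b ∈ range #X, (∑ t ∈ G ×ˢ G ×ˢ G,
      if ∃ p ∈ Z b, Fr p t then 64 * (2 ^ b * s) ^ 6 * k ^ 6 else 0) ≤
      ∑ b ∈ range #X, 64 * C * N ^ (10 * d - 16) * (1 / 4 : ℝ) ^ b := by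
    refine sum_le_sum fun b _ => ?_
    rw [← sum_filter, sum_const, nsmul_eq_mul]
    refine (mul_le_mul_of_nonneg_right ((cnt_fr hG (Z b)).trans (hZ b)) (by positivity)).trans ?_
    have e : C * N ^ (4 * d - 4) / (2 ^ b * s) ^ 8 * (64 * (2 ^ b * s) ^ 6 * k ^ 6) =
        64 * C * N ^ (10 * d - 16) * (1 / 4 : ℝ) ^ b / s ^ 2 := by
      rw [p3, one_div_pow, show (4 : ℝ) ^ b = (2 ^ b) ^ 2 by rw [← pow_mul, pow_mul']; norm_num]
      field_simp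
    rw [e]
    exact div_le_self (by positivity) hv
  rw [← mul_sum] at t2
  have t3 := t2.trans (mul_le_mul_of_nonneg_left (geo _) (by positivity))
  have t4 := mul_le_mul_of_nonneg_left q2 (by positivity : 0 ≤ 128 * C * N ^ (10 * d - 16))
  refine (add_le_add t1 t3).trans ?_
  rw [p2] at t4 ⊢
  linarith

end Pool.Agent.P.MP_5f07f1_co.Z
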