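import Pool.Agent.P.MP_5f07f1_co.ZDefs

/-! Iteration of the sharp round. -/

namespace Pool.Agent.P.MP_5f07f1_co.Z

open Finset MvPolynomial Pool.Agent.Lib.PolyPart Classical Module

namespace XTREE

/-- Put `i` levels of full dimension on top of a tree. -/
lemma up {d e : ℕ} (D Λ : ℕ → ℕ) (M n : ℕ) (Q : Finset (E d)) (l : ℕ → E d → Lab d) (i : ℕ) :
    (∀ k < i, Lvl (e + 1) (D (e + 1)) (Λ (e + 1)) Q (l k) (l (k + 1)) fun _ => Set.univ) →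
    (∀ k ≤ i, ∀ b, #{z ∈ Q | l k z = b} * D (e + 1) ^ ((e + 1) * k) ≤ n) →
    ∀ (s R : ℕ) (j : ℕ → ℕ) (ll : ℕ → E d → Lab d) (core : ℕ → E d → Set (E d)),
      BuildX.RT D Λ M n (D (e + 1) ^ ((e + 1) * i)) (e + 1) Q (l i) s j ll core →
      ∏ k ∈ range s, D (j k) ^ j k ≤ R * (∏ k ∈ range s, D (j k)) ^ e →
      ∃ j' l' core', BuildX.RT D Λ M n 1 (e + 1) Q (l 0) (s + i) j' l' core' ∧
        ∏ k ∈ range (s + i), D (j' k) ^ j' k ≤
          R * D (e + 1) ^ i * (∏ k ∈ range (s + i), D (j' k)) ^ e := by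
  induction i with
  | zero =>
    intro _ _ s R j ll core h hp
    exact ⟨j, ll, core, by simpa using h, by simpa using hp⟩
  | succ i ih =>
    intro hl hs s R j ll core h hp
    have e1 : D (e + 1) ^ ((e + 1) * (i + 1)) =
        D (e + 1) ^ ((e + 1) * i) * D (e + 1) ^ (e + 1) := by
      rw [mul_add, mul_one, pow_add]
    rw [e1] at h
    have h2 := h.cons (by omega) (hl i (by omega)) (hs i (by omega))
    obtain ⟨j', l', core', h3, h4⟩ := ih (fun k hk => hl k (by omega)) (fun k hk => hs k (by omega))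
      (s + 1) (R * D (e + 1)) _ _ _ h2 (by
        rw [prod_range_succ', prod_range_succ']
        change (∏ k ∈ range s, D (j k) ^ j k) * D (e + 1) ^ (e + 1) ≤
          R * D (e + 1) * ((∏ k ∈ range s, D (j k)) * D (e + 1)) ^ e
        calc _ ≤ R * (∏ k ∈ range s, D (j k)) ^ e * D (e + 1) ^ (e + 1) :=
              Nat.mul_le_mul_right _ hp
          _ = _ := by ring)
    have e2 : s + (i + 1) = s + 1 + i := by omega
    rw [e2]
    refine ⟨j', l', core', h3, h4.trans_eq ?_⟩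
    ring

/-- The algebraic case. -/
lemma alg {e : ℕ} {η : ℝ} {Λ₀ A₀ A₁ m r i c' : ℕ} (h4 : 4 ≤ Λ₀) (hm : 1 ≤ m) (hi : i ≤ r)
    (hΛ : (Λ₀ : ℝ) ≤ ((2 : ℝ) ^ m) ^ η) {P Q Q' : Finset (E (e + 1))} (hQ : Q ⊆ P) (hQ' : Q' ⊆ Q)
    (c1 : #P ≤ 2 ^ i * #Q) (c2 : #Q ≤ (2 ^ m + 2) ^ A₀ * #Q') (hc : c' ≤ (2 ^ m + 2) ^ A₀)
    {l : ℕ → E (e + 1) → Lab (e + 1)} (l0 : l 0 = fun _ => [])
    (hl : ∀ k < i, Lvl (e + 1) (2 ^ m) Λ₀ Q (l k) (l (k + 1)) fun _ => Set.univ)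
    (hs : ∀ k ≤ i, ∀ b, #{z ∈ Q | l k z = b} * (2 ^ m) ^ ((e + 1) * k) ≤ #P)
    (hS : BuildX.St e c' #P ((2 ^ m) ^ ((e + 1) * i)) Q' (l i))
    {D Λ : ℕ → ℕ} {M C : ℕ} (hM : M ≤ (c' + 2) ^ A₁) (hC : C ≤ (c' + 2) ^ A₁)
    (hP : ∀ i, 1 ≤ i → i ≤ e →
      4 ≤ Λ i ∧ (Λ i : ℝ) ≤ (D i : ℝ) ^ η ∧ 2 ≤ D i ∧ D i ^ (e + 1) ≤ M ∧ Λ i ≤ M)
    (hM1 : 1 ≤ M)
    (hR : ∀ (n B : ℕ) (Q : Finset (E (e + 1))) (l₀ : E (e + 1) → Lab (e + 1)),
      BuildX.St e c' n B Q l₀ →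
      ∃ Q' ⊆ Q, ∃ s jj l core, BuildX.RT D Λ M n B e Q' l₀ s jj l core ∧ #Q ≤ C * 4 ^ s * #Q') :
    Alg η P (((2 : ℝ) ^ m + 2) ^ ((A₀ + 1) * A₁ + A₀ + (e + 1) + Λ₀ + 1)) (((2 : ℝ) ^ m) ^ r) := by
  obtain ⟨Q₂, q1, s, jj, ll, core, q2, q3⟩ := hR _ _ _ _ hS
  have hx : 2 ≤ 2 ^ m := (pow_one 2).ge.trans (Nat.pow_le_pow_right two_pos hm)
  set D' := Function.update D (e + 1) (2 ^ m) with hD'
  set Λ' := Function.update Λ (e + 1) Λ₀ with hΛ'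
  have d1 : D' (e + 1) = 2 ^ m := Function.update_self ..
  have d2 : Λ' (e + 1) = Λ₀ := Function.update_self ..
  have d3 : ∀ k ≤ e, D' k = D k := fun k hk => Function.update_of_ne (by omega) _ _
  have d4 : ∀ k ≤ e, Λ' k = Λ k := fun k hk => Function.update_of_ne (by omega) _ _
  have q4 := q2.congr (M' := M + (2 ^ m) ^ (e + 1) + Λ₀) d3 d4 (by omega)
  have q5 : Q₂ ⊆ Q := q1.trans hQ'
  obtain ⟨j', l', core', r1, r2⟩ := up D' Λ' (M + (2 ^ m) ^ (e + 1) + Λ₀) #P Q₂ l i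
    (fun k hk => by rw [d1, d2]; exact (hl k hk).mono q5)
    (fun k hk b => by rw [d1]; exact BuildX.size_mono q5 (hs k hk) b) s 1 jj ll core
    (by rw [d1]; exact q4) (by
      rw [one_mul, ← prod_pow]
      refine prod_le_prod' fun k hk => ?_
      obtain ⟨a1, a2⟩ := q2.pos k (mem_range.1 hk)
      rw [d3 _ a2]
      exact Nat.pow_le_pow_right (by have := (hP _ a1 a2).2.2.1; omega) a2)
  rw [d1, one_mul] at r2
  set y := 2 ^ m + 2 with hy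
  have y3 : 3 ≤ y := by omega
  have y1 : ∀ a b, a ≤ b → y ^ a ≤ y ^ b := fun a b h => Nat.pow_le_pow_right (by omega) h
  have b1 : c' + 2 ≤ y ^ (A₀ + 1) := by
    have h1 : 1 ≤ y ^ A₀ := Nat.one_le_pow _ _ (by omega)
    have h2 := Nat.mul_le_mul_left (y ^ A₀) y3
    rw [pow_succ]
    omega
  have b2 : (c' + 2) ^ A₁ ≤ y ^ ((A₀ + 1) * A₁) := by
    rw [pow_mul]
    exact Nat.pow_le_pow_left b1 _
  have b3 : (2 ^ m) ^ (e + 1) ≤ y ^ (e + 1) := Nat.pow_le_pow_left (by omega) _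
  have b4 : Λ₀ ≤ y ^ Λ₀ := (Nat.lt_pow_self (by omega)).le
  have b5 : M + (2 ^ m) ^ (e + 1) + Λ₀ ≤ y ^ ((A₀ + 1) * A₁ + A₀ + (e + 1) + Λ₀ + 1) := by
    have h1 := y1 ((A₀ + 1) * A₁) ((A₀ + 1) * A₁ + A₀ + (e + 1) + Λ₀) (by omega)
    have h2 := y1 (e + 1) ((A₀ + 1) * A₁ + A₀ + (e + 1) + Λ₀) (by omega)
    have h3 := y1 Λ₀ ((A₀ + 1) * A₁ + A₀ + (e + 1) + Λ₀) (by omega)
    have h5 := Nat.mul_le_mul_left (y ^ ((A₀ + 1) * A₁ + A₀ + (e + 1) + Λ₀)) y3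
    rw [pow_succ y ((A₀ + 1) * A₁ + A₀ + (e + 1) + Λ₀)]
    omega
  have b6 : y ^ A₀ * C ≤ y ^ ((A₀ + 1) * A₁ + A₀ + (e + 1) + Λ₀ + 1) :=
    calc y ^ A₀ * C ≤ y ^ A₀ * y ^ ((A₀ + 1) * A₁) := Nat.mul_le_mul_left _ (hC.trans b2)
      _ = y ^ (A₀ + (A₀ + 1) * A₁) := (pow_add _ _ _).symm
      _ ≤ _ := y1 _ _ (by omega)
  have yc : ((2 : ℝ) ^ m + 2) = (y : ℝ) := by rw [hy]; push_cast; ring
  refine ⟨Q₂, q5.trans hQ, D', Λ', M + (2 ^ m) ^ (e + 1) + Λ₀, y ^ A₀ * C, s + i, j', l', core',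
    ?_, ?_, by omega, fun k k1 k2 => ?_, ⟨r1.anti, r1.pos, r1.lvl, fun x _ z _ => ?_,
      fun k hk b => by simpa using r1.size k hk b, by simpa using r1.top, r1.bot⟩, ?_, ?_⟩
  · rw [yc]
    exact_mod_cast b5
  · rw [yc]
    exact_mod_cast b6
  · by_cases h : k = e + 1
    · rw [h, d1, d2]
      exact ⟨h4, by exact_mod_cast hΛ, hx, by omega, by omega⟩
    · rw [d3 k (by omega), d4 k (by omega)]
      obtain ⟨a1, a2, a3, a4, a5⟩ := hP k k1 (by omega)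
      exact ⟨a1, a2, a3, by omega, by omega⟩
  · rw [r1.zero, l0]
  · have h1 : 2 ^ i ≤ 4 ^ i := Nat.pow_le_pow_left (by omega) _
    calc #P ≤ 2 ^ i * #Q := c1
      _ ≤ 4 ^ i * (y ^ A₀ * (C * 4 ^ s * #Q₂)) :=
        Nat.mul_le_mul h1 (c2.trans (Nat.mul_le_mul_left _ q3))
      _ = _ := by ring
  · have h1 : (2 ^ m) ^ i ≤ (2 ^ m) ^ r := Nat.pow_le_pow_right (by omega) hi
    have h2 := r2.trans (Nat.mul_le_mul_right _ h1)
    rw [Nat.add_sub_cancel]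
    exact_mod_cast h2

end XTREE

theorem p_TREE (hR0 : S_R0) (hMAIN : S_MAIN) : S_TREE := by
  intro d η hd hη
  obtain ⟨e, rfl⟩ : ∃ e, d = e + 1 := ⟨d - 1, by omega⟩
  obtain ⟨Λ₀, A₀, h4, h0⟩ := hR0 e
  obtain ⟨A₁, h1⟩ := hMAIN (e + 1) e η hη
  refine ⟨Λ₀, (A₀ + 1) * A₁ + A₀ + (e + 1) + Λ₀ + 1, h4, fun m r P hm hr hΛ hP => ?_⟩
  have hx : 1 ≤ 2 ^ m := Nat.one_le_two_pow
  have key : ∀ i ≤ r, (∃ Q ⊆ P, #P ≤ 2 ^ i * #Q ∧ ∃ l : ℕ → E (e + 1) → Lab (e + 1),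
      (l 0 = fun _ => []) ∧
      (∀ k < i, Lvl (e + 1) (2 ^ m) Λ₀ Q (l k) (l (k + 1)) fun _ => Set.univ) ∧
      (∀ k ≤ i, ∀ b, #{z ∈ Q | l k z = b} * (2 ^ m) ^ ((e + 1) * k) ≤ #P) ∧
      (1 ≤ i → ∀ f : MP (e + 1), f ≠ 0 → ∀ S ⊆ Q, (∀ z ∈ S, eval z f = 0) →
        #(S.image (l 1)) ≤ (f.totalDegree + 2) ^ A₀ * (2 ^ m) ^ e)) ∨
      Alg η P (((2 : ℝ) ^ m + 2) ^ ((A₀ + 1) * A₁ + A₀ + (e + 1) + Λ₀ + 1))
        (((2 : ℝ) ^ m) ^ r) := by
    intro i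
    induction i with
    | zero =>
      refine fun _ => Or.inl ⟨P, subset_rfl, by simp, fun _ _ => [], rfl,
        fun k hk => absurd hk (Nat.not_lt_zero _), fun k hk b => ?_, fun h => absurd h (by omega)⟩
      rw [Nat.le_zero.1 hk, mul_zero, pow_zero, mul_one]
      exact card_filter_le _ _
    | succ i ih =>
      intro hi
      rcases ih (by omega) with ⟨Q, q1, q2, l, l0, hl, hs, hz⟩ | h
      swap
      · exact Or.inr h
      have hB : (2 ^ m) ^ ((e + 1) * i) ≤ #P :=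
        (Nat.pow_le_pow_right hx (Nat.mul_le_mul_left _ (by omega))).trans hP
      rcases h0 m #P ((2 ^ m) ^ ((e + 1) * i)) Q (l i) (hs i le_rfl) (Nat.one_le_pow _ _ hx) hB with
        ⟨Q', a1, a2, l', a3, a4, a5⟩ | ⟨c', a1, Q', a2, a3, a4⟩
      · have u1 : ∀ k ≤ i, Function.update l (i + 1) l' k = l k := fun k hk =>
          Function.update_of_ne (by omega) _ _
        have u2 : Function.update l (i + 1) l' (i + 1) = l' := Function.update_self ..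
        refine Or.inl ⟨Q', a1.trans q1, ?_, Function.update l (i + 1) l', ?_, fun k hk => ?_,
          fun k hk b => ?_, fun _ f hf S hS hz' => ?_⟩
        · rw [pow_succ, mul_assoc]
          exact q2.trans (Nat.mul_le_mul_left _ a2)
        · rw [u1 0 (by omega), l0]
        · by_cases h : k = i
          · rw [h, u1 i le_rfl, u2]
            exact a3
          · rw [u1 k (by omega), u1 (k + 1) (by omega)]
            exact (hl k (by omega)).mono a1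
        · by_cases h : k = i + 1
          · rw [h, u2, mul_add, mul_one, pow_add]
            exact a4 b
          · rw [u1 k (by omega)]
            exact BuildX.size_mono a1 (hs k (by omega)) b
        · rcases Nat.eq_zero_or_pos i with h | h
          · subst h
            rw [u2]
            exact a5 f hf [] S hS fun z hz'' => ⟨by rw [l0], hz' z hz''⟩
          · rw [u1 1 h]
            exact hz h f hf S (hS.trans a1) hz'
      · obtain ⟨D, Λ, M, C, b1, b2, b3, b4, b5⟩ := h1 c'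
        exact Or.inr (XTREE.alg h4 hm (by omega) hΛ q1 a2 q2 a3 a1 l0 hl hs a4 b1 b2 b3 b4 b5)
  rcases key r le_rfl with ⟨Q, q1, q2, l, l0, hl, hs, hz⟩ | h
  swap
  · exact Or.inr h
  refine Or.inl ⟨Q, q1, q2, l, fun x _ z _ => by rw [l0], hl, hs, fun f hf => ?_⟩
  set S := {z ∈ Q | eval z f = 0} with hS
  have s1 := hz hr f hf S (filter_subset _ _) fun z hz' => (mem_filter.1 hz').2
  have s2 : #S * (2 ^ m) ^ (e + 1) ≤ #(S.image (l 1)) * #P := by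
    rw [card_eq_sum_card_fiberwise (f := l 1) (s := S) (t := S.image (l 1))
      fun x hx => mem_image_of_mem _ hx, sum_mul, ← smul_eq_mul (#(S.image (l 1))), ← sum_const]
    refine sum_le_sum fun b _ => ?_
    have := BuildX.size_mono (filter_subset (fun z => eval z f = 0) Q) (hs 1 hr) b
    rwa [mul_one] at this
  have s3 : #S * 2 ^ m * (2 ^ m) ^ e ≤ (f.totalDegree + 2) ^ A₀ * #P * (2 ^ m) ^ e :=
    calc #S * 2 ^ m * (2 ^ m) ^ e = #S * (2 ^ m) ^ (e + 1) := by ring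
      _ ≤ (f.totalDegree + 2) ^ A₀ * (2 ^ m) ^ e * #P := s2.trans (Nat.mul_le_mul_right _ s1)
      _ = _ := by ring
  refine (Nat.le_of_mul_le_mul_right s3 (Nat.one_le_pow _ _ hx)).trans
    (Nat.mul_le_mul_right _ (Nat.pow_le_pow_right (by omega) (by omega)))

end Pool.Agent.P.MP_5f07f1_co.Z
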