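import Pool.Agent.P.MP_5f07f1_co.ZDefs

namespace Pool.Agent.P.MP_5f07f1_co.Z

open Finset MvPolynomial Pool.Agent.Lib.PolyPart Classical Module

namespace XTRI

lemma dyad {ι : Type} (y w : ι → ℝ) {P Q a : ℝ} (hP : 0 ≤ P) (hQ : 0 ≤ Q) (hw : ∀ i, 0 ≤ w i)
    (n : ℕ) : ∀ (I : Finset ι) (s : ℝ), 0 < s → s ≤ 2 * a →
    (∀ J ⊆ I, ∀ b : ℝ, 0 < b → (∀ i ∈ J, b ≤ y i) → ∑ i ∈ J, w i ≤ P / b ^ 2 + Q) →
    (∀ i ∈ I, s ≤ y i ∧ y i < 2 ^ n * s ∧ y i ≤ a) →
    ∑ i ∈ I, y i * w i ≤ 4 * P / s + Q * (4 * a - 2 * s) := by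
  have h0 : ∀ s : ℝ, 0 < s → s ≤ 2 * a → 0 ≤ 4 * P / s + Q * (4 * a - 2 * s) := fun s hs ha =>
    add_nonneg (by positivity) (mul_nonneg hQ (by linarith))
  induction n with
  | zero =>
    intro I s hs ha _ h
    rw [Finset.eq_empty_of_forall_notMem (s := I) fun i hi => by
      have := h i hi
      rw [pow_zero, one_mul] at this
      linarith [this.1, this.2.1], sum_empty]
    exact h0 s hs ha
  | succ n ih =>
    intro I s hs ha hJ h
    rcases I.eq_empty_or_nonempty with rfl | ⟨i₀, hi₀⟩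
    · rw [sum_empty]
      exact h0 s hs ha
    have hsa : s ≤ a := (h i₀ hi₀).1.trans (h i₀ hi₀).2.2
    rw [← sum_filter_add_sum_filter_not I fun i => y i < 2 * s]
    have h1 : ∑ i ∈ I with y i < 2 * s, y i * w i ≤ 2 * s * (P / s ^ 2 + Q) := by
      refine le_trans (sum_le_sum fun i hi =>
        mul_le_mul_of_nonneg_right (mem_filter.1 hi).2.le (hw i)) ?_
      rw [← mul_sum]
      exact mul_le_mul_of_nonneg_left
        (hJ _ (filter_subset _ _) s hs fun i hi => (h i (mem_filter.1 hi).1).1) (by positivity)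
    have h2 := ih {i ∈ I | ¬ y i < 2 * s} (2 * s) (by positivity) (by linarith)
      (fun J hJ' => hJ J (hJ'.trans (filter_subset _ _))) fun i hi => by
        obtain ⟨k1, k2⟩ := mem_filter.1 hi
        refine ⟨not_lt.1 k2, ?_, (h i k1).2.2⟩
        have := (h i k1).2.1
        rwa [pow_succ, mul_assoc] at this
    have e : 4 * P / s + Q * (4 * a - 2 * s) =
        2 * s * (P / s ^ 2 + Q) + (4 * P / (2 * s) + Q * (4 * a - 2 * (2 * s))) := by
      field_simp
      ring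
    rw [e]
    exact add_le_add h1 h2

variable {α V : Type} [AddCommGroup V] [Module ℝ V] [FiniteDimensional ℝ V] {f : α → V}
  {A : Finset α}

omit [FiniteDimensional ℝ V] in
lemma rk3 {x y z : α} (h : Ind3 f x y z) : finrank ℝ (sp3 f x y z) = 3 := by
  have := finrank_span_eq_card h
  rwa [show Set.range ![f x, f y, f z] = {f x, f y, f z} by
    simp only [Matrix.range_cons, Matrix.range_empty, Set.union_empty, Set.singleton_union],
    Fintype.card_fin] at this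

omit [FiniteDimensional ℝ V] in
lemma rk2 (h : NP f A) {x y : α} (hx : x ∈ A) (hy : y ∈ A) (hne : x ≠ y) :
    finrank ℝ (sp2 f x y) = 2 := by
  have hl : LinearIndependent ℝ ![f x, f y] :=
    (LinearIndependent.pair_iff' (h.1 x hx)).2 fun a e => hne (h.2 x hx y hy a e.symm).symm
  have := finrank_span_eq_card hl
  rwa [show Set.range ![f x, f y] = {f x, f y} by
    simp [Matrix.range_cons, Matrix.range_empty, Set.pair_comm], Fintype.card_fin] at this

lemma line_eq (h : NP f A) {x y : α} (hx : x ∈ A) (hy : y ∈ A) (hne : x ≠ y) {l : Submodule ℝ V}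
    (hl : finrank ℝ l ≤ 2) (h1 : f x ∈ l) (h2 : f y ∈ l) : sp2 f x y = l :=
  Submodule.eq_of_le_of_finrank_le (Submodule.span_le.2 (by
    rintro _ (rfl | rfl)
    exacts [h1, h2])) (by rw [rk2 h hx hy hne]; exact hl)

lemma plane_eq {l U : Submodule ℝ V} (hl : finrank ℝ l = 2) (hU : finrank ℝ U = 3) (hle : l ≤ U)
    {v : V} (h1 : v ∈ U) (h2 : v ∉ l) : l ⊔ Submodule.span ℝ {v} = U := by
  refine Submodule.eq_of_le_of_finrank_le
    (sup_le hle ((Submodule.span_singleton_le_iff_mem _ _).2 h1)) ?_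
  have : l < l ⊔ Submodule.span ℝ {v} := lt_of_le_of_ne le_sup_left fun e =>
    h2 (e ▸ Submodule.mem_sup_right (Submodule.mem_span_singleton_self v))
  have := Submodule.finrank_lt_finrank_of_lt this
  omega

omit [FiniteDimensional ℝ V] in
/-- triples that span `U` have a point off a proper subspace -/
lemma off (S : Finset (α × α × α)) {l U : Submodule ℝ V} (hl : l < U)
    (hS : ∀ p ∈ S, p ∈ A ×ˢ A ×ˢ A ∧ sp3 f p.1 p.2.1 p.2.2 = U) :
    #S ≤ 3 * (cnt f A U ^ 2 * #{z ∈ A | f z ∈ U ∧ f z ∉ l}) := by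
  set Y := {z ∈ A | f z ∈ U} with hY
  set Z := {z ∈ A | f z ∈ U ∧ f z ∉ l} with hZ
  have hsub : S ⊆ (Z ×ˢ Y ×ˢ Y ∪ Y ×ˢ Z ×ˢ Y) ∪ Y ×ˢ Y ×ˢ Z := fun p hp => by
    obtain ⟨h1, h2⟩ := hS p hp
    simp only [mem_product] at h1
    have m1 : f p.1 ∈ U := h2 ▸ Submodule.subset_span (by simp)
    have m2 : f p.2.1 ∈ U := h2 ▸ Submodule.subset_span (by simp)
    have m3 : f p.2.2 ∈ U := h2 ▸ Submodule.subset_span (by simp)
    have hn : f p.1 ∉ l ∨ f p.2.1 ∉ l ∨ f p.2.2 ∉ l := by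
      by_contra hc
      push Not at hc
      refine hl.not_ge (h2 ▸ Submodule.span_le.2 ?_)
      rintro _ (rfl | rfl | rfl)
      exacts [hc.1, hc.2.1, hc.2.2]
    simp only [mem_union, mem_product, hY, hZ, mem_filter]
    tauto
  refine (card_le_card hsub).trans ((card_union_le _ _).trans ?_)
  refine (Nat.add_le_add_right (card_union_le _ _) _).trans (le_of_eq ?_)
  simp only [card_product, cnt, ← hY]
  ring

end XTRI

open XTRI in
theorem p_TRI (hET : S_ET) (hPAIR : S_PAIR) : S_TRI := by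
  obtain ⟨γ, CE, hγ, hγ2, hCE, hE⟩ := hET 1
  obtain ⟨CP, hCP, hP⟩ := hPAIR
  have hγ1 : γ ≤ 1 := hγ2.trans (by norm_num)
  have c1 : 0 ≤ 2 / γ := by positivity
  have c2 : 0 ≤ 6 * CP / γ ^ 3 := by positivity
  refine ⟨2 / γ + (4 * CE + 6 * CP / γ ^ 3), by linarith, ?_⟩
  intro α V _ _ _ f A σ s a hNP hσ hs ha
  have hσ0 : 0 ≤ σ := (Nat.cast_nonneg _).trans hσ
  have ha0 : 0 ≤ a := (Nat.cast_nonneg _).trans (ha ⊥ (by simp))
  have hB : 0 ≤ σ ^ 3 / s + σ ^ 2 * a := by positivity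
  set S := {p ∈ A ×ˢ A ×ˢ A | Ind3 f p.1 p.2.1 p.2.2 ∧ s ≤ cnt f A (sp3 f p.1 p.2.1 p.2.2)}
    with hS
  rw [add_mul]
  by_cases hsm : s ≤ 2 / γ
  · refine le_trans ?_ (le_add_of_nonneg_right (by positivity))
    have h1 : (#S : ℝ) ≤ σ ^ 3 := by
      have : #S ≤ #A ^ 3 := (card_filter_le _ _).trans (by simp only [card_product]; ring_nf; rfl)
      exact le_trans (by exact_mod_cast this) (pow_le_pow_left₀ (Nat.cast_nonneg _) hσ 3)
    calc (#S : ℝ) ≤ s * (σ ^ 3 / s) := by rwa [mul_div_cancel₀ _ hs.ne']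
      _ ≤ 2 / γ * (σ ^ 3 / s + σ ^ 2 * a) :=
        mul_le_mul hsm (le_add_of_nonneg_right (by positivity)) (by positivity) c1
  refine le_trans ?_ (le_add_of_nonneg_left (by positivity))
  have hγs : 2 < γ * s := by
    rw [not_le, div_lt_iff₀ hγ] at hsm
    linarith
  let pl : α × α × α → Submodule ℝ V := fun p => sp3 f p.1 p.2.1 p.2.2
  let Y : Submodule ℝ V → Finset α := fun U => {z ∈ A | f z ∈ U}
  have hpl : ∀ U ∈ S.image pl, finrank ℝ U = 3 ∧ s ≤ cnt f A U := fun U hU => by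
    obtain ⟨p, hp, rfl⟩ := mem_image.1 hU
    exact ⟨rk3 (mem_filter.1 hp).2.1, (mem_filter.1 hp).2.2⟩
  have hfib : ∀ U, ∀ p ∈ {p ∈ S | pl p = U}, p ∈ A ×ˢ A ×ˢ A ∧ sp3 f p.1 p.2.1 p.2.2 = U :=
    fun U p hp => ⟨(mem_filter.1 (mem_filter.1 hp).1).1, (mem_filter.1 hp).2⟩
  rw [card_eq_sum_card_image pl S, Nat.cast_sum,
    ← sum_filter_add_sum_filter_not (S.image pl) fun U => ND γ f U (Y U), add_mul]
  refine add_le_add ?_ ?_
  · set I := {U ∈ S.image pl | ND γ f U (Y U)} with hI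
    rcases I.eq_empty_or_nonempty with e | ⟨U₀, hU₀⟩
    · rw [e, sum_empty]
      positivity
    have hsa : s ≤ a := by
      have := hpl U₀ (mem_filter.1 hU₀).1
      exact this.2.trans (ha _ this.1.le)
    obtain ⟨n, hn⟩ := pow_unbounded_of_one_lt (a / s) (one_lt_two (α := ℝ))
    have h1 := dyad (fun U => (cnt f A U : ℝ)) (fun U => (cnt f A U : ℝ) ^ 2) (P := CE * σ ^ 3)
      (Q := CE * σ ^ 2) (a := a) (by positivity) (by positivity) (fun _ => by positivity) n I s hs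
      (by linarith) (fun J hJ b hb h => by
        have := hE 1 le_rfl α V f A J Y σ b hNP hσ hb fun U hU =>
          ⟨(hpl U (mem_filter.1 (hJ hU)).1).1, filter_subset _ _, (mem_filter.1 (hJ hU)).2, h U hU⟩
        refine le_trans this (le_of_eq ?_)
        ring) fun U hU => by
        have := hpl U (mem_filter.1 hU).1
        have h2 := ha _ this.1.le
        exact ⟨this.2, h2.trans_lt ((div_lt_iff₀ hs).1 hn), h2⟩
    calc _ ≤ ∑ U ∈ I, (cnt f A U : ℝ) * (cnt f A U : ℝ) ^ 2 := sum_le_sum fun U _ => by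
          have : #{p ∈ S | pl p = U} ≤ #(Y U ×ˢ Y U ×ˢ Y U) := card_le_card fun p hp => by
            obtain ⟨h1, h2⟩ := hfib U p hp
            simp only [mem_product] at h1
            simp only [mem_product, Y, mem_filter]
            exact ⟨⟨h1.1, h2 ▸ Submodule.subset_span (by simp)⟩,
              ⟨h1.2.1, h2 ▸ Submodule.subset_span (by simp)⟩,
              h1.2.2, h2 ▸ Submodule.subset_span (by simp)⟩
          rw [card_product, card_product, ← sq] at this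
          exact_mod_cast this
      _ ≤ _ := h1
      _ ≤ _ := by
          have : 0 ≤ CE * σ ^ 2 * (2 * s) := by positivity
          have e : 4 * CE * (σ ^ 3 / s + σ ^ 2 * a) =
            4 * (CE * σ ^ 3) / s + CE * σ ^ 2 * (4 * a - 2 * s) + CE * σ ^ 2 * (2 * s) := by ring
          linarith
  · set I := {U ∈ S.image pl | ¬ ND γ f U (Y U)} with hI
    have hex : ∀ U, ∃ l : Submodule ℝ V, U ∈ I → l < U ∧ γ * cnt f A U < cnt f A l := fun U => by
      by_cases hU : U ∈ I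
      · have h1 := (mem_filter.1 hU).2
        rw [ND, not_and] at h1
        have h2 := h1 fun y hy => (mem_filter.1 hy).2
        push Not at h2
        obtain ⟨l, k1, k2⟩ := h2
        refine ⟨l, fun _ => ⟨k1, k2.trans_le (Nat.cast_le.2 (card_le_card fun z hz => ?_))⟩⟩
        exact mem_filter.2 ⟨(mem_filter.1 (mem_filter.1 hz).1).1, (mem_filter.1 hz).2⟩
      · exact ⟨⊥, fun h => absurd h hU⟩
    choose l hl using hex
    have hrk : ∀ U ∈ I, finrank ℝ (l U) ≤ 2 := fun U hU => by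
      have h1 := Submodule.finrank_lt_finrank_of_lt (hl U hU).1
      have h2 := (hpl U (mem_filter.1 hU).1).1
      omega
    have hge : ∀ U ∈ I, γ * s ≤ cnt f A (l U) := fun U hU =>
      (mul_le_mul_of_nonneg_left (hpl U (mem_filter.1 hU).1).2 hγ.le).trans (hl U hU).2.le
    let T : Submodule ℝ V → Finset (α × α × α) := fun U =>
      {z ∈ A | f z ∈ U ∧ f z ∉ l U} ×ˢ (Y (l U)).offDiag
    have hT : ∀ U ∈ I, ∀ p ∈ T U, (p.1 ∈ A ∧ f p.1 ∈ U ∧ f p.1 ∉ l U) ∧ p.2.1 ∈ A ∧ p.2.2 ∈ A ∧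
        p.2.1 ≠ p.2.2 ∧ sp2 f p.2.1 p.2.2 = l U := fun U hU p hp => by
      obtain ⟨h1, h2⟩ := mem_product.1 hp
      obtain ⟨k1, k2, k3⟩ := mem_offDiag.1 h2
      exact ⟨mem_filter.1 h1, (mem_filter.1 k1).1, (mem_filter.1 k2).1, k3,
        line_eq hNP (mem_filter.1 k1).1 (mem_filter.1 k2).1 k3 (hrk U hU) (mem_filter.1 k1).2
          (mem_filter.1 k2).2⟩
    have hdet : ∀ U ∈ I, ∀ p ∈ T U, sp2 f p.2.1 p.2.2 ⊔ Submodule.span ℝ {f p.1} = U :=
      fun U hU p hp => by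
        obtain ⟨h1, h2, h3, h4, h5⟩ := hT U hU p hp
        exact plane_eq (rk2 hNP h2 h3 h4) (hpl U (mem_filter.1 hU).1).1 (h5 ▸ (hl U hU).1.le) h1.2.1
          (h5 ▸ h1.2.2)
    set R := {p ∈ A ×ˢ A | p.1 ≠ p.2 ∧ γ * s ≤ cnt f A (sp2 f p.1 p.2)} with hR
    have hR1 : (#R : ℝ) ≤ CP * (σ ^ 2 / (γ * s) + σ * a) :=
      hP α V f A σ (γ * s) a hNP hσ (by positivity) fun U hU => ha U (by omega)
    have h1 : ∑ U ∈ I, #(T U) ≤ #A * #R := by
      rw [← card_biUnion fun U hU U' hU' hne => disjoint_left.2 fun p h h' =>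
        hne ((hdet U hU p h).symm.trans (hdet U' hU' p h')), ← card_product]
      refine card_le_card fun p hp => ?_
      obtain ⟨U, hU, hp⟩ := mem_biUnion.1 hp
      obtain ⟨h1, h2, h3, h4, h5⟩ := hT U hU p hp
      exact mem_product.2 ⟨h1.1, mem_filter.2 ⟨mem_product.2 ⟨h2, h3⟩, h4, h5 ▸ hge U hU⟩⟩
    have h2 : ∀ U ∈ I, (#{p ∈ S | pl p = U} : ℝ) ≤ 6 / γ ^ 2 * #(T U) := fun U hU => by
      have k1 : (#{p ∈ S | pl p = U} : ℝ) ≤
          3 * ((cnt f A U : ℝ) ^ 2 * #{z ∈ A | f z ∈ U ∧ f z ∉ l U}) := by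
        exact_mod_cast off _ (hl U hU).1 (hfib U)
      have k2 : (2 : ℝ) < cnt f A (l U) := hγs.trans_le (hge U hU)
      have k3 : (#(Y (l U)).offDiag : ℝ) = (cnt f A (l U) : ℝ) ^ 2 - cnt f A (l U) := by
        rw [offDiag_card, Nat.cast_sub (Nat.le_mul_self _), Nat.cast_mul, sq]
        rfl
      have k4 : (γ * cnt f A U) ^ 2 ≤ (cnt f A (l U) : ℝ) ^ 2 :=
        pow_le_pow_left₀ (by positivity) (hl U hU).2.le 2
      have k5 : (cnt f A U : ℝ) ^ 2 ≤ 2 / γ ^ 2 * #(Y (l U)).offDiag := by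
        rw [div_mul_eq_mul_div, le_div_iff₀ (by positivity), k3]
        nlinarith
      refine k1.trans ?_
      rw [card_product, Nat.cast_mul]
      calc _ ≤ 3 * (2 / γ ^ 2 * (#(Y (l U)).offDiag : ℝ) * #{z ∈ A | f z ∈ U ∧ f z ∉ l U}) := by
            gcongr
        _ = _ := by ring
    calc _ ≤ ∑ U ∈ I, 6 / γ ^ 2 * (#(T U) : ℝ) := sum_le_sum h2
      _ ≤ 6 / γ ^ 2 * ((#A : ℝ) * #R) := by
          rw [← mul_sum]
          exact mul_le_mul_of_nonneg_left (by exact_mod_cast h1) (by positivity)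
      _ ≤ 6 / γ ^ 2 * (σ * (CP * (σ ^ 2 / (γ * s) + σ * a / γ))) := by
          have : σ * a ≤ σ * a / γ := le_div_self (mul_nonneg hσ0 ha0) hγ hγ1
          gcongr
          exact hR1.trans (by gcongr)
      _ = _ := by
          field_simp

end Pool.Agent.P.MP_5f07f1_co.Z
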