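import Pool.Agent.P.MP_5f07f1_co.ZDefs

namespace Pool.Agent.P.MP_5f07f1_co.Z

open Finset MvPolynomial Pool.Agent.Lib.PolyPart Classical Module

namespace XTRIP

variable {V : Type} [AddCommGroup V] [Module ℝ V]

lemma two {X : Finset V} (hL : Line2 X) (F : Finset (ℝ × V)) {v w x : V} (hx : x ≠ v)
    (hF : ∀ T ∈ F, app T v = w ∧ app T x ∈ X) : #F ≤ 2 := by
  by_contra h
  obtain ⟨a, b, c, ha, hb, hc, hab, hac, hbc⟩ := two_lt_card_iff.1 (not_le.1 h)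
  have e : ∀ T ∈ F, app T x = w + T.1 • (x - v) := fun T hT => by
    rw [← (hF T hT).1]
    simp only [app, smul_sub]
    abel
  have inj : ∀ T ∈ F, ∀ T' ∈ F, app T x = app T' x → T = T' := fun T hT T' hT' h => by
    rw [e T hT, e T' hT', add_right_inj] at h
    have h1 : T.1 = T'.1 := smul_left_injective ℝ (sub_ne_zero.2 hx) h
    have h2 := (hF T hT).1.trans (hF T' hT').1.symm
    simp only [app, h1, add_right_inj] at h2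
    exact Prod.ext h1 h2
  have hne : b.1 - a.1 ≠ 0 := fun h =>
    hab (inj a ha b hb (by rw [e a ha, e b hb, sub_eq_zero.1 h]))
  rcases hL _ (hF a ha).2 _ (hF b hb).2 _ (hF c hc).2 ((c.1 - a.1) / (b.1 - a.1))
    (fun h => hab (inj _ ha _ hb h)) (by
      rw [e a ha, e b hb, e c hc, add_sub_add_left_eq_sub, ← sub_smul, smul_smul,
        div_mul_cancel₀ _ hne, add_assoc, ← add_smul, add_sub_cancel]) with h | h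
  · exact hac (inj _ hc _ ha h).symm
  · exact hbc (inj _ hc _ hb h).symm

lemma line_k {X : Finset V} (hL : Line2 X) (𝒯 : Finset (ℝ × V)) (v w : V) (k : ℝ)
    (h : ∀ T ∈ 𝒯, 2 ≤ #(KT X T) ∧ k ≤ #(KT X T)) :
    (#{T ∈ 𝒯 | app T v = w} : ℝ) * k ≤ 4 * #X := by
  have h1 := card_nsmul_le_card_nsmul (R := ℝ) (s := {T ∈ 𝒯 | app T v = w}) (t := X)
    (fun T x => x ≠ v ∧ app T x ∈ X) (m := k / 2) (n := 2) (fun T hT => ?_) (fun x _ => ?_)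
  · simp only [nsmul_eq_mul] at h1
    linarith
  · obtain ⟨a1, a2⟩ := h T (mem_filter.1 hT).1
    have h2 : #(KT X T) ≤ #(X.bipartiteAbove (fun T x => x ≠ v ∧ app T x ∈ X) T) + 1 := by
      refine le_trans (card_le_card fun x hx => ?_) (card_insert_le v _)
      obtain ⟨b1, b2⟩ := mem_filter.1 hx
      by_cases hv : x = v
      · exact mem_insert.2 (Or.inl hv)
      · exact mem_insert.2 (Or.inr ((mem_bipartiteAbove _).2 ⟨b1, hv, b2⟩))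
    have h3 : #(KT X T) ≤ 2 * #(X.bipartiteAbove (fun T x => x ≠ v ∧ app T x ∈ X) T) := by omega
    have h4 : (#(KT X T) : ℝ) ≤
      2 * #(X.bipartiteAbove (fun T x => x ≠ v ∧ app T x ∈ X) T) := by exact_mod_cast h3
    linarith
  · by_cases hv : x = v
    · rw [card_eq_zero.2 (eq_empty_of_forall_notMem fun T hT =>
        ((mem_bipartiteBelow _).1 hT).2.1 hv)]
      norm_num
    · exact_mod_cast two hL _ (v := v) (w := w) hv fun T hT =>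
        ⟨(mem_filter.1 (mem_filter.1 hT).1).2, And.right (mem_filter.1 hT).2⟩

omit [AddCommGroup V] [Module ℝ V] in
lemma slopes (𝒯 : Finset (ℝ × V)) (S : Finset ℝ) (c : ℝ)
    (h : ∀ t ∈ S, c ≤ #{T ∈ 𝒯 | T.1 = t}) : (#S : ℝ) * c ≤ #𝒯 := by
  have h1 := card_nsmul_le_card_nsmul (R := ℝ) (s := S) (t := 𝒯) (fun t (T : ℝ × V) => T.1 = t)
    (m := c) (n := 1) h (fun T _ => ?_)
  · simpa only [nsmul_eq_mul, mul_one] using h1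
  · exact_mod_cast card_le_one.2 fun a ha b hb =>
      Eq.trans (Eq.symm (mem_filter.1 ha).2) (mem_filter.1 hb).2

lemma tail (h3 : S_SL3) (X : Finset V) (Z : Finset ((ℝ × V) × (ℝ × V))) (S : Finset ℝ)
    (hS : ∀ t ∈ S, t ≠ 0) (hZ : ∀ p ∈ Z, p.1.1 ∈ S ∧ p.2.1 ∈ S) {y : ℝ} (hy : 0 < y) :
    ∑ p ∈ Z, (m2 X p.1 p.2 : ℝ) ^ 2 ≤ #Z * y ^ 2 + (#S : ℝ) ^ 2 * E3 X 35 / y ^ 34 := by
  have h1 : ∀ m : ℝ, 0 ≤ m → m ^ 2 ≤ y ^ 2 + m ^ 36 / y ^ 34 := fun m hm => by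
    rcases le_total m y with h | h
    · exact (pow_le_pow_left₀ hm h 2).trans (le_add_of_nonneg_right (by positivity))
    · refine le_trans ?_ (le_add_of_nonneg_left (by positivity))
      rw [le_div_iff₀ (by positivity), show m ^ 36 = m ^ 2 * m ^ 34 by ring]
      exact mul_le_mul_of_nonneg_left (pow_le_pow_left₀ hy.le h 34) (by positivity)
  have h2 : ∑ p ∈ Z, (m2 X p.1 p.2 : ℝ) ^ 36 ≤ (#S : ℝ) ^ 2 * E3 X 35 := by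
    rw [← sum_fiberwise_of_maps_to (t := S ×ˢ S) (g := fun p => (p.1.1, p.2.1))
      fun p hp => mem_product.2 (hZ p hp)]
    refine (sum_le_card_nsmul _ _ (E3 X 35) fun s hs => ?_).trans
      (by rw [card_product, nsmul_eq_mul]; push_cast; rw [sq])
    exact h3 V X 35 s.1 s.2 _ (hS _ (mem_product.1 hs).1) (hS _ (mem_product.1 hs).2)
      fun p hp => Prod.ext_iff.1 (mem_filter.1 hp).2
  refine (sum_le_sum fun p _ => h1 _ (Nat.cast_nonneg _)).trans ?_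
  rw [sum_add_distrib, sum_const, nsmul_eq_mul, ← sum_div]
  gcongr

/-- The members of `𝒯` with the slope and the colour of `T`. -/
noncomputable def cls (𝒯 : Finset (ℝ × V)) (ρ : ℝ × V → Prop) (T : ℝ × V) : ℝ :=
  #{T' ∈ 𝒯 | T'.1 = T.1 ∧ (ρ T' ↔ ρ T)}

omit [AddCommGroup V] [Module ℝ V] in
lemma cls_one {𝒯 : Finset (ℝ × V)} (ρ : ℝ × V → Prop) {T : ℝ × V} (h : T ∈ 𝒯) :
    1 ≤ cls 𝒯 ρ T :=
  Nat.one_le_cast.2 (card_pos.2 ⟨T, mem_filter.2 ⟨h, rfl, Iff.rfl⟩⟩)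

omit [AddCommGroup V] [Module ℝ V] in
lemma cls_le (𝒯 : Finset (ℝ × V)) (ρ : ℝ × V → Prop) (T : ℝ × V) :
    cls 𝒯 ρ T ≤ #{T' ∈ 𝒯 | T'.1 = T.1} :=
  Nat.cast_le.2 (card_le_card fun _ h =>
    mem_filter.2 ⟨(mem_filter.1 h).1, (mem_filter.1 h).2.1⟩)

omit [AddCommGroup V] [Module ℝ V] in
lemma small (𝒯 : Finset (ℝ × V)) (ρ : ℝ × V → Prop) {c : ℝ} (hc : 0 ≤ c) (t : ℝ) :
    (#{T ∈ {T ∈ 𝒯 | cls 𝒯 ρ T ≤ c} | T.1 = t} : ℝ) ≤ 2 * c := by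
  have h1 : ∀ F : Finset (ℝ × V), (∀ T ∈ F, T ∈ {T ∈ {T ∈ 𝒯 | cls 𝒯 ρ T ≤ c} | T.1 = t}) →
      (∀ T ∈ F, ∀ T' ∈ F, (ρ T ↔ ρ T')) → (#F : ℝ) ≤ c := fun F a1 a2 => by
    rcases F.eq_empty_or_nonempty with rfl | ⟨T, hT⟩
    · simpa using hc
    · refine le_trans (Nat.cast_le.2 (card_le_card fun T' hT' => ?_))
        (mem_filter.1 (mem_filter.1 (a1 T hT)).1).2
      exact mem_filter.2 ⟨(mem_filter.1 (mem_filter.1 (a1 T' hT')).1).1,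
        (mem_filter.1 (a1 T' hT')).2.trans (mem_filter.1 (a1 T hT)).2.symm, a2 _ hT' _ hT⟩
  rw [← card_filter_add_card_filter_not ρ, Nat.cast_add, two_mul]
  exact add_le_add (h1 _ (fun T h => (mem_filter.1 h).1) fun T h T' h' =>
      iff_of_true (mem_filter.1 h).2 (mem_filter.1 h').2)
    (h1 _ (fun T h => (mem_filter.1 h).1) fun T h T' h' =>
      iff_of_false (mem_filter.1 h).2 (mem_filter.1 h').2)

lemma num {C C₂ u w P Q z : ℝ} (hC : 1 ≤ C) (h2 : 1 ≤ C₂) (hu : 1 ≤ u) (hw : 0 < w)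
    (hw' : 1 ≤ C₂ * w) (hQ : 0 < Q) (hP : Q ^ 2 ≤ P) (h1 : 1 ≤ P / w ^ 16)
    (h : z ^ 2 ≤ C * (√(2 * (P / w ^ 16) * (2 * u ^ 11 * P)) + 2 * (P / w ^ 16) + 4 * Q * u ^ 5) *
      (2 * u ^ 11 * P) ^ 3) : z ≤ 4 * (C * (3 + C₂ ^ 8)) * u ^ 22 * P ^ 2 / w ^ 4 := by
  have hP0 : 0 < P := lt_of_lt_of_le (by positivity) hP
  obtain ⟨R, hR⟩ : ∃ R, R = P / w ^ 8 := ⟨_, rfl⟩
  have hR0 : 0 < R := by rw [hR]; positivity
  have u6 : 1 ≤ u ^ 6 := one_le_pow₀ hu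
  have a1 : √(2 * (P / w ^ 16) * (2 * u ^ 11 * P)) ≤ 2 * u ^ 6 * R := by
    refine Real.sqrt_le_iff.2 ⟨by positivity, ?_⟩
    have : 2 * (P / w ^ 16) * (2 * u ^ 11 * P) = 4 * u ^ 11 * R ^ 2 := by
      rw [hR]; field_simp; norm_num
    rw [this, show (2 * u ^ 6 * R) ^ 2 = 4 * u ^ 12 * R ^ 2 by ring]
    gcongr
    norm_num
  have a2 : 2 * (P / w ^ 16) ≤ C₂ ^ 8 * (2 * u ^ 6 * R) := by
    have e : C₂ ^ 8 * (2 * u ^ 6 * R) = 2 * (P / w ^ 16) * ((C₂ * w) ^ 8 * u ^ 6) := by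
      rw [hR]; field_simp
    rw [e]
    exact le_mul_of_one_le_right (by positivity) (one_le_mul_of_one_le_of_one_le
      (one_le_pow₀ hw') u6)
  have a3 : Q ≤ R := by
    refine (abs_le_of_sq_le_sq' (hP.trans ?_) hR0.le).2
    rw [show R ^ 2 = P * (P / w ^ 16) by rw [hR]; ring]
    exact le_mul_of_one_le_right hP0.le h1
  have a4 : 4 * Q * u ^ 5 ≤ 2 * (2 * u ^ 6 * R) := by
    rw [show 2 * (2 * u ^ 6 * R) = 4 * R * u ^ 6 by ring]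
    gcongr
    norm_num
  have c1 : 1 ≤ C * (3 + C₂ ^ 8) :=
    one_le_mul_of_one_le_of_one_le hC (by linarith [one_le_pow₀ (n := 8) h2])
  obtain ⟨D, hD⟩ : ∃ D, D = C * (3 + C₂ ^ 8) := ⟨_, rfl⟩
  rw [← hD] at c1 ⊢
  refine abs_le_of_sq_le_sq' (h.trans ?_) (by positivity) |>.2
  calc _ ≤ C * ((3 + C₂ ^ 8) * (2 * u ^ 6 * R)) * (2 * u ^ 11 * P) ^ 3 := by
        gcongr
        linarith
    _ = 16 * D ^ 1 * u ^ 39 * (P ^ 4 / w ^ 8) := by rw [hD, hR]; ring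
    _ ≤ 16 * D ^ 2 * u ^ 44 * (P ^ 4 / w ^ 8) := by
        gcongr <;> norm_num
    _ = _ := by field_simp; norm_num

lemma level (h3 : S_SL3) {C C₂ N u w : ℝ} {d : ℕ} {X : Finset V} {𝒯 : Finset (ℝ × V)}
    (hZB : ∀ (𝒜 : Finset (ℝ × V)) (B κ k : ℝ), 𝒜 ⊆ 𝒯 → #𝒯 ≤ B → 0 < B → 0 < κ → 0 ≤ k →
      (∀ t : ℝ, (#{T ∈ 𝒜 | T.1 = t} : ℝ) ≤ κ) →
      (∀ v w : V, (#{T ∈ 𝒯 | app T v = w} : ℝ) ≤ k) →
      (#{p ∈ 𝒯 ×ˢ 𝒯 | dv p.2 p.1 ∈ 𝒯 ∧ (p.1 ∈ 𝒜 ∨ p.2 ∈ 𝒜 ∨ dv p.2 p.1 ∈ 𝒜)} : ℝ) ^ 2 ≤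
        C * (√(κ * B) + κ + k) * B ^ 3)
    (hC : 1 ≤ C) (h2 : 1 ≤ C₂) (hN : 1 ≤ N) (hu : 1 ≤ u) (hw : 0 < w) (hw' : 1 ≤ C₂ * w)
    (hX : #X ≤ N ^ (d + 4)) (hL : Line2 X)
    (hE : E3 X 35 ≤ C₂ * N ^ (3 * (d + 4)) * (N ^ d) ^ 35)
    (hB : #𝒯 ≤ 2 * u ^ 11 * N ^ (d + 6))
    (hT : ∀ T ∈ 𝒯, T.1 ≠ 0 ∧ 2 ≤ #(KT X T) ∧ N ^ (d + 2) / u ^ 5 ≤ #(KT X T))
    (ρ : ℝ × V → Prop) (Z : Finset ((ℝ × V) × (ℝ × V)))
    (hZ : ∀ p ∈ Z, p.1 ∈ 𝒯 ∧ p.2 ∈ 𝒯 ∧ dv p.2 p.1 ∈ 𝒯 ∧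
      (cls 𝒯 ρ p.1 ≤ N ^ (d + 6) / w ^ 16 ∨ cls 𝒯 ρ p.2 ≤ N ^ (d + 6) / w ^ 16 ∨
        cls 𝒯 ρ (dv p.2 p.1) ≤ N ^ (d + 6) / w ^ 16) ∧
      N ^ (d + 6) / (2 * w) ^ 16 ≤ cls 𝒯 ρ p.1 ∧ N ^ (d + 6) / (2 * w) ^ 16 ≤ cls 𝒯 ρ p.2) :
    ∑ p ∈ Z, (m2 X p.1 p.2 : ℝ) ^ 2 ≤
      (4 * (C * (3 + C₂ ^ 8)) + 2 ^ 34 * C₂) * u ^ 22 * N ^ (4 * d + 12) / w ^ 2 := by
  have hN0 : 0 < N := by linarith
  have hu0 : 0 < u := by linarith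
  rcases Z.eq_empty_or_nonempty with rfl | ⟨p, hp⟩
  · rw [sum_empty]
    positivity
  have h1 : 1 ≤ N ^ (d + 6) / w ^ 16 := by
    obtain ⟨a1, a2, a3, a | a | a, -⟩ := hZ p hp
    exacts [(cls_one ρ a1).trans a, (cls_one ρ a2).trans a, (cls_one ρ a3).trans a]
  have hk : ∀ v w : V, (#{T ∈ 𝒯 | app T v = w} : ℝ) ≤ 4 * N ^ 2 * u ^ 5 := fun v w => by
    have := (line_k hL 𝒯 v w _ fun T h => (hT T h).2).trans
      (mul_le_mul_of_nonneg_left hX (by norm_num))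
    rw [← mul_div_assoc, div_le_iff₀ (by positivity)] at this
    refine le_of_mul_le_mul_right (this.trans (le_of_eq ?_)) (pow_pos hN0 (d + 2))
    ring
  have hz := num hC h2 hu hw hw' (pow_pos hN0 2)
    (by rw [← pow_mul]; exact pow_le_pow_right₀ hN (by omega)) h1
    (hZB {T ∈ 𝒯 | cls 𝒯 ρ T ≤ N ^ (d + 6) / w ^ 16} _ _ _ (filter_subset _ _) hB (by positivity)
      (by positivity) (by positivity) (small 𝒯 ρ (by positivity)) hk)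
  replace hz : (#Z : ℝ) ≤ _ := le_trans (Nat.cast_le.2 (card_le_card fun q hq => by
    obtain ⟨a1, a2, a3, a4, -⟩ := hZ q hq
    exact mem_filter.2 ⟨mem_product.2 ⟨a1, a2⟩, a3, a4.imp (fun a => mem_filter.2 ⟨a1, a⟩)
      (Or.imp (fun a => mem_filter.2 ⟨a2, a⟩) fun a => mem_filter.2 ⟨a3, a⟩)⟩)) hz
  let S : Finset ℝ := ({T ∈ 𝒯 | N ^ (d + 6) / (2 * w) ^ 16 ≤ cls 𝒯 ρ T}).image Prod.fst
  have hS : (#S : ℝ) ≤ 2 ^ 17 * u ^ 11 * w ^ 16 := by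
    have := (slopes 𝒯 S (N ^ (d + 6) / (2 * w) ^ 16) fun t ht => by
      obtain ⟨T, a, rfl⟩ := mem_image.1 ht
      exact (mem_filter.1 a).2.trans (cls_le 𝒯 ρ T)).trans hB
    rw [← mul_div_assoc, div_le_iff₀ (by positivity)] at this
    refine le_of_mul_le_mul_right (this.trans (le_of_eq ?_)) (pow_pos hN0 (d + 6))
    ring
  refine (tail h3 X Z S (fun t ht => ?_) (fun q hq => ?_)
    (show 0 < w * N ^ d by positivity)).trans ?_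
  · obtain ⟨T, a, rfl⟩ := mem_image.1 ht
    exact (hT T (mem_filter.1 a).1).1
  · obtain ⟨a1, a2, -, -, a3, a4⟩ := hZ q hq
    exact ⟨mem_image_of_mem _ (mem_filter.2 ⟨a1, a3⟩), mem_image_of_mem _ (mem_filter.2 ⟨a2, a4⟩)⟩
  have hE0 : 0 ≤ E3 X 35 := sum_nonneg fun _ _ => by positivity
  calc _ ≤ 4 * (C * (3 + C₂ ^ 8)) * u ^ 22 * (N ^ (d + 6)) ^ 2 / w ^ 4 * (w * N ^ d) ^ 2 +
        (2 ^ 17 * u ^ 11 * w ^ 16) ^ 2 * (C₂ * N ^ (3 * (d + 4)) * (N ^ d) ^ 35) /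
          (w * N ^ d) ^ 34 := by gcongr
    _ = _ := by
      obtain ⟨b, hb⟩ : ∃ b, b = N ^ d := ⟨_, rfl⟩
      have hb0 : 0 < b := hb ▸ pow_pos hN0 d
      rw [show N ^ (d + 6) = b * N ^ 6 by rw [hb]; ring,
        show N ^ (3 * (d + 4)) = b ^ 3 * N ^ 12 by rw [hb]; ring,
        show N ^ (4 * d + 12) = b ^ 4 * N ^ 12 by rw [hb]; ring, ← hb]
      field_simp

lemma scale {P w m : ℝ} (hw : 0 < w) (h1 : 1 ≤ m) (h0 : m ≤ P / w ^ 16) :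
    ∃ a : ℕ, m ≤ P / (2 ^ a * w) ^ 16 ∧ P / (2 * (2 ^ a * w)) ^ 16 ≤ m := by
  by_contra h
  push Not at h
  have h2 : ∀ a : ℕ, m ≤ P / (2 ^ a * w) ^ 16 := fun a => by
    induction a with
    | zero => simpa using h0
    | succ a ih => rw [pow_succ' 2 a, mul_assoc]; exact (h a ih).le
  obtain ⟨a, ha⟩ := pow_unbounded_of_one_lt (P / w ^ 16) (show (1 : ℝ) < 2 ^ 16 by norm_num)
  have h3 := h1.trans (h2 a)
  rw [div_lt_iff₀ (by positivity)] at ha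
  rw [le_div_iff₀ (by positivity), one_mul, mul_pow, ← pow_mul, mul_comm a, pow_mul] at h3
  linarith

lemma rich (hSL2 : S_SL2) {C₂ N u t : ℝ} {d : ℕ} {X : Finset V} (h2 : 1 ≤ C₂) (hN0 : 0 < N)
    (hu0 : 0 < u) (hE2 : E2 X 239 ≤ C₂ * N ^ (2 * (d + 4)) * (N ^ (d + 2)) ^ 239)
    (F : Finset (ℝ × V)) (ht : t ≠ 0)
    (hF : ∀ T ∈ F, T.1 = t ∧ u * N ^ (d + 2) ≤ #(KT X T)) :
    (#F : ℝ) ≤ N ^ (d + 6) / (u ^ 15 / C₂) ^ 16 := by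
  have a1 := (hSL2 V X 239 t F ht fun T h => (hF T h).1).trans hE2
  have a2 := (card_nsmul_le_sum F _ ((u * N ^ (d + 2)) ^ (239 + 1)) fun T h =>
    pow_le_pow_left₀ (by positivity) (hF T h).2 (239 + 1)).trans a1
  rw [nsmul_eq_mul] at a2
  obtain ⟨k, hk⟩ : ∃ k, k = N ^ (d + 2) := ⟨_, rfl⟩
  have hk0 : 0 < k := hk ▸ pow_pos hN0 _
  rw [show N ^ (2 * (d + 4)) = N ^ (d + 6) * k by rw [hk]; ring, ← hk] at a2
  have a3 : #F * u ^ 240 ≤ C₂ * N ^ (d + 6) :=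
    le_of_mul_le_mul_right (a := k ^ 240) (le_of_eq_of_le (by ring) (a2.trans_eq (by ring)))
      (pow_pos hk0 240)
  rw [div_pow, div_div_eq_mul_div, le_div_iff₀ (by positivity), ← pow_mul, mul_comm (N ^ _)]
  exact a3.trans (mul_le_mul_of_nonneg_right (le_self_pow₀ h2 (by norm_num)) (by positivity))

end XTRIP

open XTRIP in
theorem p_TRIP (hSL2 : S_SL2) (hSL3 : S_SL3) (hZB : S_ZB) : S_TRIP := by
  intro C₂ h2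
  obtain ⟨C, hC, hZB⟩ := hZB
  obtain ⟨D, hD⟩ : ∃ D, D = 4 * (C * (3 + C₂ ^ 8)) + 2 ^ 34 * C₂ := ⟨_, rfl⟩
  have hD1 : 1 ≤ D := by
    have : 0 ≤ C * (3 + C₂ ^ 8) := by positivity
    linarith
  refine ⟨2 * D * C₂ ^ 2, one_le_mul_of_one_le_of_one_le (by linarith) (one_le_pow₀ h2), ?_⟩
  intro d V _ _ X 𝒯 N u hd hN hu hX hL hM hB hT
  obtain ⟨d, rfl⟩ : ∃ e, d = e + 4 := ⟨d - 4, by omega⟩
  obtain ⟨hE2, hE3⟩ := hM
  rw [show d + 4 - 2 = d + 2 by omega] at hT hE2 ⊢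
  rw [show d + 4 - 4 = d by omega] at hE3
  rw [show 4 * (d + 4) - 4 = 4 * d + 12 by omega]
  have hN0 : 0 < N := by linarith
  have hu0 : 0 < u := by linarith
  have hC0 : 0 < C₂ := by linarith
  let ρ : ℝ × V → Prop := fun T => u * N ^ (d + 2) ≤ #(KT X T)
  have hw : 0 < u ^ 15 / C₂ := by positivity
  have hrich : ∀ T ∈ 𝒯, ρ T → cls 𝒯 ρ T ≤ N ^ (d + 6) / (u ^ 15 / C₂) ^ 16 := fun T h r =>
    rich hSL2 h2 hN0 hu0 hE2 _ (hT T h).1 fun T' h' =>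
      ⟨(mem_filter.1 h').2.1, (mem_filter.1 h').2.2.2 r⟩
  set Z := {p ∈ 𝒯 ×ˢ 𝒯 | dv p.2 p.1 ∈ 𝒯 ∧ (ρ p.1 ∨ ρ p.2 ∨ ρ (dv p.2 p.1))} with hZ
  have hex : ∀ p ∈ Z, ∃ a : ℕ, p.1 ∈ 𝒯 ∧ p.2 ∈ 𝒯 ∧ dv p.2 p.1 ∈ 𝒯 ∧
      (cls 𝒯 ρ p.1 ≤ N ^ (d + 6) / (2 ^ a * (u ^ 15 / C₂)) ^ 16 ∨
        cls 𝒯 ρ p.2 ≤ N ^ (d + 6) / (2 ^ a * (u ^ 15 / C₂)) ^ 16 ∨
        cls 𝒯 ρ (dv p.2 p.1) ≤ N ^ (d + 6) / (2 ^ a * (u ^ 15 / C₂)) ^ 16) ∧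
      N ^ (d + 6) / (2 * (2 ^ a * (u ^ 15 / C₂))) ^ 16 ≤ cls 𝒯 ρ p.1 ∧
      N ^ (d + 6) / (2 * (2 ^ a * (u ^ 15 / C₂))) ^ 16 ≤ cls 𝒯 ρ p.2 := fun p hp => by
    obtain ⟨a0, a3, a4⟩ := mem_filter.1 hp
    obtain ⟨a1, a2⟩ := mem_product.1 a0
    obtain ⟨a, b1, b2⟩ := scale (P := N ^ (d + 6))
      (m := min (cls 𝒯 ρ p.1) (min (cls 𝒯 ρ p.2) (cls 𝒯 ρ (dv p.2 p.1)))) hw
      (le_min (cls_one ρ a1) (le_min (cls_one ρ a2) (cls_one ρ a3)))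
      (min_le_iff.2 (a4.imp (hrich _ a1) fun a => min_le_iff.2 (a.imp (hrich _ a2) (hrich _ a3))))
    exact ⟨a, a1, a2, a3, (min_le_iff.1 b1).imp_right min_le_iff.1, (le_min_iff.1 b2).1,
      (le_min_iff.1 (le_min_iff.1 b2).2).1⟩
  choose! g hg using hex
  rw [← sum_fiberwise_of_maps_to (t := range (Z.sup g + 1)) (g := g)
    fun p hp => mem_range.2 (Nat.lt_succ_of_le (le_sup hp))]
  calc _ ≤ ∑ a ∈ range (Z.sup g + 1), D * C₂ ^ 2 * N ^ (4 * d + 12) / u ^ 8 * (1 / 2) ^ a := by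
        refine sum_le_sum fun a _ => (level hSL3
          (fun 𝒜 B κ k => hZB V 𝒯 𝒜 B κ k fun T h => ⟨(hT T h).1, (hT T h).2.1⟩) hC h2 hN hu
          (w := 2 ^ a * (u ^ 15 / C₂)) (by positivity) ?_ hX hL hE3 hB
          (fun T h => ⟨(hT T h).1, (hT T h).2.2⟩) ρ _ fun p hp => ?_).trans ?_
        · rw [mul_left_comm, mul_div_cancel₀ _ hC0.ne']
          exact one_le_mul_of_one_le_of_one_le (one_le_pow₀ one_le_two) (one_le_pow₀ hu)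
        · obtain ⟨b1, rfl⟩ := mem_filter.1 hp
          exact hg p b1
        · rw [← hD]
          obtain ⟨y, hy⟩ : ∃ y : ℝ, y = 2 ^ a := ⟨_, rfl⟩
          have hy1 : 1 ≤ y := hy ▸ one_le_pow₀ one_le_two
          rw [one_div_pow, ← hy, show D * u ^ 22 * N ^ (4 * d + 12) / (y * (u ^ 15 / C₂)) ^ 2 =
            D * C₂ ^ 2 * N ^ (4 * d + 12) / u ^ 8 * (1 / y ^ 2) by field_simp]
          gcongr
          exact le_self_pow₀ hy1 (by norm_num)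
    _ ≤ D * C₂ ^ 2 * N ^ (4 * d + 12) / u ^ 8 * 2 := by
        rw [← mul_sum]
        exact mul_le_mul_of_nonneg_left (sum_geometric_two_le _) (by positivity)
    _ = _ := by ring

end Pool.Agent.P.MP_5f07f1_co.Z
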