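import Pool.Agent.P.MP_5f07f1_co.ZDefs

/-! Rich flats of codimension two, sliced by coloured sets. -/

namespace Pool.Agent.P.MP_5f07f1_co.Z

open Finset MvPolynomial Pool.Agent.Lib.PolyPart Classical Module

namespace XTWO

lemma ar1 (n a e : ℕ) (he : e < n + 2) (N L M s : ℝ) (hN : 1 ≤ N) (hs : 1 ≤ s)
    (hM : 0 < M) (h7 : N ^ 7 ≤ M ^ (n + 4)) (hLa : L ^ (a + 4) ≤ N) :
    L ^ a * ((L ^ 2 * N ^ (n + 4 - e)) ^ 2 * N ^ (n + 4) * M ^ ((n + 4) * e) /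
      (s * N ^ n * (M / N) ^ (n + 2)) ^ (n + 4)) ≤ N ^ (3 * (n + 4)) / s ^ (n + 1) := by
  obtain ⟨k, hk⟩ : ∃ k, n + 2 = e + k + 1 := ⟨n + 1 - e, by omega⟩
  have hN0 : 0 < N := by linarith
  have hs0 : 0 < s := by linarith
  have e1 : n + 4 - e = k + 3 := by omega
  have e2 : s * N ^ n * (M / N) ^ (n + 2) = s * M ^ (n + 2) / N ^ 2 := by
    rw [div_pow]; field_simp; ring
  have e3 : (M ^ (n + 2)) ^ (n + 4) = M ^ ((n + 4) * e) * (M ^ (n + 4)) ^ (k + 1) := by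
    rw [← pow_mul, ← pow_mul, ← pow_add, hk]; congr 1
    have : n + 4 = e + k + 3 := by omega
    rw [this]; ring
  have e4 : L ^ a * ((L ^ 2 * N ^ (n + 4 - e)) ^ 2 * N ^ (n + 4) * M ^ ((n + 4) * e) /
      (s * N ^ n * (M / N) ^ (n + 2)) ^ (n + 4)) =
      L ^ (a + 4) * N ^ (2 * k + 6) / (M ^ (n + 4)) ^ (k + 1) * (N ^ (3 * (n + 4)) / s ^ (n + 4)) := by
    rw [e1, e2, div_pow, mul_pow s, e3]; field_simp; ring
  rw [e4]
  have h1 : L ^ (a + 4) * N ^ (2 * k + 6) / (M ^ (n + 4)) ^ (k + 1) ≤ 1 := by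
    rw [div_le_one (by positivity)]
    calc L ^ (a + 4) * N ^ (2 * k + 6) ≤ N * N ^ (2 * k + 6) := by gcongr
      _ = N ^ (2 * k + 7) := by ring
      _ ≤ N ^ (7 * (k + 1)) := pow_le_pow_right₀ hN (by omega)
      _ = (N ^ 7) ^ (k + 1) := pow_mul _ _ _
      _ ≤ _ := by gcongr
  have h2 : N ^ (3 * (n + 4)) / s ^ (n + 4) ≤ N ^ (3 * (n + 4)) / s ^ (n + 1) :=
    div_le_div_of_nonneg_left (by positivity) (by positivity) (pow_le_pow_right₀ hs (by omega))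
  calc _ ≤ 1 * (N ^ (3 * (n + 4)) / s ^ (n + 4)) := by gcongr
    _ ≤ _ := by rw [one_mul]; exact h2

lemma ar2 (n a e : ℕ) (he : e < n + 2) (N L M M₁ s w C : ℝ) (hN : 1 ≤ N) (hL : 1 ≤ L) (hs : 1 ≤ s)
    (hM : 0 < M) (hM₁ : 0 < M₁) (hw : 0 ≤ w) (hC : 0 < C)
    (hq : L ^ a * (2 * C * M₁ ^ 2 * N ^ 2) ≤ M ^ (n + 4)) :
    L ^ a * (w * (2 * M₁ ^ (n + 4) / (s * N ^ n * (M₁ / N) ^ (n + 2) / C)) ^ (n + 2 - e) *
      N ^ (n + 4) * M ^ ((n + 4) * e) /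
      (s * N ^ n * (M₁ / N) ^ (n + 2) / C * (M / M₁) ^ (n + 2)) ^ (n + 4)) ≤
      w * C ^ (n + 4) * (N ^ (3 * (n + 4)) / s ^ (n + 1)) := by
  obtain ⟨k, hk⟩ : ∃ k, n + 2 = e + k + 1 := ⟨n + 1 - e, by omega⟩
  have hN0 : 0 < N := by linarith
  have hs0 : 0 < s := by linarith
  have e1 : n + 2 - e = k + 1 := by omega
  have e2 : s * N ^ n * (M₁ / N) ^ (n + 2) / C * (M / M₁) ^ (n + 2) =
      s * M ^ (n + 2) / (N ^ 2 * C) := by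
    rw [div_pow, div_pow]; field_simp; ring
  have e2' : 2 * M₁ ^ (n + 4) / (s * N ^ n * (M₁ / N) ^ (n + 2) / C) =
      2 * C * M₁ ^ 2 * N ^ 2 / s := by
    rw [div_pow]; field_simp; ring
  have e3 : (M ^ (n + 2)) ^ (n + 4) = M ^ ((n + 4) * e) * (M ^ (n + 4)) ^ (k + 1) := by
    rw [← pow_mul, ← pow_mul, ← pow_add, hk]; congr 1
    have : n + 4 = e + k + 3 := by omega
    rw [this]; ring
  set q := 2 * C * M₁ ^ 2 * N ^ 2 with hqd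
  have hq0 : 0 < q := by positivity
  have e4 : L ^ a * (w * (q / s) ^ (k + 1) * N ^ (n + 4) * M ^ ((n + 4) * e) /
      (s * M ^ (n + 2) / (N ^ 2 * C)) ^ (n + 4)) =
      L ^ a * (q / M ^ (n + 4)) ^ (k + 1) *
        (w * C ^ (n + 4) * (N ^ (3 * (n + 4)) / s ^ (n + 4 + (k + 1)))) := by
    rw [div_pow (s * _), mul_pow s, e3, div_pow, div_pow, mul_pow (N ^ 2), pow_add s (n + 4)]
    field_simp; ring
  rw [e1, e2, e2', e4]
  have hLa : 1 ≤ L ^ a := one_le_pow₀ hL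
  have h0 : L ^ a * (q / M ^ (n + 4)) ≤ 1 := by
    rw [← mul_div_assoc, div_le_one (by positivity)]; exact hq
  have hr0 : 0 ≤ q / M ^ (n + 4) := by positivity
  have hr1 : q / M ^ (n + 4) ≤ 1 := by nlinarith
  have h1 : L ^ a * (q / M ^ (n + 4)) ^ (k + 1) ≤ 1 := by
    have : (q / M ^ (n + 4)) ^ (k + 1) ≤ q / M ^ (n + 4) := pow_le_of_le_one hr0 hr1 (by omega)
    calc _ ≤ L ^ a * (q / M ^ (n + 4)) := by gcongr
      _ ≤ 1 := h0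
  have h2 : N ^ (3 * (n + 4)) / s ^ (n + 4 + (k + 1)) ≤ N ^ (3 * (n + 4)) / s ^ (n + 1) :=
    div_le_div_of_nonneg_left (by positivity) (by positivity) (pow_le_pow_right₀ hs (by omega))
  calc _ ≤ 1 * (w * C ^ (n + 4) * (N ^ (3 * (n + 4)) / s ^ (n + 4 + (k + 1)))) := by gcongr
    _ ≤ _ := by rw [one_mul]; gcongr

lemma ar3 (n : ℕ) (N M M₁ s y C σ : ℝ) (hN : 1 ≤ N) (hs : 1 ≤ s) (hy : 1 ≤ y)
    (hM : 1 ≤ M) (hM₁ : 0 < M₁) (hC : 1 ≤ C) (hσ0 : 0 ≤ σ) (hσ : σ ≤ y * M ^ (n + 3) / N)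
    (h3 : M ^ (n + 4) ≤ N ^ 3) :
    σ ^ (n + 1 + 2) / (s * N ^ n * (M₁ / N) ^ (n + 2) / C * (M / M₁) ^ (n + 2) / C) ^ (n + 1 + 2) +
      σ ^ (n + 1 + 1) / (s * N ^ n * (M₁ / N) ^ (n + 2) / C * (M / M₁) ^ (n + 2) / C) ^ (n + 1) ≤
      σ * (2 * C ^ (2 * (n + 3)) * y ^ (n + 2) * N ^ (n + 4) / s ^ (n + 1)) := by
  have hN0 : 0 < N := by linarith
  have hs0 : 0 < s := by linarith
  have hM0 : 0 < M := by linarith
  have hC0 : 0 < C := by linarith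
  have hy0 : 0 < y := by linarith
  have e2 : s * N ^ n * (M₁ / N) ^ (n + 2) / C * (M / M₁) ^ (n + 2) / C =
      s * M ^ (n + 2) / (N ^ 2 * C ^ 2) := by
    rw [div_pow, div_pow]; field_simp; ring
  rw [e2]
  set a := s * M ^ (n + 2) / (N ^ 2 * C ^ 2) with ha
  set b := y * M ^ (n + 3) / N with hb
  have ha0 : 0 < a := by positivity
  have h1 : σ ^ (n + 1 + 2) / a ^ (n + 1 + 2) ≤
      σ * (C ^ (2 * (n + 3)) * y ^ (n + 2) * N ^ (n + 4) / s ^ (n + 1)) := by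
    have e : b ^ (n + 2) / a ^ (n + 1 + 2) =
        C ^ (2 * (n + 3)) * y ^ (n + 2) * N ^ (n + 4) / s ^ (n + 3) := by
      rw [ha, hb, div_pow, div_pow, mul_pow, mul_pow, mul_pow]; field_simp; ring
    calc σ ^ (n + 1 + 2) / a ^ (n + 1 + 2) = σ * (σ ^ (n + 2) / a ^ (n + 1 + 2)) := by ring
      _ ≤ σ * (b ^ (n + 2) / a ^ (n + 1 + 2)) := by gcongr
      _ ≤ _ := by
        rw [e]
        exact mul_le_mul_of_nonneg_left (div_le_div_of_nonneg_left (by positivity) (by positivity)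
          (pow_le_pow_right₀ hs (by omega))) hσ0
  have h2 : σ ^ (n + 1 + 1) / a ^ (n + 1) ≤
      σ * (C ^ (2 * (n + 3)) * y ^ (n + 2) * N ^ (n + 4) / s ^ (n + 1)) := by
    have e : b ^ (n + 1) / a ^ (n + 1) =
        C ^ (2 * (n + 1)) * y ^ (n + 1) * (M ^ (n + 1) * N ^ (n + 1)) / s ^ (n + 1) := by
      rw [ha, hb, div_pow, div_pow, mul_pow, mul_pow, mul_pow]; field_simp; ring
    have hMN : M ^ (n + 1) * N ^ (n + 1) ≤ N ^ (n + 4) := by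
      calc M ^ (n + 1) * N ^ (n + 1) ≤ N ^ 3 * N ^ (n + 1) :=
            mul_le_mul_of_nonneg_right ((pow_le_pow_right₀ hM (by omega)).trans h3) (by positivity)
        _ = _ := by ring
    have hC' : C ^ (2 * (n + 1)) ≤ C ^ (2 * (n + 3)) := pow_le_pow_right₀ hC (by omega)
    have hy' : y ^ (n + 1) ≤ y ^ (n + 2) := pow_le_pow_right₀ hy (by omega)
    calc σ ^ (n + 1 + 1) / a ^ (n + 1) = σ * (σ ^ (n + 1) / a ^ (n + 1)) := by ring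
      _ ≤ σ * (b ^ (n + 1) / a ^ (n + 1)) := by gcongr
      _ ≤ _ := by rw [e]; gcongr
  calc _ ≤ _ := add_le_add h1 h2
    _ = _ := by ring

lemma card_le_w {α V ι ι' : Type} [AddCommGroup V] [Module ℝ V] {I : Finset ι}
    {U : ι → Submodule ℝ V} {Y : ι → Finset α} {w : ℝ} (hM : Mlt I U Y w) (x : α)
    (F : Submodule ℝ V) (S : Finset ι') (π : ι' → ι)
    (h1 : ∀ p ∈ S, π p ∈ I ∧ x ∈ Y (π p) ∧ U (π p) = F)
    (h2 : ∀ p ∈ S, ∀ q ∈ S, π p = π q → p = q) : (#S : ℝ) ≤ w :=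
  le_trans (Nat.cast_le.2 (card_le_card_of_injOn π
    (fun p hp => mem_coe.2 (mem_filter.2 (h1 p hp))) fun p hp q hq h => h2 p hp q hq h)) (hM x F)

lemma mlt_of {α V ι ι' : Type} [AddCommGroup V] [Module ℝ V] {I : Finset ι}
    {U : ι → Submodule ℝ V} {Y : ι → Finset α} {w : ℝ} (hM : Mlt I U Y w) (J : Finset ι')
    (π : ι' → ι) (Y' : ι' → Finset α) (h1 : ∀ p ∈ J, π p ∈ I ∧ Y' p ⊆ Y (π p))
    (h2 : ∀ x, ∀ p ∈ J, ∀ q ∈ J, x ∈ Y' p → x ∈ Y' q → π p = π q → p = q) :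
    Mlt J (fun p => U (π p)) Y' w := fun x F =>
  card_le_w hM x F _ π
    (fun p hp => by
      obtain ⟨a1, a2, a3⟩ := mem_filter.1 hp
      exact ⟨(h1 p a1).1, (h1 p a1).2 a2, a3⟩)
    fun p hp q hq h => h2 x p (mem_filter.1 hp).1 q (mem_filter.1 hq).1 (mem_filter.1 hp).2.1
      (mem_filter.1 hq).2.1 h

lemma mult (hP : S_PEN) {d : ℕ} {ι : Type} (I : Finset ι) (U : ι → Submodule ℝ (ℝ × E d))
    (Y : ι → Finset (E d)) (w : ℝ) (hw : 0 ≤ w) (hM : Mlt I U Y w) (Q : Finset (E d))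
    (l : E d → Lab d) (σ a : ℝ) (ha : 0 < a) (hs : ∀ b, (#{z ∈ Q | l z = b} : ℝ) ≤ σ)
    (J : Finset (ι × Lab d)) (Y' : ι × Lab d → Finset (E d)) (k : ℕ)
    (F : Submodule ℝ (ℝ × E d)) (x : E d)
    (hJ : ∀ p ∈ J, p.1 ∈ I ∧ Y' p ⊆ Y p.1 ∧ Y' p ⊆ Q ∧ (∀ y ∈ Y' p, l y = p.2) ∧
      ND (1 / 2) hm (U p.1) (Y' p) ∧ a ≤ #(Y' p) ∧ finrank ℝ (U p.1) = finrank ℝ F + k) :
    (#{p ∈ J | x ∈ Y' p ∧ F ≤ U p.1} : ℝ) ≤ w * (2 * σ / a) ^ k := by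
  set S := {p ∈ J | x ∈ Y' p ∧ F ≤ U p.1} with hS
  have hmem : ∀ p ∈ S, p ∈ J ∧ x ∈ Y' p ∧ F ≤ U p.1 := fun p hp => by
    simpa [hS] using hp
  rcases S.eq_empty_or_nonempty with h0 | ⟨p₀, -⟩
  · have : 0 ≤ σ := (Nat.cast_nonneg _).trans (hs [])
    rw [h0, card_empty, Nat.cast_zero]; positivity
  have : Nonempty (ι × Lab d) := ⟨p₀⟩
  have hex : ∀ V ∈ S.image (fun p => U p.1), ∃ p ∈ S, U p.1 = V := fun V hV => mem_image.1 hV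
  choose! rep hrep hrepU using hex
  have h𝒰 : (#(S.image fun p => U p.1) : ℝ) ≤ (2 * σ / a) ^ k := by
    refine hP (E d) (ℝ × E d) hm {z ∈ Q | l z = l x} k F (S.image fun p => U p.1)
      (fun V => Y' (rep V)) σ a (hs _) ha fun V hV => ?_
    obtain ⟨h1, h2, h3⟩ := hmem _ (hrep V hV)
    obtain ⟨-, -, j3, j4, j5, j6, j7⟩ := hJ _ h1
    rw [hrepU V hV] at h3 j5 j7
    refine ⟨h3, j7, fun z hz => mem_filter.2 ⟨j3 hz, ?_⟩, j5, j6⟩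
    rw [j4 z hz, j4 x h2]
  have hfib : ∀ V ∈ S.image (fun p => U p.1), (#{p ∈ S | U p.1 = V} : ℝ) ≤ w := by
    intro V _
    refine card_le_w hM x V _ Prod.fst (fun p hp => ?_) fun p hp q hq h => ?_
    · obtain ⟨hp1, hp2⟩ := mem_filter.1 hp
      obtain ⟨h1, h2, -⟩ := hmem p hp1
      exact ⟨(hJ p h1).1, (hJ p h1).2.1 h2, hp2⟩
    · obtain ⟨h1, h2, -⟩ := hmem p (mem_filter.1 hp).1
      obtain ⟨h3, h4, -⟩ := hmem q (mem_filter.1 hq).1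
      exact Prod.ext h (((hJ p h1).2.2.2.1 x h2).symm.trans ((hJ q h3).2.2.2.1 x h4))
  calc (#S : ℝ) = ∑ V ∈ S.image (fun p => U p.1), (#{p ∈ S | U p.1 = V} : ℝ) := by
        rw [card_eq_sum_card_image (fun p => U p.1) S]; push_cast; rfl
    _ ≤ ∑ V ∈ S.image (fun p => U p.1), w := sum_le_sum hfib
    _ = w * #(S.image fun p => U p.1) := by rw [sum_const, nsmul_eq_mul, mul_comm]
    _ ≤ _ := mul_le_mul_of_nonneg_left h𝒰 hw

end XTWO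

open XTWO in
theorem p_TWO (hMAS : S_MAS) (hETW : S_ETW) (hPEN : S_PEN) : S_TWO := by
  intro d hd
  obtain ⟨n, rfl⟩ : ∃ n, d = n + 4 := ⟨d - 4, by omega⟩
  obtain ⟨γ, CE, hγ, hγ2, hCE, hE⟩ := hETW (n + 1)
  obtain ⟨a₁, K₁, h1⟩ := hMAS (n + 4) γ hγ hγ2
  refine ⟨K₁ + (2 * a₁ + 2) * (n + 4) + (a₁ + 4), fun C => ?_⟩
  obtain ⟨C₁, hC₁, h1⟩ := h1 C
  have hC0 : 0 < C₁ := by linarith
  have hp1 : 0 ≤ 2 * CE * C₁ ^ (2 * (n + 3) + 2) := by positivity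
  have hp2 : 0 ≤ ((n : ℝ) + 2) * C₁ ^ (n + 5) := by positivity
  have hp3 : 0 ≤ (n : ℝ) + 2 := by positivity
  refine ⟨2 * CE * C₁ ^ (2 * (n + 3) + 2) + (n + 2) * C₁ ^ (n + 5) + (n + 2) + 2 * C₁,
    by linarith, fun g hg => ?_⟩
  have hmas := h1 g (hg.mono (by omega) (by linarith))
  intro ι β I U Y κ B A i s w y hi h5 h3 hs hw hy hI hA hsum hM hdeg
  simp only [show n + 4 - 1 = n + 3 from rfl, show n + 4 - 2 = n + 2 from rfl,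
    show n + 4 - 3 = n + 1 from rfl, show n + 4 - 4 = n from rfl] at hI hA ⊢
  have hN := hg.N1
  have hL := hg.L1
  have hN0 : 0 < g.N := by linarith
  have hs0 : 0 < s := by linarith
  have hbig : 2 * C₁ ≤ g.L := by have := hg.big; linarith
  have hMi := hg.M1 hi
  -- the intermediate level
  have hmul : n + 4 ≤ (2 * a₁ + 2) * (n + 4) := Nat.le_mul_of_pos_left _ (by omega)
  have hLd : g.L ^ (n + 4) ≤ g.N := hg.pow_le (by omega)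
  have hN2 : 1 < g.N := by
    have : g.L ^ 1 ≤ g.N := hg.pow_le (by omega)
    rw [pow_one] at this; linarith
  obtain ⟨i₁, hi₁, h7, h8⟩ : ∃ i₁ ≤ g.r, g.N ^ 7 ≤ g.M i₁ ^ (n + 4) ∧ g.M i₁ ^ (n + 4) ≤ g.N ^ 8 := by
    have hX0 : 0 ≤ (g.N ^ 7) ^ (((n + 4 : ℕ) : ℝ)⁻¹) := by positivity
    have hX : ((g.N ^ 7) ^ (((n + 4 : ℕ) : ℝ)⁻¹)) ^ (n + 4) = g.N ^ 7 :=
      Real.rpow_inv_natCast_pow (by positivity) (by omega)
    set X := (g.N ^ 7) ^ (((n + 4 : ℕ) : ℝ)⁻¹)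
    have a1 : g.L ≤ X := by
      refine le_of_pow_le_pow_left₀ (n := n + 4) (by omega) hX0 ?_
      rw [hX]; exact hLd.trans (le_self_pow₀ hN (by omega))
    have a2 : X ≤ g.N := by
      refine le_of_pow_le_pow_left₀ (n := n + 4) (by omega) hN0.le ?_
      rw [hX]; exact pow_le_pow_right₀ hN (by omega)
    obtain ⟨j, hj, b1, b2⟩ := hg.lev X a1 a2
    refine ⟨j, hj, by rw [← hX]; gcongr, ?_⟩
    have := hg.M1 hj
    calc g.M j ^ (n + 4) ≤ (g.L * X) ^ (n + 4) := by gcongr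
      _ = g.L ^ (n + 4) * g.N ^ 7 := by rw [mul_pow, hX]
      _ ≤ g.N * g.N ^ 7 := by gcongr
      _ = _ := by ring
  have hM₁ := hg.M1 hi₁
  have hM₁0 : 0 < g.M i₁ := by linarith
  have hMi0 : 0 < g.M i := by linarith
  have hii : i₁ ≤ i := by
    by_contra hc
    have a1 : g.M i₁ ≤ g.M i := hg.anti i i₁ (by omega) hi₁
    have a2 : g.M i₁ ^ (n + 4) ≤ g.M i ^ (n + 4) := by gcongr
    have a3 : g.N ^ 3 < g.N ^ 7 := pow_lt_pow_right₀ hN2 (by omega)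
    linarith
  have hq : g.L ^ a₁ * (2 * C₁ * g.M i₁ ^ 2 * g.N ^ 2) ≤ g.M i ^ (n + 4) := by
    have a1 : g.L ^ (2 * a₁ + 2) * g.M i₁ ^ 4 ≤ g.N := by
      refine le_of_pow_le_pow_left₀ (n := n + 4) (by omega) hN0.le ?_
      calc (g.L ^ (2 * a₁ + 2) * g.M i₁ ^ 4) ^ (n + 4)
          = g.L ^ ((2 * a₁ + 2) * (n + 4)) * (g.M i₁ ^ (n + 4)) ^ 4 := by
            rw [mul_pow, ← pow_mul, ← pow_mul, ← pow_mul, mul_comm 4]
        _ ≤ g.N * (g.N ^ 8) ^ 4 := mul_le_mul (hg.pow_le (by omega)) (by gcongr) (by positivity) hN0.le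
        _ = g.N ^ 33 := by ring
        _ ≤ _ := pow_le_pow_right₀ hN (by omega)
    refine le_of_pow_le_pow_left₀ (n := 2) (by omega) (by positivity) ?_
    calc (g.L ^ a₁ * (2 * C₁ * g.M i₁ ^ 2 * g.N ^ 2)) ^ 2
        ≤ (g.L ^ a₁ * (g.L * g.M i₁ ^ 2 * g.N ^ 2)) ^ 2 := by gcongr
      _ = g.L ^ (2 * a₁ + 2) * g.M i₁ ^ 4 * g.N ^ 4 := by ring
      _ ≤ g.N * g.N ^ 4 := by gcongr
      _ = g.N ^ 5 := by ring
      _ ≤ _ := by rw [← pow_mul, mul_comm (n + 4)]; exact h5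
  -- first localisation
  obtain ⟨J₁, Y₁, hJ₁, hs₁⟩ := hmas ι I U Y (n + 2) 0 i₁ (s * g.N ^ n)
    (fun e => (g.L ^ 2 * g.N ^ (n + 4 - e)) ^ 2) (Nat.zero_le _) hi₁ (by positivity)
    (fun p hp => by
      obtain ⟨a1, a2, -, a4, a5⟩ := hI p hp
      refine ⟨a1, a2, ?_, fun x hx => (a4 x hx).1, a5⟩
      rcases (Y p).eq_empty_or_nonempty with h | ⟨x, hx⟩
      · exact ⟨[], fun z hz => by simp [h] at hz⟩
      · exact ⟨g.l 0 x, fun z hz => hg.root z (a2 hz) x (a2 hx)⟩)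
    (fun e _ => ⟨by positivity, fun x F hF hx => hdeg e x F hF hx⟩)
  rw [hg.top] at hJ₁ hs₁
  have ha₁ : 0 < s * g.N ^ n * (g.M i₁ / g.N) ^ (n + 2) / C₁ := by positivity
  -- second localisation
  obtain ⟨J₂, Y₂, hJ₂, hs₂⟩ := hmas (ι × Lab (n + 4)) J₁ (fun p => U p.1) Y₁ (n + 2) i₁ i
    (s * g.N ^ n * (g.M i₁ / g.N) ^ (n + 2) / C₁)
    (fun e => w * (2 * g.M i₁ ^ (n + 4) / (s * g.N ^ n * (g.M i₁ / g.N) ^ (n + 2) / C₁)) ^ (n + 2 - e))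
    hii hi ha₁
    (fun p hp => by
      obtain ⟨a1, a2, a3, a4, a5⟩ := hJ₁ p hp
      exact ⟨(hI _ a1).1, a2.trans (hI _ a1).2.1, ⟨p.2, a3⟩, a4.1, a5⟩)
    (fun e he => ⟨by positivity, fun x F hF _ =>
      mult hPEN I U Y w hw hM g.Q (g.l i₁) _ _ ha₁ (hg.size i₁ hi₁) J₁ Y₁ (n + 2 - e) F x
        fun p hp => by
          obtain ⟨a1, a2, a3, a4, a5⟩ := hJ₁ p hp
          refine ⟨a1, a2, a2.trans (hI _ a1).2.1, a3, a4.mono hγ2, a5, ?_⟩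
          rw [(hI _ a1).1, hF]; omega⟩)
  have ha₂ : 0 < s * g.N ^ n * (g.M i₁ / g.N) ^ (n + 2) / C₁ * (g.M i / g.M i₁) ^ (n + 2) / C₁ := by
    positivity
  set T := g.N ^ (3 * (n + 4)) / s ^ (n + 1) with hT
  have hT0 : 0 ≤ T := by positivity
  set R := 2 * C₁ ^ (2 * (n + 3)) * y ^ (n + 2) * g.N ^ (n + 4) / s ^ (n + 1) with hR
  have hR0 : 0 ≤ R := by positivity
  -- the main term, colour by colour and cell by cell
  have hcell : ∀ (t : β × Lab (n + 4)) (Jt : Finset ((ι × Lab (n + 4)) × Lab (n + 4))),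
      (∀ p ∈ Jt, p ∈ J₂ ∧ κ p.1.1 = t.1 ∧ p.2 = t.2) →
      (∑ p ∈ Jt, (#(Y₂ p) : ℝ)) ≤ CE * w * R * #(A t.1 t.2) := by
    intro t Jt hmem
    have hMl : Mlt Jt (fun p => U p.1.1) Y₂ w :=
      mlt_of hM Jt (fun p => p.1.1) Y₂
        (fun p hp => by
          obtain ⟨a1, a2, -⟩ := hJ₂ p (hmem p hp).1
          obtain ⟨c1, c2, -⟩ := hJ₁ _ a1
          exact ⟨c1, a2.trans c2⟩)
        fun x p hp q hq hp2 hq2 h => by
          obtain ⟨a1, a2, a3, -⟩ := hJ₂ p (hmem p hp).1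
          obtain ⟨b1, b2, b3, -⟩ := hJ₂ q (hmem q hq).1
          exact Prod.ext (Prod.ext h (((hJ₁ _ a1).2.2.1 x (a2 hp2)).symm.trans
            ((hJ₁ _ b1).2.2.1 x (b2 hq2)))) ((a3 x hp2).symm.trans (b3 x hq2))
    have := hE (n + 1) le_rfl (E (n + 4)) (ℝ × E (n + 4)) ((ι × Lab (n + 4)) × Lab (n + 4)) hm
      (A t.1 t.2) Jt (fun p => U p.1.1) Y₂ (#(A t.1 t.2)) _ w (np_hm _) le_rfl ha₂ hw
      (fun p hp => by
        obtain ⟨b1, b2, b3⟩ := hmem p hp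
        obtain ⟨a1, a2, a3, a4, a5⟩ := hJ₂ p b1
        obtain ⟨c1, c2, -⟩ := hJ₁ _ a1
        refine ⟨(hI _ c1).1, fun x hx => ?_, a4, a5⟩
        have := ((hI _ c1).2.2.2.1 x (c2 (a2 hx))).2
        rwa [b2, a3 x hx, b3] at this) hMl
    refine this.trans ?_
    have h := ar3 n g.N (g.M i) (g.M i₁) s y C₁ (#(A t.1 t.2)) hN hs hy hMi hM₁0 hC₁
      (Nat.cast_nonneg _) (hA _ _) h3
    calc _ ≤ CE * w * (#(A t.1 t.2) * R) := mul_le_mul_of_nonneg_left h (by positivity)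
      _ = _ := by ring
  have hmain : (∑ p ∈ J₂, (#(Y₂ p) : ℝ)) ≤ 2 * CE * C₁ ^ (2 * (n + 3)) * (w * y ^ (n + 2) * T) := by
    have hmap : ∀ p ∈ J₂, (κ p.1.1, p.2) ∈ B ×ˢ g.Q.image (g.l i) := by
      intro p hp
      obtain ⟨a1, a2, a3, -, a5⟩ := hJ₂ p hp
      obtain ⟨c1, c2, -⟩ := hJ₁ _ a1
      obtain ⟨x, hx⟩ : (Y₂ p).Nonempty := card_pos.1 (by exact_mod_cast ha₂.trans_le a5)
      exact mem_product.2 ⟨(hI _ c1).2.2.1, mem_image.2 ⟨x, (hI _ c1).2.1 (c2 (a2 hx)), a3 x hx⟩⟩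
    rw [← sum_fiberwise_of_maps_to hmap]
    refine (sum_le_sum fun t _ => hcell t _ fun p hp => ⟨(mem_filter.1 hp).1,
      congrArg Prod.fst (mem_filter.1 hp).2, congrArg Prod.snd (mem_filter.1 hp).2⟩).trans ?_
    rw [← mul_sum, sum_product]
    calc _ ≤ CE * w * R * g.N ^ (2 * (n + 4)) := mul_le_mul_of_nonneg_left hsum (by positivity)
      _ = _ := by rw [hR, hT]; ring
  have hy' : 1 ≤ y ^ (n + 2) := one_le_pow₀ hy
  have hd₁ : g.L ^ a₁ * ∑ e ∈ range (n + 2), (g.L ^ 2 * g.N ^ (n + 4 - e)) ^ 2 * g.N ^ (n + 4) *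
      g.M i₁ ^ ((n + 4) * e) / (s * g.N ^ n * (g.M i₁ / g.N) ^ (n + 2)) ^ (n + 4) ≤ (n + 2) * T := by
    rw [mul_sum]
    refine (sum_le_sum fun e he => ar1 n a₁ e (mem_range.1 he) g.N g.L (g.M i₁) s hN hs hM₁0 h7
      (hg.pow_le (by omega))).trans ?_
    rw [sum_const, card_range, nsmul_eq_mul]; push_cast; exact le_rfl
  have hd₂ := (sum_le_sum fun e he => ar2 n a₁ e (mem_range.1 he) g.N g.L (g.M i) (g.M i₁) s w C₁
    hN hL hs hMi0 hM₁0 hw hC0 hq : ∑ e ∈ range (n + 2), _ ≤ _)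
  rw [← mul_sum, sum_const, card_range, nsmul_eq_mul, ← hT] at hd₂
  push_cast at hd₂
  have hs₃ := hs₂.trans (add_le_add (mul_le_mul_of_nonneg_left hmain hC0.le) hd₂)
  have hs₄ := hs₁.trans (add_le_add (mul_le_mul_of_nonneg_left hs₃ hC0.le) hd₁)
  refine hs₄.trans ?_
  set Z := (w + 1) * y ^ (n + 2) * T with hZ
  have z1 : w * y ^ (n + 2) * T ≤ Z := by rw [hZ]; gcongr; linarith
  have z2 : w * T ≤ Z :=
    (mul_le_mul_of_nonneg_right (le_mul_of_one_le_right hw hy') hT0).trans z1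
  have z3 : T ≤ Z := by
    exact le_mul_of_one_le_left hT0 (one_le_mul_of_one_le_of_one_le (by linarith) hy')
  have hZ0 : 0 ≤ Z := hT0.trans z3
  calc _ = 2 * CE * C₁ ^ (2 * (n + 3) + 2) * (w * y ^ (n + 2) * T) +
        (n + 2) * C₁ ^ (n + 5) * (w * T) + (n + 2) * T := by ring
    _ ≤ 2 * CE * C₁ ^ (2 * (n + 3) + 2) * Z + (n + 2) * C₁ ^ (n + 5) * Z + (n + 2) * Z +
        2 * C₁ * Z := by
      have := mul_le_mul_of_nonneg_left z1 hp1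
      have := mul_le_mul_of_nonneg_left z2 hp2
      have := mul_le_mul_of_nonneg_left z3 hp3
      have : 0 ≤ 2 * C₁ * Z := by positivity
      linarith
    _ = _ := by rw [hZ, hT]; ring

end Pool.Agent.P.MP_5f07f1_co.Z
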