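import Pool.Agent.P.MP_5f07f1_co.ZDefs

namespace Pool.Agent.P.MP_5f07f1_co.Z

open Finset MvPolynomial Pool.Agent.Lib.PolyPart Classical Module

namespace XZB

lemma cs {α β : Type} [DecidableEq β] (Z : Finset α) (T : Finset β) (g : α → β) (h : ∀ z ∈ Z, g z ∈ T) :
    (#Z : ℝ) ^ 2 ≤ #T * #{q ∈ Z ×ˢ Z | g q.1 = g q.2} := by
  have e1 : (#Z : ℝ) = ∑ b ∈ T, (#{z ∈ Z | g z = b} : ℝ) := by
    rw [card_eq_sum_card_fiberwise (f := g) (t := T) fun z hz => h z hz, Nat.cast_sum]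
  have e2 : (#{q ∈ Z ×ˢ Z | g q.1 = g q.2} : ℝ) = ∑ b ∈ T, (#{z ∈ Z | g z = b} : ℝ) ^ 2 := by
    rw [card_eq_sum_card_fiberwise (f := fun q => g q.1) (t := T)
      fun q hq => h _ (mem_product.1 (mem_filter.1 (mem_coe.1 hq)).1).1, Nat.cast_sum]
    refine sum_congr rfl fun b _ => ?_
    rw [sq, ← Nat.cast_mul, ← card_product]
    refine congrArg (fun s : Finset (α × α) => (#s : ℝ)) (Finset.ext fun q => ?_)
    simp only [mem_filter, mem_product]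
    constructor
    · rintro ⟨⟨⟨a, c⟩, d⟩, e⟩
      exact ⟨⟨a, e⟩, c, d.symm.trans e⟩
    · rintro ⟨⟨a, e⟩, c, d⟩
      exact ⟨⟨⟨a, c⟩, e.trans d.symm⟩, e⟩
  rw [e1, e2]
  exact sq_sum_le_card_mul_sum_sq

variable {V : Type} [AddCommGroup V] [Module ℝ V]

lemma hinv_hinv {T : ℝ × V} (h : T.1 ≠ 0) : hinv (hinv T) = T := by
  refine Prod.ext (inv_inv _) ?_
  change -(T.1⁻¹⁻¹ • -(T.1⁻¹ • T.2)) = T.2
  rw [inv_inv, smul_neg, neg_neg, smul_inv_smul₀ h]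

lemma dv_swap {T T' : ℝ × V} (h : T.1 ≠ 0) (h' : T'.1 ≠ 0) : dv T T' = hinv (dv T' T) := by
  refine Prod.ext (inv_div _ _).symm ?_
  change T.2 - (T.1 / T'.1) • T'.2 = -((T'.1 / T.1)⁻¹ • (T'.2 - (T'.1 / T.1) • T.2))
  rw [smul_sub, inv_smul_smul₀ (div_ne_zero h' h), inv_div, neg_sub]

lemma dv_third {T T' : ℝ × V} (h : T.1 ≠ 0) (h' : T'.1 ≠ 0) :
    dv (hinv T) (dv T' T) = hinv T' := by
  have e : T.1⁻¹ / (T'.1 / T.1) = T'.1⁻¹ := by field_simp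
  refine Prod.ext e ?_
  change -(T.1⁻¹ • T.2) - (T.1⁻¹ / (T'.1 / T.1)) • (T'.2 - (T'.1 / T.1) • T.2) = -(T'.1⁻¹ • T'.2)
  have e2 : T'.1⁻¹ * (T'.1 / T.1) = T.1⁻¹ := by field_simp
  rw [e, smul_sub, smul_smul, e2]
  abel

end XZB

open XZB in
theorem p_ZB (hRS : S_RS) : S_ZB := by
  obtain ⟨C, hC, hRS⟩ := hRS
  refine ⟨9 * C, by linarith, fun V _ _ 𝒯 𝒜 B κ k h0 hs hB hB0 hκ hk h1 h2 => ?_⟩
  have hE := hRS V 𝒯 𝒜 B κ k (fun T hT => (h0 T hT).1) hs hB hB0 hκ hk h1 h2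
  obtain ⟨Z, hZ⟩ : ∃ Z, Z = {p ∈ 𝒜 ×ˢ 𝒯 | dv p.2 p.1 ∈ 𝒯} := ⟨_, rfl⟩
  have mZ : ∀ p, p ∈ Z ↔ (p.1 ∈ 𝒜 ∧ p.2 ∈ 𝒯) ∧ dv p.2 p.1 ∈ 𝒯 := fun p => by
    rw [hZ, mem_filter, mem_product]
  have e1 : (#Z : ℝ) ^ 2 ≤ B * (C * (√(κ * B) + κ + k) * B ^ 2) := by
    refine (cs Z 𝒯 (fun p => dv p.2 p.1) fun p hp => ((mZ p).1 hp).2).trans
      (mul_le_mul hB (le_trans (Nat.cast_le.2 (card_le_card fun q hq => ?_)) hE)
        (Nat.cast_nonneg _) hB0.le)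
    obtain ⟨q1, q2⟩ := mem_filter.1 hq
    obtain ⟨q3, q4⟩ := mem_product.1 q1
    exact mem_filter.2 ⟨mem_product.2 ⟨mem_product.2 ((mZ _).1 q3).1,
      mem_product.2 ((mZ _).1 q4).1⟩, q2⟩
  have e2 : #{p ∈ 𝒯 ×ˢ 𝒯 | dv p.2 p.1 ∈ 𝒯 ∧ (p.1 ∈ 𝒜 ∨ p.2 ∈ 𝒜 ∨ dv p.2 p.1 ∈ 𝒜)} ≤
      #Z + (#Z + #Z) := by
    refine le_trans (card_le_card (t := Z ∪ (Z.image Prod.swap ∪
      Z.image fun q => (hinv q.2, hinv (dv q.2 q.1)))) fun p hp => ?_)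
      ((card_union_le _ _).trans (Nat.add_le_add_left ((card_union_le _ _).trans
        (Nat.add_le_add card_image_le card_image_le)) _))
    obtain ⟨p0, p3, p4⟩ := mem_filter.1 hp
    obtain ⟨p1, p2⟩ := mem_product.1 p0
    have n1 := (h0 _ p1).1
    have n2 := (h0 _ p2).1
    rcases p4 with p4 | p4 | p4
    · exact mem_union_left _ ((mZ p).2 ⟨⟨p4, p2⟩, p3⟩)
    · refine mem_union_right _ (mem_union_left _ (mem_image.2 ⟨p.swap, (mZ _).2 ⟨⟨p4, p1⟩, ?_⟩,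
        Prod.swap_swap p⟩))
      change dv p.1 p.2 ∈ 𝒯
      rw [dv_swap n1 n2]
      exact (h0 _ p3).2
    · refine mem_union_right _ (mem_union_right _ (mem_image.2 ⟨(dv p.2 p.1, hinv p.1),
        (mZ _).2 ⟨⟨p4, (h0 _ p1).2⟩, ?_⟩, ?_⟩))
      · change dv (hinv p.1) (dv p.2 p.1) ∈ 𝒯
        rw [dv_third n1 n2]
        exact (h0 _ p2).2
      · change (hinv (hinv p.1), hinv (dv (hinv p.1) (dv p.2 p.1))) = p
        rw [dv_third n1 n2, hinv_hinv n1, hinv_hinv n2]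
  have e3 := (Nat.cast_le (α := ℝ)).2 e2
  push_cast at e3
  refine le_trans (pow_le_pow_left₀ (Nat.cast_nonneg _) e3 2) ?_
  nlinarith

end Pool.Agent.P.MP_5f07f1_co.Z
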