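import Pool.Agent.P.MP_5f07f1_co.ZSTP
import Pool.Agent.P.MP_5f07f1_co.ZST
import Pool.Agent.P.MP_5f07f1_co.ZPAIR
import Pool.Agent.P.MP_5f07f1_co.ZET
import Pool.Agent.P.MP_5f07f1_co.ZETW
import Pool.Agent.P.MP_5f07f1_co.ZPEN
import Pool.Agent.P.MP_5f07f1_co.ZLD
import Pool.Agent.P.MP_5f07f1_co.ZTRI
import Pool.Agent.P.MP_5f07f1_co.ZPP
import Pool.Agent.P.MP_5f07f1_co.ZBIP
import Pool.Agent.P.MP_5f07f1_co.ZSL2
import Pool.Agent.P.MP_5f07f1_co.ZC4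
import Pool.Agent.P.MP_5f07f1_co.ZRS
import Pool.Agent.P.MP_5f07f1_co.ZZB
import Pool.Agent.P.MP_5f07f1_co.ZTRIP
import Pool.Agent.P.MP_5f07f1_co.ZTR
import Pool.Agent.P.MP_5f07f1_co.ZRD
import Pool.Agent.P.MP_5f07f1_co.ZSP
import Pool.Agent.P.MP_5f07f1_co.ZPART
import Pool.Agent.P.MP_5f07f1_co.ZSHA
import Pool.Agent.P.MP_5f07f1_co.ZSHB
import Pool.Agent.P.MP_5f07f1_co.ZSH
import Pool.Agent.P.MP_5f07f1_co.ZR
import Pool.Agent.P.MP_5f07f1_co.ZMAS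
import Pool.Agent.P.MP_5f07f1_co.ZHYP
import Pool.Agent.P.MP_5f07f1_co.ZTWO
import Pool.Agent.P.MP_5f07f1_co.ZRICH
import Pool.Agent.P.MP_5f07f1_co.ZDEG
import Pool.Agent.P.MP_5f07f1_co.ZL1
import Pool.Agent.P.MP_5f07f1_co.ZT2
import Pool.Agent.P.MP_5f07f1_co.ZE2
import Pool.Agent.P.MP_5f07f1_co.ZT3B
import Pool.Agent.P.MP_5f07f1_co.ZT3
import Pool.Agent.P.MP_5f07f1_co.ZE3
import Pool.Agent.P.MP_5f07f1_co.ZDISC
import Pool.Agent.P.MP_5f07f1_co.ZRDQ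
import Pool.Agent.P.MP_5f07f1_co.ZMU1
import Pool.Agent.P.MP_5f07f1_co.ZMU
import Pool.Agent.P.MP_5f07f1_co.ZISO
import Pool.Agent.P.MP_5f07f1_co.ZCA
import Pool.Agent.P.MP_5f07f1_co.ZLV
import Pool.Agent.P.MP_5f07f1_co.ZRND
import Pool.Agent.P.MP_5f07f1_co.ZMAIN
import Pool.Agent.P.MP_5f07f1_co.ZR0
import Pool.Agent.P.MP_5f07f1_co.ZTREE
import Pool.Agent.P.MP_5f07f1_co.ZPK
import Pool.Agent.P.MP_5f07f1_co.ZCORE
import Pool.Agent.P.MP_5f07f1_co.ZALG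
import Pool.Agent.P.MP_5f07f1_co.ZGEO
import Pool.Agent.P.MP_5f07f1_co.ZFIN

/-! Assembly of the sharp bound. -/

namespace Pool.Agent.P.MP_5f07f1_co.Z

theorem q_SP : S_SP := p_SP
theorem q_DIM : S_DIM := p_DIM
theorem q_PART : S_PART := p_PART q_SP q_DIM
theorem q_STP : S_STP := p_STP q_PART q_DIM
theorem q_ST : S_ST := p_ST q_STP
theorem q_PAIR : S_PAIR := p_PAIR q_ST
theorem q_ET : S_ET := p_ET q_ST q_PAIR
theorem q_ETW : S_ETW := p_ETW q_ET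
theorem q_PEN : S_PEN := p_PEN
theorem q_DEC : S_DEC := p_DEC
theorem q_LAYER : S_LAYER := p_LAYER
theorem q_LD : S_LD := p_LD q_DEC
theorem q_TRI : S_TRI := p_TRI q_ET q_PAIR
theorem q_PP : S_PP := p_PP q_ETW
theorem q_BIP : S_BIP := p_BIP
theorem q_SL2 : S_SL2 := p_SL2
theorem q_SL3 : S_SL3 := p_SL3
theorem q_C4 : S_C4 := p_C4
theorem q_HOM : S_HOM := p_HOM
theorem q_RS : S_RS := p_RS q_PP
theorem q_ZB : S_ZB := p_ZB q_RS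
theorem q_TRIP : S_TRIP := p_TRIP q_SL2 q_SL3 q_ZB
theorem q_TR : S_TR := p_TR q_TRIP
theorem q_RD : S_RD := p_RD q_C4 q_HOM q_BIP q_TR
theorem q_SHA : S_SHA := p_SHA q_ST q_DIM
theorem q_SHB : S_SHB := p_SHB q_ETW q_PEN q_LD q_DIM
theorem q_SH : S_SH := p_SH q_PART q_SHA q_SHB
theorem q_R : S_R := p_R q_LD q_PEN q_DIM
theorem q_MAS : S_MAS := p_MAS q_LD q_R q_DIM
theorem q_HYP : S_HYP := p_HYP q_MAS q_ETW q_DIM
theorem q_TWO : S_TWO := p_TWO q_MAS q_ETW q_PEN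
theorem q_RICH : S_RICH := p_RICH q_HYP q_PEN
theorem q_DEG : S_DEG := p_DEG q_R q_DEC q_DIM
theorem q_L1 : S_L1 := p_L1 q_HYP q_DIM
theorem q_T2 : S_T2 := p_T2 q_L1 q_PAIR q_DIM
theorem q_E2 : S_E2 := p_E2 q_T2 q_LAYER
theorem q_T3B : S_T3B := p_T3B q_TWO q_DIM
theorem q_T3 : S_T3 := p_T3 q_T3B q_L1 q_PAIR q_TRI q_DIM
theorem q_E3 : S_E3 := p_E3 q_T3 q_LAYER q_DIM
theorem q_DISC : S_DISC := p_DISC
theorem q_RDQ : S_RDQ := p_RDQ q_RD q_E2 q_E3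
theorem q_MU1 : S_MU1 := p_MU1 q_RDQ q_SH q_DISC q_DIM
theorem q_MU : S_MU := p_MU q_MU1
theorem q_ISO : S_ISO := p_ISO q_RICH q_DEG q_MU q_LAYER
theorem q_CA : S_CA := p_CA
theorem q_CH : S_CH := p_CH
theorem q_COV : S_COV := p_COV
theorem q_PCS : S_PCS := p_PCS
theorem q_LV : S_LV := p_LV q_CA q_CH
theorem q_RND : S_RND := p_RND q_SP q_COV q_LV q_PCS
theorem q_MAIN : S_MAIN := p_MAIN q_RND
theorem q_R0 : S_R0 := p_R0 q_SP q_CH q_PCS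
theorem q_TREE : S_TREE := p_TREE q_R0 q_MAIN
theorem q_PK : S_PK := p_PK
theorem q_CORE : S_CORE := p_CORE
theorem q_ALG : S_ALG := p_ALG q_PK q_CORE
theorem q_GEO : S_GEO := p_GEO q_TREE q_ALG
theorem q_FIN : S_FIN := p_FIN q_GEO q_ISO
theorem q_RES : S_RES := p_RES q_FIN

end Pool.Agent.P.MP_5f07f1_co.Z
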