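import Pool.Agent.P.MP_5f07f1_co.ZDefs

/-! Four-cycles of a bipartite graph and homotheties between four-cycles of one shape. -/

namespace Pool.Agent.P.MP_5f07f1_co.Z

open Finset MvPolynomial Pool.Agent.Lib.PolyPart Classical Module

namespace XC4

set_option linter.unusedSectionVars false

variable {V : Type} [AddCommGroup V] [Module ℝ V]

lemma li3 {a b c : V} : LinearIndependent ℝ ![a, b, c] ↔
    ∀ r s t : ℝ, r • a + s • b + t • c = 0 → r = 0 ∧ s = 0 ∧ t = 0 := by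
  rw [Fintype.linearIndependent_iff]
  constructor
  · intro h r s t hz
    have := h ![r, s, t] (by simpa [Fin.sum_univ_three] using hz)
    exact ⟨this 0, this 1, this 2⟩
  · intro h g hg i
    obtain ⟨h0, h1, h2⟩ := h (g 0) (g 1) (g 2) (by simpa [Fin.sum_univ_three] using hg)
    fin_cases i
    · exact h0
    · exact h1
    · exact h2

lemma li_of {X : Finset V} (hL : Line2 X) {x y z u : V} (hx : x ∈ X) (hy : y ∈ X) (hz : z ∈ X)
    (h1 : x ≠ y) (h2 : y ≠ z) (h3 : x ≠ z) (h4 : u - x ∉ Submodule.span ℝ {y - x, z - x}) :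
    LinearIndependent ℝ ![y - x, z - y, u - z] := by
  rw [li3]
  intro r s t h
  have ht : t = 0 := by
    by_contra ht
    apply h4
    rw [Submodule.mem_span_pair]
    refine ⟨(s - r) / t, 1 - s / t, ?_⟩
    have h5 : t • (((s - r) / t) • (y - x) + (1 - s / t) • (z - x)) = t • (u - x) := by
      have e1 : t * ((s - r) / t) = s - r := by field_simp
      have e2 : t * (1 - s / t) = t - s := by field_simp
      rw [smul_add, smul_smul, smul_smul, e1, e2]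
      have : (s - r) • (y - x) + (t - s) • (z - x) =
          t • (u - x) - (r • (y - x) + s • (z - y) + t • (u - z)) := by module
      rw [this, h, sub_zero]
    exact smul_right_injective V ht h5
  subst ht
  rw [zero_smul, add_zero] at h
  have hs : s = 0 := by
    by_contra hs
    have h5 : s • z = s • (x + (1 - r / s) • (y - x)) := by
      have e2 : s * (1 - r / s) = s - r := by field_simp
      rw [smul_add, smul_smul, e2]
      have : s • x + (s - r) • (y - x) = s • z - (r • (y - x) + s • (z - y)) := by module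
      rw [this, h, sub_zero]
    rcases hL x hx y hy z hz _ h1 (smul_right_injective V hs h5) with h6 | h6
    · exact h3 h6.symm
    · exact h2 h6.symm
  subst hs
  rw [zero_smul, add_zero] at h
  refine ⟨?_, rfl, rfl⟩
  rcases smul_eq_zero.1 h with h6 | h6
  · exact h6
  · exact absurd (sub_eq_zero.1 h6).symm h1

/-- Indicator of a statement. -/
noncomputable def jnd (p : Prop) : ℝ := if p then 1 else 0

lemma jnd_nonneg (p : Prop) : 0 ≤ jnd p := by unfold jnd; split_ifs <;> norm_num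

lemma jnd_pos {p : Prop} (h : p) : jnd p = 1 := by unfold jnd; rw [if_pos h]

lemma jnd_neg {p : Prop} (h : ¬ p) : jnd p = 0 := by unfold jnd; rw [if_neg h]

lemma card_jnd {α : Type} (s : Finset α) (p : α → Prop) [DecidablePred p] :
    (#{x ∈ s | p x} : ℝ) = ∑ x ∈ s, jnd (p x) := by
  rw [card_filter]
  push_cast
  refine sum_congr rfl fun x _ => ?_
  by_cases h : p x
  · rw [if_pos h, jnd_pos h]
  · rw [if_neg h, jnd_neg h]

lemma sum_eq_le (X : Finset V) (x : V) : ∑ y ∈ X, jnd (x = y) ≤ 1 := by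
  rw [← card_jnd]
  have : #{y ∈ X | x = y} ≤ 1 := card_le_one.2 fun a ha b hb =>
    (mem_filter.1 ha).2.symm.trans (mem_filter.1 hb).2
  exact_mod_cast this

/-- The defining condition of `Cyc`. -/
def Cd (G : Finset (V × V)) (x y z u : V) : Prop :=
  (x, y) ∈ G ∧ (z, y) ∈ G ∧ (z, u) ∈ G ∧ (x, u) ∈ G ∧ LinearIndependent ℝ ![y - x, z - y, u - z]

lemma card_cyc (X : Finset V) (G : Finset (V × V)) :
    (#(Cyc X G) : ℝ) = ∑ x ∈ X, ∑ y ∈ X, ∑ z ∈ X, ∑ u ∈ X, jnd (Cd G x y z u) := by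
  unfold Cyc
  rw [card_jnd]
  simp only [sum_product]
  rfl

lemma term_le {X : Finset V} (hL : Line2 X) (G : Finset (V × V)) {x y z : V} (u : V) (hx : x ∈ X)
    (hy : y ∈ X) (hz : z ∈ X) :
    jnd ((x, y) ∈ G) * jnd ((z, y) ∈ G) * (jnd ((x, u) ∈ G) * jnd ((z, u) ∈ G)) ≤
      jnd (Cd G x y z u) + jnd (x = y) + jnd (y = z) + jnd (x = z) +
        jnd (u - x ∈ Submodule.span ℝ {y - x, z - x}) := by
  have n0 := jnd_nonneg (Cd G x y z u)
  have n1 := jnd_nonneg (x = y)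
  have n2 := jnd_nonneg (y = z)
  have n3 := jnd_nonneg (x = z)
  have n4 := jnd_nonneg (u - x ∈ Submodule.span ℝ {y - x, z - x})
  by_cases a1 : (x, y) ∈ G
  swap
  · rw [jnd_neg a1]; linarith
  by_cases a2 : (z, y) ∈ G
  swap
  · rw [jnd_neg a2]; linarith
  by_cases a3 : (x, u) ∈ G
  swap
  · rw [jnd_neg a3]; linarith
  by_cases a4 : (z, u) ∈ G
  swap
  · rw [jnd_neg a4]; linarith
  rw [jnd_pos a1, jnd_pos a2, jnd_pos a3, jnd_pos a4]
  by_cases h1 : x = y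
  · rw [jnd_pos h1]; linarith
  by_cases h2 : y = z
  · rw [jnd_pos h2]; linarith
  by_cases h3 : x = z
  · rw [jnd_pos h3]; linarith
  by_cases h4 : u - x ∈ Submodule.span ℝ {y - x, z - x}
  · rw [jnd_pos h4]; linarith
  rw [jnd_pos (p := Cd G x y z u) ⟨a1, a2, a4, a3, li_of hL hx hy hz h1 h2 h3 h4⟩]
  linarith

lemma card_G {X : Finset V} {G : Finset (V × V)} (hG : G ⊆ X ×ˢ X) :
    (#G : ℝ) = ∑ y ∈ X, ∑ x ∈ X, jnd ((x, y) ∈ G) := by
  have : G = {p ∈ X ×ˢ X | p ∈ G} := by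
    ext p
    rw [mem_filter]
    exact ⟨fun h => ⟨hG h, h⟩, fun h => h.2⟩
  conv_lhs => rw [this]
  rw [card_jnd, sum_product, sum_comm]

lemma two_cs (X : Finset V) (e : V → V → ℝ) :
    (∑ y ∈ X, ∑ x ∈ X, e x y) ^ 4 ≤ (#X : ℝ) ^ 4 *
      ∑ x ∈ X, ∑ y ∈ X, ∑ z ∈ X, ∑ u ∈ X, e x y * e z y * (e x u * e z u) := by
  have h1 := sq_sum_le_card_mul_sum_sq (s := X) (f := fun y => ∑ x ∈ X, e x y)
  have h2 := sq_sum_le_card_mul_sum_sq (s := X ×ˢ X) (f := fun p => ∑ y ∈ X, e p.1 y * e p.2 y)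
  have e1 : ∑ y ∈ X, (∑ x ∈ X, e x y) ^ 2 = ∑ p ∈ X ×ˢ X, ∑ y ∈ X, e p.1 y * e p.2 y := by
    rw [sum_comm]
    refine sum_congr rfl fun y _ => ?_
    rw [sq, sum_mul_sum, sum_product]
  have e2 : ∑ p ∈ X ×ˢ X, (∑ y ∈ X, e p.1 y * e p.2 y) ^ 2 =
      ∑ x ∈ X, ∑ y ∈ X, ∑ z ∈ X, ∑ u ∈ X, e x y * e z y * (e x u * e z u) := by
    rw [sum_product]
    refine sum_congr rfl fun x _ => ?_
    rw [sum_comm]
    refine sum_congr rfl fun z _ => ?_
    rw [sq, sum_mul_sum]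
  rw [e1] at h1
  rw [e2, card_product] at h2
  push_cast at h2
  calc (∑ y ∈ X, ∑ x ∈ X, e x y) ^ 4 = ((∑ y ∈ X, ∑ x ∈ X, e x y) ^ 2) ^ 2 := by ring
    _ ≤ (#X * ∑ p ∈ X ×ˢ X, ∑ y ∈ X, e p.1 y * e p.2 y) ^ 2 :=
        pow_le_pow_left₀ (sq_nonneg _) h1 2
    _ = (#X : ℝ) ^ 2 * (∑ p ∈ X ×ˢ X, ∑ y ∈ X, e p.1 y * e p.2 y) ^ 2 := by ring
    _ ≤ (#X : ℝ) ^ 2 * (#X * #X *
        ∑ x ∈ X, ∑ y ∈ X, ∑ z ∈ X, ∑ u ∈ X, e x y * e z y * (e x u * e z u)) :=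
        mul_le_mul_of_nonneg_left h2 (sq_nonneg _)
    _ = _ := by ring

lemma sum_le_mul (X : Finset V) (f : V → ℝ) (b : ℝ) (h : ∀ x ∈ X, f x ≤ b) :
    ∑ x ∈ X, f x ≤ #X * b := by
  simpa [nsmul_eq_mul] using sum_le_card_nsmul X f b h

end XC4

open XC4 in
theorem p_C4 : S_C4 := by
  intro V _ _ X G σ a hσ ha hG hL hP
  have hn : (0 : ℝ) ≤ #X := Nat.cast_nonneg _
  have h0 := two_cs X fun x y => jnd ((x, y) ∈ G)
  rw [← card_G hG] at h0
  have b1 : ∑ x ∈ X, ∑ y ∈ X, ∑ _z ∈ X, ∑ _u ∈ X, jnd (x = y) ≤ (#X : ℝ) ^ 3 := by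
    refine (sum_le_mul X _ (#X * #X) fun x _ => ?_).trans (le_of_eq (by ring))
    simp only [sum_const, nsmul_eq_mul]
    rw [← mul_sum, ← mul_sum]
    have := sum_eq_le X x
    gcongr
    simpa using mul_le_mul_of_nonneg_left this hn
  have b2 : ∑ _x ∈ X, ∑ y ∈ X, ∑ z ∈ X, ∑ _u ∈ X, jnd (y = z) ≤ (#X : ℝ) ^ 3 := by
    refine (sum_le_mul X _ (#X * #X) fun x _ => ?_).trans (le_of_eq (by ring))
    refine sum_le_mul X _ _ fun y _ => ?_
    simp only [sum_const, nsmul_eq_mul]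
    rw [← mul_sum]
    simpa using mul_le_mul_of_nonneg_left (sum_eq_le X y) hn
  have b3 : ∑ x ∈ X, ∑ _y ∈ X, ∑ z ∈ X, ∑ _u ∈ X, jnd (x = z) ≤ (#X : ℝ) ^ 3 := by
    refine (sum_le_mul X _ (#X * #X) fun x _ => ?_).trans (le_of_eq (by ring))
    refine sum_le_mul X _ _ fun y _ => ?_
    simp only [sum_const, nsmul_eq_mul]
    rw [← mul_sum]
    simpa using mul_le_mul_of_nonneg_left (sum_eq_le X x) hn
  have b4 : ∑ x ∈ X, ∑ y ∈ X, ∑ z ∈ X, ∑ u ∈ X,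
      jnd (u - x ∈ Submodule.span ℝ {y - x, z - x}) ≤ (#X : ℝ) ^ 3 * a := by
    refine (sum_le_mul X _ (#X * (#X * a)) fun x hx => ?_).trans (le_of_eq (by ring))
    refine sum_le_mul X _ _ fun y hy => sum_le_mul X _ _ fun z hz => ?_
    rw [← card_jnd]
    exact hP x hx y hy z hz
  have h1 : ∑ x ∈ X, ∑ y ∈ X, ∑ z ∈ X, ∑ u ∈ X,
      jnd ((x, y) ∈ G) * jnd ((z, y) ∈ G) * (jnd ((x, u) ∈ G) * jnd ((z, u) ∈ G)) ≤
      #(Cyc X G) + (#X : ℝ) ^ 3 * (3 + a) := by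
    refine (sum_le_sum fun x hx => sum_le_sum fun y hy => sum_le_sum fun z hz =>
      sum_le_sum fun u _ => term_le hL G u hx hy hz).trans ?_
    simp only [sum_add_distrib]
    rw [← card_cyc]
    linarith
  have hc : (0 : ℝ) ≤ #(Cyc X G) := Nat.cast_nonneg _
  refine h0.trans ((mul_le_mul_of_nonneg_left h1 (by positivity)).trans ?_)
  gcongr

open XC4 in
theorem p_HOM : S_HOM := by
  intro V δ _ _ X G ω hP c hc c' hc' hs
  obtain ⟨x1, x2, x3, x4⟩ := c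
  obtain ⟨y1, y2, y3, y4⟩ := c'
  obtain ⟨-, a1, a2, a3, a4, hli⟩ := mem_filter.1 hc
  obtain ⟨-, b1, b2, b3, b4, -⟩ := mem_filter.1 hc'
  simp only [shp, Prod.mk.injEq] at hs
  obtain ⟨s1, s2, s3, s4⟩ := hs
  obtain ⟨t1, -, e1⟩ := hP _ a1 _ b1 s1
  obtain ⟨t2, -, e2⟩ := hP _ a2 _ b2 s2
  obtain ⟨t3, -, e3⟩ := hP _ a3 _ b3 s3
  obtain ⟨t4, h4, e4⟩ := hP _ a4 _ b4 s4
  simp only at e1 e2 e3 e4 hli
  have hz : (t1 - t4) • (x2 - x1) + (t2 - t4) • (x3 - x2) + (t3 - t4) • (x4 - x3) = 0 := by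
    have : (t1 - t4) • (x2 - x1) + (t2 - t4) • (x3 - x2) + (t3 - t4) • (x4 - x3) =
        t1 • (x2 - x1) - t2 • (x2 - x3) + t3 • (x4 - x3) - t4 • (x4 - x1) := by module
    rw [this, ← e1, ← e2, ← e3, ← e4]
    abel
  obtain ⟨k1, k2, k3⟩ := li3.1 hli _ _ _ hz
  rw [sub_eq_zero] at k1 k2 k3
  subst k1 k2 k3
  refine ⟨(t3, y1 - t3 • x1), h4, ?_, ?_, ?_, ?_⟩
  · simp [app]
  · show t3 • x2 + (y1 - t3 • x1) = y2
    have : t3 • x2 + (y1 - t3 • x1) = y1 + t3 • (x2 - x1) := by module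
    rw [this, ← e1]; abel
  · show t3 • x3 + (y1 - t3 • x1) = y3
    have : t3 • x3 + (y1 - t3 • x1) = y1 + t3 • (x2 - x1) - t3 • (x2 - x3) := by module
    rw [this, ← e1, ← e2]; abel
  · show t3 • x4 + (y1 - t3 • x1) = y4
    have : t3 • x4 + (y1 - t3 • x1) = y1 + t3 • (x4 - x1) := by module
    rw [this, ← e4]; abel

end Pool.Agent.P.MP_5f07f1_co.Z
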