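import Pool.Agent.P.MP_5f07f1_co.Build

/-! Sharp distinct distances in high dimension: definitions and the list of statements. -/

namespace Pool.Agent.P.MP_5f07f1_co.Z

open Finset MvPolynomial Pool.Agent.Lib.PolyPart Classical Module

/-! ### Linear incidence geometry -/

section Lin

variable {α V : Type} [AddCommGroup V] [Module ℝ V]

/-- The vectors `f x`, `x ∈ A`, are nonzero and pairwise not proportional. -/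
def NP (f : α → V) (A : Finset α) : Prop :=
  (∀ x ∈ A, f x ≠ 0) ∧ ∀ x ∈ A, ∀ y ∈ A, ∀ a : ℝ, f y = a • f x → y = x

/-- `Y` lies in `U`, and a proper subspace of `U` has at most `γ #Y` of its points. -/
def ND (γ : ℝ) (f : α → V) (U : Submodule ℝ V) (Y : Finset α) : Prop :=
  (∀ y ∈ Y, f y ∈ U) ∧ ∀ U' : Submodule ℝ V, U' < U → (#{y ∈ Y | f y ∈ U'} : ℝ) ≤ γ * #Y

/-- A pair (point, subspace) is used by at most `w` indices. -/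
def Mlt {ι : Type} (I : Finset ι) (U : ι → Submodule ℝ V) (Y : ι → Finset α) (w : ℝ) : Prop :=
  ∀ (x : α) (F : Submodule ℝ V), (#{i ∈ I | x ∈ Y i ∧ U i = F} : ℝ) ≤ w

/-- Number of points of `A` in `U`. -/
noncomputable def cnt (f : α → V) (A : Finset α) (U : Submodule ℝ V) : ℕ := #{z ∈ A | f z ∈ U}

def sp2 (f : α → V) (x y : α) : Submodule ℝ V := Submodule.span ℝ {f x, f y}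
def sp3 (f : α → V) (x y z : α) : Submodule ℝ V := Submodule.span ℝ {f x, f y, f z}
def Ind3 (f : α → V) (x y z : α) : Prop := LinearIndependent ℝ ![f x, f y, f z]

lemma ND.mono {γ γ' : ℝ} {f : α → V} {U : Submodule ℝ V} {Y : Finset α} (h : ND γ f U Y)
    (hγ : γ ≤ γ') : ND γ' f U Y :=
  ⟨h.1, fun U' hU => (h.2 U' hU).trans (mul_le_mul_of_nonneg_right hγ (Nat.cast_nonneg _))⟩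

lemma NP.mono {f : α → V} {A B : Finset α} (h : NP f A) (hB : B ⊆ A) : NP f B :=
  ⟨fun x hx => h.1 x (hB hx), fun x hx y hy => h.2 x (hB hx) y (hB hy)⟩

end Lin

/-- Homogeneous coordinates. -/
def hm {d : ℕ} (x : E d) : ℝ × E d := (1, x)

lemma np_hm {d : ℕ} (A : Finset (E d)) : NP hm A := by
  refine ⟨fun x _ h => one_ne_zero (congrArg Prod.fst h), fun x _ y _ a h => ?_⟩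
  have h1 : (1 : ℝ) = a * 1 := congrArg Prod.fst h
  have h2 : y = a • x := congrArg Prod.snd h
  rw [h2, show a = 1 by linarith, one_smul]

/-- Rich lines in the plane. -/
def S_STP : Prop := ∃ C : ℝ, 1 ≤ C ∧ ∀ (A : Finset (E 2)) (𝒰 : Finset (Submodule ℝ (ℝ × E 2)))
  (Y : Submodule ℝ (ℝ × E 2) → Finset (E 2)) (σ a : ℝ), #A ≤ σ → 0 < a →
  (∀ U ∈ 𝒰, finrank ℝ U = 2 ∧ Y U ⊆ A ∧ (∀ y ∈ Y U, hm y ∈ U) ∧ 2 ≤ #(Y U) ∧ a ≤ #(Y U)) →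
  (∑ U ∈ 𝒰, (#(Y U) : ℝ)) ≤ C * (σ ^ 2 / a ^ 2 + σ)

/-- Rich lines. -/
def S_ST : Prop := ∃ C : ℝ, 1 ≤ C ∧ ∀ (α V : Type) [AddCommGroup V] [Module ℝ V]
  [FiniteDimensional ℝ V] (f : α → V) (A : Finset α) (𝒰 : Finset (Submodule ℝ V))
  (Y : Submodule ℝ V → Finset α) (σ a : ℝ), NP f A → #A ≤ σ → 0 < a →
  (∀ U ∈ 𝒰, finrank ℝ U = 2 ∧ Y U ⊆ A ∧ (∀ y ∈ Y U, f y ∈ U) ∧ 2 ≤ #(Y U) ∧ a ≤ #(Y U)) →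
  (∑ U ∈ 𝒰, (#(Y U) : ℝ)) ≤ C * (σ ^ 2 / a ^ 2 + σ)

/-- Pairs on rich lines. -/
def S_PAIR : Prop := ∃ C : ℝ, 1 ≤ C ∧ ∀ (α V : Type) [AddCommGroup V] [Module ℝ V]
  [FiniteDimensional ℝ V] (f : α → V) (A : Finset α) (σ s a : ℝ), NP f A → #A ≤ σ → 0 < s →
  (∀ U : Submodule ℝ V, finrank ℝ U ≤ 2 → (cnt f A U : ℝ) ≤ a) →
  (#{p ∈ A ×ˢ A | p.1 ≠ p.2 ∧ s ≤ cnt f A (sp2 f p.1 p.2)} : ℝ) ≤ C * (σ ^ 2 / s + σ * a)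

/-- Elekes-Toth, moment form. -/
def S_ET : Prop := ∀ k₀ : ℕ, ∃ γ C : ℝ, 0 < γ ∧ γ ≤ 1 / 2 ∧ 1 ≤ C ∧ ∀ k ≤ k₀,
  ∀ (α V : Type) [AddCommGroup V] [Module ℝ V] [FiniteDimensional ℝ V] (f : α → V) (A : Finset α)
  (𝒰 : Finset (Submodule ℝ V)) (Y : Submodule ℝ V → Finset α) (σ a : ℝ), NP f A → #A ≤ σ → 0 < a →
  (∀ U ∈ 𝒰, finrank ℝ U = k + 2 ∧ Y U ⊆ A ∧ ND γ f U (Y U) ∧ a ≤ #(Y U)) →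
  (∑ U ∈ 𝒰, (#(Y U) : ℝ) ^ (k + 1)) ≤ C * (σ ^ (k + 2) / a ^ 2 + σ ^ (k + 1))

/-- Elekes-Toth, incidence form with multiplicity. -/
def S_ETW : Prop := ∀ k₀ : ℕ, ∃ γ C : ℝ, 0 < γ ∧ γ ≤ 1 / 2 ∧ 1 ≤ C ∧ ∀ k ≤ k₀,
  ∀ (α V ι : Type) [AddCommGroup V] [Module ℝ V] [FiniteDimensional ℝ V] (f : α → V) (A : Finset α)
  (I : Finset ι) (U : ι → Submodule ℝ V) (Y : ι → Finset α) (σ a w : ℝ), NP f A → #A ≤ σ → 0 < a →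
  0 ≤ w → (∀ i ∈ I, finrank ℝ (U i) = k + 2 ∧ Y i ⊆ A ∧ ND γ f (U i) (Y i) ∧ a ≤ #(Y i)) →
  Mlt I U Y w →
  (∑ i ∈ I, (#(Y i) : ℝ)) ≤ C * w * (σ ^ (k + 2) / a ^ (k + 2) + σ ^ (k + 1) / a ^ k)

/-- Pencils. -/
def S_PEN : Prop := ∀ (α V : Type) [AddCommGroup V] [Module ℝ V] [FiniteDimensional ℝ V]
  (f : α → V) (A : Finset α) (k : ℕ) (F : Submodule ℝ V) (𝒰 : Finset (Submodule ℝ V))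
  (Y : Submodule ℝ V → Finset α) (σ a : ℝ), #A ≤ σ → 0 < a →
  (∀ U ∈ 𝒰, F ≤ U ∧ finrank ℝ U = finrank ℝ F + k ∧ Y U ⊆ A ∧ ND (1 / 2) f U (Y U) ∧ a ≤ #(Y U)) →
  (#𝒰 : ℝ) ≤ (2 * σ / a) ^ k

/-- A nondegenerate part. -/
def S_DEC : Prop := ∀ (α V : Type) [AddCommGroup V] [Module ℝ V] [FiniteDimensional ℝ V]
  (f : α → V) (γ : ℝ) (m : ℕ) (U : Submodule ℝ V) (Y : Finset α), 0 < γ → γ ≤ 1 → Y.Nonempty →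
  (∀ y ∈ Y, f y ∈ U ∧ f y ≠ 0) → finrank ℝ U ≤ m →
  ∃ F ≤ U, 1 ≤ finrank ℝ F ∧ ND γ f F {y ∈ Y | f y ∈ F} ∧ γ ^ m * #Y ≤ #{y ∈ Y | f y ∈ F}

/-- Localise to cells and pass to nondegenerate parts. -/
def S_LD : Prop := ∀ (α V ι β : Type) [AddCommGroup V] [Module ℝ V] [FiniteDimensional ℝ V]
  (f : α → V) (γ κ a : ℝ) (m : ℕ) (I : Finset ι) (U : ι → Submodule ℝ V) (Y : ι → Finset α)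
  (lab : α → β), 0 < γ → γ ≤ 1 → 0 < κ → 0 < a →
  (∀ i ∈ I, finrank ℝ (U i) ≤ m ∧ (∀ y ∈ Y i, f y ∈ U i ∧ f y ≠ 0) ∧
    (#((Y i).image lab) : ℝ) ≤ κ ∧ a ≤ #(Y i)) →
  ∃ (J : Finset (ι × β)) (F : ι × β → Submodule ℝ V) (Y' : ι × β → Finset α),
    (∀ p ∈ J, p.1 ∈ I ∧ Y' p ⊆ Y p.1 ∧ (∀ y ∈ Y' p, lab y = p.2) ∧ F p ≤ U p.1 ∧
      1 ≤ finrank ℝ (F p) ∧ ND γ f (F p) (Y' p) ∧ a * γ ^ m / (2 * κ) ≤ #(Y' p)) ∧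
    (∑ i ∈ I, (#(Y i) : ℝ)) ≤ 2 / γ ^ m * ∑ p ∈ J, (#(Y' p) : ℝ)

/-- Independent triples in rich planes. -/
def S_TRI : Prop := ∃ C : ℝ, 1 ≤ C ∧ ∀ (α V : Type) [AddCommGroup V] [Module ℝ V]
  [FiniteDimensional ℝ V] (f : α → V) (A : Finset α) (σ s a : ℝ), NP f A → #A ≤ σ → 0 < s →
  (∀ U : Submodule ℝ V, finrank ℝ U ≤ 3 → (cnt f A U : ℝ) ≤ a) →
  (#{p ∈ A ×ˢ A ×ˢ A | Ind3 f p.1 p.2.1 p.2.2 ∧ s ≤ cnt f A (sp3 f p.1 p.2.1 p.2.2)} : ℝ) ≤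
    C * (σ ^ 3 / s + σ ^ 2 * a)

/-- Points and planes. -/
def S_PP : Prop := ∃ C : ℝ, 1 ≤ C ∧ ∀ (α V : Type) [AddCommGroup V] [Module ℝ V]
  [FiniteDimensional ℝ V] (f : α → V) (A : Finset α) (𝒰 : Finset (Submodule ℝ V)) (z a k : ℝ),
  NP f A → #A ≤ z → #𝒰 ≤ z → 0 < a → 0 ≤ k →
  (∀ U ∈ 𝒰, finrank ℝ U = 3 ∧ ∀ U' < U, (cnt f A U' : ℝ) ≤ k) →
  (∑ U ∈ 𝒰, (cnt f A U : ℝ)) ≤ C * (a * z + z ^ 3 / a ^ 3 + z ^ 2 / a + k * z)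

/-- Moments from tails. -/
def S_LAYER : Prop := ∀ (α : Type) (p : ℕ) (S : Finset α) (f : α → ℝ) (b B : ℝ), 0 < b →
  (∀ x ∈ S, 0 ≤ f x) → #S ≤ B → (∀ u : ℝ, 1 ≤ u → (#{x ∈ S | u * b ≤ f x} : ℝ) ≤ B / u ^ (p + 1)) →
  (∑ x ∈ S, f x ^ p) ≤ 2 ^ (p + 2) * B * b ^ p

/-- Closed walks of length six in a bipartite graph with blocks. -/
def S_BIP : Prop := ∀ (α β δ : Type) (A : Finset α) (B : Finset β) (R : α → β → Prop)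
  (ω : α → δ) (ω' : β → δ) (m : ℝ), (∀ a ∈ A, ∀ b ∈ B, R a b → ω a = ω' b) →
  (∀ c, (#{a ∈ A | ω a = c} : ℝ) ≤ m) →
  (#{p ∈ A ×ˢ B | R p.1 p.2} : ℝ) ^ 6 ≤ (#A : ℝ) ^ 2 * (#B : ℝ) ^ 3 * m *
    ∑ t ∈ A ×ˢ A ×ˢ A, (#{b ∈ B | R t.1 b ∧ R t.2.1 b} : ℝ) * #{b ∈ B | R t.2.1 b ∧ R t.2.2 b} *
      #{b ∈ B | R t.2.2 b ∧ R t.1 b}

/-! ### Homotheties -/

section Hom

variable {V : Type} [AddCommGroup V] [Module ℝ V]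

def app (T : ℝ × V) (v : V) : V := T.1 • v + T.2
noncomputable def hinv (T : ℝ × V) : ℝ × V := (T.1⁻¹, -(T.1⁻¹ • T.2))
/-- `T' ∘ T⁻¹`. -/
noncomputable def dv (T' T : ℝ × V) : ℝ × V := (T'.1 / T.1, T'.2 - (T'.1 / T.1) • T.2)
noncomputable def KT (X : Finset V) (T : ℝ × V) : Finset V := {x ∈ X | app T x ∈ X}
noncomputable def m2 (X : Finset V) (T T' : ℝ × V) : ℕ := #{x ∈ X | app T x ∈ X ∧ app T' x ∈ X}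
noncomputable def E2 (X : Finset V) (j : ℕ) : ℝ :=
  ∑ p ∈ X ×ˢ X, (#{x ∈ X | x + (p.2 - p.1) ∈ X} : ℝ) ^ j
noncomputable def E3 (X : Finset V) (j : ℕ) : ℝ :=
  ∑ p ∈ X ×ˢ X ×ˢ X, (#{x ∈ X | x + (p.2.1 - p.1) ∈ X ∧ x + (p.2.2 - p.1) ∈ X} : ℝ) ^ j

/-- A line has at most two points of `X`. -/
def Line2 (X : Finset V) : Prop :=
  ∀ x ∈ X, ∀ y ∈ X, ∀ z ∈ X, ∀ t : ℝ, x ≠ y → z = x + t • (y - x) → z = x ∨ z = y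

/-- Four-cycles `x₁ x₂ x₃ x₄` of the bipartite graph `G` that span a three-dimensional flat. -/
noncomputable def Cyc (X : Finset V) (G : Finset (V × V)) : Finset (V × V × V × V) :=
  {c ∈ X ×ˢ X ×ˢ X ×ˢ X | (c.1, c.2.1) ∈ G ∧ (c.2.2.1, c.2.1) ∈ G ∧ (c.2.2.1, c.2.2.2) ∈ G ∧
    (c.1, c.2.2.2) ∈ G ∧ LinearIndependent ℝ ![c.2.1 - c.1, c.2.2.1 - c.2.1, c.2.2.2 - c.2.2.1]}

def shp {δ : Type} (ω : V × V → δ) (c : V × V × V × V) : δ × δ × δ × δ :=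
  (ω (c.1, c.2.1), ω (c.2.2.1, c.2.1), ω (c.2.2.1, c.2.2.2), ω (c.1, c.2.2.2))

/-- Chords with the same `ω` are parallel. -/
def Parl {δ : Type} (G : Finset (V × V)) (ω : V × V → δ) : Prop :=
  ∀ p ∈ G, ∀ q ∈ G, ω p = ω q → ∃ t : ℝ, t ≠ 0 ∧ q.2 - q.1 = t • (p.2 - p.1)

end Hom

def S_SL2 : Prop := ∀ (V : Type) [AddCommGroup V] [Module ℝ V] (X : Finset V) (j : ℕ) (t : ℝ)
  (𝒜 : Finset (ℝ × V)), t ≠ 0 → (∀ T ∈ 𝒜, T.1 = t) →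
  (∑ T ∈ 𝒜, (#(KT X T) : ℝ) ^ (j + 1)) ≤ E2 X j

def S_SL3 : Prop := ∀ (V : Type) [AddCommGroup V] [Module ℝ V] (X : Finset V) (j : ℕ) (t t' : ℝ)
  (Z : Finset ((ℝ × V) × (ℝ × V))), t ≠ 0 → t' ≠ 0 → (∀ p ∈ Z, p.1.1 = t ∧ p.2.1 = t') →
  (∑ p ∈ Z, (m2 X p.1 p.2 : ℝ) ^ (j + 1)) ≤ E3 X j

def S_C4 : Prop := ∀ (V : Type) [AddCommGroup V] [Module ℝ V] (X : Finset V) (G : Finset (V × V))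
  (σ a : ℝ), #X ≤ σ → 0 ≤ a → G ⊆ X ×ˢ X → Line2 X →
  (∀ x ∈ X, ∀ y ∈ X, ∀ z ∈ X, (#{u ∈ X | u - x ∈ Submodule.span ℝ {y - x, z - x}} : ℝ) ≤ a) →
  (#G : ℝ) ^ 4 ≤ σ ^ 4 * (#(Cyc X G) + σ ^ 3 * (3 + a))

def S_HOM : Prop := ∀ (V δ : Type) [AddCommGroup V] [Module ℝ V] (X : Finset V)
  (G : Finset (V × V)) (ω : V × V → δ), Parl G ω → ∀ c ∈ Cyc X G, ∀ c' ∈ Cyc X G,
  shp ω c = shp ω c' → ∃ T : ℝ × V, T.1 ≠ 0 ∧ app T c.1 = c'.1 ∧ app T c.2.1 = c'.2.1 ∧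
    app T c.2.2.1 = c'.2.2.1 ∧ app T c.2.2.2 = c'.2.2.2

/-- Energy in the group of homotheties. -/
def S_RS : Prop := ∃ C : ℝ, 1 ≤ C ∧ ∀ (V : Type) [AddCommGroup V] [Module ℝ V]
  (𝒯 𝒜 : Finset (ℝ × V)) (B κ k : ℝ), (∀ T ∈ 𝒯, T.1 ≠ 0) → 𝒜 ⊆ 𝒯 → #𝒯 ≤ B → 0 < B → 0 < κ →
  0 ≤ k → (∀ t : ℝ, (#{T ∈ 𝒜 | T.1 = t} : ℝ) ≤ κ) →
  (∀ v w : V, (#{T ∈ 𝒯 | app T v = w} : ℝ) ≤ k) →
  (#{q ∈ (𝒜 ×ˢ 𝒯) ×ˢ (𝒜 ×ˢ 𝒯) | dv q.1.2 q.1.1 = dv q.2.2 q.2.1} : ℝ) ≤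
    C * (√(κ * B) + κ + k) * B ^ 2

def S_ZB : Prop := ∃ C : ℝ, 1 ≤ C ∧ ∀ (V : Type) [AddCommGroup V] [Module ℝ V]
  (𝒯 𝒜 : Finset (ℝ × V)) (B κ k : ℝ), (∀ T ∈ 𝒯, T.1 ≠ 0 ∧ hinv T ∈ 𝒯) → 𝒜 ⊆ 𝒯 → #𝒯 ≤ B → 0 < B →
  0 < κ → 0 ≤ k → (∀ t : ℝ, (#{T ∈ 𝒜 | T.1 = t} : ℝ) ≤ κ) →
  (∀ v w : V, (#{T ∈ 𝒯 | app T v = w} : ℝ) ≤ k) →
  (#{p ∈ 𝒯 ×ˢ 𝒯 | dv p.2 p.1 ∈ 𝒯 ∧ (p.1 ∈ 𝒜 ∨ p.2 ∈ 𝒜 ∨ dv p.2 p.1 ∈ 𝒜)} : ℝ) ^ 2 ≤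
    C * (√(κ * B) + κ + k) * B ^ 3

/-- The two moment bounds. -/
def Mom {V : Type} [AddCommGroup V] [Module ℝ V] (d : ℕ) (C N : ℝ) (X : Finset V) : Prop :=
  E2 X 239 ≤ C * N ^ (2 * d) * (N ^ (d - 2)) ^ 239 ∧
    E3 X 35 ≤ C * N ^ (3 * d) * (N ^ (d - 4)) ^ 35

def S_TRIP : Prop := ∀ C₂ : ℝ, 1 ≤ C₂ → ∃ C : ℝ, 1 ≤ C ∧ ∀ (d : ℕ) (V : Type) [AddCommGroup V]
  [Module ℝ V] (X : Finset V) (𝒯 : Finset (ℝ × V)) (N u : ℝ), 20 ≤ d → 1 ≤ N → 1 ≤ u →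
  #X ≤ N ^ d → Line2 X → Mom d C₂ N X → #𝒯 ≤ 2 * u ^ 11 * N ^ (d + 2) →
  (∀ T ∈ 𝒯, T.1 ≠ 0 ∧ hinv T ∈ 𝒯 ∧ 2 ≤ #(KT X T) ∧ N ^ (d - 2) / u ^ 5 ≤ #(KT X T)) →
  (∑ p ∈ {p ∈ 𝒯 ×ˢ 𝒯 | dv p.2 p.1 ∈ 𝒯 ∧ (u * N ^ (d - 2) ≤ #(KT X p.1) ∨
      u * N ^ (d - 2) ≤ #(KT X p.2) ∨ u * N ^ (d - 2) ≤ #(KT X (dv p.2 p.1)))},
    (m2 X p.1 p.2 : ℝ) ^ 2) ≤ C * N ^ (4 * d - 4) / u ^ 8

/-- Upper bound for the closed walks of length six between first edges and shapes. -/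
def S_TR : Prop := ∀ C₂ : ℝ, 1 ≤ C₂ → ∃ C : ℝ, 1 ≤ C ∧ ∀ (d : ℕ) (V δ : Type) [AddCommGroup V]
  [Module ℝ V] (X : Finset V) (G : Finset (V × V)) (ω : V × V → δ) (K : V × V → V × V → ℝ)
  (N v : ℝ), 20 ≤ d → 1 ≤ N → 1 ≤ v → #X ≤ N ^ d → Line2 X → Mom d C₂ N X → G ⊆ X ×ˢ X →
  (∀ p ∈ G, p.1 ≠ p.2) → (∀ c, (#{q ∈ G | ω q = c} : ℝ) ≤ 2 * v * N ^ (d - 2)) →
  (∀ p ∈ G, ∀ q ∈ G, 0 ≤ K p q ∧ (K p q ≠ 0 → ω p = ω q ∧ ∃ T : ℝ × V, T.1 ≠ 0 ∧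
    app T p.1 = q.1 ∧ app T p.2 = q.2 ∧
    K p q ≤ #{e ∈ G | (app T e.1, app T e.2) ∈ G ∧ ω (app T e.1, app T e.2) = ω e})) →
  (∑ t ∈ G ×ˢ G ×ˢ G, K t.1 t.2.1 * K t.2.1 t.2.2 * K t.2.2 t.1) ≤ C * v ^ 5 * N ^ (10 * d - 16)

/-- Few chords have a direction of high multiplicity, abstract form. -/
def S_RD : Prop := ∀ C₂ : ℝ, 1 ≤ C₂ → ∃ C : ℝ, 1 ≤ C ∧ ∀ (d : ℕ) (V δ : Type) [AddCommGroup V]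
  [Module ℝ V] (X : Finset V) (G : Finset (V × V)) (ω : V × V → δ) (N v L₃ : ℝ), 20 ≤ d → 1 ≤ N →
  1 ≤ v → v ≤ N ^ 2 → 1 ≤ L₃ → #X ≤ N ^ d → Line2 X → Mom d C₂ N X →
  (∀ x ∈ X, ∀ y ∈ X, ∀ z ∈ X, (#{u ∈ X | u - x ∈ Submodule.span ℝ {y - x, z - x}} : ℝ) ≤ N ^ 2) →
  G ⊆ X ×ˢ X → (∀ p ∈ G, p.1 ≠ p.2) → Parl G ω →
  (∀ c, (#{q ∈ G | ω q = c} : ℝ) ≤ 2 * v * N ^ (d - 2)) →
  (#((Cyc X G).image (shp ω)) : ℝ) ≤ L₃ * (#G / (v * N ^ (d - 2))) ^ 3 →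
  (#G / N ^ (2 * d)) ^ 13 * v ^ 3 ≤ C * L₃ ^ 3

/-! ### One partition; coplanar quadruples -/

/-- A labelling of `W` with cells of size `m / D ^ d` and sharp crossing numbers. -/
def Cells {d : ℕ} (C D : ℕ) (m : ℝ) (W : Finset (E d)) (lab : E d → Set (E d)) : Prop :=
  (∀ b, (#{x ∈ W | lab x = b} : ℝ) * (D : ℝ) ^ d ≤ m) ∧ ∀ (e : ℕ) (S : Set (E d)), IsDim e S →
    ∀ A ⊆ W, (∀ x ∈ A, x ∈ S) → #(A.image lab) ≤ C * D ^ e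

/-- Polynomial partitioning with sharp degree. -/
def S_SP : Prop := ∀ (α : Type) (k m : ℕ) (π : α → Fin k → ℝ) (X : Finset α), 1 ≤ k →
  ∃ h : Fin (m * k) → MP k, (∀ i, h i ≠ 0) ∧ ∑ i, (h i).totalDegree ≤ 2 * k ^ 2 * 2 ^ m ∧
    ∀ σ : Fin (m * k) → Bool, 2 ^ (m * k) * #{x ∈ X | ∀ i, 0 < sg (σ i) * eval (π x) (h i)} ≤ #X

def S_PART : Prop := ∀ d : ℕ, 1 ≤ d → ∃ C : ℕ, 1 ≤ C ∧ ∀ (m : ℕ) (W : Finset (E d)),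
  ∃ G : MP d, G ≠ 0 ∧ G.totalDegree ≤ C * 2 ^ m ∧ ∃ lab : E d → Set (E d),
    ∀ W' ⊆ W, (∀ x ∈ W', eval x G ≠ 0) → Cells C (2 ^ m) #W W' lab

/-- Dimension of flats. -/
def S_DIM : Prop := ∀ d : ℕ,
  (∀ (e : ℕ) (U : Submodule ℝ (ℝ × E d)), finrank ℝ U ≤ e + 1 → IsDim e {x | hm x ∈ U}) ∧
  (∀ (e : ℕ) (F : Submodule ℝ (ℝ × E d)) (x : E d), hm x ∈ F → finrank ℝ F = e + 1 →
    IsDim (d - e) {y | ∀ v, ((0 : ℝ), v) ∈ F → (y - x) ⬝ᵥ v = 0}) ∧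
  IsDim d (Set.univ : Set (E d))

/-- Coplanar quadruples whose first three points span the plane. -/
noncomputable def Quad {d : ℕ} (W : Finset (E d)) : Finset (E d × E d × E d × E d) :=
  {t ∈ W ×ˢ W ×ˢ W ×ˢ W | Ind3 hm t.1 t.2.1 t.2.2.1 ∧ hm t.2.2.2 ∈ sp3 hm t.1 t.2.1 t.2.2.1}

/-- The plane of a quadruple. -/
def pln {d : ℕ} (t : E d × E d × E d × E d) : Submodule ℝ (ℝ × E d) := sp3 hm t.1 t.2.1 t.2.2.1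

def S_SHA : Prop := ∀ d C : ℕ, 5 ≤ d → 1 ≤ C → ∃ C' : ℝ, 1 ≤ C' ∧ ∀ (W : Finset (E d))
  (lab : E d → Set (E d)) (D : ℕ) (m s : ℝ), Cells C D m W lab → #W ≤ m → 1 ≤ D → C' * D ^ 2 ≤ s →
  (#{t ∈ Quad W | s ≤ cnt hm W (pln t) ∧ cnt hm W (pln t) < 2 * s ∧
    ¬ ND (1 / 2) hm (pln t) {w ∈ W | hm w ∈ pln t}} : ℝ) ≤ C' * (m ^ 3 / D + s ^ 2 * m ^ 2)

def S_SHB : Prop := ∀ d C : ℕ, 5 ≤ d → 1 ≤ C → ∃ C' : ℝ, 1 ≤ C' ∧ ∀ (W : Finset (E d))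
  (lab : E d → Set (E d)) (D : ℕ) (m s : ℝ), Cells C D m W lab → #W ≤ m → 1 ≤ D → C' * D ^ 2 ≤ s →
  (#{t ∈ Quad W | s ≤ cnt hm W (pln t) ∧ cnt hm W (pln t) < 2 * s ∧
    ND (1 / 2) hm (pln t) {w ∈ W | hm w ∈ pln t}} : ℝ) ≤ C' * (m ^ 3 / D + s ^ 2 * m ^ 2)

def S_SH : Prop := ∀ d : ℕ, 5 ≤ d → ∃ C : ℕ, 1 ≤ C ∧ ∀ (W : Finset (E d)) (a : ℕ) (m s : ℝ),
  #W ≤ m → 1 ≤ m → (∀ U : Submodule ℝ (ℝ × E d), finrank ℝ U ≤ 3 → (cnt hm W U : ℝ) ≤ s) →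
  s ^ 2 ≤ m → ∃ G : MP d, G ≠ 0 ∧ G.totalDegree ≤ C * 2 ^ a ∧ (a = 0 → G = 1) ∧
    (#(Quad {w ∈ W | eval w G ≠ 0}) : ℝ) ≤ C * (1 + Real.log m / 2 ^ a) * m ^ 3

/-! ### Sets with a sharp tree -/

structure Dat (d : ℕ) where
  Q : Finset (E d)
  N : ℝ
  L : ℝ
  r : ℕ
  M : ℕ → ℝ
  l : ℕ → E d → Lab d

/-- A tree of bounded depth with cells of size `M i ^ d` and sharp crossing numbers. -/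
structure Geo {d : ℕ} (C K : ℕ) (C' : ℝ) (g : Dat d) : Prop where
  inj : Set.InjOn nq (g.Q : Set (E d))
  one : 1 ≤ C
  bigC : (C : ℝ) ≤ g.L
  big : C' ≤ g.L
  gap : g.L ^ K ≤ g.N
  depth : g.r ≤ C
  top : g.M 0 = g.N
  anti : ∀ i i', i ≤ i' → i' ≤ g.r → g.M i' ≤ g.M i
  step : ∀ i < g.r, g.M i ≤ g.L * g.M (i + 1)
  bot1 : 1 ≤ g.M g.r
  bot : g.M g.r ^ d ≤ g.L
  lev : ∀ X : ℝ, g.L ≤ X → X ≤ g.N → ∃ i ≤ g.r, X ≤ g.M i ∧ g.M i ≤ g.L * X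
  ref : ∀ i i', i ≤ i' → i' ≤ g.r → ∀ x ∈ g.Q, ∀ z ∈ g.Q, g.l i' x = g.l i' z → g.l i x = g.l i z
  root : ∀ x ∈ g.Q, ∀ z ∈ g.Q, g.l 0 x = g.l 0 z
  size : ∀ i ≤ g.r, ∀ b, (#{z ∈ g.Q | g.l i z = b} : ℝ) ≤ g.M i ^ d
  cross : ∀ i i', i ≤ i' → i' ≤ g.r → ∀ (e : ℕ) (W : Set (E d)), IsDim e W → ∀ (b : Lab d),
    ∀ A ⊆ g.Q, (∀ z ∈ A, g.l i z = b ∧ z ∈ W) → (#(A.image (g.l i')) : ℝ) ≤ C * (g.M i / g.M i') ^ e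
  card : (#g.Q : ℝ) ≤ g.N ^ d
  flat : ∀ (e : ℕ) (W : Set (E d)), IsDim e W → (#{z ∈ g.Q | z ∈ W} : ℝ) ≤ g.L ^ 2 * g.N ^ e
  hyp : ∀ f : MP d, f ≠ 0 → (#{z ∈ g.Q | eval z f = 0} : ℝ) ≤
    ((f.totalDegree : ℝ) + 2) ^ C * g.N ^ d / g.N ^ (1 / C : ℝ)

lemma Geo.L1 {d C K : ℕ} {C' : ℝ} {g : Dat d} (h : Geo C K C' g) : 1 ≤ g.L :=
  le_trans (by exact_mod_cast h.one) h.bigC

lemma Geo.N1 {d C K : ℕ} {C' : ℝ} {g : Dat d} (h : Geo C K C' g) : 1 ≤ g.N :=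
  (one_le_pow₀ h.L1).trans h.gap

lemma Geo.M1 {d C K : ℕ} {C' : ℝ} {g : Dat d} (h : Geo C K C' g) {i : ℕ} (hi : i ≤ g.r) :
    1 ≤ g.M i := h.bot1.trans (h.anti i _ hi le_rfl)

lemma Geo.pow_le {d C K : ℕ} {C' : ℝ} {g : Dat d} (h : Geo C K C' g) {k : ℕ} (hk : k ≤ K) :
    g.L ^ k ≤ g.N := (pow_le_pow_right₀ h.L1 hk).trans h.gap

lemma Geo.mono {d C K K₁ : ℕ} {C' C₁ : ℝ} {g : Dat d} (h : Geo C K C' g) (hK : K₁ ≤ K)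
    (hC : C₁ ≤ C') : Geo C K₁ C₁ g :=
  { h with big := hC.trans h.big, gap := h.pow_le hK }

/-- `Φ` holds for all sets with a sharp tree, with a constant that depends on the tree constant. -/
def All (d : ℕ) (Φ : ℝ → Dat d → Prop) : Prop :=
  ∃ K : ℕ, ∀ C : ℕ, ∃ C' : ℝ, 1 ≤ C' ∧ ∀ g : Dat d, Geo C K C' g → Φ C' g

/-- Nondegenerate rich flats in the cells of one level, with a small power loss. -/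
def S_R : Prop := ∀ d : ℕ, ∃ a₀ : ℕ, All d fun _ g => ∀ (ι : Type) (I : Finset ι)
  (U : ι → Submodule ℝ (ℝ × E d)) (Y : ι → Finset (E d)) (e i : ℕ) (a w : ℝ), i ≤ g.r → 0 < a →
  0 ≤ w → (∀ p ∈ I, finrank ℝ (U p) = e + 1 ∧ Y p ⊆ g.Q ∧ (∃ b, ∀ y ∈ Y p, g.l i y = b) ∧
    ND (1 / 2) hm (U p) (Y p) ∧ a ≤ #(Y p)) → Mlt I U Y w →
  (∑ p ∈ I, (#(Y p) : ℝ)) ≤ w * g.L ^ a₀ * g.N ^ d * g.M i ^ (d * e) / a ^ d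

/-- Localisation from level `i` to level `i'`; the degenerate parts are paid by `S_R`. -/
def S_MAS : Prop := ∀ (d : ℕ) (γ : ℝ), 0 < γ → γ ≤ 1 / 2 → ∃ a₁ : ℕ, All d fun C' g =>
  ∀ (ι : Type) (I : Finset ι) (U : ι → Submodule ℝ (ℝ × E d)) (Y : ι → Finset (E d)) (e i i' : ℕ)
  (a : ℝ) (w : ℕ → ℝ), i ≤ i' → i' ≤ g.r → 0 < a →
  (∀ p ∈ I, finrank ℝ (U p) = e + 1 ∧ Y p ⊆ g.Q ∧ (∃ b, ∀ y ∈ Y p, g.l i y = b) ∧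
    (∀ y ∈ Y p, hm y ∈ U p) ∧ a ≤ #(Y p)) →
  (∀ e' < e, 0 ≤ w e' ∧ ∀ (x : E d) (F : Submodule ℝ (ℝ × E d)), finrank ℝ F = e' + 1 → hm x ∈ F →
    (#{p ∈ I | x ∈ Y p ∧ F ≤ U p} : ℝ) ≤ w e') →
  ∃ (J : Finset (ι × Lab d)) (Y' : ι × Lab d → Finset (E d)),
    (∀ p ∈ J, p.1 ∈ I ∧ Y' p ⊆ Y p.1 ∧ (∀ y ∈ Y' p, g.l i' y = p.2) ∧ ND γ hm (U p.1) (Y' p) ∧
      a * (g.M i' / g.M i) ^ e / C' ≤ #(Y' p)) ∧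
    (∑ p ∈ I, (#(Y p) : ℝ)) ≤ C' * ∑ p ∈ J, (#(Y' p) : ℝ) + g.L ^ a₁ * ∑ e' ∈ range e,
      w e' * g.N ^ d * g.M i' ^ (d * e') / (a * (g.M i' / g.M i) ^ e) ^ d

/-- Rich hyperplanes in the cells of one level. -/
def S_HYP : Prop := ∀ d : ℕ, 3 ≤ d → All d fun C' g => ∀ (ι : Type) (I : Finset ι)
  (U : ι → Submodule ℝ (ℝ × E d)) (Y : ι → Finset (E d)) (i : ℕ) (y w : ℝ), i ≤ g.r →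
  g.L ^ (d - 1) * g.N ^ 2 ≤ g.M i ^ (d - 1) → 1 ≤ y → 0 ≤ w →
  (∀ p ∈ I, finrank ℝ (U p) = d ∧ Y p ⊆ g.Q ∧ (∃ b, ∀ x ∈ Y p, g.l i x = b) ∧
    (∀ x ∈ Y p, hm x ∈ U p) ∧ y * g.M i ^ (d - 1) / g.N ≤ #(Y p)) → Mlt I U Y w →
  (∀ (k : ℕ) (x : E d) (F : Submodule ℝ (ℝ × E d)), 1 ≤ k → finrank ℝ F + k = d → hm x ∈ F →
    (#{p ∈ I | x ∈ Y p ∧ F ≤ U p} : ℝ) ≤ w * (g.L ^ 2 * g.N ^ 2) ^ k) →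
  (∑ p ∈ I, (#(Y p) : ℝ)) ≤ C' * w * g.N ^ (2 * d) / y ^ (d - 2)

/-- Rich flats of codimension two, sliced by coloured sets `A`. -/
def S_TWO : Prop := ∀ d : ℕ, 500 ≤ d → All d fun C' g => ∀ (ι β : Type) (I : Finset ι)
  (U : ι → Submodule ℝ (ℝ × E d)) (Y : ι → Finset (E d)) (κ : ι → β) (B : Finset β)
  (A : β → Lab d → Finset (E d)) (i : ℕ) (s w y : ℝ), i ≤ g.r → g.N ^ 5 ≤ g.M i ^ (2 * d) →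
  g.M i ^ d ≤ g.N ^ 3 → 1 ≤ s → 0 ≤ w → 1 ≤ y →
  (∀ p ∈ I, finrank ℝ (U p) = d - 1 ∧ Y p ⊆ g.Q ∧ κ p ∈ B ∧
    (∀ x ∈ Y p, hm x ∈ U p ∧ x ∈ A (κ p) (g.l i x)) ∧ s * g.N ^ (d - 4) ≤ #(Y p)) →
  (∀ b c, (#(A b c) : ℝ) ≤ y * g.M i ^ (d - 1) / g.N) →
  (∑ b ∈ B, ∑ c ∈ g.Q.image (g.l i), (#(A b c) : ℝ)) ≤ g.N ^ (2 * d) → Mlt I U Y w →
  (∀ (e : ℕ) (x : E d) (F : Submodule ℝ (ℝ × E d)), finrank ℝ F = e + 1 → hm x ∈ F →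
    (#{p ∈ I | x ∈ Y p ∧ F ≤ U p} : ℝ) ≤ (g.L ^ 2 * g.N ^ (d - e)) ^ 2) →
  (∑ p ∈ I, (#(Y p) : ℝ)) ≤ C' * (w + 1) * y ^ (d - 2) * g.N ^ (3 * d) / s ^ (d - 3)

section Lifted

variable {d : ℕ}

/-- Lift to the paraboloid. -/
def lf (x : E d) : E d × ℝ := (x, nq x)

/-- The hyperplane `w ⬝ q = 1` in homogeneous coordinates. -/
def hU (w : E d) : Submodule ℝ (ℝ × E d) where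
  carrier := {p | w ⬝ᵥ p.2 = p.1}
  add_mem' := fun {a b} ha hb => by
    simp only [Set.mem_ofPred_eq, Prod.snd_add, Prod.fst_add, dotProduct_add] at *
    rw [ha, hb]
  zero_mem' := by simp
  smul_mem' := fun c a ha => by
    simp only [Set.mem_ofPred_eq, Prod.smul_snd, Prod.smul_fst, dotProduct_smul] at *
    rw [ha]

noncomputable def hp (Q : Finset (E d)) (w : E d) : Finset (E d) := {q ∈ Q | w ⬝ᵥ q = 1}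
noncomputable def chords (Q : Finset (E d)) : Finset (E d × E d) := {p ∈ Q ×ˢ Q | p.1 ≠ p.2}
/-- Number of chords with the bisector of `p`. -/
noncomputable def mu (Q : Finset (E d)) (p : E d × E d) : ℕ := #{q ∈ chords Q | dual q = dual p}
noncomputable def Kc (Q : Finset (E d)) (c : E d × ℝ) : Finset (E d) :=
  {x ∈ Q | lf x + c ∈ Q.image lf}
noncomputable def Kcc (Q : Finset (E d)) (c c' : E d × ℝ) : Finset (E d) :=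
  {x ∈ Q | lf x + c ∈ Q.image lf ∧ lf x + c' ∈ Q.image lf}
/-- The points of `Kc` whose chord lies on an `s`-poor line. -/
noncomputable def Kp (Q : Finset (E d)) (s : ℝ) (c : E d × ℝ) : Finset (E d) :=
  {x ∈ Kc Q c | (cnt hm Q (sp2 hm x (x + c.1)) : ℝ) < s}
/-- Good triangles: poor line, poor plane, few translates of the first chord in the cell. -/
def Good (g : Dat d) (i : ℕ) (s y : ℝ) (c c' : E d × ℝ) (x : E d) : Prop :=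
  (cnt hm g.Q (sp2 hm x (x + c.1)) : ℝ) < s ∧
  (cnt hm g.Q (sp3 hm x (x + c.1) (x + c'.1)) : ℝ) < s ∧
  (#{z ∈ Kp g.Q s c | g.l i z = g.l i x} : ℝ) < y * g.M i ^ (d - 1) / g.N

end Lifted

def S_RICH : Prop := ∀ d : ℕ, 500 ≤ d → All d fun C' g => ∀ (W : Finset (E d)) (u : ℝ), 1 ≤ u →
  (∀ w ∈ W, ND (1 / 2) hm (hU w) (hp g.Q w) ∧ u * g.N ^ (d - 2) ≤ #(hp g.Q w)) →
  (#W : ℝ) ≤ C' * g.N ^ (d + 2) / u ^ (d - 1)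

def S_DEG : Prop := ∀ d : ℕ, 500 ≤ d → All d fun _ g =>
  (∑ p ∈ {p ∈ chords g.Q | ¬ ND (1 / 2) hm (hU (dual p)) (hp g.Q (dual p)) ∧
    g.N ^ (d - 2) ≤ #(hp g.Q (dual p))}, (#(hp g.Q (dual p)) : ℝ)) ≤ g.N ^ (3 * d - 2)

def S_L1 : Prop := ∀ d : ℕ, 500 ≤ d → All d fun C' g => ∀ (i : ℕ) (s y : ℝ), i ≤ g.r →
  g.L ^ (d - 1) * g.N ^ 2 ≤ g.M i ^ (d - 1) → 1 ≤ s → 1 ≤ y →
  (#{p ∈ chords g.Q | (cnt hm g.Q (sp2 hm p.1 p.2) : ℝ) < s ∧ y * g.M i ^ (d - 1) / g.N ≤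
    #{z ∈ Kp g.Q s (lf p.2 - lf p.1) | g.l i z = g.l i p.1}} : ℝ) ≤
    C' * s * g.N ^ (2 * d) / y ^ (d - 2)

def S_T2 : Prop := ∀ d : ℕ, 500 ≤ d → All d fun C' g => ∀ u : ℝ, 1 ≤ u →
  (#{p ∈ chords g.Q | u * g.N ^ (d - 2) ≤ #(Kc g.Q (lf p.2 - lf p.1))} : ℝ) ≤
    C' * g.N ^ (2 * d) / u ^ 240

def S_E2 : Prop := ∀ d : ℕ, 500 ≤ d → All d fun C' g =>
  E2 (g.Q.image lf) 239 ≤ C' * g.N ^ (2 * d) * (g.N ^ (d - 2)) ^ 239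

def S_T3B : Prop := ∀ d : ℕ, 500 ≤ d → All d fun C' g => ∀ (i : ℕ) (s s' y : ℝ), i ≤ g.r →
  g.N ^ 5 ≤ g.M i ^ (2 * d) → g.M i ^ d ≤ g.N ^ 3 → 1 ≤ s → 1 ≤ s' → 1 ≤ y →
  (#{p ∈ g.Q ×ˢ g.Q ×ˢ g.Q | Ind3 hm p.1 p.2.1 p.2.2 ∧
    Good g i s' y (lf p.2.1 - lf p.1) (lf p.2.2 - lf p.1) p.1 ∧ s * g.N ^ (d - 4) ≤
    #{x ∈ Kcc g.Q (lf p.2.1 - lf p.1) (lf p.2.2 - lf p.1) |
      Good g i s' y (lf p.2.1 - lf p.1) (lf p.2.2 - lf p.1) x}} : ℝ) ≤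
    C' * s' ^ 2 * y ^ (d - 2) * g.N ^ (3 * d) / s ^ (d - 3)

def S_T3 : Prop := ∀ d : ℕ, 500 ≤ d → All d fun C' g => ∀ s : ℝ, 1 ≤ s →
  (#{p ∈ g.Q ×ˢ g.Q ×ˢ g.Q | Ind3 hm p.1 p.2.1 p.2.2 ∧
    s * g.N ^ (d - 4) ≤ #(Kcc g.Q (lf p.2.1 - lf p.1) (lf p.2.2 - lf p.1))} : ℝ) ≤
    C' * g.N ^ (3 * d) / s ^ 36

def S_E3 : Prop := ∀ d : ℕ, 500 ≤ d → All d fun C' g =>
  E3 (g.Q.image lf) 35 ≤ C' * g.N ^ (3 * d) * (g.N ^ (d - 4)) ^ 35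

def S_DISC : Prop := ∀ (d C K : ℕ) (C' : ℝ) (g : Dat d), 1 ≤ d → Geo C K C' g → ∀ G : MP d, G ≠ 0 →
  (#{p ∈ chords g.Q | eval (dual p) G = 0} : ℝ) ≤
    (3 * (G.totalDegree : ℝ) + 2) ^ C * g.N ^ (2 * d) / g.N ^ (1 / C : ℝ)

def S_RDQ : Prop := ∀ d : ℕ, 500 ≤ d → All d fun C' g => ∀ (W : Finset (E d)) (v L₃ : ℝ), 1 ≤ v →
  v ≤ g.N ^ 2 → 1 ≤ L₃ → (∀ p ∈ chords g.Q, dual p ∈ W → (mu g.Q p : ℝ) ≤ 2 * v * g.N ^ (d - 2)) →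
  (#(Quad W) : ℝ) ≤ L₃ * (#{p ∈ chords g.Q | dual p ∈ W} / (v * g.N ^ (d - 2))) ^ 3 →
  (#{p ∈ chords g.Q | dual p ∈ W} / g.N ^ (2 * d)) ^ 13 * v ^ 3 ≤ C' * L₃ ^ 3

def S_MU1 : Prop := ∀ d : ℕ, 500 ≤ d → All d fun C' g => ∀ v : ℝ, 1 ≤ v →
  (#{p ∈ chords g.Q | v * g.N ^ (d - 2) ≤ mu g.Q p ∧ mu g.Q p < 2 * v * g.N ^ (d - 2)} /
    g.N ^ (2 * d)) ^ 7 * v ≤ C'

def S_MU : Prop := ∀ d : ℕ, 500 ≤ d → All d fun C' g => ∀ u : ℝ, 1 ≤ u →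
  (#{p ∈ chords g.Q | u ^ 14 * g.N ^ (d - 2) ≤ mu g.Q p} : ℝ) ≤ C' * g.N ^ (2 * d) / u ^ 2

def S_ISO : Prop := ∀ d : ℕ, 500 ≤ d → All d fun C' g =>
  (∑ p ∈ chords g.Q, (#(hp g.Q (dual p)) : ℝ)) ≤ C' * g.N ^ (3 * d - 2)

/-! ### Existence of the sharp tree -/

def S_CA : Prop := ∀ d j : ℕ, ∃ A : ℕ, ∀ (c : ℕ) (T : Tw d j c) (Φ : MP d) (B : Finset (E d)),
  Apart (T.X ∩ NZ Φ) B → #B ≤ (c + 2) ^ A * (Φ.totalDegree + 1) ^ j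

def S_CH : Prop := ∀ d j : ℕ, ∃ A : ℕ, ∀ (c D : ℕ) (T : Tw d (j + 1) c) (ψ : MP (j + 1)), ψ ≠ 0 →
  ψ.totalDegree ≤ D → ∀ (Φ : MP d) (B : Finset (E d)), Apart (T.X ∩ NZ Φ) B →
  (∀ x ∈ B, eval (T.yv x) ψ = 0) → #B ≤ (c + D + 2) ^ A * (Φ.totalDegree + 1) ^ j

def S_COV : Prop := ∀ d j : ℕ, ∃ A : ℕ, ∀ (c : ℕ) (T : Tw d j c), ∃ Δ : MP j, Δ ≠ 0 ∧
  Δ.totalDegree ≤ (c + 2) ^ A ∧ ∀ h : MP j, Cov T.X (aeval T.y (Δ * h)) ((c + 2) ^ A)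

def S_LV : Prop := ∀ d j : ℕ, 1 ≤ j → ∃ A : ℕ, ∀ (c c' Δ D Λ : ℕ), 1 ≤ D →
  (∀ e ≤ j, (c + c' + 2) ^ A * (4 * Δ + 4) ^ e ≤ Λ * D ^ e) →
  ∀ (Q : Finset (E d)) (l : E d → Lab d) (T : Lab d → Tw d j c) (x₀ : Lab d → E d)
    (G : Lab d → MP d), (∀ b, (G b).totalDegree ≤ Δ) → (∀ b, Cov (T b).X (G b) c') →
    (∀ x ∈ Q, x ∈ connectedComponentIn (T (l x)).X (x₀ (l x)) ∧ eval x (G (l x)) ≠ 0) →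
    Lvl j D Λ Q l (fun x => connectedComponentIn ((T (l x)).X ∩ NZ (G (l x))) x :: l x)
      (fun x => connectedComponentIn (T (l x)).X (x₀ (l x)))

def S_PCS : Prop := ∀ d j : ℕ, ∃ A : ℕ, ∀ (c D : ℕ) (T : Lab d → Tw d (j + 1) c)
  (ψ : Lab d → MP (j + 1)), (∀ b, ψ b ≠ 0 ∧ (ψ b).totalDegree ≤ D) →
  ∀ (l : E d → Lab d) (B : Finset (E d)), B.Nonempty →
  (∀ x ∈ B, x ∈ (T (l x)).X ∧ eval ((T (l x)).yv x) (ψ (l x)) = 0) →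
  ∃ Q ⊆ B, #B ≤ (c + D + 2) ^ A * #Q ∧
    ∃ (T' : Lab d → Tw d j ((c + 1) * (D + 1))) (x₀ : Lab d → E d),
      ∀ x ∈ Q, x ∈ connectedComponentIn (T' (l x)).X (x₀ (l x))

def S_RND : Prop := ∀ (d j : ℕ) (η : ℝ), 0 < η → ∃ A : ℕ, ∀ c : ℕ, ∃ D Λ c' K : ℕ,
  D ≤ (c + 2) ^ A ∧ Λ ≤ (c + 2) ^ A ∧ c' ≤ (c + 2) ^ A ∧ K ≤ (c + 2) ^ A ∧
  4 ≤ Λ ∧ (Λ : ℝ) ≤ (D : ℝ) ^ η ∧ 2 ≤ D ∧ ∀ (n B : ℕ) (Q : Finset (E d)) (l : E d → Lab d),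
    BuildX.St (j + 1) c n B Q l → B * D ^ (j + 1) ≤ n →
    (∃ Q' ⊆ Q, #Q ≤ 2 * #Q' ∧ ∃ l' core, Lvl (j + 1) D Λ Q' l l' core ∧
      BuildX.St (j + 1) c n (B * D ^ (j + 1)) Q' l') ∨
    ∃ Q' ⊆ Q, #Q ≤ K * #Q' ∧ BuildX.St j c' n B Q' l

def S_MAIN : Prop := ∀ (d j : ℕ) (η : ℝ), 0 < η → ∃ A : ℕ, ∀ c : ℕ, ∃ (D Λ : ℕ → ℕ) (M C : ℕ),
  M ≤ (c + 2) ^ A ∧ C ≤ (c + 2) ^ A ∧
  (∀ i, 1 ≤ i → i ≤ j → 4 ≤ Λ i ∧ (Λ i : ℝ) ≤ (D i : ℝ) ^ η ∧ 2 ≤ D i ∧ D i ^ d ≤ M ∧ Λ i ≤ M) ∧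
  1 ≤ M ∧ ∀ (n B : ℕ) (Q : Finset (E d)) (l₀ : E d → Lab d), BuildX.St j c n B Q l₀ →
    ∃ Q' ⊆ Q, ∃ s jj l core, BuildX.RT D Λ M n B j Q' l₀ s jj l core ∧ #Q ≤ C * 4 ^ s * #Q'

/-- One sharp round in full dimension. -/
def S_R0 : Prop := ∀ d : ℕ, ∃ Λ₀ A : ℕ, 4 ≤ Λ₀ ∧ ∀ (m n B : ℕ) (Q : Finset (E (d + 1)))
  (l : E (d + 1) → Lab (d + 1)), (∀ b, #{z ∈ Q | l z = b} * B ≤ n) → 1 ≤ B → B ≤ n →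
  (∃ Q' ⊆ Q, #Q ≤ 2 * #Q' ∧ ∃ l', Lvl (d + 1) (2 ^ m) Λ₀ Q' l l' (fun _ => Set.univ) ∧
    (∀ b, #{z ∈ Q' | l' z = b} * (B * (2 ^ m) ^ (d + 1)) ≤ n) ∧
    ∀ f : MP (d + 1), f ≠ 0 → ∀ (b : Lab (d + 1)), ∀ S ⊆ Q', (∀ z ∈ S, l z = b ∧ eval z f = 0) →
      #(S.image l') ≤ (f.totalDegree + 2) ^ A * (2 ^ m) ^ d) ∨
  ∃ c' ≤ (2 ^ m + 2) ^ A, ∃ Q' ⊆ Q, #Q ≤ (2 ^ m + 2) ^ A * #Q' ∧ BuildX.St d c' n B Q' l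

/-- The algebraic alternative: a tree whose lower levels have local dimension less than `d`. -/
def Alg {d : ℕ} (η : ℝ) (P : Finset (E d)) (H R' : ℝ) : Prop :=
  ∃ Q ⊆ P, ∃ (D Λ : ℕ → ℕ) (M C s : ℕ) (j : ℕ → ℕ) (l : ℕ → E d → Lab d)
    (core : ℕ → E d → Set (E d)), (M : ℝ) ≤ H ∧ (C : ℝ) ≤ H ∧ 1 ≤ M ∧ Par d η D Λ M ∧
    PTree D Λ M #P Q s j l core ∧ #P ≤ C * 4 ^ s * #Q ∧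
    ((∏ k ∈ range s, D (j k) ^ j k : ℕ) : ℝ) ≤ R' * ((∏ k ∈ range s, D (j k) : ℕ) : ℝ) ^ (d - 1)

def S_TREE : Prop := ∀ (d : ℕ) (η : ℝ), 1 ≤ d → 0 < η → ∃ Λ₀ A : ℕ, 4 ≤ Λ₀ ∧
  ∀ (m r : ℕ) (P : Finset (E d)), 1 ≤ m → 1 ≤ r → (Λ₀ : ℝ) ≤ ((2 : ℝ) ^ m) ^ η →
  (2 ^ m) ^ (d * r) ≤ #P →
  (∃ Q ⊆ P, #P ≤ 2 ^ r * #Q ∧ ∃ l : ℕ → E d → Lab d, (∀ x ∈ Q, ∀ z ∈ Q, l 0 x = l 0 z) ∧
    (∀ i < r, Lvl d (2 ^ m) Λ₀ Q (l i) (l (i + 1)) fun _ => Set.univ) ∧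
    (∀ i ≤ r, ∀ b, #{z ∈ Q | l i z = b} * (2 ^ m) ^ (d * i) ≤ #P) ∧
    ∀ f : MP d, f ≠ 0 → #{z ∈ Q | eval z f = 0} * 2 ^ m ≤ (f.totalDegree + 2) ^ A * #P) ∨
  Alg η P (((2 : ℝ) ^ m + 2) ^ A) (((2 : ℝ) ^ m) ^ r)

/-- The output of the energy package, with the improved bound for `S`. -/
def Pkg {d : ℕ} (g c : ℝ) (P : Finset (E d)) (n u R' R₀ : ℝ) : Prop :=
  ∃ Q ⊆ P, ∃ (l : E d → Lab d) (own : E d → Submodule ℝ (LL d)) (R σ S : ℝ),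
    n ≤ u * #Q ∧ R₀ ≤ R ∧ R ≤ u * R₀ ∧ R ≤ S ∧ 1 ≤ σ ∧ Size Q l σ ∧ n ≤ σ * R ^ d ∧
    #(Q.image l) * σ ≤ u * n ∧ Sep Q l (u * n / (σ * R)) ∧ Own Q own ∧
    (En Q l own : ℝ) ≤ u * n * σ ^ (2 - g) * (R / S) ^ c ∧
    (∀ W, IsDim 1 W → (#{z ∈ Q | z ∈ W} : ℝ) ≤ u * S) ∧ n ≤ u * R' * S ^ (d - 1)

def S_PK : Prop := ∀ (d : ℕ) (g c η : ℝ), 1 ≤ d → 0 < η → 0 ≤ g → 0 ≤ c → g + c ≤ 1 / 3 →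
  g * d + c ≤ 2 → (∀ j : ℕ, 2 ≤ j → j ≤ d → g * j + c ≤ (j - 1) / 3) →
  ∀ (P : Finset (E d)) (H R' R₀ n u : ℝ), Set.InjOn nq (P : Set (E d)) → n = #P → 1 ≤ n → 1 ≤ H →
  0 ≤ R' → Alg η P H R' → u = 3000 * H ^ 5 * n ^ (4 * η) → 1 ≤ R₀ → u * R₀ ^ d ≤ n →
  Pkg g c P n u R' R₀

def S_CORE : Prop := ∀ (d : ℕ) (β : ℕ → ℝ) (b ρ g c c₁ ε : ℝ), 2 ≤ d → (∀ e < d, PD e (β e)) →
  β 0 = 0 → β 1 = 1 → 0 ≤ g → 0 ≤ c → g + c ≤ 1 / 3 → g * d + c ≤ 2 → 0 ≤ ρ → ρ ≤ 1 →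
  (∀ e : ℕ, 2 ≤ e → e < d → β e ≤ e * (1 - ρ)) → β (d - 2) + 1 ≤ b + ρ → 1 + (d - 1) * ρ ≤ b →
  0 ≤ c₁ → c₁ ≤ 1 →
  d + 1 ≤ (2 + g + c * ((d - 1 + c₁) / (d * (d - 1)))) * b + (2 - d * g - c) * ρ →
  d + 1 - c ≤ (2 + g) * b + (1 - d * g - 2 * c) * ρ → 0 < ε →
  ∃ C₀ : ℝ, 1 ≤ C₀ ∧ ∀ (P : Finset (E d)) (n t u R' : ℝ), n = #P → 1 ≤ n → 1 ≤ t → 1 ≤ u →
    Set.InjOn nq (P : Set (E d)) → (∀ q ∈ P, (pin P q : ℝ) ≤ t) → 0 < R' →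
    R' ^ d ≤ n ^ (1 - c₁) → (∀ R₀, 1 ≤ R₀ → u * R₀ ^ d ≤ n → Pkg g c P n u R' R₀) →
    n ≤ (C₀ * u * n ^ ε) ^ (4 * d + 9) * t ^ b

def S_ALG : Prop := ∀ (d : ℕ) (c₁ : ℝ), 17 ≤ d → 0 < c₁ → c₁ ≤ 1 → ∃ η θ n₀ : ℝ, 0 < η ∧ 0 < θ ∧
  ∀ (P : Finset (E d)) (t H R' : ℝ), Set.InjOn nq (P : Set (E d)) → n₀ ≤ #P → 1 ≤ t →
  (∀ q ∈ P, (pin P q : ℝ) ≤ t) → 1 ≤ H → H ≤ (#P : ℝ) ^ θ → 0 < R' →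
  R' ^ d ≤ (#P : ℝ) ^ (1 - c₁) → Alg η P H R' → (#P : ℝ) ^ 2 < t ^ d

def S_GEO : Prop := ∀ d K : ℕ, 17 ≤ d → ∃ C : ℕ, ∀ C' : ℝ, ∃ n₀ : ℝ, ∀ (P : Finset (E d)) (t : ℝ),
  Set.InjOn nq (P : Set (E d)) → n₀ ≤ #P → 1 ≤ t → (∀ q ∈ P, (pin P q : ℝ) ≤ t) →
  t ^ d ≤ (#P : ℝ) ^ 2 →
  ∃ g : Dat d, Geo C K C' g ∧ g.Q ⊆ P ∧ g.N ^ d = #P ∧ #P ≤ C * #g.Q

def S_FIN : Prop := ∀ d : ℕ, 500 ≤ d → ∃ B : ℝ, 1 ≤ B ∧ ∀ (P : Finset (E d)) (t : ℝ), 1 ≤ t →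
  (∀ q ∈ P, (pin P q : ℝ) ≤ t) → (#P : ℝ) ^ 2 ≤ B * t ^ d

def S_RES : Prop := ∀ d : ℕ, 500 ≤ d →
  ∃ c : ℝ, 0 < c ∧ ∀ P : Finset (EuclideanSpace ℝ (Fin d)), 2 ≤ P.card → ∃ q ∈ P,
    c * (P.card : ℝ) ^ (2 / (d : ℝ)) ≤ (Set.ncard {r : ℝ | ∃ x ∈ P, x ≠ q ∧ dist q x = r} : ℝ)

end Pool.Agent.P.MP_5f07f1_co.Z
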