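import Pool.Agent.P.MP_5f07f1_co.ZDefs

namespace Pool.Agent.P.MP_5f07f1_co.Z

open Finset MvPolynomial Pool.Agent.Lib.PolyPart Classical Module

namespace XMAS

lemma split {ι : Type} (J : Finset ι) (P : ι → Prop) (r : ι → ℕ) (e : ℕ) (y : ι → ℝ)
    (hy : ∀ p, 0 ≤ y p) (h : ∀ p ∈ J, ¬ P p → ∃ e' < e, r p = e' + 1) :
    ∑ p ∈ J, y p ≤ ∑ p ∈ J.filter P, y p +
      ∑ e' ∈ range e, ∑ p ∈ J.filter (fun p => r p = e' + 1), y p := by
  simp only [sum_filter]
  rw [sum_comm, ← sum_add_distrib]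
  refine sum_le_sum fun p hp => ?_
  have h0 : ∀ e' ∈ range e, 0 ≤ if r p = e' + 1 then y p else 0 := fun e' _ => by
    split_ifs
    · exact hy p
    · exact le_rfl
  by_cases hP : P p
  · rw [if_pos hP]
    exact le_add_of_nonneg_right (sum_nonneg h0)
  · obtain ⟨e', h1, h2⟩ := h p hp hP
    rw [if_neg hP, zero_add]
    refine le_trans ?_ (single_le_sum h0 (mem_range.2 h1))
    rw [if_pos h2]

lemma mlt {α V ι : Type} [AddCommGroup V] [Module ℝ V] (I : Finset ι) (U : ι → Submodule ℝ V)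
    (Y : ι → Finset α) (w : ℝ) (h : ∀ (x : α) (F : Submodule ℝ V) (S : Finset ι),
      (∀ p ∈ S, p ∈ I ∧ x ∈ Y p ∧ U p = F) → (#S : ℝ) ≤ w) : Mlt I U Y w :=
  fun x F => h x F _ fun _ hp => mem_filter.1 hp

end XMAS

theorem p_MAS (hLD : S_LD) (hR : S_R) (hDIM : S_DIM) : S_MAS := by
  intro d γ γ0 γ1
  obtain ⟨a₀, K, hR⟩ := hR d
  refine ⟨a₀ + 1, K, fun C => ?_⟩
  obtain ⟨C₁, hC₁, hR⟩ := hR C
  refine ⟨max C₁ ((2 * C / γ ^ (d + 1)) ^ (d + 1)), le_max_of_le_left hC₁, fun g hg => ?_⟩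
  have hR := hR g (hg.mono le_rfl (le_max_left _ _))
  intro ι I U Y e i i' a w hi hi' a0 hI hw
  have C1 : (1 : ℝ) ≤ C := by exact_mod_cast hg.one
  have g0 : 0 < γ ^ (d + 1) := pow_pos γ0 _
  have g1 : γ ^ (d + 1) ≤ 1 := pow_le_one₀ γ0.le (by linarith)
  set c : ℝ := 2 * C / γ ^ (d + 1) with hc
  have c2 : 2 / γ ^ (d + 1) ≤ c := div_le_div_of_nonneg_right (by linarith) g0.le
  have c1 : 1 ≤ c := le_trans ((le_div_iff₀ g0).2 (by linarith)) c2
  have c0 : 0 < c := by linarith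
  have cC : c ≤ max C₁ (c ^ (d + 1)) :=
    le_max_of_le_right (le_self_pow₀ c1 (Nat.succ_ne_zero d))
  have M0 : 0 < g.M i := lt_of_lt_of_le one_pos (hg.M1 (hi.trans hi'))
  have M0' : 0 < g.M i' := lt_of_lt_of_le one_pos (hg.M1 hi')
  have L0 : 0 < g.L := lt_of_lt_of_le one_pos hg.L1
  have N0 : 0 < g.N := lt_of_lt_of_le one_pos hg.N1
  obtain ⟨J, F, Y', hJ, hs⟩ := hLD (E d) (ℝ × E d) ι (Lab d) hm γ (C * (g.M i / g.M i') ^ e) a
    (d + 1) I U Y (g.l i') γ0 (by linarith) (by positivity) a0 fun p hp => by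
      obtain ⟨h1, h2, ⟨b, h3⟩, h4, h5⟩ := hI p hp
      refine ⟨(Submodule.finrank_le _).trans (by simp [add_comm]),
        fun y hy => ⟨h4 y hy, fun k => one_ne_zero (congrArg Prod.fst k)⟩, ?_, h5⟩
      have := hg.cross i i' hi hi' e _ ((hDIM d).1 e (U p) h1.le) b (Y p) h2
        fun z hz => ⟨h3 z hz, h4 z hz⟩
      rw [card_image_inst _ (fun a b => instDecidableEqList a b)]
      exact this
  set t : ℝ := a * (g.M i' / g.M i) ^ e with ht
  have t0 : 0 < t := by positivity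
  have et : a * γ ^ (d + 1) / (2 * (C * (g.M i / g.M i') ^ e)) = t / c := by
    rw [ht, hc, div_pow, div_pow]
    field_simp
  rw [et] at hJ
  refine ⟨J.filter fun p => F p = U p.1, Y', fun p hp => ?_, ?_⟩
  · obtain ⟨hp, k⟩ := mem_filter.1 hp
    obtain ⟨h1, h2, h3, -, -, h6, h7⟩ := hJ p hp
    exact ⟨h1, h2, h3, k ▸ h6, (div_le_div_of_nonneg_left t0.le c0 cC).trans h7⟩
  · have sp := XMAS.split J (fun p => F p = U p.1) (fun p => finrank ℝ (F p)) e
      (fun p => (#(Y' p) : ℝ)) (fun _ => Nat.cast_nonneg _) fun p hp k => by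
        obtain ⟨h1, -, -, h4, h5, -⟩ := hJ p hp
        have := Submodule.finrank_lt_finrank_of_lt (lt_of_le_of_ne h4 k)
        rw [(hI _ h1).1] at this
        exact ⟨finrank ℝ (F p) - 1, by omega, by omega⟩
    have key : ∀ e' ∈ range e, 2 / γ ^ (d + 1) *
        ∑ p ∈ J.filter (fun p => finrank ℝ (F p) = e' + 1), (#(Y' p) : ℝ) ≤
        g.L ^ (a₀ + 1) * (w e' * g.N ^ d * g.M i' ^ (d * e') / t ^ d) := by
      intro e' he'
      obtain ⟨w0, hw⟩ := hw e' (mem_range.1 he')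
      have k := hR (ι × Lab d) (J.filter fun p => finrank ℝ (F p) = e' + 1) F Y' e' i' (t / c)
        (w e') hi' (by positivity) w0 (fun p hp => by
          obtain ⟨hp, k⟩ := mem_filter.1 hp
          obtain ⟨h1, h2, h3, -, -, h6, h7⟩ := hJ p hp
          exact ⟨k, h2.trans (hI _ h1).2.1, ⟨p.2, h3⟩, h6.mono γ1, h7⟩) (XMAS.mlt _ _ _ _ fun x F₀ S hS => by
          rcases S.eq_empty_or_nonempty with k | ⟨p₀, k⟩
          · rw [k]
            simpa using w0
          · obtain ⟨k1, k2, k3⟩ := hS p₀ k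
            obtain ⟨k0, k1⟩ := mem_filter.1 k1
            refine le_trans ?_ (hw x F₀ (k3 ▸ k1) (k3 ▸ (hJ p₀ k0).2.2.2.2.2.1.1 x k2))
            refine Nat.cast_le.2 (card_le_card_of_injOn Prod.fst (fun p hp => ?_)
              fun p hp q hq e => ?_)
            · obtain ⟨m1, m2, m3⟩ := hS p hp
              obtain ⟨h1, h2, -, h4, -⟩ := hJ p (mem_filter.1 m1).1
              exact mem_coe.2 (mem_filter.2 ⟨h1, h2 m2, m3 ▸ h4⟩)
            · obtain ⟨m1, m2, -⟩ := hS p hp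
              obtain ⟨n1, n2, -⟩ := hS q hq
              exact Prod.ext e (((hJ p (mem_filter.1 m1).1).2.2.1 x m2).symm.trans
                ((hJ q (mem_filter.1 n1).1).2.2.1 x n2)))
      have cL : c ^ (d + 1) ≤ g.L := (le_max_right _ _).trans hg.big
      have z0 : 0 ≤ g.L ^ a₀ * (w e' * g.N ^ d * g.M i' ^ (d * e') / t ^ d) := by positivity
      calc _ ≤ c * (w e' * g.L ^ a₀ * g.N ^ d * g.M i' ^ (d * e') / (t / c) ^ d) :=
            mul_le_mul c2 k (sum_nonneg fun _ _ => Nat.cast_nonneg _) c0.le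
        _ = c ^ (d + 1) * (g.L ^ a₀ * (w e' * g.N ^ d * g.M i' ^ (d * e') / t ^ d)) := by
            rw [div_pow, pow_succ]
            field_simp
        _ ≤ g.L * (g.L ^ a₀ * (w e' * g.N ^ d * g.M i' ^ (d * e') / t ^ d)) :=
            mul_le_mul_of_nonneg_right cL z0
        _ = _ := by rw [pow_succ]; ring
    refine hs.trans ((mul_le_mul_of_nonneg_left sp (by positivity)).trans ?_)
    rw [mul_add, mul_sum (range e), mul_sum (range e)]
    exact add_le_add (mul_le_mul_of_nonneg_right (c2.trans cC)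
      (sum_nonneg fun _ _ => Nat.cast_nonneg _)) (sum_le_sum key)

end Pool.Agent.P.MP_5f07f1_co.Z
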