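import Pool.Agent.P.MP_5f07f1_co.ZDefs
import Pool.Agent.P.MP_5f07f1_co.Flat

/-! Rich directions: from the abstract form to the lifted point set. -/

namespace Pool.Agent.P.MP_5f07f1_co.Z

open Finset MvPolynomial Pool.Agent.Lib.PolyPart Classical Module

namespace XRDQ

lemma quad {V W : Type} [AddCommGroup V] [Module ℝ V] [AddCommGroup W] [Module ℝ W]
    (φ : V →ₗ[ℝ] W) (hφ : Function.Injective φ) {v1 v2 v3 : V}
    (h : LinearIndependent ℝ ![v1, v2, v3]) {a1 a2 a3 a4 : ℝ} (h1 : a1 ≠ 0) (h2 : a2 ≠ 0)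
    (h3 : a3 ≠ 0) {w1 w2 w3 w4 : W} (e1 : w1 = a1 • φ v1) (e2 : w2 = a2 • φ (-v2))
    (e3 : w3 = a3 • φ v3) (e4 : w4 = a4 • φ (v1 + v2 + v3)) :
    LinearIndependent ℝ ![w1, w2, w3] ∧ w4 ∈ Submodule.span ℝ {w1, w2, w3} := by
  constructor
  · rw [Fintype.linearIndependent_iff] at h ⊢
    intro g hg
    rw [Fin.sum_univ_three] at hg
    have h4 := h ![g 0 * a1, -(g 1 * a2), g 2 * a3] (hφ (by
      rw [Fin.sum_univ_three, map_zero, ← hg, e1, e2, e3]
      simp [mul_smul]))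
    have b0 : g 0 * a1 = 0 := h4 0
    have b1 : -(g 1 * a2) = 0 := h4 1
    have b2 : g 2 * a3 = 0 := h4 2
    intro i
    fin_cases i
    · simpa [h1] using b0
    · simpa [h2] using b1
    · simpa [h3] using b2
  · have : w4 = (a4 / a1) • w1 + (-(a4 / a2)) • w2 + (a4 / a3) • w3 := by
      rw [e1, e2, e3, e4, smul_smul, smul_smul, smul_smul, neg_mul, div_mul_cancel₀ _ h1,
        div_mul_cancel₀ _ h2, div_mul_cancel₀ _ h3]
      simp [smul_add]
    rw [this]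
    refine Submodule.add_mem _ (Submodule.add_mem _ ?_ ?_) ?_ <;>
      exact Submodule.smul_mem _ _ (Submodule.subset_span (by simp))

variable {d : ℕ}

lemma lf_inj : Function.Injective (lf : E d → E d × ℝ) := fun _ _ h => congrArg Prod.fst h

lemma line2 (Q : Finset (E d)) : Line2 (Q.image lf) := by
  intro x hx y hy z hz t hxy e
  obtain ⟨a, -, rfl⟩ := mem_image.1 hx
  obtain ⟨b, -, rfl⟩ := mem_image.1 hy
  obtain ⟨c, -, rfl⟩ := mem_image.1 hz
  have hab : a ≠ b := fun h => hxy (by rw [h])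
  by_cases ht : t = 0
  · left
    rw [e, ht, zero_smul, add_zero]
  · right
    have h1 := LiftX.lam_eq (x' := a) (y' := c) hab ht (congrArg Prod.fst e) (congrArg Prod.snd e)
    have h2 := LiftX.lam_eq (x' := a) (y' := b) hab one_ne_zero (by simp) (by ring)
    rw [e, ← h1, h2, one_smul, add_sub_cancel]

lemma plane {C K : ℕ} {C' : ℝ} {g : Dat d} (hg : Geo C K C' g) (hK : 2 ≤ K) (x y z : E d × ℝ)
    (A : Finset (E d × ℝ)) (hA : ∀ u ∈ A, u ∈ g.Q.image lf ∧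
      u - x ∈ Submodule.span ℝ {y - x, z - x}) : (#A : ℝ) ≤ g.N ^ 2 := by
  let U : Submodule ℝ (LL d) := Submodule.span ℝ (Set.range ![(1, x), (1, y), (1, z)])
  have hU : finrank ℝ U ≤ 3 :=
    finrank_range_le_card (R := ℝ) (![(1, x), (1, y), (1, z)] : Fin 3 → LL d)
  have h1 := hg.flat 1 _ (isDim_circle hU)
  have h2 : #A ≤ #{q ∈ g.Q | q ∈ {x | lift x ∈ U}} := by
    refine card_le_card_of_injOn Prod.fst (fun u hu => ?_) fun u hu u' hu' e => ?_
    · obtain ⟨h3, h4⟩ := hA u hu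
      obtain ⟨q, hq, rfl⟩ := mem_image.1 h3
      obtain ⟨a, b, h5⟩ := Submodule.mem_span_pair.1 h4
      refine mem_coe.2 (mem_filter.2 ⟨hq, ?_⟩)
      have h6 : lift q = (1 - a - b) • ((1, x) : LL d) + a • (1, y) + b • (1, z) := by
        refine Prod.ext (by simp [lift]; ring) ?_
        change lf q = (1 - a - b) • x + a • y + b • z
        rw [← sub_add_cancel (lf q) x, ← h5]
        module
      change lift q ∈ U
      rw [h6]
      refine Submodule.add_mem _ (Submodule.add_mem _ ?_ ?_) ?_ <;>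
        exact Submodule.smul_mem _ _ (Submodule.subset_span (by simp))
    · obtain ⟨q, -, rfl⟩ := mem_image.1 (hA u hu).1
      obtain ⟨q', -, rfl⟩ := mem_image.1 (hA u' hu').1
      exact congrArg lf e
  have h3 := hg.pow_le hK
  have h4 := hg.N1
  calc (#A : ℝ) ≤ _ := Nat.cast_le.2 h2
    _ ≤ g.L ^ 2 * g.N ^ 1 := h1
    _ ≤ g.N * g.N ^ 1 := by gcongr
    _ = g.N ^ 2 := by ring

/-- the direction of a lifted chord determines the bisector -/
noncomputable def phi (d : ℕ) : (E d × ℝ) →ₗ[ℝ] ℝ × E d :=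
  (LinearMap.snd ℝ (E d) ℝ).prod ((2 : ℝ) • LinearMap.fst ℝ (E d) ℝ)

lemma phi_inj : Function.Injective (phi d) := by
  intro u w h
  have h1 : u.2 = w.2 := congrArg Prod.fst h
  have h2 : (2 : ℝ) • u.1 = (2 : ℝ) • w.1 := congrArg Prod.snd h
  exact Prod.ext (smul_right_injective _ two_ne_zero h2) h1

lemma hm_dual {x y : E d} (h : nq x ≠ nq y) :
    hm (dual (x, y)) = (nq y - nq x)⁻¹ • phi d (lf y - lf x) := by
  have h' : nq y - nq x ≠ 0 := sub_ne_zero.2 h.symm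
  refine Prod.ext ?_ ?_
  · change (1 : ℝ) = (nq y - nq x)⁻¹ * (nq y - nq x)
    rw [inv_mul_cancel₀ h']
  · change (2 / (nq y - nq x)) • (y - x) = (nq y - nq x)⁻¹ • (2 : ℝ) • (y - x)
    rw [smul_smul, div_eq_inv_mul]

end XRDQ

open XRDQ in
theorem p_RDQ (hRD : S_RD) (hE2 : S_E2) (hE3 : S_E3) : S_RDQ := by
  intro d hd
  obtain ⟨K2, h2⟩ := hE2 d hd
  obtain ⟨K3, h3⟩ := hE3 d hd
  refine ⟨max (max K2 K3) 2, fun C => ?_⟩
  obtain ⟨C2, c2, h2⟩ := h2 C
  obtain ⟨C3, -, h3⟩ := h3 C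
  obtain ⟨C4, c4, hR⟩ := hRD (max C2 C3) (le_max_of_le_left c2)
  refine ⟨max (max C2 C3) C4, le_max_of_le_right c4, fun g hg W v L₃ hv hvN hL hmu hq => ?_⟩
  have h2 := h2 g (hg.mono (by omega) ((le_max_left _ _).trans (le_max_left _ _)))
  have h3 := h3 g (hg.mono (by omega) ((le_max_right _ _).trans (le_max_left _ _)))
  have hN := hg.N1
  generalize hH : {p ∈ chords g.Q | dual p ∈ W} = H at hq ⊢
  have mH : ∀ p, p ∈ H ↔ p ∈ chords g.Q ∧ dual p ∈ W := fun p => by rw [← hH, mem_filter]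
  have mC : ∀ p ∈ chords g.Q, p.1 ∈ g.Q ∧ p.2 ∈ g.Q ∧ p.1 ≠ p.2 ∧ nq p.1 ≠ nq p.2 := fun p hp => by
    simp only [chords, mem_filter, mem_product] at hp
    exact ⟨hp.1.1, hp.1.2, hp.2, fun e => hp.2 (hg.inj hp.1.1 hp.1.2 e)⟩
  let G : Finset ((E d × ℝ) × (E d × ℝ)) := H.map ⟨Prod.map lf lf, lf_inj.prodMap lf_inj⟩
  have mG : ∀ q ∈ G, ∃ x y, (x, y) ∈ chords g.Q ∧ dual (x, y) ∈ W ∧ q = (lf x, lf y) :=
    fun q hq => by
      obtain ⟨p, hp, rfl⟩ := mem_map.1 hq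
      exact ⟨p.1, p.2, ((mH p).1 hp).1, ((mH p).1 hp).2, rfl⟩
  have cG : #G = #H := card_map _
  let ω : (E d × ℝ) × (E d × ℝ) → E d := fun p => dual (p.1.1, p.2.1)
  have kG : ∀ q ∈ G, ω q ∈ W ∧ ∃ a : ℝ, a ≠ 0 ∧ hm (ω q) = a • phi d (q.2 - q.1) := fun q hq => by
    obtain ⟨x, y, h1, h4, rfl⟩ := mG q hq
    have h5 := (mC _ h1).2.2.2
    exact ⟨h4, _, inv_ne_zero (sub_ne_zero.2 h5.symm), hm_dual h5⟩
  have key := hR d (E d × ℝ) (E d) (g.Q.image lf) G ω g.N v L₃ (by omega) hN hv hvN hL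
    ((Nat.cast_le.2 card_image_le).trans hg.card) (line2 _)
    ⟨h2.trans (by gcongr; exact le_max_left _ _), h3.trans (by gcongr; exact le_max_right _ _)⟩
    (fun x _ y _ z _ => plane hg (le_max_right _ _) x y z _ fun u hu => mem_filter.1 hu)
    (fun q hq => by
      obtain ⟨x, y, h1, -, rfl⟩ := mG q hq
      exact mem_product.2 ⟨mem_image_of_mem _ (mC _ h1).1, mem_image_of_mem _ (mC _ h1).2.1⟩)
    (fun q hq e => by
      obtain ⟨x, y, h1, -, rfl⟩ := mG q hq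
      exact (mC _ h1).2.2.1 (lf_inj e))
    (fun p hp q hq e => by
      obtain ⟨x, y, h1, -, rfl⟩ := mG p hp
      obtain ⟨x', y', h1', -, rfl⟩ := mG q hq
      obtain ⟨a0, a1, a2⟩ := dual_eq (mC _ h1).2.2.2 (mC _ h1').2.2.2 e
      exact ⟨_, a0, Prod.ext (sub_eq_of_eq_add' a1) (sub_eq_of_eq_add' a2)⟩)
    (fun c => by
      suffices h : ∀ S : Finset ((E d × ℝ) × (E d × ℝ)), (∀ q ∈ S, q ∈ G ∧ ω q = c) →
          (#S : ℝ) ≤ 2 * v * g.N ^ (d - 2) from h _ fun q hq => by simpa using hq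
      intro S mS
      rcases S.eq_empty_or_nonempty with rfl | ⟨q0, h0⟩
      · simp only [card_empty, Nat.cast_zero]
        positivity
      obtain ⟨x, y, h1, h4, rfl⟩ := mG _ (mS _ h0).1
      refine le_trans (Nat.cast_le.2 ?_) (hmu _ h1 h4)
      refine card_le_card_of_injOn (fun q => (q.1.1, q.2.1)) (fun q hq => ?_) fun q hq q' hq' e => ?_
      · obtain ⟨x', y', h5, -, rfl⟩ := mG _ (mS _ hq).1
        exact mem_coe.2 (mem_filter.2 ⟨h5, (mS _ hq).2.trans (mS _ h0).2.symm⟩)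
      · obtain ⟨x', y', -, -, rfl⟩ := mG _ (mS _ hq).1
        obtain ⟨x'', y'', -, -, rfl⟩ := mG _ (mS _ hq').1
        obtain ⟨rfl, rfl⟩ : x' = x'' ∧ y' = y'' := Prod.mk.inj e
        rfl)
    (by
      rw [cG]
      refine le_trans (Nat.cast_le.2 (card_le_card fun t ht => ?_)) hq
      simp only [mem_image] at ht
      obtain ⟨c, hc, rfl⟩ := ht
      simp only [Cyc, mem_filter] at hc
      obtain ⟨-, g1, g2, g3, g4, g5⟩ := hc
      obtain ⟨w1, a1, n1, e1⟩ := kG _ g1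
      obtain ⟨w2, a2, n2, e2⟩ := kG _ g2
      obtain ⟨w3, a3, n3, e3⟩ := kG _ g3
      obtain ⟨w4, a4, -, e4⟩ := kG _ g4
      simp only [Quad, mem_filter, mem_product, shp]
      exact ⟨⟨w1, w2, w3, w4⟩, quad (phi d) phi_inj g5 n1 n2 n3 e1 (by rw [e2, neg_sub]) e3
        (a4 := a4) (by rw [e4]; simp)⟩)
  rw [cG] at key
  exact key.trans (by gcongr; exact le_max_right _ _)

end Pool.Agent.P.MP_5f07f1_co.Z
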