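import Pool.Agent.P.MP_5f07f1_co.ZDefs

/-! Rich lines in the plane. -/

namespace Pool.Agent.P.MP_5f07f1_co.Z

open Finset MvPolynomial Pool.Agent.Lib.PolyPart Classical Module

namespace XSTP

abbrev Sb := Submodule ℝ (ℝ × E 2)

lemma span_eq {U : Sb} (hU : finrank ℝ U = 2) {x y : E 2} (h : x ≠ y) (hx : hm x ∈ U)
    (hy : hm y ∈ U) : Submodule.span ℝ {hm x, hm y} = U := by
  have hi : LinearIndependent ℝ ![hm x, hm y] := by
    refine (LinearIndependent.pair_iff' fun e => one_ne_zero (congrArg Prod.fst e)).2 fun a e => ?_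
    have h1 : a * 1 = (1 : ℝ) := congrArg Prod.fst e
    have h2 : a • x = y := congrArg Prod.snd e
    rw [show a = 1 by linarith, one_smul] at h2
    exact h h2
  have h2 := finrank_span_eq_card hi
  rw [Matrix.range_cons_cons_empty, Fintype.card_fin] at h2
  refine Submodule.eq_of_le_of_finrank_eq (Submodule.span_le.2 ?_) (h2.trans hU.symm)
  rintro _ (rfl | rfl)
  exacts [hx, hy]

lemma line_eq {U U' : Sb} (hU : finrank ℝ U = 2) (hU' : finrank ℝ U' = 2) {x y : E 2} (h : x ≠ y)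
    (hx : hm x ∈ U) (hy : hm y ∈ U) (hx' : hm x ∈ U') (hy' : hm y ∈ U') : U = U' :=
  (span_eq hU h hx hy).symm.trans (span_eq hU' h hx' hy')

lemma on_line {U : Sb} (hU : finrank ℝ U = 2) {x y : E 2} (h : x ≠ y) (hx : hm x ∈ U)
    (hy : hm y ∈ U) {z : E 2} (hz : hm z ∈ U) : ∃ t : ℝ, z = x + t • (y - x) := by
  rw [← span_eq hU h hx hy, Submodule.mem_span_pair] at hz
  obtain ⟨a, b, e⟩ := hz
  have h1 : a * 1 + b * 1 = (1 : ℝ) := congrArg Prod.fst e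
  have h2 : a • x + b • y = z := congrArg Prod.snd e
  refine ⟨b, ?_⟩
  rw [← h2, show a = 1 - b by linarith]
  module

lemma line_zero (G : MP 2) (x v : E 2) {t₀ : ℝ} (h : eval (x + t₀ • v) G ≠ 0) (T : Finset ℝ)
    (hT : ∀ t ∈ T, eval (x + t • v) G = 0) : #T ≤ G.totalDegree := by
  let f : Fin 2 → Polynomial ℝ := fun i => Polynomial.C (v i) * Polynomial.X + Polynomial.C (x i)
  have hd := aeval_natDegree_le G le_rfl f (n := 1) fun i => Polynomial.natDegree_linear_le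
  have he : ∀ t, (aeval f G).eval t = eval (x + t • v) G := by
    intro t
    clear hd h hT
    induction G using MvPolynomial.induction_on with
    | C a => simp
    | add p q hp hq => simp [hp, hq]
    | mul_X p i hp =>
      rw [map_mul, map_mul, Polynomial.eval_mul, hp, aeval_X, eval_X]
      simp only [f, Polynomial.eval_add, Polynomial.eval_mul, Polynomial.eval_C, Polynomial.eval_X,
        Pi.add_apply, Pi.smul_apply, smul_eq_mul]
      ring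
  have h0 : aeval f G ≠ 0 := fun e => h (by rw [← he, e, Polynomial.eval_zero])
  refine (Polynomial.card_le_degree_of_subset_roots fun t ht => ?_).trans (hd.trans (mul_one _).le)
  exact (Polynomial.mem_roots h0).2 ((he t).trans (hT t ht))

/-- The line of `U` lies in the zero set of `G`. -/
def In (G : MP 2) (U : Sb) : Prop := ∀ z : E 2, hm z ∈ U → eval z G = 0

lemma zeros_le {G : MP 2} {U : Sb} (hU : finrank ℝ U = 2) {x y : E 2} (h : x ≠ y) (hx : hm x ∈ U)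
    (hy : hm y ∈ U) (hG : ¬ In G U) (B : Finset (E 2))
    (hB : ∀ z ∈ B, hm z ∈ U ∧ eval z G = 0) : #B ≤ G.totalDegree := by
  obtain ⟨z, hz⟩ := not_forall.1 hG
  obtain ⟨h1, h2⟩ := Classical.not_imp.1 hz
  obtain ⟨t₀, rfl⟩ := on_line hU h hx hy h1
  choose! t ht using fun z (hz : z ∈ B) => on_line hU h hx hy (hB z hz).1
  rw [← card_image_of_injOn (f := t) fun z hz z' hz' e => by rw [ht z hz, ht z' hz', e]]
  refine line_zero G x (y - x) h2 _ fun s hs => ?_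
  obtain ⟨z, hz, rfl⟩ := mem_image.1 hs
  rw [← ht z hz]
  exact (hB z hz).2

lemma exists_fun {U : Sb} (hU : finrank ℝ U = 2) :
    ∃ φ : Dual ℝ (ℝ × E 2), ∀ w, w ∈ U ↔ φ w = 0 := by
  have h3 : finrank ℝ (ℝ × E 2) = 3 := by simp
  obtain ⟨φ, h0, h1⟩ := U.exists_le_ker_of_lt_top (lt_top_iff_ne_top.2 fun e => by
    rw [e, finrank_top, h3] at hU
    omega)
  have h2 := Dual.finrank_ker_add_one_of_ne_zero h0
  have h4 : U = LinearMap.ker φ := Submodule.eq_of_le_of_finrank_eq h1 (by omega)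
  exact ⟨φ, fun w => by rw [h4, LinearMap.mem_ker]⟩

lemma lines_le {G : MP 2} (hG : G ≠ 0) (𝓛 : Finset Sb)
    (h : ∀ U ∈ 𝓛, finrank ℝ U = 2 ∧ (∃ x, hm x ∈ U) ∧ In G U) : #𝓛 ≤ G.totalDegree := by
  obtain ⟨p, hp⟩ : ∃ p, eval p G ≠ 0 := by
    by_contra hc
    exact hG (MvPolynomial.funext fun x => by simpa using not_exists.1 hc x)
  choose! φ hφ using fun U (hU : U ∈ 𝓛) => exists_fun (h U hU).1
  have hp' : ∀ U ∈ 𝓛, φ U (hm p) ≠ 0 := fun U hU e => hp ((h U hU).2.2 p ((hφ U hU _).2 e))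
  have dec : ∀ w : ℝ × E 2, w = w.1 • hm p + (0, w.2 - w.1 • p) := fun w => by
    ext <;> simp [hm]
  obtain ⟨v, hv⟩ := Dual.exists_forall_ne_zero_of_forall_exists
    (fun q : 𝓛 × 𝓛 => (if q.1 = q.2 then φ q.1 else φ q.1 (hm p) • φ q.2 - φ q.2 (hm p) • φ q.1)
      ∘ₗ LinearMap.inr ℝ ℝ (E 2)) (by
    rintro ⟨⟨U, hU⟩, ⟨U', hU'⟩⟩
    by_contra hc
    have hc' := fun v => not_not.1 (not_exists.1 hc v)
    simp only [LinearMap.comp_apply, LinearMap.inr_apply, Subtype.mk.injEq] at hc'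
    by_cases e : U = U'
    · obtain ⟨x, hx⟩ := (h U hU).2.1
      have h1 := (hφ U hU _).1 hx
      simp only [if_pos e] at hc'
      rw [dec (hm x), map_add, hc', map_smul] at h1
      exact hp' U hU (by simpa [hm] using h1)
    · simp only [if_neg e, LinearMap.sub_apply, LinearMap.smul_apply, smul_eq_mul] at hc'
      refine e (Submodule.eq_of_le_of_finrank_eq (fun w hw => (hφ U' hU' w).2 ?_)
        ((h U hU).1.trans (h U' hU').1.symm))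
      have h1 := (hφ U hU w).1 hw
      have h2 := hc' (w.2 - w.1 • p)
      rw [dec w, map_add, map_smul, smul_eq_mul] at h1 ⊢
      refine mul_left_cancel₀ (hp' U hU) ?_
      linear_combination h2 + φ U' (hm p) * h1)
  simp only [LinearMap.comp_apply, LinearMap.inr_apply] at hv
  have hv1 : ∀ U ∈ 𝓛, φ U (0, v) ≠ 0 := fun U hU => by simpa using hv (⟨U, hU⟩, ⟨U, hU⟩)
  let t : Sb → ℝ := fun U => -(φ U (hm p) / φ U (0, v))
  rw [← card_image_of_injOn (f := t) fun U hU U' hU' e => ?_]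
  · refine line_zero G p v (t₀ := 0) (by simpa using hp) _ fun s hs => ?_
    obtain ⟨U, hU, rfl⟩ := mem_image.1 hs
    refine (h U hU).2.2 _ ((hφ U hU _).2 ?_)
    have e : hm (p + t U • v) = hm p + t U • ((0 : ℝ), v) := by ext <;> simp [hm]
    rw [e, map_add, map_smul, smul_eq_mul, neg_mul, div_mul_cancel₀ _ (hv1 U hU), add_neg_cancel]
  · by_contra hc
    have h1 := hv (⟨U, hU⟩, ⟨U', hU'⟩)
    simp only [Subtype.mk.injEq, if_neg hc, LinearMap.sub_apply, LinearMap.smul_apply,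
      smul_eq_mul] at h1
    have h2 := (div_eq_div_iff (hv1 U hU) (hv1 U' hU')).1 (neg_injective e)
    exact h1 (by linear_combination h2)

lemma sum_le {β : Type} (𝒰 : Finset Sb) (P : Sb → Finset β) (T : Finset β)
    (h1 : ∀ U ∈ 𝒰, P U ⊆ T) (h2 : ∀ U ∈ 𝒰, ∀ U' ∈ 𝒰, ∀ b ∈ P U, b ∈ P U' → U = U') :
    ∑ U ∈ 𝒰, #(P U) ≤ #T := by
  rw [← card_biUnion fun U hU U' hU' e => disjoint_left.2 fun b hb hb' =>
    e (h2 U hU U' hU' b hb hb')]
  exact card_le_card (biUnion_subset.2 h1)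

lemma partner {α β : Type} [DecidableEq α] [DecidableEq β] (B : Finset α) (lab : α → β) :
    #B ≤ #(B.image lab) + #{q ∈ B ×ˢ B | q.1 ≠ q.2 ∧ lab q.1 = lab q.2} := by
  rw [← card_filter_add_card_filter_not (s := B) fun x => ∀ y ∈ B, lab x = lab y → x = y]
  refine add_le_add (card_le_card_of_injOn lab (fun x hx => ?_) fun x hx y hy e => ?_)
    (le_trans (card_le_card fun x hx => ?_) (card_image_le (f := Prod.fst)))
  · exact mem_coe.2 (mem_image_of_mem _ (mem_filter.1 (mem_coe.1 hx)).1)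
  · exact (mem_filter.1 (mem_coe.1 hx)).2 y (mem_filter.1 (mem_coe.1 hy)).1 e
  · obtain ⟨h1, h2⟩ := mem_filter.1 hx
    push Not at h2
    obtain ⟨y, hy, e, e'⟩ := h2
    exact mem_image.2 ⟨(x, y), mem_filter.2 ⟨mem_product.2 ⟨h1, hy⟩, e', e⟩, rfl⟩

lemma same_le {α β : Type} [DecidableEq β] (W : Finset α) (lab : α → β) {c m : ℝ}
    (h : ∀ b, (#{x ∈ W | lab x = b} : ℝ) * c ≤ m) :
    (#{q ∈ W ×ˢ W | lab q.1 = lab q.2} : ℝ) * c ≤ #W * m := by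
  rw [card_eq_sum_card_fiberwise (f := Prod.snd) (t := W)
    fun q hq => mem_coe.2 (mem_product.1 (mem_filter.1 (mem_coe.1 hq)).1).2]
  push_cast
  rw [sum_mul, ← nsmul_eq_mul]
  refine sum_le_card_nsmul _ _ _ fun y _ => le_trans (le_of_eq ?_) (h (lab y))
  congr 2
  refine card_bij (fun q _ => q.1) (fun q hq => ?_) (fun q hq q' hq' e => ?_) fun x hx => ?_
  · obtain ⟨h1, h2⟩ := mem_filter.1 hq
    obtain ⟨h3, h4⟩ := mem_filter.1 h1
    exact mem_filter.2 ⟨(mem_product.1 h3).1, h2 ▸ h4⟩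
  · exact Prod.ext e ((mem_filter.1 hq).2.trans (mem_filter.1 hq').2.symm)
  · obtain ⟨h1, h2⟩ := mem_filter.1 hx
    exact ⟨(x, y), mem_filter.2 ⟨mem_filter.2 ⟨mem_product.2 ⟨h1, ‹_›⟩, h2⟩, rfl⟩, rfl⟩

variable {A : Finset (E 2)} {𝒰 : Finset Sb} {Y : Sb → Finset (E 2)} {a : ℝ}

lemma small (h : ∀ U ∈ 𝒰, finrank ℝ U = 2 ∧ Y U ⊆ A ∧ (∀ y ∈ Y U, hm y ∈ U) ∧ 2 ≤ #(Y U)) :
    ∑ U ∈ 𝒰, #(Y U) ≤ #A * #A := by
  rw [← card_product]
  refine le_trans (sum_le_sum fun U hU => ?_) (sum_le 𝒰 (fun U => (Y U).offDiag) (A ×ˢ A)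
    (fun U hU q hq => ?_) fun U hU U' hU' q hq hq' => ?_)
  · rw [offDiag_card]
    have := Nat.mul_le_mul_right #(Y U) (h U hU).2.2.2
    omega
  · obtain ⟨h1, h2, -⟩ := mem_offDiag.1 hq
    exact mem_product.2 ⟨(h U hU).2.1 h1, (h U hU).2.1 h2⟩
  · obtain ⟨h1, h2, h3⟩ := mem_offDiag.1 hq
    obtain ⟨h4, h5, -⟩ := mem_offDiag.1 hq'
    exact line_eq (h U hU).1 (h U' hU').1 h3 ((h U hU).2.2.1 _ h1) ((h U hU).2.2.1 _ h2)
      ((h U' hU').2.2.1 _ h4) ((h U' hU').2.2.1 _ h5)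

lemma inside (h : ∀ U ∈ 𝒰, finrank ℝ U = 2 ∧ Y U ⊆ A ∧ (∀ y ∈ Y U, hm y ∈ U) ∧ 2 * #𝒰 ≤ #(Y U)) :
    ∑ U ∈ 𝒰, #(Y U) ≤ 2 * #A := by
  let P : Sb → Finset (E 2) := fun U => {y ∈ Y U | ∀ U' ∈ 𝒰, hm y ∈ U' → U' = U}
  refine le_trans ?_ (Nat.mul_le_mul_left 2 (sum_le 𝒰 P A
    (fun U hU => (filter_subset _ _).trans (h U hU).2.1) fun U hU U' hU' y hy hy' => ?_))
  · rw [mul_sum]
    refine sum_le_sum fun U hU => ?_
    have h1 := card_filter_add_card_filter_not (s := Y U) fun y => ∀ U' ∈ 𝒰, hm y ∈ U' → U' = U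
    have h2 : #{y ∈ Y U | ¬ ∀ U' ∈ 𝒰, hm y ∈ U' → U' = U} ≤ #𝒰 := by
      refine card_le_card_of_forall_subsingleton (fun y U' => hm y ∈ U' ∧ U' ≠ U)
        (fun y hy => ?_) fun U' hU' x hx y hy => ?_
      · have := (mem_filter.1 hy).2
        push Not at this
        exact this
      · by_contra e
        exact hx.2.2 (line_eq (h U' hU').1 (h U hU).1 e hx.2.1 hy.2.1
          ((h U hU).2.2.1 _ (mem_filter.1 hx.1).1) ((h U hU).2.2.1 _ (mem_filter.1 hy.1).1))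
    have h3 := (h U hU).2.2.2
    simp only [P]
    omega
  · exact (mem_filter.1 hy').2 U hU ((h U hU).2.2.1 _ (mem_filter.1 hy).1)

lemma outside (hD : S_DIM) {G : MP 2} {C D : ℕ} {m : ℝ} {lab : E 2 → Set (E 2)}
    (hc : Cells C D m {x ∈ A | eval x G ≠ 0} lab) (hG : G.totalDegree ≤ C * D)
    (h : ∀ U ∈ 𝒰, finrank ℝ U = 2 ∧ Y U ⊆ A ∧ (∀ y ∈ Y U, hm y ∈ U) ∧ 2 ≤ #(Y U) ∧
      4 * (C * D) ≤ #(Y U) ∧ ¬ In G U) :
    (∑ U ∈ 𝒰, (#(Y U) : ℝ)) * (D : ℝ) ^ 2 ≤ 2 * (#A * m) := by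
  have hm0 : 0 ≤ m := le_trans (by positivity) (hc.1 ∅)
  have h0 := same_le _ lab hc.1
  let P : Sb → Finset (E 2 × E 2) := fun U =>
    {q ∈ {x ∈ Y U | eval x G ≠ 0} ×ˢ {x ∈ Y U | eval x G ≠ 0} | q.1 ≠ q.2 ∧ lab q.1 = lab q.2}
  have sub : ∀ U ∈ 𝒰, {x ∈ Y U | eval x G ≠ 0} ⊆ {x ∈ A | eval x G ≠ 0} :=
    fun U hU => filter_subset_filter _ (h U hU).2.1
  have h1 := sum_le 𝒰 P
    {q ∈ {x ∈ A | eval x G ≠ 0} ×ˢ {x ∈ A | eval x G ≠ 0} | lab q.1 = lab q.2}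
    (fun U hU q hq => mem_filter.2 ⟨product_subset_product (sub U hU) (sub U hU)
      (mem_filter.1 hq).1, (mem_filter.1 hq).2.2⟩) fun U hU U' hU' q hq hq' => by
      obtain ⟨h1, h2⟩ := mem_product.1 (mem_filter.1 hq).1
      obtain ⟨h3, h4⟩ := mem_product.1 (mem_filter.1 hq').1
      exact line_eq (h U hU).1 (h U' hU').1 (mem_filter.1 hq).2.1
        ((h U hU).2.2.1 _ (mem_filter.1 h1).1) ((h U hU).2.2.1 _ (mem_filter.1 h2).1)
        ((h U' hU').2.2.1 _ (mem_filter.1 h3).1) ((h U' hU').2.2.1 _ (mem_filter.1 h4).1)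
  have h2 : ∑ U ∈ 𝒰, #(Y U) ≤ 2 * ∑ U ∈ 𝒰, #(P U) := by
    rw [mul_sum]
    refine sum_le_sum fun U hU => ?_
    obtain ⟨k1, -, k3, k4, k5, k6⟩ := h U hU
    obtain ⟨x, hx, y, hy, e⟩ := one_lt_card.1 k4
    have a1 : #(Y U) ≤ #{x ∈ Y U | eval x G ≠ 0} + G.totalDegree :=
      (card_filter_add_card_filter_not _).symm.trans_le (Nat.add_le_add_left
        (zeros_le k1 e (k3 x hx) (k3 y hy) k6 _
          fun z hz => ⟨k3 z (mem_filter.1 hz).1, not_not.1 (mem_filter.1 hz).2⟩) _)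
    have a3 := hc.2 1 _ ((hD 2).1 1 U k1.le) _ (sub U hU) fun z hz => k3 z (mem_filter.1 hz).1
    have a4 : _ ≤ _ + #(P U) := partner {x ∈ Y U | eval x G ≠ 0} lab
    rw [pow_one] at a3
    omega
  have h3 : (∑ U ∈ 𝒰, (#(Y U) : ℝ)) ≤ 2 * (#{q ∈ {x ∈ A | eval x G ≠ 0} ×ˢ
      {x ∈ A | eval x G ≠ 0} | lab q.1 = lab q.2} : ℝ) := by
    exact_mod_cast h2.trans (Nat.mul_le_mul_left 2 h1)
  have h4 : (#{x ∈ A | eval x G ≠ 0} : ℝ) ≤ #A := by exact_mod_cast card_filter_le _ _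
  have h5 := mul_le_mul_of_nonneg_right h3 (sq_nonneg (D : ℝ))
  have h6 := mul_le_mul_of_nonneg_right h4 hm0
  linarith

end XSTP

open XSTP in
theorem p_STP (hP : S_PART) (hD : S_DIM) : S_STP := by
  obtain ⟨C, hC, hP⟩ := hP 2 one_le_two
  have hC' : (1 : ℝ) ≤ C := by exact_mod_cast hC
  refine ⟨128 * C ^ 2, by nlinarith, fun A 𝒰 Y σ a hA ha h => ?_⟩
  have h0 : (0 : ℝ) ≤ #A := Nat.cast_nonneg _
  have hσ : 0 ≤ σ := h0.trans hA
  have hAA : (#A : ℝ) * #A ≤ σ ^ 2 := by nlinarith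
  have hq : σ ^ 2 = σ ^ 2 / a ^ 2 * a ^ 2 := by field_simp
  have hq0 : 0 ≤ σ ^ 2 / a ^ 2 := by positivity
  have hC2 : (1 : ℝ) ≤ C ^ 2 := by nlinarith
  rcases lt_or_ge a (4 * C) with h1 | h1
  · have h2 : (∑ U ∈ 𝒰, (#(Y U) : ℝ)) ≤ #A * #A := by
      exact_mod_cast small fun U hU => ⟨(h U hU).1, (h U hU).2.1, (h U hU).2.2.1, (h U hU).2.2.2.1⟩
    have h3 : a ^ 2 ≤ 16 * C ^ 2 := by nlinarith
    have h4 := mul_le_mul_of_nonneg_left h3 hq0
    have h5 := mul_nonneg hq0 (sq_nonneg (C : ℝ))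
    have h6 := mul_nonneg hσ (sq_nonneg (C : ℝ))
    linarith
  have hC4 : (0 : ℝ) < 4 * C := by linarith
  obtain ⟨m, m1, m2⟩ := exists_nat_pow_near ((one_le_div hC4).2 h1) (one_lt_two (α := ℝ))
  rw [le_div_iff₀ hC4] at m1
  rw [div_lt_iff₀ hC4, pow_succ] at m2
  obtain ⟨G, hG, hd, lab, hc⟩ := hP m A
  have big : ∀ U ∈ 𝒰, 4 * (C * 2 ^ m) ≤ #(Y U) := fun U hU => by
    have : (4 * (C * 2 ^ m) : ℝ) ≤ #(Y U) := by linarith [(h U hU).2.2.2.2]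
    exact_mod_cast this
  have h2 := outside (𝒰 := {U ∈ 𝒰 | ¬ In G U}) (Y := Y) hD
    (hc _ (filter_subset _ A) fun x hx => (mem_filter.1 hx).2) hd fun U hU => by
      obtain ⟨k1, k2⟩ := mem_filter.1 hU
      exact ⟨(h U k1).1, (h U k1).2.1, (h U k1).2.2.1, (h U k1).2.2.2.1, big U k1, k2⟩
  have h3 := lines_le hG {U ∈ 𝒰 | In G U} fun U hU => by
    obtain ⟨k1, k2⟩ := mem_filter.1 hU
    obtain ⟨x, hx⟩ := card_pos.1 (two_pos.trans_le (h U k1).2.2.2.1)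
    exact ⟨(h U k1).1, ⟨x, (h U k1).2.2.1 x hx⟩, k2⟩
  have h4 : (∑ U ∈ {U ∈ 𝒰 | In G U}, (#(Y U) : ℝ)) ≤ 2 * #A := by
    exact_mod_cast inside (Y := Y) (A := A) fun U hU => by
      obtain ⟨k1, -⟩ := mem_filter.1 hU
      exact ⟨(h U k1).1, (h U k1).2.1, (h U k1).2.2.1, by have := big U k1; omega⟩
  rw [← sum_filter_add_sum_filter_not 𝒰 (In G)]
  push_cast at h2
  have h5 : a ^ 2 ≤ 64 * C ^ 2 * ((2 : ℝ) ^ m) ^ 2 := by nlinarith
  have h6 : (∑ U ∈ {U ∈ 𝒰 | ¬ In G U}, (#(Y U) : ℝ)) ≤ 128 * C ^ 2 * (σ ^ 2 / a ^ 2) := by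
    refine le_of_mul_le_mul_right ?_ (show (0 : ℝ) < (2 ^ m) ^ 2 by positivity)
    have := mul_le_mul_of_nonneg_left h5 hq0
    linarith
  have h7 := mul_le_mul_of_nonneg_left hC2 hσ
  linarith

end Pool.Agent.P.MP_5f07f1_co.Z
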